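import Pool.Agent.Lib.TWM.S9b
import Pool.Agent.Lib.TWN.Fin2
import Pool.Agent.Lib.TWQ.Q5a
import Pool.Agent.Lib.TW.Exit
import Pool.Agent.Lib.TW.TopM2

/-!
# TANK W, M2: local uniformization for the real valuations with residue field `k`, defect at most
two and finitely generated value group
-/

set_option autoImplicit false

open Polynomial

namespace Pool.Agent.TWM

open Pool.Agent.H15JM (RVal)
open Pool.Agent.LU1 (VPos adj)
open Pool.Agent.LUC (LUs)
open Pool.Agent.TA (CtxR)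
open Pool.Agent.TW (Ctx Full BD valG Triv DefL TwoFG RealCls)

universe u

variable {k Ω : Type u} [Field k] [Field Ω] [Algebra k Ω] {v : RVal Ω} {r : ℕ}

theorem full_of_all {E : IntermediateField k Ω} (hΩ : ∀ g : Ω, IsAlgebraic E g) : Full v E := by
  intro g hg
  obtain ⟨f, hf0, m, hm, hfv⟩ := LU1.comm_value (v := v) E g hg (hΩ g)
  exact ⟨m, hm, f, f.2, hf0, hfv⟩

theorem defL_of_full (h : Ctx k v r) {E : IntermediateField k Ω} (hfull : Full v E) {δ : ℕ}
    (htr : Algebra.trdeg k E ≤ ((r + δ : ℕ) : Cardinal)) : DefL v E δ := by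
  obtain ⟨x, hx, hxi, -⟩ := hfull.exists_span h
  refine ⟨r, 0, x, Fin.elim0, by simpa using htr, hx, hxi, fun i => i.elim0, fun P hP => ?_⟩
  obtain ⟨c, rfl⟩ := MvPolynomial.C_surjective (Fin 0) P
  have hc : c ≠ 0 := fun h0 => hP (by rw [h0, map_zero])
  rw [MvPolynomial.aeval_C]
  exact ⟨(map_ne_zero (algebraMap k Ω)).2 hc, h.triv c hc⟩

/-- Log uniformization for transcendence degree at most `r + 2`, residue field `k` and finitely
generated value group. -/
theorem lus_twoFG (p : ℕ) [Fact p.Prime] [CharP k p] [IsAlgClosed k] [IsAlgClosed Ω] {n : ℕ}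
    (hctx : CtxR k v n r) (hr : 0 < r) (hn : n ≤ r + 2) {E : IntermediateField k Ω} (hE : E.FG)
    (hΩ : ∀ g : Ω, IsAlgebraic E g) (hG : (valG v E).FG) :
    LUs v (algebraMap k Ω).range E.toSubfield := by
  have h : Ctx k v r := TW.ctx_of_ctxR hctx hr
  have : CharP Ω p := charP_of_injective_algebraMap (algebraMap k Ω).injective p
  have hfull : Full v E := full_of_all hΩ
  have htr : Algebra.trdeg k E = n := by
    rw [← hctx.trdeg]
    have h1 : Algebra.IsAlgebraic E Ω := ⟨hΩ⟩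
    have h2 := trdeg_add_eq k E (A := Ω)
    have h3 : Algebra.trdeg E Ω = 0 := trdeg_eq_zero (R := E) (A := Ω)
    rw [← h2, h3, add_zero]
  by_cases hn' : n ≤ r + 1
  · refine TW.lus_of_defL p h.triv hE ?_ (defL_of_full h hfull (by rw [htr]; exact_mod_cast hn'))
    obtain ⟨g, hg0, hg⟩ : ∃ g : Ω, g ≠ 0 ∧ 0 < v g := by
      obtain ⟨X, hX0, hXi, -⟩ := h.rank
      have h1 := hXi.ne_zero ⟨0, hr⟩
      rcases lt_or_gt_of_ne h1 with h2 | h2
      · refine ⟨(X ⟨0, hr⟩)⁻¹, inv_ne_zero (hX0 _), ?_⟩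
        rw [v.map_inv (hX0 _)]
        linarith
      · exact ⟨X ⟨0, hr⟩, hX0 _, h2⟩
    obtain ⟨m, hm, c, hc, hc0, hcv⟩ := hfull g hg0
    exact ⟨c, hc, hc0, by rw [hcv]; positivity⟩
  · have hn2 : n = r + 2 := by omega
    subst hn2
    by_cases hbd : BD p v E
    · exact lus_fg_bd p h hE hfull htr hbd hG hΩ
    · exact TW.lus_of_not_bd p h hE hΩ htr hbd

/-- The real case of M2. -/
theorem realCls_M2FG (p : ℕ) [Fact p.Prime] (k : Type u) [Field k] [IsAlgClosed k] [CharP k p] :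
    RealCls (TwoFG k) :=
  TW.realCls_twoFG fun _ _ _ _ _ _ _ hctx hr hn _ hE hΩ hG => lus_twoFG p hctx hr hn hE hΩ hG

end Pool.Agent.TWM
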