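import Pool.Agent.Lib.TWM.A1

/-!
# TANK W, M2, block A, part 2: the engine lemma, generators, germs (A4, A6, A7, A8)
-/

set_option autoImplicit false

open Polynomial

namespace Pool.Agent.TWM

open Pool.Agent.H15JM (RVal)
open Pool.Agent.LU1 (VPos adj)
open Pool.Agent.LUC (Cl clF)
open Pool.Agent.D2 (Ctx0)
open Pool.Agent.D2P (hen clI mem_clI rootF mem_rootF)

universe u

/-! ### The engine lemma -/

section Eng

variable {Ω : Type u} [Field Ω] {v : RVal Ω}

/-- ENG: `D` closed in `B`, `R₀` dense in `B`, every element of `R₀` approximated by an element of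
`D` with a gain `c`: then `B = D`. -/
theorem engine {B D : AddSubgroup Ω} (hDB : D ≤ B)
    (hcl : ∀ w, (∀ b : ℝ, ∃ d ∈ D, v.Ge b (w - d)) → w ∈ D) {R₀ : Set Ω}
    (hd : ∀ b ∈ B, ∀ M : ℝ, ∃ b' ∈ R₀, v.Ge M (b - b')) {c : ℝ} (hc : 0 < c)
    (H : ∀ b ∈ R₀, b ≠ 0 → ∃ d ∈ D, v.Ge (v b + c) (b - d)) : B ≤ D := by
  have h1 : ∀ b ∈ B, b ≠ 0 → ∃ d ∈ D, v.Ge (v b + c) (b - d) := by
    intro b hb hb0
    obtain ⟨b', hb', h2⟩ := hd b hb (v b + c)
    obtain ⟨h3, h4⟩ := Gt.val_eq hb0 (Gt.of_ge h2 (by linarith))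
    obtain ⟨d, hd', h5⟩ := H b' hb' h3
    refine ⟨d, hd', ?_⟩
    rw [show b - d = (b - b') + (b' - d) by ring]
    exact h2.add (by rw [← h4]; exact h5)
  intro b hb
  by_cases hb0 : b = 0
  · rw [hb0]; exact D.zero_mem
  have h2 : ∀ n : ℕ, ∃ d ∈ D, v.Ge (v b + n * c) (b - d) := by
    intro n
    induction n with
    | zero =>
      refine ⟨0, D.zero_mem, ?_⟩
      rw [Nat.cast_zero, zero_mul, add_zero, sub_zero]
      exact RVal.ge_self b
    | succ n ih =>
      obtain ⟨d, hd', h3⟩ := ih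
      by_cases h0 : b - d = 0
      · exact ⟨d, hd', by rw [h0]; exact RVal.Ge.zero⟩
      · obtain ⟨d', hd'', h4⟩ := h1 (b - d) (B.sub_mem hb (hDB hd')) h0
        refine ⟨d + d', D.add_mem hd' hd'', ?_⟩
        rw [← sub_sub]
        refine h4.mono ?_
        have := h3 h0
        push_cast
        linarith
  refine hcl b fun M => ?_
  obtain ⟨n, hn⟩ := exists_nat_gt ((M - v b) / c)
  obtain ⟨d, hd', h3⟩ := h2 n
  refine ⟨d, hd', h3.mono ?_⟩
  rw [div_lt_iff₀ hc] at hn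
  linarith

end Eng

section Gen

variable {k Ω : Type u} [Field k] [Field Ω] [Algebra k Ω] {v : RVal Ω}
  {A B : IntermediateField k Ω} {z w : Ω} {s r : ℝ} {f : Polynomial Ω}

/-- the engine lemma for closed fields -/
theorem engineF {B D : IntermediateField k Ω} (hDB : D ≤ B) (hD : Cld v D) {R₀ : Set Ω}
    (hd : ∀ b ∈ B, ∀ M : ℝ, ∃ b' ∈ R₀, v.Ge M (b - b')) {c : ℝ} (hc : 0 < c)
    (H : ∀ b ∈ R₀, b ≠ 0 → ∃ d ∈ D, v.Ge (v b + c) (b - d)) : B = D := by
  refine le_antisymm ?_ hDB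
  exact engine (B := B.toSubfield.toAddSubgroup) (D := D.toSubfield.toAddSubgroup) hDB
    (fun w hw => hD hw) hd hc H

/-! ### A4 -/

/-- A4: the residue trick. -/
theorem Imm.nr (hi : Imm v A B) (hw : w ∈ B) (h : Nr v A r w) : Nr' v A r w := by
  obtain ⟨a, ha, h1⟩ := h
  by_cases h0 : w - a = 0
  · exact ⟨a, ha, by rw [h0]; exact Gt.zero⟩
  obtain ⟨a', ha', h2⟩ := hi.imm (w - a) (sub_mem hw (hi.le ha)) h0
  refine ⟨a + a', add_mem ha ha', ?_⟩
  rw [← sub_sub]
  exact h2.mono (h1 h0)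

theorem Imm.trans {C : IntermediateField k Ω} (h : Imm v A B) (h' : Imm v B C) : Imm v A C where
  le := h.le.trans h'.le
  imm := by
    intro c hc hc0
    obtain ⟨b, hb, h1⟩ := h'.imm c hc hc0
    obtain ⟨h2, h3⟩ := Gt.val_eq hc0 h1
    obtain ⟨a, ha, h4⟩ := h.imm b hb h2
    refine ⟨a, ha, ?_⟩
    rw [show c - a = (c - b) + (b - a) by ring]
    exact h1.add (by rw [← h3]; exact h4)

/-! ### Affine changes -/

theorem isAlgebraic_affine {θ c f : Ω} (hθ : IsAlgebraic A θ) (hc : c ∈ A) (hf : f ∈ A) :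
    IsAlgebraic A ((θ - f) * c) := by
  have h1 : IsAlgebraic A f := isAlgebraic_algebraMap (R := A) (⟨f, hf⟩ : A)
  have h2 : IsAlgebraic A c := isAlgebraic_algebraMap (R := A) (⟨c, hc⟩ : A)
  exact (hθ.sub h1).mul h2

theorem TL.affine (h : TL v A z s) {c f : Ω} (hc : c ∈ A) (hc0 : c ≠ 0) (hf : f ∈ A) :
    TL v A (c * z + f) (v c + s) where
  lim := by
    intro ε hε
    obtain ⟨a, ha, h1⟩ := h.lim ε hε
    refine ⟨c * a + f, add_mem (mul_mem hc ha) hf, ?_⟩
    rw [show c * z + f - (c * a + f) = c * (z - a) by ring]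
    exact (RVal.Ge.mul (RVal.ge_self c) h1).mono (by linarith)
  far := by
    intro θ hθ
    obtain ⟨h1, h2⟩ := h.far _ (isAlgebraic_affine hθ (inv_mem hc) hf)
    have h3 : c * z + f - θ = c * (z - (θ - f) * c⁻¹) := by field_simp; ring
    refine ⟨fun h4 => ?_, ?_⟩
    · rw [h4, sub_self] at h3
      rcases mul_eq_zero.1 h3.symm with h5 | h5
      · exact hc0 h5
      · exact h1 (sub_eq_zero.1 h5)
    · rw [h3, v.map_mul hc0 (sub_ne_zero.2 h1)]
      linarith

theorem cadj_affine {c f : Ω} (hc : c ∈ A) (hc0 : c ≠ 0) (hf : f ∈ A) :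
    cadj v A (c * z + f) = cadj v A z := by
  have h1 : adj A (c * z + f) = adj A z := by
    refine le_antisymm (D2P.adj_le (D2P.mem_adj_self A z).2 ?_)
      (D2P.adj_le (D2P.mem_adj_self A _).2 ?_)
    · exact add_mem (mul_mem ((D2P.mem_adj_self A z).2 hc) (D2P.mem_adj_self A z).1)
        ((D2P.mem_adj_self A z).2 hf)
    · have h2 : z = (c * z + f - f) * c⁻¹ := by field_simp; ring
      have h3 : (c * z + f - f) * c⁻¹ ∈ adj A (c * z + f) :=
        mul_mem (sub_mem (D2P.mem_adj_self A _).1 ((D2P.mem_adj_self A _).2 hf))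
          (inv_mem ((D2P.mem_adj_self A _).2 hc))
      rwa [← h2] at h3
  rw [cadj, cadj, h1]

/-- Elements nearer than the radius. -/
theorem TL.congr (h : TL v A z s) (hw : Gt v s (w - z)) : TL v A w s where
  lim := by
    intro ε hε
    obtain ⟨a, ha, h1⟩ := h.lim ε hε
    refine ⟨a, ha, ?_⟩
    rw [show w - a = (w - z) + (z - a) by ring]
    exact (hw.ge.mono (by linarith)).add h1
  far := by
    intro θ hθ
    obtain ⟨h1, h2⟩ := h.far θ hθ
    have h3 : Gt v (v (z - θ)) ((z - θ) - (w - θ)) := by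
      rw [show (z - θ) - (w - θ) = -(w - z) by ring]
      exact (hw.neg).mono h2.le
    obtain ⟨h4, h5⟩ := Gt.val_eq (sub_ne_zero.2 h1) h3
    exact ⟨sub_ne_zero.1 h4, by rw [h5]; exact h2⟩

variable [IsAlgClosed Ω]

/-- A8, the main case: `A⟨w⟩ = A⟨z⟩` if `w ∈ A⟨z⟩` is nearer to `z` than the radius. -/
theorem TL.cadj_congr (h : TL v A z s) (hwm : w ∈ cadj v A z) (hw : Gt v s (w - z)) :
    cadj v A w = cadj v A z := by
  by_cases h0 : w - z = 0
  · rw [sub_eq_zero.1 h0]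
  have hc := hw h0
  symm
  refine engineF (D := cadj v A w) (cadj_le (cld_cadj v A z) (le_cadj v A z) hwm)
    (cld_cadj v A w) (R₀ := {b | ∃ f ∈ PI A, b = f.eval z}) (fun b hb M => ?_)
    (c := v (w - z) - s) (by linarith) ?_
  · obtain ⟨f, hf, h1⟩ := h.dense hb M
    exact ⟨_, ⟨f, hf, rfl⟩, h1⟩
  · rintro _ ⟨f, hf, rfl⟩ hb0
    have hf0 : f ≠ 0 := by
      rintro rfl
      exact hb0 eval_zero
    refine ⟨f.eval w, eval_mem (fun i => le_cadj v A w (hf i)) (self_mem_cadj v A w), ?_⟩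
    refine ge_sub_comm ?_
    have h2 : f.eval w - f.eval z =
        ∑ l ∈ Finset.Icc 1 (taylor z f).natDegree, (taylor z f).coeff l * (w - z) ^ l := by
      rw [eval_eq_taylor f z w, ← taylor_coeff_zero z f, eval_eq_sum_range,
        Finset.sum_range_eq_add_Ico _ (Nat.succ_pos _)]
      rw [pow_zero, mul_one, add_sub_cancel_left]
      rfl
    rw [h2]
    refine RVal.Ge.sum _ _ fun l hl => ?_
    have hl1 : (1 : ℝ) ≤ l := by exact_mod_cast (Finset.mem_Icc.1 hl).1
    refine (RVal.Ge.mul (h.weak (PI_mono (le_algc A) hf) hf0 l)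
      (ge_pow (RVal.ge_self (w - z)) l)).mono ?_
    nlinarith

/-- A8: generators. -/
theorem TL.generator (h : TL v A z s) {c f : Ω} (hc : c ∈ A) (hc0 : c ≠ 0) (hf : f ∈ A)
    (hwm : w ∈ cadj v A z) (hw : Gt v (v c + s) (w - (c * z + f))) :
    TL v A w (v c + s) ∧ cadj v A w = cadj v A z := by
  have h1 := h.affine hc hc0 hf
  refine ⟨h1.congr hw, ?_⟩
  rw [← cadj_affine (v := v) (z := z) hc hc0 hf] at hwm ⊢
  exact h1.cadj_congr hwm hw

/-! ### A6: germs -/

omit [IsAlgClosed Ω] in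
/-- strict variation bound -/
theorem var_bound' (f : Polynomial Ω) (z : Ω) (s r : ℝ)
    (hr : ∀ l : ℕ, 1 ≤ l → Gt v (r - l * s) ((taylor z f).coeff l)) :
    ∃ δ : ℝ, 0 < δ ∧ ∀ ψ, v.Ge (s - δ) (z - ψ) → Gt v r (f.eval z - f.eval ψ) := by
  -- reduce to the non strict one
  have key : ∀ S : Finset ℕ, (∀ l ∈ S, 1 ≤ l) → ∃ ε : ℝ, 0 < ε ∧
      ∀ l ∈ S, v.Ge (r + ε - l * s) ((taylor z f).coeff l) := by
    classical
    intro S
    induction S using Finset.induction_on with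
    | empty => exact fun _ => ⟨1, one_pos, by simp⟩
    | insert l S hl ih =>
      intro hS
      obtain ⟨ε, hε, h1⟩ := ih fun l' h' => hS l' (Finset.mem_insert_of_mem h')
      by_cases h0 : (taylor z f).coeff l = 0
      · refine ⟨ε, hε, fun l' h' => ?_⟩
        rcases Finset.mem_insert.1 h' with rfl | h'
        · rw [h0]; exact RVal.Ge.zero
        · exact h1 l' h'
      · have h2 := hr l (hS l (Finset.mem_insert_self l S)) h0
        refine ⟨min ε (v ((taylor z f).coeff l) - (r - l * s)),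
          lt_min hε (by linarith), fun l' h' => ?_⟩
        rcases Finset.mem_insert.1 h' with rfl | h'
        · refine RVal.Ge.of_le ?_
          have := min_le_right ε (v ((taylor z f).coeff l') - (r - l' * s))
          linarith
        · refine (h1 l' h').mono ?_
          have := min_le_left ε (v ((taylor z f).coeff l) - (r - l * s))
          linarith
  obtain ⟨ε, hε, h1⟩ := key (Finset.Icc 1 (taylor z f).natDegree)
    fun l hl => (Finset.mem_Icc.1 hl).1
  have h2 : ∀ l : ℕ, 1 ≤ l → v.Ge (r + ε - l * s) ((taylor z f).coeff l) := by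
    intro l hl
    by_cases h3 : l ≤ (taylor z f).natDegree
    · exact h1 l (Finset.mem_Icc.2 ⟨hl, h3⟩)
    · rw [coeff_eq_zero_of_natDegree_lt (not_le.1 h3)]
      exact RVal.Ge.zero
  obtain ⟨δ, hδ, h3⟩ := var_bound f z s (r + ε) h2 (half_pos hε)
  exact ⟨δ, hδ, fun ψ hψ => Gt.of_ge (h3 ψ hψ) (by linarith)⟩

omit [IsAlgClosed Ω] in
theorem val_natCast (p : ℕ) [Fact p.Prime] [CharP Ω p] {n : ℕ} (hn : ¬ p ∣ n) :
    (n : Ω) ≠ 0 ∧ v (n : Ω) = 0 := by
  have h0 : (n : Ω) ≠ 0 := fun h => hn ((CharP.cast_eq_zero_iff Ω p n).1 h)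
  have hco : Nat.Coprime n p := ((Fact.out : p.Prime).coprime_iff_not_dvd.2 hn).symm
  obtain ⟨m, hm⟩ := Nat.exists_mul_mod_eq_one_of_coprime hco (Fact.out : p.Prime).one_lt
  have h1 : (n : Ω) * (m : Ω) = 1 := by
    have h2 : ((n * m : ℕ) : Ω) = ((n * m % p : ℕ) : Ω) := by
      rw [CharP.cast_eq_mod Ω p]
    rw [hm.2] at h2
    push_cast at h2
    rw [h2]
  have hm0 : (m : Ω) ≠ 0 := right_ne_zero_of_mul_eq_one h1
  have h3 := v.map_mul h0 hm0
  rw [h1, v.map_one] at h3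
  have h4 := ge_natCast v n h0
  have h5 := ge_natCast v m hm0
  exact ⟨h0, by linarith⟩

omit [IsAlgClosed Ω] in
/-- a non `p`-power has a binomial coefficient prime to `p` -/
theorem exists_choose {p : ℕ} (hp : p.Prime) {l : ℕ} (hl : 1 ≤ l) (h : ∀ i, l ≠ p ^ i) :
    ∃ j, 0 < j ∧ j < l ∧ ¬ p ∣ l.choose j := by
  obtain ⟨a, m, hm, rfl⟩ := Nat.exists_eq_pow_mul_and_not_dvd (Nat.one_le_iff_ne_zero.1 hl) p
    hp.ne_one
  have hm1 : m ≠ 1 := fun h1 => h a (by rw [h1, mul_one])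
  have hm0 : m ≠ 0 := by rintro rfl; simp at hm
  have hpa : 0 < p ^ a := pow_pos hp.pos a
  refine ⟨p ^ a, hpa, ?_, ?_⟩
  · have : 1 < m := by omega
    calc p ^ a = p ^ a * 1 := (mul_one _).symm
      _ < p ^ a * m := Nat.mul_lt_mul_of_pos_left this hpa
  · have key : ∀ a : ℕ, (p ^ a * m).choose (p ^ a) ≡ m [MOD p] := by
      intro a
      induction a with
      | zero => rw [pow_zero, one_mul, Nat.choose_one_right]
      | succ a ih =>
        have : Fact p.Prime := ⟨hp⟩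
        have h1 := Choose.choose_modEq_choose_mod_mul_choose_div_nat
          (n := p ^ (a + 1) * m) (k := p ^ (a + 1)) (p := p)
        have h2 : p ^ (a + 1) * m % p = 0 := by
          rw [pow_succ', mul_assoc]; exact Nat.mul_mod_right _ _
        have h3 : p ^ (a + 1) % p = 0 := by rw [pow_succ']; exact Nat.mul_mod_right _ _
        have h4 : p ^ (a + 1) * m / p = p ^ a * m := by
          rw [pow_succ', mul_assoc]; exact Nat.mul_div_cancel_left _ hp.pos
        have h5 : p ^ (a + 1) / p = p ^ a := by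
          rw [pow_succ']; exact Nat.mul_div_cancel_left _ hp.pos
        rw [h2, h3, h4, h5, Nat.choose_self, one_mul] at h1
        exact h1.trans ih
    intro hdvd
    exact hm (((key a).dvd_iff dvd_rfl).1 hdvd)

/-- an additive polynomial in Frobenius form -/
noncomputable def addP (p : ℕ) (e : ℕ) (c : ℕ → Ω) : Polynomial Ω :=
  ∑ i ∈ Finset.range e, Polynomial.C (c i) * X ^ p ^ i

omit [IsAlgClosed Ω] in
theorem addP_eval (p e : ℕ) (c : ℕ → Ω) (z : Ω) :
    (addP p e c).eval z = ∑ i ∈ Finset.range e, c i * z ^ p ^ i := by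
  rw [addP, eval_finsetSum]
  exact Finset.sum_congr rfl fun i _ => by rw [eval_mul, eval_C, eval_pow, eval_X]

omit [IsAlgClosed Ω] in
theorem addP_mem {p e : ℕ} {c : ℕ → Ω} (hc : ∀ i, c i ∈ A) : addP p e c ∈ PI A :=
  sum_mem fun i _ => mul_mem (C_mem_PI (hc i)) (pow_mem X_mem_PI _)

omit [IsAlgClosed Ω] in
theorem coeff_taylor_addP (p : ℕ) [Fact p.Prime] [CharP Ω p] (e : ℕ) (c : ℕ → Ω) (z : Ω) {l : ℕ}
    (hl : 1 ≤ l) : (taylor z (addP p e c)).coeff l =
      ∑ i ∈ Finset.range e, if l = p ^ i then c i else 0 := by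
  rw [addP, map_sum, finsetSum_coeff]
  refine Finset.sum_congr rfl fun i _ => ?_
  rw [taylor_mul, taylor_C, coeff_C_mul]
  have h1 : taylor z (X ^ p ^ i : Polynomial Ω) = X ^ p ^ i + Polynomial.C (z ^ p ^ i) := by
    have : CharP (Polynomial Ω) p := inferInstance
    rw [taylor_pow, taylor_X, add_pow_char_pow, C_pow]
  rw [h1, coeff_add, coeff_C_of_ne_zero (by omega), add_zero, coeff_X_pow]
  split_ifs
  · rw [mul_one]
  · rw [mul_zero]

omit [IsAlgClosed Ω] in
theorem coeff_taylor_addP_pow (p : ℕ) [Fact p.Prime] [CharP Ω p] (e : ℕ) (c : ℕ → Ω) (z : Ω)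
    (i : ℕ) : (taylor z (addP p e c)).coeff (p ^ i) = if i < e then c i else 0 := by
  rw [coeff_taylor_addP p e c z (Nat.one_le_pow _ _ (Fact.out : p.Prime).pos)]
  have h1 : ∀ j, (p ^ i = p ^ j) ↔ (i = j) := fun j =>
    (Nat.pow_right_injective (Fact.out : p.Prime).two_le).eq_iff
  simp only [h1, Finset.sum_ite_eq, Finset.mem_range]

/-- A6, the second half: a non trivial additive polynomial is far from the algebraic elements. -/
theorem TL.germ_far (h : TL v A z s) (p : ℕ) [Fact p.Prime] [CharP Ω p] {e : ℕ} {c : ℕ → Ω}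
    (hc : ∀ i, c i ∈ TWM.algc A) {i : ℕ} (hi : i < e) (hci : c i ≠ 0) {θ : Ω}
    (hθ : IsAlgebraic A θ) :
    (∑ j ∈ Finset.range e, c j * z ^ p ^ j) ≠ θ ∧
      v ((∑ j ∈ Finset.range e, c j * z ^ p ^ j) - θ) < v (c i) + (p ^ i : ℕ) * s := by
  have h1 : (taylor z (addP p e c)).coeff (p ^ i) = c i := by
    rw [coeff_taylor_addP_pow, if_pos hi]
  have h2 := h.poly_far (f := addP p e c) (addP_mem hc)
    (Nat.one_le_pow _ _ (Fact.out : p.Prime).pos) (by rw [h1]; exact hci) hθ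
  rwa [addP_eval, h1] at h2

/-- Hasse derivatives of a limit: `≥`. -/
theorem TL.coeff_ge (h : TL v A z s) (hf : f ∈ PI A) (hl : Lim v A r (f.eval z)) {l : ℕ}
    (hl1 : 1 ≤ l) : v.Ge (r - l * s) ((taylor z f).coeff l) := by
  intro h0
  by_contra hcon
  rw [not_le] at hcon
  obtain ⟨a, ha, h1⟩ := hl ((r - l * s) - v ((taylor z f).coeff l)) (by linarith)
  obtain ⟨h2, h3⟩ := h.poly_far (PI_mono (le_algc A) hf) hl1 h0
    (isAlgebraic_algebraMap (R := A) (⟨a, ha⟩ : A))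
  have h4 := h1 (sub_ne_zero.2 h2)
  have h5 : v (f.eval z - a) < v ((taylor z f).coeff l) + l * s := h3
  linarith

/-- Hasse derivatives of a limit: `>` if the order is not a `p`-power. -/
theorem TL.coeff_gt (h : TL v A z s) (p : ℕ) [Fact p.Prime] [CharP Ω p] (hf : f ∈ PI A)
    (hl : Lim v A r (f.eval z)) {l : ℕ} (hl1 : 1 ≤ l) (hlp : ∀ i, l ≠ p ^ i) :
    Gt v (r - l * s) ((taylor z f).coeff l) := by
  intro h0
  obtain ⟨j, hj0, hjl, hj⟩ := exists_choose (Fact.out : p.Prime) hl1 hlp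
  set g := hasseDeriv j f with hg
  have hgm : g ∈ PI A := hasse_mem_PI hf j
  have hgc : (taylor z g).coeff (l - j) = (l.choose j : Ω) * (taylor z f).coeff l := by
    rw [taylor_coeff, taylor_coeff, hg]
    have h1 := congrArg (fun L => L f) (hasseDeriv_comp (R := Ω) (l - j) j)
    simp only [LinearMap.comp_apply, LinearMap.smul_apply] at h1
    rw [h1, show l - j + j = l by omega, eval_smul, nsmul_eq_mul, ← Nat.choose_symm (by omega)]
    congr 3
    omega
  obtain ⟨h1, h2⟩ := val_natCast (Ω := Ω) (v := v) p hj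
  have h3 : (taylor z g).coeff (l - j) ≠ 0 := by
    rw [hgc]; exact mul_ne_zero h1 h0
  have hg0 : g ≠ 0 := by
    intro h4
    rw [h4, map_zero, coeff_zero] at h3
    exact h3 rfl
  have h5 := h.strict (PI_mono (le_algc A) hgm) hg0 (l := l - j) (by omega) h3
  have h6 : g.eval z = (taylor z f).coeff j := by rw [taylor_coeff]
  have h7 := h.coeff_ge hf hl (l := j) (by omega) (by
    rw [← h6]; exact h.eval_ne (PI_mono (le_algc A) hgm) hg0)
  rw [hgc, v.map_mul h1 h0, h2, zero_add, h6] at h5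
  have h8 : ((l - j : ℕ) : ℝ) = l - j := by rw [Nat.cast_sub hjl.le]
  rw [h8] at h5
  nlinarith

/-- A6: the germ of a limit in `A⟨z⟩`. The coefficients may be taken in a set `M` of
representatives of the leading terms of `A`. -/
theorem TL.germ (h : TL v A z s) (p : ℕ) [Fact p.Prime] [CharP Ω p] {M : Set Ω}
    (hM : ∀ c ∈ A, c ≠ 0 → ∃ m ∈ M, m ∈ A ∧ Gt v (v c) (c - m)) (hw : w ∈ cadj v A z)
    (hl : Lim v A r w) :
    ∃ f ∈ A, ∃ (e : ℕ) (c : ℕ → Ω),
      (∀ i, c i = 0 ∨ (c i ∈ M ∧ c i ∈ A ∧ c i ≠ 0 ∧ v (c i) + (p ^ i : ℕ) * s = r)) ∧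
      Gt v r (w - (f + ∑ i ∈ Finset.range e, c i * z ^ p ^ i)) := by
  classical
  obtain ⟨g, hg, h1⟩ := h.dense hw (r + 1)
  have hgl : Lim v A r (g.eval z) := by
    intro ε hε
    obtain ⟨a, ha, h2⟩ := hl ε hε
    refine ⟨a, ha, ?_⟩
    rw [show g.eval z - a = (w - a) - (w - g.eval z) by ring]
    exact h2.sub (h1.mono (by linarith))
  set γ : ℕ → Ω := fun i => (taylor z g).coeff (p ^ i) with hγ
  have hpp : ∀ i, 1 ≤ p ^ i := fun i => Nat.one_le_pow _ _ (Fact.out : p.Prime).pos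
  -- representatives
  have hrep : ∀ i, γ i ≠ 0 → ∃ m ∈ M, m ∈ A ∧ Gt v (v (γ i)) (γ i - m) := by
    intro i hi
    have hgi : hasseDeriv (p ^ i) g ∈ PI A := hasse_mem_PI hg _
    have hev : (hasseDeriv (p ^ i) g).eval z = γ i := by rw [hγ]; exact (taylor_coeff _ _ _).symm
    have hg0 : hasseDeriv (p ^ i) g ≠ 0 := by
      intro h2
      rw [h2, eval_zero] at hev
      exact hi hev.symm
    obtain ⟨δ, hδ, h2⟩ := h.near (PI_mono (le_algc A) hgi) hg0
    obtain ⟨ψ, hψ, h3⟩ := h.lim δ hδ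
    have h4 := h2 ψ h3
    rw [hev] at h4
    have h4' : Gt v (v (γ i)) (γ i - (hasseDeriv (p ^ i) g).eval ψ) :=
      Gt.of_ge h4 (by linarith)
    obtain ⟨h5, h6⟩ := Gt.val_eq hi h4'
    obtain ⟨m, hmM, hmA, hm⟩ := hM _ (eval_mem hgi hψ) h5
    refine ⟨m, hmM, hmA, ?_⟩
    rw [show γ i - m = (γ i - (hasseDeriv (p ^ i) g).eval ψ) +
      ((hasseDeriv (p ^ i) g).eval ψ - m) by ring]
    exact h4'.add (by rw [← h6]; exact hm)
  let c : ℕ → Ω := fun i =>
    if hi : γ i ≠ 0 ∧ v (γ i) + (p ^ i : ℕ) * s = r then (hrep i hi.1).choose else 0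
  have hc : ∀ i, c i = 0 ∨ (c i ∈ M ∧ c i ∈ A ∧ c i ≠ 0 ∧ v (c i) + (p ^ i : ℕ) * s = r) := by
    intro i
    by_cases hi : γ i ≠ 0 ∧ v (γ i) + (p ^ i : ℕ) * s = r
    · right
      have h2 : c i = (hrep i hi.1).choose := dif_pos hi
      obtain ⟨h3, h4, h5⟩ := (hrep i hi.1).choose_spec
      rw [← h2] at h3 h4 h5
      obtain ⟨h6, h7⟩ := Gt.val_eq hi.1 h5
      exact ⟨h3, h4, h6, by rw [h7]; exact hi.2⟩
    · left
      exact dif_neg hi
  have hcA : ∀ i, c i ∈ A := by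
    intro i
    rcases hc i with h2 | h2
    · rw [h2]; exact zero_mem _
    · exact h2.2.1
  set e := (taylor z g).natDegree + 1 with he
  set g' := g - addP p e c with hg'
  have hg'm : g' ∈ PI A := sub_mem hg (addP_mem hcA)
  have hcoef : ∀ l : ℕ, 1 ≤ l → Gt v (r - l * s) ((taylor z g').coeff l) := by
    intro l hl1
    rw [hg', map_sub, coeff_sub]
    by_cases hlp : ∀ i, l ≠ p ^ i
    · have h2 : (taylor z (addP p e c)).coeff l = 0 := by
        rw [coeff_taylor_addP p e c z hl1]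
        exact Finset.sum_eq_zero fun i _ => if_neg (hlp i)
      rw [h2, sub_zero]
      exact h.coeff_gt p hg hgl hl1 hlp
    · rw [not_forall] at hlp
      obtain ⟨i, hi⟩ := hlp
      rw [not_not] at hi
      subst hi
      have h2 : (taylor z (addP p e c)).coeff (p ^ i) = c i := by
        rw [coeff_taylor_addP_pow]
        split_ifs with h3
        · rfl
        · symm
          apply dif_neg
          rintro ⟨h4, -⟩
          refine h4 (coeff_eq_zero_of_natDegree_lt ?_)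
          have h5 : i < p ^ i := Nat.lt_pow_self (Fact.out : p.Prime).one_lt
          omega
      rw [h2]
      by_cases hi : γ i ≠ 0 ∧ v (γ i) + (p ^ i : ℕ) * s = r
      · have h3 : c i = (hrep i hi.1).choose := dif_pos hi
        have h4 := (hrep i hi.1).choose_spec.2.2
        rw [← h3] at h4
        refine h4.mono ?_
        linarith [hi.2]
      · have h3 : c i = 0 := dif_neg hi
        rw [h3, sub_zero]
        intro h4
        have h5 := h.coeff_ge hg hgl (hpp i) h4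
        refine lt_of_le_of_ne h5 fun h6 => hi ⟨h4, ?_⟩
        show v ((taylor z g).coeff (p ^ i)) + _ = _
        rw [← h6]
        ring
  obtain ⟨δ, hδ, h2⟩ := var_bound' g' z s r hcoef
  obtain ⟨ψ, hψ, h3⟩ := h.lim δ hδ
  refine ⟨g'.eval ψ, eval_mem hg'm hψ, e, c, hc, ?_⟩
  have h4 := h2 ψ h3
  have h5 : g'.eval z = g.eval z - ∑ i ∈ Finset.range e, c i * z ^ p ^ i := by
    rw [hg', eval_sub, addP_eval]
  have h6 : w - (g'.eval ψ + ∑ i ∈ Finset.range e, c i * z ^ p ^ i) =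
      (w - g.eval z) + (g'.eval z - g'.eval ψ) := by rw [h5]; ring
  rw [h6]
  exact (Gt.of_ge h1 (by linarith)).add h4

/-- A7: `A` is algebraically closed in `A⟨z⟩`. -/
theorem TL.alg_mem (h : TL v A z s) (p : ℕ) [Fact p.Prime] [CharP Ω p] (hA : Cld v A)
    (hw : w ∈ cadj v A z) (hθ : IsAlgebraic A w) : w ∈ A := by
  by_contra hwA
  have hne : ∀ a ∈ A, w ≠ a := by
    rintro a ha rfl
    exact hwA ha
  let S : Set ℝ := {x | ∃ a ∈ A, x = v (w - a)}
  have hSne : S.Nonempty := ⟨_, 0, zero_mem _, rfl⟩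
  have hSb : BddAbove S := by
    by_contra hcon
    apply hwA
    apply hA
    intro b
    rw [not_bddAbove_iff] at hcon
    obtain ⟨x, ⟨a, ha, rfl⟩, hx⟩ := hcon b
    exact ⟨a, ha, RVal.Ge.of_le hx.le⟩
  have hl : Lim v A (sSup S) w := by
    intro ε hε
    obtain ⟨x, ⟨a, ha, rfl⟩, hx⟩ := exists_lt_of_lt_csSup hSne (sub_lt_self (sSup S) hε)
    exact ⟨a, ha, RVal.Ge.of_le hx.le⟩
  obtain ⟨f, hf, e, c, hc, h1⟩ := h.germ p (M := (A : Set Ω))
    (fun c hc hc0 => ⟨c, hc, hc, by rw [sub_self]; exact Gt.zero⟩) hw hl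
  by_cases hall : ∀ i < e, c i = 0
  · have h2 : ∑ i ∈ Finset.range e, c i * z ^ p ^ i = 0 :=
      Finset.sum_eq_zero fun i hi => by rw [hall i (Finset.mem_range.1 hi), zero_mul]
    rw [h2, add_zero] at h1
    have h3 := h1 (sub_ne_zero.2 (hne f hf))
    have h4 := le_csSup hSb (show v (w - f) ∈ S from ⟨f, hf, rfl⟩)
    linarith
  · push Not at hall
    obtain ⟨i, hi, hci⟩ := hall
    have hcA : ∀ i, c i ∈ TWM.algc A := by
      intro i
      rcases hc i with h2 | h2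
      · rw [h2]; exact zero_mem _
      · exact le_algc A h2.2.1
    have hv : v (c i) + (p ^ i : ℕ) * s = sSup S := by
      rcases hc i with h2 | h2
      · exact absurd h2 hci
      · exact h2.2.2.2
    have hwf : IsAlgebraic A (w - f) :=
      hθ.sub (isAlgebraic_algebraMap (R := A) (⟨f, hf⟩ : A))
    obtain ⟨h3, h4⟩ := h.germ_far p hcA hi hci hwf
    have h5 : w - (f + ∑ j ∈ Finset.range e, c j * z ^ p ^ j) =
        -((∑ j ∈ Finset.range e, c j * z ^ p ^ j) - (w - f)) := by ring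
    rw [h5] at h1
    have h6 := h1 (neg_ne_zero.2 (sub_ne_zero.2 h3))
    rw [v.map_neg _ (sub_ne_zero.2 h3)] at h6
    linarith

end Gen

end Pool.Agent.TWM
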