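import Pool.Agent.Lib.TWM.Ore

/-!
# Graded submodules, spans, and the reduction of relations (E3, E4)
-/

set_option autoImplicit false

open Polynomial Finset

namespace Pool.Agent.TWM

open Pool.Agent.H15JM (RVal)

universe u

/-- `Z r` (`r` real) are the homogeneous parts of a graded submodule of `Ω`. -/
structure GSub (k : Type u) {Ω : Type u} [Field k] [Field Ω] [Algebra k Ω] (p : ℕ)
    (G : AddSubgroup ℝ) (M : ℝ → Ω) (Z : ℝ → Ω → Prop) : Prop where
  zero : ∀ r, Z r 0
  add : ∀ r a b, Z r a → Z r b → Z r (a + b)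
  op : ∀ (c : k) (s d : ℝ) (j : ℕ) (w : Ω), d ∈ G → Z s w →
    Z (d + (p : ℝ) ^ j * s) (algebraMap k Ω c * M d * w ^ p ^ j)

section

variable {k Ω : Type u} [Field k] [Field Ω] [Algebra k Ω] {v : RVal Ω}
  {p : ℕ} {G : AddSubgroup ℝ} {M : ℝ → Ω} {Z L : ℝ → Ω → Prop}

theorem GSub.sum (h : GSub k p G M Z) {ι : Type*} {S : Finset ι} {w : ι → Ω} {r : ℝ}
    (hw : ∀ i ∈ S, Z r (w i)) : Z r (∑ i ∈ S, w i) := by
  classical
  induction S using Finset.induction_on with
  | empty => rw [Finset.sum_empty]; exact h.zero r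
  | insert i S hi ih =>
    rw [Finset.sum_insert hi]
    exact h.add _ _ _ (hw i (Finset.mem_insert_self i S))
      (ih fun j hj => hw j (Finset.mem_insert_of_mem hj))

theorem GSub.ev (h : GSub k p G M Z) {s r : ℝ} {f : k[X]} (hf : IsOp p G s r f) {w : Ω}
    (hw : Z s w) : Z r (ev p M s r f w) := by
  rw [TWM.ev, Polynomial.sum]
  refine h.sum fun j hj => ?_
  have h1 := h.op (f.coeff j) s (r - (p : ℝ) ^ j * s) j w (hf j (mem_support_iff.mp hj)) hw
  rwa [sub_add_cancel] at h1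

theorem GSub.neg (h : GSub k p G M Z) (hM : MS v G M) {s : ℝ} {w : Ω} (hw : Z s w) :
    Z s (-w) := by
  have h1 := h.op (-1) s 0 0 w G.zero_mem hw
  rwa [pow_zero, one_mul, zero_add, pow_zero, pow_one, hM.zero, mul_one, _root_.map_neg,
    _root_.map_one, neg_one_mul] at h1

theorem GSub.sub (h : GSub k p G M Z) (hM : MS v G M) {s : ℝ} {w w' : Ω} (hw : Z s w)
    (hw' : Z s w') : Z s (w - w') := by
  rw [sub_eq_add_neg]
  exact h.add _ _ _ hw (h.neg hM hw')

/-- `x` is at the radius `t` in the span of the `w i`, `i ∈ S`, modulo `Z`. -/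
def InSpan (k : Type u) {Ω : Type u} [Field k] [Field Ω] [Algebra k Ω] (p : ℕ)
    (G : AddSubgroup ℝ) (M : ℝ → Ω) (Z : ℝ → Ω → Prop) {ι : Type*} (r : ι → ℝ) (w : ι → Ω)
    (S : Finset ι) (t : ℝ) (x : Ω) : Prop :=
  ∃ Q : ι → k[X], (∀ i ∈ S, IsOp p G (r i) t (Q i)) ∧
    Z t (x - ∑ i ∈ S, ev p M (r i) t (Q i) (w i))

/-- The `w i`, `i ∈ S`, are free modulo `Z`. -/
def FreeOn (k : Type u) {Ω : Type u} [Field k] [Field Ω] [Algebra k Ω] (p : ℕ)
    (G : AddSubgroup ℝ) (M : ℝ → Ω) (Z : ℝ → Ω → Prop) {ι : Type*} (r : ι → ℝ) (w : ι → Ω)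
    (S : Finset ι) : Prop :=
  ∀ (R : ℝ) (P : ι → k[X]), (∀ i ∈ S, IsOp p G (r i) R (P i)) →
    Z R (∑ i ∈ S, ev p M (r i) R (P i) (w i)) → ∀ i ∈ S, P i = 0

variable {ι κ : Type*} {r : ι → ℝ} {w : ι → Ω} {S : Finset ι} {t : ℝ} {x y : Ω}

theorem InSpan.zero (hZ : GSub k p G M Z) : InSpan k p G M Z r w S t 0 := by
  refine ⟨fun _ => 0, fun i _ => IsOp.zero, ?_⟩
  rw [Finset.sum_eq_zero fun i _ => ev_zero _, sub_zero]
  exact hZ.zero t

theorem InSpan.of_Z (h : Z t x) : InSpan k p G M Z r w S t x := by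
  refine ⟨fun _ => 0, fun i _ => IsOp.zero, ?_⟩
  rwa [Finset.sum_eq_zero fun i _ => ev_zero _, sub_zero]

theorem InSpan.add (hZ : GSub k p G M Z) (hx : InSpan k p G M Z r w S t x)
    (hy : InSpan k p G M Z r w S t y) : InSpan k p G M Z r w S t (x + y) := by
  obtain ⟨Q, hQ, h⟩ := hx
  obtain ⟨Q', hQ', h'⟩ := hy
  refine ⟨fun i => Q i + Q' i, fun i hi => (hQ i hi).add (hQ' i hi), ?_⟩
  have h1 := hZ.add _ _ _ h h'
  convert h1 using 1
  rw [Finset.sum_congr rfl fun i _ => ev_add _ _ _, Finset.sum_add_distrib]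
  ring

theorem InSpan.sum (hZ : GSub k p G M Z) {T : Finset κ} {z : κ → Ω}
    (h : ∀ j ∈ T, InSpan k p G M Z r w S t (z j)) : InSpan k p G M Z r w S t (∑ j ∈ T, z j) := by
  classical
  induction T using Finset.induction_on with
  | empty => rw [Finset.sum_empty]; exact InSpan.zero hZ
  | insert i S hi ih =>
    rw [Finset.sum_insert hi]
    exact InSpan.add hZ (h i (Finset.mem_insert_self i S))
      (ih fun j hj => h j (Finset.mem_insert_of_mem hj))

theorem InSpan.op [Fact p.Prime] [CharP k p] [CharP Ω p] (hM : MS v G M) (hZ : GSub k p G M Z)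
    (hx : InSpan k p G M Z r w S t x) {t' : ℝ} {f : k[X]} (hf : IsOp p G t t' f) :
    InSpan k p G M Z r w S t' (ev p M t t' f x) := by
  obtain ⟨Q, hQ, h⟩ := hx
  refine ⟨fun i => tw p f (Q i), fun i hi => (hQ i hi).tw hf, ?_⟩
  have h1 := hZ.ev hf h
  rw [ev_sub_right, ev_sum_right] at h1
  rwa [Finset.sum_congr rfl fun i hi => ev_tw hM (hQ i hi) hf _]

theorem InSpan.trans [Fact p.Prime] [CharP k p] [CharP Ω p] (hM : MS v G M)
    (hZ : GSub k p G M Z) {r' : κ → ℝ} {w' : κ → Ω} {S' : Finset κ}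
    (h1 : ∀ i ∈ S, InSpan k p G M Z r' w' S' (r i) (w i)) (h2 : InSpan k p G M Z r w S t x) :
    InSpan k p G M Z r' w' S' t x := by
  obtain ⟨Q, hQ, h⟩ := h2
  have h3 := InSpan.add hZ (InSpan.of_Z (r := r') (w := w') (S := S') h)
    (InSpan.sum hZ fun i hi => (h1 i hi).op hM hZ (hQ i hi))
  rwa [sub_add_cancel] at h3

theorem InSpan.self (hM : MS v G M) (hZ : GSub k p G M Z) {i : ι} (hi : i ∈ S) :
    InSpan k p G M Z r w S (r i) (w i) := by
  classical
  refine ⟨fun j => if j = i then 1 else 0, fun j _ => ?_, ?_⟩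
  · dsimp only
    split_ifs with h
    · subst h
      intro l hl
      rw [coeff_one] at hl
      split_ifs at hl with h'
      · rw [h', pow_zero, one_mul, sub_self]; exact G.zero_mem
      · exact absurd rfl hl
    · exact IsOp.zero
  · rw [Finset.sum_eq_single i]
    · dsimp only
      rw [if_pos rfl, ev_one hM, sub_self]
      exact hZ.zero _
    · intro j _ hj
      dsimp only
      rw [if_neg hj, ev_zero]
    · exact fun h => absurd hi h

theorem InSpan.mono {S' : Finset ι} (hS : S ⊆ S')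
    (h : InSpan k p G M Z r w S t x) : InSpan k p G M Z r w S' t x := by
  classical
  obtain ⟨Q, hQ, h⟩ := h
  refine ⟨fun i => if i ∈ S then Q i else 0, fun i _ => ?_, ?_⟩
  · dsimp only
    split_ifs with h'
    · exact hQ i h'
    · exact IsOp.zero
  · rw [← Finset.sum_subset hS (f := fun i => ev p M (r i) t (if i ∈ S then Q i else 0) (w i))]
    · rwa [Finset.sum_congr rfl fun i hi => by rw [if_pos hi]]
    · intro i _ hi
      rw [if_neg hi, ev_zero]

theorem InSpan.lim (hL : GSub k p G M L) (hZL : ∀ r a, Z r a → L r a)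
    (hw : ∀ i ∈ S, L (r i) (w i)) (h : InSpan k p G M Z r w S t x) : L t x := by
  obtain ⟨Q, hQ, h⟩ := h
  have h1 := hL.add _ _ _ (hZL _ _ h) (hL.sum fun i hi => hL.ev (hQ i hi) (hw i hi))
  rwa [sub_add_cancel] at h1

/-- The span of the sum: `w` may be changed modulo `Z`. -/
theorem InSpan.congr (hZ : GSub k p G M Z) (h : InSpan k p G M Z r w S t x)
    (hxy : Z t (y - x)) : InSpan k p G M Z r w S t y := by
  have h1 := InSpan.add hZ h (InSpan.of_Z (r := r) (w := w) (S := S) hxy)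
  rwa [add_sub_cancel] at h1

open Classical in
/-- The size of an operator. -/
noncomputable def sz (f : k[X]) : ℕ := if f = 0 then 0 else f.natDegree + 1

theorem sz_lt {f g : k[X]} (hf : f ≠ 0) (h : g.natDegree ≤ f.natDegree)
    (h' : g.coeff f.natDegree = 0) : sz g < sz f := by
  rw [sz, sz, if_neg hf]
  split_ifs with h0
  · omega
  · have h1 : g.natDegree ≠ f.natDegree := by
      intro h1
      rw [← h1] at h'
      exact h0 (leadingCoeff_eq_zero.mp h')
    omega

/-- **E4.** A finite family is equivalent to one which is free, or has a relation whose tops are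
pairwise non divisible; no element of the new family is in the span of the others. -/
theorem exists_reduced [IsAlgClosed k] [Fact p.Prime] [CharP k p] [CharP Ω p] (hM : MS v G M)
    (hZ : GSub k p G M Z) (hL : GSub k p G M L) (hZL : ∀ r a, Z r a → L r a) [Fintype ι]
    [DecidableEq ι] (r : ι → ℝ) (w₀ : ι → Ω) (hw₀ : ∀ i, L (r i) (w₀ i)) :
    ∃ (S : Finset ι) (w : ι → Ω), (∀ i ∈ S, L (r i) (w i)) ∧
      (∀ i, InSpan k p G M Z r w S (r i) (w₀ i)) ∧
      (∀ i ∈ S, InSpan k p G M Z r w₀ Finset.univ (r i) (w i)) ∧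
      (∀ i ∈ S, ¬ InSpan k p G M Z r w (S.erase i) (r i) (w i)) ∧
      (FreeOn k p G M Z r w S ∨ ∃ (R : ℝ) (Q : ι → k[X]), (∀ i ∈ S, IsOp p G (r i) R (Q i)) ∧
        (∃ i ∈ S, Q i ≠ 0) ∧ Z R (∑ i ∈ S, ev p M (r i) R (Q i) (w i)) ∧
        (∀ i ∈ S, Q i ≠ 0 → 1 ≤ (Q i).natDegree) ∧
        ∀ i ∈ S, ∀ j ∈ S, i ≠ j → Q i ≠ 0 → Q j ≠ 0 → (Q j).natDegree ≤ (Q i).natDegree →
          r j - (p : ℝ) ^ ((Q i).natDegree - (Q j).natDegree) * r i ∉ G) := by
  classical
  -- families with the same span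
  let Good : Finset ι → (ι → Ω) → Prop := fun S w => (∀ i ∈ S, L (r i) (w i)) ∧
    (∀ i, InSpan k p G M Z r w S (r i) (w₀ i)) ∧
    (∀ i ∈ S, InSpan k p G M Z r w₀ Finset.univ (r i) (w i))
  have hex : ∃ n, ∃ S w, Good S w ∧ S.card = n :=
    ⟨_, Finset.univ, w₀, ⟨fun i _ => hw₀ i, fun i => InSpan.self hM hZ (Finset.mem_univ i),
      fun i _ => InSpan.self hM hZ (Finset.mem_univ i)⟩, rfl⟩
  set N := Nat.find hex with hN
  have hmin : ∀ S w, Good S w → N ≤ S.card := fun S w h => Nat.find_min' hex ⟨S, w, h, rfl⟩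
  -- minimality
  have hred : ∀ S w, Good S w → S.card = N → ∀ i ∈ S,
      ¬ InSpan k p G M Z r w (S.erase i) (r i) (w i) := by
    intro S w hg hS i hi hsp
    have h1 : ∀ j ∈ S, InSpan k p G M Z r w (S.erase i) (r j) (w j) := by
      intro j hj
      by_cases hji : j = i
      · rw [hji]; exact hsp
      · exact InSpan.self hM hZ (Finset.mem_erase.mpr ⟨hji, hj⟩)
    have h2 := hmin (S.erase i) w ⟨fun j hj => hg.1 j (Finset.mem_of_mem_erase hj),
      fun j => InSpan.trans hM hZ h1 (hg.2.1 j),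
      fun j hj => hg.2.2 j (Finset.mem_of_mem_erase hj)⟩
    rw [Finset.card_erase_of_mem hi, hS] at h2
    have : 0 < S.card := Finset.card_pos.mpr ⟨i, hi⟩
    omega
  obtain ⟨S₁, w₁, hg₁, hS₁⟩ := Nat.find_spec hex
  by_cases hfree : FreeOn k p G M Z r w₁ S₁
  · exact ⟨S₁, w₁, hg₁.1, hg₁.2.1, hg₁.2.2, hred S₁ w₁ hg₁ hS₁, Or.inl hfree⟩
  -- a relation of minimal size
  have hex2 : ∃ n, ∃ S w, Good S w ∧ S.card = N ∧ ∃ (R : ℝ) (Q : ι → k[X]),
      (∀ i ∈ S, IsOp p G (r i) R (Q i)) ∧ (∃ i ∈ S, Q i ≠ 0) ∧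
      Z R (∑ i ∈ S, ev p M (r i) R (Q i) (w i)) ∧ ∑ i ∈ S, sz (Q i) = n := by
    unfold FreeOn at hfree
    push Not at hfree
    obtain ⟨R, Q, h1, h2, i, hi, h3⟩ := hfree
    exact ⟨_, S₁, w₁, hg₁, hS₁, R, Q, h1, ⟨i, hi, h3⟩, h2, rfl⟩
  obtain ⟨S, w, hg, hS, R, Q, hQ, hne, hrel, hsize⟩ := Nat.find_spec hex2
  refine ⟨S, w, hg.1, hg.2.1, hg.2.2, hred S w hg hS, Or.inr ⟨R, Q, hQ, hne, hrel, ?_, ?_⟩⟩
  · -- no operator of degree `0`
    intro i hi hQi
    by_contra hdeg
    have hdeg0 : (Q i).natDegree = 0 := by omega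
    obtain ⟨c, hc⟩ : ∃ c, Q i = C c := ⟨_, eq_C_of_natDegree_eq_zero hdeg0⟩
    have hc0 : c ≠ 0 := by rintro rfl; rw [map_zero] at hc; exact hQi hc
    have hG : R - r i ∈ G := by
      have h := hQ i hi 0 (by rw [hc, coeff_C_zero]; exact hc0)
      rwa [pow_zero, one_mul] at h
    refine hred S w hg hS i hi ?_
    -- solve for `w i`
    have hopc : IsOp p G R (r i) (C c⁻¹ : k[X]) := by
      have h := IsOp.mono (p := p) (G := G) (s := R) (r := r i) (a := c⁻¹) (j := 0) (fun _ => by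
        rw [pow_zero, one_mul]
        have := G.neg_mem hG
        rwa [neg_sub] at this)
      rwa [pow_zero, mul_one] at h
    have h1 := hZ.ev hopc hrel
    rw [← Finset.add_sum_erase S _ hi, ev_add_right] at h1
    have h2 : ev p M R (r i) (C c⁻¹) (ev p M (r i) R (Q i) (w i)) = w i := by
      rw [← ev_tw hM (hQ i hi) hopc, hc]
      have h3 : tw p (C c⁻¹) (C c : k[X]) = 1 := by
        have h4 := tw_mono (p := p) c⁻¹ c 0 0
        rw [pow_zero, mul_one, mul_one, pow_zero, pow_one, inv_mul_cancel₀ hc0, map_one,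
          mul_one] at h4
        exact h4
      rw [h3, ev_one hM]
    rw [h2, ev_sum_right] at h1
    refine ⟨fun j => - tw p (C c⁻¹) (Q j), fun j hj =>
      ((hQ j (Finset.mem_of_mem_erase hj)).tw hopc).neg, ?_⟩
    convert h1 using 1
    rw [Finset.sum_congr rfl fun j hj => by
      rw [ev_neg, ev_tw hM (hQ j (Finset.mem_of_mem_erase hj)) hopc], Finset.sum_neg_distrib,
      sub_neg_eq_add]
  · -- divisible tops
    intro i hi j hj hij hQi hQj hdeg hG
    set e := (Q i).natDegree - (Q j).natDegree with he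
    have hpj : p ^ (Q j).natDegree ≠ 0 := pow_ne_zero _ (Fact.out : p.Prime).ne_zero
    obtain ⟨c, hc⟩ := IsAlgClosed.exists_pow_nat_eq ((Q i).leadingCoeff / (Q j).leadingCoeff)
      (Nat.pos_of_ne_zero hpj)
    have hlj : (Q j).leadingCoeff ≠ 0 := leadingCoeff_ne_zero.mpr hQj
    set m : k[X] := C c * X ^ e with hm
    have hmop : IsOp p G (r i) (r j) m := IsOp.mono fun _ => hG
    set w' : ι → Ω := Function.update w j (w j + ev p M (r i) (r j) m (w i)) with hw'
    set Q' : ι → k[X] := Function.update Q i (Q i - tw p (Q j) m) with hQ'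
    have hw'j : w' j = w j + ev p M (r i) (r j) m (w i) := Function.update_self _ _ _
    have hw'n : ∀ l, l ≠ j → w' l = w l := fun l hl => Function.update_of_ne hl _ _
    have hQ'i : Q' i = Q i - tw p (Q j) m := Function.update_self _ _ _
    have hQ'n : ∀ l, l ≠ i → Q' l = Q l := fun l hl => Function.update_of_ne hl _ _
    -- `w` and `w'` have the same span
    have hs1 : ∀ l ∈ S, InSpan k p G M Z r w S (r l) (w' l) := by
      intro l hl
      by_cases hlj : l = j
      · rw [hlj, hw'j]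
        exact InSpan.add hZ (InSpan.self hM hZ hj) ((InSpan.self hM hZ hi).op hM hZ hmop)
      · rw [hw'n l hlj]; exact InSpan.self hM hZ hl
    have hs2 : ∀ l ∈ S, InSpan k p G M Z r w' S (r l) (w l) := by
      intro l hl
      by_cases hlj : l = j
      · have h1 : w j = w' j + ev p M (r i) (r j) (-m) (w' i) := by
          rw [hw'j, hw'n i hij, ev_neg]; ring
        rw [hlj, h1]
        exact InSpan.add hZ (InSpan.self hM hZ hj) ((InSpan.self hM hZ hi).op hM hZ hmop.neg)
      · rw [← hw'n l hlj]; exact InSpan.self hM hZ hl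
    have hg' : Good S w' := by
      refine ⟨fun l hl => InSpan.lim hL hZL hg.1 (hs1 l hl),
        fun l => InSpan.trans hM hZ hs2 (hg.2.1 l), fun l hl => InSpan.trans hM hZ hg.2.2 (hs1 l hl)⟩
    -- the relation
    have hrel' : ∑ l ∈ S, ev p M (r l) R (Q' l) (w' l) = ∑ l ∈ S, ev p M (r l) R (Q l) (w l) := by
      rw [← Finset.add_sum_erase S _ hi, ← Finset.add_sum_erase S _ hi,
        ← Finset.add_sum_erase (S.erase i) _ (Finset.mem_erase.mpr ⟨hij.symm, hj⟩),
        ← Finset.add_sum_erase (S.erase i) _ (Finset.mem_erase.mpr ⟨hij.symm, hj⟩)]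
      have h1 : ∑ l ∈ (S.erase i).erase j, ev p M (r l) R (Q' l) (w' l) =
          ∑ l ∈ (S.erase i).erase j, ev p M (r l) R (Q l) (w l) := by
        refine Finset.sum_congr rfl fun l hl => ?_
        have hl1 := Finset.ne_of_mem_erase hl
        have hl2 := Finset.ne_of_mem_erase (Finset.mem_of_mem_erase hl)
        rw [hw'n l hl1, hQ'n l hl2]
      rw [h1, hQ'i, hw'n i hij, hQ'n j hij.symm, hw'j, ev_sub, ev_add_right,
        ev_tw hM hmop (hQ j hj)]
      ring
    -- the size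
    have hsz : sz (Q' i) < sz (Q i) := by
      rw [hQ'i]
      have htw : tw p (Q j) m = 0 ∨ (tw p (Q j) m).natDegree ≤ (Q i).natDegree := by
        right
        refine (tw_natDegree_le _ _).trans ?_
        have h1 : m.natDegree ≤ e := natDegree_C_mul_X_pow_le _ _
        omega
      refine sz_lt hQi ?_ ?_
      · refine (natDegree_sub_le _ _).trans (max_le le_rfl ?_)
        rcases htw with h | h
        · rw [h, natDegree_zero]; exact Nat.zero_le _
        · exact h
      · have h1 : (tw p (Q j) m).coeff (Q i).natDegree = (Q i).leadingCoeff := by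
          have hc0 : c ≠ 0 := by
            rintro rfl
            rw [zero_pow hpj] at hc
            exact div_ne_zero (leadingCoeff_ne_zero.mpr hQi) hlj hc.symm
          have h2 : m.natDegree = e := natDegree_C_mul_X_pow _ _ hc0
          have h3 : m.leadingCoeff = c := by
            rw [hm, leadingCoeff_mul_X_pow, leadingCoeff_C]
          have h4 := tw_ne_zero_aux (p := p) (Q j) m
          rw [h2, h3, hc] at h4
          have h5 : (Q j).natDegree + e = (Q i).natDegree := by omega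
          rw [h5] at h4
          rw [h4, mul_div_cancel₀ _ hlj]
        rw [coeff_sub, h1, coeff_natDegree, sub_self]
    have hlt : ∑ l ∈ S, sz (Q' l) < ∑ l ∈ S, sz (Q l) := by
      rw [← Finset.add_sum_erase S _ hi, ← Finset.add_sum_erase S (fun l => sz (Q l)) hi]
      have h1 : ∑ l ∈ S.erase i, sz (Q' l) = ∑ l ∈ S.erase i, sz (Q l) :=
        Finset.sum_congr rfl fun l hl => by rw [hQ'n l (Finset.ne_of_mem_erase hl)]
      omega
    have hmin2 := Nat.find_min' hex2 (m := ∑ l ∈ S, sz (Q' l)) ⟨S, w', hg', hS, R, Q', ?_, ?_, ?_, rfl⟩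
    · omega
    · intro l hl
      by_cases hli : l = i
      · rw [hli, hQ'i]
        exact (hQ i hi).sub (hmop.tw (hQ j hj))
      · rw [hQ'n l hli]; exact hQ l hl
    · exact ⟨j, hj, by rw [hQ'n j hij.symm]; exact hQj⟩
    · rw [hrel']; exact hrel

end

end Pool.Agent.TWM
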