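import Pool.Agent.Lib.TWM.A1
import Pool.Agent.Lib.TWM.Red

/-!
# Laurent polynomials, the submodules `N + O(>r)` and `LIM_r(N)`, roots of operators (E5)
-/

set_option autoImplicit false

open Polynomial Finset

namespace Pool.Agent.TWM

open Pool.Agent.H15JM (RVal)
open Pool.Agent.LU1 (VPos adj)
open Pool.Agent.D2 (Ctx0)

universe u

variable {k Ω : Type u} [Field k] [Field Ω] [Algebra k Ω] {v : RVal Ω}
  {p : ℕ} {G : AddSubgroup ℝ} {M : ℝ → Ω}

/-- The Laurent polynomial with the coefficients `L`. -/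
noncomputable def evL (M : ℝ → Ω) (L : ℝ →₀ k) : Ω := L.sum fun g a => algebraMap k Ω a * M g

/-- The exponents are in `G`. -/
def InG (G : AddSubgroup ℝ) (L : ℝ →₀ k) : Prop := ∀ g, L g ≠ 0 → g ∈ G

/-- The Laurent polynomials are dense in `N`. -/
def LDense (v : RVal Ω) (G : AddSubgroup ℝ) (M : ℝ → Ω) (N : IntermediateField k Ω) : Prop :=
  ∀ a ∈ N, ∀ b : ℝ, ∃ L : ℝ →₀ k, InG G L ∧ v.Ge b (a - evL M L)

theorem evL_zero : evL M (0 : ℝ →₀ k) = 0 := Finsupp.sum_zero_index

theorem evL_add (L L' : ℝ →₀ k) : evL M (L + L') = evL M L + evL M L' := by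
  classical
  rw [evL, Finsupp.sum_add_index']
  · rfl
  · intro g; rw [map_zero, zero_mul]
  · intro g a b; rw [map_add, add_mul]

theorem evL_neg (L : ℝ →₀ k) : evL M (-L) = - evL M L := by
  have h := evL_add (M := M) L (-L)
  rw [add_neg_cancel, evL_zero] at h
  exact (neg_eq_of_add_eq_zero_right h.symm).symm

theorem evL_sub (L L' : ℝ →₀ k) : evL M (L - L') = evL M L - evL M L' := by
  rw [sub_eq_add_neg, evL_add, evL_neg, sub_eq_add_neg]

theorem evL_single (g : ℝ) (a : k) : evL M (Finsupp.single g a) = algebraMap k Ω a * M g := by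
  rw [evL, Finsupp.sum_single_index]
  rw [map_zero, zero_mul]

theorem InG.add {L L' : ℝ →₀ k} (h : InG G L) (h' : InG G L') : InG G (L + L') := by
  intro g hg
  by_cases h0 : L g = 0
  · refine h' g fun h1 => hg ?_
    rw [Finsupp.add_apply, h0, h1, add_zero]
  · exact h g h0

theorem InG.neg {L : ℝ →₀ k} (h : InG G L) : InG G (-L) := by
  intro g hg
  refine h g fun h1 => hg ?_
  rw [Finsupp.neg_apply, h1, neg_zero]

theorem InG.sub {L L' : ℝ →₀ k} (h : InG G L) (h' : InG G L') : InG G (L - L') := by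
  rw [sub_eq_add_neg]
  exact h.add h'.neg

theorem term_ge (h : Ctx0 k v) (hM : MS v G M) {g : ℝ} (hg : g ∈ G) (a : k) :
    v.Ge g (algebraMap k Ω a * M g) := by
  have h1 := RVal.Ge.mul (h.ge a) (fun _ => (hM.val g hg).ge)
  rwa [zero_add] at h1

theorem term_val (h : Ctx0 k v) (hM : MS v G M) {g : ℝ} (hg : g ∈ G) {a : k} (ha : a ≠ 0) :
    algebraMap k Ω a * M g ≠ 0 ∧ v (algebraMap k Ω a * M g) = g := by
  have h1 : algebraMap k Ω a ≠ 0 := by rwa [Ne, map_eq_zero]
  exact ⟨mul_ne_zero h1 (hM.ne g hg), by rw [v.map_mul h1 (hM.ne g hg), h.triv a ha, hM.val g hg,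
    zero_add]⟩

theorem evL_ge (h : Ctx0 k v) (hM : MS v G M) {L : ℝ →₀ k} (hL : InG G L) {b : ℝ}
    (hb : ∀ g, L g ≠ 0 → b ≤ g) : v.Ge b (evL M L) := by
  rw [evL, Finsupp.sum]
  refine RVal.Ge.sum (v := v) _ _ fun g hg => ?_
  have hg' := Finsupp.mem_support_iff.mp hg
  exact (term_ge h hM (hL g hg') _).mono (hb g hg')

theorem evL_gt (h : Ctx0 k v) (hM : MS v G M) {L : ℝ →₀ k} (hL : InG G L) {b : ℝ}
    (hb : ∀ g, L g ≠ 0 → b < g) : Gt v b (evL M L) := by
  rw [evL, Finsupp.sum]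
  refine Gt.sum _ _ fun g hg => ?_
  have hg' := Finsupp.mem_support_iff.mp hg
  exact Gt.of_ge (term_ge h hM (hL g hg') _) (hb g hg')

/-- The leading term. -/
theorem evL_lead (h : Ctx0 k v) (hM : MS v G M) {L : ℝ →₀ k} (hL : InG G L) (h0 : L ≠ 0) :
    ∃ m, L m ≠ 0 ∧ (∀ g, L g ≠ 0 → m ≤ g) ∧ evL M L ≠ 0 ∧ v (evL M L) = m := by
  classical
  have hne : L.support.Nonempty := Finsupp.support_nonempty_iff.mpr h0
  obtain ⟨m, hm, hmin⟩ := L.support.exists_min_image id hne
  have hm' := Finsupp.mem_support_iff.mp hm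
  have h1 : evL M L = algebraMap k Ω (L m) * M m + evL M (L.erase m) := by
    rw [← evL_single, ← evL_add, Finsupp.single_add_erase]
  obtain ⟨t1, t2⟩ := term_val h hM (hL m hm') hm'
  have h2 : Gt v m (evL M (L.erase m)) := by
    refine evL_gt h hM (fun g hg => ?_) fun g hg => ?_
    · refine hL g fun h3 => hg ?_
      rw [Finsupp.erase_apply, h3, ite_self]
    · rw [Finsupp.erase_apply] at hg
      split_ifs at hg with h3
      · exact absurd rfl hg
      · exact lt_of_le_of_ne (hmin g (Finsupp.mem_support_iff.mpr hg)) (Ne.symm h3)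
  have h3 := Gt.val_eq (v := v) (x := algebraMap k Ω (L m) * M m) (y := evL M L) t1 (by
    rw [t2, h1, sub_add_cancel_left]
    exact h2.neg)
  exact ⟨m, hm', fun g hg => hmin g (Finsupp.mem_support_iff.mpr hg), h3.1, h3.2.trans t2⟩

theorem eq_zero_of_gt (h : Ctx0 k v) (hM : MS v G M) {L : ℝ →₀ k} (hL : InG G L) {b : ℝ}
    (hb : Gt v b (evL M L)) {g : ℝ} (hg : g ≤ b) : L g = 0 := by
  by_contra hne
  obtain ⟨m, -, h2, h3, h4⟩ := evL_lead h hM hL (fun h0 => hne (by rw [h0]; rfl))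
  have h5 := hb h3
  have h6 := h2 g hne
  linarith

theorem eq_zero_of_ge (h : Ctx0 k v) (hM : MS v G M) {L : ℝ →₀ k} (hL : InG G L) {b : ℝ}
    (hb : v.Ge b (evL M L)) {g : ℝ} (hg : g < b) : L g = 0 := by
  by_contra hne
  obtain ⟨m, -, h2, h3, h4⟩ := evL_lead h hM hL (fun h0 => hne (by rw [h0]; rfl))
  have h5 := hb h3
  have h6 := h2 g hne
  linarith

variable {N B : IntermediateField k Ω} {s r : ℝ}

/-- The values of an immediate extension are in `G`. -/
theorem val_mem (h : Ctx0 k v) (hM : MS v G M) (hN : LDense v G M N) (hB : Imm v N B) {b : Ω}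
    (hb : b ∈ B) (h0 : b ≠ 0) : v b ∈ G := by
  obtain ⟨a, ha, h1⟩ := hB.imm b hb h0
  obtain ⟨h2, h3⟩ := h1.val_eq h0
  obtain ⟨L, hL, h4⟩ := hN a ha (v b + 1)
  have h5 : Gt v (v a) (a - evL M L) := Gt.of_ge h4 (by rw [h3]; linarith)
  obtain ⟨h6, h7⟩ := h5.val_eq h2
  have h8 : L ≠ 0 := by rintro rfl; exact h6 evL_zero
  obtain ⟨m, h9, -, -, h10⟩ := evL_lead h hM hL h8
  rw [← h3, ← h7, h10]
  exact hL m h9

theorem ev_mem {F : IntermediateField k Ω} (hF : ∀ g ∈ G, M g ∈ F) {f : k[X]}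
    (hf : IsOp p G s r f) {w : Ω} (hw : w ∈ F) : ev p M s r f w ∈ F := by
  rw [ev, Polynomial.sum]
  exact sum_mem fun j hj => mul_mem (mul_mem (F.algebraMap_mem _)
    (hF _ (hf j (mem_support_iff.mp hj)))) (pow_mem hw _)

theorem gsub_Nr' [Fact p.Prime] [CharP Ω p] (h : Ctx0 k v) (hM : MS v G M)
    {F : IntermediateField k Ω} (hF : ∀ g ∈ G, M g ∈ F) : GSub k p G M (Nr' v F) where
  zero := fun r => ⟨0, zero_mem _, by rw [sub_zero]; exact Gt.zero⟩
  add := by
    rintro r a b ⟨a', ha', ha⟩ ⟨b', hb', hb⟩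
    refine ⟨a' + b', add_mem ha' hb', ?_⟩
    have := ha.add hb
    rwa [show a + b - (a' + b') = (a - a') + (b - b') by ring]
  op := by
    rintro c s d j w hd ⟨a, ha, hw⟩
    refine ⟨algebraMap k Ω c * M d * a ^ p ^ j,
      mul_mem (mul_mem (F.algebraMap_mem c) (hF d hd)) (pow_mem ha _), ?_⟩
    rw [← mul_sub, ← sub_pow_char_pow]
    have h1 : Gt v ((p : ℝ) ^ j * s) ((w - a) ^ p ^ j) := by
      intro h0
      have h2 : w - a ≠ 0 := fun h3 => h0 (by
        rw [h3, zero_pow (pow_ne_zero _ (Fact.out : p.Prime).ne_zero)])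
      rw [v.map_pow h2]
      push_cast
      have h3 : (0 : ℝ) < (p : ℝ) ^ j := pow_pos (by exact_mod_cast (Fact.out : p.Prime).pos) _
      exact mul_lt_mul_of_pos_left (hw h2) h3
    have h2 := h1.mul_ge (term_ge h hM hd c)
    rw [mul_comm (algebraMap k Ω c * M d), add_comm d]
    exact h2

theorem gsub_Lim [Fact p.Prime] [CharP Ω p] (h : Ctx0 k v) (hM : MS v G M)
    {F B : IntermediateField k Ω} (hF : ∀ g ∈ G, M g ∈ F) (hFB : F ≤ B) :
    GSub k p G M (fun r w => w ∈ B ∧ Lim v F r w) where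
  zero := fun r => ⟨zero_mem _, fun ε _ => ⟨0, zero_mem _, by rw [sub_zero]; exact RVal.Ge.zero⟩⟩
  add := by
    rintro r a b ⟨haB, ha⟩ ⟨hbB, hb⟩
    refine ⟨add_mem haB hbB, fun ε hε => ?_⟩
    obtain ⟨a', ha', h1⟩ := ha ε hε
    obtain ⟨b', hb', h2⟩ := hb ε hε
    refine ⟨a' + b', add_mem ha' hb', ?_⟩
    rw [show a + b - (a' + b') = (a - a') + (b - b') by ring]
    exact h1.add h2
  op := by
    rintro c s d j w hd ⟨hwB, hw⟩
    refine ⟨mul_mem (mul_mem (B.algebraMap_mem c) (hFB (hF d hd))) (pow_mem hwB _), fun ε hε => ?_⟩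
    have h3 : (0 : ℝ) < (p : ℝ) ^ j := pow_pos (by exact_mod_cast (Fact.out : p.Prime).pos) _
    obtain ⟨a, ha, h1⟩ := hw (ε / (p : ℝ) ^ j) (by positivity)
    refine ⟨algebraMap k Ω c * M d * a ^ p ^ j,
      mul_mem (mul_mem (F.algebraMap_mem c) (hF d hd)) (pow_mem ha _), ?_⟩
    rw [← mul_sub, ← sub_pow_char_pow]
    have h2 := RVal.Ge.mul (term_ge h hM hd c) (ge_pow h1 (p ^ j))
    refine h2.mono ?_
    push_cast
    have : (p : ℝ) ^ j * (s - ε / (p : ℝ) ^ j) = (p : ℝ) ^ j * s - ε := by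
      field_simp
    rw [this]
    linarith

/-- The value of an operator of degree `≤ J` at an element of gap `≤ η`. -/
theorem ev_ge [Fact p.Prime] (h : Ctx0 k v) (hM : MS v G M) {f : k[X]} (hf : IsOp p G s r f)
    {w : Ω} {η c : ℝ} (hw : v.Ge (s - η) w) (hc : ∀ j, f.coeff j ≠ 0 → (p : ℝ) ^ j * η ≤ c) :
    v.Ge (r - c) (ev p M s r f w) := by
  rw [ev, Polynomial.sum]
  refine RVal.Ge.sum (v := v) _ _ fun j hj => ?_
  have hj' := mem_support_iff.mp hj
  have h1 := RVal.Ge.mul (term_ge h hM (hf j hj') (f.coeff j)) (ge_pow hw (p ^ j))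
  refine h1.mono ?_
  push_cast
  have := hc j hj'
  nlinarith

theorem filter_ne {L : ℝ →₀ k} {Q : ℝ → Prop} [DecidablePred Q] {g : ℝ}
    (hg : L.filter Q g ≠ 0) : Q g ∧ L g ≠ 0 := by
  by_cases h : Q g
  · rw [Finsupp.filter_apply_pos Q L h] at hg
    exact ⟨h, hg⟩
  · rw [Finsupp.filter_apply_neg Q L h] at hg
    exact absurd rfl hg

/-- One step of E5. -/
theorem root_step [IsAlgClosed k] [Fact p.Prime] [CharP k p] [CharP Ω p] (h : Ctx0 k v)
    (hM : MS v G M) (hMN : ∀ g ∈ G, M g ∈ N) (hN : LDense v G M N) (hB : Imm v N B)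
    {f : k[X]} (h0 : f ≠ 0) (hf : IsOp p G s r f) {w : Ω} (hw : w ∈ B)
    (hlim : Lim v N r (ev p M s r f w)) {ε η : ℝ} (hε : 0 < ε) (hη : 0 ≤ η)
    (hwη : v.Ge (s - η) w) : ∃ a ∈ N, v.Ge (s - max (η / p) ε) (w - a) := by
  classical
  have hp0 : (0 : ℝ) < p := by exact_mod_cast (Fact.out : p.Prime).pos
  set J := f.natDegree with hJ
  set c := f.leadingCoeff with hc
  have hc0 : c ≠ 0 := leadingCoeff_ne_zero.mpr h0
  have hq0 : p ^ J ≠ 0 := pow_ne_zero _ (Fact.out : p.Prime).ne_zero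
  have hqr : (0 : ℝ) < (p : ℝ) ^ J := pow_pos hp0 _
  set lam := r - (p : ℝ) ^ J * s with hlam
  have hlamG : lam ∈ G := hf J (by rw [hJ, coeff_natDegree]; exact hc0)
  obtain ⟨a, ha, h1⟩ := hlim ((p : ℝ) ^ J * ε) (by positivity)
  obtain ⟨L, hL, h2⟩ := hN a ha (r - (p : ℝ) ^ J * ε)
  -- the exponents in the class
  set P : ℝ → Prop := fun g => (g - lam) / (p : ℝ) ^ J ∈ G with hP
  set L1 := L.filter P with hL1
  set L2 := L.filter (fun g => ¬ P g) with hL2
  have hL12 : evL M L = evL M L1 + evL M L2 := by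
    rw [← evL_add, hL1, hL2, Finsupp.filter_add_filter_not]
  have hrt : ∀ b : k, ∃ c' : k, c * c' ^ p ^ J = b := by
    intro b
    obtain ⟨c', hc'⟩ := IsAlgClosed.exists_pow_nat_eq (b / c) (Nat.pos_of_ne_zero hq0)
    exact ⟨c', by rw [hc', mul_div_cancel₀ _ hc0]⟩
  choose rt hrt using hrt
  set y : Ω := ∑ g ∈ L1.support, algebraMap k Ω (rt (L1 g)) * M ((g - lam) / (p : ℝ) ^ J) with hy
  have hPL1 : ∀ g ∈ L1.support, P g := fun g hg =>
    (Finset.mem_filter.mp (Finsupp.support_filter P L ▸ hg)).2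
  have hyN : y ∈ N := sum_mem fun g hg => mul_mem (N.algebraMap_mem _) (hMN _ (hPL1 g hg))
  have hy2 : algebraMap k Ω c * M lam * y ^ p ^ J = evL M L1 := by
    rw [hy, sum_pow_char_pow, Finset.mul_sum, evL, Finsupp.sum]
    refine Finset.sum_congr rfl fun g hg => ?_
    rw [mul_pow, ← hM.pow (hPL1 g hg) (p ^ J)]
    have e1 : ((p ^ J : ℕ) : ℝ) * ((g - lam) / (p : ℝ) ^ J) = g - lam := by
      push_cast
      field_simp
    have e2 : g - lam ∈ G := by
      have := G.nsmul_mem (hPL1 g hg) (p ^ J)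
      rwa [nsmul_eq_mul, e1] at this
    have e3 : M g = M lam * M (g - lam) := by
      rw [← hM.mul _ hlamG _ e2, add_sub_cancel]
    rw [e1, e3, ← map_pow]
    have e4 := hrt (L1 g)
    have e5 : algebraMap k Ω (L1 g) = algebraMap k Ω c * algebraMap k Ω (rt (L1 g) ^ p ^ J) := by
      rw [← map_mul, e4]
    rw [e5]
    ring
  refine ⟨y, hyN, fun hne => ?_⟩
  by_contra hlt
  rw [not_le] at hlt
  set β := v (w - y) with hβ
  have hβG : β ∈ G := val_mem h hM hN hB (sub_mem hw (hB.le hyN)) hne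
  have hβ1 : η / p < s - β := by
    have := le_max_left (η / p) ε
    linarith
  have hβ2 : ε < s - β := by
    have := le_max_right (η / p) ε
    linarith
  -- the top term
  set T := algebraMap k Ω c * M lam * (w - y) ^ p ^ J with hT
  obtain ⟨t1, t2⟩ := term_val h hM hlamG hc0
  have hT0 : T ≠ 0 := mul_ne_zero t1 (pow_ne_zero _ hne)
  have hTv : v T = lam + (p : ℝ) ^ J * β := by
    rw [hT, v.map_mul t1 (pow_ne_zero _ hne), t2, v.map_pow hne]
    push_cast
    rfl
  have hTv2 : v T = r - (p : ℝ) ^ J * (s - β) := by rw [hTv, hlam]; ring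
  -- the lower terms
  have hsplit : ev p M s r f w = ev p M s r f.eraseLead w +
      algebraMap k Ω c * M lam * w ^ p ^ J := by
    conv_lhs => rw [← eraseLead_add_C_mul_X_pow f, ev_add, ev_mono]
  have hlow : Gt v (v T) (ev p M s r f.eraseLead w) := by
    rw [hTv2]
    by_cases hJ0 : J = 0
    · have : f.eraseLead = 0 := by
        rw [← degree_eq_bot]
        by_contra hbot
        have h3 : f.eraseLead.degree < f.degree := degree_eraseLead_lt h0
        have h4 : f.degree ≤ 0 := by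
          rw [degree_eq_natDegree h0, ← hJ, hJ0]; rfl
        exact hbot ((Nat.WithBot.lt_zero_iff).mp (h3.trans_le h4))
      rw [this, ev_zero]
      exact Gt.zero
    · have hJ1 : 1 ≤ J := Nat.one_le_iff_ne_zero.mpr hJ0
      have h3 : v.Ge (r - (p : ℝ) ^ (J - 1) * η) (ev p M s r f.eraseLead w) := by
        refine ev_ge h hM (fun j hj => ?_) hwη fun j hj => ?_
        · by_cases hjJ : j = f.natDegree
          · rw [hjJ, eraseLead_coeff_natDegree] at hj
            exact absurd rfl hj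
          · rw [eraseLead_coeff_of_ne j hjJ] at hj
            exact hf j hj
        · have hjlt : j < J := by
            by_contra hge
            rw [not_lt] at hge
            rcases eq_or_lt_of_le hge with h4 | h4
            · rw [← h4, hJ, eraseLead_coeff_natDegree] at hj
              exact hj rfl
            · rw [eraseLead_coeff_of_ne j (by omega), coeff_eq_zero_of_natDegree_lt h4] at hj
              exact hj rfl
          refine mul_le_mul_of_nonneg_right ?_ hη
          exact pow_le_pow_right₀ (by exact_mod_cast (Fact.out : p.Prime).one_lt.le) (by omega)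
      refine Gt.of_ge h3 ?_
      have h4 : (p : ℝ) ^ J = (p : ℝ) ^ (J - 1) * p := by
        rw [← pow_succ]
        congr 1
        omega
      have h5 : (p : ℝ) ^ (J - 1) * η < (p : ℝ) ^ J * (s - β) := by
        rw [h4, mul_assoc]
        refine mul_lt_mul_of_pos_left ?_ (pow_pos hp0 _)
        rw [div_lt_iff₀ hp0] at hβ1
        linarith
      linarith
  have happ : Gt v (v T) (ev p M s r f w - evL M L) := by
    rw [hTv2]
    have h3 : v.Ge (r - (p : ℝ) ^ J * ε) (ev p M s r f w - evL M L) := by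
      have := h1.add h2
      rwa [sub_add_sub_cancel] at this
    refine Gt.of_ge h3 ?_
    have := mul_lt_mul_of_pos_left hβ2 hqr
    linarith
  have hfin : Gt v (v T) (T - evL M L2) := by
    have e1 : T - evL M L2 = (ev p M s r f w - evL M L) - ev p M s r f.eraseLead w := by
      rw [hsplit, hL12, ← hy2, hT, sub_pow_char_pow]
      ring
    rw [e1]
    exact happ.sub hlow
  obtain ⟨h3, h4⟩ := hfin.val_eq hT0
  have hL2G : InG G L2 := by
    intro g hg
    exact hL g (filter_ne hg).2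
  have hL20 : L2 ≠ 0 := by
    intro h5
    rw [h5] at h3
    exact h3 evL_zero
  obtain ⟨m, h5, -, -, h6⟩ := evL_lead h hM hL2G hL20
  refine (filter_ne h5).1 ?_
  rw [hP]
  dsimp only
  rw [← h6, h4, hTv, add_sub_cancel_left, mul_div_cancel_left₀ _ hqr.ne']
  exact hβG

/-- **E5.** -/
theorem lim_of_op [IsAlgClosed k] [Fact p.Prime] [CharP k p] [CharP Ω p] (h : Ctx0 k v)
    (hM : MS v G M) (hMN : ∀ g ∈ G, M g ∈ N) (hN : LDense v G M N) (hB : Imm v N B)
    {f : k[X]} (h0 : f ≠ 0) (hf : IsOp p G s r f) {w : Ω} (hw : w ∈ B)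
    (hlim : Lim v N r (ev p M s r f w)) : Lim v N s w := by
  intro ε hε
  have hp1 : (1 : ℝ) < p := by exact_mod_cast (Fact.out : p.Prime).one_lt
  set η : ℝ := max 0 (s - v w) with hη
  have key : ∀ n : ℕ, ∃ a ∈ N, v.Ge (s - max (η / (p : ℝ) ^ n) ε) (w - a) := by
    intro n
    induction n with
    | zero =>
      refine ⟨0, zero_mem _, ?_⟩
      rw [sub_zero, pow_zero, div_one]
      intro _
      have h1 := le_max_left η ε
      have h2 := le_max_right 0 (s - v w)
      linarith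
    | succ n ih =>
      obtain ⟨a, ha, h1⟩ := ih
      have hlim' : Lim v N r (ev p M s r f (w - a)) := by
        intro ε' hε'
        obtain ⟨b, hb, h2⟩ := hlim ε' hε'
        refine ⟨b - ev p M s r f a, sub_mem hb (ev_mem hMN hf ha), ?_⟩
        rwa [ev_sub_right, sub_sub_sub_cancel_right]
      obtain ⟨a', ha', h2⟩ := root_step h hM hMN hN hB h0 hf (sub_mem hw (hB.le ha)) hlim' hε
        (le_max_of_le_right hε.le) h1
      refine ⟨a + a', add_mem ha ha', ?_⟩
      rw [← sub_sub]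
      refine h2.mono ?_
      have h3 : max (max (η / (p : ℝ) ^ n) ε / p) ε ≤ max (η / (p : ℝ) ^ (n + 1)) ε := by
        refine max_le ?_ (le_max_right _ _)
        rcases le_total (η / (p : ℝ) ^ n) ε with h4 | h4
        · rw [max_eq_right h4]
          refine le_trans ?_ (le_max_right _ _)
          exact div_le_self hε.le hp1.le
        · rw [max_eq_left h4, pow_succ, ← div_div]
          exact le_max_left _ _
      linarith
  obtain ⟨n, hn⟩ : ∃ n : ℕ, η / (p : ℝ) ^ n ≤ ε := by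
    obtain ⟨n, hn⟩ := pow_unbounded_of_one_lt (η / ε) hp1
    refine ⟨n, ?_⟩
    rw [div_lt_iff₀ hε] at hn
    rw [div_le_iff₀ (by positivity)]
    linarith [mul_comm ε ((p : ℝ) ^ n)]
  obtain ⟨a, ha, h1⟩ := key n
  refine ⟨a, ha, ?_⟩
  rwa [max_eq_right hn] at h1

end Pool.Agent.TWM
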