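import Pool.Agent.Lib.TWM.Defs

/-!
# M2: the roots of a polynomial and its Taylor coefficients

* `Roots.taylor_ge`: if all roots `θ` of `P` satisfy `v (z - θ) ≤ s`, the Taylor coefficients of `P`
  at `z` satisfy `v (P_l) ≥ v (P z) - l s`; `Roots.taylor_gt`: the strict form;
* `Roots.near_root`: if `v (P z)` is big there is a root near `z`.
-/

set_option autoImplicit false

open Polynomial

namespace Pool.Agent.TWM.Roots

open Pool.Agent.H15JM (RVal)

universe u

variable {Ω : Type u} [Field Ω] {v : RVal Ω}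

theorem gt_ge {c : ℝ} {x : Ω} (h : Gt v c x) : v.Ge c x := fun h0 => (h h0).le

theorem gt_of_ge {c d : ℝ} (hcd : c < d) {x : Ω} (h : v.Ge d x) : Gt v c x :=
  fun h0 => hcd.trans_le (h h0)

theorem gt_add {c : ℝ} {x y : Ω} (hx : Gt v c x) (hy : Gt v c y) : Gt v c (x + y) := by
  intro h
  by_cases h1 : x = 0
  · subst h1; rw [zero_add] at h ⊢; exact hy h
  by_cases h2 : y = 0
  · subst h2; rw [add_zero] at h ⊢; exact hx h
  exact lt_of_lt_of_le (lt_min (hx h1) (hy h2)) (v.map_add h1 h2 h)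

theorem gt_mul {c d : ℝ} {x y : Ω} (hx : v.Ge d x) (hy : Gt v c y) : Gt v (d + c) (x * y) := by
  intro h
  have h1 := left_ne_zero_of_mul h
  have h2 := right_ne_zero_of_mul h
  rw [v.map_mul h1 h2]
  exact add_lt_add_of_le_of_lt (hx h1) (hy h2)

theorem gt_mono {c d : ℝ} (h : c ≤ d) {x : Ω} (hx : Gt v d x) : Gt v c x :=
  fun h0 => h.trans_lt (hx h0)

/-- The polynomial `∏ (X + w)`. -/
noncomputable def pr (S : Multiset Ω) : Polynomial Ω := (S.map fun w => X + C w).prod

theorem pr_cons (w : Ω) (S : Multiset Ω) : pr (w ::ₘ S) = (X + C w) * pr S := by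
  unfold pr
  rw [Multiset.map_cons, Multiset.prod_cons]

theorem pr_cons_zero (w : Ω) (S : Multiset Ω) : (pr (w ::ₘ S)).coeff 0 = w * (pr S).coeff 0 := by
  rw [pr_cons, add_mul, coeff_add, coeff_X_mul_zero, zero_add, coeff_C_mul]

theorem pr_cons_succ (w : Ω) (S : Multiset Ω) (l : ℕ) :
    (pr (w ::ₘ S)).coeff (l + 1) = (pr S).coeff l + w * (pr S).coeff (l + 1) := by
  rw [pr_cons, add_mul, coeff_add, coeff_X_mul, coeff_C_mul]

theorem coeff_ge {s : ℝ} (S : Multiset Ω) (hS : ∀ w ∈ S, w ≠ 0 ∧ v w ≤ s) (l : ℕ) :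
    v.Ge (v S.prod - l * s) ((pr S).coeff l) := by
  induction S using Multiset.induction_on generalizing l with
  | empty =>
    unfold pr
    rw [Multiset.map_zero, Multiset.prod_zero, Multiset.prod_zero, coeff_one]
    split_ifs with h
    · subst h
      rw [Nat.cast_zero, zero_mul, sub_zero]
      exact RVal.ge_self _
    · exact RVal.Ge.zero
  | cons w S ih =>
    have hw := hS w (Multiset.mem_cons_self w S)
    have hS' : ∀ w ∈ S, w ≠ 0 ∧ v w ≤ s := fun w hw => hS w (Multiset.mem_cons_of_mem hw)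
    have h0 : S.prod ≠ 0 := by
      rw [Ne, Multiset.prod_eq_zero_iff]
      intro h
      exact (hS' 0 h).1 rfl
    rw [Multiset.prod_cons, v.map_mul hw.1 h0]
    have hwg : v.Ge (v w) w := RVal.ge_self _
    cases l with
    | zero =>
      rw [pr_cons_zero]
      refine (hwg.mul (ih hS' 0)).mono ?_
      linarith
    | succ l =>
      rw [pr_cons_succ]
      refine RVal.Ge.add ((ih hS' l).mono ?_) ((hwg.mul (ih hS' (l + 1))).mono ?_)
      · push_cast
        linarith [hw.2]
      · linarith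

theorem coeff_gt {s : ℝ} (S : Multiset Ω) (hS : ∀ w ∈ S, w ≠ 0 ∧ v w < s) {l : ℕ} (hl : 1 ≤ l) :
    Gt v (v S.prod - l * s) ((pr S).coeff l) := by
  induction S using Multiset.induction_on generalizing l with
  | empty =>
    unfold pr
    rw [Multiset.map_zero, Multiset.prod_zero, Multiset.prod_zero, coeff_one, if_neg (by omega)]
    exact fun h => absurd rfl h
  | cons w S ih =>
    have hw := hS w (Multiset.mem_cons_self w S)
    have hS' : ∀ w ∈ S, w ≠ 0 ∧ v w < s := fun w hw => hS w (Multiset.mem_cons_of_mem hw)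
    have h0 : S.prod ≠ 0 := by
      rw [Ne, Multiset.prod_eq_zero_iff]
      intro h
      exact (hS' 0 h).1 rfl
    rw [Multiset.prod_cons, v.map_mul hw.1 h0]
    have hwg : v.Ge (v w) w := RVal.ge_self _
    obtain ⟨l, rfl⟩ : ∃ m, l = m + 1 := ⟨l - 1, by omega⟩
    rw [pr_cons_succ]
    refine gt_add ?_ (gt_mono ?_ (gt_mul hwg (ih hS' (Nat.le_add_left 1 l))))
    · refine gt_of_ge ?_ (coeff_ge (s := s) S (fun w hw => ⟨(hS' w hw).1, (hS' w hw).2.le⟩) l)
      push_cast
      linarith [hw.2]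
    · linarith

section Alg

variable [IsAlgClosed Ω]

/-- The Taylor expansion and the roots. -/
theorem taylor_eq (P : Polynomial Ω) (z : Ω) :
    taylor z P = C P.leadingCoeff * pr (P.roots.map fun θ => z - θ) := by
  have h1 : P = C P.leadingCoeff * (P.roots.map fun θ => X - C θ).prod :=
    (IsAlgClosed.splits P).eq_prod_roots
  conv_lhs => rw [h1]
  rw [taylor_mul, taylor_C]
  congr 1
  have h2 : taylor z ((P.roots.map fun θ => X - C θ).prod) =
      taylorAlgHom z ((P.roots.map fun θ => X - C θ).prod) := rfl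
  rw [h2, map_multiset_prod, Multiset.map_map]
  unfold pr
  rw [Multiset.map_map]
  congr 1
  refine Multiset.map_congr rfl fun θ _ => ?_
  rw [Function.comp_apply, Function.comp_apply, map_sub]
  have h3 : taylorAlgHom z X = X + C z := taylor_X z
  have h4 : taylorAlgHom z (C θ) = C θ := taylor_C z θ
  rw [h3, h4, C_sub]
  ring

theorem eval_eq (P : Polynomial Ω) (z : Ω) :
    P.eval z = P.leadingCoeff * (P.roots.map fun θ => z - θ).prod := by
  have h1 : P = C P.leadingCoeff * (P.roots.map fun θ => X - C θ).prod :=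
    (IsAlgClosed.splits P).eq_prod_roots
  conv_lhs => rw [h1]
  rw [eval_mul, eval_C, eval_multiset_prod, Multiset.map_map]
  congr 2
  refine Multiset.map_congr rfl fun θ _ => ?_
  rw [Function.comp_apply, eval_sub, eval_X, eval_C]

theorem taylor_ge {P : Polynomial Ω} (hP : P ≠ 0) {z : Ω} {s : ℝ}
    (h : ∀ θ, P.IsRoot θ → z ≠ θ ∧ v (z - θ) ≤ s) (l : ℕ) :
    v.Ge (v (P.eval z) - l * s) ((taylor z P).coeff l) := by
  have hlc : P.leadingCoeff ≠ 0 := leadingCoeff_ne_zero.2 hP
  have hS : ∀ w ∈ P.roots.map fun θ => z - θ, w ≠ 0 ∧ v w ≤ s := by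
    intro w hw
    obtain ⟨θ, hθ, rfl⟩ := Multiset.mem_map.1 hw
    have h1 := h θ ((mem_roots hP).1 hθ)
    exact ⟨sub_ne_zero.2 h1.1, h1.2⟩
  have h0 : (P.roots.map fun θ => z - θ).prod ≠ 0 := by
    rw [Ne, Multiset.prod_eq_zero_iff]
    intro h
    exact (hS 0 h).1 rfl
  rw [taylor_eq, eval_eq, v.map_mul hlc h0, coeff_C_mul]
  have h1 : v.Ge (v P.leadingCoeff) P.leadingCoeff := RVal.ge_self _
  refine (h1.mul (coeff_ge _ hS l)).mono ?_
  linarith

theorem taylor_gt {P : Polynomial Ω} (hP : P ≠ 0) {z : Ω} {s : ℝ}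
    (h : ∀ θ, P.IsRoot θ → z ≠ θ ∧ v (z - θ) < s) {l : ℕ} (hl : 1 ≤ l) :
    Gt v (v (P.eval z) - l * s) ((taylor z P).coeff l) := by
  have hlc : P.leadingCoeff ≠ 0 := leadingCoeff_ne_zero.2 hP
  have hS : ∀ w ∈ P.roots.map fun θ => z - θ, w ≠ 0 ∧ v w < s := by
    intro w hw
    obtain ⟨θ, hθ, rfl⟩ := Multiset.mem_map.1 hw
    have h1 := h θ ((mem_roots hP).1 hθ)
    exact ⟨sub_ne_zero.2 h1.1, h1.2⟩
  have h0 : (P.roots.map fun θ => z - θ).prod ≠ 0 := by
    rw [Ne, Multiset.prod_eq_zero_iff]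
    intro h
    exact (hS 0 h).1 rfl
  rw [taylor_eq, eval_eq, v.map_mul hlc h0, coeff_C_mul]
  have h1 : v.Ge (v P.leadingCoeff) P.leadingCoeff := RVal.ge_self _
  refine gt_mono ?_ (gt_mul h1 (coeff_gt _ hS hl))
  linarith

omit [IsAlgClosed Ω] in
theorem prod_lt {c : ℝ} {S : Multiset Ω} (hS : ∀ w ∈ S, w ≠ 0 ∧ v w < c) (h0 : S ≠ 0) :
    v S.prod < S.card * c := by
  induction S using Multiset.induction_on with
  | empty => exact absurd rfl h0
  | cons w S ih =>
    have hw := hS w (Multiset.mem_cons_self w S)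
    have hS' : ∀ w ∈ S, w ≠ 0 ∧ v w < c := fun w hw => hS w (Multiset.mem_cons_of_mem hw)
    have hp : S.prod ≠ 0 := by
      rw [Ne, Multiset.prod_eq_zero_iff]
      intro h
      exact (hS' 0 h).1 rfl
    rw [Multiset.prod_cons, v.map_mul hw.1 hp, Multiset.card_cons]
    by_cases h1 : S = 0
    · subst h1
      rw [Multiset.prod_zero, v.map_one, Multiset.card_zero]
      push_cast
      linarith [hw.2]
    · have h2 := ih hS' h1
      push_cast
      linarith [hw.2]

/-- If `P z` is small there is a root near `z`. -/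
theorem near_root {P : Polynomial Ω} (hdeg : P.natDegree ≠ 0) {z : Ω} {c : ℝ}
    (h : v.Ge (v P.leadingCoeff + P.natDegree * c) (P.eval z)) :
    ∃ θ, P.IsRoot θ ∧ v.Ge c (z - θ) := by
  have hP : P ≠ 0 := by
    rintro rfl
    exact hdeg natDegree_zero
  by_contra hcon
  push Not at hcon
  have hS : ∀ w ∈ P.roots.map fun θ => z - θ, w ≠ 0 ∧ v w < c := by
    intro w hw
    obtain ⟨θ, hθ, rfl⟩ := Multiset.mem_map.1 hw
    have h1 := hcon θ ((mem_roots hP).1 hθ)
    unfold RVal.Ge at h1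
    push Not at h1
    exact h1
  have h0 : (P.roots.map fun θ => z - θ).prod ≠ 0 := by
    rw [Ne, Multiset.prod_eq_zero_iff]
    intro h
    exact (hS 0 h).1 rfl
  have hlc : P.leadingCoeff ≠ 0 := leadingCoeff_ne_zero.2 hP
  have hcard : P.roots.card = P.natDegree := (IsAlgClosed.splits P).natDegree_eq_card_roots.symm
  have h1 := prod_lt hS (by
    intro h2
    have h3 := congrArg Multiset.card h2
    rw [Multiset.card_map, hcard, Multiset.card_zero] at h3
    exact hdeg h3)
  rw [Multiset.card_map, hcard] at h1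
  have h2 : P.eval z ≠ 0 := by
    rw [eval_eq]
    exact mul_ne_zero hlc h0
  have h3 := h h2
  rw [eval_eq, v.map_mul hlc h0] at h3
  linarith

end Alg

end Pool.Agent.TWM.Roots
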