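import Pool.Agent.Lib.TWM.LogC
import Pool.Agent.Lib.TWM.Lau
import Pool.Agent.Lib.TWM.A2
import Pool.Agent.Lib.TWM.Roots

/-!
# TANK W, M2-S, part A: orthogonal sums `∑ e_t N` and best approximations
-/

set_option autoImplicit false

open Polynomial

namespace Pool.Agent.TWM

open Pool.Agent.H15JM (RVal)
open Pool.Agent.LU1 (VPos adj)
open Pool.Agent.LUC (Cl clF)
open Pool.Agent.D2 (Ctx0)
open Pool.Agent.D2P (hen clI mem_clI)

universe u

variable {k Ω : Type u} [Field k] [Field Ω] [Algebra k Ω] {v : RVal Ω}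
  {G G₁ : AddSubgroup ℝ} {T : Finset ℝ} {N M : IntermediateField k Ω} {e : ℝ → Ω}

/-- A family of elements with values in distinct classes modulo the values of `N`. -/
structure OF (v : RVal Ω) (G G₁ : AddSubgroup ℝ) (T : Finset ℝ) (N : IntermediateField k Ω)
    (e : ℝ → Ω) : Prop where
  reps : Reps G G₁ T
  ne : ∀ t ∈ T, e t ≠ 0
  val : ∀ t ∈ T, v (e t) = t
  vg : VG v G N

namespace OF

theorem val_term (h : OF v G G₁ T N e) {t : ℝ} (ht : t ∈ T) {b : Ω} (h0 : b ≠ 0) :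
    e t * b ≠ 0 ∧ v (e t * b) = t + v b := by
  have h1 := h.ne t ht
  exact ⟨mul_ne_zero h1 h0, by rw [v.map_mul h1 h0, h.val t ht]⟩

/-- The sum is orthogonal. -/
theorem ge_iff (h : OF v G G₁ T N e) {b : ℝ → Ω} (hb : ∀ t ∈ T, b t ∈ N) {r : ℝ} :
    v.Ge r (∑ t ∈ T, e t * b t) ↔ ∀ t ∈ T, v.Ge (r - t) (b t) := by
  classical
  constructor
  · intro hr
    set S := T.filter fun t => b t ≠ 0 with hS
    have hsum : ∑ t ∈ T, e t * b t = ∑ t ∈ S, e t * b t := by
      rw [hS, Finset.sum_filter]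
      refine Finset.sum_congr rfl fun t _ => ?_
      by_cases h0 : b t = 0
      · rw [h0, mul_zero, if_neg (by simp)]
      · rw [if_pos h0]
    rcases S.eq_empty_or_nonempty with hS' | hS'
    · intro t ht h0
      have : t ∈ S := Finset.mem_filter.2 ⟨ht, h0⟩
      rw [hS'] at this
      exact absurd this (Finset.notMem_empty t)
    · obtain ⟨i, hi, h1, h2, h3⟩ := val_sum_distinct (v := v) S (fun t => e t * b t)
        (fun t ht => (h.val_term (Finset.mem_filter.1 ht).1 (Finset.mem_filter.1 ht).2).1)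
        (fun t ht t' ht' heq => by
          obtain ⟨ht1, ht2⟩ := Finset.mem_filter.1 ht
          obtain ⟨ht3, ht4⟩ := Finset.mem_filter.1 ht'
          rw [(h.val_term ht1 ht2).2, (h.val_term ht3 ht4).2] at heq
          refine h.reps.uniq t ht1 t' ht3 ?_
          have h5 : t - t' = v (b t') - v (b t) := by linarith
          rw [h5]
          exact G.sub_mem (h.vg _ (hb t' ht3) ht4) (h.vg _ (hb t ht1) ht2)) hS'
      intro t ht h0
      have ht' : t ∈ S := Finset.mem_filter.2 ⟨ht, h0⟩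
      have h4 := h3 t ht'
      rw [hsum] at hr
      have h5 := hr h1
      rw [h2] at h5
      have h6 := (h.val_term ht h0).2
      linarith
  · intro hr
    refine RVal.Ge.sum _ _ fun t ht => ?_
    have h1 : v.Ge t (e t) := fun _ => (h.val t ht).ge
    have h2 := h1.mul (hr t ht)
    rwa [add_sub_cancel] at h2

theorem sum_sub {a b : ℝ → Ω} : ∑ t ∈ T, e t * b t - ∑ t ∈ T, e t * a t =
    ∑ t ∈ T, e t * (b t - a t) := by
  simp only [mul_sub, Finset.sum_sub_distrib]

theorem ge_sub_iff (h : OF v G G₁ T N e) {a b : ℝ → Ω} (ha : ∀ t ∈ T, a t ∈ N)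
    (hb : ∀ t ∈ T, b t ∈ N) {r : ℝ} :
    v.Ge r (∑ t ∈ T, e t * b t - ∑ t ∈ T, e t * a t) ↔ ∀ t ∈ T, v.Ge (r - t) (b t - a t) := by
  rw [sum_sub]
  exact h.ge_iff (b := fun t => b t - a t) fun t ht => N.sub_mem (hb t ht) (ha t ht)

/-- The sum is closed. -/
theorem closed (h : OF v G G₁ T N e) (hc : CompleteV v) (hN : Cld v N) {w : Ω}
    (hw : ∀ c : ℝ, ∃ b : ℝ → Ω, (∀ t ∈ T, b t ∈ N) ∧ v.Ge c (w - ∑ t ∈ T, e t * b t)) :
    ∃ b : ℝ → Ω, (∀ t ∈ T, b t ∈ N) ∧ w = ∑ t ∈ T, e t * b t := by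
  classical
  choose b hb hb' using fun n : ℕ => hw n
  have h2 : ∀ (m n : ℕ) (t : ℝ), t ∈ T → v.Ge (min (m : ℝ) n - t) (b m t - b n t) := by
    intro m n t ht
    have h3 : v.Ge (min (m : ℝ) n) (∑ t ∈ T, e t * b m t - ∑ t ∈ T, e t * b n t) := by
      have h4 := ((hb' n).mono (min_le_right (m : ℝ) n)).sub ((hb' m).mono (min_le_left (m : ℝ) n))
      rwa [sub_sub_sub_cancel_left] at h4
    exact (h.ge_sub_iff (hb n) (hb m)).1 h3 t ht
  have h3 : ∀ t : ℝ, ∃ a : Ω, t ∈ T → a ∈ N ∧ ∀ c : ℝ, ∃ N, ∀ n, N ≤ n → v.Ge c (a - b n t) := by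
    intro t
    by_cases ht : t ∈ T
    · obtain ⟨a, ha⟩ := hc (fun n => b n t) fun c => by
        obtain ⟨N, hN⟩ := exists_nat_ge (c + t)
        refine ⟨N, fun m n hm hn => (h2 m n t ht).mono ?_⟩
        have h4 : (N : ℝ) ≤ min (m : ℝ) n := le_min (by exact_mod_cast hm) (by exact_mod_cast hn)
        linarith
      refine ⟨a, fun _ => ⟨hN ?_, ha⟩⟩
      rw [mem_clI]
      intro c
      obtain ⟨N, hN⟩ := ha c
      exact ⟨b N t, hb N t ht, hN N le_rfl⟩
    · exact ⟨0, fun h => absurd h ht⟩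
  choose a ha using h3
  refine ⟨a, fun t ht => (ha t ht).1, ?_⟩
  by_contra hne
  have h5 : w - ∑ t ∈ T, e t * a t ≠ 0 := sub_ne_zero.2 hne
  set c := v (w - ∑ t ∈ T, e t * a t) + 1 with hcdef
  have h6 : ∀ t : ℝ, ∃ N : ℕ, t ∈ T → ∀ n, N ≤ n → v.Ge (c - t) (a t - b n t) := by
    intro t
    by_cases ht : t ∈ T
    · obtain ⟨N, hN⟩ := (ha t ht).2 (c - t)
      exact ⟨N, fun _ => hN⟩
    · exact ⟨0, fun h => absurd h ht⟩
  choose N' hN' using h6
  obtain ⟨n₀, hn₀⟩ := exists_nat_ge c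
  set n := max n₀ (T.sup N') with hn
  have h7 : v.Ge c (∑ t ∈ T, e t * a t - ∑ t ∈ T, e t * b n t) := by
    rw [h.ge_sub_iff (hb n) fun t ht => (ha t ht).1]
    intro t ht
    exact hN' t ht n ((Finset.le_sup ht).trans (le_max_right _ _))
  have h8 : v.Ge c (w - ∑ t ∈ T, e t * b n t) := (hb' n).mono (hn₀.trans
    (by exact_mod_cast le_max_left _ _))
  have h9 := h8.sub h7
  rw [sub_sub_sub_cancel_right] at h9
  have h10 := h9 h5
  rw [hcdef] at h10
  linarith

/-- The best approximation in `N` of an element of the sum. -/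
theorem best (h : OF v G G₁ T N e) (he0 : e 0 = 1) {b : ℝ → Ω} (hb : ∀ t ∈ T, b t ∈ N) {a : Ω}
    (ha : a ∈ N) : v.Ge (v (∑ t ∈ T, e t * b t - a)) (∑ t ∈ T, e t * b t - b 0) := by
  classical
  have h1 : ∀ c ∈ N, ∑ t ∈ T, e t * b t - c = ∑ t ∈ T, e t * (b t - if t = 0 then c else 0) := by
    intro c _
    have h2 : ∑ t ∈ T, e t * (if t = 0 then c else 0) = c := by
      rw [Finset.sum_eq_single 0]
      · rw [if_pos rfl, he0, one_mul]
      · intro t _ ht
        rw [if_neg ht, mul_zero]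
      · intro h0
        exact absurd h.reps.zero h0
    rw [← sum_sub, h2]
  have hm : ∀ c ∈ N, ∀ t ∈ T, (b t - if t = 0 then c else 0) ∈ N := fun c hc t ht =>
    N.sub_mem (hb t ht) (by split_ifs; exacts [hc, N.zero_mem])
  have hb0 := hb 0 h.reps.zero
  rw [h1 (b 0) hb0]
  refine (h.ge_iff (hm (b 0) hb0)).2 fun t ht => ?_
  by_cases h0 : t = 0
  · subst h0
    rw [if_pos rfl, sub_self]
    exact RVal.Ge.zero
  · have h3 : v.Ge (v (∑ t ∈ T, e t * b t - a)) (∑ t ∈ T, e t * b t - a) := v.ge_self _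
    rw [h1 a ha] at h3
    have h4 := (h.ge_iff (hm a ha)).1 h3 t ht
    rw [if_neg h0] at h4 ⊢
    rw [h1 a ha]
    exact h4

end OF

/-! ### Comparison of two systems of monomials -/

/-- The elements of `G` whose monomials are comparable up to `c₀`. -/
theorem exists_comp (h : Ctx0 k v) {X χ : ℝ → Ω} (hX : MS v G X) (hχ : MS v G χ) (hG : G.FG) :
    ∃ c₀ : ℝ, 0 < c₀ ∧ ∀ g ∈ G, ∃ c : k, c ≠ 0 ∧ v.Ge (g + c₀) (χ g - algebraMap k Ω c * X g) := by
  classical
  obtain ⟨S, hS⟩ := hG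
  have hSG : ∀ g ∈ S, g ∈ G := fun g hg => by
    rw [← hS]
    exact AddSubgroup.subset_closure hg
  -- a uniform constant on the generators
  have h1 : ∀ S' : Finset ℝ, (∀ g ∈ S', g ∈ G) → ∃ c₀ : ℝ, 0 < c₀ ∧ ∀ g ∈ S',
      ∃ c : k, c ≠ 0 ∧ v.Ge (g + c₀) (χ g - algebraMap k Ω c * X g) := by
    intro S'
    induction S' using Finset.induction_on with
    | empty => exact fun _ => ⟨1, one_pos, by simp⟩
    | insert g S' hg ih =>
      intro hS'
      obtain ⟨c₀, hc₀, h2⟩ := ih fun g' h' => hS' g' (Finset.mem_insert_of_mem h')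
      have hgG := hS' g (Finset.mem_insert_self g S')
      obtain ⟨c, hc, h3⟩ := h.res (χ g / X g) (div_ne_zero (hχ.ne g hgG) (hX.ne g hgG)) (by
        rw [v.map_div (hχ.ne g hgG) (hX.ne g hgG), hχ.val g hgG, hX.val g hgG, sub_self])
      have h4 : χ g - algebraMap k Ω c * X g = X g * (χ g / X g - algebraMap k Ω c) := by
        have := hX.ne g hgG
        field_simp
      by_cases h0 : χ g / X g - algebraMap k Ω c = 0
      · refine ⟨c₀, hc₀, fun g' h' => ?_⟩
        rcases Finset.mem_insert.1 h' with rfl | h'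
        · refine ⟨c, hc, ?_⟩
          rw [h4, h0, mul_zero]
          exact RVal.Ge.zero
        · exact h2 g' h'
      · have h5 := h3 h0
        refine ⟨min c₀ (v (χ g / X g - algebraMap k Ω c)), lt_min hc₀ h5, fun g' h' => ?_⟩
        rcases Finset.mem_insert.1 h' with rfl | h'
        · refine ⟨c, hc, ?_⟩
          rw [h4]
          intro h6
          rw [v.map_mul (hX.ne _ hgG) h0, hX.val _ hgG]
          have := min_le_right c₀ (v (χ g' / X g' - algebraMap k Ω c))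
          linarith
        · obtain ⟨c', hc', h6⟩ := h2 g' h'
          refine ⟨c', hc', h6.mono ?_⟩
          have := min_le_left c₀ (v (χ g / X g - algebraMap k Ω c))
          linarith
  obtain ⟨c₀, hc₀, h2⟩ := h1 S hSG
  refine ⟨c₀, hc₀, ?_⟩
  have hcast : ∀ c : k, c ≠ 0 → algebraMap k Ω c ≠ 0 ∧ v (algebraMap k Ω c) = 0 := fun c hc =>
    ⟨by rwa [Ne, map_eq_zero], h.triv c hc⟩
  intro g hg
  have hg' : g ∈ AddSubgroup.closure (S : Set ℝ) := by rw [hS]; exact hg
  induction hg' using AddSubgroup.closure_induction with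
  | mem g hgS => exact h2 g hgS
  | zero =>
    refine ⟨1, one_ne_zero, ?_⟩
    rw [hX.zero, hχ.zero, map_one, mul_one, sub_self]
    exact RVal.Ge.zero
  | add g g' hg1 hg1' ih ih' =>
    rw [hS] at hg1 hg1'
    obtain ⟨c, hc, h3⟩ := ih hg1
    obtain ⟨c', hc', h4⟩ := ih' hg1'
    refine ⟨c * c', mul_ne_zero hc hc', ?_⟩
    have h5 : χ (g + g') - algebraMap k Ω (c * c') * X (g + g') =
        χ g * (χ g' - algebraMap k Ω c' * X g') +
          algebraMap k Ω c' * X g' * (χ g - algebraMap k Ω c * X g) := by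
      rw [hχ.mul g hg1 g' hg1', hX.mul g hg1 g' hg1', map_mul]
      ring
    rw [h5]
    refine RVal.Ge.add ?_ ?_
    · have h6 : v.Ge g (χ g) := fun _ => (hχ.val g hg1).ge
      exact (h6.mul h4).mono (by linarith)
    · have h6 : v.Ge g' (algebraMap k Ω c' * X g') := by
        intro _
        rw [v.map_mul (hcast c' hc').1 (hX.ne g' hg1'), (hcast c' hc').2, hX.val g' hg1', zero_add]
      exact (h6.mul h3).mono (by linarith)
  | neg g hg1 ih =>
    rw [hS] at hg1
    obtain ⟨c, hc, h3⟩ := ih hg1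
    refine ⟨c⁻¹, inv_ne_zero hc, ?_⟩
    rw [hX.neg hg1, hχ.neg hg1, map_inv₀]
    have hX0 := hX.ne g hg1
    have hχ0 := hχ.ne g hg1
    have hc0 := (hcast c hc).1
    have h5 : (χ g)⁻¹ - (algebraMap k Ω c)⁻¹ * (X g)⁻¹ =
        -((χ g)⁻¹ * ((algebraMap k Ω c)⁻¹ * (X g)⁻¹) * (χ g - algebraMap k Ω c * X g)) := by
      field_simp
      ring
    rw [h5]
    refine RVal.Ge.neg ?_
    have h6 : v.Ge (-g) (χ g)⁻¹ := fun _ => by rw [v.map_inv hχ0, hχ.val g hg1]
    have h7 : v.Ge (-g) ((algebraMap k Ω c)⁻¹ * (X g)⁻¹) := fun _ => by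
      rw [v.map_mul (inv_ne_zero hc0) (inv_ne_zero hX0), v.map_inv hc0, v.map_inv hX0,
        (hcast c hc).2, hX.val g hg1]
      linarith
    exact ((h6.mul h7).mul h3).mono (by linarith)

/-! ### The core of stability -/

/-- `M` is the closure of the Laurent polynomials in `χ`, `N ≤ M` has the values `G`: then
`M = ∑ χ(t) N`. -/
theorem exists_sum (h : Ctx0 k v) (hc : CompleteV v) {X χ : ℝ → Ω} (hX : MS v G X)
    (hχ : MS v G₁ χ) (hG : G.FG) (hN : Cld v N) (hXN : ∀ g ∈ G, X g ∈ N) (hVG : VG v G N)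
    (hNM : N ≤ M) (hχM : ∀ g ∈ G₁, χ g ∈ M) (hM : LDense v G₁ χ M) (hT : Reps G G₁ T) {θ : Ω}
    (hθ : θ ∈ M) : ∃ b : ℝ → Ω, (∀ t ∈ T, b t ∈ N) ∧ θ = ∑ t ∈ T, χ t * b t := by
  classical
  have hOF : OF v G G₁ T N χ := ⟨hT, fun t ht => hχ.ne t (hT.mem t ht),
    fun t ht => hχ.val t (hT.mem t ht), hVG⟩
  have hχG : MS v G χ := ⟨fun g hg => hχ.ne g (hT.le hg), fun g hg => hχ.val g (hT.le hg),
    fun g hg g' hg' => hχ.mul g (hT.le hg) g' (hT.le hg')⟩
  obtain ⟨c₀, hc₀, hcomp⟩ := exists_comp h hX hχG hG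
  set D : AddSubgroup Ω :=
    { carrier := {w | ∃ b : ℝ → Ω, (∀ t ∈ T, b t ∈ N) ∧ w = ∑ t ∈ T, χ t * b t}
      zero_mem' := ⟨fun _ => 0, fun _ _ => N.zero_mem, by simp⟩
      add_mem' := by
        rintro _ _ ⟨b, hb, rfl⟩ ⟨b', hb', rfl⟩
        refine ⟨fun t => b t + b' t, fun t ht => N.add_mem (hb t ht) (hb' t ht), ?_⟩
        simp only [mul_add, Finset.sum_add_distrib]
      neg_mem' := by
        rintro _ ⟨b, hb, rfl⟩
        refine ⟨fun t => -b t, fun t ht => N.neg_mem (hb t ht), ?_⟩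
        simp only [mul_neg, Finset.sum_neg_distrib] } with hD
  have hmem : ∀ w, w ∈ D ↔ ∃ b : ℝ → Ω, (∀ t ∈ T, b t ∈ N) ∧ w = ∑ t ∈ T, χ t * b t :=
    fun w => Iff.rfl
  have hone : ∀ t ∈ T, ∀ n ∈ N, χ t * n ∈ D := by
    intro t ht n hn
    refine ⟨fun t' => if t' = t then n else 0, fun t' _ => ?_, ?_⟩
    · beta_reduce
      split_ifs
      exacts [hn, N.zero_mem]
    · rw [Finset.sum_eq_single t]
      · beta_reduce
        rw [if_pos rfl]
      · intro t' _ h'
        beta_reduce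
        rw [if_neg h', mul_zero]
      · intro h'
        exact absurd ht h'
  have key : M.toSubfield.toAddSubgroup ≤ D := by
    refine engine (v := v) (R₀ := {w | ∃ L : ℝ →₀ k, InG G₁ L ∧ w = evL χ L}) ?_ ?_ ?_ hc₀ ?_
    · rintro w ⟨b, hb, rfl⟩
      exact sum_mem fun t ht => M.mul_mem (hχM t (hT.mem t ht)) (hNM (hb t ht))
    · intro w hw
      refine hOF.closed hc hN fun c => ?_
      obtain ⟨d, ⟨b, hb, rfl⟩, hd⟩ := hw c
      exact ⟨b, hb, hd⟩
    · intro b hb c
      obtain ⟨L, hL, h1⟩ := hM b hb c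
      exact ⟨evL χ L, ⟨L, hL, rfl⟩, h1⟩
    · rintro w ⟨L, hL, rfl⟩ h0
      have hL0 : L ≠ 0 := by
        rintro rfl
        exact h0 evL_zero
      obtain ⟨m, hm, hmin, -, hval⟩ := evL_lead h hχ hL hL0
      have h1 : ∀ g : ℝ, ∃ d ∈ D, L g ≠ 0 → v.Ge (m + c₀) (algebraMap k Ω (L g) * χ g - d) := by
        intro g
        by_cases hg0 : L g = 0
        · exact ⟨0, D.zero_mem, fun h' => absurd hg0 h'⟩
        have hg := hL g hg0
        obtain ⟨t, ht, htg⟩ := hT.ex g hg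
        obtain ⟨c, hc, h2⟩ := hcomp (g - t) htg
        refine ⟨χ t * (algebraMap k Ω (L g) * (algebraMap k Ω c * X (g - t))),
          hone t ht _ (N.mul_mem (N.algebraMap_mem _) (N.mul_mem (N.algebraMap_mem _)
            (hXN _ htg))), fun _ => ?_⟩
        have h3 : χ g = χ t * χ (g - t) := by
          rw [← hχ.mul t (hT.mem t ht) (g - t) (hT.le htg), add_sub_cancel]
        have h4 : algebraMap k Ω (L g) * χ g -
            χ t * (algebraMap k Ω (L g) * (algebraMap k Ω c * X (g - t))) =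
            algebraMap k Ω (L g) * χ t * (χ (g - t) - algebraMap k Ω c * X (g - t)) := by
          rw [h3]
          ring
        rw [h4]
        refine ((term_ge h hχ (hT.mem t ht) (L g)).mul h2).mono ?_
        have := hmin g hg0
        linarith
      choose d hd hd' using h1
      refine ⟨∑ g ∈ L.support, d g, D.sum_mem fun g _ => hd g, ?_⟩
      rw [hval, evL, Finsupp.sum, ← Finset.sum_sub_distrib]
      exact RVal.Ge.sum _ _ fun g hg => hd' g (Finsupp.mem_support_iff.1 hg)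
  exact key hθ

/-- Representatives of a finitely generated group modulo a subgroup of the same rank. -/
theorem exists_reps (hle : G ≤ G₁) (hG : G₁.FG)
    (htor : ∀ g ∈ G₁, ∃ m : ℕ, 0 < m ∧ (m : ℝ) * g ∈ G) : ∃ T, Reps G G₁ T := by
  classical
  set Q := G₁ ⧸ G.addSubgroupOf G₁ with hQ
  have hfg : AddGroup.FG G₁ := (AddGroup.fg_iff_addSubgroup_fg G₁).2 hG
  have hfg' : AddGroup.FG Q := QuotientAddGroup.fg _
  have htors : IsAddTorsion Q := by
    intro q
    induction q using QuotientAddGroup.induction_on with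
    | H g =>
      obtain ⟨m, hm, h1⟩ := htor g g.2
      rw [isOfFinAddOrder_iff_nsmul_eq_zero]
      refine ⟨m, hm, ?_⟩
      rw [← QuotientAddGroup.mk_nsmul, QuotientAddGroup.eq_zero_iff, AddSubgroup.mem_addSubgroupOf]
      rw [AddSubgroup.coe_nsmul, nsmul_eq_mul]
      exact h1
  have hfin : Finite Q := by
    have : Module.Finite ℤ Q := Module.Finite.iff_addGroup_fg.2 hfg'
    exact AddCommGroup.finite_of_fg_isAddTorsion Q htors
  have _ : Fintype Q := Fintype.ofFinite Q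
  set rep : Q → ℝ := fun q => if q = 0 then 0 else (q.out : ℝ) with hrep
  have h1 : ∀ q : Q, ∃ h : rep q ∈ G₁, (QuotientAddGroup.mk (⟨rep q, h⟩ : G₁) : Q) = q := by
    intro q
    rw [hrep]
    by_cases h0 : q = 0
    · simp only [h0, if_true]
      exact ⟨G₁.zero_mem, rfl⟩
    · simp only [if_neg h0]
      exact ⟨q.out.2, q.out_eq⟩
  refine ⟨Finset.univ.image rep, ⟨hle, ?_, ?_, ?_, ?_⟩⟩
  · intro t ht
    obtain ⟨q, -, rfl⟩ := Finset.mem_image.1 ht
    exact (h1 q).1
  · intro g hg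
    obtain ⟨h2, h3⟩ := h1 (QuotientAddGroup.mk (⟨g, hg⟩ : G₁))
    refine ⟨rep (QuotientAddGroup.mk (⟨g, hg⟩ : G₁)),
      Finset.mem_image_of_mem rep (Finset.mem_univ _), ?_⟩
    rw [QuotientAddGroup.eq, AddSubgroup.mem_addSubgroupOf] at h3
    have h4 : g - rep (QuotientAddGroup.mk (⟨g, hg⟩ : G₁)) =
        ((-(⟨rep (QuotientAddGroup.mk (⟨g, hg⟩ : G₁)), h2⟩ : G₁) + ⟨g, hg⟩ : G₁) : ℝ) := by
      rw [AddSubgroup.coe_add, AddSubgroup.coe_neg]
      ring
    rw [h4]
    exact h3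
  · intro t ht t' ht' htt
    obtain ⟨q, -, rfl⟩ := Finset.mem_image.1 ht
    obtain ⟨q', -, rfl⟩ := Finset.mem_image.1 ht'
    obtain ⟨h2, h3⟩ := h1 q
    obtain ⟨h4, h5⟩ := h1 q'
    have h6 : q = q' := by
      rw [← h3, ← h5]
      refine (QuotientAddGroup.eq.2 ?_).symm
      rw [AddSubgroup.mem_addSubgroupOf, AddSubgroup.coe_add, AddSubgroup.coe_neg]
      have : -rep q' + rep q = rep q - rep q' := by ring
      rw [this]
      exact htt
    rw [h6]
  · refine Finset.mem_image.2 ⟨0, Finset.mem_univ _, ?_⟩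
    rw [hrep]
    simp

/-- The best approximation of an element of `M`. -/
theorem exists_best_of (h : Ctx0 k v) (hc : CompleteV v) {X χ : ℝ → Ω} (hX : MS v G X)
    (hχ : MS v G₁ χ) (hG : G.FG) (hN : Cld v N) (hXN : ∀ g ∈ G, X g ∈ N) (hVG : VG v G N)
    (hNM : N ≤ M) (hχM : ∀ g ∈ G₁, χ g ∈ M) (hM : LDense v G₁ χ M) (hT : Reps G G₁ T) {θ : Ω}
    (hθ : θ ∈ M) : ∃ a ∈ N, ∀ b ∈ N, v.Ge (v (θ - b)) (θ - a) := by
  obtain ⟨b, hb, rfl⟩ := exists_sum h hc hX hχ hG hN hXN hVG hNM hχM hM hT hθ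
  have hOF : OF v G G₁ T N χ := ⟨hT, fun t ht => hχ.ne t (hT.mem t ht),
    fun t ht => hχ.val t (hT.mem t ht), hVG⟩
  exact ⟨b 0, hb 0 hT.zero, fun a ha => hOF.best hχ.zero hb ha⟩

/-- Reduction to a dense subfield: an algebraic element over the closure of `K` is near to an
element algebraic over `K`. -/
theorem exists_near_alg [IsAlgClosed Ω] {K : IntermediateField k Ω} {θ : Ω}
    (hθ : IsAlgebraic (clI v K) θ) (c : ℝ) : ∃ θ' : Ω, IsAlgebraic K θ' ∧ v.Ge c (θ - θ') := by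
  classical
  have hint : IsIntegral (clI v K) θ := hθ.isIntegral
  set P := minpoly (clI v K) θ with hP
  have hPm : P.Monic := minpoly.monic hint
  set n := P.natDegree with hn
  -- approximations of the coefficients
  have h1 : ∀ i : ℕ, ∃ a : K, v.Ge (max 0 (n * |c| + n * |v θ|)) ((P.coeff i : Ω) - a) := by
    intro i
    obtain ⟨a, ha, h2⟩ := (mem_clI.1 (P.coeff i).2) (max 0 (n * |c| + n * |v θ|))
    exact ⟨⟨a, ha⟩, h2⟩
  choose a ha using h1
  set g : Polynomial K := X ^ n + ∑ i ∈ Finset.range n, C (a i) * X ^ i with hg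
  have hdeg : (∑ i ∈ Finset.range n, C (a i) * X ^ i : Polynomial K).degree < n := by
    rw [← mem_degreeLT]
    refine Submodule.sum_mem _ fun i hi => ?_
    rw [mem_degreeLT]
    refine lt_of_le_of_lt (degree_C_mul_X_pow_le i (a i)) ?_
    exact_mod_cast Finset.mem_range.1 hi
  have hgm : g.Monic := monic_X_pow_add hdeg
  have hgn : g.natDegree = n := by
    rw [hg]
    refine natDegree_eq_of_degree_eq_some ?_
    rw [degree_add_eq_left_of_degree_lt (by rwa [degree_X_pow]), degree_X_pow]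
  have hev : v.Ge (n * |c|) (aeval θ g) := by
    have h2 : aeval θ P = 0 := minpoly.aeval _ _
    have h3 : aeval θ P = θ ^ n + ∑ i ∈ Finset.range n, (P.coeff i : Ω) * θ ^ i := by
      rw [aeval_eq_sum_range, Finset.sum_range_succ, add_comm]
      congr 1
      have h4 : P.coeff P.natDegree = 1 := hPm
      rw [h4, one_smul]
    have h5 : aeval θ g = -∑ i ∈ Finset.range n, ((P.coeff i : Ω) - a i) * θ ^ i := by
      have h6 : aeval θ g = θ ^ n + ∑ i ∈ Finset.range n, (a i : Ω) * θ ^ i := by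
        rw [hg]
        simp only [map_add, map_pow, map_sum, map_mul, aeval_X, aeval_C]
        rfl
      have h7 : (∑ i ∈ Finset.range n, ((P.coeff i : Ω) - a i) * θ ^ i) =
          ∑ i ∈ Finset.range n, (P.coeff i : Ω) * θ ^ i -
            ∑ i ∈ Finset.range n, (a i : Ω) * θ ^ i := by
        rw [← Finset.sum_sub_distrib]
        exact Finset.sum_congr rfl fun i _ => by ring
      rw [h6, h7]
      rw [h3] at h2
      linear_combination h2
    rw [h5]
    refine RVal.Ge.neg (RVal.Ge.sum _ _ fun i hi => ?_)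
    refine ((ha i).mul (ge_pow (v.ge_self θ) i)).mono ?_
    have h8 : (i : ℝ) ≤ n := by exact_mod_cast (Finset.mem_range.1 hi).le
    have h9 : -(n * |v θ|) ≤ (i : ℝ) * v θ := by
      have h10 := neg_abs_le (v θ)
      have h11 := abs_nonneg (v θ)
      have h12 : (0 : ℝ) ≤ i := by positivity
      nlinarith
    have := le_max_right 0 (n * |c| + n * |v θ|)
    linarith
  by_cases h0 : aeval θ g = 0
  · exact ⟨θ, ⟨g, hgm.ne_zero, h0⟩, by rw [sub_self]; exact RVal.Ge.zero⟩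
  · have hn0 : (g.map (algebraMap K Ω)).natDegree ≠ 0 := by
      rw [natDegree_map, hgn]
      exact (minpoly.natDegree_pos hint).ne'
    obtain ⟨θ', h1, h2⟩ := Roots.near_root (v := v) (P := g.map (algebraMap K Ω)) hn0 (z := θ)
      (c := c) (by
        rw [(hgm.map _).leadingCoeff, v.map_one, zero_add, natDegree_map, hgn,
          eval_map_algebraMap]
        refine hev.mono ?_
        have := le_abs_self c
        have h3 : (0 : ℝ) ≤ n := by positivity
        nlinarith)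
    refine ⟨θ', ⟨g, hgm.ne_zero, ?_⟩, h2⟩
    rw [IsRoot.def, eval_map_algebraMap] at h1
    exact h1

end Pool.Agent.TWM
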