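import Pool.Agent.Lib.TWM.Defs

/-!
# TANK W, M2, block A, part 1: elements of transcendental type (A1, A2, A3, A5)
-/

set_option autoImplicit false

open Polynomial

namespace Pool.Agent.TWM

open Pool.Agent.H15JM (RVal)
open Pool.Agent.LU1 (VPos adj)
open Pool.Agent.LUC (Cl clF)
open Pool.Agent.D2 (Ctx0)
open Pool.Agent.D2P (hen clI mem_clI)

universe u

/-! ### Values -/

section Val

variable {Ω : Type u} [Field Ω] {v : RVal Ω} {r r' : ℝ} {x y : Ω}

theorem Gt.zero : Gt v r 0 := fun h => absurd rfl h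

theorem Gt.ge (h : Gt v r x) : v.Ge r x := fun h0 => (h h0).le

theorem Gt.of_ge (h : v.Ge r' x) (hr : r < r') : Gt v r x := fun h0 => hr.trans_le (h h0)

theorem Gt.mono (h : Gt v r x) (hr : r' ≤ r) : Gt v r' x := fun h0 => hr.trans_lt (h h0)

theorem Gt.neg (h : Gt v r x) : Gt v r (-x) := by
  intro h0
  have h1 : x ≠ 0 := by simpa using h0
  rw [v.map_neg x h1]
  exact h h1

theorem Gt.add (hx : Gt v r x) (hy : Gt v r y) : Gt v r (x + y) := by
  intro h0
  by_cases h1 : x = 0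
  · subst h1
    rw [zero_add] at h0 ⊢
    exact hy h0
  by_cases h2 : y = 0
  · subst h2
    rw [add_zero] at h0 ⊢
    exact hx h0
  exact (lt_min (hx h1) (hy h2)).trans_le (v.map_add h1 h2 h0)

theorem Gt.sub (hx : Gt v r x) (hy : Gt v r y) : Gt v r (x - y) := by
  rw [sub_eq_add_neg]
  exact hx.add hy.neg

theorem Gt.sub_comm' (h : Gt v r (x - y)) : Gt v r (y - x) := by
  rw [← neg_sub]; exact h.neg

theorem ge_sub_comm (h : v.Ge r (x - y)) : v.Ge r (y - x) := by
  rw [← neg_sub]; exact h.neg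

theorem Gt.mul_ge (hx : Gt v r x) (hy : v.Ge r' y) : Gt v (r + r') (x * y) := by
  intro h0
  have hx0 := left_ne_zero_of_mul h0
  have hy0 := right_ne_zero_of_mul h0
  rw [v.map_mul hx0 hy0]
  have := hx hx0
  have := hy hy0
  linarith

theorem Gt.sum {ι : Type*} (S : Finset ι) (f : ι → Ω) (hf : ∀ i ∈ S, Gt v r (f i)) :
    Gt v r (∑ i ∈ S, f i) := by
  classical
  induction S using Finset.induction_on with
  | empty => rw [Finset.sum_empty]; exact Gt.zero
  | insert a S ha ih =>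
    rw [Finset.sum_insert ha]
    exact (hf a (Finset.mem_insert_self a S)).add
      (ih fun i hi => hf i (Finset.mem_insert_of_mem hi))

theorem not_gt_self (h0 : x ≠ 0) : ¬ Gt v (v x) x := fun h => lt_irrefl _ (h h0)

/-- `a` is near `b`: same value. -/
theorem Gt.val_eq (hx : x ≠ 0) (h : Gt v (v x) (x - y)) : y ≠ 0 ∧ v y = v x := by
  by_cases h1 : x - y = 0
  · rw [sub_eq_zero] at h1
    rw [← h1]; exact ⟨hx, rfl⟩
  · have h2 : v x < v (-(x - y)) := by rw [v.map_neg _ h1]; exact h h1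
    have h3 := v.add_of_lt hx (neg_ne_zero.2 h1) h2
    rw [show x + -(x - y) = y by ring] at h3
    exact h3

theorem ge_pow (hx : v.Ge r x) (n : ℕ) : v.Ge (n * r) (x ^ n) := by
  induction n with
  | zero =>
    rw [Nat.cast_zero, zero_mul, pow_zero]
    intro _
    rw [v.map_one]
  | succ n ih =>
    rw [pow_succ, Nat.cast_succ, add_mul, one_mul]
    exact RVal.Ge.mul ih hx

theorem ge_natCast (v : RVal Ω) (n : ℕ) : v.Ge 0 (n : Ω) := by
  induction n with
  | zero => rw [Nat.cast_zero]; exact RVal.Ge.zero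
  | succ n ih =>
    rw [Nat.cast_succ]
    exact ih.add fun _ => by rw [v.map_one]

end Val

/-! ### Strict polynomials -/

section Str

variable {Ω : Type u} [Field Ω] {v : RVal Ω} {s : ℝ} {G H : Polynomial Ω}

/-- The constant term dominates on the disc of radius `s`, strictly. -/
structure Str (v : RVal Ω) (s : ℝ) (G : Polynomial Ω) : Prop where
  ne : G.coeff 0 ≠ 0
  gt : ∀ l : ℕ, 1 ≤ l → Gt v (v (G.coeff 0) - l * s) (G.coeff l)

theorem Str.ge (h : Str v s G) (l : ℕ) : v.Ge (v (G.coeff 0) - l * s) (G.coeff l) := by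
  rcases Nat.eq_zero_or_pos l with rfl | hl
  · rw [Nat.cast_zero, zero_mul, sub_zero]
    exact RVal.ge_self _
  · exact (h.gt l hl).ge

theorem Str.mul (hG : Str v s G) (hH : Str v s H) : Str v s (G * H) := by
  have h0 : (G * H).coeff 0 = G.coeff 0 * H.coeff 0 := mul_coeff_zero G H
  refine ⟨by rw [h0]; exact mul_ne_zero hG.ne hH.ne, fun l hl => ?_⟩
  rw [h0, v.map_mul hG.ne hH.ne, coeff_mul]
  refine Gt.sum _ _ fun x hx => ?_
  have hx' : x.1 + x.2 = l := by simpa using hx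
  have hl' : (l : ℝ) = x.1 + x.2 := by rw [← hx']; push_cast; rfl
  rcases Nat.eq_zero_or_pos x.1 with h1 | h1
  · have h2 : 1 ≤ x.2 := by omega
    rw [mul_comm (G.coeff x.1)]
    refine ((hH.gt x.2 h2).mul_ge (hG.ge x.1)).mono ?_
    rw [hl']; linarith
  · refine ((hG.gt x.1 h1).mul_ge (hH.ge x.2)).mono ?_
    rw [hl']; linarith

theorem Str.C {c : Ω} (hc : c ≠ 0) : Str v s (C c) := by
  refine ⟨by rwa [coeff_C_zero], fun l hl => ?_⟩
  have h1 : (Polynomial.C c).coeff l = 0 := coeff_C_of_ne_zero (by omega)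
  rw [h1]
  exact Gt.zero

theorem Str.X_add_C {c : Ω} (hc : c ≠ 0) (hs : v c < s) : Str v s (X + Polynomial.C c) := by
  have h0 : (X + Polynomial.C c).coeff 0 = c := by simp
  refine ⟨by rwa [h0], fun l hl => ?_⟩
  rw [h0, coeff_add, coeff_C_of_ne_zero (by omega), add_zero, coeff_X]
  split_ifs with h1
  · intro _
    rw [v.map_one, ← h1]
    push_cast
    linarith
  · exact Gt.zero

theorem Str.multiset {z : Ω} (m : Multiset Ω) (hm : ∀ θ ∈ m, z ≠ θ ∧ v (z - θ) < s) :
    Str v s (taylor z (m.map fun θ => X - Polynomial.C θ).prod) := by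
  induction m using Multiset.induction_on with
  | empty =>
    rw [Multiset.map_zero, Multiset.prod_zero, taylor_one]
    exact Str.C one_ne_zero
  | cons θ m ih =>
    rw [Multiset.map_cons, Multiset.prod_cons, taylor_mul]
    refine Str.mul ?_ (ih fun θ' h' => hm θ' (Multiset.mem_cons_of_mem h'))
    have h1 : taylor z (X - Polynomial.C θ) = X + Polynomial.C (z - θ) := by
      rw [map_sub, taylor_X, taylor_C, C_sub]; ring
    rw [h1]
    obtain ⟨h2, h3⟩ := hm θ (Multiset.mem_cons_self θ m)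
    exact Str.X_add_C (sub_ne_zero.2 h2) h3

theorem Str.exists_delta (h : Str v s G) (S : Finset ℕ) (hS : ∀ l ∈ S, 1 ≤ l) :
    ∃ δ : ℝ, 0 < δ ∧ ∀ l ∈ S, v.Ge (v (G.coeff 0) + δ - l * (s - δ)) (G.coeff l) := by
  classical
  induction S using Finset.induction_on with
  | empty => exact ⟨1, one_pos, by simp⟩
  | insert l S hl ih =>
    obtain ⟨δ, hδ, hS'⟩ := ih fun l' h' => hS l' (Finset.mem_insert_of_mem h')
    by_cases h0 : G.coeff l = 0
    · refine ⟨δ, hδ, fun l' h' => ?_⟩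
      rcases Finset.mem_insert.1 h' with rfl | h'
      · rw [h0]; exact RVal.Ge.zero
      · exact hS' l' h'
    · have h1 := h.gt l (hS l (Finset.mem_insert_self l S)) h0
      set d := v (G.coeff l) + l * s - v (G.coeff 0) with hd
      have hd0 : 0 < d := by rw [hd]; linarith
      have hl1 : (0 : ℝ) < 1 + l := by positivity
      refine ⟨min δ (d / (1 + l)), lt_min hδ (div_pos hd0 hl1), fun l' h' => ?_⟩
      rcases Finset.mem_insert.1 h' with rfl | h'
      · refine RVal.Ge.of_le ?_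
        have h2 : min δ (d / (1 + l')) * (1 + l') ≤ d := by
          have := min_le_right δ (d / (1 + l'))
          calc min δ (d / (1 + l')) * (1 + l') ≤ d / (1 + l') * (1 + l') :=
                mul_le_mul_of_nonneg_right this hl1.le
            _ = d := div_mul_cancel₀ _ hl1.ne'
        nlinarith
      · refine (hS' l' h').mono ?_
        have h2 := min_le_left δ (d / (1 + l))
        have h3 : (0 : ℝ) ≤ l' := by positivity
        nlinarith

/-- The value is constant near the centre. -/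
theorem Str.near (h : Str v s G) :
    ∃ δ : ℝ, 0 < δ ∧ ∀ t, v.Ge (s - δ) t → v.Ge (v (G.coeff 0) + δ) (G.eval t - G.coeff 0) := by
  obtain ⟨δ, hδ, h1⟩ := h.exists_delta (Finset.Icc 1 G.natDegree)
    fun l hl => (Finset.mem_Icc.1 hl).1
  refine ⟨δ, hδ, fun t ht => ?_⟩
  have h2 : G.eval t - G.coeff 0 = ∑ l ∈ Finset.Icc 1 G.natDegree, G.coeff l * t ^ l := by
    rw [eval_eq_sum_range, Finset.sum_range_eq_add_Ico _ (Nat.succ_pos _)]
    rw [pow_zero, mul_one, add_sub_cancel_left]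
    rfl
  rw [h2]
  refine RVal.Ge.sum _ _ fun l hl => ?_
  refine (RVal.Ge.mul (h1 l hl) (ge_pow ht l)).mono ?_
  linarith

end Str

section TL

variable {k Ω : Type u} [Field k] [Field Ω] [Algebra k Ω] {v : RVal Ω}
  {A A' : IntermediateField k Ω} {z w : Ω} {s r : ℝ} {f : Polynomial Ω}

theorem le_algc (A : IntermediateField k Ω) : A ≤ algc A := fun a ha =>
  mem_algc.2 (isAlgebraic_algebraMap (R := A) (⟨a, ha⟩ : A))

theorem PI_mono (h : A ≤ A') : PI A ≤ PI A' := fun _ hf i => h (hf i)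

theorem C_mem_PI {a : Ω} (ha : a ∈ A) : Polynomial.C a ∈ PI A := fun i => by
  rw [coeff_C]
  split_ifs
  exacts [ha, zero_mem _]

theorem X_mem_PI : (X : Polynomial Ω) ∈ PI A := fun i => by
  rw [coeff_X]
  split_ifs
  exacts [one_mem _, zero_mem _]

theorem isAlgebraic_of_algc {θ : Ω} (h : IsAlgebraic (algc A) θ) : IsAlgebraic A θ := by
  let B := algebraicClosure A Ω
  have h1 : IsAlgebraic B θ := h
  have : Algebra.IsAlgebraic A B := algebraicClosure.isAlgebraic A Ω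
  exact h1.restrictScalars A

theorem isAlgebraic_root (hf : f ∈ PI A) (h0 : f ≠ 0) {θ : Ω} (hθ : f.eval θ = 0) :
    IsAlgebraic A θ := by
  have hl : f ∈ Polynomial.lifts (algebraMap A Ω) := by
    rw [Polynomial.lifts_iff_coeff_lifts]
    exact fun i => ⟨⟨f.coeff i, hf i⟩, rfl⟩
  obtain ⟨g, hg⟩ := hl
  have hg' : g.map (algebraMap A Ω) = f := hg
  refine ⟨g, ?_, ?_⟩
  · rintro rfl
    rw [Polynomial.map_zero] at hg'
    exact h0 hg'.symm
  · rw [aeval_def, eval₂_eq_eval_map, hg', hθ]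

theorem eval_mem (hf : f ∈ PI A) {a : Ω} (ha : a ∈ A) : f.eval a ∈ A := by
  rw [eval_eq_sum_range]
  exact sum_mem fun i _ => mul_mem (hf i) (pow_mem ha i)

theorem taylor_mem_PI (hf : f ∈ PI A) {a : Ω} (ha : a ∈ A) : taylor a f ∈ PI A := by
  intro l
  rw [taylor_coeff, hasseDeriv_apply, eval_sum, Polynomial.sum_def]
  refine sum_mem fun i _ => ?_
  rw [eval_monomial]
  exact mul_mem (mul_mem (natCast_mem A _) (hf i)) (pow_mem ha _)

theorem hasse_mem_PI (hf : f ∈ PI A) (l : ℕ) : hasseDeriv l f ∈ PI A := by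
  intro i
  rw [hasseDeriv_coeff]
  exact mul_mem (natCast_mem A _) (hf _)

theorem TL.algc (h : TL v A z s) : TL v (TWM.algc A) z s where
  lim := fun ε hε => by
    obtain ⟨a, ha, h1⟩ := h.lim ε hε
    exact ⟨a, le_algc A ha, h1⟩
  far := fun θ hθ => h.far θ (isAlgebraic_of_algc hθ)

/-- `TL` is invariant under algebraic extensions. -/
theorem TL.mono (h : TL v A z s) (h1 : A ≤ A') (h2 : A' ≤ TWM.algc A) : TL v A' z s where
  lim := fun ε hε => by
    obtain ⟨a, ha, h1'⟩ := h.lim ε hε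
    exact ⟨a, h1 ha, h1'⟩
  far := fun θ hθ => h.algc.far θ (D2P.isAlgebraic_mono h2 hθ)

theorem Lim.mono (h : Lim v A r w) (h1 : A ≤ A') : Lim v A' r w := fun ε hε => by
  obtain ⟨a, ha, h2⟩ := h ε hε
  exact ⟨a, h1 ha, h2⟩

variable [IsAlgClosed Ω]

/-- A1, A2: strictness. -/
theorem TL.str (h : TL v A z s) (hf : f ∈ PI (TWM.algc A)) (h0 : f ≠ 0) :
    Str v s (taylor z f) := by
  have h1 := (IsAlgClosed.splits f).eq_prod_roots
  rw [h1, taylor_mul, taylor_C]
  refine Str.mul (Str.C (leadingCoeff_ne_zero.2 h0)) (Str.multiset _ fun θ hθ => ?_)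
  rw [mem_roots h0] at hθ
  exact h.far θ (isAlgebraic_of_algc (isAlgebraic_root hf h0 hθ))

theorem TL.str' (h : TL v A z s) (hf : f ∈ PI A) (h0 : f ≠ 0) : Str v s (taylor z f) :=
  h.str (PI_mono (le_algc A) hf) h0

theorem TL.eval_ne (h : TL v A z s) (hf : f ∈ PI (TWM.algc A)) (h0 : f ≠ 0) : f.eval z ≠ 0 := by
  have := (h.str hf h0).ne
  rwa [taylor_coeff_zero] at this

/-- A2, strict form. -/
theorem TL.strict (h : TL v A z s) (hf : f ∈ PI (TWM.algc A)) (h0 : f ≠ 0) {l : ℕ} (hl : 1 ≤ l) :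
    Gt v (v (f.eval z) - l * s) ((taylor z f).coeff l) := by
  have := (h.str hf h0).gt l hl
  rwa [taylor_coeff_zero] at this

/-- A2, weak form. -/
theorem TL.weak (h : TL v A z s) (hf : f ∈ PI (TWM.algc A)) (h0 : f ≠ 0) (l : ℕ) :
    v.Ge (v (f.eval z) - l * s) ((taylor z f).coeff l) := by
  have := (h.str hf h0).ge l
  rwa [taylor_coeff_zero] at this

omit [IsAlgClosed Ω] in
theorem eval_eq_taylor (f : Polynomial Ω) (z ψ : Ω) : f.eval ψ = (taylor z f).eval (ψ - z) := by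
  rw [taylor_eval, sub_add_cancel]

/-- A1: the value is constant near `z`. -/
theorem TL.near (h : TL v A z s) (hf : f ∈ PI (TWM.algc A)) (h0 : f ≠ 0) :
    ∃ δ : ℝ, 0 < δ ∧ ∀ ψ, v.Ge (s - δ) (z - ψ) →
      v.Ge (v (f.eval z) + δ) (f.eval z - f.eval ψ) := by
  obtain ⟨δ, hδ, h1⟩ := (h.str hf h0).near
  refine ⟨δ, hδ, fun ψ hψ => ?_⟩
  have h2 := h1 (ψ - z) (ge_sub_comm hψ)
  rw [taylor_coeff_zero, ← eval_eq_taylor] at h2
  exact ge_sub_comm h2

theorem TL.near_val (h : TL v A z s) (hf : f ∈ PI (TWM.algc A)) (h0 : f ≠ 0) :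
    ∃ δ : ℝ, 0 < δ ∧ ∀ ψ, v.Ge (s - δ) (z - ψ) → f.eval ψ ≠ 0 ∧ v (f.eval ψ) = v (f.eval z) := by
  obtain ⟨δ, hδ, h1⟩ := h.near hf h0
  exact ⟨δ, hδ, fun ψ hψ => Gt.val_eq (h.eval_ne hf h0)
    (Gt.of_ge (h1 ψ hψ) (by linarith))⟩

/-! ### A5 -/

omit [IsAlgClosed Ω] in
/-- The variation of a polynomial, from bounds for its Hasse derivatives. -/
theorem var_bound (f : Polynomial Ω) (z : Ω) (s r : ℝ)
    (hr : ∀ l : ℕ, 1 ≤ l → v.Ge (r - l * s) ((taylor z f).coeff l)) {ε : ℝ} (hε : 0 < ε) :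
    ∃ δ : ℝ, 0 < δ ∧ ∀ ψ, v.Ge (s - δ) (z - ψ) → v.Ge (r - ε) (f.eval z - f.eval ψ) := by
  set G := taylor z f with hG
  refine ⟨ε / (G.natDegree + 1), by positivity, fun ψ hψ => ?_⟩
  have h2 : f.eval ψ - f.eval z = ∑ l ∈ Finset.Icc 1 G.natDegree, G.coeff l * (ψ - z) ^ l := by
    rw [eval_eq_taylor f z ψ, ← hG, ← taylor_coeff_zero z f, ← hG, eval_eq_sum_range,
      Finset.sum_range_eq_add_Ico _ (Nat.succ_pos _)]
    rw [pow_zero, mul_one, add_sub_cancel_left]
    rfl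
  refine ge_sub_comm ?_
  rw [h2]
  refine RVal.Ge.sum _ _ fun l hl => ?_
  obtain ⟨h3, h4⟩ := Finset.mem_Icc.1 hl
  refine (RVal.Ge.mul (hr l h3) (ge_pow (ge_sub_comm hψ) l)).mono ?_
  have h5 : (l : ℝ) * (ε / (G.natDegree + 1)) ≤ ε := by
    rw [mul_div_assoc', div_le_iff₀ (by positivity)]
    have : (l : ℝ) ≤ G.natDegree := by exact_mod_cast h4
    nlinarith
  linarith

omit [IsAlgClosed Ω] in
theorem TL.poly_lim (h : TL v A z s) (hf : f ∈ PI A)
    (hr : ∀ l : ℕ, 1 ≤ l → v.Ge (r - l * s) ((taylor z f).coeff l)) : Lim v A r (f.eval z) := by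
  intro ε hε
  obtain ⟨δ, hδ, h1⟩ := var_bound f z s r hr hε
  obtain ⟨ψ, hψ, h2⟩ := h.lim δ hδ
  exact ⟨f.eval ψ, eval_mem hf hψ, h1 ψ h2⟩

/-- A5: `f(z)` is far from the algebraic elements. -/
theorem TL.poly_far (h : TL v A z s) (hf : f ∈ PI (TWM.algc A)) {l : ℕ} (hl : 1 ≤ l)
    (h0 : (taylor z f).coeff l ≠ 0) {θ : Ω} (hθ : IsAlgebraic A θ) :
    f.eval z ≠ θ ∧ v (f.eval z - θ) < v ((taylor z f).coeff l) + l * s := by
  set g : Polynomial Ω := f - Polynomial.C θ with hg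
  have hgm : g ∈ PI (TWM.algc A) := sub_mem hf (C_mem_PI (mem_algc.2 hθ))
  have hgl : (taylor z g).coeff l = (taylor z f).coeff l := by
    rw [hg, map_sub, taylor_C, coeff_sub, coeff_C_of_ne_zero (by omega), sub_zero]
  have hg0 : g ≠ 0 := by
    intro h1
    rw [h1, map_zero, coeff_zero] at hgl
    exact h0 hgl.symm
  have hgz : g.eval z = f.eval z - θ := by rw [hg, eval_sub, eval_C]
  refine ⟨fun h1 => h.eval_ne hgm hg0 (by rw [hgz, h1, sub_self]), ?_⟩
  have h2 := h.strict hgm hg0 hl (by rwa [hgl])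
  rw [hgl, hgz] at h2
  linarith

/-! ### A3 -/

omit [IsAlgClosed Ω] in
theorem mem_cadj {w : Ω} : w ∈ cadj v A z ↔ w ∈ Cl v (adj A z).toSubfield := Iff.rfl

omit [IsAlgClosed Ω] in
theorem le_cadj (v : RVal Ω) (A : IntermediateField k Ω) (z : Ω) : A ≤ cadj v A z := fun _ ha =>
  LUC.Cl.subset ((D2P.mem_adj_self A z).2 ha)

omit [IsAlgClosed Ω] in
theorem self_mem_cadj (v : RVal Ω) (A : IntermediateField k Ω) (z : Ω) : z ∈ cadj v A z :=
  LUC.Cl.subset (D2P.mem_adj_self A z).1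

omit [IsAlgClosed Ω] in
theorem cld_clI (v : RVal Ω) (E : IntermediateField k Ω) : Cld v (clI v E) := fun _ ha =>
  LUC.cl_cl ha

omit [IsAlgClosed Ω] in
theorem cld_cadj (v : RVal Ω) (A : IntermediateField k Ω) (z : Ω) : Cld v (cadj v A z) :=
  cld_clI v _

omit [IsAlgClosed Ω] in
theorem cadj_le {B : IntermediateField k Ω} (hB : Cld v B) (h : A ≤ B) (hz : z ∈ B) :
    cadj v A z ≤ B := by
  intro w hw
  exact hB (D2P.cl_mono (fun x hx => D2P.adj_le h hz hx) hw)

/-- The approximations of `1 / f(z)` by polynomials. -/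
theorem TL.inv_approx (h : TL v A z s) (hf : f ∈ PI A) (h0 : f ≠ 0) (b : ℝ) :
    ∃ g ∈ PI A, v.Ge b ((f.eval z)⁻¹ - g.eval z) := by
  have hfz := h.eval_ne (PI_mono (le_algc A) hf) h0
  obtain ⟨δ, hδ, h1⟩ := h.near (PI_mono (le_algc A) hf) h0
  obtain ⟨ψ, hψ, h2⟩ := h.lim δ hδ
  have h3 := h1 ψ h2
  obtain ⟨h4, h5⟩ := Gt.val_eq hfz (Gt.of_ge h3 (by linarith))
  -- `f(z) = c (1 - t)`, `c = f(ψ)`
  set c := f.eval ψ with hc
  have hcA : c ∈ A := eval_mem hf hψ
  set t := 1 - f.eval z / c with ht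
  have htv : v.Ge δ t := by
    have h6 : t = -((f.eval z - c) * c⁻¹) := by
      rw [ht]; field_simp; ring
    rw [h6]
    refine RVal.Ge.neg ?_
    have h7 := RVal.Ge.mul h3 (RVal.Ge.of_le (v := v) (v.map_inv h4).ge)
    exact h7.mono (by rw [h5]; linarith)
  -- the geometric sum
  obtain ⟨n, hn⟩ := exists_nat_gt ((b + v (f.eval z)) / δ)
  let T : Polynomial Ω := 1 - f * Polynomial.C c⁻¹
  have hT : T ∈ PI A := sub_mem (one_mem _) (mul_mem hf (C_mem_PI (inv_mem hcA)))
  have hTz : T.eval z = t := by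
    show (1 - f * Polynomial.C c⁻¹).eval z = _
    rw [eval_sub, eval_one, eval_mul, eval_C, ht, div_eq_mul_inv]
  refine ⟨Polynomial.C c⁻¹ * ∑ i ∈ Finset.range n, T ^ i, mul_mem (C_mem_PI (inv_mem hcA))
    (sum_mem fun i _ => pow_mem hT i), ?_⟩
  rw [eval_mul, eval_C, eval_finsetSum]
  simp only [eval_pow, hTz]
  have h8 : f.eval z = c * (1 - t) := by rw [ht]; field_simp; ring
  have h9 : (1 - t) * ∑ i ∈ Finset.range n, t ^ i = 1 - t ^ n := mul_neg_geom_sum t n
  have h1t : 1 - t ≠ 0 := by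
    intro h10
    rw [h10, mul_zero] at h8
    exact hfz h8
  have h10 : (f.eval z)⁻¹ - c⁻¹ * ∑ i ∈ Finset.range n, t ^ i = (f.eval z)⁻¹ * t ^ n := by
    have h11 : ∑ i ∈ Finset.range n, t ^ i = (1 - t ^ n) / (1 - t) := by
      rw [← h9]; field_simp
    rw [h11, h8]
    field_simp
    ring
  rw [h10]
  refine (RVal.Ge.mul (RVal.Ge.of_le (v.map_inv hfz).ge) (ge_pow htv n)).mono ?_
  rw [div_lt_iff₀ hδ] at hn
  linarith

/-- A3: the polynomials in `z` are dense in the closure of `A(z)`. -/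
theorem TL.dense (h : TL v A z s) {w : Ω} (hw : w ∈ cadj v A z) (b : ℝ) :
    ∃ f ∈ PI A, v.Ge b (w - f.eval z) := by
  -- the closure of `A[z]` is a field
  let B : Subfield Ω :=
    { carrier := {w | ∀ b : ℝ, ∃ f ∈ PI A, v.Ge b (w - f.eval z)}
      mul_mem' := by
        intro x y hx hy b
        by_cases hx0 : x = 0
        · exact ⟨0, zero_mem _, by rw [hx0, zero_mul, eval_zero, sub_zero]; exact RVal.Ge.zero⟩
        obtain ⟨g, hg, h2⟩ := hy (b - v x)
        obtain ⟨f, hf, h1⟩ := hx (b - v (g.eval z))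
        refine ⟨f * g, mul_mem hf hg, ?_⟩
        rw [eval_mul, show x * y - f.eval z * g.eval z =
          x * (y - g.eval z) + (x - f.eval z) * g.eval z by ring]
        refine RVal.Ge.add ?_ ?_
        · exact (RVal.Ge.mul (RVal.ge_self x) h2).mono (by linarith)
        · exact (RVal.Ge.mul h1 (RVal.ge_self _)).mono (by linarith)
      one_mem' := fun b => ⟨1, one_mem _, by rw [eval_one, sub_self]; exact RVal.Ge.zero⟩
      add_mem' := by
        intro x y hx hy b
        obtain ⟨f, hf, h1⟩ := hx b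
        obtain ⟨g, hg, h2⟩ := hy b
        exact ⟨f + g, add_mem hf hg, by
          rw [eval_add, add_sub_add_comm]; exact h1.add h2⟩
      zero_mem' := fun b => ⟨0, zero_mem _, by rw [eval_zero, sub_self]; exact RVal.Ge.zero⟩
      neg_mem' := by
        intro x hx b
        obtain ⟨f, hf, h1⟩ := hx b
        exact ⟨-f, neg_mem hf, by rw [eval_neg, ← neg_sub']; exact h1.neg⟩
      inv_mem' := by
        intro x hx b
        by_cases hx0 : x = 0
        · exact ⟨0, zero_mem _, by rw [hx0, inv_zero, eval_zero, sub_zero]; exact RVal.Ge.zero⟩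
        -- `x` near `f(z)`, `1/f(z)` near `g(z)`
        obtain ⟨f, hf, h1⟩ := hx (max (v x + 1) (b + 2 * v x))
        obtain ⟨h2, h3⟩ := Gt.val_eq hx0 (Gt.of_ge h1 (lt_max_of_lt_left (by linarith)))
        have hf0 : f ≠ 0 := by
          rintro rfl
          exact h2 eval_zero
        obtain ⟨g, hg, h4⟩ := h.inv_approx hf hf0 b
        refine ⟨g, hg, ?_⟩
        have h5 : x⁻¹ - g.eval z = -((x - f.eval z) * (x⁻¹ * (f.eval z)⁻¹)) +
            ((f.eval z)⁻¹ - g.eval z) := by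
          field_simp
          ring
        rw [h5]
        refine RVal.Ge.add (RVal.Ge.neg ?_) h4
        have h6 := RVal.Ge.mul h1 (RVal.Ge.mul (RVal.Ge.of_le (v := v) (v.map_inv hx0).ge)
          (RVal.Ge.of_le (v := v) (v.map_inv h2).ge))
        refine h6.mono ?_
        rw [h3]
        have := le_max_right (v x + 1) (b + 2 * v x)
        linarith }
  have h1 : ∀ x ∈ adj A z, x ∈ B := by
    intro x hx
    have h2 : adj A z ≤ B.toIntermediateField (fun c => by
        intro b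
        exact ⟨Polynomial.C (algebraMap k Ω c), C_mem_PI (A.algebraMap_mem c), by
          rw [eval_C, sub_self]; exact RVal.Ge.zero⟩) := by
      refine D2P.adj_le (fun a ha => ?_) ?_
      · intro b
        exact ⟨Polynomial.C a, C_mem_PI ha, by rw [eval_C, sub_self]; exact RVal.Ge.zero⟩
      · intro b
        exact ⟨X, X_mem_PI, by rw [eval_X, sub_self]; exact RVal.Ge.zero⟩
    exact h2 hx
  obtain ⟨x, hx, h2⟩ := hw b
  obtain ⟨f, hf, h3⟩ := h1 x hx b
  refine ⟨f, hf, ?_⟩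
  rw [show w - f.eval z = (w - x) + (x - f.eval z) by ring]
  exact h2.add h3

/-- A3: the closure of `A(z)` is immediate over `A`. -/
theorem TL.imm (h : TL v A z s) : Imm v A (cadj v A z) where
  le := le_cadj v A z
  imm := by
    intro b hb hb0
    obtain ⟨f, hf, h1⟩ := h.dense hb (v b + 1)
    obtain ⟨h2, h3⟩ := Gt.val_eq hb0 (Gt.of_ge h1 (by linarith))
    have hf0 : f ≠ 0 := by
      rintro rfl
      exact h2 eval_zero
    obtain ⟨δ, hδ, h4⟩ := h.near (PI_mono (le_algc A) hf) hf0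
    obtain ⟨ψ, hψ, h5⟩ := h.lim δ hδ
    refine ⟨f.eval ψ, eval_mem hf hψ, ?_⟩
    rw [show b - f.eval ψ = (b - f.eval z) + (f.eval z - f.eval ψ) by ring]
    exact (Gt.of_ge h1 (by linarith)).add (Gt.of_ge (h4 ψ h5) (by rw [h3]; linarith))

end TL

end Pool.Agent.TWM
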