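import Pool.Agent.Lib.TWM.S3d

/-!
# TANK W, M2S, row S3.8: the top coefficient under a change of coordinates

`Chg.taylor_symm`: the coefficients of `P(y, z + τ)` in terms of the Hasse derivatives of `H.tr P` at
`(u, w)`; `Chg.top`: the top exact coefficient.
-/

set_option autoImplicit false

open Polynomial

namespace Pool.Agent.TWM

open Pool.Agent.H15JM (RVal)
open Pool.Agent.D2 (Ctx0)

universe u

variable {k Ω : Type u} [Field k] [Field Ω] [Algebra k Ω] {v : RVal Ω}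
  {p : ℕ} {G : AddSubgroup ℝ} {M : ℝ → Ω} {s r t lam : ℝ}

/-! ## Operators as polynomials -/

theorem opP_coeff [Fact p.Prime] (f : k[X]) (j : ℕ) :
    (opP p M s r f).coeff (p ^ j) = algebraMap k Ω (f.coeff j) * M (r - (p : ℝ) ^ j * s) := by
  rw [opP, Polynomial.sum, finsetSum_coeff]
  have h1 : ∀ i ∈ f.support, (C (algebraMap k Ω (f.coeff i) * M (r - (p : ℝ) ^ i * s)) *
      X ^ p ^ i : Polynomial Ω).coeff (p ^ j) =
      if j = i then algebraMap k Ω (f.coeff j) * M (r - (p : ℝ) ^ j * s) else 0 := by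
    intro i _
    rw [coeff_C_mul_X_pow]
    by_cases h : j = i
    · rw [if_pos h, if_pos (by rw [h]), h]
    · rw [if_neg h, if_neg fun h' => h (Nat.pow_right_injective (Fact.out : p.Prime).two_le h')]
  rw [Finset.sum_congr rfl h1, Finset.sum_ite_eq]
  split_ifs with h
  · rfl
  · rw [notMem_support_iff.1 h, map_zero, zero_mul]

theorem opP_natDegree_le [Fact p.Prime] (f : k[X]) :
    (opP p M s r f).natDegree ≤ p ^ f.natDegree := by
  rw [opP, Polynomial.sum]
  refine natDegree_sum_le_of_forall_le _ _ fun j hj => ?_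
  refine (natDegree_C_mul_X_pow_le _ _).trans ?_
  exact Nat.pow_le_pow_right (Fact.out : p.Prime).pos (le_natDegree_of_mem_supp j hj)

theorem GB_opP (h0 : Ctx0 k v) (hM : MS v G M) {f : k[X]} (hf : IsOp p G s r f) :
    GB v s r (opP p M s r f) := by
  rw [opP, Polynomial.sum]
  refine GB.sum _ _ fun j hj => ?_
  refine ((GB.C (term_ge h0 hM (hf j (mem_support_iff.mp hj)) _)).mul (GB.X.pow (p ^ j))).mono
    (le_of_eq ?_)
  push_cast
  ring

/-! ## Strict bounds for the Taylor coefficients -/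

theorem taylor_coeff_sum {R : Type*} [CommRing R] (f : Polynomial R) (a : R) (m : ℕ) :
    (taylor a f).coeff m = ∑ n ∈ f.support, f.coeff n * (a ^ (n - m) * (n.choose m : R)) := by
  rw [taylor_apply, comp_eq_sum_left, Polynomial.sum, finsetSum_coeff]
  refine Finset.sum_congr rfl fun n _ => ?_
  rw [coeff_C_mul, coeff_X_add_C_pow]

theorem T2_sum_formula (u w : Ω) (Q : Polynomial (Polynomial Ω)) (i m : ℕ) :
    T2 u w Q i m = ∑ n ∈ Q.support, (taylor u (Q.coeff n)).coeff i *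
      (w ^ (n - m) * (n.choose m : Ω)) := by
  rw [T2, taylor_coeff_sum Q (C w) m, map_sum, finsetSum_coeff]
  refine Finset.sum_congr rfl fun n _ => ?_
  have h1 : ((C w : Polynomial Ω) ^ (n - m) * ((n.choose m : ℕ) : Polynomial Ω)) =
      C (w ^ (n - m) * (n.choose m : Ω)) := by
    rw [C_mul, C_pow]
    simp only [map_natCast]
  rw [h1, taylor_mul, taylor_C, coeff_mul_C]

/-- Each term of the Taylor expansion, strictly. -/
theorem gt_term {x w : Ω} {n m : ℕ} {c : ℝ} (hw : v.Ge r w) (hx : Gt v (c - n * r) x) (hnm : m ≤ n) :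
    Gt v (c - m * r) (x * (w ^ (n - m) * (n.choose m : Ω))) := by
  have h1 := (ge_pow hw (n - m)).mul (ge_natCast v (n.choose m))
  have h2 := hx.mul_ge h1
  refine h2.mono (le_of_eq ?_)
  rw [Nat.cast_sub hnm]
  ring

/-- Each term of index `> m`, when `w` is of value `> r`. -/
theorem gt_term' {x w : Ω} {n m : ℕ} {c : ℝ} (hw : Gt v r w) (hx : v.Ge (c - n * r) x) (hnm : m < n) :
    Gt v (c - m * r) (x * (w ^ (n - m) * (n.choose m : Ω))) := by
  obtain ⟨d, rfl⟩ := Nat.exists_eq_add_of_lt hnm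
  have h1 : m + d + 1 - m = d + 1 := by omega
  rw [h1, pow_succ']
  have h2 : Gt v (c - m * r) (w * (x * (w ^ d * ((m + d + 1).choose m : Ω)))) := by
    have h3 := hx.mul ((ge_pow hw.ge d).mul (ge_natCast v ((m + d + 1).choose m)))
    refine (hw.mul_ge h3).mono (le_of_eq ?_)
    push_cast
    ring
  have h4 : x * (w * w ^ d * ((m + d + 1).choose m : Ω)) =
      w * (x * (w ^ d * ((m + d + 1).choose m : Ω))) := by ring
  rw [h4]
  exact h2

/-- The Hasse derivatives of positive order in `u` are strict. -/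
theorem T2_strict [IsAlgClosed Ω] {N : IntermediateField k Ω} {u w : Ω} {ρ' : ℝ}
    {Q : Polynomial (Polynomial Ω)} (hQ : PII N Q) (hu : TL v N u ρ') (hw : v.Ge r w)
    (h1 : ∀ m : ℕ, v.Ge (lam - m * r) ((Q.coeff m).eval u)) {i : ℕ} (hi : 1 ≤ i) (m : ℕ) :
    Gt v (lam - i * ρ' - m * r) (T2 u w Q i m) := by
  rw [T2_sum_formula]
  refine Gt.sum _ _ fun n hn => ?_
  rcases lt_or_ge n m with hnm | hnm
  · rw [Nat.choose_eq_zero_of_lt hnm, Nat.cast_zero, mul_zero, mul_zero]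
    exact Gt.zero
  · refine gt_term hw ?_ hnm
    have h0 : Q.coeff n ≠ 0 := mem_support_iff.mp hn
    have hf : Q.coeff n ∈ PI (algc N) := PI_mono (le_algc N) (hQ n)
    refine (hu.strict hf h0 hi).mono ?_
    have := h1 n (hu.eval_ne hf h0)
    linarith

/-- The Hasse derivatives of order zero in `u`: recentring from `0` to `w`. -/
theorem T2_zero_sub {u w : Ω} {Q : Polynomial (Polynomial Ω)} (hw : Gt v r w)
    (h1 : ∀ m : ℕ, v.Ge (lam - m * r) ((Q.coeff m).eval u)) (m : ℕ) :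
    Gt v (lam - m * r) (T2 u w Q 0 m - (Q.coeff m).eval u) := by
  rw [T2_sum_formula]
  have h2 : ∑ n ∈ Q.support, (taylor u (Q.coeff n)).coeff 0 * (w ^ (n - m) * (n.choose m : Ω)) -
      (Q.coeff m).eval u = ∑ n ∈ Q.support.erase m, (taylor u (Q.coeff n)).coeff 0 *
        (w ^ (n - m) * (n.choose m : Ω)) := by
    by_cases hm : m ∈ Q.support
    · rw [← Finset.add_sum_erase _ _ hm, Nat.sub_self, pow_zero, Nat.choose_self, Nat.cast_one,
        mul_one, mul_one, taylor_coeff_zero]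
      ring
    · rw [Finset.erase_eq_of_notMem hm, notMem_support_iff.1 hm, eval_zero, sub_zero]
  rw [h2]
  refine Gt.sum _ _ fun n hn => ?_
  have hn' := Finset.ne_of_mem_erase hn
  rcases lt_or_ge n m with hnm | hnm
  · rw [Nat.choose_eq_zero_of_lt hnm, Nat.cast_zero, mul_zero, mul_zero]
    exact Gt.zero
  · rw [taylor_coeff_zero]
    exact gt_term' hw (h1 n) (lt_of_le_of_ne hnm hn'.symm)

/-! ## The expansion at `(y, z + τ)` -/

/-- Evaluation of the inner variable at `0`. -/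
noncomputable def E0 (Ω : Type u) [Field Ω] : Polynomial (Polynomial Ω) →+* Polynomial Ω :=
  mapRingHom (evalRingHom 0)

theorem E0_coeff (R : Polynomial (Polynomial Ω)) (l : ℕ) :
    (E0 Ω R).coeff l = (R.coeff l).coeff 0 := by
  rw [E0, coe_mapRingHom, coeff_map, coe_evalRingHom, coeff_zero_eq_eval_zero]

theorem E0_CC (c : Ω) : E0 Ω (C (C c)) = C c := by
  rw [E0, coe_mapRingHom, map_C, coe_evalRingHom, eval_C]

theorem E0_CX : E0 Ω (C X) = 0 := by
  rw [E0, coe_mapRingHom, map_C, coe_evalRingHom, eval_X, C_0]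

theorem E0_X : E0 Ω X = X := by
  rw [E0, coe_mapRingHom, map_X]

theorem E0_evP_CX [Fact p.Prime] (f : k[X]) : E0 Ω (evP p M s r f (C X)) = 0 := by
  rw [map_evP, Polynomial.sum]
  refine Finset.sum_eq_zero fun j _ => ?_
  rw [E0_CX, zero_pow (pow_ne_zero _ (Fact.out : p.Prime).ne_zero), mul_zero]

theorem E0_evP_X (f : k[X]) : E0 Ω (evP p M s r f X) = opP p M s r f := by
  rw [map_evP, opP]
  refine Finset.sum_congr rfl fun j _ => ?_
  simp only [E0_CC, E0_X]

theorem E0_sub2 (F K T : Polynomial (Polynomial Ω)) :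
    E0 Ω (sub2 F K T) = ∑ m ∈ T.support, ∑ i ∈ (T.coeff m).support,
      C ((T.coeff m).coeff i) * (E0 Ω F ^ i * E0 Ω K ^ m) := by
  have h2 : sub2 F K T = T.eval₂ (eval₂RingHom (C.comp C) F) K := rfl
  rw [h2, eval₂_eq_sum, Polynomial.sum, map_sum]
  refine Finset.sum_congr rfl fun m _ => ?_
  rw [coe_eval₂RingHom, eval₂_eq_sum, Polynomial.sum, Finset.sum_mul, map_sum]
  refine Finset.sum_congr rfl fun i _ => ?_
  rw [map_mul, map_mul, map_pow, map_pow, RingHom.comp_apply, E0_CC, mul_assoc]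

namespace Chg

variable [Fact p.Prime] [CharP k p] [CharP Ω p] {N : IntermediateField k Ω} {y z : Ω} {ρ s : ℝ}
  {u w : Ω} {ρ' r : ℝ}

/-- The coefficients of `Q(u, w)` expanded at `(y, z + τ)`. -/
theorem taylor_symm (H : Chg p G M N y z ρ s u w ρ' r) (Q : Polynomial (Polynomial Ω)) (l : ℕ) :
    (taylor z ((H.symm.tr Q).map (evalRingHom y))).coeff l =
      ∑ m ∈ (tt u w Q).support, ∑ i ∈ ((tt u w Q).coeff m).support,
        T2 u w Q i m * (opP p M s ρ' H.δ ^ i * opP p M s r H.β ^ m).coeff l := by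
  rw [← T2_zero_left, T2_eq_tt, H.symm.tt_tr Q, ← E0_coeff, E0_sub2, finsetSum_coeff]
  refine Finset.sum_congr rfl fun m _ => ?_
  rw [finsetSum_coeff]
  refine Finset.sum_congr rfl fun i _ => ?_
  rw [map_add, map_add, E0_evP_CX, E0_evP_CX, E0_evP_X, E0_evP_X, zero_add, zero_add, coeff_C_mul,
    T2_eq_tt]
  rfl

/-- S3.8 (TOP), for a bipolynomial in the new coordinates. -/
theorem top_symm [IsAlgClosed Ω] (h0 : Ctx0 k v) (hM : MS v G M)
    (H : Chg p G M N y z ρ s u w ρ' r) (hu : TL v N u ρ') (hw : Gt v r w)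
    {Q : Polynomial (Polynomial Ω)} (hQ : PII N Q) {lam : ℝ} {m₀ : ℕ}
    (h1 : ∀ m : ℕ, v.Ge (lam - m * r) ((Q.coeff m).eval u))
    (h2 : ∀ m : ℕ, m₀ < m → Gt v (lam - m * r) ((Q.coeff m).eval u))
    (h3 : (Q.coeff m₀).eval u ≠ 0 ∧ v ((Q.coeff m₀).eval u) = lam - m₀ * r) (hβ : H.β ≠ 0) :
    (taylor z ((H.symm.tr Q).map (evalRingHom y))).coeff (m₀ * p ^ H.β.natDegree) ≠ 0 ∧
    v ((taylor z ((H.symm.tr Q).map (evalRingHom y))).coeff (m₀ * p ^ H.β.natDegree)) =
      lam - (m₀ * p ^ H.β.natDegree : ℕ) * s := by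
  set J := H.β.natDegree with hJ
  set L := m₀ * p ^ J with hL
  have hp : p.Prime := Fact.out
  have hdl : GB v s ρ' (opP p M s ρ' H.δ) := GB_opP h0 hM H.hδ
  have hbe : GB v s r (opP p M s r H.β) := GB_opP h0 hM H.hβ
  have hmix : ∀ i m : ℕ, v.Ge (i * ρ' + m * r - L * s)
      ((opP p M s ρ' H.δ ^ i * opP p M s r H.β ^ m).coeff L) := fun i m =>
    ((hdl.pow i).mul (hbe.pow m)) L
  have hcf := taylor_symm H Q L
  rw [hcf]
  -- the exact term
  have hβJ : H.β.coeff J ≠ 0 := by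
    rw [hJ, coeff_natDegree]
    exact leadingCoeff_ne_zero.mpr hβ
  set lead : Ω := algebraMap k Ω (H.β.coeff J) * M (r - (p : ℝ) ^ J * s) with hlead
  have hG : r - (p : ℝ) ^ J * s ∈ G := H.hβ J hβJ
  have hlv : lead ≠ 0 ∧ v lead = r - (p : ℝ) ^ J * s := term_val h0 hM hG hβJ
  have hT0 : T2 u w Q 0 m₀ ≠ 0 ∧ v (T2 u w Q 0 m₀) = lam - m₀ * r := by
    have e := T2_zero_sub hw h1 m₀
    rw [← h3.2] at e ⊢
    exact Gt.val_eq h3.1 e.sub_comm'
  have hex : (T2 u w Q 0 m₀ * (opP p M s ρ' H.δ ^ 0 * opP p M s r H.β ^ m₀).coeff L) ≠ 0 ∧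
      v (T2 u w Q 0 m₀ * (opP p M s ρ' H.δ ^ 0 * opP p M s r H.β ^ m₀).coeff L) = lam - L * s := by
    have e1 : (opP p M s ρ' H.δ ^ 0 * opP p M s r H.β ^ m₀).coeff L = lead ^ m₀ := by
      rw [pow_zero, one_mul, hL, coeff_pow_of_natDegree_le (opP_natDegree_le H.β), opP_coeff]
    rw [e1]
    refine ⟨mul_ne_zero hT0.1 (pow_ne_zero _ hlv.1), ?_⟩
    rw [v.map_mul hT0.1 (pow_ne_zero _ hlv.1), v.map_pow hlv.1, hT0.2, hlv.2, hL]
    push_cast
    ring
  -- the other terms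
  have hoth : ∀ i m : ℕ, ¬ (i = 0 ∧ m = m₀) → Gt v (lam - L * s)
      (T2 u w Q i m * (opP p M s ρ' H.δ ^ i * opP p M s r H.β ^ m).coeff L) := by
    intro i m him
    rcases Nat.eq_zero_or_pos i with hi | hi
    · subst hi
      have hm : m ≠ m₀ := fun h => him ⟨rfl, h⟩
      rcases lt_or_gt_of_ne hm with hlt | hgt
      · have e1 : (opP p M s ρ' H.δ ^ 0 * opP p M s r H.β ^ m).coeff L = 0 := by
          rw [pow_zero, one_mul]
          refine coeff_eq_zero_of_natDegree_lt ?_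
          refine (natDegree_pow_le_of_le m (opP_natDegree_le H.β)).trans_lt ?_
          rw [hL]
          exact Nat.mul_lt_mul_of_pos_right hlt (pow_pos hp.pos _)
        rw [e1, mul_zero]
        exact Gt.zero
      · have e2 : Gt v (lam - m * r) (T2 u w Q 0 m) := by
          have e := (T2_zero_sub hw h1 m).add (h2 m hgt)
          rwa [sub_add_cancel] at e
        refine (e2.mul_ge (hmix 0 m)).mono (le_of_eq ?_)
        push_cast
        ring
    · refine ((T2_strict hQ hu hw.ge h1 hi m).mul_ge (hmix i m)).mono (le_of_eq ?_)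
      ring
  -- the sum
  have hm₀ : m₀ ∈ (tt u w Q).support := by
    rw [mem_support_iff]
    intro h
    refine hT0.1 ?_
    rw [T2_eq_tt, h, coeff_zero]
  have hi₀ : 0 ∈ ((tt u w Q).coeff m₀).support := by
    rw [mem_support_iff, ← T2_eq_tt]
    exact hT0.1
  rw [← Finset.add_sum_erase _ _ hm₀, ← Finset.add_sum_erase _ _ hi₀, add_assoc]
  set x := T2 u w Q 0 m₀ * (opP p M s ρ' H.δ ^ 0 * opP p M s r H.β ^ m₀).coeff L with hx
  set yy := ∑ i ∈ ((tt u w Q).coeff m₀).support.erase 0,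
    T2 u w Q i m₀ * (opP p M s ρ' H.δ ^ i * opP p M s r H.β ^ m₀).coeff L +
    ∑ m ∈ (tt u w Q).support.erase m₀, ∑ i ∈ ((tt u w Q).coeff m).support,
      T2 u w Q i m * (opP p M s ρ' H.δ ^ i * opP p M s r H.β ^ m).coeff L with hyy
  have hg : Gt v (lam - L * s) yy := by
    refine Gt.add (Gt.sum _ _ fun i hi => hoth i m₀ fun h => Finset.ne_of_mem_erase hi h.1)
      (Gt.sum _ _ fun m hm => Gt.sum _ _ fun i _ => hoth i m fun h => Finset.ne_of_mem_erase hm h.2)
  have hfin := Gt.val_eq (y := x + yy) hex.1 (by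
    rw [hex.2, show x - (x + yy) = -yy by ring]
    exact hg.neg)
  rw [hex.2] at hfin
  exact hfin

/-- S3.8 (TOP). -/
theorem top [IsAlgClosed Ω] (h0 : Ctx0 k v) (hM : MS v G M) (hMN : ∀ g ∈ G, M g ∈ N)
    (H : Chg p G M N y z ρ s u w ρ' r) (hu : TL v N u ρ') (hw : Gt v r w)
    {P : Polynomial (Polynomial Ω)} (hP : PII N P) {lam : ℝ} {m₀ : ℕ}
    (h1 : ∀ m : ℕ, v.Ge (lam - m * r) (((H.tr P).coeff m).eval u))
    (h2 : ∀ m : ℕ, m₀ < m → Gt v (lam - m * r) (((H.tr P).coeff m).eval u))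
    (h3 : ((H.tr P).coeff m₀).eval u ≠ 0 ∧ v (((H.tr P).coeff m₀).eval u) = lam - m₀ * r)
    (hβ : H.β ≠ 0) :
    (taylor z (P.map (evalRingHom y))).coeff (m₀ * p ^ H.β.natDegree) ≠ 0 ∧
    v ((taylor z (P.map (evalRingHom y))).coeff (m₀ * p ^ H.β.natDegree)) =
      lam - (m₀ * p ^ H.β.natDegree : ℕ) * s := by
  have h := H.top_symm h0 hM hu hw (H.PII_tr hMN hP) h1 h2 h3 hβ
  rwa [H.symm_tr hM] at h

end Chg

end Pool.Agent.TWM
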