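import Pool.Agent.Lib.TWM.S3b
import Pool.Agent.Lib.TWM.S3e

/-!
# TANK W, M2S, row S5, case a: the derivatives
-/

set_option autoImplicit false

open Polynomial

namespace Pool.Agent.TWM

open Pool.Agent.H15JM (RVal)
open Pool.Agent.LU1 (VPos adj)
open Pool.Agent.D2 (Ctx0)

universe u

variable {k Ω : Type u} [Field k] [Field Ω] [Algebra k Ω] {v : RVal Ω}



namespace S5

/-! ### strict bounds for all the coefficients -/

theorem exists_ge_of_gt {x : Ω} {c : ℝ} (h : Gt v c x) : ∃ e : ℝ, 0 < e ∧ v.Ge (c + e) x := by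
  by_cases h0 : x = 0
  · exact ⟨1, one_pos, by rw [h0]; exact RVal.Ge.zero⟩
  · refine ⟨v x - c, by linarith [h h0], fun _ => by linarith⟩

theorem exists_GB_of_gt {b lam : ℝ} {f : Polynomial Ω} (h : ∀ m : ℕ, Gt v (lam - m * b) (f.coeff m)) :
    ∃ e : ℝ, 0 < e ∧ GB v b (lam + e) f := by
  have key : ∀ n : ℕ, ∃ e : ℝ, 0 < e ∧ ∀ m < n, v.Ge (lam + e - m * b) (f.coeff m) := by
    intro n
    induction n with
    | zero => exact ⟨1, one_pos, fun m hm => absurd hm (Nat.not_lt_zero _)⟩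
    | succ n ih =>
      obtain ⟨e, he, h1⟩ := ih
      obtain ⟨e', he', h2⟩ := exists_ge_of_gt (h n)
      refine ⟨min e e', lt_min he he', fun m hm => ?_⟩
      rcases Nat.lt_succ_iff_lt_or_eq.1 hm with h3 | h3
      · exact (h1 m h3).mono (by linarith [min_le_left e e'])
      · rw [h3]
        exact h2.mono (by linarith [min_le_right e e'])
  obtain ⟨e, he, h1⟩ := key (f.natDegree + 1)
  refine ⟨e, he, fun m => ?_⟩
  by_cases hm : m < f.natDegree + 1
  · exact h1 m hm
  · rw [coeff_eq_zero_of_natDegree_lt (by omega)]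
    exact RVal.Ge.zero

theorem ge_mul_gt {x c : Ω} {a b : ℝ} (hc : v.Ge b c) (hx : Gt v a x) : Gt v (a + b) (c * x) := by
  rw [mul_comm c x]
  exact hx.mul_ge hc

/-! ### the derivatives -/

theorem dY_sub (P Q : Polynomial (Polynomial Ω)) : dY (P - Q) = dY P - dY Q := by
  ext j : 1
  rw [dY_coeff, coeff_sub, coeff_sub, derivative_sub, dY_coeff, dY_coeff]

theorem coeff_taylor_dY (P : Polynomial (Polynomial Ω)) (z : Ω) (l : ℕ) :
    (taylor (C z) (dY P)).coeff l = derivative ((taylor (C z) P).coeff l) := by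
  induction P using Polynomial.induction_on' with
  | add P Q h₁ h₂ => rw [dY_add, _root_.map_add, _root_.map_add, coeff_add, coeff_add, h₁, h₂, derivative_add]
  | monomial n q =>
    have h1 : dY (monomial n q) = monomial n (derivative q) := by
      ext j : 1
      rw [dY_coeff, coeff_monomial, coeff_monomial]
      split_ifs
      · rfl
      · exact derivative_zero
    rw [h1, taylor_monomial, taylor_monomial, coeff_C_mul, coeff_C_mul, coeff_X_add_C_pow,
      derivative_mul, derivative_mul, ← C_pow, derivative_C, derivative_natCast]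
    ring

theorem T2_dY (y z : Ω) (P : Polynomial (Polynomial Ω)) (i l : ℕ) :
    T2 y z (dY P) i l = ((i + 1 : ℕ) : Ω) * T2 y z P (i + 1) l := by
  have h1 : ∀ f : Polynomial Ω, taylor y (derivative f) = derivative (taylor y f) := by
    intro f
    rw [taylor_apply, taylor_apply, derivative_comp]
    simp
  rw [T2, T2, coeff_taylor_dY, h1, coeff_derivative]
  push_cast
  ring

theorem T2_dZ (y z : Ω) (P : Polynomial (Polynomial Ω)) (i l : ℕ) :
    T2 y z (derivative P) i l = ((l + 1 : ℕ) : Ω) * T2 y z P i (l + 1) := by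
  have h1 : taylor (C z) (derivative P) = derivative (taylor (C z) P) := by
    rw [taylor_apply, taylor_apply, derivative_comp]
    simp
  rw [T2, T2, h1, coeff_derivative]
  have h2 : (taylor (C z) P).coeff (l + 1) * ((l : Polynomial Ω) + 1) =
      C (((l + 1 : ℕ) : Ω)) * (taylor (C z) P).coeff (l + 1) := by
    rw [mul_comm]
    congr 1
    simp
  rw [h2, taylor_mul, taylor_C, coeff_C_mul]

section char

variable {p : ℕ} [Fact p.Prime] [CharP Ω p]

omit [Fact p.Prime] in
theorem derivative_pow_char' {R : Type*} [CommRing R] [CharP R p] (f : Polynomial R) :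
    derivative (f ^ p) = 0 := by
  rw [derivative_pow, CharP.cast_eq_zero, map_zero, zero_mul, zero_mul]

theorem dY_pow_char (P : Polynomial (Polynomial Ω)) : dY (P ^ p) = 0 := by
  have : ExpChar (Polynomial Ω) p := ExpChar.prime Fact.out
  ext j : 1
  rw [dY_coeff, ← map_frobenius_expand, coeff_map, coeff_zero, frobenius_def]
  exact derivative_pow_char' _

end char

/-! ### approximation of polynomials over the closure -/

section hat

variable [IsAlgClosed Ω] {N : IntermediateField k Ω} {y : Ω} {ρ : ℝ}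

theorem exists_hat (hy : TL v N y ρ) {g : Polynomial Ω} (hg : g ∈ PI (cadj v N y)) (z : Ω)
    (s lam : ℝ) : ∃ P, PII N P ∧ P.natDegree ≤ g.natDegree ∧
      GB v s lam (taylor z (g - P.map (evalRingHom y))) := by
  obtain ⟨P, hP, hd, h1⟩ := exists_PII_near hy hg
    (|lam| + g.natDegree * |s| + g.natDegree * |v z|)
  refine ⟨P, hP, hd, fun l => ?_⟩
  have h2 : (g - P.map (evalRingHom y)).natDegree ≤ g.natDegree :=
    (natDegree_sub_le _ _).trans (max_le le_rfl (natDegree_map_le.trans hd))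
  by_cases hl : g.natDegree < l
  · rw [coeff_eq_zero_of_natDegree_lt (by rw [natDegree_taylor]; omega)]
    exact RVal.Ge.zero
  · refine (taylor_coeff_ge h2 h1 z l).mono ?_
    have h3 : (l : ℝ) ≤ g.natDegree := by exact_mod_cast not_lt.1 hl
    have h4 := mul_le_mul_of_nonneg_right h3 (abs_nonneg s)
    have h5 : -((l : ℝ) * s) ≤ l * |s| := by
      have := mul_le_mul_of_nonneg_left (neg_le_abs s) (Nat.cast_nonneg (α := ℝ) l)
      linarith
    linarith [le_abs_self lam]

variable {p : ℕ} [Fact p.Prime] [CharP Ω p]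

theorem hat_pow (hy : TL v N y ρ) {g : Polynomial Ω} (hg : g ∈ PI (cadj v N y)) (z : Ω)
    (s lam : ℝ) (A : Polynomial (Polynomial Ω)) : ∃ P, PII N P ∧ P.natDegree ≤ g.natDegree ∧
      GB v s lam (taylor z ((A - P ^ p).map (evalRingHom y)) -
        taylor z (A.map (evalRingHom y) - g ^ p)) := by
  have hp : (0 : ℝ) < p := Nat.cast_pos.2 (Fact.out : p.Prime).pos
  obtain ⟨P, hP, hd, h1⟩ := exists_hat hy hg z s (lam / p)
  refine ⟨P, hP, hd, ?_⟩
  have h2 : taylor z ((A - P ^ p).map (evalRingHom y)) - taylor z (A.map (evalRingHom y) - g ^ p) =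
      taylor z (g - P.map (evalRingHom y)) ^ p := by
    rw [← _root_.map_sub, ← taylor_pow, sub_pow_char, Polynomial.map_sub, Polynomial.map_pow]
    congr 1
    ring
  rw [h2]
  have h3 := h1.pow p
  rwa [mul_div_cancel₀ _ hp.ne'] at h3

end hat

section mainA

variable [IsAlgClosed Ω] {N : IntermediateField k Ω} {y z : Ω} {ρ s : ℝ}
  {p : ℕ} [Fact p.Prime] [CharP Ω p] {A : Polynomial (Polynomial Ω)} {κ₁ : ℝ}

omit [IsAlgClosed Ω] in
theorem PII.sub' {P Q : Polynomial (Polynomial Ω)} (hP : PII N P) (hQ : PII N Q) :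
    PII N (P - Q) := fun j => by rw [coeff_sub]; exact sub_mem (hP j) (hQ j)

omit [IsAlgClosed Ω] in
theorem PII.mul' {P Q : Polynomial (Polynomial Ω)} (hP : PII N P) (hQ : PII N Q) :
    PII N (P * Q) := fun j => by
  rw [coeff_mul]
  exact sum_mem fun x _ => mul_mem (hP _) (hQ _)

omit [IsAlgClosed Ω] in
theorem PII.pow' {P : Polynomial (Polynomial Ω)} (hP : PII N P) (n : ℕ) : PII N (P ^ n) := by
  induction n with
  | zero =>
    intro j
    rw [pow_zero, coeff_one]
    split_ifs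
    exacts [one_mem _, zero_mem _]
  | succ n ih =>
    rw [pow_succ]
    exact PII.mul' ih hP

omit [IsAlgClosed Ω] in
theorem derivative_mem {f : Polynomial Ω} (hf : f ∈ PI N) : derivative f ∈ PI N := fun i => by
  rw [coeff_derivative]
  exact mul_mem (hf _) (add_mem (natCast_mem _ _) (one_mem _))

omit [IsAlgClosed Ω] in
theorem PII.dY' {P : Polynomial (Polynomial Ω)} (hP : PII N P) : PII N (dY P) := fun j => by
  rw [dY_coeff]
  exact derivative_mem (hP j)

omit [IsAlgClosed Ω] in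
theorem PII.dZ' {P : Polynomial (Polynomial Ω)} (hP : PII N P) : PII N (derivative P) := fun j => by
  rw [coeff_derivative]
  exact mul_mem (hP _) (add_mem (natCast_mem _ _) (one_mem _))

omit [IsAlgClosed Ω] [Fact p.Prime] in
theorem dZ_sub_pow (A P : Polynomial (Polynomial Ω)) :
    derivative (A - P ^ p) = derivative A := by
  rw [derivative_sub, derivative_pow_char', sub_zero]

omit [IsAlgClosed Ω] in
theorem dY_sub_pow (A P : Polynomial (Polynomial Ω)) : dY (A - P ^ p) = dY A := by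
  rw [dY_sub, dY_pow_char, sub_zero]

/-- `Q1` gives the bounds of the derivatives. -/
theorem GB2_of_Q1 (hy : TL v N y ρ) (hz : Lim v N s z) (hA : PII N A)
    (Q1 : ∀ ε : ℝ, 0 < ε → ∃ g ∈ PI (cadj v N y),
      GB v s (κ₁ - ε) (taylor z (A.map (evalRingHom y) - g ^ p))) :
    GB2 v y z ρ s (κ₁ - ρ) (dY A) ∧ GB2 v y z ρ s (κ₁ - s) (derivative A) := by
  have key : ∀ ε : ℝ, 0 < ε → ∃ P, PII N P ∧ GB2 v y z ρ s (κ₁ - ε) (A - P ^ p) := by
    intro ε hε
    obtain ⟨g, hg, h1⟩ := Q1 ε hε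
    obtain ⟨P, hP, -, h2⟩ := hat_pow hy hg z s (κ₁ - ε) A
    refine ⟨P, hP, (GB2_iff hy hz (PII.sub' hA (PII.pow' hP p))).2 ?_⟩
    have := h2.add h1
    rwa [sub_add_cancel] at this
  constructor
  · intro i l
    refine ge_of_eps fun ε hε => ?_
    obtain ⟨P, hP, h1⟩ := key ε hε
    rw [← dY_sub_pow A P, T2_dY]
    refine ((ge_natCast v _).mul (h1 (i + 1) l)).mono (le_of_eq ?_)
    push_cast
    ring
  · intro i l
    refine ge_of_eps fun ε hε => ?_
    obtain ⟨P, hP, h1⟩ := key ε hε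
    rw [← dZ_sub_pow A P, T2_dZ]
    refine ((ge_natCast v _).mul (h1 i (l + 1))).mono (le_of_eq ?_)
    push_cast
    ring

/-- `Q2` gives better bounds of the derivatives for the high indices. -/
theorem high_of_Q2 (hy : TL v N y ρ) (hz : Lim v N s z) (hA : PII N A) {S : ℕ} {e : ℝ}
    {g₀ : Polynomial Ω} (hg₀ : g₀ ∈ PI (cadj v N y))
    (Q2 : ∀ l : ℕ, S < l →
      v.Ge (κ₁ + e - l * s) ((taylor z (A.map (evalRingHom y) - g₀ ^ p)).coeff l)) :
    (∀ l : ℕ, S < l →
      v.Ge (κ₁ - ρ + e - l * s) ((taylor z ((dY A).map (evalRingHom y))).coeff l)) ∧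
    (∀ l : ℕ, S ≤ l →
      v.Ge (κ₁ - s + e - l * s) ((taylor z ((derivative A).map (evalRingHom y))).coeff l)) := by
  obtain ⟨P, hP, -, h2⟩ := hat_pow hy hg₀ z s (κ₁ + e) A
  have h1 : ∀ l : ℕ, S < l → v.Ge (κ₁ + e - l * s)
      ((taylor z ((A - P ^ p).map (evalRingHom y))).coeff l) := by
    intro l hl
    have := (h2 l).add (Q2 l hl)
    rwa [coeff_sub, sub_add_cancel] at this
  have h3 := T2_high hy hz (PII.sub' hA (PII.pow' hP p)) h1
  constructor
  · intro l hl
    rw [← T2_zero_left (y := y), ← dY_sub_pow A P, T2_dY]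
    refine ((ge_natCast v _).mul (h3 (0 + 1) l hl)).mono (le_of_eq ?_)
    push_cast
    ring
  · intro l hl
    rw [← T2_zero_left (y := y), ← dZ_sub_pow A P, T2_dZ]
    refine ((ge_natCast v _).mul (h3 0 (l + 1) (by omega))).mono (le_of_eq ?_)
    push_cast
    ring

omit [IsAlgClosed Ω] in
theorem eq_of_not_gt {x : Ω} {c : ℝ} (h1 : v.Ge c x) (h2 : ¬ Gt v c x) : x ≠ 0 ∧ v x = c := by
  have h3 : x ≠ 0 ∧ v x ≤ c := by
    by_contra hcon
    refine h2 fun h0 => ?_
    by_contra h4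
    exact hcon ⟨h0, not_lt.1 h4⟩
  exact ⟨h3.1, le_antisymm h3.2 (h1 h3.1)⟩

end mainA

section mainB

variable {p : ℕ} [Fact p.Prime] [CharP k p] [CharP Ω p] [IsAlgClosed Ω] {G : AddSubgroup ℝ}
  {M : ℝ → Ω} {N : IntermediateField k Ω} {y z : Ω} {ρ s : ℝ} {u w : Ω} {ρ' r : ℝ}

omit [IsAlgClosed Ω] in
theorem lim_of_gt (hw : Gt v r w) : Lim v N r w := fun ε hε =>
  ⟨0, zero_mem _, by rw [sub_zero]; exact hw.ge.mono (by linarith)⟩

theorem ge_tr (h0 : Ctx0 k v) (hM : MS v G M) (hMN : ∀ g ∈ G, M g ∈ N)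
    (H : Chg p G M N y z ρ s u w ρ' r) (hu : TL v N u ρ') (hw : Gt v r w)
    {P : Polynomial (Polynomial Ω)} (hP : PII N P) {lam : ℝ} (h1 : GB2 v y z ρ s lam P) :
    GB v r lam ((H.tr P).map (evalRingHom u)) :=
  GB.of_taylor hw.ge ((GB2_iff hu (lim_of_gt hw) (H.PII_tr hMN hP)).1 (H.GB2_tr h0 hM h1))

/-- TOP, as an upper bound of the exact indices. -/
theorem gt_tr (h0 : Ctx0 k v) (hM : MS v G M) (hMN : ∀ g ∈ G, M g ∈ N)
    (H : Chg p G M N y z ρ s u w ρ' r) (hu : TL v N u ρ') (hw : Gt v r w) (hβ : H.β ≠ 0)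
    {P : Polynomial (Polynomial Ω)} (hP : PII N P) {lam : ℝ} (h1 : GB2 v y z ρ s lam P) {L : ℕ}
    {e : ℝ} (he : 0 < e)
    (h2 : ∀ l : ℕ, L ≤ l → v.Ge (lam + e - l * s) ((taylor z (P.map (evalRingHom y))).coeff l))
    {m : ℕ} (hm : L ≤ m * p ^ H.β.natDegree) :
    Gt v (lam - m * r) (((H.tr P).coeff m).eval u) := by
  classical
  by_contra hcon
  have h3 : ∀ m : ℕ, v.Ge (lam - m * r) (((H.tr P).coeff m).eval u) := by
    intro m
    have := ge_tr h0 hM hMN H hu hw hP h1 m
    rwa [coeff_map, coe_evalRingHom] at this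
  set T : Finset ℕ := (Finset.range ((H.tr P).natDegree + 1)).filter
    fun m => ¬ Gt v (lam - m * r) (((H.tr P).coeff m).eval u) with hT
  have hmem : ∀ m : ℕ, ¬ Gt v (lam - m * r) (((H.tr P).coeff m).eval u) → m ∈ T := by
    intro m hm
    rw [hT, Finset.mem_filter, Finset.mem_range]
    refine ⟨?_, hm⟩
    by_contra h4
    refine hm ?_
    rw [coeff_eq_zero_of_natDegree_lt (by omega), eval_zero]
    exact Gt.zero
  have hne : T.Nonempty := ⟨m, hmem m hcon⟩
  set m₀ := T.max' hne with hm₀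
  have h4 : m ≤ m₀ := T.le_max' _ (hmem m hcon)
  have h5 : ¬ Gt v (lam - m₀ * r) (((H.tr P).coeff m₀).eval u) :=
    (Finset.mem_filter.1 (T.max'_mem hne)).2
  have h6 := eq_of_not_gt (h3 m₀) h5
  have h7 : ∀ m : ℕ, m₀ < m → Gt v (lam - m * r) (((H.tr P).coeff m).eval u) := by
    intro m hm
    by_contra h8
    exact absurd (T.le_max' _ (hmem m h8)) (not_le.2 hm)
  obtain ⟨h8, h9⟩ := H.top h0 hM hMN hu hw hP h3 h7 h6 hβ
  have h10 := h2 (m₀ * p ^ H.β.natDegree) (hm.trans (Nat.mul_le_mul_right _ h4)) h8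
  rw [h9] at h10
  linarith

omit [Fact p.Prime] [CharP k p] [CharP Ω p] [IsAlgClosed Ω] in
/-- the constants of the chain rule -/
theorem ge_const (h0 : Ctx0 k v) (hM : MS v G M) {s r : ℝ} {f : k[X]} (hf : IsOp p G s r f) :
    v.Ge (r - s) (algebraMap k Ω (f.coeff 0) * M (r - s)) := by
  by_cases h : f.coeff 0 = 0
  · rw [h, _root_.map_zero, zero_mul]
    exact RVal.Ge.zero
  · have h1 := hf 0 h
    rw [pow_zero, one_mul] at h1
    have h2 : v.Ge (r - s) (M (r - s)) := fun _ => (hM.val _ h1).ge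
    have := (h0.ge (f.coeff 0)).mul h2
    rwa [zero_add] at this

end mainB

end S5

open S5 in
/-- S5, case a. -/
theorem jump_deriv {p : ℕ} [Fact p.Prime] [CharP k p] [CharP Ω p] [IsAlgClosed Ω]
    {G : AddSubgroup ℝ} {M : ℝ → Ω} {N : IntermediateField k Ω} {y z : Ω} {ρ s : ℝ} {u w : Ω}
    {ρ' r : ℝ} (h0 : Ctx0 k v) (hM : MS v G M) (hMN : ∀ g ∈ G, M g ∈ N) (hy : TL v N y ρ)
    (hz : Lim v N s z) (H : Chg p G M N y z ρ s u w ρ' r) (hu : TL v N u ρ') (hw : Gt v r w)
    (hβ : 1 ≤ H.β.natDegree) {A : Polynomial (Polynomial Ω)} (hA : PII N A) {κ₁ : ℝ} {S : ℕ}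
    (Q1 : ∀ ε : ℝ, 0 < ε → ∃ g ∈ PI (cadj v N y),
      GB v s (κ₁ - ε) (taylor z (A.map (evalRingHom y) - g ^ p)))
    {e : ℝ} (he : 0 < e) {g₀ : Polynomial Ω} (hg₀ : g₀ ∈ PI (cadj v N y))
    (Q2 : ∀ l : ℕ, S < l →
      v.Ge (κ₁ + e - l * s) ((taylor z (A.map (evalRingHom y) - g₀ ^ p)).coeff l))
    (hS : 2 ≤ S) {e' : ℝ} (he' : 0 < e') {g' : Polynomial Ω} (hg' : g' ∈ PI (cadj v N u))
    (hlow : ∀ m ≤ S - 1,
      v.Ge (κ₁ + e' - m * r) (((H.tr A).map (evalRingHom u) - g' ^ p).coeff m)) :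
    ∃ e₃ : ℝ, 0 < e₃ ∧ GB v r (κ₁ + e₃ - ρ') ((dY (H.tr A)).map (evalRingHom u)) ∧
      GB v r (κ₁ + e₃ - r) ((derivative (H.tr A)).map (evalRingHom u)) := by
  have hβ0 : H.β ≠ 0 := by
    intro h
    rw [h, natDegree_zero] at hβ
    omega
  have hp : p.Prime := Fact.out
  obtain ⟨b1, b2⟩ := GB2_of_Q1 hy hz hA Q1
  obtain ⟨c1, c2⟩ := high_of_Q2 hy hz hA hg₀ Q2
  have hAY := PII.dY' hA
  have hAZ := PII.dZ' hA
  set q := p ^ H.β.natDegree with hq
  have hq2 : 2 ≤ q := by
    calc 2 ≤ p := hp.two_le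
      _ = p ^ 1 := (pow_one p).symm
      _ ≤ q := Nat.pow_le_pow_right hp.pos hβ
  have DYge : ∀ m : ℕ, v.Ge (κ₁ - ρ - m * r) (((H.tr (dY A)).coeff m).eval u) := by
    intro m
    have := ge_tr h0 hM hMN H hu hw hAY b1 m
    rwa [coeff_map, coe_evalRingHom] at this
  have DZge : ∀ m : ℕ, v.Ge (κ₁ - s - m * r) (((H.tr (derivative A)).coeff m).eval u) := by
    intro m
    have := ge_tr h0 hM hMN H hu hw hAZ b2 m
    rwa [coeff_map, coe_evalRingHom] at this
  have DYgt : ∀ m : ℕ, S + 1 ≤ m * q →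
      Gt v (κ₁ - ρ - m * r) (((H.tr (dY A)).coeff m).eval u) := fun m hm =>
    gt_tr h0 hM hMN H hu hw hβ0 hAY b1 he (fun l hl => c1 l (by omega)) hm
  have DZgt : ∀ m : ℕ, S ≤ m * q →
      Gt v (κ₁ - s - m * r) (((H.tr (derivative A)).coeff m).eval u) := fun m hm =>
    gt_tr h0 hM hMN H hu hw hβ0 hAZ b2 he c2 hm
  have ga := ge_const h0 hM H.ha
  have gc := ge_const h0 hM H.hc
  have gb := ge_const h0 hM H.hb
  have gd := ge_const h0 hM H.hd
  have G1 : ∀ m : ℕ, Gt v (κ₁ - ρ' - m * r) (((dY (H.tr A)).map (evalRingHom u)).coeff m) := by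
    intro m
    rw [coeff_map, coe_evalRingHom]
    rcases Nat.lt_or_ge m S with hm | hm
    · obtain ⟨P, hP, -, h2⟩ := hat_pow hu hg' 0 r (κ₁ + e') (H.tr A)
      have h3 : v.Ge (κ₁ + e' - m * r) (((H.tr A - P ^ p).coeff m).eval u) := by
        have h4 := (h2 m).add (hlow m (by omega))
        rwa [taylor_zero, taylor_zero, coeff_sub, sub_add_cancel, coeff_map,
          coe_evalRingHom] at h4
      have h4 : (H.tr A - P ^ p).coeff m ∈ PI N :=
        PII.sub' (H.PII_tr hMN hA) (PII.pow' hP p) m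
      have h5 : (dY (H.tr A)).coeff m = derivative ((H.tr A - P ^ p).coeff m) := by
        rw [← dY_sub_pow (H.tr A) P, dY_coeff]
      rw [h5]
      by_cases h6 : (H.tr A - P ^ p).coeff m = 0
      · rw [h6, derivative_zero, eval_zero]
        exact Gt.zero
      · have h7 := h3 (hu.eval_ne (PI_mono (le_algc N) h4) h6)
        have h8 := hu.nonstrict h4 1
        rw [taylor_coeff_one] at h8
        refine Gt.of_ge h8 ?_
        push_cast
        linarith
    · have hm2 : S + 1 ≤ m * q := by nlinarith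
      rw [H.dY_tr, coeff_add, coeff_C_mul, coeff_C_mul, eval_add, eval_mul, eval_mul, eval_C,
        eval_C]
      refine Gt.add ?_ ?_
      · refine Gt.mono (ge_mul_gt ga (DYgt m hm2)) ?_
        linarith
      · refine Gt.mono (ge_mul_gt gc (DZgt m (by omega))) ?_
        linarith
  have G2 : ∀ m : ℕ, Gt v (κ₁ - r - m * r)
      (((derivative (H.tr A)).map (evalRingHom u)).coeff m) := by
    intro m
    rcases Nat.lt_or_ge (m + 1) S with hm | hm
    · have h1 : (derivative (H.tr A)).map (evalRingHom u) =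
          derivative ((H.tr A).map (evalRingHom u) - g' ^ p) := by
        rw [derivative_sub, derivative_pow_char', sub_zero, derivative_map]
      rw [h1, coeff_derivative]
      have h2 := (hlow (m + 1) (by omega)).mul (ge_natCast v (m + 1))
      refine Gt.of_ge (r' := κ₁ + e' - ((m + 1 : ℕ) : ℝ) * r + 0) ?_ ?_
      · rwa [Nat.cast_succ (R := Ω)] at h2
      · push_cast
        linarith
    · rw [coeff_map, coe_evalRingHom]
      by_cases hm2 : S + 1 ≤ m * q
      · rw [H.dZ_tr, coeff_add, coeff_C_mul, coeff_C_mul, eval_add, eval_mul, eval_mul, eval_C,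
          eval_C]
        refine Gt.add ?_ ?_
        · refine Gt.mono (ge_mul_gt gb (DYgt m hm2)) ?_
          linarith
        · refine Gt.mono (ge_mul_gt gd (DZgt m (by omega))) ?_
          linarith
      · have h3 : m = 1 := by nlinarith
        have h4 : q = 2 := by
          rw [h3, one_mul] at hm2
          omega
        have h5 : p = 2 := by
          have h6 : p ∣ 2 := by
            rw [← h4, hq]
            exact dvd_pow_self p (by omega)
          exact (Nat.prime_dvd_prime_iff_eq hp Nat.prime_two).1 h6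
        have h7 : ((1 : Ω) + 1) = 0 := by
          have := CharP.cast_eq_zero Ω p
          rw [h5] at this
          rw [one_add_one_eq_two]
          exact_mod_cast this
        rw [h3, coeff_derivative, eval_mul]
        have h8 : (((1 : ℕ) : Polynomial Ω) + 1).eval u = 0 := by
          rw [Nat.cast_one, eval_add, eval_one]
          exact h7
        rw [h8, mul_zero]
        exact Gt.zero
  obtain ⟨e₁, he₁, h1⟩ := exists_GB_of_gt G1
  obtain ⟨e₂, he₂, h2⟩ := exists_GB_of_gt G2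
  exact ⟨min e₁ e₂, lt_min he₁ he₂, h1.mono (by linarith [min_le_left e₁ e₂]),
    h2.mono (by linarith [min_le_right e₁ e₂])⟩

end Pool.Agent.TWM
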