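import Pool.Agent.Lib.TWM.SDefs

/-!
# TANK W, M2, row S4: the stage lemma

`A` a polynomial over `F`. Modulo `p`-th powers of polynomials over `F`, the Gauss value of `A` at
the radius `r < v z` is `κ`, and a coefficient of index `≤ S` is responsible for it (`SL`). If `z`
is a limit of `F` up to `s > v z`, the Gauss value `κ₁` at `z` for the radius `s` modulo `p`-th
powers is finite, and there is a `g` for which the coefficients of index `> S` are strictly bigger
(`stage`). `stage_shift`: translations.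
-/

set_option autoImplicit false

open Polynomial

namespace Pool.Agent.TWM

open Pool.Agent.H15JM (RVal)

universe u

section Coef

variable {Ω : Type u} [Field Ω] {v : RVal Ω} {b b' c lam : ℝ} {f g : Polynomial Ω} {ψ z : Ω}

/-- The coefficients of `taylor ψ f`. -/
theorem taylor_coeff_ge' {m : ℕ} (h : ∀ n, m ≤ n → v.Ge c (f.coeff n * ψ ^ (n - m))) :
    v.Ge c ((taylor ψ f).coeff m) := by
  rw [taylor_coeff, hasseDeriv_apply, Polynomial.sum, eval_finsetSum]
  refine RVal.Ge.sum _ _ fun n _ => ?_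
  rw [eval_monomial]
  rcases lt_or_ge n m with h1 | h1
  · rw [Nat.choose_eq_zero_of_lt h1, Nat.cast_zero, zero_mul, zero_mul]
    exact RVal.Ge.zero
  · rw [mul_assoc]
    have h2 := (ge_natCast v (n.choose m)).mul (h n h1)
    rwa [zero_add] at h2

/-- Change of the centre, for the coefficients of index `≥ l`. -/
theorem taylor_ge {l : ℕ} (hψ : v.Ge b ψ) (h : ∀ n, l ≤ n → v.Ge (lam - n * b) (f.coeff n)) :
    ∀ n, l ≤ n → v.Ge (lam - n * b) ((taylor ψ f).coeff n) := by
  intro m hm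
  refine taylor_coeff_ge' fun n hn => ?_
  refine (RVal.Ge.mul (h n (hm.trans hn)) (ge_pow hψ (n - m))).mono ?_
  rw [Nat.cast_sub hn]
  linarith

/-- Change of the centre. -/
theorem GB_taylor (hψ : v.Ge b ψ) (h : GB v b lam f) : GB v b lam (taylor ψ f) := fun m =>
  taylor_ge hψ (fun n _ => h n) m (Nat.zero_le m)

/-- A smaller radius costs `D (b' - b)`. -/
theorem GB_radius {D : ℕ} (hD : f.natDegree ≤ D) (hb : b ≤ b') (h : GB v b' lam f) :
    GB v b (lam - D * (b' - b)) f := by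
  intro m
  by_cases h0 : f.coeff m = 0
  · rw [h0]
    exact RVal.Ge.zero
  · have h1 : m ≤ D := (le_natDegree_of_ne_zero h0).trans hD
    have h2 : (m : ℝ) ≤ D := by exact_mod_cast h1
    refine (h m).mono ?_
    nlinarith

theorem GB_mono (hc : c ≤ lam) (h : GB v b lam f) : GB v b c f := fun m =>
  (h m).mono (by linarith)

theorem coeff_pow_ite {p : ℕ} [Fact p.Prime] [CharP Ω p] (q : Polynomial Ω) (n : ℕ) :
    (q ^ p).coeff n = if p ∣ n then q.coeff (n / p) ^ p else 0 := by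
  rw [← map_frobenius_expand, coeff_map, coeff_expand (Fact.out : p.Prime).pos]
  split_ifs
  · rfl
  · rw [map_zero]

end Coef

variable {k Ω : Type u} [Field k] [Field Ω] [Algebra k Ω] {v : RVal Ω} {p : ℕ}

/-- A polynomial with given Taylor coefficients at `ψ`. -/
theorem exists_glue (F : IntermediateField k Ω) {ψ : Ω} (hψ : ψ ∈ F) {g g₀ : Polynomial Ω}
    (hg : g ∈ PI F) (hg₀ : g₀ ∈ PI F) (P : ℕ → Prop) [DecidablePred P] :
    ∃ g' ∈ PI F, ∀ j, (taylor ψ g').coeff j =
      if P j then (taylor ψ g).coeff j else (taylor ψ g₀).coeff j := by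
  classical
  set a := taylor ψ g with ha
  set a₀ := taylor ψ g₀ with ha₀
  set K := max a.natDegree a₀.natDegree + 1
  set q : Polynomial Ω := ∑ j ∈ Finset.range K, monomial j (if P j then a.coeff j else a₀.coeff j)
    with hq
  have hqc : ∀ j, q.coeff j = if P j then a.coeff j else a₀.coeff j := by
    intro j
    rw [hq, finsetSum_coeff]
    simp only [coeff_monomial]
    rw [Finset.sum_ite_eq']
    split_ifs with h1 h2 h2
    · rfl
    · rfl
    · rw [coeff_eq_zero_of_natDegree_lt]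
      rw [Finset.mem_range] at h1
      have := le_max_left a.natDegree a₀.natDegree
      omega
    · rw [coeff_eq_zero_of_natDegree_lt]
      rw [Finset.mem_range] at h1
      have := le_max_right a.natDegree a₀.natDegree
      omega
  have hqm : q ∈ PI F := by
    intro j
    rw [hqc]
    split_ifs
    · exact taylor_mem_PI hg hψ j
    · exact taylor_mem_PI hg₀ hψ j
  refine ⟨taylor (-ψ) q, taylor_mem_PI hqm (neg_mem hψ), fun j => ?_⟩
  rw [taylor_taylor, add_neg_cancel, taylor_zero, hqc]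

/-- **Row S4.** -/
theorem stage [Fact p.Prime] [CharP Ω p] {F : IntermediateField k Ω} {z : Ω} {r κ s : ℝ} {S : ℕ}
    {A : Polynomial Ω} (h : SL p v F z r κ S A) (hl : Lim v F s z) (hfar : z ≠ 0 ∧ v z < s) :
    ∃ κ₁ : ℝ, (∀ ε : ℝ, 0 < ε → ∃ g ∈ PI F, GB v s (κ₁ - ε) (taylor z (A - g ^ p))) ∧
      (∀ e : ℝ, 0 < e → ∀ g ∈ PI F, ¬ GB v s (κ₁ + e) (taylor z (A - g ^ p))) ∧
      ∃ e : ℝ, 0 < e ∧ ∃ g ∈ PI F, ∀ l : ℕ, S < l →
        v.Ge (κ₁ + e - l * s) ((taylor z (A - g ^ p)).coeff l) := by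
  classical
  obtain ⟨hz0, hzs⟩ := hfar
  have hrz : r < v z := h.gt hz0
  have hD : 0 < s - r := by linarith
  have hzr : v.Ge r z := RVal.Ge.of_le hrz.le
  let X : Set ℝ := {κ' | ∃ g ∈ PI F, GB v s κ' (taylor z (A - g ^ p))}
  have hX : ∀ {κ' : ℝ} {g : Polynomial Ω}, GB v r κ' (A - g ^ p) →
      GB v s κ' (taylor z (A - g ^ p)) := by
    intro κ' g hg m
    refine (GB_taylor hzr hg m).mono ?_
    have : (0 : ℝ) ≤ m := Nat.cast_nonneg m
    nlinarith
  have hne : X.Nonempty := by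
    obtain ⟨g, hg, h1⟩ := h.lo 1 one_pos
    exact ⟨κ - 1, g, hg, hX h1⟩
  have hbd : ∀ κ' ∈ X, κ' ≤ κ + S * (s - r) := by
    rintro κ' ⟨g, hg, h1⟩
    by_contra hlt
    rw [not_le] at hlt
    set e : ℝ := (κ' - (κ + S * (s - r))) / 2 with he
    have he0 : 0 < e := by rw [he]; linarith
    set P := A - g ^ p with hP
    set D := (taylor z P).natDegree
    -- the centre `ψ`
    set η : ℝ := min ((s - v z) / 2) (e / (D + 1)) with hη
    have hD1 : (0 : ℝ) < D + 1 := by positivity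
    have hη0 : 0 < η := lt_min (by linarith) (div_pos he0 hD1)
    have hη1 : η ≤ (s - v z) / 2 := min_le_left _ _
    have hη2 : D * η ≤ e := by
      have h2 : η ≤ e / (D + 1) := min_le_right _ _
      rw [le_div_iff₀ hD1] at h2
      nlinarith
    obtain ⟨ψ, hψ, h2⟩ := hl η hη0
    have h3 : Gt v (v z) (z - ψ) := Gt.of_ge h2 (by linarith)
    obtain ⟨hψ0, hψv⟩ := h3.val_eq hz0
    set b := v z with hb
    have h4 : GB v (s - η) (κ' - D * η) (taylor ψ P) := by
      have h5 := GB_radius (b := s - η) (b' := s) le_rfl (by linarith) h1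
      have h6 : taylor ψ P = taylor (ψ - z) (taylor z P) := by
        rw [taylor_taylor, sub_add_cancel]
      rw [h6]
      refine GB_taylor (ge_sub_comm h2) (GB_mono (le_of_eq ?_) h5)
      ring
    obtain ⟨g₀, hg₀, h5⟩ := h.lo ((b - r) / 2) (by linarith)
    have hψr : v.Ge r ψ := RVal.Ge.of_le (by rw [hψv]; exact hrz.le)
    have h6 := GB_taylor hψr h5
    obtain ⟨g', hg', h7⟩ := exists_glue F hψ hg hg₀ (fun j => p * j ≤ S)
    -- the coefficients at `ψ`
    have hco : ∀ n, (taylor ψ (A - g' ^ p)).coeff n =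
        if n ≤ S then (taylor ψ (A - g ^ p)).coeff n else (taylor ψ (A - g₀ ^ p)).coeff n := by
      intro n
      have h8 : ∀ f : Polynomial Ω, (taylor ψ (A - f ^ p)).coeff n =
          (taylor ψ A).coeff n - if p ∣ n then (taylor ψ f).coeff (n / p) ^ p else 0 := by
        intro f
        rw [map_sub, taylor_pow, coeff_sub, coeff_pow_ite]
      rw [h8, h8, h8]
      by_cases hn : p ∣ n
      · rw [if_pos hn, h7, Nat.mul_div_cancel' hn]
        split_ifs <;> rfl
      · rw [if_neg hn]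
        split_ifs <;> rfl
    have hlow : ∀ n, n ≤ S → v.Ge (κ + e - n * r) ((taylor ψ (A - g' ^ p)).coeff n) := by
      intro n hn
      rw [hco, if_pos hn]
      refine (h4 n).mono ?_
      have h9 : (n : ℝ) ≤ S := by exact_mod_cast hn
      have h10 : (0 : ℝ) ≤ n := Nat.cast_nonneg n
      have h11 : (n : ℝ) * (s - r) ≤ S * (s - r) := mul_le_mul_of_nonneg_right h9 hD.le
      have h12 : 0 ≤ (n : ℝ) * η := mul_nonneg h10 hη0.le
      have h13 : κ' = κ + S * (s - r) + 2 * e := by rw [he]; ring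
      nlinarith
    have hhigh : ∀ n, S < n → v.Ge (κ - (b - r) / 2 - n * r)
        ((taylor ψ (A - g' ^ p)).coeff n) := by
      intro n hn
      rw [hco, if_neg (not_le.2 hn)]
      exact h6 n
    obtain ⟨m, hm, h8⟩ := h.hi (min e ((b - r) / 2)) (lt_min he0 (by linarith)) g' hg'
    apply h8
    have h9 : A - g' ^ p = taylor (-ψ) (taylor ψ (A - g' ^ p)) := by
      rw [taylor_taylor, neg_add_cancel, taylor_zero]
    rw [h9]
    refine taylor_coeff_ge' fun n hn => ?_
    have hψ' : v.Ge b (-ψ) := RVal.Ge.neg (RVal.Ge.of_le hψv.ge)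
    have h10 : ((n - m : ℕ) : ℝ) = n - m := Nat.cast_sub hn
    rcases le_or_gt n S with h11 | h11
    · refine (RVal.Ge.mul (hlow n h11) (ge_pow hψ' (n - m))).mono ?_
      have h12 := min_le_left e ((b - r) / 2)
      have h13 : (0 : ℝ) ≤ ((n - m : ℕ) : ℝ) := Nat.cast_nonneg _
      have h14 : 0 ≤ ((n - m : ℕ) : ℝ) * (b - r) := mul_nonneg h13 (by linarith)
      rw [h10] at h14 ⊢
      nlinarith
    · refine (RVal.Ge.mul (hhigh n h11) (ge_pow hψ' (n - m))).mono ?_
      have h12 := min_le_right e ((b - r) / 2)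
      have h13 : (1 : ℝ) ≤ ((n - m : ℕ) : ℝ) := by
        exact_mod_cast (by omega : 1 ≤ n - m)
      have h14 : (b - r) ≤ ((n - m : ℕ) : ℝ) * (b - r) :=
        le_mul_of_one_le_left (by linarith) h13
      rw [h10] at h14 ⊢
      nlinarith
  have hbdd : BddAbove X := ⟨_, fun κ' hκ' => hbd κ' hκ'⟩
  have hle : sSup X ≤ κ + S * (s - r) := csSup_le hne hbd
  refine ⟨sSup X, fun ε hε => ?_, fun e he g hg h1 => ?_, (s - r) / 2, by linarith, ?_⟩
  · obtain ⟨κ', ⟨g, hg, h1⟩, h2⟩ := exists_lt_of_lt_csSup hne (sub_lt_self (sSup X) hε)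
    exact ⟨g, hg, GB_mono h2.le h1⟩
  · have h2 := le_csSup hbdd (show sSup X + e ∈ X from ⟨g, hg, h1⟩)
    linarith
  · obtain ⟨g₀, hg₀, h1⟩ := h.lo ((s - r) / 2) (by linarith)
    refine ⟨g₀, hg₀, fun l hl' => ?_⟩
    refine (GB_taylor hzr h1 l).mono ?_
    have h2 : ((S : ℝ) + 1) ≤ l := by exact_mod_cast hl'
    have h3 : ((S : ℝ) + 1) * (s - r) ≤ l * (s - r) := mul_le_mul_of_nonneg_right h2 hD.le
    nlinarith

/-! ### Translations -/

section Shift

variable {F N : IntermediateField k Ω}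

theorem comp_sub_C_eq (A : Polynomial Ω) (c : Ω) : A.comp (X - C c) = taylor (-c) A := by
  rw [taylor_apply, C_neg, sub_eq_add_neg]

theorem taylor_comp_sub (A : Polynomial Ω) (z c : Ω) :
    taylor (z + c) (A.comp (X - C c)) = taylor z A := by
  rw [comp_sub_C_eq, taylor_taylor, add_neg_cancel_right]

theorem comp_mem_PI {g : Polynomial Ω} (hg : g ∈ PI F) {c : Ω} (hc : c ∈ F) :
    g.comp (X - C c) ∈ PI F := by
  rw [comp_sub_C_eq]
  exact taylor_mem_PI hg (neg_mem hc)

theorem comp_sub_pow (A g : Polynomial Ω) (c : Ω) (p : ℕ) :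
    A.comp (X - C c) - g.comp (X - C c) ^ p = (A - g ^ p).comp (X - C c) := by
  rw [sub_comp, pow_comp]

theorem comp_add_comp_sub (g : Polynomial Ω) (c : Ω) : (g.comp (X + C c)).comp (X - C c) = g := by
  rw [comp_assoc, add_comp, X_comp, C_comp, sub_add_cancel, comp_X]

/-- The results of `stage` after a translation. -/
theorem stage_shift {z c : Ω} (hc : c ∈ F) {s κ₁ : ℝ} {S : ℕ} {A : Polynomial Ω}
    (h : (∀ ε : ℝ, 0 < ε → ∃ g ∈ PI F, GB v s (κ₁ - ε) (taylor z (A - g ^ p))) ∧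
      (∀ e : ℝ, 0 < e → ∀ g ∈ PI F, ¬ GB v s (κ₁ + e) (taylor z (A - g ^ p))) ∧
      ∃ e : ℝ, 0 < e ∧ ∃ g ∈ PI F, ∀ l : ℕ, S < l →
        v.Ge (κ₁ + e - l * s) ((taylor z (A - g ^ p)).coeff l)) :
    (∀ ε : ℝ, 0 < ε → ∃ g ∈ PI F, GB v s (κ₁ - ε)
        (taylor (z + c) (A.comp (X - C c) - g ^ p))) ∧
      (∀ e : ℝ, 0 < e → ∀ g ∈ PI F, ¬ GB v s (κ₁ + e)
        (taylor (z + c) (A.comp (X - C c) - g ^ p))) ∧
      ∃ e : ℝ, 0 < e ∧ ∃ g ∈ PI F, ∀ l : ℕ, S < l →
        v.Ge (κ₁ + e - l * s) ((taylor (z + c) (A.comp (X - C c) - g ^ p)).coeff l) := by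
  have key : ∀ g : Polynomial Ω, taylor (z + c) (A.comp (X - C c) - g.comp (X - C c) ^ p) =
      taylor z (A - g ^ p) := fun g => by rw [comp_sub_pow, taylor_comp_sub]
  obtain ⟨h1, h2, e, he, g₀, hg₀, h3⟩ := h
  refine ⟨fun ε hε => ?_, fun e he g hg h4 => ?_, e, he, g₀.comp (X - C c), comp_mem_PI hg₀ hc,
    fun l hl => ?_⟩
  · obtain ⟨g, hg, h4⟩ := h1 ε hε
    exact ⟨_, comp_mem_PI hg hc, by rwa [key]⟩
  · have h5 : g.comp (X + C c) ∈ PI F := by
      have := comp_mem_PI hg (neg_mem hc)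
      rwa [C_neg, sub_neg_eq_add] at this
    refine h2 e he _ h5 ?_
    rw [← key, comp_add_comp_sub]
    exact h4
  · rw [key]
    exact h3 l hl

theorem PII.comp {A : Polynomial (Polynomial Ω)} (hA : PII N A) {f : Polynomial Ω}
    (hf : f ∈ PI N) : PII N (A.comp (X - C f)) := by
  have h1 : A.comp (X - C f) = Polynomial.taylor (-f) A := by
    rw [taylor_apply, C_neg, sub_eq_add_neg]
  rw [h1]
  exact hA.taylor (neg_mem hf)

theorem evalEval_comp (A : Polynomial (Polynomial Ω)) (f : Polynomial Ω) (y z : Ω) :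
    (A.comp (X - C f)).evalEval y (z + f.eval y) = A.evalEval y z := by
  have h1 : ∀ q : Polynomial Ω, (A.eval q).eval y = (A.map (evalRingHom y)).eval (q.eval y) :=
    fun q => (eval_map_apply (evalRingHom y) q).symm
  rw [evalEval, evalEval, eval_comp, eval_sub, eval_X, eval_C, h1, h1, eval_sub, eval_C, eval_C,
    add_sub_cancel_right]

theorem map_comp_sub (A : Polynomial (Polynomial Ω)) (f : Polynomial Ω) (y : Ω) :
    (A.comp (X - C f)).map (evalRingHom y) =
      (A.map (evalRingHom y)).comp (X - C (f.eval y)) := by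
  rw [Polynomial.map_comp, Polynomial.map_sub, map_X, map_C, coe_evalRingHom]

end Shift

end Pool.Agent.TWM
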