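import Pool.Agent.Lib.TWM.B1

/-!
# TANK W, M2, block D, preparations

* `cld_adj`: a finite extension of a closed field is closed (`Ω` complete);
* `exchange`: `a^p, t^p ∈ F`, `a ∉ F`, `a ∈ F(t)` give `t ∈ F(a)`;
* roots: `rootF p 1 A` is closed, `rootF p 1 (A<t^p>) = A^(1/p)<t>`, `TL.root`.
-/

set_option autoImplicit false

open Polynomial

namespace Pool.Agent.TWM

open Pool.Agent.H15JM (RVal)
open Pool.Agent.LU1 (VPos adj)
open Pool.Agent.LUC (Cl clF)
open Pool.Agent.D2 (Ctx0)
open Pool.Agent.D2P (hen clI mem_clI adj_le mem_adj_self rootF mem_rootF)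

universe u

variable {k Ω : Type u} [Field k] [Field Ω] [Algebra k Ω] {v : RVal Ω}

/-! ### Finite extensions of closed fields -/

/-- a submodule closed for the valuation -/
def CldM (v : RVal Ω) {M : IntermediateField k Ω} (V : Submodule M Ω) : Prop :=
  ∀ w : Ω, (∀ c : ℝ, ∃ a ∈ V, v.Ge c (w - a)) → w ∈ V

theorem CldM.bot {M : IntermediateField k Ω} : CldM v (⊥ : Submodule M Ω) := by
  intro w hw
  rw [Submodule.mem_bot]
  by_contra h0
  obtain ⟨a, ha, h1⟩ := hw (v w + 1)
  rw [Submodule.mem_bot] at ha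
  rw [ha, sub_zero] at h1
  have := h1 h0
  linarith

theorem CldM.sup (hc : CompleteV v) {M : IntermediateField k Ω} (hM : Cld v M)
    {V : Submodule M Ω} (hV : CldM v V) (e : Ω) : CldM v (V ⊔ Submodule.span M {e}) := by
  by_cases he : e ∈ V
  · have : Submodule.span M {e} ≤ V := by
      rw [Submodule.span_le, Set.singleton_subset_iff]
      exact he
    rw [sup_eq_left.2 this]
    exact hV
  -- `e` is at positive distance from `V`
  obtain ⟨C, hC⟩ : ∃ C : ℝ, ∀ a ∈ V, ¬ v.Ge C (e - a) := by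
    by_contra hcon
    push Not at hcon
    exact he (hV e hcon)
  intro w hw
  have hw' : ∀ n : ℕ, ∃ (a : Ω) (m : M), a ∈ V ∧ v.Ge n (w - (a + m * e)) := by
    intro n
    obtain ⟨b, hb, h1⟩ := hw n
    obtain ⟨a, ha, c, hc, rfl⟩ := Submodule.mem_sup.1 hb
    obtain ⟨m, rfl⟩ := Submodule.mem_span_singleton.1 hc
    exact ⟨a, m, ha, h1⟩
  choose a m ha hm using hw'
  have hcau : ∀ c : ℝ, ∃ N, ∀ i j, N ≤ i → N ≤ j → v.Ge c ((m i : Ω) - m j) := by
    intro c
    obtain ⟨N, hN⟩ := exists_nat_gt (c + C)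
    refine ⟨N, fun i j hi hj => ?_⟩
    intro h0
    have h1 : v.Ge N ((a i - a j) + ((m i : Ω) - m j) * e) := by
      have h2 : (a i - a j) + ((m i : Ω) - m j) * e =
        (w - (a j + m j * e)) - (w - (a i + m i * e)) := by ring
      rw [h2]
      exact ((hm j).mono (by exact_mod_cast hj)).sub ((hm i).mono (by exact_mod_cast hi))
    have h3 : ¬ v.Ge C (e - (-(m i - m j)⁻¹ : M) • (a i - a j)) :=
      hC _ (V.smul_mem _ (V.sub_mem (ha i) (ha j)))
    have h4 : (a i - a j) + ((m i : Ω) - m j) * e =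
        ((m i : Ω) - m j) * (e - (-(m i - m j)⁻¹ : M) • (a i - a j)) := by
      have h5 : ((-(m i - m j)⁻¹ : M) • (a i - a j) : Ω) =
        -((m i : Ω) - m j)⁻¹ * (a i - a j) := rfl
      rw [h5]
      field_simp
      ring
    rw [RVal.Ge] at h3
    push Not at h3
    obtain ⟨h5, h6⟩ := h3
    rw [h4] at h1
    have h7 := h1 (mul_ne_zero h0 h5)
    rw [v.map_mul h0 h5] at h7
    linarith
  obtain ⟨μ, hμ⟩ := hc (fun n => (m n : Ω)) hcau
  have hμM : μ ∈ M := by
    refine hM ?_
    rw [mem_clI]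
    intro c
    obtain ⟨N, hN⟩ := hμ c
    exact ⟨m N, (m N).2, hN N le_rfl⟩
  have h1 : w - μ * e ∈ V := by
    refine hV _ fun c => ?_
    obtain ⟨N, hN⟩ := hμ (c - v e)
    obtain ⟨N', hN'⟩ := exists_nat_ge c
    refine ⟨a (max N N'), ha _, ?_⟩
    have h2 : w - μ * e - a (max N N') =
        (w - (a (max N N') + m (max N N') * e)) - (μ - m (max N N')) * e := by ring
    rw [h2]
    refine ((hm _).mono ?_).sub (((hN _ (le_max_left _ _)).mul (RVal.ge_self e)).mono (by linarith))
    refine hN'.trans ?_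
    exact_mod_cast le_max_right _ _
  have h2 : w = (w - μ * e) + (⟨μ, hμM⟩ : M) • e := by
    have : ((⟨μ, hμM⟩ : M) • e : Ω) = μ * e := rfl
    rw [this]
    ring
  rw [h2]
  exact Submodule.add_mem_sup h1 (Submodule.mem_span_singleton.2 ⟨_, rfl⟩)

theorem CldM.span (hc : CompleteV v) {M : IntermediateField k Ω} (hM : Cld v M) (S : Finset Ω) :
    CldM v (Submodule.span M (S : Set Ω)) := by
  classical
  induction S using Finset.induction_on with
  | empty =>
    rw [Finset.coe_empty, Submodule.span_empty]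
    exact CldM.bot
  | insert a S ha ih =>
    rw [Finset.coe_insert, Submodule.span_insert, sup_comm]
    exact CldM.sup hc hM ih a

theorem adj_eq_restrict (M : IntermediateField k Ω) (t : Ω) :
    adj M t = (IntermediateField.adjoin M {t}).restrictScalars k := by
  refine le_antisymm (adj_le ?_ ?_) ?_
  · intro a ha
    exact (IntermediateField.adjoin M {t}).algebraMap_mem ⟨a, ha⟩
  · exact IntermediateField.mem_adjoin_simple_self M t
  · have h1 : IntermediateField.adjoin M {t} ≤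
        IntermediateField.extendScalars (mem_adj_self M t).2 := by
      rw [IntermediateField.adjoin_le_iff, Set.singleton_subset_iff]
      exact (mem_adj_self M t).1
    intro a ha
    exact h1 ha

/-- **Finite extensions of closed fields are closed.** -/
theorem cld_adj (hc : CompleteV v) {M : IntermediateField k Ω} (hM : Cld v M) {t : Ω}
    (ht : IsAlgebraic M t) : Cld v (adj M t) := by
  have hfd : FiniteDimensional M (IntermediateField.adjoin M {t}) :=
    IntermediateField.adjoin.finiteDimensional ht.isIntegral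
  have h1 : (Subalgebra.toSubmodule (IntermediateField.adjoin M {t}).toSubalgebra).FG :=
    (Submodule.fg_top _).1 hfd.fg_top
  obtain ⟨S, hS⟩ := h1
  have h2 := CldM.span hc hM S
  rw [hS] at h2
  intro w hw
  rw [mem_clI] at hw
  rw [adj_eq_restrict] at hw ⊢
  exact h2 w hw


/-! ### Exchange -/

theorem natDegree_minpoly_root (p : ℕ) [Fact p.Prime] [CharP Ω p] {F : IntermediateField k Ω}
    {a : Ω} (hap : a ^ p ∈ F) :
    (minpoly F a).natDegree ≤ p ∧ (a ∉ F → (minpoly F a).natDegree = p) := by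
  have hp : p.Prime := Fact.out
  let P : Polynomial F := X ^ p - C (⟨a ^ p, hap⟩ : F)
  have hPm : P.Monic := monic_X_pow_sub_C _ hp.ne_zero
  have hPd : P.natDegree = p := natDegree_X_pow_sub_C
  have hPa : aeval a P = 0 := by
    simp only [P, map_sub, map_pow, aeval_X, aeval_C]
    exact sub_self _
  have hle : (minpoly F a).natDegree ≤ p := by
    rw [← hPd]
    exact natDegree_le_of_dvd (minpoly.dvd F a hPa) hPm.ne_zero
  refine ⟨hle, fun ha => ?_⟩
  have hirr : Irreducible P := by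
    refine X_pow_sub_C_irreducible_of_prime hp fun b hb => ha ?_
    have h1 : ((b : F) : Ω) ^ p = a ^ p := by
      have := congrArg (algebraMap F Ω) hb
      rwa [map_pow] at this
    have h2 : (b : Ω) = a := frobenius_inj Ω p (by simpa [frobenius_def] using h1)
    rw [← h2]
    exact b.2
  rw [← minpoly.eq_of_irreducible_of_monic hirr hPa hPm, hPd]

/-- **Exchange.** -/
theorem exchange (p : ℕ) [Fact p.Prime] [CharP Ω p] {F : IntermediateField k Ω} {a t : Ω}
    (hap : a ^ p ∈ F) (htp : t ^ p ∈ F) (ha : a ∉ F) (hat : a ∈ adj F t) : t ∈ adj F a := by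
  have hp : p.Prime := Fact.out
  rw [adj_eq_restrict] at hat ⊢
  have hint : ∀ b : Ω, b ^ p ∈ F → IsIntegral F b := fun b hb =>
    ⟨X ^ p - C (⟨b ^ p, hb⟩ : F), monic_X_pow_sub_C _ hp.ne_zero, by
      simp only [eval₂_sub, eval₂_X_pow, eval₂_C]
      exact sub_self _⟩
  have h1 : IntermediateField.adjoin F {a} ≤ IntermediateField.adjoin F {t} := by
    rw [IntermediateField.adjoin_le_iff, Set.singleton_subset_iff]
    exact hat
  have hfd : FiniteDimensional F (IntermediateField.adjoin F {t}) :=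
    IntermediateField.adjoin.finiteDimensional (hint t htp)
  have h2 := IntermediateField.eq_of_le_of_finrank_le h1 (by
    rw [IntermediateField.adjoin.finrank (hint t htp), IntermediateField.adjoin.finrank (hint a hap),
      (natDegree_minpoly_root p hap).2 ha]
    exact (natDegree_minpoly_root p htp).1)
  rw [h2]
  exact IntermediateField.mem_adjoin_simple_self F t

/-! ### Roots -/

section Root

variable (p : ℕ) [Fact p.Prime] [CharP Ω p]

theorem mem_rootF1 {E : IntermediateField k Ω} {a : Ω} : a ∈ rootF p 1 E ↔ a ^ p ∈ E := by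
  rw [mem_rootF, pow_one]

theorem le_rootF (E : IntermediateField k Ω) : E ≤ rootF p 1 E := fun _ ha =>
  (mem_rootF1 p).2 (pow_mem ha p)

theorem rootF_mono {E F : IntermediateField k Ω} (h : E ≤ F) : rootF p 1 E ≤ rootF p 1 F :=
  fun _ ha => (mem_rootF1 p).2 (h ((mem_rootF1 p).1 ha))

omit [CharP Ω p] in
theorem isAlgebraic_of_pow_mem {E : IntermediateField k Ω} {a : Ω} (ha : a ^ p ∈ E) :
    IsAlgebraic E a := by
  have h1 : IsAlgebraic E (a ^ p) := isAlgebraic_algebraMap (R := E) (⟨a ^ p, ha⟩ : E)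
  exact IsAlgebraic.of_pow (Fact.out : p.Prime).pos h1

theorem rootF_le_algc (E : IntermediateField k Ω) : rootF p 1 E ≤ algc E := fun _ ha =>
  mem_algc.2 (isAlgebraic_of_pow_mem p ((mem_rootF1 p).1 ha))

theorem sub_pow_p (a b : Ω) : (a - b) ^ p = a ^ p - b ^ p := sub_pow_char a b

omit [CharP Ω p] in
variable {p} in
theorem ge_of_pow {c : ℝ} {a : Ω} (ha : v.Ge (p * c) (a ^ p)) : v.Ge c a := by
  intro h0
  have h1 := ha (pow_ne_zero p h0)
  rw [v.map_pow h0] at h1
  have hp : (0 : ℝ) < p := by exact_mod_cast (Fact.out : p.Prime).pos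
  exact le_of_mul_le_mul_left h1 hp

omit [CharP Ω p] in
variable {p} in
theorem gt_of_pow {c : ℝ} {a : Ω} (ha : Gt v (p * c) (a ^ p)) : Gt v c a := by
  intro h0
  have h1 := ha (pow_ne_zero p h0)
  rw [v.map_pow h0] at h1
  have hp : (0 : ℝ) < p := by exact_mod_cast (Fact.out : p.Prime).pos
  exact lt_of_mul_lt_mul_left h1 hp.le

omit [CharP Ω p] in
variable {p} in
theorem gt_pow {c : ℝ} {a : Ω} (ha : Gt v c a) : Gt v (p * c) (a ^ p) := by
  intro h0
  have h1 : a ≠ 0 := by
    rintro rfl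
    exact h0 (zero_pow (Fact.out : p.Prime).ne_zero)
  rw [v.map_pow h1]
  have hp : (0 : ℝ) < p := by exact_mod_cast (Fact.out : p.Prime).pos
  exact mul_lt_mul_of_pos_left (ha h1) hp

theorem cld_rootF {E : IntermediateField k Ω} (hE : Cld v E) : Cld v (rootF p 1 E) := by
  intro a ha
  rw [mem_rootF1]
  refine hE ?_
  rw [mem_clI] at ha ⊢
  intro c
  obtain ⟨b, hb, h1⟩ := ha (c / p)
  have hp : (0 : ℝ) < p := by exact_mod_cast (Fact.out : p.Prime).pos
  refine ⟨b ^ p, (mem_rootF1 p).1 hb, ?_⟩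
  rw [← sub_pow_p]
  exact (ge_pow h1 p).mono (by rw [mul_div_cancel₀ _ hp.ne'])

/-- the elements of `A(t^p)` are `p`-th powers of elements of `A^(1/p)(t)` -/
theorem rootF_adj [IsAlgClosed Ω] (A : IntermediateField k Ω) (t : Ω) {a : Ω}
    (ha : a ∈ adj A (t ^ p)) : ∃ b ∈ adj (rootF p 1 A) t, b ^ p = a := by
  have hroot : ∀ c : Ω, ∃ b : Ω, b ^ p = c := fun c =>
    IsAlgClosed.exists_pow_nat_eq c (Fact.out : p.Prime).pos
  let E : IntermediateField k Ω :=
    ((adj (rootF p 1 A) t).toSubfield.map (frobenius Ω p)).toIntermediateField fun c => by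
      obtain ⟨b, hb⟩ := hroot (algebraMap k Ω c)
      refine ⟨b, (mem_adj_self _ _).2 ((mem_rootF1 p).2 ?_), hb⟩
      rw [hb]
      exact A.algebraMap_mem c
  have hE : adj A (t ^ p) ≤ E := by
    refine adj_le ?_ ?_
    · intro c hc
      obtain ⟨b, hb⟩ := hroot c
      exact ⟨b, (mem_adj_self _ _).2 ((mem_rootF1 p).2 (by rw [hb]; exact hc)), hb⟩
    · exact ⟨t, (mem_adj_self _ _).1, rfl⟩
  obtain ⟨b, hb, h1⟩ := hE ha
  exact ⟨b, hb, h1⟩

/-- `(A<t^p>)^(1/p) = A^(1/p)<t>` -/
theorem rootF_cadj [IsAlgClosed Ω] (A : IntermediateField k Ω) (t : Ω) :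
    rootF p 1 (cadj v A (t ^ p)) = cadj v (rootF p 1 A) t := by
  have hp : (0 : ℝ) < p := by exact_mod_cast (Fact.out : p.Prime).pos
  refine le_antisymm ?_ ?_
  · intro w hw
    rw [mem_rootF1, cadj, mem_clI] at hw
    rw [cadj, mem_clI]
    intro c
    obtain ⟨a, ha, h1⟩ := hw (p * c)
    obtain ⟨b, hb, rfl⟩ := rootF_adj p A t ha
    refine ⟨b, hb, ?_⟩
    rw [← sub_pow_p] at h1
    exact ge_of_pow h1
  · exact cadj_le (cld_rootF p (cld_cadj _ _ _)) (rootF_mono p (le_cadj _ _ _))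
      ((mem_rootF1 p).2 (self_mem_cadj _ _ _))

theorem TL.root [IsAlgClosed Ω] {A : IntermediateField k Ω} {t : Ω} {ρ : ℝ}
    (h : TL v A (t ^ p) ρ) : TL v (rootF p 1 A) t (ρ / p) where
  lim := by
    have hp : (0 : ℝ) < p := by exact_mod_cast (Fact.out : p.Prime).pos
    intro ε hε
    obtain ⟨a, ha, h1⟩ := h.lim (p * ε) (mul_pos hp hε)
    obtain ⟨b, rfl⟩ := IsAlgClosed.exists_pow_nat_eq a (Fact.out : p.Prime).pos
    refine ⟨b, (mem_rootF1 p).2 ha, ge_of_pow (p := p) ?_⟩
    rw [sub_pow_p]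
    refine h1.mono ?_
    rw [mul_sub, mul_div_cancel₀ _ hp.ne']
  far := by
    have hp : (0 : ℝ) < p := by exact_mod_cast (Fact.out : p.Prime).pos
    intro θ hθ
    have h1 : IsAlgebraic A θ := isAlgebraic_of_algc (D2P.isAlgebraic_mono (rootF_le_algc p A) hθ)
    obtain ⟨h2, h3⟩ := h.far _ (h1.pow p)
    have h4 : t ≠ θ := fun h5 => h2 (by rw [h5])
    refine ⟨h4, ?_⟩
    rw [← sub_pow_p, v.map_pow (sub_ne_zero.2 h4)] at h3
    rw [lt_div_iff₀ hp]
    linarith

end Root

end Pool.Agent.TWM
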