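import Pool.Agent.Lib.TWM.C1

/-!
# M2, block C, part 2: the projection `M(u) → M`, `u ↦ h`
-/

set_option autoImplicit false

open Polynomial

namespace Pool.Agent.TWM.C

open Pool.Agent.H15JM (RVal)
open Pool.Agent.LU1 (VPos adj)
open Pool.Agent.LUC (Cl clF)
open Pool.Agent.D2 (Ctx0)
open Pool.Agent.D2P (hen clI mem_clI)

universe u₀

variable {k Ω : Type u₀} [Field k] [Field Ω] [Algebra k Ω] {v : RVal Ω}
  {A M : IntermediateField k Ω} {u : Ω} {ρ : ℝ}

section

variable (p : ℕ) [hp : Fact p.Prime] [CharP k p] [CharP Ω p] [IsAlgClosed Ω]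

/-- The projection `u ↦ h`. -/
noncomputable def prj (p : ℕ) (M : IntermediateField k Ω) (u h : Ω) (f : Ω) : Ω :=
  (rep p M u f).eval h

theorem prj_poly (h0 : Ctx0 k v) (hs : PStep p v M u ρ) (h : Ω) {P : Polynomial Ω}
    (hP : P ∈ PI M) (hdeg : P.natDegree < p) : prj p M u h (P.eval u) = P.eval h := by
  unfold prj
  rw [rep_eq p h0 hs hP hdeg]

omit [CharP k p] [CharP Ω p] [IsAlgClosed Ω] in
theorem prj_mem (hu : u ^ p ∈ M) {h : Ω} (hh : h ∈ M) {f : Ω} (hf : f ∈ adj M u) :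
    prj p M u h f ∈ M := eval_mem (rep_spec p hu hf).1 hh

theorem prj_M (h0 : Ctx0 k v) (hs : PStep p v M u ρ) (h : Ω) {c : Ω} (hc : c ∈ M) :
    prj p M u h c = c := by
  have h1 := prj_poly p h0 hs h (C_mem_PI hc) (by rw [natDegree_C]; exact hp.out.pos)
  rwa [eval_C, eval_C] at h1

theorem prj_add (h0 : Ctx0 k v) (hs : PStep p v M u ρ) (h : Ω) {f g : Ω} (hf : f ∈ adj M u)
    (hg : g ∈ adj M u) : prj p M u h (f + g) = prj p M u h f + prj p M u h g := by
  obtain ⟨P, hP, hP', rfl⟩ := exists_rep p hs.pw hf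
  obtain ⟨Q, hQ, hQ', rfl⟩ := exists_rep p hs.pw hg
  rw [← eval_add, prj_poly p h0 hs h hP hP', prj_poly p h0 hs h hQ hQ',
    prj_poly p h0 hs h (add_mem hP hQ) (lt_of_le_of_lt (natDegree_add_le _ _) (max_lt hP' hQ')),
    eval_add]

theorem prj_smul (h0 : Ctx0 k v) (hs : PStep p v M u ρ) (h : Ω) {c f : Ω} (hc : c ∈ M)
    (hf : f ∈ adj M u) : prj p M u h (c * f) = c * prj p M u h f := by
  obtain ⟨P, hP, hP', rfl⟩ := exists_rep p hs.pw hf
  have h1 : c * P.eval u = (C c * P).eval u := by rw [eval_mul, eval_C]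
  rw [h1, prj_poly p h0 hs h hP hP', prj_poly p h0 hs h (mul_mem (C_mem_PI hc) hP)
    (lt_of_le_of_lt (natDegree_C_mul_le _ _) hP'), eval_mul, eval_C]

theorem prj_neg (h0 : Ctx0 k v) (hs : PStep p v M u ρ) (h : Ω) {f : Ω}
    (hf : f ∈ adj M u) : prj p M u h (-f) = -prj p M u h f := by
  have h1 := prj_smul p h0 hs h (c := -1) (neg_mem (one_mem M)) hf
  rwa [neg_one_mul, neg_one_mul] at h1

theorem prj_sub (h0 : Ctx0 k v) (hs : PStep p v M u ρ) (h : Ω) {f g : Ω} (hf : f ∈ adj M u)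
    (hg : g ∈ adj M u) : prj p M u h (f - g) = prj p M u h f - prj p M u h g := by
  rw [sub_eq_add_neg, prj_add p h0 hs h hf (neg_mem hg), prj_neg p h0 hs h hg, ← sub_eq_add_neg]

theorem prj_sum (h0 : Ctx0 k v) (hs : PStep p v M u ρ) (h : Ω) {ι : Type*} (S : Finset ι)
    (f : ι → Ω) (hf : ∀ i ∈ S, f i ∈ adj M u) :
    prj p M u h (∑ i ∈ S, f i) = ∑ i ∈ S, prj p M u h (f i) := by
  classical
  induction S using Finset.induction_on with
  | empty =>
    rw [Finset.sum_empty, Finset.sum_empty]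
    exact prj_M p h0 hs h (zero_mem M)
  | insert a S ha ih =>
    rw [Finset.sum_insert ha, Finset.sum_insert ha, prj_add p h0 hs h
      (hf a (Finset.mem_insert_self a S))
      (sum_mem fun i hi => hf i (Finset.mem_insert_of_mem hi)),
      ih fun i hi => hf i (Finset.mem_insert_of_mem hi)]

omit hp [CharP k p] [CharP Ω p] [IsAlgClosed Ω] in
theorem eval_range {P : Polynomial Ω} (hdeg : P.natDegree < p) (h : Ω) :
    P.eval h = ∑ j ∈ Finset.range p, (taylor u P).coeff j * (h - u) ^ j := by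
  rw [eval_eq_taylor P u h]
  refine eval_eq_sum_range' ?_ _
  rw [natDegree_taylor]
  exact hdeg

omit [IsAlgClosed Ω] [CharP Ω p] in
theorem fact_ne {j : ℕ} (hj : j < p) : ((j.factorial : ℕ) : k) ≠ 0 := by
  rw [Ne, CharP.cast_eq_zero_iff k p]
  intro h
  rw [hp.out.dvd_factorial] at h
  omega

/-- The Taylor coefficients and the derivation. -/
theorem coeff_rep (h0 : Ctx0 k v) (hs : PStep p v M u ρ) (j : ℕ) {P : Polynomial Ω}
    (hP : P ∈ PI M) : (j.factorial : Ω) * (taylor u P).coeff j = (der p M u)^[j] (P.eval u) := by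
  rw [der_iter_poly p h0 hs j hP, taylor_coeff, ← factorial_smul_hasseDeriv, LinearMap.smul_apply,
    eval_smul, nsmul_eq_mul]

/-- The formula for the projection. -/
theorem prj_eq (h0 : Ctx0 k v) (hs : PStep p v M u ρ) (h : Ω) {f : Ω} (hf : f ∈ adj M u) :
    prj p M u h f = ∑ j ∈ Finset.range p,
      (h - u) ^ j * ((j.factorial : Ω)⁻¹ * (der p M u)^[j] f) := by
  obtain ⟨P, hP, hdeg, rfl⟩ := exists_rep p hs.pw hf
  rw [prj_poly p h0 hs h hP hdeg, eval_range p hdeg h (u := u)]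
  refine Finset.sum_congr rfl fun j hj => ?_
  rw [← coeff_rep p h0 hs j hP, ← mul_assoc (j.factorial : Ω)⁻¹, inv_mul_cancel₀, one_mul, mul_comm]
  exact (nat_val h0 (fact_ne (k := k) p (Finset.mem_range.1 hj))).1

/-- The bound. -/
theorem prj_ge (h0 : Ctx0 k v) (hs : PStep p v M u ρ) {h : Ω} {t : ℝ} (ht : 0 ≤ t)
    (hh : v.Ge (ρ - t) (u - h)) {f : Ω} (hf : f ∈ adj M u) {c : ℝ} (hc : v.Ge c f) :
    v.Ge (c - p * t) (prj p M u h f) := by
  rw [prj_eq p h0 hs h hf]
  refine RVal.Ge.sum _ _ fun j hj => ?_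
  have hj' := Finset.mem_range.1 hj
  have h1 := ge_pow (ge_sub_comm hh) j
  have h2 := der_iter_ge p h0 hs j hf hc
  obtain ⟨h3, h4⟩ := nat_val h0 (fact_ne (k := k) p hj')
  have h5 : v.Ge 0 (j.factorial : Ω)⁻¹ := fun _ => by rw [v.map_inv h3, h4, neg_zero]
  refine (h1.mul (h5.mul h2)).mono ?_
  have h6 : (j : ℝ) * t ≤ p * t := mul_le_mul_of_nonneg_right (by exact_mod_cast hj'.le) ht
  linarith

/-- The projection of the polynomials over `A`. -/
theorem prj_A (h0 : Ctx0 k v) (hs : PStep p v M u ρ) (hAM : A ≤ M) {h : Ω} (hh : h ∈ A)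
    {P : Polynomial Ω} (hP : P ∈ PI A) : prj p M u h (P.eval u) ∈ adj A (u ^ p) := by
  have hA1 : A ≤ adj A (u ^ p) := (D2P.mem_adj_self A (u ^ p)).2
  obtain ⟨Q, hQ, R, hR, hPQ, hdeg⟩ := exists_rem p (D2P.mem_adj_self A (u ^ p)).1 (PI_mono hA1 hP)
  have h1 : P.eval u = Q.eval u := by
    rw [hPQ, eval_add, eval_mul, eval_sub, eval_pow, eval_X, eval_C, sub_self, zero_mul,
      add_zero]
  rw [h1, prj_poly p h0 hs h (PI_mono (D2P.adj_le hAM hs.pw) hQ) hdeg]
  exact eval_mem hQ (hA1 hh)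

/-- `A<u> < M(u)` is stable under the derivation. -/
theorem der_cadj (h0 : Ctx0 k v) (hs : PStep p v M u ρ) (hAM : A ≤ M) (hu : TL v A u ρ)
    (hE : cadj v A u ≤ adj M u) (j : ℕ) {e : Ω} (he : e ∈ cadj v A u) :
    (der p M u)^[j] e ∈ cadj v A u := by
  refine cld_cadj v A u ?_
  intro c
  obtain ⟨P, hP, h1⟩ := hu.dense he (c + j * ρ)
  have hPM := PI_mono hAM hP
  refine ⟨(der p M u)^[j] (P.eval u), ?_, ?_⟩
  · rw [der_iter_poly p h0 hs j hPM]
    have h2 : ∀ i, derivative^[i] P ∈ PI A := by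
      intro i
      induction i with
      | zero => exact hP
      | succ i ih => rw [Function.iterate_succ_apply']; exact derivative_mem ih
    exact eval_mem (PI_mono (le_cadj v A u) (h2 j)) (self_mem_cadj v A u)
  · rw [← der_iter_sub p h0 hs j (hE he) (eval_mem_adj hPM)]
    refine (der_iter_ge p h0 hs j (sub_mem (hE he) (eval_mem_adj hPM)) h1).mono ?_
    linarith

/-- C2: a generator in `M`, if all derivatives of `z` are in `E + O(>)`. -/
theorem exists_gen (h0 : Ctx0 k v) (hs : PStep p v M u ρ) (hAM : A ≤ M) (hu : TL v A u ρ)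
    {z : Ω} {s : ℝ} (hz : z ∈ adj M u)
    (hX : ∀ j, 1 ≤ j → j < p → Nr' v (cadj v A u) (s - j * ρ) ((der p M u)^[j] z)) :
    ∃ β ∈ M, ∃ e ∈ cadj v A u, Gt v s (β - z - e) := by
  classical
  -- the errors
  have hX' : ∀ j, ∃ e ∈ cadj v A u, 1 ≤ j → j < p →
      Gt v (s - j * ρ) ((der p M u)^[j] z - e) := by
    intro j
    by_cases h : 1 ≤ j ∧ j < p
    · obtain ⟨e, he, h1⟩ := hX j h.1 h.2
      exact ⟨e, he, fun _ _ => h1⟩
    · exact ⟨0, zero_mem _, fun h1 h2 => absurd ⟨h1, h2⟩ h⟩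
  choose e he hXe using hX'
  -- the margin
  obtain ⟨δ, hδ, hδe⟩ : ∃ δ : ℝ, 0 < δ ∧ ∀ j, 1 ≤ j → j < p →
      v.Ge (s - j * ρ + δ) ((der p M u)^[j] z - e j) := by
    have key : ∀ n, n ≤ p → ∃ δ : ℝ, 0 < δ ∧ ∀ j, 1 ≤ j → j < n →
        v.Ge (s - j * ρ + δ) ((der p M u)^[j] z - e j) := by
      intro n
      induction n with
      | zero => exact fun _ => ⟨1, one_pos, fun j _ h => absurd h (Nat.not_lt_zero j)⟩
      | succ n ih =>
        intro hn
        obtain ⟨δ, hδ, h1⟩ := ih (by omega)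
        by_cases h2 : 1 ≤ n ∧ (der p M u)^[n] z - e n ≠ 0
        · have h3 := hXe n h2.1 (by omega) h2.2
          set d := v ((der p M u)^[n] z - e n) - (s - n * ρ) with hd
          refine ⟨min δ d, lt_min hδ (by rw [hd]; linarith), fun j hj hjn => ?_⟩
          rcases Nat.lt_succ_iff_lt_or_eq.1 hjn with h4 | rfl
          · exact (h1 j hj h4).mono (by linarith [min_le_left δ d])
          · intro _
            have := min_le_right δ d
            linarith
        · refine ⟨δ, hδ, fun j hj hjn => ?_⟩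
          rcases Nat.lt_succ_iff_lt_or_eq.1 hjn with h4 | rfl
          · exact h1 j hj h4
          · have h5 : (der p M u)^[j] z - e j = 0 := by
              by_contra h6
              exact h2 ⟨hj, h6⟩
            rw [h5]
            exact RVal.Ge.zero
    exact key p le_rfl
  -- the point `h`
  have hp0 : (0 : ℝ) < p := by exact_mod_cast hp.out.pos
  obtain ⟨h, hh, hhu⟩ := hu.lim (δ / (2 * p)) (by positivity)
  refine ⟨prj p M u h z, prj_mem p hs.pw (hAM hh) hz,
    ∑ j ∈ Finset.Ico 1 p, (h - u) ^ j * ((j.factorial : Ω)⁻¹ * e j), ?_, ?_⟩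
  · refine sum_mem fun j _ => mul_mem (pow_mem (sub_mem (le_cadj v A u hh)
      (self_mem_cadj v A u)) j) (mul_mem (inv_mem (natCast_mem _ _)) (he j))
  · rw [prj_eq p h0 hs h hz, Finset.range_eq_Ico, Finset.sum_eq_sum_Ico_succ_bot hp.out.pos]
    have h1 : (h - u) ^ 0 * (((Nat.factorial 0 : ℕ) : Ω)⁻¹ * (der p M u)^[0] z) = z := by
      rw [pow_zero, one_mul, Nat.factorial_zero, Nat.cast_one, inv_one, one_mul]
      rfl
    rw [h1, add_sub_cancel_left, ← Finset.sum_sub_distrib]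
    refine Gt.sum _ _ fun j hj => ?_
    obtain ⟨hj1, hj2⟩ := Finset.mem_Ico.1 hj
    obtain ⟨h3, h4⟩ := nat_val h0 (fact_ne (k := k) p hj2)
    have h5 : v.Ge 0 (j.factorial : Ω)⁻¹ := fun _ => by rw [v.map_inv h3, h4, neg_zero]
    have h6 : (h - u) ^ j * ((j.factorial : Ω)⁻¹ * (der p M u)^[j] z) -
        (h - u) ^ j * ((j.factorial : Ω)⁻¹ * e j) =
        (h - u) ^ j * ((j.factorial : Ω)⁻¹ * ((der p M u)^[j] z - e j)) := by ring
    rw [h6]
    refine Gt.of_ge ((ge_pow (ge_sub_comm hhu) j).mul (h5.mul (hδe j hj1 hj2))) ?_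
    have h7 : (j : ℝ) * (δ / (2 * p)) ≤ p * (δ / (2 * p)) :=
      mul_le_mul_of_nonneg_right (by exact_mod_cast hj2.le) (by positivity)
    have h8 : (p : ℝ) * (δ / (2 * p)) = δ / 2 := by field_simp
    rw [h8] at h7
    have h9 : (j : ℝ) * (ρ - δ / (2 * p)) = j * ρ - j * (δ / (2 * p)) := by ring
    rw [h9]
    linarith

/-- C8: `M = A<u^p><β>`. -/
theorem gen_eq (h0 : Ctx0 k v) (hs : PStep p v M u ρ) (hAM : A ≤ M) (hu : TL v A u ρ)
    {β : Ω} {s : ℝ} (hβM : β ∈ M) (hβ : TL v (cadj v A u) β s)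
    (hL : adj M u = cadj v (cadj v A u) β) :
    TL v (cadj v A (u ^ p)) β s ∧ M = cadj v (cadj v A (u ^ p)) β := by
  have hEL : cadj v A u ≤ adj M u := by
    rw [hL]
    exact le_cadj v _ β
  have hA'M : cadj v A (u ^ p) ≤ M := cadj_le hs.cld hAM hs.pw
  have hA'E : cadj v A (u ^ p) ≤ cadj v A u :=
    cadj_le (cld_cadj v A u) (le_cadj v A u) (pow_mem (self_mem_cadj v A u) p)
  have hp0 : (0 : ℝ) < p := by exact_mod_cast hp.out.pos
  have hadjc : adj A (u ^ p) ≤ cadj v A (u ^ p) :=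
    D2P.adj_le (le_cadj v A _) (self_mem_cadj v A _)
  refine ⟨⟨?_, fun θ hθ => hβ.far θ (D2P.isAlgebraic_mono hA'E hθ)⟩, le_antisymm ?_ ?_⟩
  · -- the limit
    intro ε hε
    obtain ⟨e, he, h1⟩ := hβ.lim (ε / 2) (by positivity)
    obtain ⟨P, hP, h2⟩ := hu.dense he (s - ε / 2)
    have h3 : v.Ge (s - ε / 2) (β - P.eval u) := by
      rw [show β - P.eval u = (β - e) + (e - P.eval u) by ring]
      exact h1.add h2
    obtain ⟨h, hh, hhu⟩ := hu.lim (ε / (2 * p)) (by positivity)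
    have hPM := PI_mono hAM hP
    have hβL : β ∈ adj M u := (D2P.mem_adj_self M u).2 hβM
    refine ⟨prj p M u h (P.eval u), hadjc (prj_A p h0 hs hAM hh hP), ?_⟩
    have h4 := prj_ge p h0 hs (t := ε / (2 * p)) (by positivity) hhu
      (sub_mem hβL (eval_mem_adj hPM)) h3
    rw [prj_sub p h0 hs h hβL (eval_mem_adj hPM), prj_M p h0 hs h hβM] at h4
    refine h4.mono ?_
    have h8 : (p : ℝ) * (ε / (2 * p)) = ε / 2 := by field_simp
    rw [h8]
    linarith
  · -- the density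
    intro m hm
    have hmL : m ∈ adj M u := (D2P.mem_adj_self M u).2 hm
    have hmL' : m ∈ cadj v (cadj v A u) β := by rw [← hL]; exact hmL
    obtain ⟨h, hh, hhu⟩ := hu.lim 1 one_pos
    refine cld_cadj v _ β ?_
    intro c
    -- an approximation `∑ P_n(u) β^n`
    obtain ⟨G, hG, h1⟩ := hβ.dense hmL' (c + p)
    have hG' : ∀ n, ∃ P ∈ PI A, v.Ge (c + p - v (β ^ n)) (G.coeff n - P.eval u) := fun n =>
      hu.dense (hG n) _
    choose P hP hGP using hG'
    set a : Ω := ∑ n ∈ Finset.range (G.natDegree + 1), (P n).eval u * β ^ n with ha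
    have h2 : v.Ge (c + p) (m - a) := by
      rw [show m - a = (m - G.eval β) + (G.eval β - a) by ring]
      refine h1.add ?_
      rw [eval_eq_sum_range, ha, ← Finset.sum_sub_distrib]
      refine RVal.Ge.sum _ _ fun n _ => ?_
      rw [← sub_mul]
      refine ((hGP n).mul (RVal.ge_self (β ^ n))).mono ?_
      linarith
    have hterm : ∀ n, (P n).eval u * β ^ n ∈ adj M u := fun n =>
      mul_mem (eval_mem_adj (PI_mono hAM (hP n))) (pow_mem ((D2P.mem_adj_self M u).2 hβM) n)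
    have haL : a ∈ adj M u := sum_mem fun n _ => hterm n
    refine ⟨prj p M u h a, ?_, ?_⟩
    · rw [ha, prj_sum p h0 hs h _ _ fun n _ => hterm n]
      refine sum_mem fun n _ => ?_
      rw [mul_comm, prj_smul p h0 hs h (pow_mem hβM n) (eval_mem_adj (PI_mono hAM (hP n)))]
      exact mul_mem (pow_mem (self_mem_cadj v _ β) n)
        (le_cadj v _ β (hadjc (prj_A p h0 hs hAM hh (hP n))))
    · have h4 := prj_ge p h0 hs (t := 1) zero_le_one hhu (sub_mem hmL haL) h2
      rw [prj_sub p h0 hs h hmL haL, prj_M p h0 hs h hm] at h4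
      refine h4.mono ?_
      linarith
  · exact cadj_le hs.cld hA'M hβM

end

end Pool.Agent.TWM.C
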