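import Pool.Agent.Lib.TWM.D0

/-!
# TANK W, M2, block D: the first step

`first_step_core`: `B` is the closure of `A(y, z)`, `α^p ∈ B`, `α` is not in the closure `B_1` of
`B A^(1/p)`; then the closure of `B(α) A^(1/p)` is the closure of `A^(1/p)(y_1, z_1)`. Block C is the
hypothesis `hC`.
-/

set_option autoImplicit false

open Polynomial

namespace Pool.Agent.TWM

open Pool.Agent.H15JM (RVal)
open Pool.Agent.LU1 (VPos adj)
open Pool.Agent.LUC (Cl clF)
open Pool.Agent.D2 (Ctx0)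
open Pool.Agent.D2P (hen clI mem_clI adj_le mem_adj_self rootF mem_rootF)

universe u

variable {k Ω : Type u} [Field k] [Field Ω] [Algebra k Ω] {v : RVal Ω}

theorem clI_le {E F : IntermediateField k Ω} (hE : Cld v E) (h : F ≤ E) : clI v F ≤ E :=
  (clI_mono h).trans hE

variable [IsAlgClosed Ω] (p : ℕ) [Fact p.Prime] [CharP Ω p]

/-- D1: the `p`-th root of `y` is not near `A<y><z>`. -/
theorem D1 {A : IntermediateField k Ω} {y z u : Ω} {ρ s : ℝ} (hy : TL v A y ρ)
    (hz : TL v (cadj v A y) z s) (hu : u ^ p = y) {b : Ω} (hb : b ∈ cadj v (cadj v A y) z) :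
    ¬ Gt v (ρ / p) (u - b) := by
  intro hgt
  have hp : (0 : ℝ) < p := by exact_mod_cast (Fact.out : p.Prime).pos
  obtain ⟨P, hP, h1⟩ := exists_PII hy hz hb (ρ / p + 1)
  have h2 : Gt v (ρ / p) (u - P.evalEval y z) := by
    have : u - P.evalEval y z = (u - b) + (b - P.evalEval y z) := by ring
    rw [this]
    exact hgt.add (Gt.of_ge h1 (by linarith))
  have h3 : Gt v ρ (y - P.evalEval y z ^ p) := by
    have := gt_pow (p := p) h2
    rwa [sub_pow_p, hu, mul_div_cancel₀ _ hp.ne'] at this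
  set F : Polynomial Ω := C y - P.map (evalRingHom y) ^ p with hF
  have hFm : F ∈ PI (cadj v A y) :=
    sub_mem (C_mem_PI (self_mem_cadj _ _ _)) (pow_mem (hP.map y) p)
  have hFe : ∀ w, F.eval w = y - (P.map (evalRingHom y)).eval w ^ p := by
    intro w
    rw [hF, eval_sub, eval_C, eval_pow]
  obtain ⟨δ, hδ, h4⟩ : ∃ δ : ℝ, 0 < δ ∧ ∀ w, v.Ge (s - δ) (z - w) → Gt v ρ (F.eval w) := by
    by_cases hF0 : F = 0
    · exact ⟨1, one_pos, fun w _ => by rw [hF0, eval_zero]; exact Gt.zero⟩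
    · obtain ⟨δ, hδ, h5⟩ := hz.near_val (PI_mono (le_algc _) hFm) hF0
      refine ⟨δ, hδ, fun w hw h0 => ?_⟩
      rw [(h5 w hw).2]
      have h6 := hz.eval_ne (PI_mono (le_algc _) hFm) hF0
      rw [hFe, map_evalRingHom_eval] at h6 ⊢
      exact h3 h6
  obtain ⟨ψ, hψ, h5⟩ := hy.exists_psi hz.lim hδ
  have h6 := h4 _ h5
  set G : Polynomial Ω := X - P.eval ψ ^ p with hG
  have hPψ : P.eval ψ ∈ PI A := by
    rw [eval_eq_sum_range]
    exact sum_mem fun i _ => mul_mem (hP i) (pow_mem hψ i)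
  have hGm : G ∈ PI A := sub_mem X_mem_PI (pow_mem hPψ p)
  have hGe : G.eval y = F.eval (ψ.eval y) := by
    rw [hFe, hG, eval_sub, eval_X, eval_pow]
    congr 2
    rw [eval_map]
    exact (eval₂_at_apply (evalRingHom y) ψ).symm
  rw [← hGe] at h6
  have hder : (taylor y G).coeff 1 = 1 := by
    rw [taylor_coeff_one, hG, derivative_sub, derivative_X, derivative_pow, CharP.cast_eq_zero]
    simp
  have hG0 : G ≠ 0 := by
    intro h0
    rw [h0] at hder
    simp at hder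
  have h7 := hy.strict (PI_mono (le_algc _) hGm) hG0 le_rfl (by rw [hder]; exact one_ne_zero)
  rw [hder, v.map_one, Nat.cast_one, one_mul] at h7
  have h8 := h6 (hy.eval_ne (PI_mono (le_algc _) hGm) hG0)
  linarith

omit [IsAlgClosed Ω] [Fact p.Prime] [CharP Ω p] in
theorem cadj_mono {A A' : IntermediateField k Ω} (h : A ≤ A') (z : Ω) :
    cadj v A z ≤ cadj v A' z :=
  cadj_le (cld_cadj _ _ _) (h.trans (le_cadj _ _ _)) (self_mem_cadj _ _ _)

omit [IsAlgClosed Ω] in
theorem cadj_rootF_le (A : IntermediateField k Ω) (y : Ω) :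
    cadj v (rootF p 1 A) y ≤ algc (cadj v A y) := by
  refine le_trans ?_ (rootF_le_algc p _)
  exact cadj_le (cld_rootF p (cld_cadj _ _ _)) (rootF_mono p (le_cadj _ _ _))
    (le_rootF p _ (self_mem_cadj _ _ _))

omit [IsAlgClosed Ω] in
/-- the closure of `B A^(1/p)` -/
theorem Fib.rootA {A B : IntermediateField k Ω} {y z : Ω} {ρ s : ℝ} (hF : Fib v A B y z ρ s) :
    Fib v (rootF p 1 A) (clI v (rootF p 1 A ⊔ B)) y z ρ s where
  ty := hF.ty.mono (le_rootF p A) (rootF_le_algc p A)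
  tz := hF.tz.mono (cadj_mono (le_rootF p A) y) (cadj_rootF_le p A y)
  eq := by
    refine le_antisymm ?_ ?_
    · refine clI_le (cld_cadj _ _ _) (sup_le ((le_cadj _ _ _).trans (le_cadj _ _ _)) ?_)
      rw [hF.eq]
      exact cadj_le (cld_cadj _ _ _) ((cadj_mono (le_rootF p A) y).trans (le_cadj _ _ _))
        (self_mem_cadj _ _ _)
    · have hB : B ≤ clI v (rootF p 1 A ⊔ B) := le_sup_right.trans (le_clI _)
      refine cadj_le (cld_clI _ _) (cadj_le (cld_clI _ _) (le_sup_left.trans (le_clI _)) ?_) ?_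
      · exact hB (by rw [hF.eq]; exact le_cadj _ _ _ (self_mem_cadj _ _ _))
      · exact hB (by rw [hF.eq]; exact self_mem_cadj _ _ _)

/-- The statement of block C. -/
def BlockC (k : Type u) {Ω : Type u} [Field k] [Field Ω] [Algebra k Ω] (p : ℕ) (v : RVal Ω) :
    Prop :=
  ∀ (A M : IntermediateField k Ω) (u z : Ω) (ρ s : ℝ), Cld v A → Cld v M → TL v A u ρ →
    TL v (cadj v A u) z s → A ≤ M → u ^ p ∈ M → cadj v (cadj v A u) z = adj M u →
    (∀ b ∈ M, ¬ Gt v ρ (u - b)) → ∃ be, Fib v A M (u ^ p) be (p * ρ) s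

variable {A B : IntermediateField k Ω} {y z α : Ω} {ρ s : ℝ}

/-- D3: the case of an element near the `p`-th root of `y`. -/
theorem case_T (hc : CompleteV v) (hF : Fib v A B y z ρ s) (hαp : α ^ p ∈ B) {u : Ω}
    (hu : u ^ p = y) {b : Ω} (hb : b ∈ clI v (rootF p 1 A ⊔ adj B α)) (hg : Gt v (ρ / p) (u - b)) :
    ∃ z', Fib v (rootF p 1 A) (clI v (rootF p 1 A ⊔ adj B α)) b z' (ρ / p) s := by
  have hp : (0 : ℝ) < p := by exact_mod_cast (Fact.out : p.Prime).pos
  have hB : Cld v B := by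
    rw [hF.eq]
    exact cld_cadj _ _ _
  have hAB : A ≤ B := by
    rw [hF.eq]
    exact (le_cadj _ _ _).trans (le_cadj _ _ _)
  set M := clI v (rootF p 1 A ⊔ adj B α) with hM
  have hML : M ≤ rootF p 1 B := clI_le (cld_rootF p hB)
    (sup_le (rootF_mono p hAB) (adj_le (le_rootF p B) ((mem_rootF1 p).2 hαp)))
  have hbp : b ^ p ∈ B := (mem_rootF1 p).1 (hML hb)
  have hgy : Gt v ρ (y - b ^ p) := by
    have := gt_pow (p := p) hg
    rwa [sub_pow_p, hu, mul_div_cancel₀ _ hp.ne'] at this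
  obtain ⟨z', hF'⟩ := hF.exists_stab hbp hgy
  refine ⟨z', hF'.ty.root, ?_, ?_⟩
  · refine hF'.tz.mono ?_ ?_
    · refine cadj_le (cld_cadj _ _ _) ((le_rootF p A).trans (le_cadj _ _ _)) ?_
      exact pow_mem (self_mem_cadj _ _ _) p
    · rw [← rootF_cadj]
      exact rootF_le_algc p _
  · set B1 := clI v (rootF p 1 A ⊔ B) with hB1
    set D := cadj v (cadj v (rootF p 1 A) b) z' with hD
    have hAM : rootF p 1 A ≤ M := le_sup_left.trans (le_clI _)
    have hBM : B ≤ M := (mem_adj_self B α).2.trans (le_sup_right.trans (le_clI _))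
    have hBB1 : B ≤ B1 := le_sup_right.trans (le_clI _)
    have hAD : rootF p 1 A ≤ D := (le_cadj _ _ _).trans (le_cadj _ _ _)
    have hbD : b ∈ D := le_cadj _ _ _ (self_mem_cadj _ _ _)
    have hBD : B ≤ D := by
      rw [hF'.eq]
      exact cadj_le (cld_cadj _ _ _) (cadj_le (cld_cadj _ _ _) ((le_rootF p A).trans hAD)
        (pow_mem hbD p)) (self_mem_cadj _ _ _)
    have hB1D : B1 ≤ D := clI_le (cld_cadj _ _ _) (sup_le hAD hBD)
    refine le_antisymm ?_ ?_
    · refine clI_le (cld_cadj _ _ _) (sup_le hAD (adj_le hBD ?_))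
      -- exchange
      have hF1 := hF'.rootA p
      have hb1 : b ∉ B1 := by
        intro hb1
        refine D1 p hF1.ty hF1.tz (b := b) rfl ?_ ?_
        · rw [← hF1.eq]
          exact hb1
        · rw [sub_self]
          exact Gt.zero
      have hMα : M ≤ adj B1 α := by
        refine clI_le (cld_adj hc (cld_clI _ _) ?_) (sup_le ?_ (adj_le ?_ (mem_adj_self _ _).1))
        · exact isAlgebraic_of_pow_mem p (hBB1 hαp)
        · exact (le_sup_left.trans (le_clI _)).trans (mem_adj_self _ _).2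
        · exact hBB1.trans (mem_adj_self _ _).2
      have h1 := exchange p (hBB1 hbp) (hBB1 hαp) hb1 (hMα hb)
      exact adj_le hB1D hbD h1
    · refine cadj_le (cld_clI _ _) (cadj_le (cld_clI _ _) hAM hb) (hBM ?_)
      rw [hF'.eq]
      exact self_mem_cadj _ _ _

/-- D4: the case of no element near the `p`-th root of `y`. -/
theorem case_E (hC : BlockC k p v) (hc : CompleteV v) (hA : Cld v A) (hF : Fib v A B y z ρ s)
    (hαp : α ^ p ∈ B) (hα : α ∉ clI v (rootF p 1 A ⊔ B)) {u : Ω} (hu : u ^ p = y)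
    (hE : ∀ b ∈ clI v (rootF p 1 A ⊔ adj B α), ¬ Gt v (ρ / p) (u - b)) :
    ∃ be, Fib v (rootF p 1 A) (clI v (rootF p 1 A ⊔ adj B α)) y be ρ (s / p) := by
  have hp : (0 : ℝ) < p := by exact_mod_cast (Fact.out : p.Prime).pos
  have hB : Cld v B := by
    rw [hF.eq]
    exact cld_cadj _ _ _
  have hAB : A ≤ B := by
    rw [hF.eq]
    exact (le_cadj _ _ _).trans (le_cadj _ _ _)
  have hyB : y ∈ B := by
    rw [hF.eq]
    exact le_cadj _ _ _ (self_mem_cadj _ _ _)
  have hzB : z ∈ B := by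
    rw [hF.eq]
    exact self_mem_cadj _ _ _
  obtain ⟨w, hw⟩ := IsAlgClosed.exists_pow_nat_eq z (Fact.out : p.Prime).pos
  set M := clI v (rootF p 1 A ⊔ adj B α) with hM
  set B1 := clI v (rootF p 1 A ⊔ B) with hB1
  have hML : M ≤ rootF p 1 B := clI_le (cld_rootF p hB)
    (sup_le (rootF_mono p hAB) (adj_le (le_rootF p B) ((mem_rootF1 p).2 hαp)))
  have hBM : B ≤ M := (mem_adj_self B α).2.trans (le_sup_right.trans (le_clI _))
  have hαM : α ∈ M := le_clI _ (le_sup_right (a := rootF p 1 A) (mem_adj_self B α).1)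
  have hAM : rootF p 1 A ≤ M := le_sup_left.trans (le_clI _)
  have hB1M : B1 ≤ M := clI_mono (sup_le_sup_left (mem_adj_self B α).2 _)
  have hBB1 : B ≤ B1 := le_sup_right.trans (le_clI _)
  have hty : TL v (rootF p 1 A) u (ρ / p) := by
    have := hF.ty
    rw [← hu] at this
    exact this.root
  have htz : TL v (cadj v (rootF p 1 A) u) w (s / p) := by
    have h1 := hF.tz
    rw [← hw, ← hu] at h1
    rw [← rootF_cadj]
    exact h1.root
  -- `L = B^(1/p)`
  have hL : cadj v (cadj v (rootF p 1 A) u) w = rootF p 1 B := by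
    rw [← rootF_cadj, ← rootF_cadj, hu, hw, hF.eq]
  have hLM : rootF p 1 B = adj M u := by
    refine le_antisymm ?_ (adj_le hML ((mem_rootF1 p).2 (by rw [hu]; exact hyB)))
    have huB1 : u ^ p ∈ B1 := hBB1 (by rw [hu]; exact hyB)
    have hwB1 : w ^ p ∈ B1 := hBB1 (by rw [hw]; exact hzB)
    have hcl1 : Cld v (adj B1 u) := cld_adj hc (cld_clI _ _) (isAlgebraic_of_pow_mem p huB1)
    have hcl2 : Cld v (adj (adj B1 u) w) := cld_adj hc hcl1
      (isAlgebraic_of_pow_mem p ((mem_adj_self _ _).2 hwB1))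
    have h1 : rootF p 1 B ≤ adj (adj B1 u) w := by
      rw [← hL]
      refine cadj_le hcl2 (cadj_le hcl2 ?_ ((mem_adj_self _ _).2 (mem_adj_self _ _).1))
        (mem_adj_self _ _).1
      exact ((le_sup_left.trans (le_clI _)).trans (mem_adj_self B1 u).2).trans (mem_adj_self _ _).2
    have hαL : α ∈ adj (adj B1 u) w := h1 ((mem_rootF1 p).2 hαp)
    have hα1 : α ∉ adj B1 u := by
      intro h2
      have h3 := exchange p (hBB1 hαp) huB1 hα h2
      have h4 : u ∈ M := adj_le hB1M hαM h3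
      refine hE u h4 ?_
      rw [sub_self]
      exact Gt.zero
    have h2 : w ∈ adj (adj B1 u) α := exchange p ((mem_adj_self B1 u).2 (hBB1 hαp))
      ((mem_adj_self B1 u).2 hwB1) hα1 hαL
    have hB1u : adj B1 u ≤ adj M u := adj_le (hB1M.trans (mem_adj_self _ _).2) (mem_adj_self _ _).1
    have h3 : w ∈ adj M u := adj_le hB1u ((mem_adj_self M u).2 hαM) h2
    exact h1.trans (adj_le hB1u h3)
  obtain ⟨be, hbe⟩ := hC (rootF p 1 A) M u w (ρ / p) (s / p) (cld_rootF p hA) (cld_clI _ _) hty htz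
    hAM (hBM (by rw [hu]; exact hyB)) (by rw [hL, hLM]) hE
  rw [hu, mul_div_cancel₀ _ hp.ne'] at hbe
  exact ⟨be, hbe⟩

/-- **Block D.** -/
theorem first_step_core (hC : BlockC k p v) (hc : CompleteV v) (hA : Cld v A)
    (hF : Fib v A B y z ρ s) (hαp : α ^ p ∈ B) (hα : α ∉ clI v (rootF p 1 A ⊔ B)) :
    ∃ (y₁ z₁ : Ω) (ρ₁ s₁ : ℝ),
      Fib v (rootF p 1 A) (clI v (rootF p 1 A ⊔ adj B α)) y₁ z₁ ρ₁ s₁ := by
  obtain ⟨u, hu⟩ := IsAlgClosed.exists_pow_nat_eq y (Fact.out : p.Prime).pos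
  by_cases hT : ∃ b ∈ clI v (rootF p 1 A ⊔ adj B α), Gt v (ρ / p) (u - b)
  · obtain ⟨b, hb, hg⟩ := hT
    obtain ⟨z', hz'⟩ := case_T p hc hF hαp hu hb hg
    exact ⟨_, _, _, _, hz'⟩
  · push Not at hT
    obtain ⟨be, hbe⟩ := case_E p hC hc hA hF hαp hα hu hT
    exact ⟨_, _, _, _, hbe⟩

end Pool.Agent.TWM
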