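import Pool.Agent.Lib.TWM.Op

/-!
# E1: more vectors than the rank are related
-/

set_option autoImplicit false

open Polynomial Finset

namespace Pool.Agent.TWM

universe u

/-- A pigeonhole for the classes. -/
theorem exists_class {α β γ : Type*} [Fintype α] [Fintype β] [DecidableEq γ] (f : α → γ) (g : β → γ)
    (h : Fintype.card β < Fintype.card α) :
    ∃ q, (Finset.univ.filter fun b => g b = q).card < (Finset.univ.filter fun a => f a = q).card := by
  classical
  by_contra hc
  push Not at hc
  have h1 : Fintype.card α = ∑ q ∈ Finset.univ.image f, (Finset.univ.filter fun a => f a = q).card := by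
    rw [← Finset.card_univ]
    exact Finset.card_eq_sum_card_image f _
  have h2 : ∑ q ∈ Finset.univ.image f, (Finset.univ.filter fun b => g b = q).card ≤
      Fintype.card β := by
    rw [← Finset.card_biUnion]
    · exact Finset.card_le_univ _
    · intro q _ q' _ hq
      change Disjoint _ _
      rw [Finset.disjoint_left]
      intro b hb hb'
      rw [Finset.mem_filter] at hb hb'
      exact hq (hb.2.symm.trans hb'.2)
  have h3 := Finset.sum_le_sum (s := Finset.univ.image f) fun q _ => hc q
  omega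

variable {k : Type u} [Field k] {p : ℕ} [Fact p.Prime] [CharP k p] {G : AddSubgroup ℝ}

/-- **E1.** -/
theorem exists_rel {ι κ : Type*} [Fintype ι] [Fintype κ] (hc : Fintype.card ι < Fintype.card κ)
    (s : ι → ℝ) (r : κ → ℝ) (Q : κ → ι → k[X]) (hQ : ∀ b i, IsOp p G (s i) (r b) (Q b i)) :
    ∃ (R : ℝ) (P : κ → k[X]), (∀ b, IsOp p G (r b) R (P b)) ∧ (∃ b, P b ≠ 0) ∧
      ∀ i, ∑ b, tw p (P b) (Q b i) = 0 := by
  classical
  obtain ⟨L, hL⟩ : ∃ L : ℕ, ∀ b i, (Q b i).natDegree ≤ L :=
    ⟨∑ b, ∑ i, (Q b i).natDegree, fun b i =>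
      (Finset.single_le_sum (f := fun i => (Q b i).natDegree) (fun _ _ => Nat.zero_le _)
        (Finset.mem_univ i)).trans
      (Finset.single_le_sum (f := fun b => ∑ i, (Q b i).natDegree) (fun _ _ => Nat.zero_le _)
        (Finset.mem_univ b))⟩
  set D := L * Fintype.card ι with hD
  have hcard : Fintype.card (ι × Fin (D + L + 1)) < Fintype.card (κ × Fin (D + 1)) := by
    rw [Fintype.card_prod, Fintype.card_prod, Fintype.card_fin, Fintype.card_fin]
    have h1 : (Fintype.card ι + 1) * (D + 1) ≤ Fintype.card κ * (D + 1) :=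
      Nat.mul_le_mul_right _ hc
    have h2 : Fintype.card ι * (D + L + 1) = Fintype.card ι * (D + 1) + D := by
      rw [hD]; ring
    have h3 : (Fintype.card ι + 1) * (D + 1) = Fintype.card ι * (D + 1) + D + 1 := by ring
    omega
  obtain ⟨q, hq⟩ := exists_class (α := κ × Fin (D + 1)) (β := ι × Fin (D + L + 1))
    (fun a => (QuotientAddGroup.mk ((p : ℝ) ^ (a.2 : ℕ) * r a.1) : ℝ ⧸ G))
    (fun a => (QuotientAddGroup.mk ((p : ℝ) ^ (a.2 : ℕ) * s a.1) : ℝ ⧸ G)) hcard
  set U : Finset (κ × Fin (D + 1)) := Finset.univ.filter fun a =>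
    (QuotientAddGroup.mk ((p : ℝ) ^ (a.2 : ℕ) * r a.1) : ℝ ⧸ G) = q with hU
  set E : Finset (ι × Fin (D + L + 1)) := Finset.univ.filter fun a =>
    (QuotientAddGroup.mk ((p : ℝ) ^ (a.2 : ℕ) * s a.1) : ℝ ⧸ G) = q with hE
  obtain ⟨R, rfl⟩ := QuotientAddGroup.mk_surjective q
  -- the coefficients
  let cf : (U → k) → κ → ℕ → k := fun c b j =>
    if h : ∃ hj : j < D + 1, (b, (⟨j, hj⟩ : Fin (D + 1))) ∈ U then
      c ⟨(b, ⟨j, h.1⟩), h.2⟩ else 0
  have hcf0 : ∀ c b j, D < j → cf c b j = 0 := by
    intro c b j hj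
    exact dif_neg fun h => by obtain ⟨h1, -⟩ := h; omega
  let P : (U → k) → κ → k[X] := fun c b => ∑ j ∈ Finset.range (D + 1), C (cf c b j) * X ^ j
  have hPc : ∀ c b j, (P c b).coeff j = cf c b j := by
    intro c b j
    rw [finsetSum_coeff]
    by_cases hj : j < D + 1
    · rw [Finset.sum_eq_single j]
      · rw [coeff_C_mul_X_pow, if_pos rfl]
      · intro i _ hi
        rw [coeff_C_mul_X_pow, if_neg (Ne.symm hi)]
      · intro h
        exact absurd (Finset.mem_range.mpr hj) h
    · rw [hcf0 c b j (by omega)]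
      refine Finset.sum_eq_zero fun i hi => ?_
      rw [coeff_C_mul_X_pow, if_neg]
      have := Finset.mem_range.mp hi
      omega
  have hPop : ∀ c b, IsOp p G (r b) R (P c b) := by
    intro c b j hj
    rw [hPc] at hj
    have h : ∃ hj : j < D + 1, (b, (⟨j, hj⟩ : Fin (D + 1))) ∈ U := by
      by_contra h
      exact hj (dif_neg h)
    obtain ⟨h1, h2⟩ := h
    rw [hU, Finset.mem_filter] at h2
    have h3 := QuotientAddGroup.eq.mp h2.2
    simpa [add_comm, sub_eq_add_neg] using h3
  let φ : (U → k) →ₗ[k] (E → k) :=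
    { toFun := fun c e => ∑ b, (tw p (P c b) (Q b e.1.1)).coeff e.1.2
      map_add' := by
        intro c c'
        ext e
        rw [Pi.add_apply, ← Finset.sum_add_distrib]
        refine Finset.sum_congr rfl fun b _ => ?_
        rw [← coeff_add, ← tw_add_left]
        congr 2
        ext j
        rw [coeff_add, hPc, hPc, hPc]
        simp only [cf]
        split_ifs with h
        · rfl
        · rw [add_zero]
      map_smul' := by
        intro a c
        ext e
        rw [RingHom.id_apply, Pi.smul_apply, smul_eq_mul, Finset.mul_sum]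
        refine Finset.sum_congr rfl fun b _ => ?_
        rw [tw_coeff, tw_coeff, Finset.mul_sum]
        refine Finset.sum_congr rfl fun j _ => ?_
        rw [hPc, hPc, ← mul_assoc]
        congr 1
        simp only [cf]
        split_ifs with h
        · rfl
        · rw [mul_zero] }
  have hfin : Module.finrank k (E → k) < Module.finrank k (U → k) := by
    rw [Module.finrank_fintype_fun_eq_card, Module.finrank_fintype_fun_eq_card,
      Fintype.card_coe, Fintype.card_coe]
    exact hq
  obtain ⟨c, hc1, hc2⟩ := (Submodule.ne_bot_iff _).mp (LinearMap.ker_ne_bot_of_finrank_lt hfin)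
  have hc0 : ∀ e : E, ∑ b, (tw p (P c b) (Q b e.1.1)).coeff e.1.2 = 0 := by
    intro e
    have h1 : φ c = 0 := LinearMap.mem_ker.mp hc1
    exact congrFun h1 e
  refine ⟨R, P c, hPop c, ?_, fun i => ?_⟩
  · by_contra hcon
    push Not at hcon
    refine hc2 (funext fun u => ?_)
    obtain ⟨⟨b, j⟩, hu⟩ := u
    have h1 := hPc c b j
    rw [hcon b, coeff_zero] at h1
    have h2 : cf c b j = c ⟨(b, j), hu⟩ := dif_pos ⟨j.2, hu⟩
    rw [h2] at h1
    exact h1.symm
  · ext n
    rw [finsetSum_coeff, coeff_zero]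
    by_contra hne
    obtain ⟨b, -, hb⟩ := Finset.exists_ne_zero_of_sum_ne_zero hne
    have hn : n < D + L + 1 := by
      by_contra hn
      refine hb (coeff_eq_zero_of_natDegree_lt ((tw_natDegree_le _ _).trans_lt ?_))
      have h1 : (P c b).natDegree ≤ D := by
        rw [natDegree_le_iff_coeff_eq_zero]
        intro j hj
        rw [hPc]
        exact hcf0 c b j hj
      have := hL b i
      omega
    have h1 := (IsOp.tw (hQ b i) (hPop c b)) n hb
    have h2 : ((i, (⟨n, hn⟩ : Fin (D + L + 1))) : ι × Fin (D + L + 1)) ∈ E := by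
      rw [hE, Finset.mem_filter]
      refine ⟨Finset.mem_univ _, QuotientAddGroup.eq.mpr ?_⟩
      simpa [add_comm, sub_eq_add_neg] using h1
    exact hne (hc0 ⟨_, h2⟩)

end Pool.Agent.TWM
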