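import Pool.Agent.Lib.TWM.B1
import Pool.Agent.Lib.TWM.Ore

/-!
# TANK W, M2: definitions for the case of a coordinate which is not of transcendental type

* `GB v b lam g`: the coefficients of `g` have values `≥ lam - m b`;
* `GB2 v y z ρ s lam P`: the same in two variables, at the point `(y, z)`, with the radii `ρ`, `s`;
* `SL p v F z r κ S A`: modulo `p`-th powers of polynomials, the Gauss value of `A` at the radius `r`
  is `κ`, and a coefficient of index `≤ S` is responsible for it;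
* `opP p M s r f`: an operator as polynomial;
* `Chg p G M N y z ρ s u w ρ' r`: an additive change of coordinates.
-/

set_option autoImplicit false

open Polynomial

namespace Pool.Agent.TWM

open Pool.Agent.H15JM (RVal)

universe u

variable {k Ω : Type u} [Field k] [Field Ω] [Algebra k Ω]

/-- The coefficients of `g` have values `≥ lam - m b`. -/
def GB (v : RVal Ω) (b lam : ℝ) (g : Polynomial Ω) : Prop :=
  ∀ m : ℕ, v.Ge (lam - m * b) (g.coeff m)

/-- The Hasse derivative of bidegree `(i, j)` at `(y, z)` (outer variable `Z`, inner variable `Y`). -/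
noncomputable def T2 (y z : Ω) (P : Polynomial (Polynomial Ω)) (i j : ℕ) : Ω :=
  (taylor y ((taylor (C z) P).coeff j)).coeff i

/-- The Gauss bound in two variables, at `(y, z)`, with the radii `ρ`, `s`. -/
def GB2 (v : RVal Ω) (y z : Ω) (ρ s lam : ℝ) (P : Polynomial (Polynomial Ω)) : Prop :=
  ∀ i j : ℕ, v.Ge (lam - i * ρ - j * s) (T2 y z P i j)

/-- Modulo `p`-th powers of polynomials over `F`, the Gauss value of `A` at the radius `r` is `κ`,
and a coefficient of index `≤ S` is responsible for it. -/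
structure SL (p : ℕ) (v : RVal Ω) (F : IntermediateField k Ω) (z : Ω) (r κ : ℝ) (S : ℕ)
    (A : Polynomial Ω) : Prop where
  mem : A ∈ PI F
  gt : Gt v r z
  lo : ∀ ε : ℝ, 0 < ε → ∃ g ∈ PI F, GB v r (κ - ε) (A - g ^ p)
  hi : ∀ e : ℝ, 0 < e → ∀ g ∈ PI F, ∃ m ≤ S, ¬ v.Ge (κ + e - m * r) ((A - g ^ p).coeff m)

/-- The operator `f` as polynomial. -/
noncomputable def opP (p : ℕ) (M : ℝ → Ω) (s r : ℝ) (f : Polynomial k) : Polynomial Ω :=
  f.sum fun j a => C (algebraMap k Ω a * M (r - (p : ℝ) ^ j * s)) * X ^ p ^ j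

theorem opP_eval (p : ℕ) (M : ℝ → Ω) (s r : ℝ) (f : Polynomial k) (w : Ω) :
    (opP p M s r f).eval w = ev p M s r f w := by
  rw [opP, ev, Polynomial.sum, Polynomial.sum, eval_finsetSum]
  refine Finset.sum_congr rfl fun j _ => ?_
  rw [eval_mul, eval_C, eval_pow, eval_X]

/-- Substitution of `f` for `Y` and of `g` for `Z`. -/
noncomputable def sub2 (f g : Polynomial (Polynomial Ω)) :
    Polynomial (Polynomial Ω) →+* Polynomial (Polynomial Ω) :=
  eval₂RingHom (eval₂RingHom (C.comp C) f) g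

theorem sub2_C (f g : Polynomial (Polynomial Ω)) (q : Polynomial Ω) :
    sub2 f g (C q) = q.eval₂ (C.comp C) f := by
  rw [sub2, coe_eval₂RingHom, eval₂_C, coe_eval₂RingHom]

theorem sub2_X (f g : Polynomial (Polynomial Ω)) : sub2 f g X = g := by
  rw [sub2, coe_eval₂RingHom, eval₂_X]

/-- Evaluation after a substitution. -/
theorem sub2_evalEval (f g P : Polynomial (Polynomial Ω)) (u w : Ω) :
    (sub2 f g P).evalEval u w = P.evalEval (f.evalEval u w) (g.evalEval u w) := by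
  have h2 : ∀ q : Polynomial Ω, (q.eval₂ (C.comp C) f).evalEval u w =
      q.eval (f.evalEval u w) := by
    intro q
    induction q using Polynomial.induction_on' with
    | add q₁ q₂ h₁ h₂ => rw [eval₂_add, evalEval_add, h₁, h₂, eval_add]
    | monomial n c =>
      rw [eval₂_monomial, eval_monomial, evalEval_mul, evalEval_pow]
      congr 1
      simp only [RingHom.comp_apply, evalEval_C, eval_C]
  induction P using Polynomial.induction_on' with
  | add P Q h₁ h₂ => rw [map_add, evalEval_add, h₁, h₂, evalEval_add]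
  | monomial n q =>
    rw [← C_mul_X_pow_eq_monomial, map_mul, map_pow, sub2_C, sub2_X, evalEval_mul, evalEval_pow,
      evalEval_mul, evalEval_pow, h2, evalEval_C, evalEval_X]

/-- `(u, w) = (γ(y) + δ(z) + n₁, α(y) + β(z) + n₂)`, an invertible additive change of coordinates
(homogeneous operators, constants of `N`). -/
structure Chg (p : ℕ) [Fact p.Prime] [CharP k p] (G : AddSubgroup ℝ) (M : ℝ → Ω)
    (N : IntermediateField k Ω) (y z : Ω) (ρ s : ℝ) (u w : Ω) (ρ' r : ℝ) where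
  (γ δ α β a b c d : Polynomial k)
  (n₁ n₂ n₃ n₄ : Ω)
  hγ : IsOp p G ρ ρ' γ
  hδ : IsOp p G s ρ' δ
  hα : IsOp p G ρ r α
  hβ : IsOp p G s r β
  ha : IsOp p G ρ' ρ a
  hb : IsOp p G r ρ b
  hc : IsOp p G ρ' s c
  hd : IsOp p G r s d
  hn₁ : n₁ ∈ N
  hn₂ : n₂ ∈ N
  hn₃ : n₃ ∈ N
  hn₄ : n₄ ∈ N
  hu : u = ev p M ρ ρ' γ y + ev p M s ρ' δ z + n₁
  hw : w = ev p M ρ r α y + ev p M s r β z + n₂
  hy : y = ev p M ρ' ρ a u + ev p M r ρ b w + n₃
  hz : z = ev p M ρ' s c u + ev p M r s d w + n₄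
  i₁₁ : tw p γ a + tw p δ c = 1
  i₁₂ : tw p γ b + tw p δ d = 0
  i₂₁ : tw p α a + tw p β c = 0
  i₂₂ : tw p α b + tw p β d = 1
  j₁₁ : tw p a γ + tw p b α = 1
  j₁₂ : tw p a δ + tw p b β = 0
  j₂₁ : tw p c γ + tw p d α = 0
  j₂₂ : tw p c δ + tw p d β = 1

namespace Chg

variable {p : ℕ} [Fact p.Prime] [CharP k p] {G : AddSubgroup ℝ} {M : ℝ → Ω}
  {N : IntermediateField k Ω} {y z : Ω} {ρ s : ℝ} {u w : Ω} {ρ' r : ℝ}

/-- `y` as polynomial in `u`, `w`. -/
noncomputable def pY (H : Chg p G M N y z ρ s u w ρ' r) : Polynomial (Polynomial Ω) :=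
  C (opP p M ρ' ρ H.a) + (opP p M r ρ H.b).map C + C (C H.n₃)

/-- `z` as polynomial in `u`, `w`. -/
noncomputable def pZ (H : Chg p G M N y z ρ s u w ρ' r) : Polynomial (Polynomial Ω) :=
  C (opP p M ρ' s H.c) + (opP p M r s H.d).map C + C (C H.n₄)

/-- A polynomial in `(y, z)` as polynomial in `(u, w)`. -/
noncomputable def tr (H : Chg p G M N y z ρ s u w ρ' r) :
    Polynomial (Polynomial Ω) →+* Polynomial (Polynomial Ω) := sub2 H.pY H.pZ

/-- The inverse change. -/
def symm (H : Chg p G M N y z ρ s u w ρ' r) : Chg p G M N u w ρ' r y z ρ s where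
  γ := H.a
  δ := H.b
  α := H.c
  β := H.d
  a := H.γ
  b := H.δ
  c := H.α
  d := H.β
  n₁ := H.n₃
  n₂ := H.n₄
  n₃ := H.n₁
  n₄ := H.n₂
  hγ := H.ha
  hδ := H.hb
  hα := H.hc
  hβ := H.hd
  ha := H.hγ
  hb := H.hδ
  hc := H.hα
  hd := H.hβ
  hn₁ := H.hn₃
  hn₂ := H.hn₄
  hn₃ := H.hn₁
  hn₄ := H.hn₂
  hu := H.hy
  hw := H.hz
  hy := H.hu
  hz := H.hw
  i₁₁ := H.j₁₁
  i₁₂ := H.j₁₂
  i₂₁ := H.j₂₁
  i₂₂ := H.j₂₂
  j₁₁ := H.i₁₁
  j₁₂ := H.i₁₂
  j₂₁ := H.i₂₁
  j₂₂ := H.i₂₂

end Chg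

/-- The derivative with respect to the inner variable `Y`. -/
noncomputable def dY (P : Polynomial (Polynomial Ω)) : Polynomial (Polynomial Ω) :=
  P.sum fun j f => C (derivative f) * X ^ j

theorem dY_coeff (P : Polynomial (Polynomial Ω)) (j : ℕ) :
    (dY P).coeff j = derivative (P.coeff j) := by
  rw [dY, Polynomial.sum, finsetSum_coeff]
  simp only [coeff_C_mul_X_pow]
  rw [Finset.sum_ite_eq]
  split_ifs with h
  · rfl
  · rw [notMem_support_iff.1 h, derivative_zero]

end Pool.Agent.TWM
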