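import Pool.Agent.Lib.TWM.A2

/-!
# TANK W, M2, block B: stability

`Fib.stab`: if `B` is the closure of `A(y, z)` and `y'` is an element of `B` nearer to `y` than the
radius of `y`, then `B` is the closure of `A(y', z')`, `z' = z - ψ(y) + ψ(y')` with `ψ(y)` near `z`.

Proof (`ψ = 0`): `P(y', z)` is nearer to `P(y, z)` than its value, for every polynomial `P` in two
variables over `A` (`key`); so the types do not change, and every element of `B` is the limit of
elements of the closure of `A(y', z)`.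
-/

set_option autoImplicit false

open Polynomial

namespace Pool.Agent.TWM

open Pool.Agent.H15JM (RVal)
open Pool.Agent.LU1 (VPos adj)
open Pool.Agent.LUC (Cl clF)
open Pool.Agent.D2 (Ctx0)
open Pool.Agent.D2P (hen clI mem_clI adj_le mem_adj_self)

universe u

variable {k Ω : Type u} [Field k] [Field Ω] [Algebra k Ω] {v : RVal Ω}


theorem eval_taylor (f : Polynomial Ω) (y y' : Ω) :
    f.eval y' = ∑ l ∈ Finset.range (f.natDegree + 1), (taylor y f).coeff l * (y' - y) ^ l := by
  have h1 := taylor_eval y f (y' - y)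
  rw [sub_add_cancel] at h1
  rw [← h1, eval_eq_sum_range, natDegree_taylor]

/-- strictness of `g` at `z` -/
def StrE (v : RVal Ω) (z : Ω) (s : ℝ) (g : Polynomial Ω) : Prop :=
  g.eval z ≠ 0 ∧ ∀ l, 1 ≤ l → (taylor z g).coeff l ≠ 0 →
    v (g.eval z) < v ((taylor z g).coeff l) + l * s

theorem TL.strE [IsAlgClosed Ω] {A : IntermediateField k Ω} {z : Ω} {s : ℝ} (hT : TL v A z s)
    {f : Polynomial Ω} (hf : f ∈ PI A) (hf0 : f ≠ 0) : StrE v z s f := by
  refine ⟨hT.eval_ne (PI_mono (le_algc A) hf) hf0, fun l hl hl0 => ?_⟩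
  have := hT.strict (PI_mono (le_algc A) hf) hf0 hl hl0
  linarith

variable [IsAlgClosed Ω]

/-- the nonstrict form of (T) -/
theorem TL.nonstrict {A : IntermediateField k Ω} {z : Ω} {s : ℝ} (hT : TL v A z s)
    {f : Polynomial Ω} (hf : f ∈ PI A) (l : ℕ) :
    v.Ge (v (f.eval z) - l * s) ((taylor z f).coeff l) := by
  by_cases hf0 : f = 0
  · rw [hf0, _root_.map_zero, coeff_zero]
    exact RVal.Ge.zero
  · exact hT.weak (PI_mono (le_algc A) hf) hf0 l

theorem TL.diff {A : IntermediateField k Ω} {y y' : Ω} {ρ κ : ℝ} (hT : TL v A y ρ)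
    (hκ : 0 ≤ κ) (hy : v.Ge (ρ + κ) (y' - y)) {f : Polynomial Ω} (hf : f ∈ PI A) :
    v.Ge (v (f.eval y) + κ) (f.eval y' - f.eval y) := by
  have h1 : f.eval y' - f.eval y =
      ∑ l ∈ Finset.range f.natDegree, (taylor y f).coeff (l + 1) * (y' - y) ^ (l + 1) := by
    rw [eval_taylor f y y', Finset.sum_range_succ', taylor_coeff_zero, pow_zero, mul_one,
      add_sub_cancel_right]
  rw [h1]
  refine RVal.Ge.sum _ _ fun l _ => ?_
  refine ((hT.nonstrict hf (l + 1)).mul (ge_pow hy (l + 1))).mono ?_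
  push_cast
  nlinarith [mul_nonneg (Nat.cast_nonneg (α := ℝ) l) hκ]

/-- the Taylor coefficients near `z` -/
theorem TL.near_coeff {A : IntermediateField k Ω} {z ψ : Ω} {s τ : ℝ} (hT : TL v A z s)
    (hτ : 0 ≤ τ) (hψ : v.Ge (s - τ) (ψ - z)) {f : Polynomial Ω} (hf : f ∈ PI A) {d : ℕ}
    (hd : f.natDegree ≤ d) (j : ℕ) :
    v.Ge (v (f.eval z) - j * s - d * τ) ((taylor ψ f).coeff j) := by
  have h1 : taylor ψ f = taylor (ψ - z) (taylor z f) := by
    rw [taylor_taylor, sub_add_cancel]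
  rw [h1, taylor_coeff, eval_eq_sum_range (p := hasseDeriv j (taylor z f))]
  refine RVal.Ge.sum _ _ fun l hl => ?_
  rw [hasseDeriv_coeff]
  by_cases hc : (taylor z f).coeff (l + j) = 0
  · rw [hc, mul_zero, zero_mul]
    exact RVal.Ge.zero
  have hlj : l + j ≤ d := by
    have := le_natDegree_of_ne_zero (p := taylor z f) hc
    rw [natDegree_taylor] at this
    exact this.trans hd
  have h0 : v.Ge 0 (((l + j).choose j : ℕ) : Ω) := ge_natCast v _
  refine ((h0.mul (hT.nonstrict hf (l + j))).mul (ge_pow hψ l)).mono ?_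
  have h2 : (l : ℝ) ≤ d := by exact_mod_cast (Nat.le_of_add_right_le hlj)
  push_cast
  nlinarith [mul_nonneg (sub_nonneg.2 h2) hτ]

theorem TL.exists_psi {A : IntermediateField k Ω} {y z : Ω} {ρ s : ℝ}
    (hy : TL v A y ρ) (hz : Lim v (cadj v A y) s z) {ε : ℝ} (hε : 0 < ε) :
    ∃ ψ ∈ PI A, v.Ge (s - ε) (z - ψ.eval y) := by
  obtain ⟨e, he, h1⟩ := hz ε hε
  obtain ⟨ψ, hψ, h2⟩ := hy.dense he (s - ε)
  exact ⟨ψ, hψ, by rw [← sub_add_sub_cancel z e]; exact h1.add h2⟩


/-- the polynomials in `Y, Z` with coefficients in `A` -/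
def PII (A : IntermediateField k Ω) (P : Polynomial (Polynomial Ω)) : Prop := ∀ j, P.coeff j ∈ PI A

omit [IsAlgClosed Ω] in
theorem evalEval_eq_sum (P : Polynomial (Polynomial Ω)) (ψ : Polynomial Ω) (y z : Ω) :
    P.evalEval y z = ∑ j ∈ Finset.range (P.natDegree + 1),
      ((taylor ψ P).coeff j).eval y * (z - ψ.eval y) ^ j := by
  have h1 : P.eval (C z) = (taylor ψ P).eval (C z - ψ) := by
    rw [taylor_eval, sub_add_cancel]
  rw [evalEval, h1, eval_eq_sum_range (p := taylor ψ P), natDegree_taylor, eval_finsetSum]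
  refine Finset.sum_congr rfl fun j _ => ?_
  rw [eval_mul, eval_pow, eval_sub, eval_C]

omit [IsAlgClosed Ω] in
theorem PII.taylor {A : IntermediateField k Ω} {P : Polynomial (Polynomial Ω)} (hP : PII A P)
    {ψ : Polynomial Ω} (hψ : ψ ∈ PI A) : PII A (taylor ψ P) := by
  intro j
  rw [taylor_coeff, eval_eq_sum_range]
  refine sum_mem fun l _ => mul_mem ?_ (pow_mem hψ _)
  rw [hasseDeriv_coeff]
  exact mul_mem (natCast_mem _ _) (hP _)

omit [IsAlgClosed Ω] in
theorem eval_mem_adj {A : IntermediateField k Ω} {f : Polynomial Ω} (hf : f ∈ PI A) (y : Ω) :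
    f.eval y ∈ adj A y := by
  rw [eval_eq_sum_range]
  exact sum_mem fun i _ => mul_mem ((mem_adj_self A y).2 (hf i)) (pow_mem (mem_adj_self A y).1 _)

omit [IsAlgClosed Ω] in
theorem le_clI (E : IntermediateField k Ω) : E ≤ clI v E := fun _ ha => LUC.Cl.subset ha

omit [IsAlgClosed Ω] in
theorem PII.map {A : IntermediateField k Ω} {P : Polynomial (Polynomial Ω)} (hP : PII A P) (y : Ω) :
    P.map (evalRingHom y) ∈ PI (cadj v A y) := by
  intro j
  rw [coeff_map, coe_evalRingHom]
  exact le_clI _ (eval_mem_adj (hP j) y)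

theorem key {A : IntermediateField k Ω} {y z y' : Ω} {ρ s κ κ' : ℝ}
    (hy : TL v A y ρ) (hz : TL v (cadj v A y) z s) (hκ' : 0 < κ') (hκ : κ' < κ)
    (hyy : v.Ge (ρ + κ) (y' - y)) (hzz : v.Ge (s - κ + κ') z) {P : Polynomial (Polynomial Ω)}
    (hP : PII A P) :
    v.Ge (v (P.evalEval y z) + κ' / 2) (P.evalEval y' z - P.evalEval y z) := by
  set d := P.natDegree with hd
  obtain ⟨τ, hτ0, hτ1, hτ2⟩ : ∃ τ : ℝ, 0 < τ ∧ τ ≤ κ - κ' ∧ 2 * (d * τ) ≤ κ' / 2 := by
    refine ⟨min (κ - κ') (κ' / (4 * (d + 1))), ?_, min_le_left _ _, ?_⟩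
    · exact lt_min (sub_pos.2 hκ) (by positivity)
    · have h1 : min (κ - κ') (κ' / (4 * (d + 1))) ≤ κ' / (4 * (d + 1)) := min_le_right _ _
      have h2 : (d : ℝ) * (κ' / (4 * (d + 1))) ≤ κ' / 4 := by
        rw [mul_div_assoc', div_le_div_iff₀ (by positivity) (by norm_num)]
        nlinarith
      nlinarith [mul_le_mul_of_nonneg_left h1 (Nat.cast_nonneg (α := ℝ) d)]
  obtain ⟨ψ, hψ, h1⟩ := hy.exists_psi hz.lim hτ0
  set f := P.map (evalRingHom y) with hf
  have hfE : f ∈ PI (cadj v A y) := hP.map y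
  have hfz : f.eval z = P.evalEval y z := map_evalRingHom_eval y z P
  have hfd : f.natDegree ≤ d := natDegree_map_le
  have hQ := hP.taylor hψ
  -- the coefficients
  have hc : ∀ j, ((taylor ψ P).coeff j).eval y = (taylor (ψ.eval y) f).coeff j := by
    intro j
    rw [hf, ← coe_evalRingHom y, ← map_taylor, coeff_map]
  have hcv : ∀ j : ℕ, v.Ge (v (P.evalEval y z) - j * s - d * τ) (((taylor ψ P).coeff j).eval y) := by
    intro j
    rw [hc, ← hfz]
    refine hz.near_coeff hτ0.le ?_ hfE hfd j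
    rw [← neg_sub z]
    exact h1.neg
  have hcv' : ∀ j : ℕ, v.Ge (v (P.evalEval y z) - j * s - d * τ + κ)
      (((taylor ψ P).coeff j).eval y' - ((taylor ψ P).coeff j).eval y) := by
    intro j h0
    by_cases h00 : ((taylor ψ P).coeff j).eval y = 0
    · have h2 : (taylor ψ P).coeff j = 0 := by
        by_contra hne
        exact (hy.strE (hQ j) hne).1 h00
      rw [h2] at h0
      simp at h0
    · have h2 := hy.diff (hκ'.le.trans hκ.le) hyy (hQ j) h0
      have h3 := hcv j h00
      linarith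
  -- `ζ = z - ψ(y)`, `ζ' = z - ψ(y')`
  have hψ1 : v.Ge (s - κ + κ') (ψ.eval y) := by
    have h2 : ψ.eval y = z - (z - ψ.eval y) := by ring
    rw [h2]
    exact hzz.sub (h1.mono (by linarith))
  have hζ : v.Ge (s + κ') ((z - ψ.eval y') - (z - ψ.eval y)) := by
    have h2 : (z - ψ.eval y') - (z - ψ.eval y) = -(ψ.eval y' - ψ.eval y) := by ring
    rw [h2]
    intro h0
    rw [v.map_neg _ (neg_ne_zero.1 h0)]
    by_cases h00 : ψ.eval y = 0
    · have h4 : ψ = 0 := by
        by_contra hne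
        exact (hy.strE hψ hne).1 h00
      rw [h4] at h0
      simp at h0
    have h3 := hy.diff (hκ'.le.trans hκ.le) hyy hψ (neg_ne_zero.1 h0)
    have h4 := hψ1 h00
    linarith
  have hζ' : v.Ge (s - τ) (z - ψ.eval y') := by
    have h2 : z - ψ.eval y' = (z - ψ.eval y) + ((z - ψ.eval y') - (z - ψ.eval y)) := by ring
    rw [h2]
    exact h1.add (hζ.mono (by linarith))
  rw [evalEval_eq_sum P ψ y' z, evalEval_eq_sum P ψ y z, ← Finset.sum_sub_distrib]
  refine RVal.Ge.sum _ _ fun j hj => ?_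
  have hjd : (j : ℝ) ≤ d := by exact_mod_cast Nat.lt_succ_iff.1 (Finset.mem_range.1 hj)
  have e1 : ((taylor ψ P).coeff j).eval y' * (z - ψ.eval y') ^ j -
      ((taylor ψ P).coeff j).eval y * (z - ψ.eval y) ^ j =
      (((taylor ψ P).coeff j).eval y' - ((taylor ψ P).coeff j).eval y) * (z - ψ.eval y') ^ j +
      ((taylor ψ P).coeff j).eval y * ((z - ψ.eval y') ^ j - (z - ψ.eval y) ^ j) := by ring
  rw [e1]
  have h3 : (j : ℝ) * τ ≤ d * τ := mul_le_mul_of_nonneg_right hjd hτ0.le
  refine RVal.Ge.add (((hcv' j).mul (ge_pow hζ' j)).mono ?_) ?_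
  · rw [← evalEval_eq_sum P ψ y z]
    linarith
  · rw [← evalEval_eq_sum P ψ y z]
    cases j with
    | zero =>
      rw [pow_zero, pow_zero, sub_self, mul_zero]
      exact RVal.Ge.zero
    | succ j =>
      have e2 : v.Ge (j * (s - τ)) (∑ i ∈ Finset.range (j + 1),
          (z - ψ.eval y') ^ i * (z - ψ.eval y) ^ (j + 1 - 1 - i)) := by
        refine RVal.Ge.sum _ _ fun i hi => ?_
        refine ((ge_pow hζ' i).mul (ge_pow h1 _)).mono ?_
        have h4 : j + 1 - 1 - i = j - i := rfl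
        rw [h4, Nat.cast_sub (Nat.lt_succ_iff.1 (Finset.mem_range.1 hi))]
        linarith
      rw [← geom_sum₂_mul]
      refine ((hcv (j + 1)).mul (e2.mul hζ)).mono ?_
      push_cast at h3 ⊢
      linarith


section main

variable {A : IntermediateField k Ω} {y z y' : Ω} {ρ s κ κ' : ℝ}


/-- the values do not change -/
theorem key_val (hy : TL v A y ρ) (hz : TL v (cadj v A y) z s) (hκ' : 0 < κ') (hκ : κ' < κ)
    (hyy : v.Ge (ρ + κ) (y' - y)) (hzz : v.Ge (s - κ + κ') z) {P : Polynomial (Polynomial Ω)}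
    (hP : PII A P) (hP0 : P ≠ 0) :
    P.evalEval y z ≠ 0 ∧ P.evalEval y' z ≠ 0 ∧ v (P.evalEval y' z) = v (P.evalEval y z) := by
  have h1 : P.map (evalRingHom y) ≠ 0 := by
    intro h0
    apply hP0
    ext1 j
    by_contra hne
    have h2 := (hy.strE (hP j) hne).1
    apply h2
    have h3 := congrArg (fun g => g.coeff j) h0
    simpa using h3
  have h2 : P.evalEval y z ≠ 0 := by
    rw [← map_evalRingHom_eval]
    exact (hz.strE (hP.map y) h1).1
  have h3 := key hy hz hκ' hκ hyy hzz hP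
  by_cases h0 : P.evalEval y' z - P.evalEval y z = 0
  · rw [sub_eq_zero] at h0
    rw [h0]
    exact ⟨h2, h2, rfl⟩
  · have h4 := h3 h0
    have h5 := v.add_of_lt h2 h0 (by linarith)
    rw [add_sub_cancel] at h5
    exact ⟨h2, h5.1, h5.2⟩

end main

section main

variable {A : IntermediateField k Ω} {y z y' : Ω} {ρ s κ κ' : ℝ}

omit [IsAlgClosed Ω] in
theorem TL.move (hy : TL v A y ρ) (hκ : 0 < κ) (hyy : v.Ge (ρ + κ) (y' - y)) : TL v A y' ρ where
  lim := by
    intro ε hε
    obtain ⟨a, ha, h1⟩ := hy.lim ε hε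
    refine ⟨a, ha, ?_⟩
    rw [← sub_add_sub_cancel y' y a]
    exact (hyy.mono (by linarith)).add h1
  far := by
    intro θ hθ
    obtain ⟨h1, h2⟩ := hy.far θ hθ
    have h1' : y - θ ≠ 0 := sub_ne_zero.2 h1
    by_cases h0 : y' - y = 0
    · rw [sub_eq_zero] at h0
      rw [h0]
      exact ⟨h1, h2⟩
    · have h3 := hyy h0
      have h4 := v.add_of_lt h1' h0 (by linarith)
      have h5 : y - θ + (y' - y) = y' - θ := by ring
      rw [h5] at h4
      exact ⟨sub_ne_zero.1 h4.1, by rw [h4.2]; exact h2⟩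

end main

omit [IsAlgClosed Ω] in
theorem StrE.far {z θ : Ω} {s : ℝ} {g : Polynomial Ω} (hg : StrE v z s g) (hθ : g.eval θ = 0) :
    z ≠ θ ∧ v (z - θ) < s := by
  have hne : z ≠ θ := by
    rintro rfl
    exact hg.1 hθ
  refine ⟨hne, ?_⟩
  by_contra hcon
  push Not at hcon
  have h1 := eval_taylor g z θ
  rw [hθ, Finset.sum_range_succ', taylor_coeff_zero, pow_zero, mul_one] at h1
  have hne' : θ - z ≠ 0 := sub_ne_zero.2 hne.symm
  have hv : v (θ - z) = v (z - θ) := by rw [← neg_sub, v.map_neg _ (sub_ne_zero.2 hne)]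
  set S := ∑ l ∈ Finset.range g.natDegree, (taylor z g).coeff (l + 1) * (θ - z) ^ (l + 1) with hS
  have h2 : S ≠ 0 := by
    intro h0
    rw [h0, zero_add] at h1
    exact hg.1 h1.symm
  have h3 : v S = v (g.eval z) := by
    have : S = -(g.eval z) := by linear_combination -h1
    rw [this, v.map_neg _ hg.1]
  obtain ⟨c, hc, hc'⟩ : ∃ c, v (g.eval z) < c ∧ ∀ l ∈ Finset.range g.natDegree,
      v.Ge c ((taylor z g).coeff (l + 1) * (θ - z) ^ (l + 1)) := by
    have hfin : ∀ T : Finset ℕ, ∃ c, v (g.eval z) < c ∧ ∀ l ∈ T,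
        v.Ge c ((taylor z g).coeff (l + 1) * (θ - z) ^ (l + 1)) := by
      intro T
      induction T using Finset.induction_on with
      | empty => exact ⟨v (g.eval z) + 1, by linarith, by simp⟩
      | insert a T ha ih =>
        obtain ⟨c, h4, h5⟩ := ih
        by_cases h0 : (taylor z g).coeff (a + 1) = 0
        · refine ⟨c, h4, fun l hl => ?_⟩
          rcases Finset.mem_insert.1 hl with rfl | hl
          · rw [h0, zero_mul]
            exact RVal.Ge.zero
          · exact h5 l hl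
        · have h6 := hg.2 (a + 1) (by omega) h0
          refine ⟨min c (v ((taylor z g).coeff (a + 1)) + (a + 1 : ℕ) * s), lt_min h4 h6,
            fun l hl => ?_⟩
          rcases Finset.mem_insert.1 hl with rfl | hl
          · intro _
            rw [v.map_mul h0 (pow_ne_zero _ hne'), v.map_pow hne', hv]
            refine (min_le_right _ _).trans ?_
            have h7 : (0 : ℝ) ≤ ((l + 1 : ℕ) : ℝ) := Nat.cast_nonneg _
            have := mul_le_mul_of_nonneg_left hcon h7
            linarith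
          · exact (h5 l hl).mono (min_le_left _ _)
    exact hfin _
  have h4 := RVal.Ge.sum _ _ hc' h2
  rw [← hS] at h4
  linarith

omit [IsAlgClosed Ω] in
theorem taylor_coeff_ge {e : Polynomial Ω} {d : ℕ} (hd : e.natDegree ≤ d) {c : ℝ}
    (he : ∀ i, v.Ge c (e.coeff i)) (z : Ω) (l : ℕ) :
    v.Ge (c - d * |v z|) ((taylor z e).coeff l) := by
  rw [taylor_coeff, eval_eq_sum_range]
  refine RVal.Ge.sum _ _ fun i hi => ?_
  rw [hasseDeriv_coeff]
  by_cases hc : e.coeff (i + l) = 0
  · rw [hc, mul_zero, zero_mul]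
    exact RVal.Ge.zero
  have hil : i ≤ d := (Nat.le_of_add_right_le (le_natDegree_of_ne_zero hc)).trans hd
  have h0 : v.Ge 0 (((i + l).choose l : ℕ) : Ω) := ge_natCast v _
  refine ((h0.mul (he _)).mul (ge_pow (RVal.ge_self z) i)).mono ?_
  have h1 : (i : ℝ) ≤ d := by exact_mod_cast hil
  have h2 := mul_le_mul_of_nonneg_right h1 (abs_nonneg (v z))
  have h3 := mul_le_mul_of_nonneg_left (neg_abs_le (v z)) (Nat.cast_nonneg (α := ℝ) i)
  linarith

omit [IsAlgClosed Ω] in
theorem StrE.approx {z : Ω} {s : ℝ} {g : Polynomial Ω} (hg0 : g ≠ 0)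
    (hg : ∀ c : ℝ, ∃ f : Polynomial Ω, f.natDegree ≤ g.natDegree ∧
      (∀ i, v.Ge c ((g - f).coeff i)) ∧ (f ≠ 0 → StrE v z s f)) : StrE v z s g := by
  set d := g.natDegree with hd
  have hlead : g.coeff d ≠ 0 := by
    rw [hd, coeff_natDegree]
    exact leadingCoeff_ne_zero.2 hg0
  set M := v (g.coeff d) + d * s with hM
  obtain ⟨f, hf1, hf2, hf3⟩ := hg (|M| + 1 + |v (g.coeff d)| + d * |s| + d * |v z|)
  have hd0 : (0 : ℝ) ≤ d := Nat.cast_nonneg _
  have hds := mul_nonneg hd0 (abs_nonneg s)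
  have hdz := mul_nonneg hd0 (abs_nonneg (v z))
  have he : (g - f).natDegree ≤ d := (natDegree_sub_le _ _).trans (max_le le_rfl hf1)
  have he1 : ∀ l, v.Ge (|M| + 1 + |v (g.coeff d)| + d * |s|) ((taylor z (g - f)).coeff l) := fun l =>
    (taylor_coeff_ge he hf2 z l).mono (by linarith)
  -- the leading coefficient
  have hfd : f.coeff d ≠ 0 ∧ v (f.coeff d) = v (g.coeff d) := by
    have h1 := hf2 d
    rw [coeff_sub] at h1
    by_cases h0 : g.coeff d - f.coeff d = 0
    · rw [sub_eq_zero] at h0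
      rw [← h0]
      exact ⟨hlead, rfl⟩
    · have h2 := h1 h0
      have h3 := v.add_of_lt hlead (neg_ne_zero.2 h0) (by
        rw [v.map_neg _ h0]
        have := le_abs_self (v (g.coeff d))
        have := abs_nonneg M
        linarith)
      have h4 : g.coeff d + -(g.coeff d - f.coeff d) = f.coeff d := by ring
      rw [h4] at h3
      exact h3
  have hf0 : f ≠ 0 := by
    rintro rfl
    exact hfd.1 (coeff_zero d)
  have hfdeg : f.natDegree = d := le_antisymm hf1 (le_natDegree_of_ne_zero hfd.1)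
  have hS := hf3 hf0
  -- `v (f z) ≤ M`
  have hfM : v (f.eval z) ≤ M := by
    rcases Nat.eq_zero_or_pos d with h0 | h0
    · have h1 : f.eval z = f.coeff d := by
        rw [h0] at hfdeg ⊢
        rw [eq_C_of_natDegree_eq_zero hfdeg]
        simp
      rw [h1, hfd.2, hM, h0]
      simp
    · have h1 : (taylor z f).coeff d = f.coeff d := by
        rw [← hfdeg, coeff_taylor_natDegree, coeff_natDegree]
      have h2 := hS.2 d h0 (by rw [h1]; exact hfd.1)
      rw [h1, hfd.2] at h2
      exact h2.le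
  have hadd : ∀ l, (taylor z g).coeff l = (taylor z f).coeff l + (taylor z (g - f)).coeff l := by
    intro l
    rw [map_sub, coeff_sub]
    ring
  have hMl := le_abs_self M
  have hvl := abs_nonneg (v (g.coeff d))
  have hg1 : g.eval z ≠ 0 ∧ v (g.eval z) = v (f.eval z) := by
    have h1 := hadd 0
    have h2 := he1 0
    rw [taylor_coeff_zero, taylor_coeff_zero] at h1
    by_cases h0 : (taylor z (g - f)).coeff 0 = 0
    · rw [h0, add_zero] at h1
      rw [h1]
      exact ⟨hS.1, rfl⟩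
    · have h3 := v.add_of_lt hS.1 h0 (by
        have := h2 h0
        linarith)
      rw [← h1] at h3
      exact h3
  refine ⟨hg1.1, fun l hl hl0 => ?_⟩
  rw [hg1.2]
  have hld : l ≤ d := by
    have := le_natDegree_of_ne_zero hl0
    rwa [natDegree_taylor] at this
  have hls : -(d * |s|) ≤ l * s := by
    have h1 : (l : ℝ) ≤ d := by exact_mod_cast hld
    have h2 := mul_le_mul_of_nonneg_right h1 (abs_nonneg s)
    have h3 := mul_le_mul_of_nonneg_left (neg_abs_le s) (Nat.cast_nonneg (α := ℝ) l)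
    linarith
  have h1 := he1 l
  by_cases h0 : (taylor z (g - f)).coeff l = 0
  · rw [hadd l, h0, add_zero] at hl0 ⊢
    exact hS.2 l hl hl0
  have h2 := h1 h0
  by_cases h00 : (taylor z f).coeff l = 0
  · rw [hadd l, h00, zero_add]
    linarith
  have h3 := hS.2 l hl h00
  have h4 := v.map_add h00 h0 (by rw [← hadd l]; exact hl0)
  rw [← hadd l] at h4
  rcases min_le_iff.1 h4 with h5 | h5
  · linarith
  · linarith

section main

variable {A : IntermediateField k Ω} {y z y' : Ω} {ρ s κ κ' : ℝ}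


theorem key_str (hy : TL v A y ρ) (hz : TL v (cadj v A y) z s) (hκ' : 0 < κ') (hκ : κ' < κ)
    (hyy : v.Ge (ρ + κ) (y' - y)) (hzz : v.Ge (s - κ + κ') z) {P : Polynomial (Polynomial Ω)}
    (hP : PII A P) (hP0 : P ≠ 0) : StrE v z s (P.map (evalRingHom y')) := by
  have hH : ∀ l, PII A (hasseDeriv l P) := by
    intro l j
    rw [hasseDeriv_coeff]
    exact mul_mem (natCast_mem _ _) (hP _)
  have hT : ∀ (w : Ω) (l : ℕ), (taylor z (P.map (evalRingHom w))).coeff l =
      (hasseDeriv l P).evalEval w z := by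
    intro w l
    have h1 := map_taylor P (C z) (evalRingHom w)
    rw [coe_evalRingHom, eval_C] at h1
    rw [← h1, coeff_map, taylor_coeff]
    rfl
  obtain ⟨h1, h2, h3⟩ := key_val hy hz hκ' hκ hyy hzz hP hP0
  refine ⟨by rw [map_evalRingHom_eval]; exact h2, fun l hl hl0 => ?_⟩
  rw [hT] at hl0 ⊢
  have hl1 : hasseDeriv l P ≠ 0 := by
    intro h0
    rw [h0] at hl0
    simp at hl0
  obtain ⟨h4, h5, h6⟩ := key_val hy hz hκ' hκ hyy hzz (hH l) hl1
  rw [map_evalRingHom_eval, h3, h6]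
  have h7 : P.map (evalRingHom y) ≠ 0 := by
    intro h0
    rw [← map_evalRingHom_eval, h0, eval_zero] at h1
    exact h1 rfl
  have h8 := (hz.strE (hP.map y) h7).2 l hl
  rw [hT, map_evalRingHom_eval] at h8
  exact h8 h4

theorem TL.moveZ (hy : TL v A y ρ) (hz : TL v (cadj v A y) z s) (hκ' : 0 < κ') (hκ : κ' < κ)
    (hyy : v.Ge (ρ + κ) (y' - y)) (hzz : v.Ge (s - κ + κ') z) : TL v (cadj v A y') z s where
  lim := by
    intro ε hε
    obtain ⟨ψ, hψ, h1⟩ := hy.exists_psi hz.lim hε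
    refine ⟨ψ.eval y', le_clI _ (eval_mem_adj hψ y'), ?_⟩
    have hP : PII A (X - C ψ) := by
      intro j
      rw [coeff_sub]
      refine sub_mem ?_ ?_
      · rw [coeff_X]
        split_ifs
        exacts [one_mem _, zero_mem _]
      · rw [coeff_C]
        split_ifs
        exacts [hψ, zero_mem _]
    have h2 := key_val hy hz hκ' hκ hyy hzz hP (X_sub_C_ne_zero ψ)
    have hev : ∀ w, (X - C ψ).evalEval w z = z - ψ.eval w := by
      intro w
      rw [evalEval_sub, evalEval_X, evalEval_C]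
    rw [hev, hev] at h2
    intro h3
    rw [h2.2.2]
    exact h1 h2.1
  far := by
    intro θ hθ
    have hy' := hy.move (hκ'.trans hκ) hyy
    set E' := cadj v A y' with hE'
    have hint : IsIntegral E' θ := hθ.isIntegral
    set g := (minpoly E' θ).map (algebraMap E' Ω) with hg
    have hg0 : g ≠ 0 := by
      rw [hg, Ne, Polynomial.map_eq_zero]
      exact minpoly.ne_zero hint
    have hgθ : g.eval θ = 0 := by
      rw [hg, eval_map_algebraMap, minpoly.aeval]
    have hgE : ∀ i, g.coeff i ∈ E' := by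
      intro i
      rw [hg, coeff_map]
      exact (((minpoly E' θ).coeff i)).2
    refine StrE.far (StrE.approx hg0 fun c => ?_) hgθ
    choose f hf hfc using fun i => hy'.dense (hgE i) c
    let P : Polynomial (Polynomial Ω) := ∑ i ∈ Finset.range (g.natDegree + 1), C (f i) * X ^ i
    have hPc : ∀ i, P.coeff i = if i < g.natDegree + 1 then f i else 0 := by
      intro i
      simp only [P, finsetSum_coeff, coeff_C_mul_X_pow]
      rw [Finset.sum_ite_eq]
      simp only [Finset.mem_range]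
    have hP : PII A P := by
      intro i
      rw [hPc]
      split_ifs
      exacts [hf i, zero_mem _]
    refine ⟨P.map (evalRingHom y'), ?_, ?_, ?_⟩
    · refine natDegree_map_le.trans ?_
      rw [natDegree_le_iff_coeff_eq_zero]
      intro i hi
      rw [hPc, if_neg (by omega)]
    · intro i
      rw [coeff_sub, coeff_map (evalRingHom y'), hPc]
      split_ifs with hi
      · exact hfc i
      · rw [coeff_eq_zero_of_natDegree_lt (by omega)]
        simp only [_root_.map_zero, sub_self]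
        exact RVal.Ge.zero
    · intro hne
      refine key_str hy hz hκ' hκ hyy hzz hP ?_
      rintro h0
      rw [h0] at hne
      simp at hne


end main

omit [IsAlgClosed Ω] in
theorem clI_mono {E F : IntermediateField k Ω} (h : E ≤ F) : clI v E ≤ clI v F := fun _ ha =>
  D2P.cl_mono (fun _ hx => h hx) ha

section main

variable {A : IntermediateField k Ω} {y z y' : Ω} {ρ s κ κ' : ℝ}


theorem exists_PII (hy : TL v A y ρ) (hz : TL v (cadj v A y) z s) {b : Ω}
    (hb : b ∈ cadj v (cadj v A y) z) (c : ℝ) :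
    ∃ P, PII A P ∧ v.Ge c (b - P.evalEval y z) := by
  obtain ⟨g, hg, h1⟩ := hz.dense hb c
  choose f hf hfc using fun i => hy.dense (hg i) (c + g.natDegree * |v z|)
  let P : Polynomial (Polynomial Ω) := ∑ i ∈ Finset.range (g.natDegree + 1), C (f i) * X ^ i
  have hPc : ∀ i, P.coeff i = if i < g.natDegree + 1 then f i else 0 := by
    intro i
    simp only [P, finsetSum_coeff, coeff_C_mul_X_pow]
    rw [Finset.sum_ite_eq]
    simp only [Finset.mem_range]
  have hP : PII A P := by
    intro i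
    rw [hPc]
    split_ifs
    exacts [hf i, zero_mem _]
  have hPd : P.natDegree ≤ g.natDegree := by
    rw [natDegree_le_iff_coeff_eq_zero]
    intro i hi
    rw [hPc, if_neg (by omega)]
  have h2 : (g - P.map (evalRingHom y)).natDegree ≤ g.natDegree :=
    (natDegree_sub_le _ _).trans (max_le le_rfl (natDegree_map_le.trans hPd))
  have h3 := taylor_coeff_ge h2 (c := c + g.natDegree * |v z|) (fun i => by
    rw [coeff_sub, coeff_map (evalRingHom y), hPc]
    split_ifs with hi
    · exact hfc i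
    · rw [coeff_eq_zero_of_natDegree_lt (by omega)]
      simp only [_root_.map_zero, sub_self]
      exact RVal.Ge.zero) z 0
  rw [taylor_coeff_zero, eval_sub, map_evalRingHom_eval] at h3
  refine ⟨P, hP, ?_⟩
  rw [← sub_add_sub_cancel b (g.eval z)]
  exact h1.add (h3.mono (by linarith))

omit [IsAlgClosed Ω] in
theorem evalEval_mem {P : Polynomial (Polynomial Ω)} (hP : PII A P) :
    P.evalEval y z ∈ cadj v (cadj v A y) z := by
  rw [← map_evalRingHom_eval]
  exact le_clI _ (eval_mem_adj (hP.map y) z)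

theorem le_move (hy : TL v A y ρ) (hz : TL v (cadj v A y) z s) (hκ' : 0 < κ') (hκ : κ' < κ)
    (hyy : v.Ge (ρ + κ) (y' - y)) (hzz : v.Ge (s - κ + κ') z) (hy' : y' ∈ cadj v (cadj v A y) z) :
    cadj v (cadj v A y) z ≤ cadj v (cadj v A y') z := by
  set B := cadj v (cadj v A y) z with hB
  set D := cadj v (cadj v A y') z with hD
  have hDB : D ≤ B := cadj_le (cld_cadj _ _ _) (cadj_le (cld_cadj _ _ _)
    ((le_cadj _ _ _).trans (le_cadj _ _ _)) hy') (self_mem_cadj _ _ _)
  have hstep : ∀ b ∈ B, ∀ c, v.Ge c b → ∃ d ∈ D, v.Ge (c + κ' / 2) (b - d) := by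
    intro b hb c hc
    by_cases hb0 : b = 0
    · exact ⟨0, zero_mem _, by rw [hb0, sub_zero]; exact RVal.Ge.zero⟩
    obtain ⟨P, hP, h1⟩ := exists_PII hy hz hb (v b + 1 + κ' / 2)
    have hcb := hc hb0
    refine ⟨P.evalEval y' z, evalEval_mem hP, ?_⟩
    have h2 : P.evalEval y z ≠ 0 ∧ v (P.evalEval y z) = v b := by
      by_cases h0 : b - P.evalEval y z = 0
      · rw [sub_eq_zero] at h0
        rw [← h0]
        exact ⟨hb0, rfl⟩
      · have h3 := h1 h0
        have h4 := v.add_of_lt hb0 (neg_ne_zero.2 h0) (by rw [v.map_neg _ h0]; linarith)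
        have h5 : b + -(b - P.evalEval y z) = P.evalEval y z := by ring
        rw [h5] at h4
        exact h4
    have h3 := key hy hz hκ' hκ hyy hzz hP
    rw [h2.2] at h3
    have h4 : b - P.evalEval y' z =
        (b - P.evalEval y z) - (P.evalEval y' z - P.evalEval y z) := by ring
    rw [h4]
    exact (h1.mono (by linarith)).sub (h3.mono (by linarith))
  have hn : ∀ n : ℕ, ∀ b ∈ B, ∀ c, v.Ge c b → ∃ d ∈ D, v.Ge (c + n * (κ' / 2)) (b - d) := by
    intro n
    induction n with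
    | zero =>
      intro b hb c hc
      exact ⟨0, zero_mem _, by rw [sub_zero, Nat.cast_zero, zero_mul, add_zero]; exact hc⟩
    | succ n ih =>
      intro b hb c hc
      obtain ⟨d, hd, h1⟩ := ih b hb c hc
      obtain ⟨d', hd', h2⟩ := hstep (b - d) (sub_mem hb (hDB hd)) _ h1
      refine ⟨d + d', add_mem hd hd', ?_⟩
      rw [← sub_sub]
      exact h2.mono (by push_cast; linarith)
  intro b hb
  refine cld_cadj _ _ _ ?_
  rw [mem_clI]
  intro c
  obtain ⟨n, hn1⟩ := exists_nat_gt ((c - v b) / (κ' / 2))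
  obtain ⟨d, hd, h1⟩ := hn n b hb (v b) (RVal.ge_self b)
  refine ⟨d, hd, h1.mono ?_⟩
  rw [div_lt_iff₀ (by positivity)] at hn1
  linarith

/-- **Stability**, case of `z` of value near `s`. -/
theorem Fib.move (hy : TL v A y ρ) (hz : TL v (cadj v A y) z s) (hκ' : 0 < κ') (hκ : κ' < κ)
    (hyy : v.Ge (ρ + κ) (y' - y)) (hzz : v.Ge (s - κ + κ') z) (hy' : y' ∈ cadj v (cadj v A y) z) :
    Fib v A (cadj v (cadj v A y) z) y' z ρ s where
  ty := hy.move (hκ'.trans hκ) hyy
  tz := TL.moveZ hy hz hκ' hκ hyy hzz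
  eq := by
    refine le_antisymm (le_move hy hz hκ' hκ hyy hzz hy') ?_
    exact cadj_le (cld_cadj _ _ _) (cadj_le (cld_cadj _ _ _)
      ((le_cadj _ _ _).trans (le_cadj _ _ _)) hy') (self_mem_cadj _ _ _)

end main

omit [IsAlgClosed Ω] in
/-- the closure of `E(z)` does not change if `z` is replaced by `z - e` -/
theorem cadj_sub_mem {E : IntermediateField k Ω} {z e : Ω} (he : e ∈ E) :
    cadj v E (z - e) = cadj v E z := by
  refine le_antisymm ?_ ?_
  · exact cadj_le (cld_cadj _ _ _) (le_cadj _ _ _) (sub_mem (self_mem_cadj _ _ _) (le_cadj _ _ _ he))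
  · refine cadj_le (cld_cadj _ _ _) (le_cadj _ _ _) ?_
    have h1 : z = (z - e) + e := by ring
    rw [h1]
    exact add_mem (by rw [← h1]; exact self_mem_cadj _ _ _) (le_cadj _ _ _ he)

omit [IsAlgClosed Ω] in
theorem TL.sub_mem {E : IntermediateField k Ω} {z e : Ω} {s : ℝ} (hz : TL v E z s) (he : e ∈ E) :
    TL v E (z - e) s where
  lim := by
    intro ε hε
    obtain ⟨a, ha, h1⟩ := hz.lim ε hε
    exact ⟨a - e, _root_.sub_mem ha he, by rw [sub_sub_sub_cancel_right]; exact h1⟩
  far := by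
    intro θ hθ
    have h1 : IsAlgebraic E (θ + e) := hθ.add (isAlgebraic_algebraMap (R := E) (⟨e, he⟩ : E))
    obtain ⟨h2, h3⟩ := hz.far _ h1
    refine ⟨fun h4 => h2 (by rw [← h4]; ring), ?_⟩
    have h5 : z - e - θ = z - (θ + e) := by ring
    rw [h5]
    exact h3

/-- **B1. Stability.** -/
theorem Fib.stab {A B : IntermediateField k Ω} {y z y' : Ω} {ρ s : ℝ}
    (hF : Fib v A B y z ρ s) (hy' : y' ∈ B) (hg : Gt v ρ (y - y')) :
    ∃ T > 0, ∀ ψ ∈ PI A, v.Ge (s - T) (z - ψ.eval y) →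
      Fib v A B y' (z - ψ.eval y + ψ.eval y') ρ s := by
  obtain ⟨κ, hκ0, hκ⟩ : ∃ κ : ℝ, 0 < κ ∧ v.Ge (ρ + κ) (y' - y) := by
    by_cases h0 : y - y' = 0
    · rw [sub_eq_zero] at h0
      exact ⟨1, one_pos, by rw [h0, sub_self]; exact RVal.Ge.zero⟩
    · refine ⟨v (y - y') - ρ, sub_pos.2 (hg h0), ?_⟩
      rw [← neg_sub y y']
      exact ((RVal.ge_self (v := v) (y - y')).neg).mono (by linarith)
  refine ⟨κ / 2, by linarith, fun ψ hψ h1 => ?_⟩
  have hψE : ψ.eval y ∈ cadj v A y := le_clI _ (eval_mem_adj hψ y)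
  have hψE' : ψ.eval y' ∈ cadj v A y' := le_clI _ (eval_mem_adj hψ y')
  have hz := hF.tz.sub_mem hψE
  have hB : B = cadj v (cadj v A y) (z - ψ.eval y) := by
    rw [cadj_sub_mem hψE]
    exact hF.eq
  have h2 := Fib.move (κ' := κ / 2) hF.ty hz (by linarith) (by linarith) hκ
    (h1.mono (by linarith)) (by rw [← hB]; exact hy')
  rw [← hB] at h2
  refine ⟨h2.ty, ?_, ?_⟩
  · have h3 := h2.tz.sub_mem (neg_mem hψE')
    rwa [sub_neg_eq_add] at h3
  · have h3 := cadj_sub_mem (v := v) (z := z - ψ.eval y) (neg_mem hψE')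
    rw [sub_neg_eq_add] at h3
    rw [h3]
    exact h2.eq

/-- Stability, existence form. -/
theorem Fib.exists_stab {A B : IntermediateField k Ω} {y z y' : Ω} {ρ s : ℝ}
    (hF : Fib v A B y z ρ s) (hy' : y' ∈ B) (hg : Gt v ρ (y - y')) :
    ∃ z', Fib v A B y' z' ρ s := by
  obtain ⟨T, hT, h1⟩ := hF.stab hy' hg
  obtain ⟨ψ, hψ, h2⟩ := hF.ty.exists_psi hF.tz.lim hT
  exact ⟨_, h1 ψ hψ h2⟩

end Pool.Agent.TWM
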