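import Pool.Agent.Lib.D2P.R0

/-!
# Homogeneous operators `∑ c_j x^{λ_j} Fr^j`

`G` is the value group, `M g` (`g ∈ G`) the monomial of value `g`. An operator from the radius `s`
to the radius `r` is a polynomial `f = ∑ c_j X^j` over `k` with `r - p^j s ∈ G` for `c_j ≠ 0`; its
value at `w` is `∑ c_j M(r - p^j s) w^{p^j}`. The composition of operators is the twisted product.
-/

set_option autoImplicit false

open Polynomial Finset

namespace Pool.Agent.TWM

open Pool.Agent.H15JM (RVal)

universe u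

/-- `M g` is a monomial of value `g`. -/
structure MS {Ω : Type u} [Field Ω] (v : RVal Ω) (G : AddSubgroup ℝ) (M : ℝ → Ω) : Prop where
  ne : ∀ g ∈ G, M g ≠ 0
  val : ∀ g ∈ G, v (M g) = g
  mul : ∀ g ∈ G, ∀ h ∈ G, M (g + h) = M g * M h

namespace MS

variable {Ω : Type u} [Field Ω] {v : RVal Ω} {G : AddSubgroup ℝ} {M : ℝ → Ω}

theorem zero (h : MS v G M) : M 0 = 1 := by
  have h1 := h.mul 0 G.zero_mem 0 G.zero_mem
  rw [add_zero] at h1
  have h2 := h.ne 0 G.zero_mem
  exact (mul_eq_left₀ h2).mp h1.symm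

theorem pow (h : MS v G M) {g : ℝ} (hg : g ∈ G) (n : ℕ) : M (n * g) = M g ^ n := by
  induction n with
  | zero => simp [h.zero]
  | succ n ih =>
    have hn : (n : ℝ) * g ∈ G := by
      rw [← nsmul_eq_mul]; exact G.nsmul_mem hg n
    rw [pow_succ, ← ih, ← h.mul _ hn _ hg]
    congr 1
    push_cast
    ring

theorem neg (h : MS v G M) {g : ℝ} (hg : g ∈ G) : M (-g) = (M g)⁻¹ := by
  have h1 := h.mul g hg (-g) (G.neg_mem hg)
  rw [add_neg_cancel, h.zero] at h1
  exact eq_inv_of_mul_eq_one_right h1.symm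

end MS

section

variable {k : Type u} [Field k]

/-- `f` is an operator from the radius `s` to the radius `r`. -/
def IsOp (p : ℕ) (G : AddSubgroup ℝ) (s r : ℝ) (f : k[X]) : Prop :=
  ∀ j, f.coeff j ≠ 0 → r - (p : ℝ) ^ j * s ∈ G

variable {p : ℕ} {G : AddSubgroup ℝ} {s r t : ℝ}

theorem IsOp.zero : IsOp p G s r (0 : k[X]) := fun j h => absurd (coeff_zero j) h

theorem IsOp.add {f g : k[X]} (hf : IsOp p G s r f) (hg : IsOp p G s r g) :
    IsOp p G s r (f + g) := by
  intro j hj
  by_cases h : f.coeff j = 0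
  · refine hg j fun h' => hj ?_
    rw [coeff_add, h, h', add_zero]
  · exact hf j h

theorem IsOp.neg {f : k[X]} (hf : IsOp p G s r f) : IsOp p G s r (-f) := by
  intro j hj
  refine hf j fun h' => hj ?_
  rw [coeff_neg, h', neg_zero]

theorem IsOp.sub {f g : k[X]} (hf : IsOp p G s r f) (hg : IsOp p G s r g) :
    IsOp p G s r (f - g) := by
  rw [sub_eq_add_neg]
  exact hf.add hg.neg

theorem IsOp.sum {ι : Type*} {S : Finset ι} {f : ι → k[X]} (h : ∀ i ∈ S, IsOp p G s r (f i)) :
    IsOp p G s r (∑ i ∈ S, f i) := by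
  intro j hj
  rw [finsetSum_coeff] at hj
  obtain ⟨i, hi, h'⟩ := Finset.exists_ne_zero_of_sum_ne_zero hj
  exact h i hi j h'

theorem IsOp.mono {a : k} {j : ℕ} (h : a ≠ 0 → r - (p : ℝ) ^ j * s ∈ G) :
    IsOp p G s r (C a * X ^ j) := by
  intro i hi
  rw [coeff_C_mul_X_pow] at hi
  split_ifs at hi with h'
  · rw [h']; exact h hi
  · exact absurd rfl hi

/-- The twisted product. -/
noncomputable def tw (p : ℕ) [Fact p.Prime] [CharP k p] (f g : k[X]) : k[X] :=
  f.sum fun i a => C a * X ^ i * g.map (iterateFrobenius k p i)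

variable [Fact p.Prime] [CharP k p]

theorem tw_coeff (f g : k[X]) (n : ℕ) :
    (tw p f g).coeff n = ∑ i ∈ Finset.range (n + 1), f.coeff i * g.coeff (n - i) ^ p ^ i := by
  have h1 : (tw p f g).coeff n =
      ∑ i ∈ f.support, if i ≤ n then f.coeff i * g.coeff (n - i) ^ p ^ i else 0 := by
    rw [tw, Polynomial.sum, finsetSum_coeff]
    refine Finset.sum_congr rfl fun i _ => ?_
    rw [mul_assoc, coeff_C_mul, coeff_X_pow_mul']
    split_ifs
    · rw [coeff_map, iterateFrobenius_def]
    · rw [mul_zero]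
  rw [h1, ← Finset.sum_filter]
  refine Finset.sum_subset (fun i hi => ?_) (fun i hi hn => ?_)
  · rw [Finset.mem_filter] at hi
    exact Finset.mem_range.mpr (Nat.lt_succ_of_le hi.2)
  · rw [Finset.mem_filter, not_and] at hn
    have : f.coeff i = 0 := by
      by_contra h
      exact hn (mem_support_iff.mpr h) (Nat.lt_succ_iff.mp (Finset.mem_range.mp hi))
    rw [this, zero_mul]

theorem tw_add_left (f g h : k[X]) : tw p (f + g) h = tw p f h + tw p g h := by
  ext n
  rw [coeff_add, tw_coeff, tw_coeff, tw_coeff, ← Finset.sum_add_distrib]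
  exact Finset.sum_congr rfl fun i _ => by rw [coeff_add]; ring

theorem tw_zero_left (h : k[X]) : tw p 0 h = 0 := by
  ext n
  rw [tw_coeff, coeff_zero]
  exact Finset.sum_eq_zero fun i _ => by rw [coeff_zero, zero_mul]

theorem tw_zero_right (h : k[X]) : tw p h 0 = 0 := by
  ext n
  rw [tw_coeff, coeff_zero]
  refine Finset.sum_eq_zero fun i _ => ?_
  rw [coeff_zero, zero_pow (pow_ne_zero _ (Fact.out : p.Prime).ne_zero), mul_zero]

theorem tw_add_right (f g h : k[X]) : tw p f (g + h) = tw p f g + tw p f h := by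
  ext n
  rw [coeff_add, tw_coeff, tw_coeff, tw_coeff, ← Finset.sum_add_distrib]
  refine Finset.sum_congr rfl fun i _ => ?_
  rw [coeff_add, add_pow_char_pow]
  ring

theorem tw_neg_left (f h : k[X]) : tw p (-f) h = - tw p f h := by
  ext n
  rw [coeff_neg, tw_coeff, tw_coeff, ← Finset.sum_neg_distrib]
  exact Finset.sum_congr rfl fun i _ => by rw [coeff_neg]; ring

theorem tw_neg_right (f h : k[X]) : tw p f (-h) = - tw p f h := by
  have h1 := tw_add_right (p := p) f h (-h)
  rw [add_neg_cancel, tw_zero_right] at h1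
  exact (neg_eq_of_add_eq_zero_right h1.symm).symm

theorem tw_sum_left {ι : Type*} (S : Finset ι) (f : ι → k[X]) (h : k[X]) :
    tw p (∑ i ∈ S, f i) h = ∑ i ∈ S, tw p (f i) h := by
  classical
  induction S using Finset.induction_on with
  | empty => rw [Finset.sum_empty, Finset.sum_empty, tw_zero_left]
  | insert i S hi ih => rw [Finset.sum_insert hi, Finset.sum_insert hi, tw_add_left, ih]

theorem tw_sum_right {ι : Type*} (S : Finset ι) (f : ι → k[X]) (h : k[X]) :
    tw p h (∑ i ∈ S, f i) = ∑ i ∈ S, tw p h (f i) := by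
  classical
  induction S using Finset.induction_on with
  | empty => rw [Finset.sum_empty, Finset.sum_empty, tw_zero_right]
  | insert i S hi ih => rw [Finset.sum_insert hi, Finset.sum_insert hi, tw_add_right, ih]

theorem tw_mono (a b : k) (i j : ℕ) :
    tw p (C a * X ^ i) (C b * X ^ j) = C (a * b ^ p ^ i) * X ^ (i + j) := by
  ext n
  rw [tw_coeff, coeff_C_mul_X_pow]
  split_ifs with h
  · subst h
    rw [Finset.sum_eq_single i]
    · rw [coeff_C_mul_X_pow, if_pos rfl, coeff_C_mul_X_pow, if_pos (by omega)]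
    · intro l _ hl
      rw [coeff_C_mul_X_pow, if_neg hl, zero_mul]
    · intro h
      exact absurd (Finset.mem_range.mpr (by omega)) h
  · refine Finset.sum_eq_zero fun l hl => ?_
    rw [coeff_C_mul_X_pow]
    split_ifs with h1
    · subst h1
      rw [coeff_C_mul_X_pow, if_neg, zero_pow (pow_ne_zero _ (Fact.out : p.Prime).ne_zero), mul_zero]
      intro h2
      have := Finset.mem_range.mp hl
      exact h (by omega)
    · rw [zero_mul]

theorem IsOp.tw {f g : k[X]} (hg : IsOp p G s r g) (hf : IsOp p G r t f) :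
    IsOp p G s t (tw p f g) := by
  intro n hn
  rw [tw_coeff] at hn
  obtain ⟨i, hi, h⟩ := Finset.exists_ne_zero_of_sum_ne_zero hn
  have h1 := hf i (left_ne_zero_of_mul h)
  have h2 := hg (n - i) (fun h' => h (by
    rw [h', zero_pow (pow_ne_zero _ (Fact.out : p.Prime).ne_zero), mul_zero]))
  have h3 := G.nsmul_mem h2 (p ^ i)
  have h4 := G.add_mem h1 h3
  rw [nsmul_eq_mul] at h4
  convert h4 using 1
  have : (p : ℝ) ^ n = (p : ℝ) ^ i * (p : ℝ) ^ (n - i) := by
    rw [← pow_add]
    congr 1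
    have := Finset.mem_range.mp hi
    omega
  rw [this]
  push_cast
  ring

theorem tw_ne_zero_aux (f g : k[X]) :
    (tw p f g).coeff (f.natDegree + g.natDegree) =
      f.leadingCoeff * g.leadingCoeff ^ p ^ f.natDegree := by
  rw [tw_coeff, Finset.sum_eq_single f.natDegree]
  · rw [Nat.add_sub_cancel_left]
    rfl
  · intro i hi h
    rcases lt_or_gt_of_ne h with h1 | h1
    · rw [coeff_eq_zero_of_natDegree_lt (p := g) (by omega),
        zero_pow (pow_ne_zero _ (Fact.out : p.Prime).ne_zero), mul_zero]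
    · rw [coeff_eq_zero_of_natDegree_lt (p := f) h1, zero_mul]
  · intro h
    exact absurd (Finset.mem_range.mpr (by omega)) h

theorem tw_ne_zero {f g : k[X]} (hf : f ≠ 0) (hg : g ≠ 0) : tw p f g ≠ 0 := by
  intro h
  have h1 := tw_ne_zero_aux (p := p) f g
  rw [h, coeff_zero] at h1
  exact mul_ne_zero (leadingCoeff_ne_zero.mpr hf)
    (pow_ne_zero _ (leadingCoeff_ne_zero.mpr hg)) h1.symm

theorem tw_natDegree_le (f g : k[X]) : (tw p f g).natDegree ≤ f.natDegree + g.natDegree := by
  rw [natDegree_le_iff_coeff_eq_zero]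
  intro n hn
  rw [tw_coeff]
  refine Finset.sum_eq_zero fun i hi => ?_
  by_cases h : f.natDegree < i
  · rw [coeff_eq_zero_of_natDegree_lt h, zero_mul]
  · rw [coeff_eq_zero_of_natDegree_lt (p := g) (by omega),
      zero_pow (pow_ne_zero _ (Fact.out : p.Prime).ne_zero), mul_zero]

theorem tw_natDegree {f g : k[X]} (hf : f ≠ 0) (hg : g ≠ 0) :
    (tw p f g).natDegree = f.natDegree + g.natDegree := by
  refine le_antisymm (tw_natDegree_le f g) (le_natDegree_of_ne_zero ?_)
  rw [tw_ne_zero_aux]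
  exact mul_ne_zero (leadingCoeff_ne_zero.mpr hf) (pow_ne_zero _ (leadingCoeff_ne_zero.mpr hg))

/-- **E2.** -/
theorem tw_eq_one {f g : k[X]} (h : tw p f g = 1) : f.natDegree = 0 ∧ g.natDegree = 0 := by
  have hf : f ≠ 0 := by
    rintro rfl
    rw [tw_zero_left] at h
    exact zero_ne_one h
  have hg : g ≠ 0 := by
    rintro rfl
    rw [tw_zero_right] at h
    exact zero_ne_one h
  have h1 := tw_natDegree (p := p) hf hg
  rw [h, natDegree_one] at h1
  omega

end

/-! ## Evaluation -/

section ev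

variable {k Ω : Type u} [Field k] [Field Ω] [Algebra k Ω] {v : RVal Ω}

/-- The value of the operator `f` at `w`. -/
noncomputable def ev (p : ℕ) (M : ℝ → Ω) (s r : ℝ) (f : k[X]) (w : Ω) : Ω :=
  f.sum fun j a => algebraMap k Ω a * M (r - (p : ℝ) ^ j * s) * w ^ p ^ j

variable {p : ℕ} {G : AddSubgroup ℝ} {M : ℝ → Ω} {s r t : ℝ}

theorem ev_mono (a : k) (j : ℕ) (w : Ω) :
    ev p M s r (C a * X ^ j) w = algebraMap k Ω a * M (r - (p : ℝ) ^ j * s) * w ^ p ^ j := by
  rw [ev, C_mul_X_pow_eq_monomial, sum_monomial_index]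
  rw [map_zero, zero_mul, zero_mul]

theorem ev_zero (w : Ω) : ev p M s r (0 : k[X]) w = 0 := by
  rw [ev, sum_zero_index]

theorem ev_add (f g : k[X]) (w : Ω) : ev p M s r (f + g) w = ev p M s r f w + ev p M s r g w := by
  rw [ev, sum_add_index]
  · rfl
  · intro i; rw [map_zero, zero_mul, zero_mul]
  · intro i a b; rw [map_add]; ring

theorem ev_neg (f : k[X]) (w : Ω) : ev p M s r (-f) w = - ev p M s r f w := by
  have h := ev_add (p := p) (M := M) (s := s) (r := r) f (-f) w
  rw [add_neg_cancel, ev_zero] at h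
  exact (neg_eq_of_add_eq_zero_right h.symm).symm

theorem ev_sub (f g : k[X]) (w : Ω) : ev p M s r (f - g) w = ev p M s r f w - ev p M s r g w := by
  rw [sub_eq_add_neg, ev_add, ev_neg, sub_eq_add_neg]

theorem ev_sum {ι : Type*} (S : Finset ι) (f : ι → k[X]) (w : Ω) :
    ev p M s r (∑ i ∈ S, f i) w = ∑ i ∈ S, ev p M s r (f i) w := by
  classical
  induction S using Finset.induction_on with
  | empty => rw [Finset.sum_empty, Finset.sum_empty, ev_zero]
  | insert i S hi ih => rw [Finset.sum_insert hi, Finset.sum_insert hi, ev_add, ih]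

theorem ev_zero_right [Fact p.Prime] (f : k[X]) : ev p M s r f (0 : Ω) = 0 := by
  rw [ev, Polynomial.sum]
  refine Finset.sum_eq_zero fun i _ => ?_
  rw [zero_pow (pow_ne_zero _ (Fact.out : p.Prime).ne_zero), mul_zero]

theorem ev_add_right [Fact p.Prime] [CharP Ω p] (f : k[X]) (w w' : Ω) :
    ev p M s r f (w + w') = ev p M s r f w + ev p M s r f w' := by
  rw [ev, ev, ev, Polynomial.sum, Polynomial.sum, Polynomial.sum, ← Finset.sum_add_distrib]
  refine Finset.sum_congr rfl fun i _ => ?_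
  rw [add_pow_char_pow, mul_add]

theorem ev_neg_right [Fact p.Prime] [CharP Ω p] (f : k[X]) (w : Ω) :
    ev p M s r f (-w) = - ev p M s r f w := by
  have h := ev_add_right (p := p) (M := M) (s := s) (r := r) f w (-w)
  rw [add_neg_cancel, ev_zero_right] at h
  exact (neg_eq_of_add_eq_zero_right h.symm).symm

theorem ev_sub_right [Fact p.Prime] [CharP Ω p] (f : k[X]) (w w' : Ω) :
    ev p M s r f (w - w') = ev p M s r f w - ev p M s r f w' := by
  rw [sub_eq_add_neg, ev_add_right, ev_neg_right, sub_eq_add_neg]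

theorem ev_sum_right [Fact p.Prime] [CharP Ω p] {ι : Type*} (S : Finset ι) (f : k[X]) (w : ι → Ω) :
    ev p M s r f (∑ i ∈ S, w i) = ∑ i ∈ S, ev p M s r f (w i) := by
  classical
  induction S using Finset.induction_on with
  | empty => rw [Finset.sum_empty, Finset.sum_empty, ev_zero_right]
  | insert i S hi ih => rw [Finset.sum_insert hi, Finset.sum_insert hi, ev_add_right, ih]

theorem ev_one (h : MS v G M) (w : Ω) : ev p M s s (1 : k[X]) w = w := by
  have h1 := ev_mono (k := k) (p := p) (M := M) (s := s) (r := s) 1 0 w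
  rw [map_one, pow_zero, mul_one] at h1
  rw [h1, pow_zero, pow_zero, pow_one, one_mul, sub_self, h.zero, map_one, one_mul, one_mul]

theorem ev_tw [Fact p.Prime] [CharP k p] [CharP Ω p] (h : MS v G M) {f g : k[X]}
    (hg : IsOp p G s r g) (hf : IsOp p G r t f) (w : Ω) :
    ev p M s t (tw p f g) w = ev p M r t f (ev p M s r g w) := by
  conv_lhs => rw [as_sum_support_C_mul_X_pow f, as_sum_support_C_mul_X_pow g, tw_sum_left, ev_sum]
  rw [ev, Polynomial.sum]
  refine Finset.sum_congr rfl fun i hi => ?_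
  rw [tw_sum_right, ev_sum, ev, Polynomial.sum, sum_pow_char_pow, Finset.mul_sum]
  refine Finset.sum_congr rfl fun j hj => ?_
  rw [tw_mono, ev_mono, mul_pow, mul_pow, ← pow_mul, ← pow_add]
  have hi' := hf i (mem_support_iff.mp hi)
  have hj' := hg j (mem_support_iff.mp hj)
  have h1 : M (t - (p : ℝ) ^ (i + j) * s) =
      M (t - (p : ℝ) ^ i * r) * M (r - (p : ℝ) ^ j * s) ^ p ^ i := by
    rw [← h.pow hj' (p ^ i), ← h.mul _ hi' _ (by
      rw [← nsmul_eq_mul]; exact G.nsmul_mem hj' _)]
    congr 1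
    push_cast
    rw [pow_add]
    ring
  rw [h1, map_mul, map_pow, add_comm j i]
  ring

end ev

end Pool.Agent.TWM
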