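import Pool.Agent.Lib.TWM.A1
import Pool.Agent.Lib.TWM.Op

/-!
# TANK W, M2: classes of exponents (A9, A10)

`G ≤ G₁` are groups of values, `M g` a monomial of value `g ∈ G₁`, `T` a finite system of
representatives of `G₁` modulo `G`, `B` a field with values in `G` containing `M g`, `g ∈ G`. Then
`LE M G₁ B = B(M g : g ∈ G₁)` is the direct sum of the `M t · B`, `t ∈ T`, and this sum is
orthogonal.
-/

set_option autoImplicit false

open Polynomial

namespace Pool.Agent.TWM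

open Pool.Agent.H15JM (RVal)
open Pool.Agent.LU1 (VPos adj)
open Pool.Agent.LUC (Cl clF)
open Pool.Agent.D2 (Ctx0)
open Pool.Agent.D2P (hen clI mem_clI)

universe u

/-! ### Sums of elements with distinct values -/

section distinct

variable {Ω : Type u} [Field Ω] {v : RVal Ω}

theorem val_sum_distinct {ι : Type*} (S : Finset ι) (f : ι → Ω) (hf : ∀ i ∈ S, f i ≠ 0)
    (hd : ∀ i ∈ S, ∀ j ∈ S, v (f i) = v (f j) → i = j) (hS : S.Nonempty) :
    ∃ i ∈ S, ∑ j ∈ S, f j ≠ 0 ∧ v (∑ j ∈ S, f j) = v (f i) ∧ ∀ j ∈ S, v (f i) ≤ v (f j) := by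
  classical
  obtain ⟨i, hi, hmin⟩ := S.exists_min_image (fun j => v (f j)) hS
  have h1 : Gt v (v (f i)) (f i - ∑ j ∈ S, f j) := by
    rw [← Finset.add_sum_erase _ _ hi, sub_add_cancel_left]
    refine Gt.neg (Gt.sum _ _ fun j hj => ?_)
    intro _
    have hj' := Finset.mem_of_mem_erase hj
    refine lt_of_le_of_ne (hmin j hj') fun h => ?_
    exact (Finset.ne_of_mem_erase hj) (hd i hi j hj' h).symm
  obtain ⟨h2, h3⟩ := Gt.val_eq (hf i hi) h1
  exact ⟨i, hi, h2, h3, hmin⟩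

end distinct

variable {k Ω : Type u} [Field k] [Field Ω] [Algebra k Ω] {v : RVal Ω}

/-- The values of `B` are in `G`. -/
def VG (v : RVal Ω) (G : AddSubgroup ℝ) (B : IntermediateField k Ω) : Prop :=
  ∀ b ∈ B, b ≠ 0 → v b ∈ G

/-- `T` is a system of representatives of `G₁` modulo `G`. -/
structure Reps (G G₁ : AddSubgroup ℝ) (T : Finset ℝ) : Prop where
  le : G ≤ G₁
  mem : ∀ t ∈ T, t ∈ G₁
  ex : ∀ g ∈ G₁, ∃ t ∈ T, g - t ∈ G
  uniq : ∀ t ∈ T, ∀ t' ∈ T, t - t' ∈ G → t = t'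
  zero : (0 : ℝ) ∈ T

/-- `B` with the monomials of `G₁`. -/
def LE (M : ℝ → Ω) (G₁ : AddSubgroup ℝ) (B : IntermediateField k Ω) : IntermediateField k Ω :=
  B ⊔ IntermediateField.adjoin k (M '' (G₁ : Set ℝ))

/-- The setting. -/
structure Cls (v : RVal Ω) (M : ℝ → Ω) (G G₁ : AddSubgroup ℝ) (T : Finset ℝ)
    (B : IntermediateField k Ω) : Prop where
  ms : MS v G₁ M
  reps : Reps G G₁ T
  vg : VG v G B
  mon : ∀ g ∈ G, M g ∈ B

section LE

variable {M : ℝ → Ω} {G G₁ : AddSubgroup ℝ} {B N : IntermediateField k Ω}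

theorem le_LE : B ≤ LE M G₁ B := le_sup_left

theorem mon_mem_LE {g : ℝ} (hg : g ∈ G₁) : M g ∈ LE M G₁ B :=
  (le_sup_right : _ ≤ LE M G₁ B) (IntermediateField.subset_adjoin _ _ ⟨g, hg, rfl⟩)

theorem LE_le {C : IntermediateField k Ω} (h : B ≤ C) (h' : ∀ g ∈ G₁, M g ∈ C) :
    LE M G₁ B ≤ C := by
  refine sup_le h ?_
  rw [IntermediateField.adjoin_le_iff]
  rintro _ ⟨g, hg, rfl⟩
  exact h' g hg

theorem LE_mono (h : N ≤ B) : LE M G₁ N ≤ LE M G₁ B := sup_le_sup_right h _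

end LE

namespace Cls

variable {M : ℝ → Ω} {G G₁ : AddSubgroup ℝ} {T : Finset ℝ} {B N F D : IntermediateField k Ω}

theorem mono (h : Cls v M G G₁ T B) (hN : N ≤ B) (hm : ∀ g ∈ G, M g ∈ N) : Cls v M G G₁ T N :=
  ⟨h.ms, h.reps, fun b hb => h.vg b (hN hb), hm⟩

theorem val_term (h : Cls v M G G₁ T B) {t : ℝ} (ht : t ∈ T) {b : Ω} (h0 : b ≠ 0) :
    M t * b ≠ 0 ∧ v (M t * b) = t + v b := by
  have h1 := h.ms.ne t (h.reps.mem t ht)
  exact ⟨mul_ne_zero h1 h0, by rw [v.map_mul h1 h0, h.ms.val t (h.reps.mem t ht)]⟩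

/-- The sum is orthogonal. -/
theorem ge_iff (h : Cls v M G G₁ T B) {b : ℝ → Ω} (hb : ∀ t ∈ T, b t ∈ B) {r : ℝ} :
    v.Ge r (∑ t ∈ T, M t * b t) ↔ ∀ t ∈ T, v.Ge (r - t) (b t) := by
  classical
  constructor
  · intro hr
    set S := T.filter fun t => b t ≠ 0 with hS
    have hsum : ∑ t ∈ T, M t * b t = ∑ t ∈ S, M t * b t := by
      rw [hS, Finset.sum_filter]
      refine Finset.sum_congr rfl fun t _ => ?_
      by_cases h0 : b t = 0
      · rw [h0, mul_zero, if_neg (by simp)]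
      · rw [if_pos h0]
    rcases S.eq_empty_or_nonempty with hS' | hS'
    · intro t ht h0
      have : t ∈ S := Finset.mem_filter.2 ⟨ht, h0⟩
      rw [hS'] at this
      exact absurd this (Finset.notMem_empty t)
    · obtain ⟨i, hi, h1, h2, h3⟩ := val_sum_distinct (v := v) S (fun t => M t * b t)
        (fun t ht => (h.val_term (Finset.mem_filter.1 ht).1 (Finset.mem_filter.1 ht).2).1)
        (fun t ht t' ht' heq => by
          obtain ⟨ht1, ht2⟩ := Finset.mem_filter.1 ht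
          obtain ⟨ht3, ht4⟩ := Finset.mem_filter.1 ht'
          rw [(h.val_term ht1 ht2).2, (h.val_term ht3 ht4).2] at heq
          refine h.reps.uniq t ht1 t' ht3 ?_
          have h5 : t - t' = v (b t') - v (b t) := by linarith
          rw [h5]
          exact G.sub_mem (h.vg _ (hb t' ht3) ht4) (h.vg _ (hb t ht1) ht2)) hS'
      intro t ht h0
      have ht' : t ∈ S := Finset.mem_filter.2 ⟨ht, h0⟩
      have h4 := h3 t ht'
      rw [hsum] at hr
      have h5 := hr h1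
      rw [h2] at h5
      have h6 := (h.val_term ht h0).2
      linarith
  · intro hr
    refine RVal.Ge.sum _ _ fun t ht => ?_
    have h1 : v.Ge t (M t) := fun _ => (h.ms.val t (h.reps.mem t ht)).ge
    have h2 := h1.mul (hr t ht)
    rwa [add_sub_cancel] at h2

theorem gt_iff (h : Cls v M G G₁ T B) {b : ℝ → Ω} (hb : ∀ t ∈ T, b t ∈ B) {r : ℝ} :
    Gt v r (∑ t ∈ T, M t * b t) ↔ ∀ t ∈ T, Gt v (r - t) (b t) := by
  classical
  constructor
  · intro hr t ht h0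
    by_cases h1 : ∑ t ∈ T, M t * b t = 0
    · have h2 : v.Ge (r + 1) (∑ t ∈ T, M t * b t) := by rw [h1]; exact RVal.Ge.zero
      have h3 := (h.ge_iff hb).1 h2 t ht h0
      linarith
    · have h2 : v.Ge (v (∑ t ∈ T, M t * b t)) (∑ t ∈ T, M t * b t) := v.ge_self _
      have h3 := (h.ge_iff hb).1 h2 t ht h0
      have h4 := hr h1
      linarith
  · intro hr
    refine Gt.sum _ _ fun t ht => ?_
    have h1 : v.Ge t (M t) := fun _ => (h.ms.val t (h.reps.mem t ht)).ge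
    have h2 := (hr t ht).mul_ge h1
    rwa [sub_add_cancel, mul_comm] at h2

theorem inj (h : Cls v M G G₁ T B) {b c : ℝ → Ω} (hb : ∀ t ∈ T, b t ∈ B) (hc : ∀ t ∈ T, c t ∈ B)
    (he : ∑ t ∈ T, M t * b t = ∑ t ∈ T, M t * c t) : ∀ t ∈ T, b t = c t := by
  intro t ht
  by_contra hne
  have h0 : b t - c t ≠ 0 := sub_ne_zero.2 hne
  have h1 : v.Ge (t + v (b t - c t) + 1) (∑ t ∈ T, M t * (b t - c t)) := by
    have : ∑ t ∈ T, M t * (b t - c t) = 0 := by
      simp only [mul_sub, Finset.sum_sub_distrib, he, sub_self]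
    rw [this]
    exact RVal.Ge.zero
  have h2 := (h.ge_iff (b := fun t => b t - c t) fun t ht => B.sub_mem (hb t ht) (hc t ht)).1 h1
    t ht h0
  linarith

/-- The sums `∑ M t b_t`, as a module over `B`. -/
def sp (M : ℝ → Ω) (T : Finset ℝ) (B : IntermediateField k Ω) : Submodule B Ω :=
  Submodule.span B (M '' (T : Set ℝ))

theorem mem_sp {w : Ω} : w ∈ sp M T B ↔
    ∃ b : ℝ → Ω, (∀ t ∈ T, b t ∈ B) ∧ w = ∑ t ∈ T, M t * b t := by
  classical
  rw [sp, Submodule.mem_span_image_finset_iff_exists_fun]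
  constructor
  · rintro ⟨c, rfl⟩
    refine ⟨fun t => if ht : t ∈ T then (c ⟨t, ht⟩ : Ω) else 0, fun t ht => ?_, ?_⟩
    · simp only [dif_pos ht]
      exact (c _).2
    · rw [← Finset.sum_coe_sort T]
      refine Finset.sum_congr rfl fun t _ => ?_
      beta_reduce
      rw [dif_pos t.2, mul_comm]
      rfl
  · rintro ⟨b, hb, rfl⟩
    refine ⟨fun t => ⟨b t, hb t t.2⟩, ?_⟩
    rw [← Finset.sum_coe_sort T]
    refine Finset.sum_congr rfl fun t _ => ?_
    rw [mul_comm]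
    rfl

theorem mon_mem_sp (h : Cls v M G G₁ T B) {g : ℝ} (hg : g ∈ G₁) {b : Ω} (hb : b ∈ B) :
    M g * b ∈ sp M T B := by
  obtain ⟨t, ht, htg⟩ := h.reps.ex g hg
  have h1 : M g = M t * M (g - t) := by
    rw [← h.ms.mul t (h.reps.mem t ht) (g - t) (h.reps.le htg), add_sub_cancel]
  have h2 : M g * b = (⟨M (g - t) * b, B.mul_mem (h.mon _ htg) hb⟩ : B) • M t := by
    rw [h1]
    change _ = M (g - t) * b * M t
    ring
  rw [h2]
  exact Submodule.smul_mem _ _ (Submodule.subset_span ⟨t, ht, rfl⟩)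

theorem mul_mem_sp (h : Cls v M G G₁ T B) {x y : Ω} (hx : x ∈ sp M T B) (hy : y ∈ sp M T B) :
    x * y ∈ sp M T B := by
  obtain ⟨b, hb, rfl⟩ := mem_sp.1 hx
  obtain ⟨c, hc, rfl⟩ := mem_sp.1 hy
  rw [Finset.sum_mul]
  refine Submodule.sum_mem _ fun t ht => ?_
  rw [Finset.mul_sum]
  refine Submodule.sum_mem _ fun t' ht' => ?_
  have h1 : M t * b t * (M t' * c t') = M (t + t') * (b t * c t') := by
    rw [h.ms.mul t (h.reps.mem t ht) t' (h.reps.mem t' ht')]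
    ring
  rw [h1]
  exact h.mon_mem_sp (G₁.add_mem (h.reps.mem t ht) (h.reps.mem t' ht'))
    (B.mul_mem (hb t ht) (hc t' ht'))

theorem self_mem_sp (h : Cls v M G G₁ T B) {b : Ω} (hb : b ∈ B) : b ∈ sp M T B := by
  have h1 := h.mon_mem_sp G₁.zero_mem hb
  rwa [h.ms.zero, one_mul] at h1

/-- The sums `∑ M t b_t`, as an algebra over `B`. -/
def alg (h : Cls v M G G₁ T B) : Subalgebra B Ω :=
  (sp M T B).toSubalgebra (h.self_mem_sp B.one_mem) fun _ _ => h.mul_mem_sp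

theorem mem_alg (h : Cls v M G G₁ T B) {w : Ω} : w ∈ h.alg ↔ w ∈ sp M T B := Iff.rfl

theorem finite_alg (h : Cls v M G G₁ T B) : Module.Finite B h.alg := by
  have h1 : (sp M T B).FG := Submodule.fg_span (T.finite_toSet.image M)
  exact Module.Finite.iff_fg.2 h1

theorem alg_isAlgebraic (h : Cls v M G G₁ T B) {w : Ω} (hw : w ∈ h.alg) : IsAlgebraic B w := by
  have := h.finite_alg
  have h1 : IsIntegral B (⟨w, hw⟩ : h.alg) := IsIntegral.of_finite B _
  exact (h1.map h.alg.val).isAlgebraic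

/-- The sums `∑ M t b_t`, as a field. -/
def fld (h : Cls v M G G₁ T B) : IntermediateField k Ω :=
  Subfield.toIntermediateField
    { h.alg.toSubring with
      inv_mem' := fun w hw => h.alg.inv_mem_of_algebraic (x := ⟨w, hw⟩) (h.alg_isAlgebraic hw) }
    fun c => h.self_mem_sp (B.algebraMap_mem c)

theorem fld_eq (h : Cls v M G G₁ T B) : LE M G₁ B = h.fld := by
  apply le_antisymm
  · refine LE_le (fun b hb => h.self_mem_sp hb) fun g hg => ?_
    have h1 := h.mon_mem_sp hg B.one_mem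
    rw [mul_one] at h1
    exact h1
  · intro w hw
    obtain ⟨b, hb, rfl⟩ := mem_sp.1 hw
    exact sum_mem fun t ht => mul_mem (mon_mem_LE (h.reps.mem t ht)) (le_LE (hb t ht))

theorem mem_iff (h : Cls v M G G₁ T B) {w : Ω} : w ∈ LE M G₁ B ↔
    ∃ b : ℝ → Ω, (∀ t ∈ T, b t ∈ B) ∧ w = ∑ t ∈ T, M t * b t := by
  rw [h.fld_eq]
  exact mem_sp

theorem sum_mem_LE (h : Cls v M G G₁ T B) {b : ℝ → Ω} (hb : ∀ t ∈ T, b t ∈ B) :
    ∑ t ∈ T, M t * b t ∈ LE M G₁ B := h.mem_iff.2 ⟨b, hb, rfl⟩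

theorem le_algc (h : Cls v M G G₁ T B) : LE M G₁ B ≤ TWM.algc B := by
  intro w hw
  rw [h.fld_eq] at hw
  rw [mem_algc]
  exact h.alg_isAlgebraic hw

theorem val_sum (h : Cls v M G G₁ T B) {b : ℝ → Ω} (hb : ∀ t ∈ T, b t ∈ B)
    (h0 : ∑ t ∈ T, M t * b t ≠ 0) : ∃ t ∈ T, b t ≠ 0 ∧ v (∑ t ∈ T, M t * b t) = t + v (b t) ∧
      ∀ t' ∈ T, b t' ≠ 0 → t + v (b t) ≤ t' + v (b t') := by
  classical
  set S := T.filter fun t => b t ≠ 0 with hS
  have hsum : ∑ t ∈ T, M t * b t = ∑ t ∈ S, M t * b t := by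
    rw [hS, Finset.sum_filter]
    refine Finset.sum_congr rfl fun t _ => ?_
    by_cases h0 : b t = 0
    · rw [h0, mul_zero, if_neg (by simp)]
    · rw [if_pos h0]
  have hS' : S.Nonempty := by
    rw [Finset.nonempty_iff_ne_empty]
    intro hS'
    rw [hsum, hS', Finset.sum_empty] at h0
    exact h0 rfl
  obtain ⟨i, hi, h1, h2, h3⟩ := val_sum_distinct (v := v) S (fun t => M t * b t)
    (fun t ht => (h.val_term (Finset.mem_filter.1 ht).1 (Finset.mem_filter.1 ht).2).1)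
    (fun t ht t' ht' heq => by
      obtain ⟨ht1, ht2⟩ := Finset.mem_filter.1 ht
      obtain ⟨ht3, ht4⟩ := Finset.mem_filter.1 ht'
      rw [(h.val_term ht1 ht2).2, (h.val_term ht3 ht4).2] at heq
      refine h.reps.uniq t ht1 t' ht3 ?_
      have h5 : t - t' = v (b t') - v (b t) := by linarith
      rw [h5]
      exact G.sub_mem (h.vg _ (hb t' ht3) ht4) (h.vg _ (hb t ht1) ht2)) hS'
  obtain ⟨hi1, hi2⟩ := Finset.mem_filter.1 hi
  refine ⟨i, hi1, hi2, ?_, fun t ht ht0 => ?_⟩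
  · rw [hsum, h2, (h.val_term hi1 hi2).2]
  · rw [← (h.val_term hi1 hi2).2, ← (h.val_term ht ht0).2]
    exact h3 t (Finset.mem_filter.2 ⟨ht, ht0⟩)

theorem vgLE (h : Cls v M G G₁ T B) : VG v G₁ (LE M G₁ B) := by
  intro w hw h0
  obtain ⟨b, hb, rfl⟩ := h.mem_iff.1 hw
  obtain ⟨t, ht, h1, h2, -⟩ := h.val_sum hb h0
  rw [h2]
  exact G₁.add_mem (h.reps.mem t ht) (h.reps.le (h.vg _ (hb t ht) h1))

theorem sum_sub {a b : ℝ → Ω} : ∑ t ∈ T, M t * b t - ∑ t ∈ T, M t * a t =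
    ∑ t ∈ T, M t * (b t - a t) := by
  simp only [mul_sub, Finset.sum_sub_distrib]

theorem ge_sub_iff (h : Cls v M G G₁ T B) {a b : ℝ → Ω} (ha : ∀ t ∈ T, a t ∈ B)
    (hb : ∀ t ∈ T, b t ∈ B) {r : ℝ} :
    v.Ge r (∑ t ∈ T, M t * b t - ∑ t ∈ T, M t * a t) ↔ ∀ t ∈ T, v.Ge (r - t) (b t - a t) := by
  rw [sum_sub]
  exact h.ge_iff (b := fun t => b t - a t) fun t ht => B.sub_mem (hb t ht) (ha t ht)

theorem gt_sub_iff (h : Cls v M G G₁ T B) {a b : ℝ → Ω} (ha : ∀ t ∈ T, a t ∈ B)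
    (hb : ∀ t ∈ T, b t ∈ B) {r : ℝ} :
    Gt v r (∑ t ∈ T, M t * b t - ∑ t ∈ T, M t * a t) ↔ ∀ t ∈ T, Gt v (r - t) (b t - a t) := by
  rw [sum_sub]
  exact h.gt_iff (b := fun t => b t - a t) fun t ht => B.sub_mem (hb t ht) (ha t ht)

/-- `LE N ≤ LE B` is immediate if `N ≤ B` is. -/
theorem imm (h : Cls v M G G₁ T B) (hm : ∀ g ∈ G, M g ∈ N) (hN : Imm v N B) :
    Imm v (LE M G₁ N) (LE M G₁ B) := by
  classical
  refine ⟨LE_mono hN.le, fun w hw h0 => ?_⟩
  obtain ⟨b, hb, rfl⟩ := h.mem_iff.1 hw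
  obtain ⟨t, ht, h1, h2, h3⟩ := h.val_sum hb h0
  have h4 : ∀ t : ℝ, ∃ a : Ω, a ∈ N ∧ (t ∈ T → b t ≠ 0 → Gt v (v (b t)) (b t - a)) ∧
      (b t = 0 → a = 0) := by
    intro t
    by_cases ht : t ∈ T
    · by_cases hbt : b t = 0
      · exact ⟨0, N.zero_mem, fun _ h => absurd hbt h, fun _ => rfl⟩
      · obtain ⟨a, ha, ha'⟩ := hN.imm (b t) (hb t ht) hbt
        exact ⟨a, ha, fun _ _ => ha', fun h => absurd h hbt⟩
    · exact ⟨0, N.zero_mem, fun h => absurd h ht, fun _ => rfl⟩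
  choose a ha ha' ha0 using h4
  have hN' : Cls v M G G₁ T N := h.mono hN.le hm
  refine ⟨∑ t ∈ T, M t * a t, hN'.sum_mem_LE fun t _ => ha t, ?_⟩
  rw [h.gt_sub_iff (fun t _ => hN.le (ha t)) hb, h2]
  intro t' ht'
  by_cases h5 : b t' = 0
  · rw [h5, ha0 t' h5, sub_zero]
    exact Gt.zero
  · exact (ha' t' ht' h5).mono (by linarith [h3 t' ht' h5])

theorem lim_iff (h : Cls v M G G₁ T B) (hN : N ≤ B) (hm : ∀ g ∈ G, M g ∈ N) {b : ℝ → Ω}
    (hb : ∀ t ∈ T, b t ∈ B) {r : ℝ} :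
    Lim v (LE M G₁ N) r (∑ t ∈ T, M t * b t) ↔ ∀ t ∈ T, Lim v N (r - t) (b t) := by
  classical
  have hN' : Cls v M G G₁ T N := h.mono hN hm
  constructor
  · intro hl t ht ε hε
    obtain ⟨a, ha, ha'⟩ := hl ε hε
    obtain ⟨c, hc, rfl⟩ := hN'.mem_iff.1 ha
    rw [h.ge_sub_iff (fun t ht => hN (hc t ht)) hb] at ha'
    refine ⟨c t, hc t ht, ?_⟩
    have := ha' t ht
    rwa [sub_right_comm] at this
  · intro hl ε hε
    have h1 : ∀ t : ℝ, ∃ a : Ω, a ∈ N ∧ (t ∈ T → v.Ge (r - t - ε) (b t - a)) := by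
      intro t
      by_cases ht : t ∈ T
      · obtain ⟨a, ha, ha'⟩ := hl t ht ε hε
        exact ⟨a, ha, fun _ => ha'⟩
      · exact ⟨0, N.zero_mem, fun h => absurd h ht⟩
    choose a ha ha' using h1
    refine ⟨∑ t ∈ T, M t * a t, hN'.sum_mem_LE fun t _ => ha t, ?_⟩
    rw [h.ge_sub_iff (fun t _ => hN (ha t)) hb]
    intro t ht
    rw [sub_right_comm]
    exact ha' t ht

theorem nr_iff (h : Cls v M G G₁ T B) (hN : N ≤ B) (hm : ∀ g ∈ G, M g ∈ N) {b : ℝ → Ω}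
    (hb : ∀ t ∈ T, b t ∈ B) {r : ℝ} :
    Nr v (LE M G₁ N) r (∑ t ∈ T, M t * b t) ↔ ∀ t ∈ T, Nr v N (r - t) (b t) := by
  classical
  have hN' : Cls v M G G₁ T N := h.mono hN hm
  constructor
  · rintro ⟨a, ha, ha'⟩ t ht
    obtain ⟨c, hc, rfl⟩ := hN'.mem_iff.1 ha
    rw [h.ge_sub_iff (fun t ht => hN (hc t ht)) hb] at ha'
    exact ⟨c t, hc t ht, ha' t ht⟩
  · intro hl
    have h1 : ∀ t : ℝ, ∃ a : Ω, a ∈ N ∧ (t ∈ T → v.Ge (r - t) (b t - a)) := by
      intro t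
      by_cases ht : t ∈ T
      · obtain ⟨a, ha, ha'⟩ := hl t ht
        exact ⟨a, ha, fun _ => ha'⟩
      · exact ⟨0, N.zero_mem, fun h => absurd h ht⟩
    choose a ha ha' using h1
    refine ⟨∑ t ∈ T, M t * a t, hN'.sum_mem_LE fun t _ => ha t, ?_⟩
    rw [h.ge_sub_iff (fun t _ => hN (ha t)) hb]
    exact fun t ht => ha' t ht

theorem nr'_iff (h : Cls v M G G₁ T B) (hN : N ≤ B) (hm : ∀ g ∈ G, M g ∈ N) {b : ℝ → Ω}
    (hb : ∀ t ∈ T, b t ∈ B) {r : ℝ} :
    Nr' v (LE M G₁ N) r (∑ t ∈ T, M t * b t) ↔ ∀ t ∈ T, Nr' v N (r - t) (b t) := by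
  classical
  have hN' : Cls v M G G₁ T N := h.mono hN hm
  constructor
  · rintro ⟨a, ha, ha'⟩ t ht
    obtain ⟨c, hc, rfl⟩ := hN'.mem_iff.1 ha
    rw [h.gt_sub_iff (fun t ht => hN (hc t ht)) hb] at ha'
    exact ⟨c t, hc t ht, ha' t ht⟩
  · intro hl
    have h1 : ∀ t : ℝ, ∃ a : Ω, a ∈ N ∧ (t ∈ T → Gt v (r - t) (b t - a)) := by
      intro t
      by_cases ht : t ∈ T
      · obtain ⟨a, ha, ha'⟩ := hl t ht
        exact ⟨a, ha, fun _ => ha'⟩
      · exact ⟨0, N.zero_mem, fun h => absurd h ht⟩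
    choose a ha ha' using h1
    refine ⟨∑ t ∈ T, M t * a t, hN'.sum_mem_LE fun t _ => ha t, ?_⟩
    rw [h.gt_sub_iff (fun t _ => hN (ha t)) hb]
    exact fun t ht => ha' t ht

open Classical in
/-- The components of an element of `B`. -/
theorem single (h : Cls v M G G₁ T B) (w : Ω) :
    ∑ t ∈ T, M t * (if t = 0 then w else 0) = w := by
  rw [Finset.sum_eq_single 0]
  · rw [if_pos rfl, h.ms.zero, one_mul]
  · intro t _ ht
    rw [if_neg ht, mul_zero]
  · intro h0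
    exact absurd h.reps.zero h0

open Classical in
theorem single_mem (w : Ω) (hw : w ∈ B) (t : ℝ) : (if t = 0 then w else 0) ∈ B := by
  split_ifs
  exacts [hw, B.zero_mem]

/-- The components of an element of `B` vanish outside `0`. -/
theorem eq_of_mem (h : Cls v M G G₁ T B) {b : ℝ → Ω} (hb : ∀ t ∈ T, b t ∈ B) {w : Ω} (hw : w ∈ B)
    (he : w = ∑ t ∈ T, M t * b t) : b 0 = w ∧ ∀ t ∈ T, t ≠ 0 → b t = 0 := by
  classical
  have h1 := h.inj hb (c := fun t => if t = 0 then w else 0) (fun t _ => single_mem w hw t)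
    (by rw [h.single, ← he])
  refine ⟨?_, fun t ht h0 => ?_⟩
  · have := h1 0 h.reps.zero
    rwa [if_pos rfl] at this
  · have := h1 t ht
    rwa [if_neg h0] at this

theorem lim_self (h : Cls v M G G₁ T B) (hN : N ≤ B) (hm : ∀ g ∈ G, M g ∈ N) {w : Ω} (hw : w ∈ B)
    {r : ℝ} : Lim v (LE M G₁ N) r w ↔ Lim v N r w := by
  classical
  refine ⟨fun hl => ?_, fun hl => hl.mono le_LE⟩
  have h1 := h.lim_iff hN hm (b := fun t => if t = 0 then w else 0)
    (fun t _ => single_mem w hw t) (r := r)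
  rw [h.single] at h1
  have h2 := h1.1 hl 0 h.reps.zero
  rwa [if_pos rfl, sub_zero] at h2

theorem nr_self (h : Cls v M G G₁ T B) (hN : N ≤ B) (hm : ∀ g ∈ G, M g ∈ N) {w : Ω} (hw : w ∈ B)
    {r : ℝ} : Nr v (LE M G₁ N) r w ↔ Nr v N r w := by
  classical
  refine ⟨fun hl => ?_, fun ⟨a, ha, ha'⟩ => ⟨a, le_LE ha, ha'⟩⟩
  have h1 := h.nr_iff hN hm (b := fun t => if t = 0 then w else 0)
    (fun t _ => single_mem w hw t) (r := r)
  rw [h.single] at h1
  have h2 := h1.1 hl 0 h.reps.zero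
  rwa [if_pos rfl, sub_zero] at h2

theorem nr'_self (h : Cls v M G G₁ T B) (hN : N ≤ B) (hm : ∀ g ∈ G, M g ∈ N) {w : Ω} (hw : w ∈ B)
    {r : ℝ} : Nr' v (LE M G₁ N) r w ↔ Nr' v N r w := by
  classical
  refine ⟨fun hl => ?_, fun ⟨a, ha, ha'⟩ => ⟨a, le_LE ha, ha'⟩⟩
  have h1 := h.nr'_iff hN hm (b := fun t => if t = 0 then w else 0)
    (fun t _ => single_mem w hw t) (r := r)
  rw [h.single] at h1
  have h2 := h1.1 hl 0 h.reps.zero
  rwa [if_pos rfl, sub_zero] at h2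

/-- `D ≤ B` is determined by `LE D`. -/
theorem eq_of_LE (h : Cls v M G G₁ T B) (hD : D ≤ B) (hm : ∀ g ∈ G, M g ∈ D)
    (he : B ≤ LE M G₁ D) : D = B := by
  refine le_antisymm hD fun w hw => ?_
  obtain ⟨d, hd, hw'⟩ := (h.mono hD hm).mem_iff.1 (he hw)
  rw [← (h.eq_of_mem (fun t ht => hD (hd t ht)) hw hw').1]
  exact hd 0 h.reps.zero

/-- `LE B` is closed if `B` is (`Ω` complete). -/
theorem cld (h : Cls v M G G₁ T B) (hc : CompleteV v) (hB : Cld v B) : Cld v (LE M G₁ B) := by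
  classical
  intro w hw
  have h1 : ∀ n : ℕ, ∃ b : ℝ → Ω, (∀ t ∈ T, b t ∈ B) ∧ v.Ge n (w - ∑ t ∈ T, M t * b t) := by
    intro n
    obtain ⟨a, ha, ha'⟩ := (mem_clI.1 hw) n
    obtain ⟨b, hb, rfl⟩ := h.mem_iff.1 ha
    exact ⟨b, hb, ha'⟩
  choose b hb hb' using h1
  have h2 : ∀ (m n : ℕ) (t : ℝ), t ∈ T → v.Ge (min (m : ℝ) n - t) (b m t - b n t) := by
    intro m n t ht
    have h3 : v.Ge (min (m : ℝ) n) (∑ t ∈ T, M t * b m t - ∑ t ∈ T, M t * b n t) := by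
      have h4 := ((hb' n).mono (min_le_right (m : ℝ) n)).sub ((hb' m).mono (min_le_left (m : ℝ) n))
      rwa [sub_sub_sub_cancel_left] at h4
    exact (h.ge_sub_iff (hb n) (hb m)).1 h3 t ht
  have h3 : ∀ t : ℝ, ∃ a : Ω, t ∈ T → a ∈ B ∧ ∀ c : ℝ, ∃ N, ∀ n, N ≤ n → v.Ge c (a - b n t) := by
    intro t
    by_cases ht : t ∈ T
    · obtain ⟨a, ha⟩ := hc (fun n => b n t) fun c => by
        obtain ⟨N, hN⟩ := exists_nat_ge (c + t)
        refine ⟨N, fun m n hm hn => (h2 m n t ht).mono ?_⟩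
        have h4 : (N : ℝ) ≤ min (m : ℝ) n := le_min (by exact_mod_cast hm) (by exact_mod_cast hn)
        linarith
      refine ⟨a, fun _ => ⟨hB ?_, ha⟩⟩
      rw [mem_clI]
      intro c
      obtain ⟨N, hN⟩ := ha c
      exact ⟨b N t, hb N t ht, hN N le_rfl⟩
    · exact ⟨0, fun h => absurd h ht⟩
  choose a ha using h3
  have h4 : w = ∑ t ∈ T, M t * a t := by
    by_contra hne
    have h5 : w - ∑ t ∈ T, M t * a t ≠ 0 := sub_ne_zero.2 hne
    set c := v (w - ∑ t ∈ T, M t * a t) + 1 with hcdef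
    have h6 : ∀ t : ℝ, ∃ N : ℕ, t ∈ T → ∀ n, N ≤ n → v.Ge (c - t) (a t - b n t) := by
      intro t
      by_cases ht : t ∈ T
      · obtain ⟨N, hN⟩ := (ha t ht).2 (c - t)
        exact ⟨N, fun _ => hN⟩
      · exact ⟨0, fun h => absurd h ht⟩
    choose N hN using h6
    obtain ⟨n₀, hn₀⟩ := exists_nat_ge c
    set n := max n₀ (T.sup N) with hn
    have h7 : v.Ge c (∑ t ∈ T, M t * a t - ∑ t ∈ T, M t * b n t) := by
      rw [h.ge_sub_iff (hb n) fun t ht => (ha t ht).1]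
      intro t ht
      exact hN t ht n ((Finset.le_sup ht).trans (le_max_right _ _))
    have h8 : v.Ge c (w - ∑ t ∈ T, M t * b n t) := (hb' n).mono (hn₀.trans
      (by exact_mod_cast le_max_left _ _))
    have h9 := h8.sub h7
    rw [sub_sub_sub_cancel_right] at h9
    have h10 := h9 h5
    rw [hcdef] at h10
    linarith
  rw [h4]
  exact h.sum_mem_LE fun t ht => (ha t ht).1

/-- `LE` and the closure of `F(z)`. -/
theorem cadj_eq (hc : CompleteV v) {z : Ω} (h : Cls v M G G₁ T (cadj v F z)) :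
    cadj v (LE M G₁ F) z = LE M G₁ (cadj v F z) := by
  apply le_antisymm
  · exact cadj_le (h.cld hc (cld_cadj v F z)) (LE_mono (le_cadj v F z))
      (le_LE (self_mem_cadj v F z))
  · refine LE_le ?_ fun g hg => le_cadj v _ z (mon_mem_LE hg)
    exact cadj_le (cld_cadj v _ z) (le_LE.trans (le_cadj v _ z)) (self_mem_cadj v _ z)

/-- The degree of `LE B` over `B`. -/
theorem relfinrank (h : Cls v M G G₁ T B) : IntermediateField.relfinrank B (LE M G₁ B) = T.card := by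
  classical
  rw [IntermediateField.relfinrank_eq_finrank_of_le le_LE]
  have hli : LinearIndependent B (fun t : T => M t) := by
    rw [Fintype.linearIndependent_iff]
    intro g hg t
    have h1 := h.inj (b := fun t => if ht : t ∈ T then (g ⟨t, ht⟩ : Ω) else 0) (c := fun _ => 0)
      (fun t ht => by simp only [dif_pos ht]; exact (g _).2) (fun _ _ => B.zero_mem) (by
        simp only [mul_zero, Finset.sum_const_zero]
        rw [← hg, ← Finset.sum_coe_sort T]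
        refine Finset.sum_congr rfl fun t _ => ?_
        rw [dif_pos t.2, mul_comm]
        rfl) t t.2
    rw [dif_pos t.2] at h1
    exact Subtype.ext h1
  have h2 := finrank_span_eq_card hli
  rw [Fintype.card_coe] at h2
  rw [← h2]
  have h3 : Submodule.span B (Set.range fun t : T => M t) =
      (IntermediateField.extendScalars (le_LE : B ≤ LE M G₁ B)).toSubalgebra.toSubmodule := by
    ext w
    have h4 : w ∈ (IntermediateField.extendScalars
        (le_LE : B ≤ LE M G₁ B)).toSubalgebra.toSubmodule ↔ w ∈ LE M G₁ B := Iff.rfl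
    rw [h4, h.fld_eq]
    have h5 : w ∈ h.fld ↔ w ∈ sp M T B := Iff.rfl
    rw [h5, sp, Set.image_eq_range]
    rfl
  rw [h3]
  rfl

end Cls

end Pool.Agent.TWM
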