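import Pool.Agent.Lib.TWM.X1
import Pool.Agent.Lib.TWM.B1
import Pool.Agent.Lib.TWM.LogC
import Pool.Agent.Lib.TW.T1
import Pool.Agent.Lib.TW.B2
import Pool.Agent.Lib.TW.EDefs

/-!
# TANK W, M2: the exit

* `exit_hrone`: a field `E` of transcendence degree `r + 2` whose closure has a fibration over the
  closure of `k(x)` is henselian rational.
-/

set_option autoImplicit false

open Polynomial

namespace Pool.Agent.TWM

open Pool.Agent.H15JM (RVal)
open Pool.Agent.LU1 (VPos adj)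
open Pool.Agent.LUC (Cl clF)
open Pool.Agent.D2 (Ctx0)
open Pool.Agent.D2P (hen clI mem_clI mem_hen le_hen hen_hen hen_mono)
open Pool.Agent.TW (mon pcomb Orth Ctx Full HRone kr full_of_span)

universe u

variable {k Ω : Type u} [Field k] [Field Ω] [Algebra k Ω] {v : RVal Ω} {r : ℕ}

/-! ### The values of `k(x)` -/

section Val

variable {x : Fin r → Ω}

theorem val_aeval (h : Ctx0 k v) (hx : ∀ i, x i ≠ 0) (hxi : LinearIndependent ℚ fun i => v (x i))
    (P : MvPolynomial (Fin r) k) (hP : MvPolynomial.aeval x P ≠ 0) :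
    ∃ l : Fin r → ℤ, v (MvPolynomial.aeval x P) = ∑ i, l i * v (x i) := by
  classical
  have hP0 : P ≠ 0 := by
    rintro rfl
    exact hP (_root_.map_zero _)
  rw [MvPolynomial.aeval_def, MvPolynomial.eval₂_eq'] at hP ⊢
  have hc : ∀ d ∈ P.support, algebraMap k Ω (P.coeff d) ≠ 0 := fun d hd =>
    (_root_.map_ne_zero _).2 (MvPolynomial.mem_support_iff.1 hd)
  have hm : ∀ d : Fin r →₀ ℕ, ∏ i, x i ^ d i ≠ 0 := fun d =>
    Finset.prod_ne_zero_iff.2 fun i _ => pow_ne_zero _ (hx i)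
  have hval : ∀ d ∈ P.support, v (algebraMap k Ω (P.coeff d) * ∏ i, x i ^ d i) =
      ∑ i, (d i : ℝ) * v (x i) := by
    intro d hd
    rw [v.map_mul (hc d hd) (hm d), h.triv _ (MvPolynomial.mem_support_iff.1 hd), zero_add,
      v.map_prod _ _ fun i _ => pow_ne_zero _ (hx i)]
    exact Finset.sum_congr rfl fun i _ => v.map_pow (hx i) _
  obtain ⟨d, hd, -, h2, -⟩ := val_sum_distinct (v := v) P.support
    (fun d => algebraMap k Ω (P.coeff d) * ∏ i, x i ^ d i)
    (fun d hd => mul_ne_zero (hc d hd) (hm d)) (by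
      intro d hd d' hd' he
      rw [hval d hd, hval d' hd'] at he
      have h3 : ∑ i, ((d i : ℚ) - d' i) • v (x i) = 0 := by
        simp only [Rat.smul_def]
        push_cast
        simp only [sub_mul]
        rw [Finset.sum_sub_distrib, he, sub_self]
      have h4 := Fintype.linearIndependent_iff.1 hxi _ h3
      ext i
      have h5 := h4 i
      have h6 : (d i : ℚ) = d' i := by linarith
      exact_mod_cast h6) (MvPolynomial.support_nonempty.2 hP0)
  refine ⟨fun i => (d i : ℤ), ?_⟩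
  rw [h2, hval d hd]
  simp

theorem val_kr (h : Ctx0 k v) (hx : ∀ i, x i ≠ 0) (hxi : LinearIndependent ℚ fun i => v (x i))
    {a : Ω} (ha : a ∈ kr k x) (h0 : a ≠ 0) : ∃ l : Fin r → ℤ, v a = ∑ i, l i * v (x i) := by
  rw [kr, IntermediateField.mem_adjoin_range_iff] at ha
  obtain ⟨P, Q, rfl⟩ := ha
  have hP : MvPolynomial.aeval x P ≠ 0 := fun h1 => h0 (by rw [h1, zero_div])
  have hQ : MvPolynomial.aeval x Q ≠ 0 := fun h1 => h0 (by rw [h1, div_zero])
  obtain ⟨l, hl⟩ := val_aeval h hx hxi P hP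
  obtain ⟨l', hl'⟩ := val_aeval h hx hxi Q hQ
  refine ⟨l - l', ?_⟩
  rw [v.map_div hP hQ, hl, hl', ← Finset.sum_sub_distrib]
  refine Finset.sum_congr rfl fun i _ => ?_
  simp only [Pi.sub_apply]
  push_cast
  ring

theorem val_NN (h : Ctx0 k v) (hx : ∀ i, x i ≠ 0) (hxi : LinearIndependent ℚ fun i => v (x i))
    {a : Ω} (ha : a ∈ NN k v x) (h0 : a ≠ 0) : ∃ l : Fin r → ℤ, v a = ∑ i, l i * v (x i) := by
  obtain ⟨a', ha', h1⟩ := ha (v a + 1)
  obtain ⟨h2, h3⟩ := Gt.val_eq h0 (Gt.of_ge h1 (by linarith))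
  obtain ⟨l, hl⟩ := val_kr h hx hxi (a := a') ha' h2
  exact ⟨l, by rw [← h3, hl]⟩

theorem x_mem_NNi (i : Fin r) : x i ∈ NN k v x :=
  D2P.mem_clI.2 (LUC.Cl.subset (IntermediateField.subset_adjoin k _ ⟨i, rfl⟩))

/-- The monomials of `x` are orthogonal over the `p`-th powers of the closure of `k(x)`. -/
theorem OI.base (p : ℕ) [Fact p.Prime] (h : Ctx0 k v) (hx : ∀ i, x i ≠ 0)
    (hxi : LinearIndependent ℚ fun i => v (x i)) : OI p v (NN k v x) x 0 := by
  classical
  intro c hc b hb α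
  rw [sub_zero]
  have hp : 0 < p := (Fact.out : p.Prime).pos
  by_cases hcα : c α = 0
  · rw [hcα, zero_pow hp.ne', zero_mul]
    exact RVal.Ge.zero
  set S : Finset (Fin r → Fin p) := Finset.univ.filter fun β => c β ≠ 0 with hS
  have hsum : pcomb x c = ∑ β ∈ S, c β ^ p * mon x β := by
    rw [pcomb, hS, Finset.sum_filter]
    refine Finset.sum_congr rfl fun β _ => ?_
    split_ifs with h1
    · rfl
    · push Not at h1
      rw [h1, zero_pow hp.ne', zero_mul]
  have hne : ∀ β ∈ S, c β ^ p * mon x β ≠ 0 := fun β hβ =>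
    mul_ne_zero (pow_ne_zero _ (Finset.mem_filter.1 hβ).2) (mon_ne hx β)
  choose l hl using fun β : {β // c β ≠ 0} => val_NN h hx hxi (hc β.1) β.2
  have hval : ∀ β (hβ : c β ≠ 0), v (c β ^ p * mon x β) =
      ∑ i, ((p * l ⟨β, hβ⟩ i + ((β i : ℕ) : ℤ) : ℤ) : ℝ) * v (x i) := by
    intro β hβ
    rw [v.map_mul (pow_ne_zero _ hβ) (mon_ne hx β), v.map_pow hβ, hl ⟨β, hβ⟩, mon,
      v.map_prod _ _ fun i _ => pow_ne_zero _ (hx i), Finset.mul_sum, ← Finset.sum_add_distrib]
    refine Finset.sum_congr rfl fun i _ => ?_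
    rw [v.map_pow (hx i)]
    push_cast
    ring
  obtain ⟨β, hβ, h1, h2, h3⟩ := val_sum_distinct (v := v) S (fun β => c β ^ p * mon x β) hne (by
    intro β hβ β' hβ' he
    have hβ0 := (Finset.mem_filter.1 hβ).2
    have hβ0' := (Finset.mem_filter.1 hβ').2
    rw [hval β hβ0, hval β' hβ0'] at he
    have h3 : ∑ i, (((p * l ⟨β, hβ0⟩ i + ((β i : ℕ) : ℤ) : ℤ) : ℚ) -
        ((p * l ⟨β', hβ0'⟩ i + ((β' i : ℕ) : ℤ) : ℤ) : ℚ)) • v (x i) = 0 := by
      simp only [Rat.smul_def]
      push_cast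
      push_cast at he
      simp only [sub_mul]
      rw [Finset.sum_sub_distrib, he, sub_self]
    have h4 := Fintype.linearIndependent_iff.1 hxi _ h3
    funext i
    have h5 := sub_eq_zero.1 (h4 i)
    have h6 : (p : ℤ) * l ⟨β, hβ0⟩ i + ((β i : ℕ) : ℤ) = p * l ⟨β', hβ0'⟩ i + ((β' i : ℕ) : ℤ) := by
      exact_mod_cast h5
    have h7 : ((β i : ℕ) : ℤ) % p = ((β' i : ℕ) : ℤ) % p := by
      have h8 := congrArg (· % (p : ℤ)) h6
      simpa [Int.add_mul_emod_self_left, add_comm] using h8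
    have h8 : ((β i : ℕ) : ℤ) = ((β' i : ℕ) : ℤ) := by
      rw [Int.emod_eq_of_lt (by positivity) (by exact_mod_cast (β i).2),
        Int.emod_eq_of_lt (by positivity) (by exact_mod_cast (β' i).2)] at h7
      exact h7
    exact Fin.ext (by exact_mod_cast h8)) ⟨α, Finset.mem_filter.2 ⟨Finset.mem_univ _, hcα⟩⟩
  intro _
  have h4 := h3 α (Finset.mem_filter.2 ⟨Finset.mem_univ _, hcα⟩)
  rw [hsum] at hb
  have h5 := hb h1
  rw [h2] at h5
  exact h5.trans h4

end Val

/-! ### Fibrations -/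

section Fibr

variable {p : ℕ} [Fact p.Prime] [CharP Ω p] [IsAlgClosed Ω] {A B : IntermediateField k Ω}
  {y z : Ω} {ρ s : ℝ}

omit [IsAlgClosed Ω] in
theorem TL.ne_zero (h : TL v A z s) : z ≠ 0 := (h.far 0 isAlgebraic_zero).1

/-- **A field with a fibration has bounded distortion.** -/
theorem Fib.oi (hF : Fib v A B y z ρ s) {n : ℕ} {t : Fin n → Ω} {C : ℝ} (ho : OI p v A t C)
    (htA : ∀ i, t i ∈ A) (ht0 : ∀ i, t i ≠ 0) :
    ∃ C' : ℝ, OI p v B (Fin.snoc (Fin.snoc t y : Fin (n + 1) → Ω) z : Fin (n + 1 + 1) → Ω) C' := by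
  have h1 := ho.step hF.ty htA ht0
  have h2 := h1.step hF.tz (by
    intro i
    refine Fin.lastCases ?_ (fun j => ?_) i
    · rw [Fin.snoc_last]
      exact self_mem_cadj _ _ _
    · rw [Fin.snoc_castSucc]
      exact le_cadj _ _ _ (htA j)) (by
    intro i
    refine Fin.lastCases ?_ (fun j => ?_) i
    · rw [Fin.snoc_last]
      exact hF.ty.ne_zero
    · rw [Fin.snoc_castSucc]
      exact ht0 j)
  rw [← hF.eq] at h2
  exact ⟨_, h2⟩

end Fibr

/-! ### Spanning and separability -/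

section Sep

variable {p : ℕ} [Fact p.Prime] [CharP Ω p] {n : ℕ} {t : Fin n → Ω}

theorem pcomb_add (c c' : (Fin n → Fin p) → Ω) :
    pcomb t c + pcomb t c' = pcomb t (fun α => c α + c' α) := by
  rw [pcomb, pcomb, pcomb, ← Finset.sum_add_distrib]
  refine Finset.sum_congr rfl fun α _ => ?_
  rw [add_pow_char, add_mul]

/-- `E = E^p(t)` for `E = k(t)`. -/
theorem span_adjoin [IsAlgClosed k] {E : IntermediateField k Ω}
    (hE : E = IntermediateField.adjoin k (Set.range t)) {u : Ω} (hu : u ∈ E) :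
    ∃ c : (Fin n → Fin p) → Ω, (∀ α, c α ∈ E) ∧ u = pcomb t c := by
  classical
  have hp : 0 < p := (Fact.out : p.Prime).pos
  have htE : ∀ i, t i ∈ E := fun i => by
    rw [hE]
    exact IntermediateField.subset_adjoin k _ ⟨i, rfl⟩
  let z₀ : Fin p := ⟨0, hp⟩
  have hmon0 : mon t (fun _ : Fin n => z₀) = 1 := by simp [mon, z₀]
  have hadd : ∀ a b : Ω, (∃ c : (Fin n → Fin p) → Ω, (∀ α, c α ∈ E) ∧ a = pcomb t c) →
      (∃ c : (Fin n → Fin p) → Ω, (∀ α, c α ∈ E) ∧ b = pcomb t c) →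
      ∃ c : (Fin n → Fin p) → Ω, (∀ α, c α ∈ E) ∧ a + b = pcomb t c := by
    rintro a b ⟨c, hc, rfl⟩ ⟨c', hc', rfl⟩
    exact ⟨_, fun α => add_mem (hc α) (hc' α), pcomb_add c c'⟩
  have hzero : ∃ c : (Fin n → Fin p) → Ω, (∀ α, c α ∈ E) ∧ (0 : Ω) = pcomb t c :=
    ⟨fun _ => 0, fun _ => zero_mem _, by simp [pcomb, hp.ne']⟩
  -- `p`-th powers times monomials
  have hterm : ∀ a ∈ E, ∀ m : Fin n → ℕ,
      ∃ c : (Fin n → Fin p) → Ω, (∀ α, c α ∈ E) ∧ a ^ p * ∏ i, t i ^ m i = pcomb t c := by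
    intro a ha m
    refine ⟨fun α => if α = (fun i => ⟨m i % p, Nat.mod_lt _ hp⟩) then
      a * ∏ i, t i ^ (m i / p) else 0, fun α => ?_, ?_⟩
    · dsimp only
      split_ifs
      · exact mul_mem ha (prod_mem fun i _ => pow_mem (htE i) _)
      · exact zero_mem _
    · rw [pcomb, Finset.sum_eq_single (fun i => ⟨m i % p, Nat.mod_lt _ hp⟩)]
      · rw [if_pos rfl, mul_pow, mul_assoc, ← Finset.prod_pow, mon, ← Finset.prod_mul_distrib]
        congr 1
        refine Finset.prod_congr rfl fun i _ => ?_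
        rw [← pow_mul, ← pow_add]
        congr 1
        rw [mul_comm]
        exact (Nat.div_add_mod (m i) p).symm
      · intro β _ hβ
        rw [if_neg hβ, zero_pow hp.ne', zero_mul]
      · intro h
        exact absurd (Finset.mem_univ _) h
  have hsum : ∀ {ι : Type} (S : Finset ι) (f : ι → Ω),
      (∀ i ∈ S, ∃ c : (Fin n → Fin p) → Ω, (∀ α, c α ∈ E) ∧ f i = pcomb t c) →
      ∃ c : (Fin n → Fin p) → Ω, (∀ α, c α ∈ E) ∧ ∑ i ∈ S, f i = pcomb t c := by
    intro ι S f hf
    induction S using Finset.induction_on with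
    | empty => simpa using hzero
    | insert a S ha ih =>
      rw [Finset.sum_insert ha]
      exact hadd _ _ (hf a (Finset.mem_insert_self a S))
        (ih fun i hi => hf i (Finset.mem_insert_of_mem hi))
  have hmul : ∀ a b : Ω, (∃ c : (Fin n → Fin p) → Ω, (∀ α, c α ∈ E) ∧ a = pcomb t c) →
      (∃ c : (Fin n → Fin p) → Ω, (∀ α, c α ∈ E) ∧ b = pcomb t c) →
      ∃ c : (Fin n → Fin p) → Ω, (∀ α, c α ∈ E) ∧ a * b = pcomb t c := by
    rintro a b ⟨c, hc, rfl⟩ ⟨c', hc', rfl⟩
    have h1 : pcomb t c * pcomb t c' = ∑ x : (Fin n → Fin p) × (Fin n → Fin p),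
        (c x.1 * c' x.2) ^ p * ∏ i, t i ^ ((x.1 i : ℕ) + x.2 i) := by
      rw [pcomb, pcomb, Finset.sum_mul_sum, Fintype.sum_prod_type]
      refine Finset.sum_congr rfl fun α _ => Finset.sum_congr rfl fun β _ => ?_
      simp only [pow_add, Finset.prod_mul_distrib, mon, mul_pow]
      ring
    rw [h1]
    exact hsum _ _ fun x _ => hterm _ (mul_mem (hc x.1) (hc' x.2)) _
  have hpow : ∀ a ∈ E, ∃ c : (Fin n → Fin p) → Ω, (∀ α, c α ∈ E) ∧ a ^ p = pcomb t c := by
    intro a ha
    simpa using hterm a ha (fun _ => 0)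
  have hone : ∃ c : (Fin n → Fin p) → Ω, (∀ α, c α ∈ E) ∧ (1 : Ω) = pcomb t c := by
    simpa using hpow 1 (one_mem _)
  have hpows : ∀ (m : ℕ) (a : Ω), (∃ c : (Fin n → Fin p) → Ω, (∀ α, c α ∈ E) ∧ a = pcomb t c) →
      ∃ c : (Fin n → Fin p) → Ω, (∀ α, c α ∈ E) ∧ a ^ m = pcomb t c := by
    intro m a ha
    induction m with
    | zero => simpa using hone
    | succ m ih =>
      rw [pow_succ]
      exact hmul _ _ ih ha
  rw [hE] at hu
  -- closure induction
  let W : Subfield Ω :=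
    { carrier := {a | a ∈ E ∧ ∃ c : (Fin n → Fin p) → Ω, (∀ α, c α ∈ E) ∧ a = pcomb t c}
      mul_mem' := fun ha hb => ⟨mul_mem ha.1 hb.1, hmul _ _ ha.2 hb.2⟩
      one_mem' := ⟨one_mem _, hone⟩
      add_mem' := fun ha hb => ⟨add_mem ha.1 hb.1, hadd _ _ ha.2 hb.2⟩
      zero_mem' := ⟨zero_mem _, hzero⟩
      neg_mem' := by
        rintro a ⟨ha, h1⟩
        refine ⟨neg_mem ha, ?_⟩
        rw [← neg_one_mul]
        refine hmul _ _ ?_ h1
        have h2 := hpow (-1) (neg_mem (one_mem _))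
        have h3 : (-1 : Ω) ^ p = -1 := by
          have h4 : (-1 : Ω) ^ p + 1 ^ p = 0 := by
            rw [← add_pow_char, neg_add_cancel, zero_pow hp.ne']
          rw [one_pow] at h4
          exact eq_neg_of_add_eq_zero_left h4
        rwa [h3] at h2
      inv_mem' := by
        rintro a ⟨ha, h1⟩
        refine ⟨inv_mem ha, ?_⟩
        by_cases h0 : a = 0
        · rw [h0, inv_zero]
          exact hzero
        · have h2 : a⁻¹ = a ^ (p - 1) * a⁻¹ ^ p := by
            have h3 : a ^ p = a ^ (p - 1) * a := by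
              rw [← pow_succ, Nat.sub_add_cancel hp]
            rw [inv_pow, h3]
            field_simp
          rw [h2]
          exact hmul _ _ (hpows _ _ h1) (hpow _ (inv_mem ha)) }
  have hle : IntermediateField.adjoin k (Set.range t) ≤ W.toIntermediateField (by
      intro c
      obtain ⟨d, hd⟩ := IsAlgClosed.exists_pow_nat_eq c hp
      refine ⟨E.algebraMap_mem c, ?_⟩
      rw [← hd, _root_.map_pow]
      exact hpow _ (E.algebraMap_mem d)) := by
    rw [IntermediateField.adjoin_le_iff]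
    rintro _ ⟨i, rfl⟩
    refine ⟨htE i, ?_⟩
    have h1 := hterm 1 (one_mem _) (Pi.single i 1)
    rw [one_pow, one_mul] at h1
    have h2 : ∏ j, t j ^ (Pi.single i 1 : Fin n → ℕ) j = t i := by
      rw [Finset.prod_eq_single i]
      · simp
      · intro j _ hj
        rw [Pi.single_eq_of_ne hj, pow_zero]
      · intro h
        exact absurd (Finset.mem_univ _) h
    rwa [h2] at h1
  exact (hle hu).2

/-- An algebraic element has a separable `p^m`-th power. -/
theorem exists_sep_pow {E₀ : IntermediateField k Ω} {a : Ω} (ha : IsAlgebraic E₀ a) :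
    ∃ m : ℕ, IsSeparable E₀ (a ^ p ^ m) := by
  have hp := (Fact.out : p.Prime)
  have : CharP E₀ p := TW.charP_I p E₀
  have : ExpChar E₀ p := ExpChar.prime hp
  obtain ⟨g, hg, m, hm⟩ := (minpoly.irreducible ha.isIntegral).hasSeparableContraction p
  refine ⟨m, ?_⟩
  have h1 : aeval (a ^ p ^ m) g = 0 := by
    have h2 : aeval a (expand E₀ (p ^ m) g) = 0 := by rw [hm]; exact minpoly.aeval _ _
    rwa [expand_aeval] at h2
  exact hg.of_dvd (minpoly.dvd E₀ _ h1)

/-- If the `p`-span of `t` contains `E₀` and `t` is `p`-independent in `E`, then `E` is separable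
over `E₀`. -/
theorem sep_of_ind {E₀ E : IntermediateField k Ω} (hle : E₀ ≤ E)
    (halg : ∀ a ∈ E, IsAlgebraic E₀ a)
    (hspan : ∀ u ∈ E₀, ∃ c : (Fin n → Fin p) → Ω, (∀ α, c α ∈ E₀) ∧ u = pcomb t c)
    (hind : ∀ c : (Fin n → Fin p) → Ω, (∀ α, c α ∈ E) → pcomb t c = 0 → ∀ α, c α = 0) :
    ∀ a ∈ E, IsSeparable E₀ a := by
  classical
  have hp := (Fact.out : p.Prime)
  have : CharP E₀ p := TW.charP_I p E₀
  have : ExpChar E₀ p := ExpChar.prime hp
  intro a ha
  have hex := exists_sep_pow (p := p) (halg a ha)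
  by_contra hcon
  have hm := Nat.find_spec hex
  have hmin := fun j (hj : j < Nat.find hex) => Nat.find_min hex hj
  set m := Nat.find hex with hmdef
  have hm0 : m ≠ 0 := by
    intro h0
    rw [h0, pow_zero, pow_one] at hm
    exact hcon hm
  obtain ⟨m', hm'⟩ := Nat.exists_eq_succ_of_ne_zero hm0
  have hb1 := hmin m' (by omega)
  rw [hm', Nat.succ_eq_add_one, pow_succ, pow_mul] at hm
  set b := a ^ p ^ m' with hb
  have hbE : b ∈ E := pow_mem ha _
  -- `u = b^p` is in `E₀[u^p]`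
  set w := b ^ p with hw
  have hwE : w ∈ E := pow_mem hbE _
  have h1 : w ∈ IntermediateField.adjoin E₀ {w ^ p} := by
    rw [← IntermediateField.adjoin_simple_eq_adjoin_pow_expChar_of_isSeparable E₀ Ω hm p]
    exact IntermediateField.mem_adjoin_simple_self E₀ w
  have h2 : IsAlgebraic E₀ (w ^ p) := hm.isIntegral.isAlgebraic.pow p
  rw [← IntermediateField.mem_toSubalgebra,
    IntermediateField.adjoin_simple_toSubalgebra_of_isAlgebraic h2,
    Algebra.adjoin_singleton_eq_range_aeval] at h1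
  obtain ⟨f, hf⟩ := h1
  change aeval (w ^ p) f = w at hf
  choose c hc hce using fun i => hspan (f.coeff i : Ω) (f.coeff i).2
  set c' : (Fin n → Fin p) → Ω := fun α =>
    ∑ i ∈ Finset.range (f.natDegree + 1), c i α * w ^ i with hc'
  have hce' : w = pcomb t c' := by
    conv_lhs => rw [← hf, aeval_eq_sum_range]
    rw [pcomb]
    have h3 : ∀ α, c' α ^ p = ∑ i ∈ Finset.range (f.natDegree + 1), c i α ^ p * (w ^ p) ^ i := by
      intro α
      rw [hc']
      simp only
      rw [sum_pow_char]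
      refine Finset.sum_congr rfl fun i _ => ?_
      rw [mul_pow, pow_right_comm w i p]
    simp only [h3, Finset.sum_mul]
    rw [Finset.sum_comm]
    refine Finset.sum_congr rfl fun i _ => ?_
    rw [Algebra.smul_def]
    change (f.coeff i : Ω) * _ = _
    rw [hce i, pcomb, Finset.sum_mul]
    exact Finset.sum_congr rfl fun α _ => by ring
  let z₀ : Fin n → Fin p := fun _ => ⟨0, hp.pos⟩
  have hmon0 : mon t z₀ = 1 := by simp [mon, z₀]
  -- independence
  have h4 : pcomb t (fun α => if α = z₀ then c' α - b else c' α) = 0 := by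
    have h5 : pcomb t (fun α => if α = z₀ then c' α - b else c' α) =
        pcomb t c' - b ^ p := by
      rw [pcomb, pcomb, ← Finset.add_sum_erase _ _ (Finset.mem_univ z₀),
        ← Finset.add_sum_erase _ (fun α => c' α ^ p * mon t α) (Finset.mem_univ z₀)]
      rw [if_pos rfl, hmon0, mul_one, mul_one, sub_pow_char]
      have h6 : ∑ x ∈ Finset.univ.erase z₀, (if x = z₀ then c' x - b else c' x) ^ p * mon t x =
          ∑ x ∈ Finset.univ.erase z₀, c' x ^ p * mon t x :=
        Finset.sum_congr rfl fun α hα => by rw [if_neg (Finset.ne_of_mem_erase hα)]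
      rw [h6]
      ring
    rw [h5, ← hce', sub_self]
  have h5 := hind _ (fun α => by
    have h6 : c' α ∈ E := sum_mem fun i _ => mul_mem (hle (hc i α)) (pow_mem hwE i)
    split_ifs
    · exact sub_mem h6 hbE
    · exact h6) h4 z₀
  rw [if_pos rfl, sub_eq_zero] at h5
  -- so `b = c' z₀` is separable
  apply hb1
  rw [← h5, ← mem_separableClosure_iff]
  have hws : w ∈ separableClosure E₀ Ω := mem_separableClosure_iff.2 hm
  refine sum_mem fun i _ => mul_mem ?_ (pow_mem hws i)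
  exact (separableClosure E₀ Ω).algebraMap_mem (⟨c i z₀, hc i z₀⟩ : E₀)

end Sep

/-! ### Transcendence degrees -/

/-- Algebraic over the subalgebra generated by `S`, hence over every field which contains `S`. -/
theorem alg_of_adjoin {S : Set Ω} {A : IntermediateField k Ω} (hS : S ⊆ A) {a : Ω}
    (ha : IsAlgebraic (Algebra.adjoin k S) a) : IsAlgebraic A a := by
  obtain ⟨P, hP0, hP⟩ := ha
  have hle : Algebra.adjoin k S ≤ A.toSubalgebra := Algebra.adjoin_le hS
  refine ⟨P.map (Subalgebra.inclusion hle).toRingHom, (Polynomial.map_ne_zero_iff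
    (Subalgebra.inclusion_injective hle)).2 hP0, ?_⟩
  rw [aeval_def, eval₂_map] 
  rw [aeval_def] at hP
  exact hP

theorem alg_of_trdeg {ι : Type} [Fintype ι] {E E₀ : IntermediateField k Ω} {w : ι → Ω}
    (hw : AlgebraicIndependent k w) (hwE : ∀ i, w i ∈ E) (hwE₀ : ∀ i, w i ∈ E₀)
    (htr : Algebra.trdeg k E = Fintype.card ι) {a : Ω} (ha : a ∈ E) : IsAlgebraic E₀ a := by
  have h1 : AlgebraicIndependent k (fun i => (⟨w i, hwE i⟩ : E)) :=
    AlgebraicIndependent.of_comp E.val hw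
  have h2 : IsTranscendenceBasis k (fun i => (⟨w i, hwE i⟩ : E)) :=
    h1.isTranscendenceBasis_of_lift_trdeg_le_of_finite (by rw [htr]; simp)
  have h3 : IsAlgebraic (Algebra.adjoin k (Set.range fun i => (⟨w i, hwE i⟩ : E))) (⟨a, ha⟩ : E) :=
    h2.isAlgebraic.isAlgebraic _
  obtain ⟨P, hP0, hP⟩ := h3
  have hmem : ∀ s ∈ Algebra.adjoin k (Set.range fun i => (⟨w i, hwE i⟩ : E)), (s : Ω) ∈ E₀ := by
    intro s hs
    induction hs using Algebra.adjoin_induction with
    | mem x hx =>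
      obtain ⟨i, rfl⟩ := hx
      exact hwE₀ i
    | algebraMap c => exact E₀.algebraMap_mem c
    | add x y _ _ hx hy => exact add_mem hx hy
    | mul x y _ _ hx hy => exact mul_mem hx hy
  let f : Algebra.adjoin k (Set.range fun i => (⟨w i, hwE i⟩ : E)) →+* E₀ :=
    { toFun := fun s => ⟨((s : E) : Ω), hmem s s.2⟩
      map_one' := rfl
      map_mul' := fun _ _ => rfl
      map_zero' := rfl
      map_add' := fun _ _ => rfl }
  have hf : Function.Injective f := by
    intro s s' hss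
    exact Subtype.ext (Subtype.ext (congrArg (fun e : E₀ => (e : Ω)) hss))
  refine ⟨P.map f, (Polynomial.map_ne_zero_iff hf).2 hP0, ?_⟩
  have h4 : ((aeval (⟨a, ha⟩ : E) P : E) : Ω) = ((0 : E) : Ω) := congrArg _ hP
  rw [aeval_eq_sum_range] at h4 ⊢
  rw [natDegree_map_eq_of_injective hf]
  have h5 : (((∑ i ∈ Finset.range (P.natDegree + 1), P.coeff i • (⟨a, ha⟩ : E) ^ i : E)) : Ω) =
      ∑ i ∈ Finset.range (P.natDegree + 1), (((P.coeff i : E) : Ω)) * a ^ i := by
    rw [AddSubmonoidClass.coe_finsetSum]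
    rfl
  rw [h5] at h4
  rw [ZeroMemClass.coe_zero] at h4
  rw [← h4]
  refine Finset.sum_congr rfl fun i _ => ?_
  rw [coeff_map, Algebra.smul_def]
  rfl

theorem full_of_ind (h : Ctx k v r) {x : Fin r → Ω} (hx : ∀ i, x i ≠ 0)
    (hxi : LinearIndependent ℚ fun i => v (x i)) {E : IntermediateField k Ω}
    (hxE : ∀ i, x i ∈ E) : Full v E := by
  obtain ⟨X, hX, hXi, hsp⟩ := h.rank
  refine full_of_span (x := x) (fun i => ⟨hxE i, hx i⟩) fun g hg => ?_
  have h1 : Submodule.span ℚ (Set.range fun i => v (x i)) =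
      Submodule.span ℚ (Set.range fun i => v (X i)) := by
    have : FiniteDimensional ℚ (Submodule.span ℚ (Set.range fun i => v (X i))) :=
      FiniteDimensional.span_of_finite ℚ (Set.finite_range _)
    refine Submodule.eq_of_le_of_finrank_le ?_ ?_
    · rw [Submodule.span_le]
      rintro _ ⟨i, rfl⟩
      exact hsp (x i) (hx i)
    · rw [finrank_span_eq_card hxi, finrank_span_eq_card hXi]
  rw [h1]
  exact hsp g hg

/-! ### The exit -/

/-- **Row M2-X.** -/
theorem exit_hrone [IsAlgClosed Ω] [IsAlgClosed k] (p : ℕ) [Fact p.Prime] [CharP k p]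
    [CharP Ω p] (h : Ctx k v r) {x : Fin r → Ω} (hx : ∀ i, x i ≠ 0)
    (hxi : LinearIndependent ℚ fun i => v (x i)) {E : IntermediateField k Ω}
    (hxE : ∀ i, x i ∈ E) (htr : Algebra.trdeg k E = (r + 2 : ℕ)) {y z : Ω} {ρ s : ℝ}
    (hf : Fib v (NN k v x) (clI v E) y z ρ s) : HRone v E := by
  classical
  have hyB : y ∈ clI v E := by
    rw [hf.eq]
    exact le_cadj _ _ _ (self_mem_cadj _ _ _)
  -- `y'` in `E` near to `y`
  obtain ⟨y', hy'E, hyy'⟩ := hyB (ρ + 1)
  have hE_le : E ≤ clI v E := fun a ha => mem_clI.2 (LUC.Cl.subset ha)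
  obtain ⟨z', hf'⟩ := hf.exists_stab (hE_le hy'E) (Gt.of_ge hyy' (by linarith))
  have hz'B : z' ∈ clI v E := by
    rw [hf'.eq]
    exact self_mem_cadj _ _ _
  -- `z''` in `E` near to `z'`
  obtain ⟨z'', hz''E, hzz''⟩ := hz'B (s + 1)
  have hz''B : z'' ∈ cadj v (cadj v (NN k v x) y') z' := by
    rw [← hf'.eq]
    exact hE_le hz''E
  have hzz : Gt v s (z'' - z') := Gt.sub_comm' (Gt.of_ge hzz'' (by linarith))
  have hf'' : Fib v (NN k v x) (clI v E) y' z'' ρ s :=
    ⟨hf'.ty, hf'.tz.congr hzz, by rw [hf'.tz.cadj_congr hz''B hzz]; exact hf'.eq⟩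
  -- the fields
  set t : Fin (r + 1 + 1) → Ω := Fin.snoc (Fin.snoc x y' : Fin (r + 1) → Ω) z'' with ht
  set E₀ : IntermediateField k Ω := IntermediateField.adjoin k (Set.range t) with hE₀
  have htE : ∀ i, t i ∈ E := by
    intro i
    refine Fin.lastCases ?_ (fun j => ?_) i
    · rw [ht, Fin.snoc_last]
      exact hz''E
    · rw [ht, Fin.snoc_castSucc]
      refine Fin.lastCases ?_ (fun j => ?_) j
      · rw [Fin.snoc_last]
        exact hy'E
      · rw [Fin.snoc_castSucc]
        exact hxE j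
  have ht0 : ∀ i, t i ≠ 0 := by
    intro i
    refine Fin.lastCases ?_ (fun j => ?_) i
    · rw [ht, Fin.snoc_last]
      exact hf''.tz.ne_zero
    · rw [ht, Fin.snoc_castSucc]
      refine Fin.lastCases ?_ (fun j => ?_) j
      · rw [Fin.snoc_last]
        exact hf''.ty.ne_zero
      · rw [Fin.snoc_castSucc]
        exact hx j
  have htE₀ : ∀ i, t i ∈ E₀ := fun i => IntermediateField.subset_adjoin k _ ⟨i, rfl⟩
  have hzE₀ : z'' ∈ E₀ := by
    have := htE₀ (Fin.last _)
    rwa [ht, Fin.snoc_last] at this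
  have hyE₀ : y' ∈ E₀ := by
    have := htE₀ (Fin.last _).castSucc
    rwa [ht, Fin.snoc_castSucc, Fin.snoc_last] at this
  have hxE₀ : ∀ i, x i ∈ E₀ := by
    intro i
    have := htE₀ i.castSucc.castSucc
    rwa [ht, Fin.snoc_castSucc, Fin.snoc_castSucc] at this
  have hle : E₀ ≤ E := by
    rw [hE₀, IntermediateField.adjoin_le_iff]
    rintro _ ⟨i, rfl⟩
    exact htE i
  set N : IntermediateField k Ω := adj (kr k x) y' with hN
  have hkrN : kr k x ≤ N := (D2P.mem_adj_self _ _).2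
  have hNE₀ : adj N z'' = E₀ := by
    refine le_antisymm (D2P.adj_le (D2P.adj_le ?_ hyE₀) hzE₀) ?_
    · rw [kr, IntermediateField.adjoin_le_iff]
      rintro _ ⟨i, rfl⟩
      exact hxE₀ i
    · rw [hE₀, IntermediateField.adjoin_le_iff]
      rintro _ ⟨i, rfl⟩
      refine Fin.lastCases ?_ (fun j => ?_) i
      · rw [ht, Fin.snoc_last]
        exact (D2P.mem_adj_self _ _).1
      · rw [ht, Fin.snoc_castSucc]
        refine (D2P.mem_adj_self N z'').2 ?_
        refine Fin.lastCases ?_ (fun j => ?_) j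
        · rw [Fin.snoc_last]
          exact (D2P.mem_adj_self _ _).1
        · rw [Fin.snoc_castSucc]
          exact hkrN (IntermediateField.subset_adjoin k _ ⟨j, rfl⟩)
  -- transcendence
  have htrz : ¬ IsAlgebraic (cadj v (NN k v x) y') z'' := fun h1 => (hf''.tz.far _ h1).1 rfl
  have htry : ¬ IsAlgebraic (NN k v x) y' := fun h1 => (hf''.ty.far _ h1).1 rfl
  have hNle : N ≤ cadj v (NN k v x) y' := D2P.adj_le
    (fun a ha => le_cadj _ _ _ (D2P.mem_clI.2 (LUC.Cl.subset ha))) (self_mem_cadj _ _ _)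
  have hNz : Transcendental N z'' := fun h1 => htrz (D2P.isAlgebraic_mono hNle h1)
  have hax : AlgebraicIndependent k x := TA.algInd_of_val h.triv hx hxi
  have hay : AlgebraicIndependent k (fun o : Option (Fin r) => o.elim y' x) := by
    refine (hax.option_iff_transcendental y').2 fun h1 => htry ?_
    refine alg_of_adjoin ?_ h1
    rintro _ ⟨i, rfl⟩
    exact x_mem_NNi i
  have haz : AlgebraicIndependent k
      (fun o : Option (Option (Fin r)) => o.elim z'' (fun o : Option (Fin r) => o.elim y' x)) := by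
    refine (hay.option_iff_transcendental z'').2 fun h1 => htrz ?_
    refine alg_of_adjoin ?_ h1
    rintro _ ⟨i, rfl⟩
    rcases i with _ | i
    · exact self_mem_cadj _ _ _
    · exact le_cadj _ _ _ (x_mem_NNi i)
  have halg : ∀ a ∈ E, IsAlgebraic E₀ a := by
    intro a ha
    refine alg_of_trdeg haz ?_ ?_ (by
      rw [htr]
      simp only [Fintype.card_option, Fintype.card_fin]) ha
    · rintro (_ | _ | i)
      exacts [hz''E, hy'E, hxE i]
    · rintro (_ | _ | i)
      exacts [hzE₀, hyE₀, hxE₀ i]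
  -- separability
  obtain ⟨C', hC'⟩ := hf''.oi (OI.base p h.toCtx0 hx hxi) (fun i => x_mem_NNi i) hx
  have hsep : ∀ a ∈ E, IsSeparable E₀ a := sep_of_ind (p := p) (t := t) hle halg
    (fun u hu => span_adjoin hE₀ hu)
    (fun c hc h0 => hC'.ind ht0 c (fun α => hE_le (hc α)) h0)
  -- the closures
  have hclmono : ∀ {A A' : IntermediateField k Ω}, A ≤ A' → clI v A ≤ clI v A' :=
    fun h1 a ha => D2P.cl_mono h1 ha
  have hEcl : clI v E ≤ clI v E₀ := by
    rw [hf''.eq]
    refine cadj_le (cld_clI _ _) (cadj_le (cld_clI _ _) ?_ ?_) ?_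
    · refine hclmono ?_
      rw [IntermediateField.adjoin_le_iff]
      rintro _ ⟨i, rfl⟩
      exact hxE₀ i
    · exact mem_clI.2 (LUC.Cl.subset hyE₀)
    · exact mem_clI.2 (LUC.Cl.subset hzE₀)
  have hEhen : E ≤ hen v E₀ := fun a ha => mem_hen.2 ⟨hEcl (hE_le ha), hsep a ha⟩
  refine ⟨N, z'', ?_, full_of_ind h hx hxi fun i => hkrN
    (IntermediateField.subset_adjoin k _ ⟨i, rfl⟩), hNz, ?_⟩
  · exact IntermediateField.fg_sup
      (IntermediateField.fg_adjoin_of_finite (Set.finite_range x))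
      (IntermediateField.fg_adjoin_of_finite (Set.finite_singleton y'))
  · rw [hNE₀]
    refine le_antisymm ?_ (hen_mono hle)
    have h1 := hen_mono (v := v) hEhen
    rwa [hen_hen] at h1

end Pool.Agent.TWM
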