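import Pool.Agent.Lib.TWM.Stab
import Pool.Agent.Lib.TWM.X2
import Pool.Agent.Lib.TW.P1
import Pool.Agent.Lib.TW.P2a
import Pool.Agent.Lib.TW.Exit
import Pool.Agent.Lib.TW.BA

/-!
# TANK W, M2, the entry: coordinates over the closure of `k(x)`

* `Crd p v K x y z`: `x` is a basis of the values of `K`, the closure of `K` is the closure of
  `k(x, y, z)` and `(x, y, z)` is `p`-independent with bounded distortion;
* `Crd.ty`: `y` is of transcendental type over the closure `N` of `k(x)`;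
* `Crd.bz`: `z` is at bounded distance from the closure of `N(y)`; `Crd.lz`: the radius of `z`;
* `exists_crd`: a field with local uniformization and bounded derivations has such coordinates.
-/

set_option autoImplicit false

open Polynomial

namespace Pool.Agent.TWM

open Pool.Agent.H15JM (RVal)
open Pool.Agent.LU1 (VPos adj)
open Pool.Agent.LUC (Cl clF)
open Pool.Agent.D2 (Ctx0)
open Pool.Agent.D2P (hen mem_hen le_hen clI mem_clI mem_adj_self adj_le)
open Pool.Agent.TW (mon pcomb Orth PBasis BD LU Fr mx Ctx Full valG)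

universe u

variable {k Ω : Type u} [Field k] [Field Ω] [Algebra k Ω] {v : RVal Ω} {r : ℕ}

/-! ### Distances -/

section Far

variable {p : ℕ} [Fact p.Prime] [CharP Ω p] {n : ℕ} {A : IntermediateField k Ω} {t : Fin n → Ω}
  {z : Ω} {C : ℝ}

/-- `p`-independence with bounded distortion gives bounded distances. -/
theorem OI.far_last [IsAlgClosed k]
    (h : OI p v A (Fin.snoc t z : Fin (n + 1) → Ω) C) (ht : ∀ i, t i ∈ A) (ht0 : ∀ i, t i ≠ 0)
    (hz0 : z ≠ 0) {a : Ω} (ha : a ∈ IntermediateField.adjoin k (Set.range t)) :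
    z ≠ a ∧ v (z - a) ≤ v z + C := by
  classical
  have hp : 1 < p := (Fact.out : p.Prime).one_lt
  have hp0 : 0 < p := (Fact.out : p.Prime).pos
  obtain ⟨c, hc, hac⟩ := span_adjoin (p := p) (t := t) rfl ha
  have hle : IntermediateField.adjoin k (Set.range t) ≤ A :=
    IntermediateField.adjoin_le_iff.2 (by rintro _ ⟨i, rfl⟩; exact ht i)
  let z₀ : Fin p := ⟨0, hp0⟩
  let z₁ : Fin p := ⟨1, hp⟩
  let e : Fin (n + 1) → Fin p := Fin.snoc (fun _ : Fin n => z₀) z₁
  -- the coefficients of `z - a`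
  let d₁ : (Fin (n + 1) → Fin p) → Ω := fun α =>
    if α (Fin.last n) = z₀ then - c (fun i => α i.castSucc) else 0
  let d₂ : (Fin (n + 1) → Fin p) → Ω := fun α => if α = e then 1 else 0
  have he0 : e (Fin.last n) ≠ z₀ := by
    intro h1
    have h2 : (e (Fin.last n) : ℕ) = 0 := by rw [h1]
    simp [e, z₁] at h2
  have hd : ∀ α, d₁ α + d₂ α ∈ A := by
    intro α
    refine add_mem ?_ ?_
    · dsimp only [d₁]
      split_ifs
      · exact neg_mem (hle (hc _))
      · exact zero_mem _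
    · dsimp only [d₂]
      split_ifs
      · exact one_mem _
      · exact zero_mem _
  have hmone : mon (Fin.snoc t z : Fin (n + 1) → Ω) e = z := by
    rw [mon_snoc]
    simp [mon, z₀, z₁]
  have hs2 : pcomb (Fin.snoc t z : Fin (n + 1) → Ω) d₂ = z := by
    rw [pcomb, Finset.sum_eq_single e]
    · rw [hmone]
      simp [d₂]
    · intro α _ hα
      simp [d₂, hα, hp0.ne']
    · intro h1
      exact absurd (Finset.mem_univ _) h1
  have hs1 : pcomb (Fin.snoc t z : Fin (n + 1) → Ω) d₁ = -a := by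
    rw [pcomb, sum_snoc, Finset.sum_eq_single z₀]
    · rw [hac, pcomb, ← Finset.sum_neg_distrib]
      refine Finset.sum_congr rfl fun β _ => ?_
      rw [mon_snoc]
      have h1 : d₁ (Fin.snoc β z₀) = - c β := by simp [d₁]
      rw [h1, TW.P1.neg_pow_p]
      simp [z₀]
    · intro i _ hi
      refine Finset.sum_eq_zero fun β _ => ?_
      have h1 : d₁ (Fin.snoc β i) = 0 := by simp [d₁, hi]
      rw [h1, zero_pow hp0.ne', zero_mul]
    · intro h1
      exact absurd (Finset.mem_univ _) h1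
  have hsum : pcomb (Fin.snoc t z : Fin (n + 1) → Ω) (fun α => d₁ α + d₂ α) = z - a := by
    rw [← pcomb_add, hs1, hs2]
    ring
  have hde : d₁ e + d₂ e = 1 := by
    simp only [d₁, d₂, if_neg he0, if_true, zero_add]
  have hst0 : ∀ i, (Fin.snoc t z : Fin (n + 1) → Ω) i ≠ 0 := by
    intro i
    refine Fin.lastCases ?_ (fun j => ?_) i
    · rw [Fin.snoc_last]
      exact hz0
    · rw [Fin.snoc_castSucc]
      exact ht0 j
  refine ⟨fun hza => ?_, ?_⟩
  · have h1 := h.ind hst0 _ hd (by rw [hsum, hza, sub_self]) e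
    rw [hde] at h1
    exact one_ne_zero h1
  · have h1 := h _ hd (v (z - a)) (by rw [hsum]; exact v.ge_self _) e
    rw [hde, one_pow, one_mul, hmone] at h1
    have h2 := h1 hz0
    linarith

omit [CharP Ω p] in
/-- Forget the last element. -/
theorem OI.init (h : OI p v A (Fin.snoc t z : Fin (n + 1) → Ω) C) : OI p v A t C := by
  classical
  have hp0 : 0 < p := (Fact.out : p.Prime).pos
  intro c hc b hb β
  let z₀ : Fin p := ⟨0, hp0⟩
  let d : (Fin (n + 1) → Fin p) → Ω := fun α =>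
    if α (Fin.last n) = z₀ then c (fun i => α i.castSucc) else 0
  have hs : pcomb (Fin.snoc t z : Fin (n + 1) → Ω) d = pcomb t c := by
    rw [pcomb, sum_snoc, Finset.sum_eq_single z₀]
    · rw [pcomb]
      refine Finset.sum_congr rfl fun β _ => ?_
      rw [mon_snoc]
      have h1 : d (Fin.snoc β z₀) = c β := by simp [d]
      rw [h1]
      simp [z₀]
    · intro i _ hi
      refine Finset.sum_eq_zero fun β _ => ?_
      have h1 : d (Fin.snoc β i) = 0 := by simp [d, hi]
      rw [h1, zero_pow hp0.ne', zero_mul]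
    · intro h1
      exact absurd (Finset.mem_univ _) h1
  have h1 := h d (by
    intro α
    dsimp only [d]
    split_ifs
    · exact hc _
    · exact zero_mem _) b (by rw [hs]; exact hb) (Fin.snoc β z₀)
  have h2 : d (Fin.snoc β z₀) = c β := by simp [d]
  rw [h2, mon_snoc] at h1
  simpa [z₀] using h1

end Far

/-- The distances from the closure. -/
theorem far_clI {A : IntermediateField k Ω} {z : Ω} {c : ℝ}
    (h : ∀ a ∈ A, z ≠ a ∧ v (z - a) ≤ c) {a : Ω} (ha : a ∈ clI v A) : z ≠ a ∧ v (z - a) ≤ c := by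
  by_contra hcon
  have h1 : Gt v c (z - a) := by
    intro h0
    by_contra h2
    exact hcon ⟨sub_ne_zero.1 h0, not_lt.1 h2⟩
  obtain ⟨b, hb, h2⟩ := mem_clI.1 ha (c + 1)
  have h3 : Gt v c (z - b) := by
    rw [show z - b = (z - a) + (a - b) by ring]
    exact h1.add (Gt.of_ge h2 (by linarith))
  obtain ⟨h4, h5⟩ := h b hb
  exact absurd (h3 (sub_ne_zero.2 h4)) (not_lt.2 h5)

/-- Orthogonality and independence. -/
theorem OI.of_orth {p : ℕ} [Fact p.Prime] {E : IntermediateField k Ω} {n : ℕ} {t : Fin n → Ω}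
    {C : ℝ} (h : Orth p v E t C) (ht : PBasis p E t) : OI p v E t C := by
  have hp0 : 0 < p := (Fact.out : p.Prime).pos
  intro c hc b hb α
  by_cases h0 : pcomb t c = 0
  · rw [ht.ind c hc h0 α, zero_pow hp0.ne', zero_mul]
    exact RVal.Ge.zero
  · exact (h c hc h0 α).mono (by linarith [hb h0])

/-- The closure. -/
theorem OI.cl {p : ℕ} [Fact p.Prime] [CharP Ω p] {A : IntermediateField k Ω} {n : ℕ}
    {t : Fin n → Ω} {C : ℝ} (h : OI p v A t C) : OI p v (clI v A) t C := by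
  classical
  have hp0 : 0 < p := (Fact.out : p.Prime).pos
  intro c hc b hb α
  have hap : ∀ β, ∃ c' ∈ A, v.Ge (max b (b - C)) ((c β - c') ^ p * mon t β) := by
    intro β
    obtain ⟨c', hc', h1⟩ := mem_clI.1 (hc β) ((max b (b - C) - v (mon t β)) / p)
    refine ⟨c', hc', ?_⟩
    have h2 := ge_pow h1 p
    rw [mul_div_cancel₀ _ (by exact_mod_cast hp0.ne')] at h2
    exact (RVal.Ge.mul h2 (v.ge_self (mon t β))).mono (by linarith)
  choose c' hc' h1 using hap
  have h2 : pcomb t c' = pcomb t c - ∑ β, (c β - c' β) ^ p * mon t β := by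
    rw [pcomb, pcomb, ← Finset.sum_sub_distrib]
    refine Finset.sum_congr rfl fun β _ => ?_
    rw [sub_pow_char]
    ring
  have h3 : v.Ge b (pcomb t c') := by
    rw [h2]
    refine hb.sub (RVal.Ge.sum Finset.univ _ fun β _ => ?_)
    exact (h1 β).mono (le_max_left _ _)
  have h4 := h c' hc' b h3 α
  have h5 : c α ^ p * mon t α = c' α ^ p * mon t α + (c α - c' α) ^ p * mon t α := by
    rw [sub_pow_char]
    ring
  rw [h5]
  exact h4.add ((h1 α).mono (le_max_right _ _))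

/-! ### Closures -/

theorem clI_adj_clI {A : IntermediateField k Ω} {z : Ω} :
    cadj v (clI v A) z = clI v (adj A z) := by
  refine le_antisymm ?_ ?_
  · refine cadj_le (cld_clI v _) (clI_mono fun a ha => (mem_adj_self A z).2 ha) ?_
    exact mem_clI.2 (LUC.Cl.subset (mem_adj_self A z).1)
  · refine clI_mono (adj_le ?_ ?_)
    · intro a ha
      exact (mem_adj_self _ z).2 (mem_clI.2 (LUC.Cl.subset ha))
    · exact (mem_adj_self _ z).1

theorem adj_range {n : ℕ} (t : Fin n → Ω) (z : Ω) :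
    adj (IntermediateField.adjoin k (Set.range t)) z =
      IntermediateField.adjoin k (Set.range (Fin.snoc t z : Fin (n + 1) → Ω)) := by
  refine le_antisymm ?_ ?_
  · refine adj_le (IntermediateField.adjoin_le_iff.2 ?_) ?_
    · rintro _ ⟨i, rfl⟩
      exact IntermediateField.subset_adjoin _ _ ⟨i.castSucc, Fin.snoc_castSucc ..⟩
    · exact IntermediateField.subset_adjoin _ _ ⟨Fin.last n, Fin.snoc_last ..⟩
  · refine IntermediateField.adjoin_le_iff.2 ?_
    rintro _ ⟨i, rfl⟩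
    refine Fin.lastCases ?_ (fun j => ?_) i
    · rw [Fin.snoc_last]
      exact (mem_adj_self _ z).1
    · rw [Fin.snoc_castSucc]
      exact (mem_adj_self _ z).2 (IntermediateField.subset_adjoin _ _ ⟨j, rfl⟩)

theorem cadj_NN (x : Fin r → Ω) (y : Ω) : cadj v (NN k v x) y =
    clI v (IntermediateField.adjoin k (Set.range (Fin.snoc x y : Fin (r + 1) → Ω))) := by
  rw [NN, clI_adj_clI, adj_range]

theorem cadj_cadj_NN (x : Fin r → Ω) (y z : Ω) : cadj v (cadj v (NN k v x) y) z =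
    clI v (IntermediateField.adjoin k
      (Set.range (Fin.snoc (Fin.snoc x y : Fin (r + 1) → Ω) z : Fin (r + 1 + 1) → Ω))) := by
  rw [cadj_NN, clI_adj_clI, adj_range]

theorem clI_hen (E : IntermediateField k Ω) : clI v (hen v E) = clI v E :=
  le_antisymm ((clI_mono (F := clI v E) fun _ ha => mem_clI.2 (mem_hen.1 ha).1).trans
    (cld_clI v E)) (clI_mono (le_hen E))

theorem clI_clI (E : IntermediateField k Ω) : clI v (clI v E) = clI v E :=
  le_antisymm (cld_clI v E) fun _ ha => mem_clI.2 (LUC.Cl.subset ha)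

/-! ### Immediate extensions of `N` -/

theorem imm_of_val (h : Ctx0 k v) {x : Fin r → Ω} (hx : ∀ i, x i ≠ 0)
    {K : IntermediateField k Ω} (hxK : ∀ i, x i ∈ K)
    (hval : ∀ b ∈ K, b ≠ 0 → ∃ l : Fin r → ℤ, v b = v (mx x l)) :
    Imm v (NN k v x) (clI v K) where
  le := clI_mono (IntermediateField.adjoin_le_iff.2 (by rintro _ ⟨i, rfl⟩; exact hxK i))
  imm := by
    intro b hb hb0
    obtain ⟨b', hb', h1⟩ := mem_clI.1 hb (v b + 1)
    obtain ⟨h2, h3⟩ := Gt.val_eq hb0 (Gt.of_ge h1 (by linarith))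
    obtain ⟨l, hl⟩ := hval b' hb' h2
    have hm0 : mx x l ≠ 0 := mx_ne hx l
    have hq0 : b' / mx x l ≠ 0 := div_ne_zero h2 hm0
    obtain ⟨c, hc0, hc⟩ := h.res (b' / mx x l) hq0 (by rw [v.map_div h2 hm0, hl, sub_self])
    refine ⟨algebraMap k Ω c * mx x l, mul_mem ((NN k v x).algebraMap_mem c) (mx_mem_NN x l), ?_⟩
    rw [show b - algebraMap k Ω c * mx x l = (b - b') + (b' - algebraMap k Ω c * mx x l) by ring]
    refine (Gt.of_ge h1 (by linarith)).add ?_
    have h4 : b' - algebraMap k Ω c * mx x l = (b' / mx x l - algebraMap k Ω c) * mx x l := by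
      field_simp
    rw [h4]
    intro h5
    have h6 : b' / mx x l - algebraMap k Ω c ≠ 0 := left_ne_zero_of_mul h5
    rw [v.map_mul h6 hm0, ← h3, hl]
    have h7 := hc h6
    linarith

/-! ### Coordinates -/

/-- Coordinates of `K`: `x` is a basis of the values, `K` is dense in the closure of `k(x, y, z)`,
`(x, y, z)` is `p`-independent with bounded distortion. -/
structure Crd (p : ℕ) (v : RVal Ω) (K : IntermediateField k Ω) (x : Fin r → Ω) (y z : Ω) :
    Prop where
  x_mem : ∀ i, x i ∈ K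
  y_mem : y ∈ K
  z_mem : z ∈ K
  x_ne : ∀ i, x i ≠ 0
  y_ne : y ≠ 0
  z_ne : z ≠ 0
  x_ind : LinearIndependent ℚ fun i => v (x i)
  val : ∀ b ∈ K, b ≠ 0 → ∃ l : Fin r → ℤ, v b = v (mx x l)
  cl : clI v K = cadj v (cadj v (NN k v x) y) z
  oi : ∃ C : ℝ, OI p v (clI v K) (Fin.snoc (Fin.snoc x y : Fin (r + 1) → Ω) z :
    Fin (r + 1 + 1) → Ω) C

namespace Crd

variable {p : ℕ} {K : IntermediateField k Ω} {x : Fin r → Ω} {y z : Ω}

theorem x_cl (h : Crd p v K x y z) (i : Fin r) : x i ∈ clI v K := le_clI K (h.x_mem i)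

theorem imm (h : Crd p v K x y z) (h0 : Ctx0 k v) : Imm v (NN k v x) (clI v K) :=
  imm_of_val h0 h.x_ne h.x_mem h.val

theorem N_le (h : Crd p v K x y z) : NN k v x ≤ clI v K :=
  clI_mono (IntermediateField.adjoin_le_iff.2 (by rintro _ ⟨i, rfl⟩; exact h.x_mem i))

theorem F_le (h : Crd p v K x y z) : cadj v (NN k v x) y ≤ clI v K :=
  cadj_le (cld_clI v K) h.N_le (le_clI K h.y_mem)

/-- The values of the closure of `N(y)`. -/
theorem immF (h : Crd p v K x y z) (h0 : Ctx0 k v) : Imm v (cadj v (NN k v x) y) (clI v K) where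
  le := h.F_le
  imm := fun b hb hb0 => by
    obtain ⟨a, ha, h1⟩ := (h.imm h0).imm b hb hb0
    exact ⟨a, le_cadj v _ _ ha, h1⟩

theorem bz [Fact p.Prime] [CharP Ω p] [IsAlgClosed k] (h : Crd p v K x y z) :
    ∃ C : ℝ, ∀ a ∈ cadj v (NN k v x) y, z ≠ a ∧ v (z - a) ≤ C := by
  obtain ⟨C, hC⟩ := h.oi
  refine ⟨v z + C, fun a ha => ?_⟩
  rw [cadj_NN] at ha
  refine far_clI (fun b hb => hC.far_last ?_ ?_ h.z_ne hb) ha
  · intro i
    refine Fin.lastCases ?_ (fun j => ?_) i
    · rw [Fin.snoc_last]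
      exact le_clI K h.y_mem
    · rw [Fin.snoc_castSucc]
      exact h.x_cl j
  · intro i
    refine Fin.lastCases ?_ (fun j => ?_) i
    · rw [Fin.snoc_last]
      exact h.y_ne
    · rw [Fin.snoc_castSucc]
      exact h.x_ne j

theorem by' [Fact p.Prime] [CharP Ω p] [IsAlgClosed k] (h : Crd p v K x y z) :
    ∃ C : ℝ, ∀ a ∈ NN k v x, y ≠ a ∧ v (y - a) ≤ C := by
  obtain ⟨C, hC⟩ := h.oi
  exact ⟨v y + C, fun a ha => far_clI (fun b hb => hC.init.far_last h.x_cl h.x_ne h.y_ne hb) ha⟩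

/-- `y` is of transcendental type over `N`. -/
theorem ty [IsAlgClosed Ω] [IsAlgClosed k] [Fact p.Prime] [CharP k p] [CharP Ω p]
    (h : Crd p v K x y z) (h0 : Ctx k v r) (hc : CompleteV v) :
    ∃ ρ : ℝ, TL v (NN k v x) y ρ := by
  obtain ⟨C, hC⟩ := h.by'
  exact TL.nn p h0 hc h.x_ne h.x_ind (h.imm h0.toCtx0) (le_clI K h.y_mem) hC

end Crd

/-- The radius: a bounded distance in an immediate extension is a supremum which is not
attained. -/
theorem exists_lim {A B : IntermediateField k Ω} (hi : Imm v A B) {z : Ω} (hz : z ∈ B) {C : ℝ}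
    (hb : ∀ a ∈ A, z ≠ a ∧ v (z - a) ≤ C) :
    ∃ s : ℝ, Lim v A s z ∧ ∀ a ∈ A, z ≠ a ∧ v (z - a) < s := by
  set S : Set ℝ := (fun a => v (z - a)) '' (A : Set Ω) with hS
  have hSne : S.Nonempty := ⟨_, 0, zero_mem A, rfl⟩
  have hSb : BddAbove S := ⟨C, by rintro _ ⟨a, ha, rfl⟩; exact (hb a ha).2⟩
  refine ⟨sSup S, fun ε hε => ?_, fun a ha => ⟨(hb a ha).1, ?_⟩⟩
  · obtain ⟨_, ⟨a, ha, rfl⟩, h1⟩ := exists_lt_of_lt_csSup hSne (sub_lt_self (sSup S) hε)
    exact ⟨a, ha, fun _ => h1.le⟩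
  · refine lt_of_le_of_ne (le_csSup hSb ⟨a, ha, rfl⟩) fun heq => ?_
    obtain ⟨a', ha', h1⟩ := hi.nr hz (r := v (z - a)) ⟨a, ha, v.ge_self _⟩
    have h2 := h1 (sub_ne_zero.2 (hb a' ha').1)
    have h3 := le_csSup hSb ⟨a', ha', rfl⟩
    simp only at h3
    linarith

namespace Crd

variable {p : ℕ} {K : IntermediateField k Ω} {x : Fin r → Ω} {y z : Ω}

/-- The radius of `z` over the closure of `N(y)`. -/
theorem lz [Fact p.Prime] [CharP Ω p] [IsAlgClosed k] (h : Crd p v K x y z) (h0 : Ctx0 k v) :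
    ∃ s : ℝ, Lim v (cadj v (NN k v x) y) s z ∧
      ∀ a ∈ cadj v (NN k v x) y, z ≠ a ∧ v (z - a) < s := by
  obtain ⟨C, hC⟩ := h.bz
  exact exists_lim (h.immF h0) (le_clI K h.z_mem) hC

/-- The fibration, if the algebraic elements are far from `z`. -/
theorem fib [IsAlgClosed Ω] [IsAlgClosed k] [Fact p.Prime] [CharP k p] [CharP Ω p]
    (h : Crd p v K x y z) (h0 : Ctx k v r) (hc : CompleteV v) {s : ℝ}
    (hz : TL v (cadj v (NN k v x) y) z s) :
    ∃ ρ : ℝ, Fib v (NN k v x) (clI v K) y z ρ s := by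
  obtain ⟨ρ, hρ⟩ := h.ty h0 hc
  exact ⟨ρ, hρ, hz, h.cl⟩

end Crd

/-! ### Existence -/

omit [Field Ω] in
theorem snoc_append (x : Fin r → Ω) (y : Fin 2 → Ω) :
    (Fin.append x y : Fin (r + 2) → Ω) =
      (Fin.snoc (Fin.snoc x (y 0) : Fin (r + 1) → Ω) (y 1) : Fin (r + 1 + 1) → Ω) := by
  funext i
  refine Fin.addCases (fun i => ?_) (fun j => ?_) i
  · rw [Fin.append_left]
    have h1 : (Fin.castAdd 2 i : Fin (r + 2)) = (i.castSucc).castSucc := rfl
    rw [h1, Fin.snoc_castSucc, Fin.snoc_castSucc]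
  · rw [Fin.append_right]
    fin_cases j
    · have h1 : (Fin.natAdd r (0 : Fin 2) : Fin (r + 2)) = (Fin.last r).castSucc := rfl
      simp only [Fin.zero_eta]
      rw [h1, Fin.snoc_castSucc, Fin.snoc_last]
    · have h1 : (Fin.natAdd r (1 : Fin 2) : Fin (r + 2)) = Fin.last (r + 1) := rfl
      simp only [Fin.mk_one]
      rw [h1, Fin.snoc_last]

/-- Coordinates from a frame which contains the values of `K`. -/
theorem crd_of_frame [IsAlgClosed Ω] [IsAlgClosed k] (p : ℕ) [Fact p.Prime] [CharP k p]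
    [CharP Ω p] (h : Ctx k v r) {K : IntermediateField k Ω} (hBD : BD p v K)
    (F : Fr k v r 2) (hF : F.IsFr K)
    (hval : ∀ b ∈ K, b ≠ 0 → ∃ l : Fin r → ℤ, v b = v (mx F.x l)) :
    Crd p v K F.x (F.y 0) (F.y 1) := by
  have hhen := hF.hen_eq p h
  have hKle : F.K ≤ K := TW.P2.K_le hF
  have hKh : K ≤ hen v F.K := by
    rw [← hhen]
    exact le_hen K
  have hpb : PBasis p K F.s := F.pbasis p h hKle hKh
  obtain ⟨C, hC⟩ := hBD.orth hpb
  have hs : F.s = (Fin.snoc (Fin.snoc F.x (F.y 0) : Fin (r + 1) → Ω) (F.y 1) :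
    Fin (r + 1 + 1) → Ω) := snoc_append F.x F.y
  have hcl : clI v K = clI v F.K := by
    rw [← clI_hen K, hhen, clI_hen]
  refine ⟨hF.x_mem, hF.y_mem 0, hF.y_mem 1, F.x_ne, F.y_ne 0, F.y_ne 1, F.x_ind, hval, ?_, ?_⟩
  · rw [hcl, cadj_cadj_NN, TW.P1.K_eq F, hs]
  · refine ⟨C, ?_⟩
    have h1 := (OI.of_orth hC hpb).cl
    rw [hs] at h1
    exact h1

/-- **The coordinates of the entry.** A field of transcendence degree `r + 2` with bounded
derivations, local uniformization and finitely generated value group. -/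
theorem exists_crd [IsAlgClosed Ω] [IsAlgClosed k] (p : ℕ) [Fact p.Prime] [CharP k p]
    [CharP Ω p] (h : Ctx k v r) {K : IntermediateField k Ω} (hK : K.FG)
    (htr : Algebra.trdeg k K = (r + 2 : ℕ)) (hBD : BD p v K) (hLU : LU p v r K)
    (hG : (valG v K).FG) (Z : Finset Ω) (hZ : ∀ a ∈ Z, a ∈ K ∧ a ≠ 0) :
    ∃ F : Fr k v r 2, F.IsFr K ∧ (∀ a ∈ Z, F.Mono a) ∧ Crd p v K F.x (F.y 0) (F.y 1) := by
  classical
  obtain ⟨n, t, ht⟩ := TW.exists_PBasis (p := p) hK
  have hn : n = r + 2 := by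
    have h1 := (ht.trdeg p hK).1
    rw [htr] at h1
    exact_mod_cast h1.symm
  subst hn
  obtain ⟨T, hT⟩ := hG
  have hTm : ∀ γ ∈ T, ∃ g ∈ K, g ≠ 0 ∧ v g = γ := by
    intro γ hγ
    have h1 : γ ∈ valG v K := by
      rw [← hT]
      exact AddSubgroup.subset_closure hγ
    exact h1
  choose! g hgK hg0 hgv using hTm
  obtain ⟨F, hF, hM, -⟩ := hLU 2 t ht (Z ∪ T.image g) (by
    intro a ha
    rcases Finset.mem_union.1 ha with h1 | h1
    · exact hZ a h1
    · obtain ⟨γ, hγ, rfl⟩ := Finset.mem_image.1 h1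
      exact ⟨hgK γ hγ, hg0 γ hγ⟩)
  refine ⟨F, hF, fun a ha => hM a (Finset.mem_union_left _ ha), crd_of_frame p h hBD F hF ?_⟩
  -- the values of the monomials are a group
  have hle : valG v K ≤ GG v F.x := by
    rw [← hT, AddSubgroup.closure_le]
    intro γ hγ
    obtain ⟨l, w, -, hw0, hw, h2⟩ := hM (g γ)
      (Finset.mem_union_right _ (Finset.mem_image_of_mem _ hγ))
    refine ⟨l, ?_⟩
    rw [← v_mx F.x_ne, ← hgv γ hγ, h2, v.map_mul (mx_ne F.x_ne l) hw0, hw, add_zero]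
  intro b hb hb0
  obtain ⟨l, hl⟩ := hle ⟨b, hb, hb0, rfl⟩
  exact ⟨l, by rw [v_mx F.x_ne, hl]⟩

end Pool.Agent.TWM
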