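import Pool.Agent.Lib.TWM.G3
import Pool.Agent.Lib.TWM.Lau

/-!
# TANK W, M2, block G4: change of the basis of the limits

`B` is the closure of `A(y, z)`, `y` of radius `ρ` over `A`, `z` of radius `s` over the closure of
`A(y)` and a limit of `A` up to `s`. If `θ₁, θ₂` in `B` generate the same span as `y, z` modulo
`A + O(>)`, then `B` is the closure of `A(θ₁, θ₂)`, in two steps of radii `r₁`, `r₂` (`Fib.basis`).

Proof: Euclid's algorithm on the first column of the matrix of `θ₁, θ₂` in the basis `y, z`; the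
steps are exchanges (`Fib.swap`) and changes of the second generator (`TL.generator`).
-/

set_option autoImplicit false

open Polynomial

namespace Pool.Agent.TWM

open Pool.Agent.H15JM (RVal)
open Pool.Agent.LU1 (VPos adj)
open Pool.Agent.LUC (Cl clF)
open Pool.Agent.D2 (Ctx0)
open Pool.Agent.D2P (hen clI mem_clI adj_le mem_adj_self)

universe u

variable {k Ω : Type u} [Field k] [Field Ω] [Algebra k Ω] {v : RVal Ω}
  {p : ℕ} {G : AddSubgroup ℝ} {M : ℝ → Ω} {A F B : IntermediateField k Ω} {y z : Ω} {ρ s r : ℝ}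

theorem Nr'.mono {A' : IntermediateField k Ω} {w : Ω} (h : Nr' v A r w) (hA : A ≤ A') :
    Nr' v A' r w := by
  obtain ⟨a, ha, h1⟩ := h
  exact ⟨a, hA ha, h1⟩

theorem Nr'.lim {w : Ω} (h : Nr' v A r w) : Lim v A r w := by
  obtain ⟨a, ha, h1⟩ := h
  exact fun ε hε => ⟨a, ha, h1.ge.mono (by linarith)⟩

theorem Nr'.self {w : Ω} (h : w ∈ A) : Nr' v A r w :=
  ⟨w, h, by rw [sub_self]; exact Gt.zero⟩

theorem Nr'.add {w w' : Ω} (h : Nr' v A r w) (h' : Nr' v A r w') : Nr' v A r (w + w') := by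
  obtain ⟨a, ha, h1⟩ := h
  obtain ⟨a', ha', h1'⟩ := h'
  refine ⟨a + a', add_mem ha ha', ?_⟩
  rw [add_sub_add_comm]
  exact h1.add h1'

theorem Nr'.neg {w : Ω} (h : Nr' v A r w) : Nr' v A r (-w) := by
  obtain ⟨a, ha, h1⟩ := h
  refine ⟨-a, neg_mem ha, ?_⟩
  rw [neg_sub_neg, ← neg_sub]
  exact h1.neg

theorem Nr'.sub {w w' : Ω} (h : Nr' v A r w) (h' : Nr' v A r w') : Nr' v A r (w - w') := by
  rw [sub_eq_add_neg]
  exact h.add h'.neg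

open Classical in
theorem ev_eq_range (f : k[X]) (w : Ω) : ev p M s r f w =
    ∑ j ∈ Finset.range (f.natDegree + 1),
      (if f.coeff j = 0 then 0 else algebraMap k Ω (f.coeff j) * M (r - (p : ℝ) ^ j * s)) *
        w ^ p ^ j := by
  rw [ev, sum_over_range]
  · refine Finset.sum_congr rfl fun j _ => ?_
    split_ifs with h
    · rw [h, _root_.map_zero, zero_mul]
    · rfl
  · intro j
    rw [_root_.map_zero, zero_mul, zero_mul]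

variable [Fact p.Prime] [CharP Ω p] [IsAlgClosed Ω]

/-- A non trivial operator, applied to `z`, is far from the algebraic elements. -/
theorem TL.ev_far (h : Ctx0 k v) (hM : MS v G M) (hF : ∀ g ∈ G, M g ∈ F) (hz : TL v F z s)
    {f : k[X]} (hf : IsOp p G s r f) (hf0 : f ≠ 0) {θ : Ω} (hθ : IsAlgebraic F θ) :
    ev p M s r f z ≠ θ ∧ v (ev p M s r f z - θ) < r := by
  classical
  have h1 : f.coeff f.natDegree ≠ 0 := by
    rw [coeff_natDegree]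
    exact leadingCoeff_ne_zero.2 hf0
  have h2 := hf _ h1
  have h3 := (map_ne_zero (algebraMap k Ω)).2 h1
  have h4 := hM.ne _ h2
  rw [ev_eq_range]
  have h5 := hz.germ_far p (e := f.natDegree + 1)
    (c := fun j => if f.coeff j = 0 then 0 else
      algebraMap k Ω (f.coeff j) * M (r - (p : ℝ) ^ j * s))
    (fun j => by
      split_ifs with h0
      · exact zero_mem _
      · exact le_algc F (mul_mem (F.algebraMap_mem _) (hF _ (hf j h0))))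
    (i := f.natDegree) (Nat.lt_succ_self _) (by
      rw [if_neg h1]
      exact mul_ne_zero h3 h4) hθ
  refine ⟨h5.1, h5.2.trans_eq ?_⟩
  rw [if_neg h1, v.map_mul h3 h4, h.triv _ h1, hM.val _ h2]
  push_cast
  ring

/-- **G2**, the uniqueness. -/
theorem TL.ev_free (h : Ctx0 k v) (hM : MS v G M) (hA : ∀ g ∈ G, M g ∈ A) (hy : TL v A y ρ)
    (hz : TL v (cadj v A y) z s) {P Q : k[X]} (hP : IsOp p G ρ r P) (hQ : IsOp p G s r Q)
    (h0 : Nr' v A r (ev p M ρ r P y + ev p M s r Q z)) : P = 0 ∧ Q = 0 := by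
  obtain ⟨a, ha, h1⟩ := h0
  have hQ0 : Q = 0 := by
    by_contra hne
    have hA' : ∀ g ∈ G, M g ∈ cadj v A y := fun g hg => le_cadj _ _ _ (hA g hg)
    have h2 : a - ev p M ρ r P y ∈ cadj v A y :=
      _root_.sub_mem (le_cadj _ _ _ ha) (ev_mem hA' hP (self_mem_cadj _ _ _))
    obtain ⟨h3, h4⟩ := hz.ev_far h hM hA' hQ hne
      (isAlgebraic_algebraMap (R := cadj v A y) (⟨_, h2⟩ : cadj v A y))
    have h5 := h1 (by
      intro h6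
      apply h3
      change _ = a - ev p M ρ r P y
      linear_combination h6)
    have h7 : ev p M ρ r P y + ev p M s r Q z - a = ev p M s r Q z - (a - ev p M ρ r P y) := by
      ring
    rw [h7] at h5
    exact lt_asymm h5 h4
  refine ⟨?_, hQ0⟩
  by_contra hne
  rw [hQ0, ev_zero, add_zero] at h1
  obtain ⟨h3, h4⟩ := hy.ev_far h hM hA hP hne (isAlgebraic_algebraMap (R := A) (⟨_, ha⟩ : A))
  exact lt_asymm (h1 (sub_ne_zero.2 h3)) h4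

/-- The second generator may be changed. -/
theorem Fib.gen (hF : Fib v A B y z ρ s) {c w : Ω} (hc : c ∈ A) (hc0 : c ≠ 0) (hw : w ∈ B)
    (hr : v c + s = r) (h : Nr' v (cadj v A y) r (w - c * z)) : Fib v A B y w ρ r := by
  obtain ⟨f, hf, h1⟩ := h
  refine hF.gen₂ (le_cadj _ _ _ hc) hc0 hf hw hr ?_
  rwa [← sub_sub]

/-- `x` is in the span of `θ₁, θ₂` modulo `A + O(>)`. -/
def Sp (v : RVal Ω) (A : IntermediateField k Ω) (p : ℕ) (G : AddSubgroup ℝ) (M : ℝ → Ω)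
    (θ₁ θ₂ : Ω) (r₁ r₂ t : ℝ) (x : Ω) : Prop :=
  ∃ Q₁ Q₂ : k[X], IsOp p G r₁ t Q₁ ∧ IsOp p G r₂ t Q₂ ∧
    Nr' v A t (x - (ev p M r₁ t Q₁ θ₁ + ev p M r₂ t Q₂ θ₂))

/-- `θ₁, θ₂` in `B` generate the same span as `y, z` modulo `A + O(>)`. -/
structure Bs (v : RVal Ω) (A B : IntermediateField k Ω) (p : ℕ) (G : AddSubgroup ℝ) (M : ℝ → Ω)
    (y z : Ω) (ρ s : ℝ) (θ₁ θ₂ : Ω) (r₁ r₂ : ℝ) (P₁ R₁ P₂ R₂ : k[X]) : Prop where
  m₁ : θ₁ ∈ B
  m₂ : θ₂ ∈ B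
  oP₁ : IsOp p G ρ r₁ P₁
  oR₁ : IsOp p G s r₁ R₁
  oP₂ : IsOp p G ρ r₂ P₂
  oR₂ : IsOp p G s r₂ R₂
  e₁ : Nr' v A r₁ (θ₁ - (ev p M ρ r₁ P₁ y + ev p M s r₁ R₁ z))
  e₂ : Nr' v A r₂ (θ₂ - (ev p M ρ r₂ P₂ y + ev p M s r₂ R₂ z))
  spy : Sp v A p G M θ₁ θ₂ r₁ r₂ ρ y
  spz : Sp v A p G M θ₁ θ₂ r₁ r₂ s z

omit [Fact p.Prime] [CharP Ω p] [IsAlgClosed Ω] in
theorem Sp.swap {θ₁ θ₂ : Ω} {r₁ r₂ t : ℝ} {x : Ω} (h : Sp v A p G M θ₁ θ₂ r₁ r₂ t x) :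
    Sp v A p G M θ₂ θ₁ r₂ r₁ t x := by
  obtain ⟨Q₁, Q₂, h1, h2, h3⟩ := h
  exact ⟨Q₂, Q₁, h2, h1, by rwa [add_comm]⟩

omit [Fact p.Prime] [CharP Ω p] [IsAlgClosed Ω] in
theorem Bs.swap {θ₁ θ₂ : Ω} {r₁ r₂ : ℝ} {P₁ R₁ P₂ R₂ : k[X]}
    (h : Bs v A B p G M y z ρ s θ₁ θ₂ r₁ r₂ P₁ R₁ P₂ R₂) :
    Bs v A B p G M y z ρ s θ₂ θ₁ r₂ r₁ P₂ R₂ P₁ R₁ :=
  ⟨h.m₂, h.m₁, h.oP₂, h.oR₂, h.oP₁, h.oR₁, h.e₂, h.e₁, h.spy.swap, h.spz.swap⟩

section

variable [CharP k p] {θ₁ θ₂ : Ω} {r₁ r₂ : ℝ} {P₁ R₁ P₂ R₂ : k[X]}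

omit [IsAlgClosed Ω] [CharP k p] in
theorem Bs.lim₁ (h : Ctx0 k v) (hM : MS v G M) (hA : ∀ g ∈ G, M g ∈ A) (hF : Fib v A B y z ρ s)
    (hl : Lim v A s z) (hB : Bs v A B p G M y z ρ s θ₁ θ₂ r₁ r₂ P₁ R₁ P₂ R₂) : Lim v A r₁ θ₁ := by
  have hL := gsub_Lim (k := k) (p := p) h hM hA (le_top : A ≤ ⊤)
  have h1 := hL.add _ _ _ (hL.ev hB.oP₁ ⟨IntermediateField.mem_top, hF.ty.lim⟩)
    (hL.ev hB.oR₁ ⟨IntermediateField.mem_top, hl⟩)
  have h2 := hL.add _ _ _ ⟨IntermediateField.mem_top, hB.e₁.lim⟩ h1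
  rw [sub_add_cancel] at h2
  exact h2.2

/-- The first column of the matrix of the change of basis. -/
theorem Bs.mat (h : Ctx0 k v) (hM : MS v G M) (hA : ∀ g ∈ G, M g ∈ A) (hF : Fib v A B y z ρ s)
    (hB : Bs v A B p G M y z ρ s θ₁ θ₂ r₁ r₂ P₁ R₁ P₂ R₂) {t : ℝ} {x : Ω} {Q₁ Q₂ P R : k[X]}
    (hQ₁ : IsOp p G r₁ t Q₁) (hQ₂ : IsOp p G r₂ t Q₂)
    (hx : Nr' v A t (x - (ev p M r₁ t Q₁ θ₁ + ev p M r₂ t Q₂ θ₂)))
    (hP : IsOp p G ρ t P) (hR : IsOp p G s t R)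
    (hx' : x = ev p M ρ t P y + ev p M s t R z) :
    P = tw p Q₁ P₁ + tw p Q₂ P₂ ∧ R = tw p Q₁ R₁ + tw p Q₂ R₂ := by
  have hZ := gsub_Nr' (k := k) (p := p) h hM hA
  have h1 := hZ.ev hQ₁ hB.e₁
  have h2 := hZ.ev hQ₂ hB.e₂
  have h3 := (hx.add h1).add h2
  rw [hx', ev_sub_right, ev_sub_right, ev_add_right, ev_add_right, ← ev_tw hM hB.oP₁ hQ₁,
    ← ev_tw hM hB.oR₁ hQ₁, ← ev_tw hM hB.oP₂ hQ₂, ← ev_tw hM hB.oR₂ hQ₂] at h3
  have h4 := hF.ty.ev_free h hM hA hF.tz (hP.sub ((hB.oP₁.tw hQ₁).add (hB.oP₂.tw hQ₂)))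
    (hR.sub ((hB.oR₁.tw hQ₁).add (hB.oR₂.tw hQ₂))) (by
      rw [ev_sub, ev_sub, ev_add, ev_add]
      convert h3 using 1
      ring)
  exact ⟨sub_eq_zero.1 h4.1, sub_eq_zero.1 h4.2⟩

omit [Fact p.Prime] [CharP k p] in
theorem IsOp.one : IsOp p G s s (1 : k[X]) := by
  intro j hj
  rw [coeff_one] at hj
  split_ifs at hj with h
  · rw [h, pow_zero, one_mul, sub_self]
    exact G.zero_mem
  · exact absurd rfl hj

/-- The case of a triangular matrix. -/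
theorem Bs.base (h : Ctx0 k v) (hM : MS v G M) (hA : ∀ g ∈ G, M g ∈ A) (hF : Fib v A B y z ρ s)
    (hl : Lim v A s z) (hB : Bs v A B p G M y z ρ s θ₁ θ₂ r₁ r₂ P₁ R₁ 0 R₂) :
    Fib v A B θ₁ θ₂ r₁ r₂ := by
  obtain ⟨S₁, S₂, hS₁, hS₂, h1⟩ := hB.spy
  obtain ⟨T₁, T₂, hT₁, hT₂, h2⟩ := hB.spz
  have h3 := (hB.mat h hM hA hF hS₁ hS₂ h1 (IsOp.one (s := ρ)) IsOp.zero
    (by rw [ev_one hM, ev_zero, add_zero])).1
  have h4 := hB.mat h hM hA hF hT₁ hT₂ h2 IsOp.zero (IsOp.one (s := s))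
    (by rw [ev_one hM, ev_zero, zero_add])
  rw [tw_zero_right, add_zero] at h3
  obtain ⟨h4, h5⟩ := h4
  rw [tw_zero_right, add_zero] at h4
  have hP₁ : P₁ ≠ 0 := by
    rintro rfl
    rw [tw_zero_right] at h3
    exact one_ne_zero h3
  have hT0 : T₁ = 0 := by
    by_contra hne
    exact tw_ne_zero hne hP₁ h4.symm
  rw [hT0, tw_zero_left, zero_add] at h5
  have hR₂ : R₂ ≠ 0 := by
    rintro rfl
    rw [tw_zero_right] at h5
    exact one_ne_zero h5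
  obtain ⟨a, rfl⟩ := natDegree_eq_zero.1 (tw_eq_one h3.symm).2
  obtain ⟨b, rfl⟩ := natDegree_eq_zero.1 (tw_eq_one h5.symm).2
  have ha : a ≠ 0 := by rintro rfl; exact hP₁ C_0
  have hb : b ≠ 0 := by rintro rfl; exact hR₂ C_0
  have hev : ∀ (t t' : ℝ) (a : k) (w : Ω), ev p M t t' (C a) w = algebraMap k Ω a * M (t' - t) * w := by
    intro t t' a w
    have := ev_mono (p := p) (M := M) (s := t) (r := t') a 0 w
    rwa [pow_zero, mul_one, pow_zero, pow_zero, one_mul, pow_one] at this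
  have haG : r₁ - ρ ∈ G := by
    have := hB.oP₁ 0 (by rwa [coeff_C_zero])
    rwa [pow_zero, one_mul] at this
  have hbG : r₂ - s ∈ G := by
    have := hB.oR₂ 0 (by rwa [coeff_C_zero])
    rwa [pow_zero, one_mul] at this
  have hval : ∀ (a : k) (t : ℝ), a ≠ 0 → t ∈ G → algebraMap k Ω a * M t ≠ 0 ∧
      v (algebraMap k Ω a * M t) = t := by
    intro a t ha ht
    have h1 := (map_ne_zero (algebraMap k Ω)).2 ha
    have h2 := hM.ne _ ht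
    exact ⟨mul_ne_zero h1 h2, by rw [v.map_mul h1 h2, h.triv _ ha, hM.val _ ht, zero_add]⟩
  obtain ⟨ha0, hav⟩ := hval a _ ha haG
  obtain ⟨hb0, hbv⟩ := hval b _ hb hbG
  have he₂ := hB.e₂
  rw [ev_zero, zero_add, hev] at he₂
  have he₁ := hB.e₁
  rw [hev] at he₁
  -- `θ₂` as second generator
  have hF1 : Fib v A B y θ₂ ρ r₂ := hF.gen (mul_mem (A.algebraMap_mem _) (hA _ hbG)) hb0 hB.m₂
    (by rw [hbv]; ring) (he₂.mono (le_cadj _ _ _))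
  have hF2 : Fib v A B θ₂ y r₂ ρ := hF1.swap (hB.swap.lim₁ h hM hA hF hl)
  -- `z` in terms of `θ₂`
  have hA' : ∀ g ∈ G, M g ∈ cadj v A θ₂ := fun g hg => le_cadj _ _ _ (hA g hg)
  have hZ' := gsub_Nr' (k := k) (p := p) h hM hA'
  have hz : Nr' v (cadj v A θ₂) s z := by
    obtain ⟨n, hn, h6⟩ := he₂
    refine ⟨(algebraMap k Ω b * M (r₂ - s))⁻¹ * (θ₂ - n), mul_mem
      (inv_mem (mul_mem (IntermediateField.algebraMap_mem _ _) (hA' _ hbG)))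
      (sub_mem (self_mem_cadj _ _ _) (le_cadj _ _ _ hn)), ?_⟩
    have h7 := h6.neg.mul_ge (RVal.ge_self (v := v) (algebraMap k Ω b * M (r₂ - s))⁻¹)
    rw [v.map_inv hb0, hbv] at h7
    have h8 : z - (algebraMap k Ω b * M (r₂ - s))⁻¹ * (θ₂ - n) =
        -(θ₂ - algebraMap k Ω b * M (r₂ - s) * z - n) * (algebraMap k Ω b * M (r₂ - s))⁻¹ := by
      linear_combination (-z) * mul_inv_cancel₀ hb0
    rw [h8]
    exact h7.mono (by linarith)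
  have hF3 : Fib v A B θ₂ θ₁ r₂ r₁ := hF2.gen (mul_mem (A.algebraMap_mem _) (hA _ haG)) ha0 hB.m₁
    (by rw [hav]; ring) (by
      have h6 := (he₁.mono (le_cadj v A θ₂)).add (hZ'.ev hB.oR₁ hz)
      convert h6 using 1
      ring)
  exact hF3.swap (hB.lim₁ h hM hA hF hl)

/-- The division step. -/
theorem exists_div (hP₁ : IsOp p G ρ r₁ P₁) (hP₂ : IsOp p G ρ r₂ P₂) (h₁ : P₁ ≠ 0) (h₂ : P₂ ≠ 0)
    (hd : P₂.natDegree ≤ P₁.natDegree) :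
    ∃ Q : k[X], IsOp p G r₂ r₁ Q ∧ sz (P₁ - tw p Q P₂) < sz P₁ := by
  set d := P₁.natDegree - P₂.natDegree with hdd
  have hl₁ := leadingCoeff_ne_zero.2 h₁
  have hl₂ := leadingCoeff_ne_zero.2 h₂
  set a : k := P₁.leadingCoeff / P₂.leadingCoeff ^ p ^ d with ha
  have ha0 : a ≠ 0 := div_ne_zero hl₁ (pow_ne_zero _ hl₂)
  have hQ : (C a * X ^ d : k[X]).natDegree = d := natDegree_C_mul_X_pow d a ha0
  have hQl : (C a * X ^ d : k[X]).leadingCoeff = a := by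
    rw [leadingCoeff, hQ, coeff_C_mul_X_pow, if_pos rfl]
  have hQ0 : (C a * X ^ d : k[X]) ≠ 0 := by
    rw [← leadingCoeff_ne_zero, hQl]
    exact ha0
  refine ⟨C a * X ^ d, IsOp.mono fun _ => ?_, sz_lt h₁ ?_ ?_⟩
  · have h3 := hP₁ P₁.natDegree hl₁
    have h4 := hP₂ P₂.natDegree hl₂
    have h5 := G.sub_mem h3 (G.nsmul_mem h4 (p ^ d))
    rw [nsmul_eq_mul] at h5
    convert h5 using 1
    have h6 : (p : ℝ) ^ P₁.natDegree = (p : ℝ) ^ d * (p : ℝ) ^ P₂.natDegree := by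
      rw [← pow_add]
      congr 1
      omega
    rw [h6]
    push_cast
    ring
  · refine (natDegree_sub_le _ _).trans (max_le le_rfl ?_)
    refine (tw_natDegree_le _ _).trans ?_
    rw [hQ]
    omega
  · have h3 := tw_ne_zero_aux (p := p) (C a * X ^ d) P₂
    rw [hQ, hQl] at h3
    have h4 : P₁.natDegree = d + P₂.natDegree := by omega
    rw [coeff_sub]
    conv_lhs => rw [h4]
    rw [h3, ← h4, coeff_natDegree, ha]
    field_simp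
    ring

omit [IsAlgClosed Ω] in
/-- One step of Euclid's algorithm. -/
theorem Bs.sub (h : Ctx0 k v) (hM : MS v G M) (hA : ∀ g ∈ G, M g ∈ A) (hAB : A ≤ B)
    (hB : Bs v A B p G M y z ρ s θ₁ θ₂ r₁ r₂ P₁ R₁ P₂ R₂) {Q : k[X]} (hQ : IsOp p G r₂ r₁ Q) :
    Bs v A B p G M y z ρ s (θ₁ - ev p M r₂ r₁ Q θ₂) θ₂ r₁ r₂ (P₁ - tw p Q P₂) (R₁ - tw p Q R₂)
      P₂ R₂ := by
  have hZ := gsub_Nr' (k := k) (p := p) h hM hA
  have hsp : ∀ {t : ℝ} {x : Ω}, Sp v A p G M θ₁ θ₂ r₁ r₂ t x →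
      Sp v A p G M (θ₁ - ev p M r₂ r₁ Q θ₂) θ₂ r₁ r₂ t x := by
    rintro t x ⟨Q₁, Q₂, h1, h2, h3⟩
    refine ⟨Q₁, Q₂ + tw p Q₁ Q, h1, h2.add (hQ.tw h1), ?_⟩
    rw [ev_sub_right, ev_add, ev_tw hM hQ h1]
    convert h3 using 1
    ring
  refine ⟨sub_mem hB.m₁ (ev_mem (fun g hg => hAB (hA g hg)) hQ hB.m₂), hB.m₂,
    hB.oP₁.sub (hB.oP₂.tw hQ), hB.oR₁.sub (hB.oR₂.tw hQ), hB.oP₂, hB.oR₂, ?_, hB.e₂, hsp hB.spy,
    hsp hB.spz⟩
  have h1 := hB.e₁.sub (hZ.ev hQ hB.e₂)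
  rw [ev_sub_right, ev_add_right, ← ev_tw hM hB.oP₂ hQ, ← ev_tw hM hB.oR₂ hQ] at h1
  rw [ev_sub, ev_sub]
  convert h1 using 1
  ring

theorem Bs.fib (h : Ctx0 k v) (hM : MS v G M) (hA : ∀ g ∈ G, M g ∈ A) (hF : Fib v A B y z ρ s)
    (hl : Lim v A s z) (n : ℕ) : ∀ {θ₁ θ₂ : Ω} {r₁ r₂ : ℝ} {P₁ R₁ P₂ R₂ : k[X]},
    sz P₁ + sz P₂ ≤ n → Bs v A B p G M y z ρ s θ₁ θ₂ r₁ r₂ P₁ R₁ P₂ R₂ →
      Fib v A B θ₁ θ₂ r₁ r₂ := by
  have hAB : A ≤ B := by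
    rw [hF.eq]
    exact (le_cadj _ _ _).trans (le_cadj _ _ _)
  induction n with
  | zero =>
    intro θ₁ θ₂ r₁ r₂ P₁ R₁ P₂ R₂ hn hB
    have h2 : P₂ = 0 := by
      by_contra hne
      rw [sz, sz, if_neg hne] at hn
      omega
    subst h2
    exact hB.base h hM hA hF hl
  | succ n ih =>
    have key : ∀ {θ₁ θ₂ : Ω} {r₁ r₂ : ℝ} {P₁ R₁ P₂ R₂ : k[X]},
        sz P₁ + sz P₂ ≤ n + 1 → Bs v A B p G M y z ρ s θ₁ θ₂ r₁ r₂ P₁ R₁ P₂ R₂ →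
        P₁ ≠ 0 → P₂ ≠ 0 → P₂.natDegree ≤ P₁.natDegree → Fib v A B θ₁ θ₂ r₁ r₂ := by
      intro θ₁ θ₂ r₁ r₂ P₁ R₁ P₂ R₂ hn hB h₁ h₂ hd
      obtain ⟨Q, hQ, hlt⟩ := exists_div hB.oP₁ hB.oP₂ h₁ h₂ hd
      have hB' := hB.sub h hM hA hAB hQ
      have hF1 : Fib v A B (θ₁ - ev p M r₂ r₁ Q θ₂) θ₂ r₁ r₂ := ih (by omega) hB'
      have hF2 := hF1.swap (hB.swap.lim₁ h hM hA hF hl)
      have hA' : ∀ g ∈ G, M g ∈ cadj v A θ₂ := fun g hg => le_cadj _ _ _ (hA g hg)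
      have hF3 : Fib v A B θ₂ θ₁ r₂ r₁ := hF2.gen (one_mem _) one_ne_zero hB.m₁
        (by rw [v.map_one, zero_add]) (by
          rw [one_mul, sub_sub_cancel]
          exact Nr'.self (ev_mem hA' hQ (self_mem_cadj _ _ _)))
      exact hF3.swap (hB.lim₁ h hM hA hF hl)
    intro θ₁ θ₂ r₁ r₂ P₁ R₁ P₂ R₂ hn hB
    by_cases h₂ : P₂ = 0
    · subst h₂
      exact hB.base h hM hA hF hl
    by_cases h₁ : P₁ = 0
    · subst h₁
      exact (hB.swap.base h hM hA hF hl).swap (hB.lim₁ h hM hA hF hl)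
    rcases le_total P₂.natDegree P₁.natDegree with hd | hd
    · exact key hn hB h₁ h₂ hd
    · exact (key (by omega) hB.swap h₂ h₁ hd).swap (hB.lim₁ h hM hA hF hl)

/-- **G4**, for two elements. -/
theorem Fib.basis (h : Ctx0 k v) (hM : MS v G M) (hA : ∀ g ∈ G, M g ∈ A) (hF : Fib v A B y z ρ s)
    (hl : Lim v A s z) (hB : Bs v A B p G M y z ρ s θ₁ θ₂ r₁ r₂ P₁ R₁ P₂ R₂) :
    Fib v A B θ₁ θ₂ r₁ r₂ := hB.fib h hM hA hF hl _ le_rfl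

end

/-! ### Germs -/

/-- **A6** in terms of operators. -/
theorem TL.exists_ev (h : Ctx0 k v) (hM : MS v G M) (hF : ∀ g ∈ G, M g ∈ F)
    (hv : ∀ b ∈ F, b ≠ 0 → v b ∈ G) (hz : TL v F z s) {w : Ω} (hw : w ∈ cadj v F z)
    (hl : Lim v F r w) : ∃ Q : k[X], IsOp p G s r Q ∧ Nr' v F r (w - ev p M s r Q z) := by
  classical
  obtain ⟨f, hf, e, c, hc, h1⟩ := hz.germ p
    (M := {m | ∃ (a : k) (g : ℝ), a ≠ 0 ∧ g ∈ G ∧ m = algebraMap k Ω a * M g}) (fun c hc hc0 => by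
      have h1 := hv c hc hc0
      have h2 := hM.ne _ h1
      obtain ⟨a, ha, h3⟩ := h.res (c / M (v c)) (div_ne_zero hc0 h2) (by
        rw [v.map_div hc0 h2, hM.val _ h1, sub_self])
      refine ⟨algebraMap k Ω a * M (v c), ⟨a, v c, ha, h1, rfl⟩,
        mul_mem (F.algebraMap_mem _) (hF _ h1), ?_⟩
      intro h4
      have h5 : c - algebraMap k Ω a * M (v c) = (c / M (v c) - algebraMap k Ω a) * M (v c) := by
        field_simp
      rw [h5] at h4 ⊢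
      have h6 := left_ne_zero_of_mul h4
      rw [v.map_mul h6 h2, hM.val _ h1]
      have h7 := h3 h6
      linarith) hw hl
  have hc' : ∀ i, ∃ a : k, (a ≠ 0 → r - (p : ℝ) ^ i * s ∈ G) ∧
      c i = algebraMap k Ω a * M (r - (p : ℝ) ^ i * s) := by
    intro i
    rcases hc i with h2 | ⟨⟨a, g, ha, hg, h2⟩, -, h3, h4⟩
    · exact ⟨0, fun h0 => absurd rfl h0, by rw [h2, _root_.map_zero, zero_mul]⟩
    · have h5 : v (c i) = g := by
        rw [h2, v.map_mul ((map_ne_zero (algebraMap k Ω)).2 ha) (hM.ne _ hg), h.triv _ ha,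
          hM.val _ hg, zero_add]
      have h6 : g = r - (p : ℝ) ^ i * s := by
        rw [← h5, ← h4]
        push_cast
        ring
      exact ⟨a, fun _ => h6 ▸ hg, by rw [h2, h6]⟩
  choose a ha1 ha2 using hc'
  refine ⟨∑ i ∈ Finset.range e, C (a i) * X ^ i, IsOp.sum fun i _ => IsOp.mono (ha1 i), f, hf, ?_⟩
  have h2 : ev p M s r (∑ i ∈ Finset.range e, C (a i) * X ^ i) z =
      ∑ i ∈ Finset.range e, c i * z ^ p ^ i := by
    rw [ev_sum]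
    refine Finset.sum_congr rfl fun i _ => ?_
    rw [ev_mono, ha2]
  rw [h2]
  convert h1 using 1
  ring

/-- **G2**, the existence. -/
theorem Fib.exists_ev (h : Ctx0 k v) (hM : MS v G M) (hA : ∀ g ∈ G, M g ∈ A)
    (hv : ∀ b ∈ B, b ≠ 0 → v b ∈ G) (hF : Fib v A B y z ρ s) (hl : Lim v A s z) {w : Ω}
    (hw : w ∈ B) (hlw : Lim v A r w) : ∃ P R : k[X], IsOp p G ρ r P ∧ IsOp p G s r R ∧
      Nr' v A r (w - (ev p M ρ r P y + ev p M s r R z)) := by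
  have hAy : A ≤ cadj v A y := le_cadj _ _ _
  have hyB : cadj v A y ≤ B := by
    rw [hF.eq]
    exact le_cadj _ _ _
  have hL := gsub_Lim (k := k) (p := p) h hM hA (le_top : A ≤ ⊤)
  obtain ⟨R, hR, f, hf, h1⟩ := hF.tz.exists_ev (p := p) h hM (fun g hg => hAy (hA g hg))
    (fun b hb => hv b (hyB hb)) (hF.eq ▸ hw) (hlw.mono hAy)
  have hlf : Lim v A r f := by
    have h2 := hL.add _ _ _ ⟨IntermediateField.mem_top, hlw⟩
      (hL.neg hM (hL.ev hR ⟨IntermediateField.mem_top, hl⟩))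
    rw [← sub_eq_add_neg] at h2
    intro ε hε
    obtain ⟨a, ha, h3⟩ := h2.2 ε hε
    refine ⟨a, ha, ?_⟩
    have h4 := (h1.ge.mono (by linarith : r - ε ≤ r))
    rw [show f - a = (w - ev p M s r R z - a) - (w - ev p M s r R z - f) by ring]
    exact h3.sub h4
  obtain ⟨P, hP, n, hn, h2⟩ := hF.ty.exists_ev (p := p) h hM hA
    (fun b hb => hv b (hyB (hAy hb))) hf hlf
  refine ⟨P, R, hP, hR, n, hn, ?_⟩
  have h3 := h1.add h2
  convert h3 using 1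
  ring

end Pool.Agent.TWM
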