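import Pool.Agent.Lib.TWM.Lin
import Pool.Agent.Lib.TWM.LogC

/-!
# The log descent of a free family of germs

`G ≤ G₁`, `B ≤ B₁`; `T` represents `G₁/G`. A family of elements of `B₁` which is free over `G₁` and
spans all the limits in `B₁` is equivalent, over `G₁`, to a family of elements of `B`.
-/

set_option autoImplicit false

open Polynomial Finset

namespace Pool.Agent.TWM

open Pool.Agent.H15JM (RVal)
open Pool.Agent.D2 (Ctx0)

universe u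

variable {k Ω : Type u} [Field k] [Field Ω] [Algebra k Ω] {v : RVal Ω}
  {p : ℕ} {G : AddSubgroup ℝ} {M : ℝ → Ω} {Z : ℝ → Ω → Prop}

theorem InSpan.reindex {ι κ : Type*} [Fintype κ] {S : Finset ι} (e : κ ≃ S) {r : ι → ℝ}
    {w : ι → Ω} {t : ℝ} {x : Ω} (h : InSpan k p G M Z r w S t x) :
    InSpan k p G M Z (fun i => r (e i)) (fun i => w (e i)) Finset.univ t x := by
  obtain ⟨Q, hQ, h1⟩ := h
  refine ⟨fun i => Q (e i), fun i _ => hQ _ (e i).2, ?_⟩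
  have h2 : ∑ i, ev p M (r (e i)) t (Q (e i)) (w (e i)) = ∑ i ∈ S, ev p M (r i) t (Q i) (w i) := by
    rw [← Finset.sum_coe_sort S]
    exact e.sum_comp fun i : S => ev p M (r i) t (Q i) (w i)
  rwa [h2]

theorem FreeOn.reindex {ι κ : Type*} [Fintype κ] {S : Finset ι} (e : κ ≃ S) {r : ι → ℝ}
    {w : ι → Ω} (h : FreeOn k p G M Z r w S) :
    FreeOn k p G M Z (fun i => r (e i)) (fun i => w (e i)) Finset.univ := by
  classical
  intro R P hP hrel i _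
  set P' : ι → k[X] := fun j => if h : j ∈ S then P (e.symm ⟨j, h⟩) else 0 with hP'
  have hP'S : ∀ j (h : j ∈ S), P' j = P (e.symm ⟨j, h⟩) := fun j h => dif_pos h
  have h1 : ∑ j ∈ S, ev p M (r j) R (P' j) (w j) =
      ∑ i, ev p M (r (e i)) R (P i) (w (e i)) := by
    rw [← Finset.sum_coe_sort S, ← e.sum_comp]
    refine Finset.sum_congr rfl fun i _ => ?_
    rw [hP'S _ (e i).2]
    simp only [Subtype.coe_eta, Equiv.symm_apply_apply]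
  have h2 := h R P' (fun j hj => by
    rw [hP'S j hj]
    have h3 := hP (e.symm ⟨j, hj⟩) (Finset.mem_univ _)
    dsimp only at h3
    rwa [Equiv.apply_symm_apply] at h3) (by rw [h1]; exact hrel) (e i) (e i).2
  rw [hP'S _ (e i).2] at h2
  simpa only [Subtype.coe_eta, Equiv.symm_apply_apply] using h2

theorem InSpan.mono_G {G₁ : AddSubgroup ℝ} (hG : G ≤ G₁) {Z₁ : ℝ → Ω → Prop}
    (hZ : ∀ r a, Z r a → Z₁ r a) {ι : Type*} {S : Finset ι} {r : ι → ℝ} {w : ι → Ω} {t : ℝ} {x : Ω}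
    (h : InSpan k p G M Z r w S t x) : InSpan k p G₁ M Z₁ r w S t x := by
  obtain ⟨Q, hQ, h1⟩ := h
  exact ⟨Q, fun i hi j hj => hG (hQ i hi j hj), hZ _ _ h1⟩

/-- **The log descent of a free family.** -/
theorem exists_log_basis [IsAlgClosed k] [Fact p.Prime] [CharP k p] [CharP Ω p] (h : Ctx0 k v)
    {G₁ : AddSubgroup ℝ} {T : Finset ℝ} {N B N₁ B₁ : IntermediateField k Ω} (hM : MS v G₁ M)
    (hGG : G ≤ G₁) (hT : ∀ t ∈ T, t ∈ G₁) (hex : ∀ g ∈ G₁, ∃ t ∈ T, g - t ∈ G)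
    (huniq : ∀ t ∈ T, ∀ t' ∈ T, t - t' ∈ G → t = t') (hMN : ∀ g ∈ G, M g ∈ N)
    (hMN₁ : ∀ g ∈ G₁, M g ∈ N₁) (hNN : N ≤ N₁)
    (hN : LDense v G M N) (hG : G.FG) (hB : Imm v N B)
    (hlim : ∀ (R : ℝ), ∀ x ∈ B₁, Lim v N₁ R x → ∃ b : ℝ → Ω,
      (∀ t ∈ T, b t ∈ B ∧ Lim v N (R - t) (b t)) ∧ x = ∑ t ∈ T, M t * b t)
    (hnr : ∀ (R : ℝ) (b : ℝ → Ω), (∀ t ∈ T, b t ∈ B) → Nr' v N₁ R (∑ t ∈ T, M t * b t) →
      ∀ t ∈ T, Nr' v N (R - t) (b t))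
    {κ : Type} [Fintype κ] [DecidableEq κ] (ρ : κ → ℝ) (u : κ → Ω)
    (hu : ∀ i, u i ∈ B₁ ∧ Lim v N₁ (ρ i) (u i))
    (hfree : FreeOn k p G₁ M (Nr' v N₁) ρ u Finset.univ)
    (hsp : ∀ (R : ℝ), ∀ x ∈ B, Lim v N R x → InSpan k p G₁ M (Nr' v N₁) ρ u Finset.univ R x) :
    ∃ (ρ' : κ → ℝ) (θ : κ → Ω) (P R : κ → κ → k[X]), (∀ i, θ i ∈ B ∧ Lim v N (ρ' i) (θ i)) ∧
      (∀ i j, IsOp p G₁ (ρ j) (ρ' i) (P i j)) ∧ (∀ j i, IsOp p G₁ (ρ' i) (ρ j) (R j i)) ∧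
      (∀ i, Nr' v N₁ (ρ' i) (θ i - ∑ j, ev p M (ρ j) (ρ' i) (P i j) (u j))) ∧
      (∀ j, Nr' v N₁ (ρ j) (u j - ∑ i, ev p M (ρ' i) (ρ j) (R j i) (θ i))) ∧
      (∀ i i', ∑ j, tw p (P i j) (R j i') = if i = i' then 1 else 0) ∧
      (∀ j j', ∑ i, tw p (R j i) (P i j') = if j = j' then 1 else 0) ∧
      FreeOn k p G M (Nr' v N) ρ' θ Finset.univ := by
  classical
  have hMG : MS v G M := ⟨fun g hg => hM.ne g (hGG hg), fun g hg => hM.val g (hGG hg),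
    fun g hg g' hg' => hM.mul g (hGG hg) g' (hGG hg')⟩
  have hZ : GSub k p G M (Nr' v N) := gsub_Nr' h hMG hMN
  have hZ₁ : GSub k p G₁ M (Nr' v N₁) := gsub_Nr' h hM hMN₁
  have hNr : ∀ r a, Nr' v N r a → Nr' v N₁ r a := fun r a ⟨b, hb, h1⟩ => ⟨b, hNN hb, h1⟩
  have hMB : ∀ g ∈ G, M g ∈ B := fun g hg => hB.le (hMN g hg)
  -- the components
  choose b hb hub using fun i => hlim (ρ i) (u i) (hu i).1 (hu i).2
  obtain ⟨S, w, h1, h2, h3, h4, h5⟩ := exists_free (ι := κ × T) h hMG hMN hN hG hB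
    (fun a => ρ a.1 - a.2) (fun a => b a.1 a.2) (fun a => hb a.1 a.2 a.2.2)
  set r : κ × T → ℝ := fun a => ρ a.1 - a.2 with hr
  -- free over `G₁`
  have h6 : FreeOn k p G₁ M (Nr' v N₁) r w S :=
    FreeOn.log_aux hM hGG hT hex huniq hMB hnr (fun i hi => (h1 i hi).1) h5
  -- `w i` in the span of the `u j`
  have h7 : ∀ i ∈ S, InSpan k p G₁ M (Nr' v N₁) ρ u Finset.univ (r i) (w i) := fun i hi =>
    hsp _ _ (h1 i hi).1 (h1 i hi).2
  -- `u j` in the span of the `w i`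
  have h8 : ∀ j, InSpan k p G₁ M (Nr' v N₁) r w S (ρ j) (u j) := by
    intro j
    rw [hub j]
    refine InSpan.sum hZ₁ fun t ht => ?_
    have e1 : InSpan k p G₁ M (Nr' v N₁) r w S (ρ j - t) (b j t) :=
      InSpan.mono_G hGG hNr (h2 (j, ⟨t, ht⟩))
    have e2 : IsOp p G₁ (ρ j - t) (ρ j) (C 1 * X ^ 0 : k[X]) := IsOp.mono fun _ => by
      rw [pow_zero, one_mul, sub_sub_cancel]
      exact hT t ht
    have e3 := e1.op hM hZ₁ e2
    rwa [ev_mono, map_one, one_mul, pow_zero, pow_zero, pow_one, one_mul, sub_sub_cancel] at e3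
  -- the number of elements
  have hc1 := FreeOn.card_le hM hZ₁ h6 h7
  have hc2 := FreeOn.card_le hM hZ₁ hfree fun j _ => h8 j
  have hcard : Fintype.card κ = Fintype.card S := by
    rw [Fintype.card_coe, ← Finset.card_univ]
    exact le_antisymm hc2 hc1
  obtain ⟨e⟩ := Fintype.card_eq.mp hcard
  set ρ' : κ → ℝ := fun i => r (e i) with hρ'
  set θ : κ → Ω := fun i => w (e i) with hθ
  have h9 : ∀ i, θ i ∈ B ∧ Lim v N (ρ' i) (θ i) := fun i => h1 _ (e i).2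
  have h10 : FreeOn k p G M (Nr' v N) ρ' θ Finset.univ := h5.reindex e
  have h11 : FreeOn k p G₁ M (Nr' v N₁) ρ' θ Finset.univ := h6.reindex e
  have h12 : ∀ i, InSpan k p G₁ M (Nr' v N₁) ρ u Finset.univ (ρ' i) (θ i) := fun i =>
    h7 _ (e i).2
  have h13 : ∀ j, InSpan k p G₁ M (Nr' v N₁) ρ' θ Finset.univ (ρ j) (u j) := fun j =>
    (h8 j).reindex e
  choose P hP hPZ using h12
  choose R hR hRZ using h13
  refine ⟨ρ', θ, P, R, h9, fun i j => hP i j (Finset.mem_univ _),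
    fun j i => hR j i (Finset.mem_univ _), hPZ, hRZ, fun i i' => ?_, fun j j' => ?_, h10⟩
  · exact FreeOn.inverse (S := Finset.univ) (S' := Finset.univ) hM hZ₁ h11
      (fun i _ j _ => hP i j (Finset.mem_univ _)) (fun j _ i _ => hR j i (Finset.mem_univ _))
      (fun i _ => hPZ i) (fun j _ => hRZ j) (Finset.mem_univ i) (Finset.mem_univ i')
  · exact FreeOn.inverse (S := Finset.univ) (S' := Finset.univ) hM hZ₁ hfree
      (fun j _ i _ => hR j i (Finset.mem_univ _)) (fun i _ j _ => hP i j (Finset.mem_univ _))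
      (fun j _ => hRZ j) (fun i _ => hPZ i) (Finset.mem_univ j) (Finset.mem_univ j')

section Cls

variable {G₁ : AddSubgroup ℝ} {T : Finset ℝ} {N B : IntermediateField k Ω}

/-- Elements of `B` which are free over `G` modulo `N + O(>)` are free over `G₁` modulo
`N₁ + O(>)`. -/
theorem FreeOn.log (hc : Cls v M G G₁ T B) (hNB : N ≤ B) (hMN : ∀ g ∈ G, M g ∈ N) {ι : Type*}
    {S : Finset ι} {r : ι → ℝ} {w : ι → Ω} (hw : ∀ i ∈ S, w i ∈ B)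
    (hfree : FreeOn k p G M (Nr' v N) r w S) : FreeOn k p G₁ M (Nr' v (LE M G₁ N)) r w S :=
  FreeOn.log_aux hc.ms hc.reps.le hc.reps.mem hc.reps.ex hc.reps.uniq hc.mon
    (fun _ _ hb h1 => (hc.nr'_iff hNB hMN hb).mp h1) hw hfree

/-- A limit in `B₁` is in the span over `G₁` of its components. -/
theorem InSpan.of_comp [Fact p.Prime] [CharP k p] [CharP Ω p] (h : Ctx0 k v)
    (hc : Cls v M G G₁ T B) {ι : Type*}
    {S : Finset ι} {r : ι → ℝ} {w : ι → Ω} {R : ℝ} {b : ℝ → Ω}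
    (hb : ∀ t ∈ T, InSpan k p G M (Nr' v N) r w S (R - t) (b t)) :
    InSpan k p G₁ M (Nr' v (LE M G₁ N)) r w S R (∑ t ∈ T, M t * b t) := by
  have hZ₁ : GSub k p G₁ M (Nr' v (LE M G₁ N)) := gsub_Nr' h hc.ms fun g hg => mon_mem_LE hg
  refine InSpan.sum hZ₁ fun t ht => ?_
  have e1 : InSpan k p G₁ M (Nr' v (LE M G₁ N)) r w S (R - t) (b t) :=
    InSpan.mono_G hc.reps.le (fun r a ⟨b, hb, h1⟩ => ⟨b, le_LE hb, h1⟩) (hb t ht)
  have e2 : IsOp p G₁ (R - t) R (C 1 * X ^ 0 : k[X]) := IsOp.mono fun _ => by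
    rw [pow_zero, one_mul, sub_sub_cancel]
    exact hc.reps.mem t ht
  have e3 := e1.op hc.ms hZ₁ e2
  rwa [ev_mono, map_one, one_mul, pow_zero, pow_zero, pow_one, one_mul, sub_sub_cancel] at e3

/-- **The log descent of a free family** (`N₁ = N(x^{1/p})`, `B₁ = B(x^{1/p})`). -/
theorem Cls.exists_basis [IsAlgClosed k] [Fact p.Prime] [CharP k p] [CharP Ω p] (h : Ctx0 k v)
    (hc : Cls v M G G₁ T B) (hMN : ∀ g ∈ G, M g ∈ N) (hN : LDense v G M N) (hG : G.FG)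
    (hB : Imm v N B) {κ : Type} [Fintype κ] [DecidableEq κ] (ρ : κ → ℝ) (u : κ → Ω)
    (hu : ∀ i, u i ∈ LE M G₁ B ∧ Lim v (LE M G₁ N) (ρ i) (u i))
    (hfree : FreeOn k p G₁ M (Nr' v (LE M G₁ N)) ρ u Finset.univ)
    (hsp : ∀ (R : ℝ), ∀ x ∈ B, Lim v N R x →
      InSpan k p G₁ M (Nr' v (LE M G₁ N)) ρ u Finset.univ R x) :
    ∃ (ρ' : κ → ℝ) (θ : κ → Ω) (P R : κ → κ → k[X]), (∀ i, θ i ∈ B ∧ Lim v N (ρ' i) (θ i)) ∧
      (∀ i j, IsOp p G₁ (ρ j) (ρ' i) (P i j)) ∧ (∀ j i, IsOp p G₁ (ρ' i) (ρ j) (R j i)) ∧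
      (∀ i, Nr' v (LE M G₁ N) (ρ' i) (θ i - ∑ j, ev p M (ρ j) (ρ' i) (P i j) (u j))) ∧
      (∀ j, Nr' v (LE M G₁ N) (ρ j) (u j - ∑ i, ev p M (ρ' i) (ρ j) (R j i) (θ i))) ∧
      (∀ i i', ∑ j, tw p (P i j) (R j i') = if i = i' then 1 else 0) ∧
      (∀ j j', ∑ i, tw p (R j i) (P i j') = if j = j' then 1 else 0) ∧
      FreeOn k p G M (Nr' v N) ρ' θ Finset.univ :=
  exists_log_basis h hc.ms hc.reps.le hc.reps.mem hc.reps.ex hc.reps.uniq hMN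
    (fun _ hg => mon_mem_LE hg) le_LE hN hG hB
    (fun R x hx hl => by
      obtain ⟨b, hb, rfl⟩ := hc.mem_iff.mp hx
      have h1 := (hc.lim_iff hB.le hMN hb).mp hl
      exact ⟨b, fun t ht => ⟨hb t ht, h1 t ht⟩, rfl⟩)
    (fun _ _ hb h1 => (hc.nr'_iff hB.le hMN hb).mp h1) ρ u hu hfree hsp

end Cls

end Pool.Agent.TWM
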