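import Pool.Agent.Lib.TWM.CoreN
import Pool.Agent.Lib.TWM.G4
import Pool.Agent.Lib.TWM.Rank2

/-!
# Log descent: the rank of the limits

* `LE.ldense`, `Reps.fg`: the field `N(x^{1/p})` and the group `G₁`;
* `exists_good`: (G1) if a limit of `N` in `B` is not near `N⟨u⟩`, the second generator can be
  chosen to be a limit of `N`;
* `exists_rank_one`: if all the limits of `N(x^{1/p})` in `B(x^{1/p})` are near `N(x^{1/p})⟨u⟩`, the
  first generator can be chosen in `B`.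
-/

set_option autoImplicit false

open Polynomial Finset

namespace Pool.Agent.TWM

open Pool.Agent.H15JM (RVal)
open Pool.Agent.LU1 (VPos adj)
open Pool.Agent.D2 (Ctx0)
open Pool.Agent.D2P (clI mem_clI)

universe u

variable {k Ω : Type u} [Field k] [Field Ω] [Algebra k Ω] {v : RVal Ω}
  {p : ℕ} {G G₁ : AddSubgroup ℝ} {M : ℝ → Ω} {T : Finset ℝ} {A B N : IntermediateField k Ω}
  {z w : Ω} {s r R ρ : ℝ}

theorem Imm.refl (A : IntermediateField k Ω) : Imm v A A where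
  le := le_rfl
  imm := fun b hb _ => ⟨b, hb, by rw [sub_self]; exact Gt.zero⟩

theorem Lim.sub {A : IntermediateField k Ω} {x y : Ω} {r : ℝ} (hx : Lim v A r x)
    (hy : Lim v A r y) : Lim v A r (x - y) := by
  intro ε hε
  obtain ⟨a, ha, h1⟩ := hx ε hε
  obtain ⟨b, hb, h2⟩ := hy ε hε
  refine ⟨a - b, sub_mem ha hb, ?_⟩
  rw [sub_sub_sub_comm]
  exact h1.sub h2

/-- The Laurent polynomials over `G₁` are dense in `N(x^{1/p})`. -/
theorem Cls.ldense (hcls : Cls v M G G₁ T N) (hN : LDense v G M N) :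
    LDense v G₁ M (LE M G₁ N) := by
  classical
  intro a ha b
  obtain ⟨c, hc, rfl⟩ := hcls.mem_iff.mp ha
  have h1 : ∀ t ∈ T, ∃ L : ℝ →₀ k, InG G₁ L ∧ v.Ge b (M t * c t - evL M L) := by
    intro t ht
    obtain ⟨L, hL, h2⟩ := hN (c t) (hc t ht) (b - t)
    refine ⟨L.sum fun g a => Finsupp.single (t + g) a, ?_, ?_⟩
    · intro g hg
      rw [Finsupp.sum, Finsupp.finsetSum_apply] at hg
      obtain ⟨g', hg', h3⟩ := Finset.exists_ne_zero_of_sum_ne_zero hg
      rw [Finsupp.single_apply] at h3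
      split_ifs at h3 with h4
      · rw [← h4]
        exact add_mem (hcls.reps.mem t ht) (hcls.reps.le (hL _ (Finsupp.mem_support_iff.mp hg')))
      · exact absurd rfl h3
    · have h3 : evL M (L.sum fun g a => Finsupp.single (t + g) a) = M t * evL M L := by
        rw [Finsupp.sum, evL_sum, evL, Finsupp.sum, Finset.mul_sum]
        refine Finset.sum_congr rfl fun g hg => ?_
        rw [evL_single, hcls.ms.mul t (hcls.reps.mem t ht) g
          (hcls.reps.le (hL _ (Finsupp.mem_support_iff.mp hg)))]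
        ring
      rw [h3, ← mul_sub]
      have h4 := RVal.Ge.mul (v := v) (fun _ => (hcls.ms.val t (hcls.reps.mem t ht)).ge) h2
      rwa [add_sub_cancel] at h4
  choose! L hL h2 using h1
  refine ⟨∑ t ∈ T, L t, ?_, ?_⟩
  · intro g hg
    rw [Finsupp.finsetSum_apply] at hg
    obtain ⟨t, ht, h3⟩ := Finset.exists_ne_zero_of_sum_ne_zero hg
    exact hL t ht g h3
  · rw [evL_sum, ← Finset.sum_sub_distrib]
    exact RVal.Ge.sum (v := v) _ _ h2

theorem Reps.fg (hR : Reps G G₁ T) (hG : G.FG) : G₁.FG := by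
  classical
  obtain ⟨S, hS⟩ := hG
  refine ⟨S ∪ T, le_antisymm ?_ ?_⟩
  · rw [AddSubgroup.closure_le]
    intro g hg
    rcases Finset.mem_union.mp (Finset.mem_coe.mp hg) with h1 | h1
    · exact hR.le (hS ▸ AddSubgroup.subset_closure h1)
    · exact hR.mem g h1
  · intro g hg
    obtain ⟨t, ht, h1⟩ := hR.ex g hg
    have h2 : g - t ∈ AddSubgroup.closure ((S ∪ T : Finset ℝ) : Set ℝ) := by
      have h3 : G ≤ AddSubgroup.closure ((S ∪ T : Finset ℝ) : Set ℝ) := by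
        rw [← hS]
        exact AddSubgroup.closure_mono (Finset.coe_subset.mpr Finset.subset_union_left)
      exact h3 h1
    have h3 : t ∈ AddSubgroup.closure ((S ∪ T : Finset ℝ) : Set ℝ) :=
      AddSubgroup.subset_closure (Finset.coe_subset.mpr Finset.subset_union_right ht)
    have h4 := add_mem h2 h3
    rwa [sub_add_cancel] at h4

theorem Fib.imm [IsAlgClosed Ω] (hF : Fib v A B w z ρ s) : Imm v A B := by
  rw [hF.eq]
  exact hF.ty.imm.trans hF.tz.imm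

/-- **G1.** If a limit of `N` in `B = N⟨u⟩⟨z⟩` is not near `N⟨u⟩`, some `z - e`, `e ∈ N⟨u⟩`, is a
limit of `N`. -/
theorem exists_good [IsAlgClosed k] [IsAlgClosed Ω] (p : ℕ) [Fact p.Prime] [CharP k p]
    [CharP Ω p] (h : Ctx0 k v) (hM : MS v G M) (hG : G.FG) (hMN : ∀ g ∈ G, M g ∈ N)
    (hN : LDense v G M N) {u : Ω} (hF : Fib v N B u z ρ s) {x : Ω} (hx : x ∈ B)
    (hl : Lim v N r x) (hnr : ¬ Nr' v (cadj v N u) r x) :
    ∃ e ∈ cadj v N u, Lim v N s (z - e) := by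
  classical
  have hNB : Imm v N B := hF.imm
  have hNF : Imm v N (cadj v N u) := hF.ty.imm
  have hFB : cadj v N u ≤ B := by rw [hF.eq]; exact le_cadj _ _ _
  have hMF : ∀ g ∈ G, M g ∈ cadj v N u := fun g hg => hNF.le (hMN g hg)
  obtain ⟨Q, hQ, f, hf, h1⟩ := hF.tz.exists_ev (p := p) h hM hMF
    (fun b hb => val_mem h hM hN hNF hb) (hF.eq ▸ hx) (hl.mono hNF.le)
  have hQ0 : Q ≠ 0 := by
    rintro rfl
    rw [ev_zero, sub_zero] at h1
    exact hnr ⟨f, hf, h1⟩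
  -- `f` is near the values of `Q`
  have hnear : ∀ ε : ℝ, 0 < ε → ∃ ψ : Unit → Ω, (∀ i ∈ ({()} : Finset Unit), ψ i ∈ cadj v N u) ∧
      Nr v N (r - ε) (f - ∑ i ∈ ({()} : Finset Unit), ev p M s r Q (ψ i)) := by
    intro ε hε
    have hp1 : (1 : ℝ) ≤ p := by exact_mod_cast (Fact.out : p.Prime).one_lt.le
    have hpd : (0 : ℝ) < (p : ℝ) ^ Q.natDegree := by positivity
    obtain ⟨a, ha, h2⟩ := hF.tz.lim (ε / (p : ℝ) ^ Q.natDegree) (by positivity)
    obtain ⟨n, hn, h3⟩ := hl ε hε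
    refine ⟨fun _ => -a, fun _ _ => neg_mem ha, n, hn, ?_⟩
    rw [Finset.sum_singleton, ev_neg_right, sub_neg_eq_add]
    have h4 : v.Ge (r - ε) (ev p M s r Q (z - a)) := ev_ge h hM hQ h2 fun j hj => by
      have h5 : j ≤ Q.natDegree := le_natDegree_of_ne_zero hj
      have h6 : (p : ℝ) ^ j ≤ (p : ℝ) ^ Q.natDegree := pow_le_pow_right₀ hp1 h5
      rw [mul_div_assoc', div_le_iff₀ hpd, mul_comm]
      exact mul_le_mul_of_nonneg_left h6 hε.le
    rw [ev_sub_right] at h4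
    have h5 : f + ev p M s r Q a - n =
        (x - n) - (ev p M s r Q z - ev p M s r Q a) - (x - ev p M s r Q z - f) := by ring
    rw [h5]
    exact (h3.sub h4).sub (h1.ge.mono (by linarith))
  obtain ⟨ψ, hψ, q, hq, n, hn, h2⟩ := core_F h hM hG hMN hN hF.ty ({()} : Finset Unit)
    (fun _ => s) r (fun _ => Q) (fun _ _ => hQ)
    (fun i _ j _ hij => absurd (Subsingleton.elim i j) hij) hf hnear
  rw [Finset.sum_singleton] at h2
  refine ⟨- ψ (), neg_mem (hψ ()), ?_⟩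
  rw [sub_neg_eq_add]
  have hzB : z ∈ B := by rw [hF.eq]; exact self_mem_cadj _ _ _
  refine lim_of_op h hM hMN hN hNB hQ0 hQ (add_mem hzB (hFB (hψ ()))) ?_
  have h3 : Lim v N r (x - ev p M ρ r q u) := hl.sub
    ((gsub_Lim (k := k) (p := p) (B := ⊤) h hM hMN le_top).ev hq (w := u)
      ⟨IntermediateField.mem_top, hF.ty.lim⟩).2
  intro ε hε
  obtain ⟨a, ha, h4⟩ := h3 ε hε
  refine ⟨a - n, sub_mem ha hn, ?_⟩
  rw [ev_add_right]
  have h5 : ev p M s r Q z + ev p M s r Q (ψ ()) - (a - n) = (x - ev p M ρ r q u - a)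
      - (x - ev p M s r Q z - f) - (f - ev p M s r Q (ψ ()) - ev p M ρ r q u - n) := by ring
  rw [h5]
  exact (h4.sub (h1.ge.mono (by linarith))).sub (h2.ge.mono (by linarith))

/-- **Case of rank one**, the first generator. If all the limits of `N₁ = N(x^{1/p})` in
`B₁ = B(x^{1/p})` are near `N₁⟨u⟩`, the first generator can be chosen in `B`. -/
theorem exists_rank_one [IsAlgClosed k] [IsAlgClosed Ω] (p : ℕ) [Fact p.Prime] [CharP k p]
    [CharP Ω p] (h : Ctx0 k v) (hcls : Cls v M G G₁ T B) (hMN : ∀ g ∈ G, M g ∈ N)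
    (hN : LDense v G M N) (hG : G.FG) (hB : Imm v N B) {u : Ω}
    (hF : Fib v (LE M G₁ N) (LE M G₁ B) u z ρ s)
    (hrk : ∀ x ∈ LE M G₁ B, ∀ r, Lim v (LE M G₁ N) r x → Nr' v (cadj v (LE M G₁ N) u) r x) :
    ∃ y ∈ B, ∃ (z' : Ω) (ρ' : ℝ), Fib v (LE M G₁ N) (LE M G₁ B) y z' ρ' s ∧
      ∀ x ∈ LE M G₁ B, ∀ r, Lim v (LE M G₁ N) r x → Nr' v (cadj v (LE M G₁ N) y) r x := by
  classical
  set N₁ := LE M G₁ N with hN₁
  set B₁ := LE M G₁ B with hB₁
  have hM := hcls.ms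
  have hN₁d : LDense v G₁ M N₁ := (hcls.mono hB.le hMN).ldense hN
  have hMN₁ : ∀ g ∈ G₁, M g ∈ N₁ := fun g hg => mon_mem_LE hg
  have hZ₁ : GSub k p G₁ M (Nr' v N₁) := gsub_Nr' h hM hMN₁
  have hNB₁ : Imm v N₁ B₁ := hF.imm
  have huB : u ∈ B₁ := by
    rw [hF.eq]
    exact le_cadj _ _ _ (self_mem_cadj _ _ _)
  -- the span of `u`
  have hsp : ∀ (R : ℝ), ∀ x ∈ B₁, Lim v N₁ R x → InSpan k p G₁ M (Nr' v N₁)
      (fun _ : Unit => ρ) (fun _ : Unit => u) Finset.univ R x := by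
    intro R x hx hl
    obtain ⟨f, hf, h1⟩ := hrk x hx R hl
    have hlf : Lim v N₁ R f := by
      intro ε hε
      obtain ⟨a, ha, h2⟩ := hl ε hε
      refine ⟨a, ha, ?_⟩
      have h3 : f - a = (x - a) - (x - f) := by ring
      rw [h3]
      exact h2.sub (h1.ge.mono (by linarith))
    obtain ⟨Q, hQ, n, hn, h2⟩ := hF.ty.exists_ev (p := p) h hM hMN₁
      (fun b hb => val_mem h hM hN₁d (Imm.refl N₁) hb) hf hlf
    refine ⟨fun _ => Q, fun _ _ => hQ, n, hn, ?_⟩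
    rw [Fintype.sum_unique]
    have h3 : x - ev p M ρ R Q u - n = (x - f) + (f - ev p M ρ R Q u - n) := by ring
    rw [h3]
    exact h1.add h2
  have hfree : FreeOn k p G₁ M (Nr' v N₁) (fun _ : Unit => ρ) (fun _ : Unit => u)
      Finset.univ := by
    intro R P hP hrel i _
    rw [Fintype.sum_unique] at hrel
    have h1 := hF.ty.ev_free (Q := (0 : k[X])) (r := R) (s := s) h hM hMN₁ hF.tz
      (hP () (Finset.mem_univ _)) IsOp.zero (by rw [ev_zero, add_zero]; exact hrel)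
    exact h1.1
  obtain ⟨ρ', θ, P, Q, h1, h2, h3, h4, h5, h6, h7, -⟩ := hcls.exists_basis h hMN hN hG hB
    (fun _ : Unit => ρ) (fun _ : Unit => u) (fun _ => ⟨huB, hF.ty.lim⟩) hfree
    (fun R x hx hl => hsp R x (le_LE hx) (((hcls.lim_self hB.le hMN hx).mpr hl)))
  have h8 := h6 () ()
  rw [if_pos rfl, Fintype.sum_unique] at h8
  have h9 := (tw_eq_one h8).1
  obtain ⟨c, hc⟩ : ∃ c, P () () = C c := ⟨_, eq_C_of_natDegree_eq_zero h9⟩
  have hc0 : c ≠ 0 := by
    rintro rfl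
    rw [map_zero] at hc
    change tw p (P () ()) (Q () ()) = 1 at h8
    rw [hc, tw_zero_left] at h8
    exact zero_ne_one h8
  have hcG : ρ' () - ρ ∈ G₁ := by
    have h10 := h2 () () 0 (by rw [hc, coeff_C_zero]; exact hc0)
    rwa [pow_zero, one_mul] at h10
  set c' : Ω := algebraMap k Ω c * M (ρ' () - ρ) with hc'
  obtain ⟨hc'0, hc'v⟩ := term_val h hM hcG hc0
  have hc'N : c' ∈ N₁ := mul_mem (N₁.algebraMap_mem _) (hMN₁ _ hcG)
  obtain ⟨n, hn, h10⟩ := h4 ()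
  rw [Fintype.sum_unique] at h10
  change Gt v (ρ' ()) (θ () - ev p M ρ (ρ' ()) (P () ()) u - n) at h10
  have h11 : ev p M ρ (ρ' ()) (P () ()) u = c' * u := by
    rw [hc, show (C c : k[X]) = C c * X ^ 0 by rw [pow_zero, mul_one], ev_mono, pow_zero, one_mul,
      pow_zero, pow_one]
  rw [h11] at h10
  have hθB : θ () ∈ B := (h1 ()).1
  -- `u'` near `u`
  set u' : Ω := c'⁻¹ * (θ () - n) with hu'
  have hθu : θ () = c' * u' + n := by rw [hu', mul_inv_cancel_left₀ hc'0]; ring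
  have hu'B : u' ∈ B₁ := mul_mem (inv_mem (hNB₁.le hc'N)) (sub_mem (le_LE hθB) (hNB₁.le hn))
  have h12 : Gt v ρ (u - u') := by
    have h13 : u - u' = -((θ () - c' * u - n) * c'⁻¹) := by
      have h14 : c' * c'⁻¹ = 1 := mul_inv_cancel₀ hc'0
      rw [hu']
      linear_combination (-u) * h14
    rw [h13]
    refine Gt.neg ?_
    have h14 : v.Ge (-(ρ' () - ρ)) c'⁻¹ := fun _ => by rw [v.map_inv hc'0, hc'v]
    have h15 := Gt.mul_ge h10 h14
    have h16 : ρ' () + -(ρ' () - ρ) = ρ := by ring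
    rwa [h16] at h15
  obtain ⟨z', hF'⟩ := hF.exists_stab hu'B h12
  have hcadj : cadj v N₁ (θ ()) = cadj v N₁ u' := by
    rw [hθu]; exact cadj_affine hc'N hc'0 hn
  have hty : TL v N₁ (θ ()) (v c' + ρ) := by
    rw [hθu]; exact hF'.ty.affine hc'N hc'0 hn
  refine ⟨θ (), hθB, z', v c' + ρ, ⟨hty, by rw [hcadj]; exact hF'.tz, by
    rw [hcadj]; exact hF'.eq⟩, fun x hx R hl => ?_⟩
  -- the span of `θ`
  have h13 : ∀ i ∈ (Finset.univ : Finset Unit), InSpan k p G₁ M (Nr' v N₁) ρ' θ Finset.univ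
      ((fun _ : Unit => ρ) i) ((fun _ : Unit => u) i) := fun i _ =>
    ⟨fun j => Q i j, fun j _ => h3 i j, h5 i⟩
  obtain ⟨q, hq, n', hn', h14⟩ := InSpan.trans hM hZ₁ h13 (hsp R x hx hl)
  rw [Fintype.sum_unique] at h14
  change Gt v R (x - ev p M (ρ' ()) R (q ()) (θ ()) - n') at h14
  have hle := le_cadj v N₁ (θ ())
  refine ⟨ev p M (ρ' ()) R (q ()) (θ ()) + n', add_mem (ev_mem (fun g hg => hle (hMN₁ g hg))
    (hq () (Finset.mem_univ _)) (self_mem_cadj v N₁ (θ ()))) (hle hn'), ?_⟩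
  rwa [← sub_sub]

end Pool.Agent.TWM
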