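import Pool.Agent.Lib.TWM.B1

/-!
# TANK W, M2, block G3: the two steps of a fibration may be exchanged

`Fib.swap`: if `B` is the closure of `A(y, z)`, `y` of radius `ρ` over `A`, `z` of radius `s` over the
closure of `A(y)`, and if `z` is a limit of `A` up to `s`, then `z` is of radius `s` over `A` and `y`
of radius `ρ` over the closure of `A(z)`.
-/

set_option autoImplicit false

open Polynomial

namespace Pool.Agent.TWM

open Pool.Agent.H15JM (RVal)
open Pool.Agent.LU1 (VPos adj)
open Pool.Agent.LUC (Cl clF)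
open Pool.Agent.D2 (Ctx0)
open Pool.Agent.D2P (hen clI mem_clI adj_le mem_adj_self)

universe u

variable {k Ω : Type u} [Field k] [Field Ω] [Algebra k Ω] {v : RVal Ω}

theorem coeff_swap (P : Polynomial (Polynomial Ω)) (i j : ℕ) :
    ((Bivariate.swap P).coeff i).coeff j = (P.coeff j).coeff i := by
  induction P using Polynomial.induction_on' with
  | add p q hp hq => simp only [map_add, coeff_add, hp, hq]
  | monomial n f =>
    induction f using Polynomial.induction_on' with
    | add p q hp hq => simp only [map_add, coeff_add, hp, hq]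
    | monomial m a =>
      rw [Bivariate.swap_monomial_monomial]
      by_cases h1 : m = i <;> by_cases h2 : n = j <;>
        simp [coeff_monomial, h1, h2]

theorem evalEval_swap (P : Polynomial (Polynomial Ω)) (x y : Ω) :
    (Bivariate.swap P).evalEval x y = P.evalEval y x := by
  rw [← coe_aevalAeval_eq_evalEval, ← coe_aevalAeval_eq_evalEval, Bivariate.aevalAeval_swap]

theorem PII.swap {A : IntermediateField k Ω} {P : Polynomial (Polynomial Ω)} (hP : PII A P) :
    PII A (Bivariate.swap P) := by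
  intro i j
  rw [coeff_swap]
  exact hP j i

theorem PII.hasse {A : IntermediateField k Ω} {P : Polynomial (Polynomial Ω)} (hP : PII A P)
    (l : ℕ) : PII A (hasseDeriv l P) := by
  intro j
  rw [hasseDeriv_coeff]
  exact mul_mem (natCast_mem _ _) (hP _)

theorem coeff_taylor_map (P : Polynomial (Polynomial Ω)) (w z : Ω) (l : ℕ) :
    (taylor z (P.map (evalRingHom w))).coeff l = (hasseDeriv l P).evalEval w z := by
  have h1 := map_taylor P (C z) (evalRingHom w)
  rw [coe_evalRingHom, eval_C] at h1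
  rw [← h1, coeff_map, taylor_coeff]
  rfl

/-- A limit over a bigger field. -/
theorem TL.of_le {A A' : IntermediateField k Ω} {z : Ω} {s : ℝ} (hz : TL v A' z s) (h : A ≤ A')
    (hl : Lim v A s z) : TL v A z s where
  lim := hl
  far := fun _ hθ => hz.far _ (D2P.isAlgebraic_mono h hθ)

variable [IsAlgClosed Ω]

section

variable {A : IntermediateField k Ω} {y z : Ω} {ρ s : ℝ}

/-- The nearness, with the zero polynomial allowed. -/
theorem TL.near0 (h : TL v A z s) {f : Polynomial Ω} (hf : f ∈ PI A) :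
    ∃ δ : ℝ, 0 < δ ∧ ∀ ψ, v.Ge (s - δ) (z - ψ) →
      (f.eval z ≠ 0 → f.eval ψ ≠ 0) ∧ v (f.eval ψ) = v (f.eval z) := by
  by_cases h0 : f = 0
  · exact ⟨1, one_pos, fun ψ _ => by simp [h0]⟩
  · obtain ⟨δ, hδ, h1⟩ := h.near_val (PI_mono (le_algc A) hf) h0
    exact ⟨δ, hδ, fun ψ hψ => ⟨fun _ => (h1 ψ hψ).1, (h1 ψ hψ).2⟩⟩

theorem map_ne_zero_of (hy : TL v A y ρ) {P : Polynomial (Polynomial Ω)} (hP : PII A P)
    (hP0 : P ≠ 0) : P.map (evalRingHom y) ≠ 0 := by
  intro h0
  apply hP0
  ext1 j
  by_contra hne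
  have h2 := (hy.strE (hP j) hne).1
  apply h2
  have h3 := congrArg (fun g => g.coeff j) h0
  simpa using h3

/-- The strictness in the other variable. -/
theorem PII.str_swap (hy : TL v A y ρ) (hz : TL v (cadj v A y) z s) (hl : Lim v A s z)
    {P : Polynomial (Polynomial Ω)} (hP : PII A P) (hP0 : P ≠ 0) :
    StrE v y ρ (P.map (evalRingHom z)) := by
  have hS : Bivariate.swap P ≠ 0 := by
    intro h0
    apply hP0
    rw [← Bivariate.swap_swap_apply P, h0, _root_.map_zero]
  have hev : ∀ (l : ℕ) (w : Ω), ((Bivariate.swap (hasseDeriv l P)).map (evalRingHom y)).eval w =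
      (hasseDeriv l P).evalEval w y := by
    intro l w
    rw [map_evalRingHom_eval, evalEval_swap]
  have hne : P.evalEval z y ≠ 0 := by
    have h1 := (hz.strE (hP.swap.map y) (map_ne_zero_of hy hP.swap hS)).1
    rwa [map_evalRingHom_eval, evalEval_swap] at h1
  refine ⟨by rw [map_evalRingHom_eval]; exact hne, fun l hl1 hl0 => ?_⟩
  rw [coeff_taylor_map] at hl0 ⊢
  obtain ⟨δ₀, hδ₀, h0⟩ := hz.near0 ((hP.hasse 0).swap.map y)
  obtain ⟨δ, hδ, h1⟩ := hz.near0 ((hP.hasse l).swap.map y)
  obtain ⟨ω, hω, h2⟩ := hl (min δ₀ δ) (lt_min hδ₀ hδ)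
  have h3 := h0 ω (h2.mono (by linarith [min_le_left δ₀ δ]))
  have h4 := h1 ω (h2.mono (by linarith [min_le_right δ₀ δ]))
  rw [hev, hev] at h3 h4
  rw [hasseDeriv_zero, LinearMap.id_apply] at h3
  have h5 : P.map (evalRingHom ω) ∈ PI A := by
    intro j
    rw [coeff_map, coe_evalRingHom]
    exact eval_mem (hP j) hω
  have h6 : P.map (evalRingHom ω) ≠ 0 := by
    intro h0
    apply h3.1 hne
    rw [← map_evalRingHom_eval, h0, eval_zero]
  have h7 := (hy.strE h5 h6).2 l hl1
  rw [coeff_taylor_map, map_evalRingHom_eval] at h7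
  have h8 := h7 (h4.1 hl0)
  rw [map_evalRingHom_eval, ← h3.2, ← h4.2]
  exact h8

/-- The distance to the algebraic elements, from the strictness of the polynomials. -/
theorem far_of_str (hz : TL v A z s)
    (H : ∀ P : Polynomial (Polynomial Ω), PII A P → P.map (evalRingHom z) ≠ 0 →
      StrE v y ρ (P.map (evalRingHom z))) {θ : Ω} (hθ : IsAlgebraic (cadj v A z) θ) :
    y ≠ θ ∧ v (y - θ) < ρ := by
  set E' := cadj v A z with hE'
  have hint : IsIntegral E' θ := hθ.isIntegral
  set g := (minpoly E' θ).map (algebraMap E' Ω) with hg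
  have hg0 : g ≠ 0 := by
    rw [hg, Ne, Polynomial.map_eq_zero]
    exact minpoly.ne_zero hint
  have hgθ : g.eval θ = 0 := by
    rw [hg, eval_map_algebraMap, minpoly.aeval]
  have hgE : ∀ i, g.coeff i ∈ E' := by
    intro i
    rw [hg, coeff_map]
    exact (((minpoly E' θ).coeff i)).2
  refine StrE.far (StrE.approx hg0 fun c => ?_) hgθ
  choose f hf hfc using fun i => hz.dense (hgE i) c
  let P : Polynomial (Polynomial Ω) := ∑ i ∈ Finset.range (g.natDegree + 1), C (f i) * X ^ i
  have hPc : ∀ i, P.coeff i = if i < g.natDegree + 1 then f i else 0 := by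
    intro i
    simp only [P, finsetSum_coeff, coeff_C_mul_X_pow]
    rw [Finset.sum_ite_eq]
    simp only [Finset.mem_range]
  have hP : PII A P := by
    intro i
    rw [hPc]
    split_ifs
    exacts [hf i, zero_mem _]
  refine ⟨P.map (evalRingHom z), ?_, ?_, H P hP⟩
  · refine natDegree_map_le.trans ?_
    rw [natDegree_le_iff_coeff_eq_zero]
    intro i hi
    rw [hPc, if_neg (by omega)]
  · intro i
    rw [coeff_sub, coeff_map (evalRingHom z), hPc]
    split_ifs with hi
    · exact hfc i
    · rw [coeff_eq_zero_of_natDegree_lt (by omega)]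
      simp only [_root_.map_zero, sub_self]
      exact RVal.Ge.zero

omit [IsAlgClosed Ω] in
theorem cadj_comm (v : RVal Ω) (A : IntermediateField k Ω) (y z : Ω) :
    cadj v (cadj v A y) z = cadj v (cadj v A z) y := by
  have key : ∀ y z, cadj v (cadj v A y) z ≤ cadj v (cadj v A z) y := fun y z =>
    cadj_le (cld_cadj _ _ _) (cadj_le (cld_cadj _ _ _) ((le_cadj _ _ _).trans (le_cadj _ _ _))
      (self_mem_cadj _ _ _)) (le_cadj _ _ _ (self_mem_cadj _ _ _))
  exact le_antisymm (key y z) (key z y)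

/-- **G3.** The exchange of the two steps. -/
theorem TL.swap (hy : TL v A y ρ) (hz : TL v (cadj v A y) z s) (hl : Lim v A s z) :
    TL v A z s ∧ TL v (cadj v A z) y ρ := by
  have hz' : TL v A z s := hz.of_le (le_cadj _ _ _) hl
  refine ⟨hz', hy.lim.mono (le_cadj _ _ _), fun θ hθ => far_of_str hz' (fun P hP hne => ?_) hθ⟩
  refine PII.str_swap hy hz hl hP ?_
  rintro h0
  rw [h0] at hne
  simp at hne

/-- **G3.** The exchange of the two steps. -/
theorem Fib.swap {B : IntermediateField k Ω} (hF : Fib v A B y z ρ s) (hl : Lim v A s z) :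
    Fib v A B z y s ρ where
  ty := (hF.ty.swap hF.tz hl).1
  tz := (hF.ty.swap hF.tz hl).2
  eq := by rw [hF.eq, cadj_comm]

/-- The second generator may be changed. -/
theorem Fib.gen₂ {B : IntermediateField k Ω} (hF : Fib v A B y z ρ s) {c f w : Ω}
    (hc : c ∈ cadj v A y) (hc0 : c ≠ 0) (hf : f ∈ cadj v A y) (hw : w ∈ B) {r : ℝ}
    (hr : v c + s = r) (h : Gt v r (w - (c * z + f))) : Fib v A B y w ρ r := by
  subst hr
  obtain ⟨h1, h2⟩ := hF.tz.generator hc hc0 hf (hF.eq ▸ hw) h
  exact ⟨hF.ty, h1, hF.eq.trans h2.symm⟩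

end

end Pool.Agent.TWM
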