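import Pool.Agent.Lib.TWM.Compl
import Pool.Agent.Lib.TW.Defs
import Pool.Agent.Lib.D2P.A2sAux

/-!
# M2: the transfer along an isometric embedding (the completion)

`ι : Ω →ₐ[k] Ω'` is isometric with dense image, `Ω` is algebraically closed. The henselization,
`Ctx`, `Full`, `FG`, the transcendence degree, `BD` and `HRone` of `E` and of `E.map ι`.
-/

set_option autoImplicit false

open Polynomial

namespace Pool.Agent.TWM

open Pool.Agent.H15JM (RVal)
open Pool.Agent.LU1 (VPos adj)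
open Pool.Agent.LUC (Cl clF)
open Pool.Agent.D2 (Ctx0)
open Pool.Agent.D2P (hen clI mem_clI)
open Pool.Agent.TW (Ctx Full PBasis Orth BD HRone pcomb mon)

universe u

namespace Dense

variable {k Ω Ω' : Type u} [Field k] [Field Ω] [Algebra k Ω] [Field Ω'] [Algebra k Ω']
  {v : RVal Ω} {w : RVal Ω'} {ι : Ω →ₐ[k] Ω'} {E : IntermediateField k Ω}

theorem inj (ι : Ω →ₐ[k] Ω') : Function.Injective ι := fun _ _ h => (ι : Ω →+* Ω').injective h

theorem eq_zero {a : Ω} : ι a = 0 ↔ a = 0 := map_eq_zero_iff _ (inj ι)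

theorem mem_map {x : Ω'} : x ∈ E.map ι ↔ ∃ a ∈ E, ι a = x := Iff.rfl

theorem apply_mem_map {a : Ω} : ι a ∈ E.map ι ↔ a ∈ E :=
  ⟨fun ⟨b, hb, hab⟩ => by rw [← ι.injective hab]; exact hb, fun ha => ⟨a, ha, rfl⟩⟩

theorem map_le_map_iff {F : IntermediateField k Ω} : E.map ι ≤ F.map ι ↔ E ≤ F :=
  ⟨fun h _ ha => apply_mem_map.1 (h (apply_mem_map.2 ha)),
    fun h _ ⟨a, ha, hx⟩ => ⟨a, h ha, hx⟩⟩

theorem map_inj {F : IntermediateField k Ω} (h : E.map ι = F.map ι) : E = F :=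
  le_antisymm (map_le_map_iff.1 h.le) (map_le_map_iff.1 h.ge)

theorem cl_iff (h : Dense v w ι) {a : Ω} :
    ι a ∈ Cl w (E.map ι).toSubfield ↔ a ∈ Cl v E.toSubfield := by
  constructor
  · intro ha c
    obtain ⟨_, ⟨b, hb, rfl⟩, h1⟩ := ha c
    refine ⟨b, hb, ?_⟩
    rw [← h.ge_iff, map_sub]
    exact h1
  · intro ha c
    obtain ⟨b, hb, h1⟩ := ha c
    refine ⟨ι b, ⟨b, hb, rfl⟩, ?_⟩
    rw [← map_sub, h.ge_iff]
    exact h1

/-- The isomorphism of `E` and its image. -/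
noncomputable def mp (E : IntermediateField k Ω) (ι : Ω →ₐ[k] Ω') : E ≃ₐ[k] E.map ι :=
  E.equivMap ι

theorem mp_coe (a : E) : ((mp E ι a : E.map ι) : Ω') = ι a := rfl

theorem aeval_mp (P : E[X]) (a : Ω) :
    aeval (ι a) (P.map (mp E ι : E →+* E.map ι)) = ι (aeval a P) := by
  rw [aeval_def, eval₂_map, aeval_def]
  have h1 : ι (eval₂ (algebraMap E Ω) a P) = eval₂ ((ι : Ω →+* Ω').comp (algebraMap E Ω)) (ι a) P :=
    Polynomial.hom_eval₂ P (algebraMap E Ω) (ι : Ω →+* Ω') a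
  rw [h1]
  rfl

theorem isAlgebraic_iff {a : Ω} : IsAlgebraic (E.map ι) (ι a) ↔ IsAlgebraic E a := by
  constructor
  · rintro ⟨P, hP0, hP⟩
    refine ⟨P.map ((mp E ι).symm : E.map ι →+* E), ?_, ?_⟩
    · rwa [Ne, Polynomial.map_eq_zero_iff (mp E ι).symm.injective]
    · have h2 := aeval_mp (ι := ι) (P.map ((mp E ι).symm : E.map ι →+* E)) a
      rw [Polynomial.map_map] at h2
      have h1 : ((mp E ι : E →+* E.map ι).comp ((mp E ι).symm : E.map ι →+* E)) = RingHom.id _ := by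
        ext x
        exact congrArg Subtype.val ((mp E ι).apply_symm_apply x)
      rw [h1, Polynomial.map_id, hP] at h2
      exact eq_zero.1 h2.symm
  · rintro ⟨P, hP0, hP⟩
    refine ⟨P.map (mp E ι : E →+* E.map ι), ?_, ?_⟩
    · rwa [Ne, Polynomial.map_eq_zero_iff (mp E ι).injective]
    · rw [aeval_mp, hP, map_zero]

theorem minpoly_map {a : Ω} (ha : IsIntegral E a) :
    minpoly (E.map ι) (ι a) = (minpoly E a).map (mp E ι : E →+* E.map ι) := by
  symm
  refine minpoly.eq_of_irreducible_of_monic ?_ ?_ ((minpoly.monic ha).map _)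
  · have h1 := minpoly.irreducible ha
    have h2 : (minpoly E a).map (mp E ι : E →+* E.map ι) =
        Polynomial.mapEquiv (mp E ι).toRingEquiv (minpoly E a) := rfl
    rw [h2]
    exact (MulEquiv.irreducible_iff (Polynomial.mapEquiv (mp E ι).toRingEquiv)).2 h1
  · rw [aeval_mp, minpoly.aeval, map_zero]

theorem isSeparable_iff {a : Ω} : IsSeparable (E.map ι) (ι a) ↔ IsSeparable E a := by
  constructor
  · intro h
    have h1 : IsIntegral E a := (isAlgebraic_iff.1 h.isIntegral.isAlgebraic).isIntegral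
    have h2 : (minpoly (E.map ι) (ι a)).Separable := h
    rw [minpoly_map h1, separable_map] at h2
    exact h2
  · intro h
    have h1 : IsIntegral E a := h.isIntegral
    show (minpoly (E.map ι) (ι a)).Separable
    rw [minpoly_map h1, separable_map]
    exact h

/-- The elements algebraic over `ι(E)` are in `ι(Ω)`. -/
theorem exists_of_isAlgebraic [IsAlgClosed Ω] {x : Ω'} (hx : IsAlgebraic (E.map ι) x) :
    ∃ a : Ω, ι a = x := by
  obtain ⟨P, hP0, hP⟩ := hx
  set Q : E[X] := P.map ((mp E ι).symm : E.map ι →+* E) with hQ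
  have hQ0 : Q ≠ 0 := by rwa [hQ, Ne, Polynomial.map_eq_zero_iff (mp E ι).symm.injective]
  have hPQ : P = Q.map (mp E ι : E →+* E.map ι) := by
    rw [hQ, Polynomial.map_map]
    have h1 : ((mp E ι : E →+* E.map ι).comp ((mp E ι).symm : E.map ι →+* E)) = RingHom.id _ := by
      ext x
      exact congrArg Subtype.val ((mp E ι).apply_symm_apply x)
    rw [h1, Polynomial.map_id]
  set R : Polynomial Ω := Q.map (algebraMap E Ω) with hR
  have hR0 : R ≠ 0 := by
    rwa [hR, Ne, Polynomial.map_eq_zero_iff (algebraMap E Ω).injective]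
  have hRx : (R.map (ι : Ω →+* Ω')).eval x = 0 := by
    rw [hR, Polynomial.map_map, ← hP, hPQ, aeval_def, eval₂_map, eval₂_eq_eval_map]
    rfl
  have hsp : R.Splits := IsAlgClosed.splits R
  have h1 : x ∈ (R.map (ι : Ω →+* Ω')).roots :=
    (mem_roots (by rwa [Ne, Polynomial.map_eq_zero])).2 hRx
  rw [hsp.roots_map, Multiset.mem_map] at h1
  obtain ⟨a, -, ha⟩ := h1
  exact ⟨a, ha⟩

theorem hen_map [IsAlgClosed Ω] (h : Dense v w ι) (E : IntermediateField k Ω) :
    hen w (E.map ι) = (hen v E).map ι := by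
  refine le_antisymm ?_ ?_
  · intro x hx
    obtain ⟨h1, h2⟩ := D2P.mem_hen.1 hx
    obtain ⟨a, rfl⟩ := exists_of_isAlgebraic h2.isIntegral.isAlgebraic
    exact ⟨a, D2P.mem_hen.2 ⟨h.cl_iff.1 h1, isSeparable_iff.1 h2⟩, rfl⟩
  · rintro _ ⟨a, ha, rfl⟩
    obtain ⟨h1, h2⟩ := D2P.mem_hen.1 ha
    exact D2P.mem_hen.2 ⟨h.cl_iff.2 h1, isSeparable_iff.2 h2⟩

theorem ctx {r : ℕ} (h : Dense v w ι) (h0 : Ctx k v r) : Ctx k w r where
  toCtx0 := h.ctx0 h0.toCtx0
  rpos := h0.rpos
  rank := by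
    obtain ⟨X, hX, hind, hspan⟩ := h0.rank
    have h1 : (fun i => w (ι (X i))) = fun i => v (X i) := funext fun i => h.val _ (hX i)
    refine ⟨fun i => ι (X i), fun i => h.ne_zero (hX i), ?_, fun g hg => ?_⟩
    · rw [h1]; exact hind
    · obtain ⟨a, ha, hva⟩ := h.exists_val hg
      rw [h1, ← hva]
      exact hspan a ha

theorem full_iff (h : Dense v w ι) : Full w (E.map ι) ↔ Full v E := by
  constructor
  · intro hF g hg
    obtain ⟨m, hm, _, ⟨c, hc, rfl⟩, hc0, hcv⟩ := hF (ι g) (h.ne_zero hg)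
    have hc0' : c ≠ 0 := by rintro rfl; exact hc0 (map_zero _)
    have hcv' : w (ι c) = m * w (ι g) := hcv
    rw [h.val c hc0', h.val g hg] at hcv'
    exact ⟨m, hm, c, hc, hc0', hcv'⟩
  · intro hF g hg
    obtain ⟨a, ha, hva⟩ := h.exists_val hg
    obtain ⟨m, hm, c, hc, hc0, hcv⟩ := hF a ha
    exact ⟨m, hm, ι c, ⟨c, hc, rfl⟩, h.ne_zero hc0, by rw [h.val c hc0, hcv, hva]⟩

theorem fg_map (hE : E.FG) : (E.map ι).FG := by
  classical
  obtain ⟨S, hS⟩ := hE
  refine ⟨S.image ι, ?_⟩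
  rw [Finset.coe_image, ← IntermediateField.adjoin_map, hS]

theorem of_fg {N : IntermediateField k Ω'} (hN : N.FG) (hle : ∀ x ∈ N, ∃ a : Ω, ι a = x) :
    ∃ N₀ : IntermediateField k Ω, N₀.FG ∧ N₀.map ι = N := by
  classical
  obtain ⟨S, hS⟩ := hN
  have hS' : ∀ x : S, ∃ a : Ω, ι a = x := fun x =>
    hle x (by rw [← hS]; exact IntermediateField.subset_adjoin _ _ x.2)
  choose f hf using hS'
  refine ⟨IntermediateField.adjoin k (Finset.univ.image f : Finset Ω), ⟨_, rfl⟩, ?_⟩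
  rw [IntermediateField.adjoin_map, ← hS]
  congr 1
  ext x
  constructor
  · rintro ⟨a, ha, rfl⟩
    obtain ⟨y, -, rfl⟩ := Finset.mem_image.1 (Finset.mem_coe.1 ha)
    rw [hf]
    exact y.2
  · intro hx
    exact ⟨f ⟨x, hx⟩, by simp, hf _⟩

theorem fg_iff : (E.map ι).FG ↔ E.FG := by
  refine ⟨fun hE => ?_, fg_map⟩
  obtain ⟨N, hN, h1⟩ := of_fg hE (fun x ⟨a, _, ha⟩ => ⟨a, ha⟩)
  rwa [← map_inj h1]

theorem trdeg_map (E : IntermediateField k Ω) (ι : Ω →ₐ[k] Ω') :
    Algebra.trdeg k (E.map ι) = Algebra.trdeg k E := (mp E ι).trdeg_eq.symm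

theorem adj_map (E : IntermediateField k Ω) (z : Ω) : (adj E z).map ι = adj (E.map ι) (ι z) := by
  refine le_antisymm ?_ (D2P.adj_le (map_le_map_iff.2 (D2P.mem_adj_self E z).2)
    (apply_mem_map.2 (D2P.mem_adj_self E z).1))
  rw [IntermediateField.map_le_iff_le_comap]
  exact D2P.adj_le (fun a ha => (D2P.mem_adj_self (E.map ι) (ι z)).2 ⟨a, ha, rfl⟩)
    (D2P.mem_adj_self (E.map ι) (ι z)).1

theorem transcendental_iff {z : Ω} : Transcendental (E.map ι) (ι z) ↔ Transcendental E z :=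
  not_congr isAlgebraic_iff

/-- `HRone` of `E` and of its image. -/
theorem hrone_iff [IsAlgClosed Ω] (h : Dense v w ι) : HRone w (E.map ι) ↔ HRone v E := by
  constructor
  · rintro ⟨N, z, hN, hfull, htr, heq⟩
    rw [h.hen_map] at heq
    have hsub : ∀ x ∈ adj N z, ∃ a : Ω, ι a = x := by
      intro x hx
      have h1 := D2P.le_hen (v := w) _ hx
      rw [← heq] at h1
      obtain ⟨a, -, ha⟩ := h1
      exact ⟨a, ha⟩
    obtain ⟨N₀, hN₀, rfl⟩ := of_fg hN fun x hx => hsub x ((D2P.mem_adj_self N z).2 hx)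
    obtain ⟨z₀, rfl⟩ := hsub z (D2P.mem_adj_self _ z).1
    refine ⟨N₀, z₀, hN₀, h.full_iff.1 hfull, transcendental_iff.1 htr, ?_⟩
    rw [← adj_map, h.hen_map] at heq
    exact map_inj heq
  · rintro ⟨N, z, hN, hfull, htr, heq⟩
    refine ⟨N.map ι, ι z, fg_map hN, h.full_iff.2 hfull, transcendental_iff.2 htr, ?_⟩
    rw [← adj_map, h.hen_map, h.hen_map, heq]

/-! ### `p`-bases -/

variable {p n : ℕ}

theorem map_mon (t : Fin n → Ω) (α : Fin n → Fin p) : mon (fun i => ι (t i)) α = ι (mon t α) := by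
  unfold mon
  rw [map_prod]
  simp only [map_pow]

theorem map_pcomb (t : Fin n → Ω) (c : (Fin n → Fin p) → Ω) :
    pcomb (fun i => ι (t i)) (fun α => ι (c α)) = ι (pcomb t c) := by
  unfold pcomb
  rw [map_sum]
  refine Finset.sum_congr rfl fun α _ => ?_
  rw [map_mul, map_pow, map_mon]

theorem pbasis_iff {t : Fin n → Ω} :
    PBasis p (E.map ι) (fun i => ι (t i)) ↔ PBasis p E t := by
  constructor
  · intro h
    refine ⟨fun i => apply_mem_map.1 (h.mem i), fun u hu => ?_, fun c hc h0 α => ?_⟩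
    · obtain ⟨c, hc, h1⟩ := h.span (ι u) (apply_mem_map.2 hu)
      choose d hd hdc using hc
      have h2 : (fun α => ι (d α)) = c := funext hdc
      refine ⟨d, hd, inj ι ?_⟩
      rw [h1, ← h2, map_pcomb]
    · have h1 := h.ind (fun α => ι (c α)) (fun α => apply_mem_map.2 (hc α))
        (by rw [map_pcomb, h0, map_zero]) α
      exact eq_zero.1 h1
  · intro h
    refine ⟨fun i => apply_mem_map.2 (h.mem i), ?_, fun c hc h0 α => ?_⟩
    · rintro _ ⟨u, hu, rfl⟩
      obtain ⟨c, hc, h1⟩ := h.span u hu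
      refine ⟨fun α => ι (c α), fun α => apply_mem_map.2 (hc α), ?_⟩
      rw [map_pcomb, ← h1]
      rfl
    · choose d hd hdc using hc
      have h2 : (fun α => ι (d α)) = c := funext hdc
      rw [← h2, map_pcomb, eq_zero] at h0
      have h3 := h.ind d hd h0 α
      rw [← h2]
      show ι (d α) = 0
      rw [h3, map_zero]

theorem orth_iff (h : Dense v w ι) {t : Fin n → Ω} {C : ℝ} :
    Orth p w (E.map ι) (fun i => ι (t i)) C ↔ Orth p v E t C := by
  constructor
  · intro ho c hc h0 α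
    have h1 := ho (fun α => ι (c α)) (fun α => apply_mem_map.2 (hc α))
      (by rw [map_pcomb]; exact h.ne_zero h0) α
    rw [map_pcomb, h.val _ h0, map_mon, ← map_pow, ← map_mul, h.ge_iff] at h1
    exact h1
  · intro ho c hc h0 α
    choose d hd hdc using hc
    have h2 : (fun α => ι (d α)) = c := funext hdc
    have h0' : pcomb t d ≠ 0 := by
      intro h3
      rw [← h2, map_pcomb, h3, map_zero] at h0
      exact h0 rfl
    have h1 := ho d hd h0' α
    rw [← h2, map_pcomb, h.val _ h0', map_mon, ← map_pow, ← map_mul, h.ge_iff]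
    exact h1

theorem bd_iff (h : Dense v w ι) : BD p w (E.map ι) ↔ BD p v E := by
  constructor
  · rintro ⟨n, t, ht, C, hC⟩
    choose s hs hst using ht.mem
    have h2 : (fun i => ι (s i)) = t := funext hst
    subst h2
    exact ⟨n, s, pbasis_iff.1 ht, C, h.orth_iff.1 hC⟩
  · rintro ⟨n, t, ht, C, hC⟩
    exact ⟨n, fun i => ι (t i), pbasis_iff.2 ht, C, h.orth_iff.2 hC⟩

/-- The values of the field and of its image. -/
theorem val_map (h : Dense v w ι) {a : Ω} (ha : a ≠ 0) : w (ι a) = v a := h.val a ha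

theorem charP (ι : Ω →ₐ[k] Ω') (p : ℕ) [CharP Ω p] : CharP Ω' p :=
  charP_of_injective_ringHom (f := (ι : Ω →+* Ω')) (ι : Ω →+* Ω').injective p

end Dense

end Pool.Agent.TWM
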