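import Pool.Agent.Lib.D2P.R0

/-!
# TANK W, M2: definitions

`Ω` is an algebraically closed field with a real valuation `v`.
* `Cld v A`: the field `A` is closed in `Ω`; `cadj v A z`: the closure of `A(z)`;
* `PI A`: the polynomials over `A`, as a subring of `Ω[X]`; the Hasse derivatives of `f` at `z` are
  the coefficients of `taylor z f`;
* `Lim v A r w`: `w` is a limit of `A` up to `r`;
* `TL v A z s`: `z` is a limit of `A` up to `s`, and at distance `< s` of all the elements of `Ω`
  which are algebraic over `A`;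
* `Imm v A B`: `B` is immediate over `A`;
* `Fib v A B y z ρ s`: `B` is the closure of `A(y, z)`, `y` of radius `ρ` over `A` and `z` of radius
  `s` over the closure of `A(y)`;
* `CompleteV v`: `Ω` is complete; `NN v x`: the closure of `k(x)`.
-/

set_option autoImplicit false

open Polynomial

namespace Pool.Agent.TWM

open Pool.Agent.H15JM (RVal)
open Pool.Agent.LU1 (VPos adj)
open Pool.Agent.LUC (Cl clF)
open Pool.Agent.D2 (Ctx0)
open Pool.Agent.D2P (hen clI mem_clI)

universe u

variable {k Ω : Type u} [Field k] [Field Ω] [Algebra k Ω]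

/-- `A` is closed in `Ω`. -/
def Cld (v : RVal Ω) (A : IntermediateField k Ω) : Prop := clI v A ≤ A

/-- The closure of `A(z)`. -/
noncomputable def cadj (v : RVal Ω) (A : IntermediateField k Ω) (z : Ω) : IntermediateField k Ω :=
  clI v (adj A z)

/-- The polynomials with coefficients in `A`. -/
def PI (A : IntermediateField k Ω) : Subring (Polynomial Ω) where
  carrier := {f | ∀ i, f.coeff i ∈ A}
  mul_mem' := by
    intro f g hf hg i
    rw [coeff_mul]
    exact sum_mem fun x _ => mul_mem (hf _) (hg _)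
  one_mem' := by
    intro i
    rw [coeff_one]
    split_ifs
    exacts [one_mem _, zero_mem _]
  add_mem' := by
    intro f g hf hg i
    rw [coeff_add]
    exact add_mem (hf i) (hg i)
  zero_mem' := by
    intro i
    rw [coeff_zero]
    exact zero_mem _
  neg_mem' := by
    intro f hf i
    rw [coeff_neg]
    exact neg_mem (hf i)

theorem mem_PI {A : IntermediateField k Ω} {f : Polynomial Ω} : f ∈ PI A ↔ ∀ i, f.coeff i ∈ A := Iff.rfl

/-- `w` is a limit of `A` up to `r`. -/
def Lim (v : RVal Ω) (A : IntermediateField k Ω) (r : ℝ) (w : Ω) : Prop :=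
  ∀ ε : ℝ, 0 < ε → ∃ a ∈ A, v.Ge (r - ε) (w - a)

/-- `w` is in `A + O(r)`. -/
def Nr (v : RVal Ω) (A : IntermediateField k Ω) (r : ℝ) (w : Ω) : Prop := ∃ a ∈ A, v.Ge r (w - a)

/-- The elements of value `> r`. -/
def Gt (v : RVal Ω) (r : ℝ) (w : Ω) : Prop := w ≠ 0 → r < v w

/-- `w` is in `A + O(>r)`. -/
def Nr' (v : RVal Ω) (A : IntermediateField k Ω) (r : ℝ) (w : Ω) : Prop := ∃ a ∈ A, Gt v r (w - a)

/-- `z` is a limit of `A` up to `s`, at distance `< s` of the algebraic elements. -/
structure TL (v : RVal Ω) (A : IntermediateField k Ω) (z : Ω) (s : ℝ) : Prop where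
  lim : Lim v A s z
  far : ∀ θ : Ω, IsAlgebraic A θ → z ≠ θ ∧ v (z - θ) < s

/-- `B` is immediate over `A`. -/
structure Imm (v : RVal Ω) (A B : IntermediateField k Ω) : Prop where
  le : A ≤ B
  imm : ∀ b ∈ B, b ≠ 0 → ∃ a ∈ A, Gt v (v b) (b - a)

/-- `B` is the closure of `A(y, z)`, two steps of transcendental type. -/
structure Fib (v : RVal Ω) (A B : IntermediateField k Ω) (y z : Ω) (ρ s : ℝ) : Prop where
  ty : TL v A y ρ
  tz : TL v (cadj v A y) z s
  eq : B = cadj v (cadj v A y) z

/-- Every Cauchy sequence converges. -/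
def CompleteV (v : RVal Ω) : Prop :=
  ∀ f : ℕ → Ω, (∀ c : ℝ, ∃ N, ∀ m n, N ≤ m → N ≤ n → v.Ge c (f m - f n)) →
    ∃ a, ∀ c : ℝ, ∃ N, ∀ n, N ≤ n → v.Ge c (a - f n)

/-- The closure of `k(x)`. -/
noncomputable def NN (k : Type u) {Ω : Type u} [Field k] [Field Ω] [Algebra k Ω] (v : RVal Ω)
    {r : ℕ} (x : Fin r → Ω) : IntermediateField k Ω :=
  clI v (IntermediateField.adjoin k (Set.range x))

/-- The algebraic closure of `A` in `Ω`. -/
noncomputable def algc (A : IntermediateField k Ω) : IntermediateField k Ω :=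
  (algebraicClosure A Ω).restrictScalars k

theorem mem_algc {A : IntermediateField k Ω} {θ : Ω} : θ ∈ algc A ↔ IsAlgebraic A θ :=
  mem_algebraicClosure_iff (F := A) (E := Ω)

end Pool.Agent.TWM
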