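import Pool.Agent.Lib.TWM.A1
import Pool.Agent.Lib.TWM.Roots
import Pool.Agent.Lib.D2P.A2sAux

/-!
# M2, block C, part 1: the derivation of a purely inseparable step

`M` is closed, `u ^ p ∈ M`, `u` is not in `M + O(>ρ)` (`C.PStep`). `C.der` is the derivation of
`M(u)` over `M` with value `1` at `u`; it satisfies `v (Δ f) ≥ v f - ρ`. `C.prj` is the projection
of `M(u)` on `M` given by `u ↦ h`.
-/

set_option autoImplicit false

open Polynomial

namespace Pool.Agent.TWM.C

open Pool.Agent.H15JM (RVal)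
open Pool.Agent.LU1 (VPos adj)
open Pool.Agent.LUC (Cl clF)
open Pool.Agent.D2 (Ctx0)
open Pool.Agent.D2P (hen clI mem_clI)

universe u₀

variable {k Ω : Type u₀} [Field k] [Field Ω] [Algebra k Ω] {v : RVal Ω}
  {A M : IntermediateField k Ω} {u : Ω} {ρ : ℝ}

/-- A purely inseparable step of degree `p` in which `u` has distance `≤ ρ` from `M`. -/
structure PStep (p : ℕ) (v : RVal Ω) (M : IntermediateField k Ω) (u : Ω) (ρ : ℝ) : Prop where
  cld : Cld v M
  pw : u ^ p ∈ M
  far : ¬ Nr' v M ρ u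

theorem hen_eq (hM : Cld v M) : hen v M = M :=
  le_antisymm (fun _ ha => hM (D2P.mem_hen.1 ha).1) (D2P.le_hen M)

theorem PStep.not_mem {p : ℕ} (hs : PStep p v M u ρ) : u ∉ M := fun h =>
  hs.far ⟨u, h, by rw [sub_self]; exact Gt.zero⟩

section

variable (p : ℕ) [hp : Fact p.Prime] [CharP k p] [CharP Ω p]

theorem not_sep (hs : PStep p v M u ρ) {θ : Ω} (hθ : IsSeparable M θ) : u ≠ θ := by
  rintro rfl
  refine hs.not_mem ?_
  have h1 := D2P.mem_adj_pow p hθ
  exact D2P.adj_le le_rfl hs.pw h1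

/-- the natural numbers prime to `p` -/
theorem nat_val (h0 : Ctx0 k v) {d : ℕ} (hd : (d : k) ≠ 0) : (d : Ω) ≠ 0 ∧ v (d : Ω) = 0 := by
  have h1 := h0.triv _ hd
  rw [map_natCast] at h1
  refine ⟨?_, h1⟩
  have h2 : algebraMap k Ω (d : k) ≠ 0 := (map_ne_zero_iff _ (algebraMap k Ω).injective).2 hd
  rwa [map_natCast] at h2

variable [IsAlgClosed Ω]

/-- The elements of degree `< p` over `M` are at distance `≤ ρ` from `u`. -/
theorem PStep.dist (h0 : Ctx0 k v) (hs : PStep p v M u ρ) {θ : Ω} (hint : IsIntegral M θ)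
    (hdeg : (minpoly M θ).natDegree < p) : u ≠ θ ∧ v (u - θ) ≤ ρ := by
  classical
  have hM := hen_eq hs.cld
  set g := minpoly M θ with hg
  have hgm : g.Monic := minpoly.monic hint
  have hgi : Irreducible g := minpoly.irreducible hint
  have hd0 : 0 < g.natDegree := minpoly.natDegree_pos hint
  have hchM : CharP M p := charP_of_injective_algebraMap (algebraMap k M).injective p
  have hdk : ((g.natDegree : ℕ) : k) ≠ 0 := by
    rw [Ne, CharP.cast_eq_zero_iff k p]
    exact fun h => absurd (Nat.le_of_dvd hd0 h) (not_le.2 hdeg)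
  have hdM : ((g.natDegree : ℕ) : M) ≠ 0 := by
    rw [Ne, CharP.cast_eq_zero_iff M p]
    exact fun h => absurd (Nat.le_of_dvd hd0 h) (not_le.2 hdeg)
  -- separability
  have hsep : IsSeparable M θ := by
    show g.Separable
    rw [separable_iff_derivative_ne_zero hgi]
    intro h1
    have h2 := congrArg (fun q : M[X] => q.coeff (g.natDegree - 1)) h1
    simp only [coeff_derivative, coeff_zero] at h2
    rw [Nat.sub_add_cancel hd0, hgm.coeff_natDegree, one_mul] at h2
    have h3 : ((g.natDegree - 1 : ℕ) : M) + 1 = ((g.natDegree : ℕ) : M) := by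
      rw [← Nat.cast_succ, Nat.succ_eq_add_one, Nat.sub_add_cancel hd0]
    rw [h3] at h2
    exact hdM h2
  refine ⟨not_sep p hs hsep, ?_⟩
  by_contra hcon
  push Not at hcon
  -- the conjugates are at the same distance
  have hconj : ∀ θ', aeval θ' g = 0 → u ≠ θ' ∧ v (u - θ') = v (u - θ) := by
    intro θ' hθ'
    have hg' : minpoly M θ' = g :=
      (minpoly.eq_of_irreducible_of_monic hgi hθ' hgm).symm
    have hsep' : IsSeparable M θ' := by
      show (minpoly M θ').Separable
      rw [hg']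
      exact hsep
    have hne' := not_sep p hs hsep'
    have hne := not_sep p hs hsep
    refine ⟨hne', ?_⟩
    have hup : IsSeparable M (u ^ p) := isSeparable_algebraMap (F := M) (⟨u ^ p, hs.pw⟩ : M)
    have hasep : IsSeparable M (θ ^ p - u ^ p) := by
      have h1 : θ ^ p ∈ separableClosure M Ω :=
        pow_mem (mem_separableClosure_iff.2 hsep) p
      exact mem_separableClosure_iff.1 (sub_mem h1 (mem_separableClosure_iff.2 hup))
    have haroot : aeval (θ' ^ p - u ^ p) (minpoly M (θ ^ p - u ^ p)) = 0 := by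
      set H : M[X] := (minpoly M (θ ^ p - u ^ p)).comp (X ^ p - C (⟨u ^ p, hs.pw⟩ : M)) with hH
      have h1 : ∀ t : Ω, aeval t H = aeval (t ^ p - u ^ p) (minpoly M (θ ^ p - u ^ p)) := by
        intro t
        rw [hH, aeval_comp, map_sub, map_pow, aeval_X, aeval_C]
        rfl
      have h2 : aeval θ H = 0 := by rw [h1, minpoly.aeval]
      have h3 : g ∣ H := minpoly.dvd M θ h2
      obtain ⟨q, hq⟩ := h3
      rw [← h1, hq, map_mul, hθ', zero_mul]
    have h4 := D2P.val_root_sep h0 hM hasep haroot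
    rw [← sub_pow_char, ← sub_pow_char, v.map_pow (sub_ne_zero.2 hne'.symm),
      v.map_pow (sub_ne_zero.2 hne.symm)] at h4
    have hp0 : (0 : ℝ) < p := by exact_mod_cast hp.out.pos
    have h5 := mul_left_cancel₀ hp0.ne' h4
    rw [← neg_sub θ' u, ← neg_sub θ u, v.map_neg _ (sub_ne_zero.2 hne'.symm),
      v.map_neg _ (sub_ne_zero.2 hne.symm), h5]
  -- the trace
  set G : Polynomial Ω := g.map (algebraMap M Ω) with hG
  have hGm : G.Monic := hgm.map _
  have hGs : G.Splits := IsAlgClosed.splits G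
  have hGd : G.natDegree = g.natDegree := hgm.natDegree_map _
  have hcard : G.roots.card = g.natDegree := by
    rw [← hGd]
    exact hGs.natDegree_eq_card_roots.symm
  have hroot : ∀ θ' ∈ G.roots, u ≠ θ' ∧ v (u - θ') = v (u - θ) := by
    intro θ' hθ'
    refine hconj θ' ?_
    have h1 := (mem_roots hGm.ne_zero).1 hθ'
    rwa [IsRoot.def, hG, eval_map_algebraMap] at h1
  have hsum : ∀ S : Multiset Ω, (∀ θ' ∈ S, u ≠ θ' ∧ v (u - θ') = v (u - θ)) →
      Gt v ρ ((S.card : Ω) * u - S.sum) := by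
    intro S hS
    induction S using Multiset.induction_on with
    | empty =>
      rw [Multiset.card_zero, Nat.cast_zero, zero_mul, Multiset.sum_zero, sub_zero]
      exact Gt.zero
    | cons a S ih =>
      have h1 := hS a (Multiset.mem_cons_self a S)
      have h2 := ih fun θ' h => hS θ' (Multiset.mem_cons_of_mem h)
      rw [Multiset.card_cons, Multiset.sum_cons]
      have h3 : ((S.card + 1 : ℕ) : Ω) * u - (a + S.sum) = (u - a) + ((S.card : Ω) * u - S.sum) := by
        push_cast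
        ring
      rw [h3]
      refine Gt.add (fun _ => ?_) h2
      rw [h1.2]
      exact hcon
  have h1 := hsum G.roots hroot
  rw [hcard] at h1
  have h2 : G.roots.sum ∈ M := by
    have h3 := hGs.nextCoeff_eq_neg_sum_roots_of_monic hGm
    have h4 : G.roots.sum = -G.nextCoeff := by rw [h3, neg_neg]
    rw [h4]
    refine neg_mem ?_
    unfold nextCoeff
    split_ifs
    · exact zero_mem _
    · rw [hG, coeff_map]
      exact (g.coeff _).2
  obtain ⟨hdΩ, hvd⟩ := nat_val h0 hdk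
  refine hs.far ⟨((g.natDegree : ℕ) : Ω)⁻¹ * G.roots.sum,
    mul_mem (inv_mem (natCast_mem M _)) h2, ?_⟩
  have h5 : u - ((g.natDegree : ℕ) : Ω)⁻¹ * G.roots.sum =
      (((g.natDegree : ℕ) : Ω) * u - G.roots.sum) * ((g.natDegree : ℕ) : Ω)⁻¹ := by
    field_simp
  rw [h5]
  have h6 : v.Ge 0 ((g.natDegree : ℕ) : Ω)⁻¹ := fun _ => by
    rw [v.map_inv hdΩ, hvd, neg_zero]
  have h7 := h1.mul_ge h6
  rwa [add_zero] at h7

/-- The roots of the polynomials of degree `< p`. -/
theorem PStep.root (h0 : Ctx0 k v) (hs : PStep p v M u ρ) {P : Polynomial Ω} (hP : P ∈ PI M)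
    (hP0 : P ≠ 0) (hdeg : P.natDegree < p) {θ : Ω} (hθ : P.IsRoot θ) :
    u ≠ θ ∧ v (u - θ) ≤ ρ := by
  have hl : P ∈ Polynomial.lifts (algebraMap M Ω) := by
    rw [Polynomial.lifts_iff_coeff_lifts]
    exact fun i => ⟨⟨P.coeff i, hP i⟩, rfl⟩
  obtain ⟨g, hg⟩ := hl
  have hg' : g.map (algebraMap M Ω) = P := hg
  have hg0 : g ≠ 0 := by
    rintro rfl
    rw [Polynomial.map_zero] at hg'
    exact hP0 hg'.symm
  have hgθ : aeval θ g = 0 := by
    rw [aeval_def, eval₂_eq_eval_map, hg']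
    exact hθ
  have halg : IsAlgebraic M θ := ⟨g, hg0, hgθ⟩
  refine hs.dist p h0 halg.isIntegral ?_
  refine lt_of_le_of_lt (natDegree_le_of_dvd (minpoly.dvd M θ hgθ) hg0) ?_
  rw [← hg', natDegree_map] at hdeg
  exact hdeg

/-- A polynomial of degree `< p` with root `u` is zero. -/
theorem PStep.eq_zero (h0 : Ctx0 k v) (hs : PStep p v M u ρ) {P : Polynomial Ω} (hP : P ∈ PI M)
    (hdeg : P.natDegree < p) (hu : P.eval u = 0) : P = 0 := by
  by_contra hP0
  exact (hs.root p h0 hP hP0 hdeg hu).1 rfl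

omit [CharP k p] [CharP Ω p] [IsAlgClosed Ω] in
/-- Reduction modulo `X ^ p - u ^ p`. -/
theorem exists_rem {P : Polynomial Ω} {c : Ω} (hc : c ∈ M) (hP : P ∈ PI M) :
    ∃ Q ∈ PI M, ∃ R ∈ PI M, P = Q + (X ^ p - C c) * R ∧ Q.natDegree < p := by
  have hl : P ∈ Polynomial.lifts (algebraMap M Ω) := by
    rw [Polynomial.lifts_iff_coeff_lifts]
    exact fun i => ⟨⟨P.coeff i, hP i⟩, rfl⟩
  obtain ⟨g, hg⟩ := hl
  have hg' : g.map (algebraMap M Ω) = P := hg
  have hq : (X ^ p - C (⟨c, hc⟩ : M)).Monic := monic_X_pow_sub_C _ hp.out.ne_zero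
  refine ⟨(g %ₘ (X ^ p - C (⟨c, hc⟩ : M))).map (algebraMap M Ω), fun i => by
    rw [coeff_map]; exact SetLike.coe_mem _,
    (g /ₘ (X ^ p - C (⟨c, hc⟩ : M))).map (algebraMap M Ω), fun i => by
    rw [coeff_map]; exact SetLike.coe_mem _, ?_, ?_⟩
  · have h1 := modByMonic_add_div g (X ^ p - C (⟨c, hc⟩ : M))
    have h2 := congrArg (Polynomial.map (algebraMap M Ω)) h1
    rw [Polynomial.map_add, Polynomial.map_mul, Polynomial.map_sub, Polynomial.map_pow, map_X,
      map_C, hg'] at h2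
    exact h2.symm
  · rw [natDegree_map]
    have h3 := natDegree_modByMonic_lt g hq (by
      intro h7
      have h8 := congrArg natDegree h7
      rw [natDegree_X_pow_sub_C, natDegree_one] at h8
      exact hp.out.ne_zero h8)
    rwa [natDegree_X_pow_sub_C] at h3

omit [CharP k p] [CharP Ω p] [IsAlgClosed Ω] in
/-- The elements of `M(u)` are polynomials of degree `< p` in `u`. -/
theorem exists_rep (hu : u ^ p ∈ M) {f : Ω} (hf : f ∈ adj M u) :
    ∃ P ∈ PI M, P.natDegree < p ∧ P.eval u = f := by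
  have hint : IsIntegral M u := by
    refine ⟨X ^ p - C (⟨u ^ p, hu⟩ : M), monic_X_pow_sub_C _ hp.out.ne_zero, ?_⟩
    rw [eval₂_sub, eval₂_X_pow, eval₂_C]
    exact sub_self _
  rw [D2P.mem_adj_iff] at hf
  have h4 : f ∈ Algebra.adjoin M {u} := by
    rw [← IntermediateField.adjoin_simple_toSubalgebra_of_isAlgebraic hint.isAlgebraic]
    exact hf
  rw [Algebra.adjoin_singleton_eq_range_aeval] at h4
  obtain ⟨P, hP⟩ := h4
  have hP' : aeval u P = f := hP
  have hPI : P.map (algebraMap M Ω) ∈ PI M := fun i => by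
    rw [coeff_map]; exact SetLike.coe_mem _
  obtain ⟨Q, hQ, R, -, hPQ, hdeg⟩ := exists_rem p hu hPI
  refine ⟨Q, hQ, hdeg, ?_⟩
  have h5 := congrArg (eval u) hPQ
  rw [eval_add, eval_mul, eval_sub, eval_pow, eval_X, eval_C, sub_self, zero_mul, add_zero,
    eval_map_algebraMap, hP'] at h5
  exact h5.symm

omit hp [CharP k p] [CharP Ω p] [IsAlgClosed Ω] in
theorem eval_mem_adj {P : Polynomial Ω} (hP : P ∈ PI M) : P.eval u ∈ adj M u :=
  eval_mem (PI_mono (D2P.mem_adj_self M u).2 hP) (D2P.mem_adj_self M u).1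

open Classical in
/-- The polynomial of degree `< p` of an element of `M(u)`. -/
noncomputable def rep (p : ℕ) (M : IntermediateField k Ω) (u : Ω) (f : Ω) : Polynomial Ω :=
  if h : ∃ P ∈ PI M, P.natDegree < p ∧ P.eval u = f then h.choose else 0

omit [CharP k p] [CharP Ω p] [IsAlgClosed Ω] in
theorem rep_spec (hu : u ^ p ∈ M) {f : Ω} (hf : f ∈ adj M u) :
    rep p M u f ∈ PI M ∧ (rep p M u f).natDegree < p ∧ (rep p M u f).eval u = f := by
  unfold rep
  have h := exists_rep p hu hf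
  rw [dif_pos h]
  exact h.choose_spec

theorem rep_eq (h0 : Ctx0 k v) (hs : PStep p v M u ρ) {P : Polynomial Ω} (hP : P ∈ PI M)
    (hdeg : P.natDegree < p) : rep p M u (P.eval u) = P := by
  have h1 := rep_spec p hs.pw (eval_mem_adj (u := u) hP)
  refine sub_eq_zero.1 (hs.eq_zero p h0 (sub_mem h1.1 hP) ?_ ?_)
  · exact lt_of_le_of_lt (natDegree_sub_le _ _) (max_lt h1.2.1 hdeg)
  · rw [eval_sub, h1.2.2, sub_self]

/-- The derivation of `M(u)` over `M` with value `1` at `u`. -/
noncomputable def der (p : ℕ) (M : IntermediateField k Ω) (u : Ω) (f : Ω) : Ω :=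
  (derivative (rep p M u f)).eval u

theorem der_poly (h0 : Ctx0 k v) (hs : PStep p v M u ρ) {P : Polynomial Ω} (hP : P ∈ PI M) :
    der p M u (P.eval u) = (derivative P).eval u := by
  obtain ⟨Q, hQ, R, -, hPQ, hdeg⟩ := exists_rem p hs.pw hP
  have h1 : P.eval u = Q.eval u := by
    rw [hPQ, eval_add, eval_mul, eval_sub, eval_pow, eval_X, eval_C, sub_self, zero_mul,
      add_zero]
  unfold der
  rw [h1, rep_eq p h0 hs hQ hdeg, hPQ, derivative_add, derivative_mul, derivative_sub,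
    derivative_X_pow, derivative_C, eval_add, eval_add, eval_mul, eval_mul, eval_sub, eval_sub,
    eval_mul, eval_pow, eval_pow, eval_X, eval_C, eval_C, eval_zero, sub_self, zero_mul, add_zero,
    CharP.cast_eq_zero, zero_mul, sub_zero, zero_mul, add_zero]

omit [CharP k p] [CharP Ω p] [IsAlgClosed Ω] hp in
theorem derivative_mem {P : Polynomial Ω} (hP : P ∈ PI A) : derivative P ∈ PI A := by
  intro i
  rw [coeff_derivative]
  exact mul_mem (hP _) (add_mem (natCast_mem A _) (one_mem _))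

omit [CharP k p] [CharP Ω p] [IsAlgClosed Ω] in
theorem der_mem (hu : u ^ p ∈ M) {f : Ω} (hf : f ∈ adj M u) : der p M u f ∈ adj M u :=
  eval_mem_adj (derivative_mem (rep_spec p hu hf).1)

theorem der_iter_poly (h0 : Ctx0 k v) (hs : PStep p v M u ρ) (j : ℕ) {P : Polynomial Ω}
    (hP : P ∈ PI M) : (der p M u)^[j] (P.eval u) = (derivative^[j] P).eval u := by
  induction j generalizing P with
  | zero => rfl
  | succ j ih =>
    rw [Function.iterate_succ_apply, Function.iterate_succ_apply, der_poly p h0 hs hP,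
      ih (derivative_mem hP)]

omit [CharP k p] [CharP Ω p] [IsAlgClosed Ω] in
theorem der_iter_mem (hu : u ^ p ∈ M) (j : ℕ) {f : Ω} (hf : f ∈ adj M u) :
    (der p M u)^[j] f ∈ adj M u := by
  induction j with
  | zero => exact hf
  | succ j ih => rw [Function.iterate_succ_apply']; exact der_mem p hu ih

theorem der_add (h0 : Ctx0 k v) (hs : PStep p v M u ρ) {f g : Ω} (hf : f ∈ adj M u)
    (hg : g ∈ adj M u) : der p M u (f + g) = der p M u f + der p M u g := by
  obtain ⟨P, hP, -, rfl⟩ := exists_rep p hs.pw hf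
  obtain ⟨Q, hQ, -, rfl⟩ := exists_rep p hs.pw hg
  rw [← eval_add, der_poly p h0 hs hP, der_poly p h0 hs hQ, der_poly p h0 hs (add_mem hP hQ),
    derivative_add, eval_add]

theorem der_mul (h0 : Ctx0 k v) (hs : PStep p v M u ρ) {f g : Ω} (hf : f ∈ adj M u)
    (hg : g ∈ adj M u) : der p M u (f * g) = der p M u f * g + f * der p M u g := by
  obtain ⟨P, hP, -, rfl⟩ := exists_rep p hs.pw hf
  obtain ⟨Q, hQ, -, rfl⟩ := exists_rep p hs.pw hg
  rw [← eval_mul, der_poly p h0 hs hP, der_poly p h0 hs hQ, der_poly p h0 hs (mul_mem hP hQ),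
    derivative_mul, eval_add, eval_mul, eval_mul]

theorem der_M (h0 : Ctx0 k v) (hs : PStep p v M u ρ) {c : Ω} (hc : c ∈ M) :
    der p M u c = 0 := by
  have h1 := der_poly p h0 hs (C_mem_PI hc)
  rwa [eval_C, derivative_C, eval_zero] at h1

theorem der_pow (h0 : Ctx0 k v) (hs : PStep p v M u ρ) {f : Ω} (hf : f ∈ adj M u) :
    der p M u (f ^ p) = 0 := by
  obtain ⟨P, hP, -, rfl⟩ := exists_rep p hs.pw hf
  rw [← eval_pow, der_poly p h0 hs (pow_mem hP p), derivative_pow, eval_mul, eval_mul, eval_C,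
    CharP.cast_eq_zero, zero_mul, zero_mul]

theorem der_iter_add (h0 : Ctx0 k v) (hs : PStep p v M u ρ) (j : ℕ) {f g : Ω}
    (hf : f ∈ adj M u) (hg : g ∈ adj M u) :
    (der p M u)^[j] (f + g) = (der p M u)^[j] f + (der p M u)^[j] g := by
  induction j with
  | zero => rfl
  | succ j ih =>
    rw [Function.iterate_succ_apply', Function.iterate_succ_apply', Function.iterate_succ_apply',
      ih, der_add p h0 hs (der_iter_mem p hs.pw j hf) (der_iter_mem p hs.pw j hg)]

theorem der_iter_smul (h0 : Ctx0 k v) (hs : PStep p v M u ρ) (j : ℕ) {c f : Ω} (hc : c ∈ M)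
    (hf : f ∈ adj M u) : (der p M u)^[j] (c * f) = c * (der p M u)^[j] f := by
  induction j with
  | zero => rfl
  | succ j ih =>
    rw [Function.iterate_succ_apply', Function.iterate_succ_apply', ih,
      der_mul p h0 hs ((D2P.mem_adj_self M u).2 hc) (der_iter_mem p hs.pw j hf),
      der_M p h0 hs hc, zero_mul, zero_add]

theorem der_iter_neg (h0 : Ctx0 k v) (hs : PStep p v M u ρ) (j : ℕ) {f : Ω}
    (hf : f ∈ adj M u) : (der p M u)^[j] (-f) = -(der p M u)^[j] f := by
  have h1 := der_iter_smul p h0 hs j (c := -1) (neg_mem (one_mem M)) hf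
  rwa [neg_one_mul, neg_one_mul] at h1

theorem der_iter_sub (h0 : Ctx0 k v) (hs : PStep p v M u ρ) (j : ℕ) {f g : Ω}
    (hf : f ∈ adj M u) (hg : g ∈ adj M u) :
    (der p M u)^[j] (f - g) = (der p M u)^[j] f - (der p M u)^[j] g := by
  rw [sub_eq_add_neg, der_iter_add p h0 hs j hf (neg_mem hg), der_iter_neg p h0 hs j hg,
    ← sub_eq_add_neg]

theorem der_iter_zero (h0 : Ctx0 k v) (hs : PStep p v M u ρ) {j : ℕ} {f : Ω}
    (hf : der p M u f = 0) (hj : 1 ≤ j) : (der p M u)^[j] f = 0 := by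
  obtain ⟨j, rfl⟩ : ∃ i, j = i + 1 := ⟨j - 1, by omega⟩
  rw [Function.iterate_succ_apply, hf]
  induction j with
  | zero => rfl
  | succ j ih =>
    rw [Function.iterate_succ_apply, der_M p h0 hs (zero_mem M)]
    exact ih (by omega)

/-- `Δ ^ p = 0`. -/
theorem der_iter_p (h0 : Ctx0 k v) (hs : PStep p v M u ρ) {j : ℕ} (hj : p ≤ j) {f : Ω}
    (hf : f ∈ adj M u) : (der p M u)^[j] f = 0 := by
  obtain ⟨P, hP, hdeg, rfl⟩ := exists_rep p hs.pw hf
  rw [der_iter_poly p h0 hs j hP, iterate_derivative_eq_zero (hdeg.trans_le hj), eval_zero]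

/-- The bound. -/
theorem der_ge (h0 : Ctx0 k v) (hs : PStep p v M u ρ) {f : Ω} (hf : f ∈ adj M u) {c : ℝ}
    (hc : v.Ge c f) : v.Ge (c - ρ) (der p M u f) := by
  obtain ⟨h1, h2, h3⟩ := rep_spec p hs.pw hf
  by_cases hP0 : rep p M u f = 0
  · unfold der
    rw [hP0, derivative_zero, eval_zero]
    exact RVal.Ge.zero
  · have h4 := Roots.taylor_ge hP0 (fun θ hθ => hs.root p h0 h1 hP0 h2 hθ) 1
    rw [taylor_coeff_one, h3] at h4
    have hf0 : f ≠ 0 := by
      intro h
      exact hP0 (hs.eq_zero p h0 h1 h2 (by rw [h3, h]))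
    refine h4.mono ?_
    have := hc hf0
    push_cast
    linarith

theorem der_iter_ge (h0 : Ctx0 k v) (hs : PStep p v M u ρ) (j : ℕ) {f : Ω} (hf : f ∈ adj M u)
    {c : ℝ} (hc : v.Ge c f) : v.Ge (c - j * ρ) ((der p M u)^[j] f) := by
  induction j with
  | zero =>
    rw [Nat.cast_zero, zero_mul, sub_zero]
    exact hc
  | succ j ih =>
    rw [Function.iterate_succ_apply']
    refine (der_ge p h0 hs (der_iter_mem p hs.pw j hf) ih).mono ?_
    push_cast
    linarith

theorem der_iter_gt (h0 : Ctx0 k v) (hs : PStep p v M u ρ) (j : ℕ) {f : Ω} (hf : f ∈ adj M u)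
    {c : ℝ} (hc : Gt v c f) : Gt v (c - j * ρ) ((der p M u)^[j] f) := by
  by_cases hf0 : f = 0
  · subst hf0
    have h1 : (der p M u)^[j] (0 : Ω) = 0 := by
      rcases Nat.eq_zero_or_pos j with rfl | hj
      · rfl
      · exact der_iter_zero p h0 hs (der_M p h0 hs (zero_mem M)) hj
    rw [h1]
    exact Gt.zero
  · refine Gt.of_ge (der_iter_ge p h0 hs j hf (RVal.ge_self (v := v) f)) ?_
    have := hc hf0
    linarith

end

end Pool.Agent.TWM.C
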