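import Pool.Agent.Lib.TWM.X2
import Pool.Agent.Lib.TW.B1

/-!
# TANK W, M2, row S8a: generators are `p`-bases with bounded distortion

* `pbasis_of_dense`, `pbasis_clI`: `p`-bases of closed fields;
* `pbasis_of_gen`: if `B` is the closure of `k(t)` and the `t^α` are `p`-independent over `B` with
  bounded distortion, `t` is a `p`-basis of `B`;
* `OI_gen`: if `B` is also the closure of `k(t')`, with as many elements, the same is true for `t'`.
-/

set_option autoImplicit false

open Polynomial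

namespace Pool.Agent.TWM

open Pool.Agent.H15JM (RVal)
open Pool.Agent.LU1 (VPos adj)
open Pool.Agent.LUC (Cl clF)
open Pool.Agent.D2 (Ctx0)
open Pool.Agent.D2P (hen clI mem_clI mem_adj_self adj_le)
open Pool.Agent.TW (mon pcomb Orth PBasis BD Qp mem_Qp Qp_le' Bas Spn Ind Orthq BDq sm)

universe u

variable {k Ω : Type u} [Field k] [Field Ω] [Algebra k Ω] {v : RVal Ω}

theorem eq_zero_of_ge_all {x : Ω} (h : ∀ c : ℝ, v.Ge c x) : x = 0 := by
  by_contra h0
  have h1 := h (v x + 1) h0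
  linarith

/-- Orthogonality and independence. -/
theorem OI.of_orth_pb {p : ℕ} [Fact p.Prime] {E : IntermediateField k Ω} {n : ℕ} {t : Fin n → Ω}
    {C : ℝ} (h : Orth p v E t C) (ht : PBasis p E t) : OI p v E t C := by
  have hp0 : 0 < p := (Fact.out : p.Prime).pos
  intro c hc b hb α
  by_cases h0 : pcomb t c = 0
  · rw [ht.ind c hc h0 α, zero_pow hp0.ne', zero_mul]
    exact RVal.Ge.zero
  · exact (h c hc h0 α).mono (by linarith [hb h0])

section Gen

variable {p : ℕ} [Fact p.Prime] [CharP Ω p]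

/-- A bound for a power gives a bound. -/
theorem ge_of_pow_a {q : ℕ} (hq : 0 < q) {c : ℝ} {x : Ω} (h : v.Ge (q * c) (x ^ q)) : v.Ge c x := by
  intro h0
  have h1 := h (pow_ne_zero q h0)
  rw [v.map_pow h0] at h1
  have h2 : (0 : ℝ) < q := by exact_mod_cast hq
  exact le_of_mul_le_mul_left h1 h2

/-- A bound for `x^p m` gives a bound for `x`. -/
theorem ge_of_pow_mul {q : ℕ} (hq : 0 < q) {c : ℝ} {x m : Ω} (hm : m ≠ 0)
    (h : v.Ge (q * c + v m) (x ^ q * m)) : v.Ge c x := by
  refine ge_of_pow_a hq fun h0 => ?_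
  have h1 := h (mul_ne_zero h0 hm)
  rw [v.map_mul h0 hm] at h1
  linarith

theorem pcomb_sub {n : ℕ} (t : Fin n → Ω) (c c' : (Fin n → Fin p) → Ω) :
    pcomb t c - pcomb t c' = pcomb t (fun α => c α - c' α) := by
  rw [pcomb, pcomb, pcomb, ← Finset.sum_sub_distrib]
  refine Finset.sum_congr rfl fun α _ => ?_
  rw [sub_pow_char, sub_mul]

/-- If the combinations of the `t^α` are dense in the closed field `B` and the monomials `t^α` are
`p`-independent over `B` with bounded distortion, `t` is a `p`-basis of `B`. -/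
theorem pbasis_of_dense (hc : CompleteV v) {B : IntermediateField k Ω} (hcl : Cld v B) {n : ℕ}
    {t : Fin n → Ω} {C : ℝ} {R₀ : Set Ω} (hd : ∀ u ∈ B, ∀ b : ℝ, ∃ w ∈ R₀, v.Ge b (u - w))
    (hs : ∀ w ∈ R₀, ∃ c : (Fin n → Fin p) → Ω, (∀ α, c α ∈ B) ∧ w = pcomb t c)
    (htB : ∀ i, t i ∈ B) (ho : OI p v B t C) (ht0 : ∀ i, t i ≠ 0) : PBasis p B t := by
  have hp : 0 < p := (Fact.out : p.Prime).pos
  have hp' : (p : ℝ) ≠ 0 := by exact_mod_cast hp.ne'
  refine ⟨htB, fun u hu => ?_, fun c hc' h0 α => ho.ind ht0 c hc' h0 α⟩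
  -- approximations of `u`
  have h1 : ∀ m : ℕ, ∃ c : (Fin n → Fin p) → Ω, (∀ α, c α ∈ B) ∧ v.Ge (m : ℝ) (u - pcomb t c) := by
    intro m
    obtain ⟨w, hw, h2⟩ := hd u hu (m : ℝ)
    obtain ⟨c, hcm, rfl⟩ := hs w hw
    exact ⟨c, hcm, h2⟩
  choose c hcB hcu using h1
  -- the coefficients are Cauchy sequences
  have h2 : ∀ α, ∀ b : ℝ, ∃ N : ℕ, ∀ m m' : ℕ, N ≤ m → N ≤ m' → v.Ge b (c m α - c m' α) := by
    intro α b
    obtain ⟨N, hN⟩ := exists_nat_ge (p * b + v (mon t α) + C)
    refine ⟨N, fun m m' hm hm' => ?_⟩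
    have h3 : v.Ge (N : ℝ) (pcomb t fun α => c m α - c m' α) := by
      rw [← pcomb_sub, show pcomb t (c m) - pcomb t (c m') =
        (u - pcomb t (c m')) - (u - pcomb t (c m)) by ring]
      exact ((hcu m').mono (by exact_mod_cast hm')).sub ((hcu m).mono (by exact_mod_cast hm))
    have h4 := ho _ (fun α => sub_mem (hcB m α) (hcB m' α)) _ h3 α
    exact ge_of_pow_mul hp (mon_ne ht0 α) (h4.mono (by linarith))
  choose d hd using fun α => hc (fun m => c m α) (h2 α)
  have hdB : ∀ α, d α ∈ B := by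
    intro α
    refine hcl (mem_clI.2 fun b => ?_)
    obtain ⟨N, hN⟩ := hd α b
    exact ⟨c N α, hcB N α, hN N le_rfl⟩
  refine ⟨d, hdB, ?_⟩
  rw [← sub_eq_zero]
  refine eq_zero_of_ge_all (v := v) fun b => ?_
  choose N hN using fun α => hd α ((b - v (mon t α)) / p)
  obtain ⟨N₀, hN₀⟩ := exists_nat_ge b
  obtain ⟨N₁, hN₁⟩ : ∃ N₁ : ℕ, ∀ α, N α ≤ N₁ :=
    ⟨Finset.univ.sup N, fun α => Finset.le_sup (Finset.mem_univ α)⟩
  have h3 : u - pcomb t d = (u - pcomb t (c (max N₀ N₁))) -
      pcomb t (fun α => d α - c (max N₀ N₁) α) := by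
    rw [← pcomb_sub]
    ring
  rw [h3]
  refine ((hcu _).mono ?_).sub (RVal.Ge.sum _ _ fun α _ => ?_)
  · exact hN₀.trans (by exact_mod_cast le_max_left _ _)
  · have h4 := ge_pow (hN α (max N₀ N₁) ((hN₁ α).trans (le_max_right _ _))) p
    rw [mul_div_cancel₀ _ hp'] at h4
    exact (RVal.Ge.mul h4 (v.ge_self (mon t α))).mono (by linarith)

/-- If `B` is the closure of `k(t)` and the monomials `t^α` are `p`-independent over `B` with
bounded distortion, `t` is a `p`-basis of `B`. -/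
theorem pbasis_of_gen [IsAlgClosed k] (hc : CompleteV v) {B : IntermediateField k Ω} {n : ℕ}
    {t : Fin n → Ω} {C : ℝ} (hgen : clI v (IntermediateField.adjoin k (Set.range t)) = B)
    (ho : OI p v B t C) (ht0 : ∀ i, t i ≠ 0) : PBasis p B t := by
  have hle : IntermediateField.adjoin k (Set.range t) ≤ B := by
    rw [← hgen]
    exact le_clI _
  refine pbasis_of_dense hc (by rw [← hgen]; exact cld_clI v _)
    (R₀ := (IntermediateField.adjoin k (Set.range t) : Set Ω)) (fun u hu b => ?_) (fun w hw => ?_)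
    (fun i => hle (IntermediateField.subset_adjoin k _ ⟨i, rfl⟩)) ho ht0
  · rw [← hgen] at hu
    exact mem_clI.1 hu b
  · obtain ⟨c, hcm, rfl⟩ := span_adjoin (p := p) (t := t) rfl hw
    exact ⟨c, fun α => hle (hcm α), rfl⟩

/-- The closure of a field with a `p`-basis of bounded distortion. -/
theorem pbasis_clI (hc : CompleteV v) {E : IntermediateField k Ω} {n : ℕ} {t : Fin n → Ω} {C : ℝ}
    (hpb : PBasis p E t) (ho : OI p v (clI v E) t C) : PBasis p (clI v E) t := by
  refine pbasis_of_dense hc (cld_clI v E) (R₀ := (E : Set Ω)) (fun u hu b => mem_clI.1 hu b)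
    (fun w hw => ?_) (fun i => le_clI E (hpb.mem i)) ho fun i hi => ?_
  · obtain ⟨c, hcm, rfl⟩ := hpb.span w hw
    exact ⟨c, fun α => le_clI E (hcm α), rfl⟩
  · have hp := (Fact.out : p.Prime).two_le
    refine hpb.bas.ind.ne_zero (fun _ => ⟨1, hp⟩) ?_
    exact Finset.prod_eq_zero (Finset.mem_univ i) (by simp [hi])

/-- If a field with bounded distortion over `Q` is in the closure of a subspace, it is contained in
this subspace. -/
theorem spn_of_dense {Q E : Subfield Ω} (hq : BDq v Q E) (hQE : Q ≤ E) {ι : Type} [Fintype ι]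
    {b : ι → Ω} (hbE : ∀ i, b i ∈ E) (hd : ∀ u ∈ E, ∀ c : ℝ, ∃ s, Spn Q b s ∧ v.Ge c (u - s))
    {u : Ω} (hu : u ∈ E) : Spn Q b u := by
  classical
  -- a basis of the span
  set S : Submodule Q Ω := Submodule.span Q (Set.range b) with hS
  have hSfin : Module.Finite Q S := FiniteDimensional.span_of_finite Q (Set.finite_range b)
  have hmem : ∀ s, s ∈ S ↔ Spn Q b s := by
    intro s
    rw [hS, Submodule.mem_span_range_iff_exists_fun]
    constructor
    · rintro ⟨c, rfl⟩
      exact ⟨fun i => (c i : Ω), fun i => (c i).2, rfl⟩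
    · rintro ⟨c, hc, rfl⟩
      exact ⟨fun i => ⟨c i, hc i⟩, rfl⟩
  rw [← hmem]
  by_contra hcon
  let e := Module.finBasis Q S
  let d : Option (Fin (Module.finrank Q S)) → Ω := fun o => o.elim u fun i => (e i : Ω)
  have hSE : ∀ s ∈ S, s ∈ E := by
    intro s hs
    obtain ⟨c, hc, rfl⟩ := (hmem s).1 hs
    exact sum_mem fun j _ => mul_mem (hQE (hc j)) (hbE j)
  have hdE : ∀ o, d o ∈ E := by
    intro o
    cases o with
    | none => exact hu
    | some i => exact hSE _ (e i).2
  have hsumS : ∀ c : Fin (Module.finrank Q S) → Ω, (∀ i, c i ∈ Q) → ∑ i, c i * (e i : Ω) ∈ S := by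
    intro c hc
    exact S.sum_mem fun i _ => S.smul_mem (⟨c i, hc i⟩ : Q) (e i).2
  have hdi : Ind Q d := by
    intro c hc h0
    rw [Fintype.sum_option] at h0
    have h0' : c none * u + ∑ i, c (some i) * (e i : Ω) = 0 := h0
    have hn : c none = 0 := by
      by_contra hn
      refine hcon ?_
      have h1 : u = (c none)⁻¹ * (- ∑ i, c (some i) * (e i : Ω)) := by
        field_simp
        linear_combination h0'
      rw [h1]
      exact S.smul_mem (⟨(c none)⁻¹, Q.inv_mem (hc none)⟩ : Q)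
        (S.neg_mem (hsumS _ fun i => hc (some i)))
    rw [hn, zero_mul, zero_add] at h0'
    intro o
    cases o with
    | none => exact hn
    | some i =>
      have h1 : ∑ i, (⟨c (some i), hc _⟩ : Q) • e i = 0 := by
        apply Subtype.ext
        rw [AddSubmonoidClass.coe_finsetSum]
        exact h0'
      exact congrArg Subtype.val (Fintype.linearIndependent_iff.1 e.linearIndependent
        (fun i => ⟨c (some i), hc _⟩) h1 i)
  obtain ⟨C, hC⟩ := hq.orthq hdi hdE
  have hu0 : u ≠ 0 := fun h => hcon (by rw [h]; exact S.zero_mem)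
  obtain ⟨s, hs, h1⟩ := hd u hu (v u + C + 1)
  have hsS := (hmem s).2 hs
  have hus : u - s ≠ 0 := fun h => hcon (by rw [sub_eq_zero.1 h]; exact hsS)
  let c : Option (Fin (Module.finrank Q S)) → Ω :=
    fun o => o.elim 1 fun i => - (e.repr ⟨s, hsS⟩ i : Ω)
  have hcQ : ∀ o, c o ∈ Q := by
    intro o
    cases o with
    | none => exact one_mem _
    | some i => exact neg_mem (e.repr ⟨s, hsS⟩ i).2
  have hsum : ∑ o, c o * d o = u - s := by
    rw [Fintype.sum_option]
    have h2 := congrArg (Subtype.val) (e.sum_repr ⟨s, hsS⟩)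
    rw [AddSubmonoidClass.coe_finsetSum] at h2
    have h3 : ∑ i, c (some i) * d (some i) = - s := by
      rw [← show (∑ i, ((e.repr ⟨s, hsS⟩ i • e i : S) : Ω)) = s from h2, ← Finset.sum_neg_distrib]
      refine Finset.sum_congr rfl fun i _ => ?_
      show - (e.repr ⟨s, hsS⟩ i : Ω) * (e i : Ω) = - ((e.repr ⟨s, hsS⟩ i : Ω) * (e i : Ω))
      ring
    rw [h3]
    show 1 * u + -s = u - s
    ring
  have h2 := hC c hcQ (by rw [hsum]; exact hus) none
  rw [hsum] at h2
  have h3 : c none * d none = u := one_mul u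
  rw [h3] at h2
  have h4 := h2 hu0
  have h5 := h1 hus
  linarith

/-- If the closed field `B` has bounded distortion and a `p`-basis with `n` elements, every system
of `n` topological generators is a `p`-basis with bounded distortion. -/
theorem gen_of_bas [IsAlgClosed k] {B : IntermediateField k Ω} {n : ℕ}
    {t t' : Fin n → Ω} (hBD : BD p v B) (hpb : PBasis p B t)
    (hgen' : clI v (IntermediateField.adjoin k (Set.range t')) = B) :
    PBasis p B t' ∧ (∀ i, t' i ≠ 0) ∧ ∃ C' : ℝ, OI p v B t' C' := by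
  classical
  have hle : IntermediateField.adjoin k (Set.range t') ≤ B := by
    rw [← hgen']
    exact le_clI _
  have htB : ∀ i, t' i ∈ B := fun i => hle (IntermediateField.subset_adjoin k _ ⟨i, rfl⟩)
  have hmB : ∀ α : Fin n → Fin p, mon t' α ∈ B := fun α => prod_mem fun i _ => pow_mem (htB i) _
  have hspn : ∀ u ∈ B.toSubfield, Spn (Qp p B) (mon (p := p) t') u := by
    intro u hu
    refine spn_of_dense hBD.bdq Qp_le' (fun α => hmB α) (fun u hu b => ?_) hu
    have hu' : u ∈ clI v (IntermediateField.adjoin k (Set.range t')) := by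
      rw [hgen']
      exact hu
    obtain ⟨w, hw, h2⟩ := mem_clI.1 hu' b
    obtain ⟨c, hcm, rfl⟩ := span_adjoin (p := p) (t := t') rfl hw
    exact ⟨_, ⟨fun α => c α ^ p, fun α => mem_Qp.2 ⟨_, hle (hcm α), rfl⟩, rfl⟩, h2⟩
  -- count
  have hfin := TW.finite_of_spn Qp_le' hspn
  have hcard := hpb.bas.card Qp_le'
  let b' : (Fin n → Fin p) → sm (Qp p B) B.toSubfield Qp_le' := fun α => ⟨mon t' α, hmB α⟩
  have htop : ⊤ ≤ Submodule.span (Qp p B) (Set.range b') := by
    rintro ⟨u, hu⟩ -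
    obtain ⟨c, hcQ, hcu⟩ := hspn u hu
    have h1 : (⟨u, hu⟩ : sm (Qp p B) B.toSubfield Qp_le') =
        ∑ α, (⟨c α, hcQ α⟩ : Qp p B) • b' α := by
      apply Subtype.ext
      rw [AddSubmonoidClass.coe_finsetSum]
      exact hcu
    rw [h1]
    exact Submodule.sum_mem _ fun α _ => Submodule.smul_mem _ _ (Submodule.subset_span ⟨α, rfl⟩)
  have hlin := linearIndependent_of_top_le_span_of_card_eq_finrank htop hcard
  have hind : Ind (Qp p B) (mon (p := p) t') := by
    intro c hcQ h0 α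
    have h1 : ∑ α, (⟨c α, hcQ α⟩ : Qp p B) • b' α = 0 := by
      apply Subtype.ext
      rw [AddSubmonoidClass.coe_finsetSum]
      exact h0
    exact congrArg Subtype.val (Fintype.linearIndependent_iff.1 hlin
      (fun α => ⟨c α, hcQ α⟩) h1 α)
  have hpb' : PBasis p B t' := PBasis.of_bas htB ⟨fun α => hmB α, hspn, hind⟩
  obtain ⟨C', hC'⟩ := hBD.orth hpb'
  refine ⟨hpb', fun i hi => ?_, C', OI.of_orth_pb hC' hpb'⟩
  have hp := (Fact.out : p.Prime).two_le
  refine hind.ne_zero (fun _ => ⟨1, hp⟩) ?_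
  exact Finset.prod_eq_zero (Finset.mem_univ i) (by simp [hi])

/-- **Row S8a.** If `B` is the closure of `k(t)` and of `k(t')`, with as many elements, and the `t^α`
are `p`-independent over `B` with bounded distortion, so are the `t'^α`. -/
theorem OI_gen' [IsAlgClosed k] (hc : CompleteV v) {B : IntermediateField k Ω} {n : ℕ}
    {t t' : Fin n → Ω} {C : ℝ} (hgen : clI v (IntermediateField.adjoin k (Set.range t)) = B)
    (ho : OI p v B t C) (ht0 : ∀ i, t i ≠ 0)
    (hgen' : clI v (IntermediateField.adjoin k (Set.range t')) = B) :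
    PBasis p B t' ∧ (∀ i, t' i ≠ 0) ∧ ∃ C' : ℝ, OI p v B t' C' := by
  have hpb := pbasis_of_gen hc hgen ho ht0
  exact gen_of_bas ⟨n, t, hpb, C, ho.orth⟩ hpb hgen'

theorem OI_gen [IsAlgClosed k] (_h0 : Ctx0 k v) (hc : CompleteV v) {B : IntermediateField k Ω}
    (_hBc : Cld v B) {n : ℕ} {t t' : Fin n → Ω} {C : ℝ} (_ht : ∀ i, t i ∈ B)
    (hgen : clI v (IntermediateField.adjoin k (Set.range t)) = B) (ho : OI p v B t C)
    (ht0 : ∀ i, t i ≠ 0) (_ht' : ∀ i, t' i ∈ B)
    (hgen' : clI v (IntermediateField.adjoin k (Set.range t')) = B) :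
    (∀ i, t' i ≠ 0) ∧ ∃ C' : ℝ, OI p v B t' C' :=
  (OI_gen' hc hgen ho ht0 hgen').2

end Gen

end Pool.Agent.TWM
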