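import Pool.Agent.Lib.TWM.S8a
import Pool.Agent.Lib.TW.Lam

/-!
# TANK W, M2, row S8b: small changes of the generators

* `near_of_oi`: a small change of coordinates with bounded distortion is an isometry near the
  identity;
* `pert`: generators near `t` generate the same closed field.
-/

set_option autoImplicit false

open Polynomial

namespace Pool.Agent.TWM

open Pool.Agent.H15JM (RVal)
open Pool.Agent.LU1 (VPos adj)
open Pool.Agent.LUC (Cl clF)
open Pool.Agent.D2 (Ctx0)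
open Pool.Agent.D2P (hen clI mem_clI mem_adj_self adj_le)
open Pool.Agent.TW (mon pcomb Orth PBasis BD kr Near)

universe u

variable {k Ω : Type u} [Field k] [Field Ω] [Algebra k Ω] {v : RVal Ω}

/-- `p`-independence over `k(t)` gives a `p`-basis of `k(t)`. -/
theorem OI.pbasis_kr {p : ℕ} [Fact p.Prime] [CharP Ω p] [IsAlgClosed k] {n : ℕ} {t : Fin n → Ω}
    {C : ℝ} (ho : OI p v (kr k t) t C) (ht0 : ∀ i, t i ≠ 0) : PBasis p (kr k t) t :=
  ⟨fun i => IntermediateField.subset_adjoin k _ ⟨i, rfl⟩,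
    fun _ hu => span_adjoin rfl hu, fun c hc h0 α => ho.ind ht0 c hc h0 α⟩

theorem OI.algInd {p : ℕ} [Fact p.Prime] [CharP Ω p] [CharP k p] [IsAlgClosed k] {n : ℕ}
    {t : Fin n → Ω} {C : ℝ} (ho : OI p v (kr k t) t C) (ht0 : ∀ i, t i ≠ 0) :
    AlgebraicIndependent k t := by
  rw [algebraicIndependent_iff]
  intro P hP
  exact TW.P4.aeval_eq_zero p (ho.pbasis_kr ht0) _ P le_rfl hP

/-- A small change of coordinates is an isometry near the identity. -/
theorem near_of_oi {p : ℕ} [Fact p.Prime] [CharP Ω p] [CharP k p] [IsAlgClosed k] (h0 : Ctx0 k v)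
    {n : ℕ} {t : Fin n → Ω} {C : ℝ} (ho : OI p v (kr k t) t C) (ht0 : ∀ i, t i ≠ 0) :
    ∃ C' : ℝ, 0 ≤ C' ∧ ∀ (δ : ℝ) (t' : Fin n → Ω), C' < δ → (∀ i, v.Ge (v (t i) + δ) (t i - t' i)) →
      Near k v t t' (δ - C') := by
  refine ⟨p * max C 0, by positivity, fun δ t' hδ ht' => ?_⟩
  have ho' : OI p v (kr k t) t (max C 0) := ho.mono le_rfl (le_max_left _ _)
  refine Near.of_orth p h0 ht0 (ho.pbasis_kr ht0) (le_max_right _ _) hδ ho'.orth t' fun i => ?_
  intro hne
  have h1 : t' i / t i - 1 = (t' i - t i) / t i := by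
    field_simp [ht0 i]
  rw [h1] at hne ⊢
  have h2 : t' i - t i ≠ 0 := fun h => hne (by rw [h, zero_div])
  rw [v.map_div h2 (ht0 i)]
  have h3 := ge_sub_comm (ht' i) h2
  linarith

/-- **Row S8b.** Generators near `t` generate the same closed field. -/
theorem pert {p : ℕ} [Fact p.Prime] [CharP Ω p] [CharP k p] [IsAlgClosed k] (h0 : Ctx0 k v)
    {B : IntermediateField k Ω} {n : ℕ} {t : Fin n → Ω} {C : ℝ}
    (hgen : clI v (IntermediateField.adjoin k (Set.range t)) = B) (ho : OI p v B t C)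
    (ht0 : ∀ i, t i ≠ 0) :
    ∃ δ : ℝ, ∀ t' : Fin n → Ω, (∀ i, t' i ∈ B) → (∀ i, v.Ge δ (t i - t' i)) →
      clI v (IntermediateField.adjoin k (Set.range t')) = B := by
  classical
  have hle : kr k t ≤ B := by
    rw [← hgen]
    exact le_clI _
  have hok : OI p v (kr k t) t C := ho.mono hle le_rfl
  obtain ⟨C', hC', hN⟩ := near_of_oi h0 hok ht0
  refine ⟨(∑ i, |v (t i)|) + (C' + 1), fun t' ht' hδ => ?_⟩
  have hcl : Cld v B := by
    rw [← hgen]
    exact cld_clI v _
  have hN' := hN (C' + 1) t' (by linarith) fun i => (hδ i).mono (by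
    have h1 : |v (t i)| ≤ ∑ i, |v (t i)| :=
      Finset.single_le_sum (f := fun i => |v (t i)|) (fun i _ => abs_nonneg _) (Finset.mem_univ i)
    have h2 := le_abs_self (v (t i))
    linarith)
  obtain ⟨φ, -, hφ, hφm, -⟩ := hN'.exists_hom (hok.algInd ht0)
  symm
  refine engineF (R₀ := (kr k t : Set Ω)) (c := C' + 1 - C') ?_ (cld_clI v _) ?_ (by linarith) ?_
  · exact (clI_mono (IntermediateField.adjoin_le_iff.2 (by rintro _ ⟨i, rfl⟩; exact ht' i))).trans
      hcl
  · intro b hb M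
    rw [← hgen] at hb
    exact mem_clI.1 hb M
  · intro b hb hb0
    exact ⟨φ ⟨b, hb⟩, le_clI _ (hφm _), ge_sub_comm (hφ ⟨b, hb⟩ hb0)⟩

end Pool.Agent.TWM
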