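import Pool.Agent.Lib.TWM.C2

/-!
# M2, block C, part 3: the derivatives of `z` have no germ (C3 - C7)
-/

set_option autoImplicit false

open Polynomial

namespace Pool.Agent.TWM.C

open Pool.Agent.H15JM (RVal)
open Pool.Agent.LU1 (VPos adj)
open Pool.Agent.LUC (Cl clF)
open Pool.Agent.D2 (Ctx0)
open Pool.Agent.D2P (hen clI mem_clI)

universe u₀

variable {k Ω : Type u₀} [Field k] [Field Ω] [Algebra k Ω] {v : RVal Ω}
  {A M : IntermediateField k Ω} {u : Ω} {ρ : ℝ}

section

variable (p : ℕ) [hp : Fact p.Prime]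

/-! ### Coefficients -/

omit [Field k] [Algebra k Ω] in
theorem coeff_pow [CharP Ω p] (T : Polynomial Ω) (i n : ℕ) :
    (T ^ p ^ i).coeff (p ^ i * n) = T.coeff n ^ p ^ i := by
  have _ : ExpChar Ω p := ExpChar.prime hp.out
  rw [← map_iterateFrobenius_expand p T i, coeff_map, mul_comm,
    coeff_expand_mul (pow_pos hp.out.pos i), iterateFrobenius_def]

theorem choose_one [CharP Ω p] {m n : ℕ} (hm : m < p) (hn : p ∣ n) :
    (((n + m).choose n : ℕ) : Ω) = 1 := by
  obtain ⟨t, rfl⟩ := hn
  have h1 : (p * t + m).choose (p * t) ≡ 1 [MOD p] := by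
    have h2 := Choose.choose_modEq_choose_mod_mul_choose_div_nat (p := p) (n := p * t + m)
      (k := p * t)
    have h3 : (p * t + m) % p = m := by
      rw [Nat.mul_add_mod, Nat.mod_eq_of_lt hm]
    have h4 : (p * t) % p = 0 := Nat.mul_mod_right p t
    have h5 : (p * t + m) / p = t := by
      rw [Nat.mul_add_div hp.out.pos, Nat.div_eq_of_lt hm, add_zero]
    have h6 : (p * t) / p = t := Nat.mul_div_cancel_left t hp.out.pos
    rw [h3, h4, h5, h6, Nat.choose_zero_right, Nat.choose_self, one_mul] at h2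
    exact h2
  have h2 := (CharP.natCast_eq_natCast Ω p).2 h1
  rw [h2, Nat.cast_one]

omit [Field k] [Algebra k Ω] hp in
theorem coeff_hasse (P : Polynomial Ω) (m j : ℕ) :
    (taylor u (hasseDeriv m P)).coeff j = ((j + m).choose j : ℕ) * (taylor u P).coeff (j + m) := by
  rw [taylor_coeff, taylor_coeff]
  have h1 := LinearMap.congr_fun (hasseDeriv_comp (R := Ω) j m) P
  rw [LinearMap.comp_apply, LinearMap.smul_apply] at h1
  rw [h1, eval_smul, nsmul_eq_mul]

/-! ### The universal solution -/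

/-- The solution `χ` of the recursion. -/
theorem exists_chi [IsAlgClosed Ω] (B : IntermediateField k Ω)
    (hB : ∀ (y : Ω) (n : ℕ), 0 < n → y ^ n ∈ B → y ∈ B) {m e : ℕ} (hm : 1 ≤ m) (he : 1 ≤ e)
    (c : ℕ → Ω) (hc : ∀ i, c i ∈ B) (hce : c e ≠ 0) (Φ : ℕ → Ω) (hΦ : ∀ j, Φ j ∈ B)
    {N : ℕ} (hN : ∀ j, N ≤ j → Φ j = 0) :
    ∃ χ : ℕ → Ω, (∀ l, χ l ∈ B) ∧ (∀ l, N ≤ l → χ l = 0) ∧
      ∀ l, 1 ≤ l → (m.factorial : Ω) * χ (m + p ^ e * l) -
        ∑ i ∈ Finset.Icc 1 e, c i * χ (p ^ (e - i) * l) ^ p ^ i - Φ (p ^ e * l) = 0 := by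
  classical
  have key : ∀ n, ∃ χ : ℕ → Ω, (∀ l, χ l ∈ B) ∧ (∀ l, N ≤ l → χ l = 0) ∧
      ∀ l, 1 ≤ l → N ≤ l + n → (m.factorial : Ω) * χ (m + p ^ e * l) -
        ∑ i ∈ Finset.Icc 1 e, c i * χ (p ^ (e - i) * l) ^ p ^ i - Φ (p ^ e * l) = 0 := by
    intro n
    induction n with
    | zero =>
      refine ⟨fun _ => 0, fun _ => zero_mem B, fun _ _ => rfl, fun l _ hl => ?_⟩
      have h1 : Φ (p ^ e * l) = 0 := hN _ (by
        have : 1 ≤ p ^ e := Nat.one_le_pow _ _ hp.out.pos
        calc N ≤ l := by omega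
          _ = 1 * l := (one_mul l).symm
          _ ≤ p ^ e * l := Nat.mul_le_mul_right l this)
      rw [h1, sub_zero, mul_zero, zero_sub, neg_eq_zero]
      refine Finset.sum_eq_zero fun i _ => ?_
      rw [zero_pow (pow_pos hp.out.pos i).ne', mul_zero]
    | succ n ih =>
      obtain ⟨χ, h1, h2, h3⟩ := ih
      by_cases hNn : N ≤ n + 1
      · exact ⟨χ, h1, h2, fun l hl hl' => h3 l hl (by omega)⟩
      · -- the new index
        set l₀ := N - (n + 1) with hl₀
        have hl0 : 1 ≤ l₀ := by omega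
        set b : Ω := (m.factorial : Ω) * χ (m + p ^ e * l₀) -
          ∑ i ∈ Finset.Ico 1 e, c i * χ (p ^ (e - i) * l₀) ^ p ^ i - Φ (p ^ e * l₀) with hb
        have hbB : b ∈ B := sub_mem (sub_mem (mul_mem (natCast_mem B _) (h1 _))
          (sum_mem fun i _ => mul_mem (hc i) (pow_mem (h1 _) _))) (hΦ _)
        have hq0 : 0 < p ^ e := pow_pos hp.out.pos e
        obtain ⟨y, hy⟩ := IsAlgClosed.exists_pow_nat_eq (b / c e) hq0
        have hyB : y ∈ B := hB y _ hq0 (by rw [hy]; exact div_mem hbB (hc e))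
        have hge : ∀ j l, l ≤ p ^ j * l := fun j l => by
          have : 1 ≤ p ^ j := Nat.one_le_pow _ _ hp.out.pos
          calc l = 1 * l := (one_mul l).symm
            _ ≤ p ^ j * l := Nat.mul_le_mul_right l this
        refine ⟨Function.update χ l₀ y, fun l => ?_, fun l hl => ?_, fun l hl hl' => ?_⟩
        · by_cases h : l = l₀
          · rw [h, Function.update_self]; exact hyB
          · rw [Function.update_of_ne h]; exact h1 l
        · rw [Function.update_of_ne (by omega)]
          exact h2 l hl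
        · by_cases h : l = l₀
          · subst h
            have h4 : m + p ^ e * l₀ ≠ l₀ := by
              have := hge e l₀
              omega
            rw [Function.update_of_ne h4]
            have h5 : ∑ i ∈ Finset.Icc 1 e,
                c i * Function.update χ l₀ y (p ^ (e - i) * l₀) ^ p ^ i =
                (∑ i ∈ Finset.Ico 1 e, c i * χ (p ^ (e - i) * l₀) ^ p ^ i) + c e * y ^ p ^ e := by
              have h6 : Finset.Icc 1 e = Finset.Ico 1 (e + 1) := rfl
              rw [h6, Finset.sum_Ico_succ_top he]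
              congr 1
              · refine Finset.sum_congr rfl fun i hi => ?_
                obtain ⟨hi1, hi2⟩ := Finset.mem_Ico.1 hi
                have h7 : p ^ (e - i) * l₀ ≠ l₀ := by
                  have h8 : 2 ≤ p ^ (e - i) := by
                    calc 2 ≤ p := hp.out.two_le
                      _ = p ^ 1 := (pow_one p).symm
                      _ ≤ p ^ (e - i) := Nat.pow_le_pow_right hp.out.pos (by omega)
                  have h9 : 2 * l₀ ≤ p ^ (e - i) * l₀ := Nat.mul_le_mul_right _ h8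
                  omega
                rw [Function.update_of_ne h7]
              · rw [Nat.sub_self, pow_zero, one_mul, Function.update_self]
            rw [h5, hy, mul_div_cancel₀ _ hce, hb]
            ring
          · have hlt : l₀ < l := by omega
            have h4 : m + p ^ e * l ≠ l₀ := by
              have := hge e l
              omega
            rw [Function.update_of_ne h4]
            have h5 : ∑ i ∈ Finset.Icc 1 e,
                c i * Function.update χ l₀ y (p ^ (e - i) * l) ^ p ^ i =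
                ∑ i ∈ Finset.Icc 1 e, c i * χ (p ^ (e - i) * l) ^ p ^ i := by
              refine Finset.sum_congr rfl fun i _ => ?_
              have h7 : p ^ (e - i) * l ≠ l₀ := by
                have := hge (e - i) l
                omega
              rw [Function.update_of_ne h7]
            rw [h5]
            exact h3 l hl (by omega)
  obtain ⟨χ, h1, h2, h3⟩ := key N
  exact ⟨χ, h1, h2, fun l hl => h3 l hl (by omega)⟩

theorem exists_eps {z : Ω} {s : ℝ} (S : Finset Ω) (hS : ∀ θ ∈ S, v (z - θ) < s) :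
    ∃ ε : ℝ, 0 < ε ∧ ∀ θ ∈ S, v (z - θ) < s - ε := by
  classical
  induction S using Finset.induction_on with
  | empty => exact ⟨1, one_pos, fun θ h => absurd h (Finset.notMem_empty θ)⟩
  | insert a S ha ih =>
    obtain ⟨ε, hε, h1⟩ := ih fun θ hθ => hS θ (Finset.mem_insert_of_mem hθ)
    have h2 := hS a (Finset.mem_insert_self a S)
    refine ⟨min ε ((s - v (z - a)) / 2), lt_min hε (by linarith), fun θ hθ => ?_⟩
    rcases Finset.mem_insert.1 hθ with rfl | hθ
    · have := min_le_right ε ((s - v (z - θ)) / 2)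
      linarith
    · have := min_le_left ε ((s - v (z - a)) / 2)
      linarith [h1 θ hθ]

variable [CharP k p] [CharP Ω p] [IsAlgClosed Ω]

omit [CharP k p] [CharP Ω p] [IsAlgClosed Ω] in
/-- The final polynomial. -/
theorem final_poly {e : ℕ} (he : 1 ≤ e) (c : ℕ → Ω) (hce : c e ≠ 0) (b : Ω) :
    (∑ i ∈ Finset.Icc 1 e, C (c i) * X ^ p ^ i - C b).natDegree = p ^ e ∧
      (∑ i ∈ Finset.Icc 1 e, C (c i) * X ^ p ^ i - C b).leadingCoeff = c e := by
  have hq : ∀ i, i < e → p ^ i < p ^ e := fun i hi => Nat.pow_lt_pow_right hp.out.one_lt hi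
  have h1 : ∑ i ∈ Finset.Icc 1 e, C (c i) * X ^ p ^ i - C b =
      C (c e) * X ^ p ^ e + (∑ i ∈ Finset.Ico 1 e, C (c i) * X ^ p ^ i - C b) := by
    have h6 : Finset.Icc 1 e = Finset.Ico 1 (e + 1) := rfl
    rw [h6, Finset.sum_Ico_succ_top he]
    ring
  have h2 : (∑ i ∈ Finset.Ico 1 e, C (c i) * X ^ p ^ i - C b).natDegree < p ^ e := by
    refine lt_of_le_of_lt (natDegree_sub_le _ _) (max_lt ?_ ?_)
    · refine lt_of_le_of_lt (natDegree_sum_le_of_forall_le (n := p ^ (e - 1)) _ _
        fun i hi => ?_) (hq _ (by omega))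
      obtain ⟨hi1, hi2⟩ := Finset.mem_Ico.1 hi
      exact (natDegree_C_mul_X_pow_le _ _).trans (Nat.pow_le_pow_right hp.out.pos (by omega))
    · rw [natDegree_C]
      exact pow_pos hp.out.pos e
  have h3 : (C (c e) * X ^ p ^ e : Polynomial Ω).natDegree = p ^ e :=
    natDegree_C_mul_X_pow _ _ hce
  rw [h1]
  have h4 : (C (c e) * X ^ p ^ e + (∑ i ∈ Finset.Ico 1 e, C (c i) * X ^ p ^ i - C b)).natDegree
      = p ^ e := by
    rw [natDegree_add_eq_left_of_natDegree_lt (by rw [h3]; exact h2), h3]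
  refine ⟨h4, ?_⟩
  unfold leadingCoeff
  rw [h4, coeff_add, coeff_C_mul_X_pow, if_pos rfl, coeff_eq_zero_of_natDegree_lt h2, add_zero]

/-- C3 - C7. -/
theorem no_germ (h0 : Ctx0 k v) (hs : PStep p v M u ρ) (hAM : A ≤ M)
    (hu : TL v A u ρ) {z : Ω} {s : ℝ} (hz : TL v (cadj v A u) z s) (hzL : z ∈ adj M u)
    {m e : ℕ} (hm : 1 ≤ m) (hmp : m < p) (he : 1 ≤ e) (c : ℕ → Ω) (hc : ∀ i, c i ∈ A)
    (hce : c e ≠ 0) (hcv : ∀ i, 1 ≤ i → i ≤ e → v.Ge (s - m * ρ - (p ^ i : ℕ) * s) (c i))
    (hcev : v (c e) = s - m * ρ - (p ^ e : ℕ) * s) {f : Ω} (hf : f ∈ cadj v A u)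
    (hX : v.Ge (s - m * ρ)
      ((der p M u)^[m] z - f - ∑ i ∈ Finset.Icc 1 e, c i * z ^ p ^ i)) : False := by
  classical
  set E := cadj v A u with hE
  have hAE : A ≤ E := le_cadj v A u
  have huE : u ∈ E := self_mem_cadj v A u
  have hq1 : ∀ i, 1 ≤ p ^ i := fun i => Nat.one_le_pow _ _ hp.out.pos
  have hq1' : ∀ i, (1 : ℝ) ≤ (p ^ i : ℕ) := fun i => by exact_mod_cast hq1 i
  have hqle : ∀ i, i ≤ e → ((p ^ i : ℕ) : ℝ) ≤ (p ^ e : ℕ) := fun i hi => by
    exact_mod_cast Nat.pow_le_pow_right hp.out.pos hi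
  have hexp : ExpChar Ω p := ExpChar.prime hp.out
  obtain ⟨hmf, hmv⟩ := nat_val h0 (fact_ne (k := k) p hmp)
  have hmge : v.Ge 0 (m.factorial : Ω) := fun _ => by rw [hmv]
  -- `f` is replaced by a polynomial
  obtain ⟨F, hF, hfF⟩ := hu.dense hf (s - m * ρ)
  have hX' : v.Ge (s - m * ρ)
      ((der p M u)^[m] z - F.eval u - ∑ i ∈ Finset.Icc 1 e, c i * z ^ p ^ i) := by
    rw [show (der p M u)^[m] z - F.eval u - ∑ i ∈ Finset.Icc 1 e, c i * z ^ p ^ i =
      ((der p M u)^[m] z - f - ∑ i ∈ Finset.Icc 1 e, c i * z ^ p ^ i) + (f - F.eval u) by ring]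
    exact hX.add hfF
  -- the universal solution
  have hcB : ∀ i, c i ∈ algc E := fun i => le_algc E (hAE (hc i))
  have hΦB : ∀ j, (taylor u F).coeff j ∈ algc E := fun j =>
    le_algc E (taylor_mem_PI (PI_mono hAE hF) huE j)
  obtain ⟨χ, hχB, hχN, hχ⟩ := exists_chi p (algc E)
    (fun y n hn hy => mem_algc.2 ((mem_algc.1 hy).of_pow hn)) hm he c hcB hce
    (fun j => (taylor u F).coeff j) hΦB (N := F.natDegree + 1)
    (fun j hj => coeff_eq_zero_of_natDegree_lt (by rw [natDegree_taylor]; omega))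
  have hFuB : F.eval u ∈ algc E := le_algc E (eval_mem (PI_mono hAE hF) huE)
  -- the final polynomial
  set R : Polynomial Ω := ∑ i ∈ Finset.Icc 1 e, C (c i) * X ^ p ^ i -
    C ((m.factorial : Ω) * χ m - F.eval u) with hR
  obtain ⟨hRd, hRl⟩ := final_poly p he c hce ((m.factorial : Ω) * χ m - F.eval u)
  rw [← hR] at hRd hRl
  have hR0 : R ≠ 0 := by
    intro h
    rw [h, leadingCoeff_zero] at hRl
    exact hce hRl.symm
  have hRPI : R ∈ PI (algc E) := sub_mem (sum_mem fun i _ => mul_mem (C_mem_PI (hcB i))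
    (pow_mem X_mem_PI _)) (C_mem_PI (sub_mem (mul_mem (natCast_mem _ _) (hχB m)) hFuB))
  have hRfar : ∀ θ, R.IsRoot θ → z ≠ θ ∧ v (z - θ) < s := fun θ hθ =>
    hz.far θ (isAlgebraic_of_algc (isAlgebraic_root hRPI hR0 hθ))
  obtain ⟨ε, hε, hεR⟩ := exists_eps (v := v) (z := z) (s := s) R.roots.toFinset fun θ hθ =>
    (hRfar θ ((mem_roots hR0).1 (Multiset.mem_toFinset.1 hθ))).2
  -- the approximation
  obtain ⟨a, ha, hza⟩ := hz.lim ε hε
  obtain ⟨P, hP, haP⟩ := hu.dense ha (s - ε)
  have hzP : v.Ge (s - ε) (z - P.eval u) := by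
    rw [show z - P.eval u = (z - a) + (a - P.eval u) by ring]
    exact hza.add haP
  have hPM := PI_mono hAM hP
  have hPL : P.eval u ∈ adj M u := eval_mem_adj hPM
  -- the polynomial `G`
  set G : Polynomial Ω := C (m.factorial : Ω) * hasseDeriv m P -
    ∑ i ∈ Finset.Icc 1 e, C (c i) * P ^ p ^ i - F with hG
  have hGPI : G ∈ PI A := sub_mem (sub_mem (mul_mem (C_mem_PI (natCast_mem A _))
    (hasse_mem_PI hP m)) (sum_mem fun i _ => mul_mem (C_mem_PI (hc i)) (pow_mem hP _))) hF
  have hGu : v.Ge (s - m * ρ - (p ^ e : ℕ) * ε) (G.eval u) := by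
    have h1 : (m.factorial : Ω) * (hasseDeriv m P).eval u = (der p M u)^[m] (P.eval u) := by
      rw [← coeff_rep p h0 hs m hPM, taylor_coeff]
    have h2 : G.eval u = ((der p M u)^[m] z - F.eval u -
        ∑ i ∈ Finset.Icc 1 e, c i * z ^ p ^ i) - (der p M u)^[m] (z - P.eval u) +
        ∑ i ∈ Finset.Icc 1 e, c i * (z - P.eval u) ^ p ^ i := by
      rw [der_iter_sub p h0 hs m hzL hPL, hG, eval_sub, eval_sub, eval_mul, eval_C, h1,
        eval_finsetSum]
      have h3 : ∑ i ∈ Finset.Icc 1 e, c i * (z - P.eval u) ^ p ^ i =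
          ∑ i ∈ Finset.Icc 1 e, c i * z ^ p ^ i -
          ∑ i ∈ Finset.Icc 1 e, c i * P.eval u ^ p ^ i := by
        rw [← Finset.sum_sub_distrib]
        refine Finset.sum_congr rfl fun i _ => ?_
        rw [sub_pow_char_pow, mul_sub]
      have h4 : ∑ i ∈ Finset.Icc 1 e, eval u (C (c i) * P ^ p ^ i) =
          ∑ i ∈ Finset.Icc 1 e, c i * P.eval u ^ p ^ i := by
        refine Finset.sum_congr rfl fun i _ => ?_
        rw [eval_mul, eval_C, eval_pow]
      rw [h3, h4]
      ring
    rw [h2]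
    have h5 : 0 ≤ ((p ^ e : ℕ) : ℝ) * ε := by positivity
    refine RVal.Ge.add (RVal.Ge.sub (hX'.mono (by linarith)) ?_) (RVal.Ge.sum _ _ fun i hi => ?_)
    · refine (der_iter_ge p h0 hs m (sub_mem hzL hPL) hzP).mono ?_
      have := mul_le_mul_of_nonneg_right (hq1' e) hε.le
      linarith
    · obtain ⟨hi1, hi2⟩ := Finset.mem_Icc.1 hi
      refine ((hcv i hi1 hi2).mul (ge_pow hzP (p ^ i))).mono ?_
      have := mul_le_mul_of_nonneg_right (hqle i hi2) hε.le
      rw [mul_sub]
      linarith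
  have hGj : ∀ j : ℕ, v.Ge (s - m * ρ - (p ^ e : ℕ) * ε - j * ρ) ((taylor u G).coeff j) := by
    intro j
    by_cases hG0 : G = 0
    · rw [hG0, map_zero, coeff_zero]
      exact RVal.Ge.zero
    · have h1 := hu.weak (PI_mono (le_algc A) hGPI) hG0 j
      refine h1.mono ?_
      have := hGu (hu.eval_ne (PI_mono (le_algc A) hGPI) hG0)
      linarith
  -- the coefficients of `G`
  have hpq : p ∣ p ^ e := dvd_pow_self p (by omega)
  have hGc : ∀ l : ℕ, (taylor u G).coeff (p ^ e * l) =
      (m.factorial : Ω) * (taylor u P).coeff (m + p ^ e * l) -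
        ∑ i ∈ Finset.Icc 1 e, c i * (taylor u P).coeff (p ^ (e - i) * l) ^ p ^ i -
        (taylor u F).coeff (p ^ e * l) := by
    intro l
    rw [hG, map_sub, map_sub, coeff_sub, coeff_sub, taylor_mul, taylor_C, coeff_C_mul,
      coeff_hasse, choose_one p hmp (hpq.mul_right l), one_mul, add_comm (p ^ e * l) m, map_sum,
      finsetSum_coeff]
    congr 2
    refine Finset.sum_congr rfl fun i hi => ?_
    obtain ⟨hi1, hi2⟩ := Finset.mem_Icc.1 hi
    rw [taylor_mul, taylor_C, coeff_C_mul, taylor_pow]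
    congr 1
    have h1 : p ^ e * l = p ^ i * (p ^ (e - i) * l) := by
      rw [← mul_assoc, ← pow_add]
      congr 2
      omega
    rw [h1, coeff_pow]
  -- the differences
  have hD : ∀ l : ℕ, 1 ≤ l → v.Ge (s - l * ρ - ε) ((taylor u P).coeff l - χ l) := by
    have key : ∀ n l : ℕ, 1 ≤ l → max P.natDegree (F.natDegree + 1) < l + n →
        v.Ge (s - l * ρ - ε) ((taylor u P).coeff l - χ l) := by
      intro n
      induction n with
      | zero =>
        intro l _ hl
        have h1 : (taylor u P).coeff l = 0 := coeff_eq_zero_of_natDegree_lt (by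
          rw [natDegree_taylor]
          have := le_max_left P.natDegree (F.natDegree + 1)
          omega)
        have h2 : χ l = 0 := hχN l (by
          have := le_max_right P.natDegree (F.natDegree + 1)
          omega)
        rw [h1, h2, sub_zero]
        exact RVal.Ge.zero
      | succ n ih =>
        intro l hl hln
        have hge : ∀ j, l ≤ p ^ j * l := fun j => by
          calc l = 1 * l := (one_mul l).symm
            _ ≤ p ^ j * l := Nat.mul_le_mul_right l (hq1 j)
        -- the relation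
        have h1 : c e * ((taylor u P).coeff l - χ l) ^ p ^ e =
            (m.factorial : Ω) * ((taylor u P).coeff (m + p ^ e * l) - χ (m + p ^ e * l)) -
            ∑ i ∈ Finset.Ico 1 e, c i *
              ((taylor u P).coeff (p ^ (e - i) * l) - χ (p ^ (e - i) * l)) ^ p ^ i -
            (taylor u G).coeff (p ^ e * l) := by
          have h2 := hχ l hl
          have h3 : ∀ a b : ℕ → Ω, ∑ i ∈ Finset.Ico 1 e, c i * (a i - b i) ^ p ^ i =
              ∑ i ∈ Finset.Ico 1 e, c i * a i ^ p ^ i - ∑ i ∈ Finset.Ico 1 e, c i * b i ^ p ^ i := by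
            intro a b
            rw [← Finset.sum_sub_distrib]
            refine Finset.sum_congr rfl fun i _ => ?_
            rw [sub_pow_char_pow, mul_sub]
          have h4 : Finset.Icc 1 e = Finset.Ico 1 (e + 1) := rfl
          rw [hGc l, h3 (fun i => (taylor u P).coeff (p ^ (e - i) * l))
            (fun i => χ (p ^ (e - i) * l)), sub_pow_char_pow]
          rw [h4, Finset.sum_Ico_succ_top he, Nat.sub_self, pow_zero, one_mul] at h2 ⊢
          linear_combination h2
        have h5 : v.Ge (s - m * ρ - (p ^ e : ℕ) * ε - (p ^ e * l : ℕ) * ρ)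
            (c e * ((taylor u P).coeff l - χ l) ^ p ^ e) := by
          rw [h1]
          refine RVal.Ge.sub (RVal.Ge.sub ?_ (RVal.Ge.sum _ _ fun i hi => ?_)) (hGj _)
          · have h6 := ih (m + p ^ e * l) (by omega) (by have := hge e; omega)
            refine (hmge.mul h6).mono ?_
            have := mul_le_mul_of_nonneg_right (hq1' e) hε.le
            push_cast at this ⊢
            nlinarith
          · obtain ⟨hi1, hi2⟩ := Finset.mem_Ico.1 hi
            have h8 : 2 ≤ p ^ (e - i) := by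
              calc 2 ≤ p := hp.out.two_le
                _ = p ^ 1 := (pow_one p).symm
                _ ≤ p ^ (e - i) := Nat.pow_le_pow_right hp.out.pos (by omega)
            have h9 : 2 * l ≤ p ^ (e - i) * l := Nat.mul_le_mul_right _ h8
            have h6 := ih (p ^ (e - i) * l) (by omega) (by omega)
            refine ((hcv i hi1 hi2.le).mul (ge_pow h6 (p ^ i))).mono ?_
            have h10 := mul_le_mul_of_nonneg_right (hqle i hi2.le) hε.le
            have h11 : ((p ^ i : ℕ) : ℝ) * ((p ^ (e - i) * l : ℕ) : ℝ) = ((p ^ e * l : ℕ) : ℝ) := by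
              rw [← Nat.cast_mul, ← mul_assoc, ← pow_add]
              congr 3
              omega
            have h12 : ((p ^ i : ℕ) : ℝ) * (s - ((p ^ (e - i) * l : ℕ) : ℝ) * ρ - ε) =
                (p ^ i : ℕ) * s - (p ^ e * l : ℕ) * ρ - (p ^ i : ℕ) * ε := by
              rw [← h11]; ring
            rw [h12]
            linarith
        intro hne
        have h6 := h5 (mul_ne_zero hce (pow_ne_zero _ hne))
        rw [v.map_mul hce (pow_ne_zero _ hne), hcev, v.map_pow hne] at h6
        have h7 : (0 : ℝ) < (p ^ e : ℕ) := lt_of_lt_of_le one_pos (hq1' e)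
        have h8 : ((p ^ e * l : ℕ) : ℝ) = (p ^ e : ℕ) * l := by push_cast; ring
        rw [h8] at h6
        have h9 : ((p ^ e : ℕ) : ℝ) * (s - l * ρ - ε) ≤
            (p ^ e : ℕ) * v ((taylor u P).coeff l - χ l) := by
          linarith
        exact le_of_mul_le_mul_left h9 h7
    intro l hl
    exact key (max P.natDegree (F.natDegree + 1)) l hl (by omega)
  -- a root near `z`
  have hRψ : v.Ge (s - m * ρ - (p ^ e : ℕ) * ε) (R.eval (P.eval u)) := by
    have h1 := hGc 0
    have h2 := hGj 0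
    rw [mul_zero] at h1
    rw [h1] at h2
    simp only [mul_zero, add_zero, Nat.cast_zero, zero_mul, sub_zero] at h2
    rw [taylor_coeff_zero, taylor_coeff_zero] at h2
    have h3 : R.eval (P.eval u) = (m.factorial : Ω) * ((taylor u P).coeff m - χ m) -
        ((m.factorial : Ω) * (taylor u P).coeff m -
          ∑ i ∈ Finset.Icc 1 e, c i * eval u P ^ p ^ i - eval u F) := by
      rw [hR, eval_sub, eval_C, eval_finsetSum]
      have h4 : ∑ i ∈ Finset.Icc 1 e, eval (eval u P) (C (c i) * X ^ p ^ i) =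
          ∑ i ∈ Finset.Icc 1 e, c i * eval u P ^ p ^ i := by
        refine Finset.sum_congr rfl fun i _ => ?_
        rw [eval_mul, eval_C, eval_pow, eval_X]
      rw [h4]
      ring
    rw [h3]
    refine RVal.Ge.sub ((hmge.mul (hD m hm)).mono ?_) h2
    have := mul_le_mul_of_nonneg_right (hq1' e) hε.le
    linarith
  obtain ⟨θ, hθ, hθψ⟩ := Roots.near_root (v := v) (P := R) (z := P.eval u) (c := s - ε)
    (by rw [hRd]; exact (pow_pos hp.out.pos e).ne') (by
      rw [hRl, hRd, hcev]
      refine hRψ.mono ?_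
      rw [mul_sub]
      linarith)
  have h1 : v.Ge (s - ε) (z - θ) := by
    rw [show z - θ = (z - P.eval u) + (P.eval u - θ) by ring]
    exact hzP.add hθψ
  have h2 := h1 (sub_ne_zero.2 (hRfar θ hθ).1)
  have h3 := hεR θ (Multiset.mem_toFinset.2 ((mem_roots hR0).2 hθ))
  linarith

end

end Pool.Agent.TWM.C
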