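import Pool.Agent.Lib.TWM.A2
import Pool.Agent.Lib.TWM.C3

/-!
# M2, block C, the theorem

`E = A<u>`, `L = E<z> = M(u)`, `u ^ p ∈ M`, `u` not in `M + O(>ρ)`: then there is `β ∈ M`,
`β = z + E + O(>s)`, and `M = A<u^p><β>`, with `(T)(A<u^p>, β, s)`.
-/

set_option autoImplicit false

open Polynomial

namespace Pool.Agent.TWM.C

open Pool.Agent.H15JM (RVal)
open Pool.Agent.LU1 (VPos adj)
open Pool.Agent.LUC (Cl clF)
open Pool.Agent.D2 (Ctx0)
open Pool.Agent.D2P (hen clI mem_clI)

universe u₀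

variable {k Ω : Type u₀} [Field k] [Field Ω] [Algebra k Ω] {v : RVal Ω}
  {A M : IntermediateField k Ω} {u : Ω} {ρ : ℝ}

section

variable (p : ℕ) [hp : Fact p.Prime] [CharP k p] [CharP Ω p] [IsAlgClosed Ω]

/-- The derivatives of `z` are in `E + O(>)`. -/
theorem all_nr (h0 : Ctx0 k v) (hs : PStep p v M u ρ) (hAM : A ≤ M) (hu : TL v A u ρ)
    {z : Ω} {s : ℝ} (hz : TL v (cadj v A u) z s) (hL : adj M u = cadj v (cadj v A u) z)
    (j : ℕ) (hj1 : 1 ≤ j) (hjp : j < p) :
    Nr' v (cadj v A u) (s - j * ρ) ((der p M u)^[j] z) := by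
  classical
  set E := cadj v A u with hE
  have hEL : E ≤ adj M u := by
    rw [hL]
    exact le_cadj v _ z
  have hzL : z ∈ adj M u := by
    rw [hL]
    exact self_mem_cadj v _ z
  have hAE : A ≤ E := le_cadj v A u
  by_contra hcon
  -- the largest bad index
  let S : Finset ℕ := (Finset.range p).filter fun m => 1 ≤ m ∧
    ¬ Nr' v E (s - m * ρ) ((der p M u)^[m] z)
  have hSmem : ∀ m, m ∈ S ↔ m < p ∧ 1 ≤ m ∧ ¬ Nr' v E (s - m * ρ) ((der p M u)^[m] z) := by
    intro m
    rw [Finset.mem_filter, Finset.mem_range]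
  have hSne : S.Nonempty := ⟨j, (hSmem j).2 ⟨hjp, hj1, hcon⟩⟩
  obtain ⟨hmp, hm1, hmN⟩ := (hSmem _).1 (S.max'_mem hSne)
  have hmax : ∀ m', S.max' hSne < m' → m' < p →
      Nr' v E (s - m' * ρ) ((der p M u)^[m'] z) := by
    intro m' h1 h2
    by_contra h3
    have h4 := S.le_max' m' ((hSmem m').2 ⟨h2, by omega, h3⟩)
    omega
  generalize S.max' hSne = m at hmp hm1 hmN hmax
  clear hcon hSne hSmem
  -- the germ of `w = Δ^m z`
  have hwL : (der p M u)^[m] z ∈ adj M u := der_iter_mem p hs.pw m hzL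
  have hwL' : (der p M u)^[m] z ∈ cadj v E z := by rw [← hL]; exact hwL
  have hwlim : Lim v E (s - m * ρ) ((der p M u)^[m] z) := by
    intro ε hε
    obtain ⟨a, ha, h1⟩ := hz.lim ε hε
    refine ⟨(der p M u)^[m] a, der_cadj p h0 hs hAM hu hEL m ha, ?_⟩
    rw [← der_iter_sub p h0 hs m hzL (hEL ha)]
    refine (der_iter_ge p h0 hs m (sub_mem hzL (hEL ha)) h1).mono ?_
    linarith
  have himm := hu.imm
  obtain ⟨f, hf, e, c, hc, hw⟩ := hz.germ p (M := (A : Set Ω)) (fun c hc hc0 => by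
    obtain ⟨a, ha, h1⟩ := himm.imm c hc hc0
    exact ⟨a, ha, hAE ha, h1⟩) hwL' hwlim
  have hcA : ∀ i, c i ∈ A := by
    intro i
    rcases hc i with h | h
    · rw [h]; exact zero_mem A
    · exact h.1
  have hcL : ∀ i, c i * z ^ p ^ i ∈ adj M u := fun i =>
    mul_mem (hEL (hAE (hcA i))) (pow_mem hzL _)
  -- some coefficient is not zero
  have hex : ∃ i, i < e ∧ c i ≠ 0 := by
    by_contra h
    push Not at h
    refine hmN ⟨f, hf, ?_⟩
    have h1 : ∑ i ∈ Finset.range e, c i * z ^ p ^ i = 0 :=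
      Finset.sum_eq_zero fun i hi => by rw [h i (Finset.mem_range.1 hi), zero_mul]
    rw [h1, add_zero] at hw
    exact hw
  -- the coefficient of `z` is zero
  have hc0 : 0 < e → c 0 = 0 := by
    intro he
    by_contra h
    rcases hc 0 with h1 | ⟨-, -, -, hv0⟩
    · exact h h1
    rw [pow_zero, Nat.cast_one, one_mul] at hv0
    set o : Ω := (der p M u)^[m] z - (f + ∑ i ∈ Finset.range e, c i * z ^ p ^ i) with ho
    have hsL : ∑ i ∈ Finset.range e, c i * z ^ p ^ i ∈ adj M u := sum_mem fun i _ => hcL i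
    have hoL : o ∈ adj M u := sub_mem hwL (add_mem (hEL hf) hsL)
    -- the derivative of the sum
    have hsum : (der p M u)^[m] (∑ i ∈ Finset.range e, c i * z ^ p ^ i) =
        c 0 * (der p M u)^[m] z := by
      have h1 : ∑ i ∈ Finset.range e, c i * z ^ p ^ i = c 0 * z +
          ∑ i ∈ Finset.Ico 1 e, c i * z ^ p ^ i := by
        rw [Finset.range_eq_Ico, Finset.sum_eq_sum_Ico_succ_bot he, pow_zero, pow_one]
      have h2 : ∑ i ∈ Finset.Ico 1 e, c i * z ^ p ^ i ∈ adj M u := sum_mem fun i _ => hcL i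
      have h3 : der p M u (∑ i ∈ Finset.Ico 1 e, c i * z ^ p ^ i) = 0 := by
        have key : ∀ T : Finset ℕ, (∀ i ∈ T, 1 ≤ i) →
            der p M u (∑ i ∈ T, c i * z ^ p ^ i) = 0 := by
          intro T
          induction T using Finset.induction_on with
          | empty =>
            intro _
            rw [Finset.sum_empty]
            exact der_M p h0 hs (zero_mem M)
          | insert a T ha ih =>
            intro hT
            rw [Finset.sum_insert ha, der_add p h0 hs (hcL a) (sum_mem fun i _ => hcL i),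
              ih fun i hi => hT i (Finset.mem_insert_of_mem hi), add_zero]
            have ha1 : 1 ≤ a := hT a (Finset.mem_insert_self a T)
            obtain ⟨b, rfl⟩ : ∃ b, a = b + 1 := ⟨a - 1, by omega⟩
            rw [der_mul p h0 hs (hEL (hAE (hcA _))) (pow_mem hzL _), der_M p h0 hs
              (hAM (hcA _)), zero_mul, zero_add, pow_succ, pow_mul,
              der_pow p h0 hs (pow_mem hzL _), mul_zero]
        exact key _ fun i hi => (Finset.mem_Ico.1 hi).1
      rw [h1, der_iter_add p h0 hs m (mul_mem (hEL (hAE (hcA 0))) hzL) h2,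
        der_iter_zero p h0 hs h3 hm1, add_zero, der_iter_smul p h0 hs m (hAM (hcA 0)) hzL]
    have hrel : c 0 * (der p M u)^[m] z = (der p M u)^[m + m] z - (der p M u)^[m] f -
        (der p M u)^[m] o := by
      have h1 : (der p M u)^[m] z = f + ∑ i ∈ Finset.range e, c i * z ^ p ^ i + o := by
        rw [ho]; ring
      rw [Function.iterate_add_apply]
      conv_rhs => rw [h1]
      rw [der_iter_add p h0 hs m (add_mem (hEL hf) hsL) hoL,
        der_iter_add p h0 hs m (hEL hf) hsL, hsum]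
      ring
    -- the second derivative
    have h2m : Nr' v E (s - (m + m : ℕ) * ρ) ((der p M u)^[m + m] z) := by
      by_cases h2 : m + m < p
      · exact hmax (m + m) (by omega) h2
      · refine ⟨0, zero_mem E, ?_⟩
        rw [der_iter_p p h0 hs (by omega) hzL, sub_zero]
        exact Gt.zero
    obtain ⟨a, ha, hga⟩ := h2m
    have hgo := der_iter_gt p h0 hs m hoL hw
    have hc0E : c 0 ∈ E := hAE (hcA 0)
    refine hmN ⟨(c 0)⁻¹ * (a - (der p M u)^[m] f),
      mul_mem (inv_mem hc0E) (sub_mem ha (der_cadj p h0 hs hAM hu hEL m hf)), ?_⟩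
    have h3 : (der p M u)^[m] z - (c 0)⁻¹ * (a - (der p M u)^[m] f) =
        ((der p M u)^[m + m] z - a - (der p M u)^[m] o) * (c 0)⁻¹ := by
      have h4 : (der p M u)^[m] z = (c 0)⁻¹ * (c 0 * (der p M u)^[m] z) := by
        rw [← mul_assoc, inv_mul_cancel₀ h, one_mul]
      conv_lhs => rw [h4]
      rw [hrel]
      ring
    rw [h3]
    have h5 : Gt v (s - (m + m : ℕ) * ρ) ((der p M u)^[m + m] z - a - (der p M u)^[m] o) := by
      refine hga.sub (hgo.mono ?_)
      push_cast
      linarith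
    refine (h5.mul_ge (RVal.Ge.of_le (v := v) (v.map_inv h).ge)).mono ?_
    push_cast
    linarith
  -- the top coefficient
  let T : Finset ℕ := (Finset.range e).filter fun i => c i ≠ 0
  have hTmem : ∀ i, i ∈ T ↔ i < e ∧ c i ≠ 0 := by
    intro i
    rw [Finset.mem_filter, Finset.mem_range]
  have hTne : T.Nonempty := by
    obtain ⟨i, h1, h2⟩ := hex
    exact ⟨i, (hTmem i).2 ⟨h1, h2⟩⟩
  obtain ⟨hte, htc⟩ := (hTmem _).1 (T.max'_mem hTne)
  have htmax : ∀ i, T.max' hTne < i → i < e → c i = 0 := by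
    intro i h1 h2
    by_contra h3
    have h4 := T.le_max' i ((hTmem i).2 ⟨h2, h3⟩)
    omega
  generalize T.max' hTne = t at hte htc htmax
  have ht1 : 1 ≤ t := by
    by_contra h
    have h1 : t = 0 := by omega
    subst h1
    exact htc (hc0 hte)
  have hsum : ∑ i ∈ Finset.range e, c i * z ^ p ^ i = ∑ i ∈ Finset.Icc 1 t, c i * z ^ p ^ i := by
    symm
    refine Finset.sum_subset ?_ ?_
    · intro i hi
      obtain ⟨h1, h2⟩ := Finset.mem_Icc.1 hi
      exact Finset.mem_range.2 (by omega)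
    · intro i hi hi'
      have h1 := Finset.mem_range.1 hi
      have h2 : ¬ (1 ≤ i ∧ i ≤ t) := fun h => hi' (Finset.mem_Icc.2 h)
      by_cases h3 : i = 0
      · subst h3
        rw [hc0 h1, zero_mul]
      · rw [htmax i (by omega) h1, zero_mul]
  rw [hsum] at hw
  refine no_germ p h0 hs hAM hu hz hzL hm1 hmp ht1 c hcA htc (fun i _ _ => ?_) ?_ hf ?_
  · rcases hc i with h | ⟨-, -, -, h⟩
    · rw [h]; exact RVal.Ge.zero
    · exact RVal.Ge.of_le (by linarith)
  · rcases hc t with h | ⟨-, -, -, h⟩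
    · exact absurd h htc
    · linarith
  · have h1 := hw.ge
    rwa [← sub_sub] at h1

/-- **Block C.** -/
theorem block_C (h0 : Ctx0 k v) (hs : PStep p v M u ρ) (hAM : A ≤ M) (hu : TL v A u ρ)
    {z : Ω} {s : ℝ} (hz : TL v (cadj v A u) z s) (hL : adj M u = cadj v (cadj v A u) z) :
    ∃ β ∈ M, (∃ e ∈ cadj v A u, Gt v s (β - z - e)) ∧ TL v (cadj v A (u ^ p)) β s ∧
      M = cadj v (cadj v A (u ^ p)) β := by
  have hzL : z ∈ adj M u := by
    rw [hL]
    exact self_mem_cadj v _ z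
  obtain ⟨β, hβM, e, he, hβ⟩ := exists_gen p h0 hs hAM hu hzL
    (all_nr p h0 hs hAM hu hz hL)
  have hβL : β ∈ cadj v (cadj v A u) z := by
    rw [← hL]
    exact (D2P.mem_adj_self M u).2 hβM
  have hg := hz.generator (w := β) (one_mem (cadj v A u)) one_ne_zero he hβL (by
    rw [v.map_one, zero_add, one_mul, ← sub_sub]
    exact hβ)
  rw [v.map_one, zero_add] at hg
  exact ⟨β, hβM, ⟨e, he, hβ⟩, gen_eq p h0 hs hAM hu hβM hg.1 (by rw [hL, hg.2])⟩

end

end Pool.Agent.TWM.C
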