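import Pool.Agent.Lib.TWM.D1
import Pool.Agent.Lib.TWM.C4
import Pool.Agent.Lib.TWM.LogC

/-!
# TANK W, M2, block D: the first step, final form

`first_step`: `B` is the closure of `N(y, z)`, `α^p ∈ B`, `α ∉ B`, the values of `B(α)` are in `G`;
then `B(α) N_1` is the closure of `N_1(y_1, z_1)`, `N_1 = N^(1/p)` the sums of the `M_t b_t`, `t` in
`G_1/G`.
-/

set_option autoImplicit false

open Polynomial

namespace Pool.Agent.TWM

open Pool.Agent.H15JM (RVal)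
open Pool.Agent.LU1 (VPos adj)
open Pool.Agent.LUC (Cl clF)
open Pool.Agent.D2 (Ctx0)
open Pool.Agent.D2P (hen clI mem_clI adj_le mem_adj_self rootF mem_rootF)

universe u

variable {k Ω : Type u} [Field k] [Field Ω] [Algebra k Ω] {v : RVal Ω} [IsAlgClosed Ω] (p : ℕ)
  [hp : Fact p.Prime] [CharP k p] [CharP Ω p]

omit [CharP k p] in
theorem TL.pow {A : IntermediateField k Ω} {u : Ω} {ρ : ℝ} (h : TL v A u ρ) :
    TL v A (u ^ p) (p * ρ) where
  lim := by
    have hp0 : (0 : ℝ) < p := by exact_mod_cast hp.out.pos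
    intro ε hε
    obtain ⟨a, ha, h1⟩ := h.lim (ε / p) (div_pos hε hp0)
    refine ⟨a ^ p, pow_mem ha p, ?_⟩
    rw [← sub_pow_p]
    exact (ge_pow h1 p).mono (by rw [mul_sub, mul_div_cancel₀ _ hp0.ne'])
  far := by
    intro θ hθ
    obtain ⟨θ', rfl⟩ := IsAlgClosed.exists_pow_nat_eq θ hp.out.pos
    obtain ⟨h1, h2⟩ := h.far θ' (IsAlgebraic.of_pow hp.out.pos hθ)
    have h3 : u - θ' ≠ 0 := sub_ne_zero.2 h1
    have hp0 : (0 : ℝ) < p := by exact_mod_cast hp.out.pos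
    rw [← sub_pow_p, v.map_pow h3]
    refine ⟨?_, mul_lt_mul_of_pos_left h2 hp0⟩
    rw [← sub_ne_zero, ← sub_pow_p]
    exact pow_ne_zero p h3

theorem blockC (h0 : Ctx0 k v) : BlockC k p v := by
  intro A M u z ρ s _ hM hu hz hAM hup hL hfar
  obtain ⟨β, -, -, h1, h2⟩ := C.block_C p h0
    ⟨hM, hup, fun ⟨b, hb, hg⟩ => hfar b hb hg⟩ hAM hu hz hL.symm
  exact ⟨β, hu.pow p, h1, h2⟩

/-- **First step (block D).** -/
theorem first_step (h0 : Ctx0 k v) (hc : CompleteV v) {N B : IntermediateField k Ω} {y z α : Ω}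
    {ρ s : ℝ} (hN : Cld v N) (hF : Fib v N B y z ρ s) (hαp : α ^ p ∈ B) (hα : α ∉ B)
    {M : ℝ → Ω} {G G₁ : AddSubgroup ℝ} {T : Finset ℝ} (hcls : Cls v M G G₁ T (adj B α))
    (hm : ∀ g ∈ G, M g ∈ N) (hN1 : rootF p 1 N = LE M G₁ N) :
    ∃ (y₁ z₁ : Ω) (ρ₁ s₁ : ℝ), Fib v (LE M G₁ N) (LE M G₁ (adj B α)) y₁ z₁ ρ₁ s₁ := by
  classical
  have hB : Cld v B := by
    rw [hF.eq]
    exact cld_cadj _ _ _
  have hNB : N ≤ B := by
    rw [hF.eq]
    exact (le_cadj _ _ _).trans (le_cadj _ _ _)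
  have hBα : B ≤ adj B α := (mem_adj_self B α).2
  have hclB : Cls v M G G₁ T B := hcls.mono hBα fun g hg => hNB (hm g hg)
  have hsup : ∀ E : IntermediateField k Ω, N ≤ E → rootF p 1 N ⊔ E = LE M G₁ E := by
    intro E hE
    rw [hN1]
    refine le_antisymm (sup_le (LE_mono hE) le_LE) ?_
    exact LE_le le_sup_right fun g hg => (le_sup_left : LE M G₁ N ≤ _) (mon_mem_LE hg)
  have hcl : Cld v (adj B α) := cld_adj hc hB (isAlgebraic_of_pow_mem p hαp)
  have h1 : clI v (rootF p 1 N ⊔ B) = LE M G₁ B := by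
    rw [hsup B hNB]
    exact le_antisymm (hclB.cld hc hB) (le_clI _)
  have h2 : clI v (rootF p 1 N ⊔ adj B α) = LE M G₁ (adj B α) := by
    rw [hsup _ (hNB.trans hBα)]
    exact le_antisymm (hcls.cld hc hcl) (le_clI _)
  have h3 : α ∉ LE M G₁ B := by
    intro h4
    obtain ⟨b, hb, h5⟩ := hclB.mem_iff.1 h4
    have h6 := (hcls.eq_of_mem (fun t ht => hBα (hb t ht)) (mem_adj_self B α).1 h5).1
    exact hα (by rw [← h6]; exact hb 0 hcls.reps.zero)
  have h4 := first_step_core p (blockC p h0) hc hN hF hαp (by rw [h1]; exact h3)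
  rw [h2, hN1] at h4
  exact h4

end Pool.Agent.TWM
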