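import Pool.Agent.Lib.TWM.SDefs

/-!
# TANK W, M2S, row S3: the algebra of a change of coordinates

`evP p M s r f` is the operator `f` on polynomials in two variables. With it:
`Chg.symm_tr`, `Chg.tr_symm`, `Chg.PII_tr`, `Chg.eval_tr`, and the chain rules `Chg.dY_tr`, `Chg.dZ_tr`.
-/

set_option autoImplicit false

open Polynomial

namespace Pool.Agent.TWM

open Pool.Agent.H15JM (RVal)

universe u

variable {k Ω : Type u} [Field k] [Field Ω] [Algebra k Ω] {v : RVal Ω}
  {p : ℕ} {G : AddSubgroup ℝ} {M : ℝ → Ω} {s r t : ℝ}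

/-! ## Operators on polynomials -/

/-- The operator `f` on polynomials in two variables. -/
noncomputable def evP (p : ℕ) (M : ℝ → Ω) (s r : ℝ) (f : k[X]) (P : Polynomial (Polynomial Ω)) :
    Polynomial (Polynomial Ω) :=
  f.sum fun j a => C (C (algebraMap k Ω a * M (r - (p : ℝ) ^ j * s))) * P ^ p ^ j

theorem evP_mono (a : k) (j : ℕ) (P : Polynomial (Polynomial Ω)) :
    evP p M s r (C a * X ^ j) P = C (C (algebraMap k Ω a * M (r - (p : ℝ) ^ j * s))) * P ^ p ^ j := by
  rw [evP, C_mul_X_pow_eq_monomial, sum_monomial_index]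
  rw [map_zero, zero_mul, C_0, C_0, zero_mul]

theorem evP_zero (P : Polynomial (Polynomial Ω)) : evP p M s r (0 : k[X]) P = 0 := by
  rw [evP, sum_zero_index]

theorem evP_add (f g : k[X]) (P : Polynomial (Polynomial Ω)) :
    evP p M s r (f + g) P = evP p M s r f P + evP p M s r g P := by
  rw [evP, sum_add_index]
  · rfl
  · intro i; rw [map_zero, zero_mul, C_0, C_0, zero_mul]
  · intro i a b; rw [map_add, add_mul, C_add, C_add, add_mul]

theorem evP_sum {ι : Type*} (S : Finset ι) (f : ι → k[X]) (P : Polynomial (Polynomial Ω)) :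
    evP p M s r (∑ i ∈ S, f i) P = ∑ i ∈ S, evP p M s r (f i) P := by
  classical
  induction S using Finset.induction_on with
  | empty => rw [Finset.sum_empty, Finset.sum_empty, evP_zero]
  | insert i S hi ih => rw [Finset.sum_insert hi, Finset.sum_insert hi, evP_add, ih]

theorem evP_add_right [Fact p.Prime] [CharP Ω p] (f : k[X]) (P Q : Polynomial (Polynomial Ω)) :
    evP p M s r f (P + Q) = evP p M s r f P + evP p M s r f Q := by
  rw [evP, evP, evP, Polynomial.sum, Polynomial.sum, Polynomial.sum, ← Finset.sum_add_distrib]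
  refine Finset.sum_congr rfl fun i _ => ?_
  rw [add_pow_char_pow, mul_add]

theorem evP_zero_right [Fact p.Prime] (f : k[X]) :
    evP p M s r f (0 : Polynomial (Polynomial Ω)) = 0 := by
  rw [evP, Polynomial.sum]
  refine Finset.sum_eq_zero fun i _ => ?_
  rw [zero_pow (pow_ne_zero _ (Fact.out : p.Prime).ne_zero), mul_zero]

theorem evP_one (h : MS v G M) (P : Polynomial (Polynomial Ω)) :
    evP p M s s (1 : k[X]) P = P := by
  have h1 := evP_mono (k := k) (p := p) (M := M) (s := s) (r := s) 1 0 P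
  rw [map_one, pow_zero, mul_one] at h1
  rw [h1, pow_zero, pow_zero, pow_one, one_mul, sub_self, h.zero, map_one, one_mul, C_1, C_1, one_mul]

theorem evP_tw [Fact p.Prime] [CharP k p] [CharP Ω p] (h : MS v G M) {f g : k[X]}
    (hg : IsOp p G s r g) (hf : IsOp p G r t f) (P : Polynomial (Polynomial Ω)) :
    evP p M s t (tw p f g) P = evP p M r t f (evP p M s r g P) := by
  conv_lhs => rw [as_sum_support_C_mul_X_pow f, as_sum_support_C_mul_X_pow g, tw_sum_left, evP_sum]
  rw [evP, Polynomial.sum]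
  refine Finset.sum_congr rfl fun i hi => ?_
  rw [tw_sum_right, evP_sum, evP, Polynomial.sum, sum_pow_char_pow, Finset.mul_sum]
  refine Finset.sum_congr rfl fun j hj => ?_
  rw [tw_mono, evP_mono, mul_pow, ← pow_mul, ← pow_add]
  have hi' := hf i (mem_support_iff.mp hi)
  have hj' := hg j (mem_support_iff.mp hj)
  have h1 : M (t - (p : ℝ) ^ (i + j) * s) =
      M (t - (p : ℝ) ^ i * r) * M (r - (p : ℝ) ^ j * s) ^ p ^ i := by
    rw [← h.pow hj' (p ^ i), ← h.mul _ hi' _ (by
      rw [← nsmul_eq_mul]; exact G.nsmul_mem hj' _)]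
    congr 1
    push_cast
    rw [pow_add]
    ring
  rw [h1, add_comm j i]
  simp only [map_mul, map_pow]
  ring

/-- Ring homomorphisms fixing the constants commute with operators. -/
theorem map_evP {T : Type*} [CommRing T] (φ : Polynomial (Polynomial Ω) →+* T) (f : k[X])
    (P : Polynomial (Polynomial Ω)) :
    φ (evP p M s r f P) =
      f.sum fun j a => φ (C (C (algebraMap k Ω a * M (r - (p : ℝ) ^ j * s)))) * φ P ^ p ^ j := by
  rw [evP, Polynomial.sum, map_sum, Polynomial.sum]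
  refine Finset.sum_congr rfl fun j _ => ?_
  rw [map_mul, map_pow]

theorem map_evP' (φ : Polynomial (Polynomial Ω) →+* Polynomial (Polynomial Ω))
    (hφ : ∀ c : Ω, φ (C (C c)) = C (C c)) (f : k[X]) (P : Polynomial (Polynomial Ω)) :
    φ (evP p M s r f P) = evP p M s r f (φ P) := by
  rw [map_evP, evP]
  refine Finset.sum_congr rfl fun j _ => ?_
  simp only [hφ]

theorem evP_CC (f : k[X]) (c : Ω) :
    evP p M s r f (C (C c)) = C (C (ev p M s r f c)) := by
  rw [evP, ev, Polynomial.sum, Polynomial.sum, map_sum, map_sum]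
  refine Finset.sum_congr rfl fun j _ => ?_
  simp only [map_mul, map_pow]

theorem C_opP (f : k[X]) : (C (opP p M s r f) : Polynomial (Polynomial Ω)) = evP p M s r f (C X) := by
  rw [opP, evP, Polynomial.sum, Polynomial.sum, map_sum]
  refine Finset.sum_congr rfl fun j _ => ?_
  rw [C_mul, C_pow]

theorem map_opP (f : k[X]) : (opP p M s r f).map C = evP p M s r f (X : Polynomial (Polynomial Ω)) := by
  rw [opP, evP, Polynomial.sum, Polynomial.sum, Polynomial.map_sum]
  refine Finset.sum_congr rfl fun j _ => ?_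
  rw [Polynomial.map_mul, Polynomial.map_pow, map_C, map_X]

/-! ## Ring homomorphisms of the polynomials in two variables -/

theorem ringHom_ext2 {φ ψ : Polynomial (Polynomial Ω) →+* Polynomial (Polynomial Ω)}
    (h1 : ∀ c : Ω, φ (C (C c)) = ψ (C (C c))) (h2 : φ (C X) = ψ (C X)) (h3 : φ X = ψ X) : φ = ψ := by
  refine Polynomial.ringHom_ext' (Polynomial.ringHom_ext' (RingHom.ext fun c => ?_) ?_) h3
  · exact h1 c
  · exact h2

theorem sub2_CC (f g : Polynomial (Polynomial Ω)) (c : Ω) : sub2 f g (C (C c)) = C (C c) := by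
  rw [sub2_C, eval₂_C, RingHom.comp_apply]

theorem sub2_CX (f g : Polynomial (Polynomial Ω)) : sub2 f g (C X) = f := by
  rw [sub2_C, eval₂_X]

theorem sub2_evP (f g : Polynomial (Polynomial Ω)) (h : k[X]) (P : Polynomial (Polynomial Ω)) :
    sub2 f g (evP p M s r h P) = evP p M s r h (sub2 f g P) := map_evP' _ (sub2_CC f g) h P

/-! ## The translation -/

/-- `P(Y + y, Z + z)`. -/
noncomputable def tt (y z : Ω) : Polynomial (Polynomial Ω) →+* Polynomial (Polynomial Ω) :=
  sub2 (C (X + C y)) (X + C (C z))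

theorem tt_eq (y z : Ω) (P : Polynomial (Polynomial Ω)) :
    tt y z P = (taylor (C z) P).map (taylorAlgHom y : Polynomial Ω →ₐ[Ω] Polynomial Ω).toRingHom := by
  have h : tt y z = (mapRingHom (taylorAlgHom y : Polynomial Ω →ₐ[Ω] Polynomial Ω).toRingHom).comp
      (taylorAlgHom (C z) : Polynomial (Polynomial Ω) →ₐ[Polynomial Ω] _).toRingHom := by
    refine ringHom_ext2 (fun c => ?_) ?_ ?_
    · simp [tt, sub2_CC, taylorAlgHom_apply]
    · simp [tt, sub2_CX, taylorAlgHom_apply]
    · simp [tt, sub2_X, taylorAlgHom_apply]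
  rw [h]
  rfl

theorem T2_eq_tt (y z : Ω) (P : Polynomial (Polynomial Ω)) (i j : ℕ) :
    T2 y z P i j = ((tt y z P).coeff j).coeff i := by
  rw [tt_eq, coeff_map, T2]
  rfl

/-! ## Bipolynomials over a subfield -/

/-- The bipolynomials over `A`. -/
def PIIs (A : IntermediateField k Ω) : Subring (Polynomial (Polynomial Ω)) where
  carrier := {P | PII A P}
  mul_mem' := by
    intro P Q hP hQ j
    rw [coeff_mul]
    exact sum_mem fun x _ => mul_mem (hP _) (hQ _)
  one_mem' := by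
    intro j
    rw [coeff_one]
    split_ifs
    exacts [one_mem _, zero_mem _]
  add_mem' := by
    intro P Q hP hQ j
    rw [coeff_add]
    exact add_mem (hP j) (hQ j)
  zero_mem' := by
    intro j
    rw [coeff_zero]
    exact zero_mem _
  neg_mem' := by
    intro P hP j
    rw [coeff_neg]
    exact neg_mem (hP j)

theorem mem_PIIs {A : IntermediateField k Ω} {P : Polynomial (Polynomial Ω)} :
    P ∈ PIIs A ↔ PII A P := Iff.rfl

theorem C_mem_PIIs {A : IntermediateField k Ω} {f : Polynomial Ω} (hf : f ∈ PI A) :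
    (C f : Polynomial (Polynomial Ω)) ∈ PIIs A := by
  intro j
  rw [coeff_C]
  split_ifs
  exacts [hf, zero_mem _]

theorem X_mem_PIIs {A : IntermediateField k Ω} : (X : Polynomial (Polynomial Ω)) ∈ PIIs A := by
  intro j
  rw [coeff_X]
  split_ifs
  exacts [one_mem _, zero_mem _]

theorem evP_mem {A : IntermediateField k Ω} (hMA : ∀ g ∈ G, M g ∈ A) {f : k[X]} (hf : IsOp p G s r f)
    {P : Polynomial (Polynomial Ω)} (hP : P ∈ PIIs A) : evP p M s r f P ∈ PIIs A := by
  rw [evP, Polynomial.sum]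
  refine sum_mem fun j hj => mul_mem (C_mem_PIIs (C_mem_PI (mul_mem (IntermediateField.algebraMap_mem _ _)
    (hMA _ (hf j (mem_support_iff.mp hj)))))) (pow_mem hP _)

theorem sub2_mem {A : IntermediateField k Ω} {f g P : Polynomial (Polynomial Ω)} (hf : f ∈ PIIs A)
    (hg : g ∈ PIIs A) (hP : P ∈ PIIs A) : sub2 f g P ∈ PIIs A := by
  have h1 : ∀ q ∈ PI A, q.eval₂ (C.comp C) f ∈ PIIs A := by
    intro q hq
    rw [eval₂_eq_sum, Polynomial.sum]
    exact sum_mem fun i _ => mul_mem (C_mem_PIIs (C_mem_PI (hq i))) (pow_mem hf i)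
  have h2 : sub2 f g P = P.eval₂ (eval₂RingHom (C.comp C) f) g := rfl
  rw [h2, eval₂_eq_sum, Polynomial.sum]
  exact sum_mem fun j _ => mul_mem (h1 _ (hP j)) (pow_mem hg j)

/-! ## Change of coordinates -/

namespace Chg

variable [Fact p.Prime] [CharP k p] {N : IntermediateField k Ω} {y z : Ω} {ρ s : ℝ} {u w : Ω}
  {ρ' r : ℝ}

theorem pY_eq (H : Chg p G M N y z ρ s u w ρ' r) :
    H.pY = evP p M ρ' ρ H.a (C X) + evP p M r ρ H.b X + C (C H.n₃) := by
  rw [pY, C_opP, map_opP]

theorem pZ_eq (H : Chg p G M N y z ρ s u w ρ' r) :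
    H.pZ = evP p M ρ' s H.c (C X) + evP p M r s H.d X + C (C H.n₄) := by
  rw [pZ, C_opP, map_opP]

theorem tr_CC (H : Chg p G M N y z ρ s u w ρ' r) (c : Ω) : H.tr (C (C c)) = C (C c) := sub2_CC _ _ _

theorem tr_CX (H : Chg p G M N y z ρ s u w ρ' r) : H.tr (C X) = H.pY := sub2_CX _ _

theorem tr_X (H : Chg p G M N y z ρ s u w ρ' r) : H.tr X = H.pZ := sub2_X _ _

theorem tr_evP (H : Chg p G M N y z ρ s u w ρ' r) {s₁ r₁ : ℝ} (f : k[X])
    (P : Polynomial (Polynomial Ω)) : H.tr (evP p M s₁ r₁ f P) = evP p M s₁ r₁ f (H.tr P) :=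
  sub2_evP _ _ _ _

theorem const₁ [CharP Ω p] (hM : MS v G M) (H : Chg p G M N y z ρ s u w ρ' r) :
    ev p M ρ' ρ H.a H.n₁ + ev p M r ρ H.b H.n₂ + H.n₃ = 0 := by
  have h1 : ev p M ρ' ρ H.a u + ev p M r ρ H.b w =
      y + (ev p M ρ' ρ H.a H.n₁ + ev p M r ρ H.b H.n₂) := by
    have e1 : ev p M ρ' ρ H.a u = ev p M ρ ρ (tw p H.a H.γ) y + ev p M s ρ (tw p H.a H.δ) z +
        ev p M ρ' ρ H.a H.n₁ := by
      refine (congrArg (ev p M ρ' ρ H.a) H.hu).trans ?_
      rw [ev_add_right, ev_add_right, ev_tw hM H.hγ H.ha, ev_tw hM H.hδ H.ha]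
    have e2 : ev p M r ρ H.b w = ev p M ρ ρ (tw p H.b H.α) y + ev p M s ρ (tw p H.b H.β) z +
        ev p M r ρ H.b H.n₂ := by
      refine (congrArg (ev p M r ρ H.b) H.hw).trans ?_
      rw [ev_add_right, ev_add_right, ev_tw hM H.hα H.hb, ev_tw hM H.hβ H.hb]
    have e3 : ev p M ρ ρ (tw p H.a H.γ) y + ev p M ρ ρ (tw p H.b H.α) y = y := by
      rw [← ev_add, H.j₁₁, ev_one hM]
    have e4 : ev p M s ρ (tw p H.a H.δ) z + ev p M s ρ (tw p H.b H.β) z = 0 := by
      rw [← ev_add, H.j₁₂, ev_zero]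
    rw [e1, e2]
    linear_combination e3 + e4
  have h2 := H.hy
  linear_combination -h1 - h2

theorem const₂ [CharP Ω p] (hM : MS v G M) (H : Chg p G M N y z ρ s u w ρ' r) :
    ev p M ρ' s H.c H.n₁ + ev p M r s H.d H.n₂ + H.n₄ = 0 := by
  have h1 : ev p M ρ' s H.c u + ev p M r s H.d w =
      z + (ev p M ρ' s H.c H.n₁ + ev p M r s H.d H.n₂) := by
    have e1 : ev p M ρ' s H.c u = ev p M ρ s (tw p H.c H.γ) y + ev p M s s (tw p H.c H.δ) z +
        ev p M ρ' s H.c H.n₁ := by
      refine (congrArg (ev p M ρ' s H.c) H.hu).trans ?_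
      rw [ev_add_right, ev_add_right, ev_tw hM H.hγ H.hc, ev_tw hM H.hδ H.hc]
    have e2 : ev p M r s H.d w = ev p M ρ s (tw p H.d H.α) y + ev p M s s (tw p H.d H.β) z +
        ev p M r s H.d H.n₂ := by
      refine (congrArg (ev p M r s H.d) H.hw).trans ?_
      rw [ev_add_right, ev_add_right, ev_tw hM H.hα H.hd, ev_tw hM H.hβ H.hd]
    have e3 : ev p M ρ s (tw p H.c H.γ) y + ev p M ρ s (tw p H.d H.α) y = 0 := by
      rw [← ev_add, H.j₂₁, ev_zero]
    have e4 : ev p M s s (tw p H.c H.δ) z + ev p M s s (tw p H.d H.β) z = z := by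
      rw [← ev_add, H.j₂₂, ev_one hM]
    rw [e1, e2]
    linear_combination e3 + e4
  have h2 := H.hz
  linear_combination -h1 - h2

/-- The inverse change undoes the change. -/
theorem symm_tr [CharP Ω p] (hM : MS v G M) (H : Chg p G M N y z ρ s u w ρ' r)
    (P : Polynomial (Polynomial Ω)) : H.symm.tr (H.tr P) = P := by
  have h : H.symm.tr.comp H.tr = RingHom.id _ := by
    refine ringHom_ext2 (fun c => ?_) ?_ ?_
    · rw [RingHom.comp_apply, tr_CC, tr_CC, RingHom.id_apply]
    · rw [RingHom.comp_apply, tr_CX, pY_eq, map_add, map_add, tr_evP, tr_evP, tr_CX, tr_X, tr_CC,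
        pY_eq, pZ_eq, RingHom.id_apply]
      change evP p M ρ' ρ H.a (evP p M ρ ρ' H.γ (C X) + evP p M s ρ' H.δ X + C (C H.n₁)) +
        evP p M r ρ H.b (evP p M ρ r H.α (C X) + evP p M s r H.β X + C (C H.n₂)) + C (C H.n₃) = C X
      rw [evP_add_right, evP_add_right, evP_add_right, evP_add_right, ← evP_tw hM H.hγ H.ha,
        ← evP_tw hM H.hδ H.ha, ← evP_tw hM H.hα H.hb, ← evP_tw hM H.hβ H.hb, evP_CC, evP_CC]
      have e1 : evP p M ρ ρ (tw p H.a H.γ) (C X : Polynomial (Polynomial Ω)) +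
          evP p M ρ ρ (tw p H.b H.α) (C X) = C X := by
        rw [← evP_add, H.j₁₁, evP_one hM]
      have e2 : evP p M s ρ (tw p H.a H.δ) (X : Polynomial (Polynomial Ω)) +
          evP p M s ρ (tw p H.b H.β) X = 0 := by
        rw [← evP_add, H.j₁₂, evP_zero]
      have e3 : (C (C (ev p M ρ' ρ H.a H.n₁)) : Polynomial (Polynomial Ω)) +
          C (C (ev p M r ρ H.b H.n₂)) + C (C H.n₃) = 0 := by
        rw [← C_add, ← C_add, ← C_add, ← C_add, H.const₁ hM, C_0, C_0]
      linear_combination e1 + e2 + e3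
    · rw [RingHom.comp_apply, tr_X, pZ_eq, map_add, map_add, tr_evP, tr_evP, tr_CX, tr_X, tr_CC,
        pY_eq, pZ_eq, RingHom.id_apply]
      change evP p M ρ' s H.c (evP p M ρ ρ' H.γ (C X) + evP p M s ρ' H.δ X + C (C H.n₁)) +
        evP p M r s H.d (evP p M ρ r H.α (C X) + evP p M s r H.β X + C (C H.n₂)) + C (C H.n₄) = X
      rw [evP_add_right, evP_add_right, evP_add_right, evP_add_right, ← evP_tw hM H.hγ H.hc,
        ← evP_tw hM H.hδ H.hc, ← evP_tw hM H.hα H.hd, ← evP_tw hM H.hβ H.hd, evP_CC, evP_CC]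
      have e1 : evP p M ρ s (tw p H.c H.γ) (C X : Polynomial (Polynomial Ω)) +
          evP p M ρ s (tw p H.d H.α) (C X) = 0 := by
        rw [← evP_add, H.j₂₁, evP_zero]
      have e2 : evP p M s s (tw p H.c H.δ) (X : Polynomial (Polynomial Ω)) +
          evP p M s s (tw p H.d H.β) X = X := by
        rw [← evP_add, H.j₂₂, evP_one hM]
      have e3 : (C (C (ev p M ρ' s H.c H.n₁)) : Polynomial (Polynomial Ω)) +
          C (C (ev p M r s H.d H.n₂)) + C (C H.n₄) = 0 := by
        rw [← C_add, ← C_add, ← C_add, ← C_add, H.const₂ hM, C_0, C_0]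
      linear_combination e1 + e2 + e3
  exact RingHom.congr_fun h P

theorem tr_symm [CharP Ω p] (hM : MS v G M) (H : Chg p G M N y z ρ s u w ρ' r)
    (P : Polynomial (Polynomial Ω)) : H.tr (H.symm.tr P) = P := H.symm.symm_tr hM P

/-- The change maps bipolynomials over `N` to bipolynomials over `N`. -/
theorem PII_tr (hMN : ∀ g ∈ G, M g ∈ N) (H : Chg p G M N y z ρ s u w ρ' r)
    {P : Polynomial (Polynomial Ω)} (hP : PII N P) : PII N (H.tr P) := by
  refine sub2_mem ?_ ?_ hP
  · rw [pY_eq]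
    exact add_mem (add_mem (evP_mem hMN H.ha (C_mem_PIIs X_mem_PI)) (evP_mem hMN H.hb X_mem_PIIs))
      (C_mem_PIIs (C_mem_PI H.hn₃))
  · rw [pZ_eq]
    exact add_mem (add_mem (evP_mem hMN H.hc (C_mem_PIIs X_mem_PI)) (evP_mem hMN H.hd X_mem_PIIs))
      (C_mem_PIIs (C_mem_PI H.hn₄))

omit [Fact p.Prime] [CharP k p] in
theorem evalEval_evP {s₁ r₁ : ℝ} (f : k[X]) (P : Polynomial (Polynomial Ω)) (u w : Ω) :
    (evP p M s₁ r₁ f P).evalEval u w = ev p M s₁ r₁ f (P.evalEval u w) := by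
  rw [evP, Polynomial.sum, ev, Polynomial.sum, evalEval_finsetSum]
  refine Finset.sum_congr rfl fun j _ => ?_
  rw [evalEval_mul, evalEval_pow, evalEval_C, eval_C]

/-- The value of the transform. -/
theorem eval_tr (H : Chg p G M N y z ρ s u w ρ' r) (P : Polynomial (Polynomial Ω)) :
    (H.tr P).evalEval u w = P.evalEval y z := by
  have h1 : H.pY.evalEval u w = y := by
    rw [pY_eq, evalEval_add, evalEval_add, evalEval_evP, evalEval_evP, evalEval_C, evalEval_C, eval_X,
      eval_C, evalEval_X]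
    exact H.hy.symm
  have h2 : H.pZ.evalEval u w = z := by
    rw [pZ_eq, evalEval_add, evalEval_add, evalEval_evP, evalEval_evP, evalEval_C, evalEval_C, eval_X,
      eval_C, evalEval_X]
    exact H.hz.symm
  rw [tr, sub2_evalEval, h1, h2]

end Chg

end Pool.Agent.TWM
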