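import Pool.Agent.Lib.TWM.A2
import Pool.Agent.Lib.TW.Defs

/-!
# TANK W, M2: bounded distortion goes up along a transcendental limit (for the exit)

`OI p v A t C`: the monomials `t^α` are `p`-independent over `A^p` with distortion at most `C`.
* `OI.step`: from `A`, `t` to `A⟨z⟩`, `(t, z)`, if `z` is a limit of `A` of transcendental type.
-/

set_option autoImplicit false

open Polynomial

namespace Pool.Agent.TWM

open Pool.Agent.H15JM (RVal)
open Pool.Agent.LU1 (VPos adj)
open Pool.Agent.LUC (Cl clF)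
open Pool.Agent.D2 (Ctx0)
open Pool.Agent.D2P (hen clI mem_clI)
open Pool.Agent.TW (mon pcomb Orth)

universe u

variable {k Ω : Type u} [Field k] [Field Ω] [Algebra k Ω] {v : RVal Ω}

/-- The monomials `t^α` are independent over `A^p`, with distortion at most `C`. -/
def OI (p : ℕ) (v : RVal Ω) (A : IntermediateField k Ω) {n : ℕ} (t : Fin n → Ω) (C : ℝ) : Prop :=
  ∀ c : (Fin n → Fin p) → Ω, (∀ α, c α ∈ A) → ∀ b : ℝ, v.Ge b (pcomb t c) →
    ∀ α, v.Ge (b - C) (c α ^ p * mon t α)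

theorem OI.orth {p : ℕ} {A : IntermediateField k Ω} {n : ℕ} {t : Fin n → Ω} {C : ℝ}
    (h : OI p v A t C) : Orth p v A t C := fun c hc _ α => h c hc _ (RVal.ge_self _) α

theorem OI.mono {p : ℕ} {A A' : IntermediateField k Ω} {n : ℕ} {t : Fin n → Ω} {C C' : ℝ}
    (h : OI p v A t C) (hA : A' ≤ A) (hC : C ≤ C') : OI p v A' t C' :=
  fun c hc b hb α => (h c (fun α => hA (hc α)) b hb α).mono (by linarith)

theorem mon_ne {p n : ℕ} {t : Fin n → Ω} (ht : ∀ i, t i ≠ 0) (α : Fin n → Fin p) :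
    mon t α ≠ 0 := Finset.prod_ne_zero_iff.mpr fun i _ => pow_ne_zero _ (ht i)

/-- Independence. -/
theorem OI.ind {p : ℕ} {A : IntermediateField k Ω} {n : ℕ} {t : Fin n → Ω} {C : ℝ}
    (h : OI p v A t C) (ht : ∀ i, t i ≠ 0) (c : (Fin n → Fin p) → Ω) (hc : ∀ α, c α ∈ A)
    (h0 : pcomb t c = 0) (α : Fin n → Fin p) : c α = 0 := by
  by_contra hne
  have h1 := h c hc (v (c α ^ p * mon t α) + C + 1) (by rw [h0]; exact RVal.Ge.zero) α
    (mul_ne_zero (pow_ne_zero _ hne) (mon_ne ht α))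
  linarith

theorem mon_snoc {p n : ℕ} (t : Fin n → Ω) (z : Ω) (β : Fin n → Fin p) (i : Fin p) :
    mon (Fin.snoc t z : Fin (n + 1) → Ω) (Fin.snoc β i : Fin (n + 1) → Fin p) =
      mon t β * z ^ (i : ℕ) := by
  rw [mon, Fin.prod_univ_castSucc]
  simp only [Fin.snoc_castSucc, Fin.snoc_last]
  rfl

theorem sum_snoc {p n : ℕ} {M : Type*} [AddCommMonoid M] (g : (Fin (n + 1) → Fin p) → M) :
    ∑ α, g α = ∑ i : Fin p, ∑ β : Fin n → Fin p, g (Fin.snoc β i) := by
  rw [← (Fin.snocEquiv fun _ : Fin (n + 1) => Fin p).sum_comp g, Fintype.sum_prod_type]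
  rfl

section Step

variable {p : ℕ} [Fact p.Prime] [CharP Ω p]

/-- A `p`-th power has no coefficients of index prime to `p`. -/
theorem coeff_pow_char (Q : Polynomial Ω) {j : ℕ} (hj : ¬ p ∣ j) : (Q ^ p).coeff j = 0 := by
  have hp : 0 < p := (Fact.out : p.Prime).pos
  rw [← map_frobenius_expand (p := p), coeff_map, coeff_expand hp, if_neg hj, _root_.map_zero]

variable [IsAlgClosed Ω] {A : IntermediateField k Ω} {z : Ω} {s : ℝ} {n : ℕ} {t : Fin n → Ω}

omit [Fact p.Prime] [CharP Ω p] in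
/-- The components of a polynomial modulo `p`-th powers: `∑ G_i X^i`. -/
theorem comp_ge (hz : TL v A z s) (G : Fin p → Polynomial Ω) (hG : ∀ i, G i ∈ PI A)
    (hGp : ∀ i j, 0 < j → j < p → (taylor z (G i)).coeff j = 0) {b : ℝ}
    (hb : v.Ge b (∑ i, (G i).eval z * z ^ (i : ℕ))) (i : Fin p) :
    v.Ge (b - (p - 1 : ℕ) * (s - v z)) ((G i).eval z * z ^ (i : ℕ)) := by
  have hz0 : z ≠ 0 ∧ v z < s := by
    have := hz.far 0 (isAlgebraic_zero)
    rwa [sub_zero] at this
  set H : Polynomial Ω := ∑ i, G i * X ^ (i : ℕ) with hH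
  have hHA : H ∈ PI A := sum_mem fun i _ => mul_mem (hG i) (pow_mem X_mem_PI _)
  have hHz : H.eval z = ∑ i, (G i).eval z * z ^ (i : ℕ) := by
    rw [hH, eval_finsetSum]
    refine Finset.sum_congr rfl fun i _ => ?_
    rw [eval_mul, eval_pow, eval_X]
  have hHl : ∀ l : ℕ, v.Ge (b - l * s) ((taylor z H).coeff l) := by
    intro l
    by_cases h0 : H = 0
    · rw [h0, _root_.map_zero, coeff_zero]
      exact RVal.Ge.zero
    · have h1 := hz.weak (PI_mono (le_algc A) hHA) h0 l
      have h2 : H.eval z ≠ 0 := hz.eval_ne (PI_mono (le_algc A) hHA) h0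
      refine h1.mono ?_
      rw [← hHz] at hb
      linarith [hb h2]
  -- the coefficients of index `< p`
  have hco : ∀ j : ℕ, j < p → (taylor z H).coeff j =
      ∑ i : Fin p, (G i).eval z * (z ^ ((i : ℕ) - j) * ((i : ℕ).choose j : Ω)) := by
    intro j hj
    rw [hH, _root_.map_sum, finsetSum_coeff]
    refine Finset.sum_congr rfl fun i _ => ?_
    rw [taylor_mul, taylor_pow, taylor_X, coeff_mul]
    rw [Finset.sum_eq_single (0, j)]
    · rw [taylor_coeff_zero, coeff_X_add_C_pow]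
    · rintro ⟨a, c⟩ hac hne
      have hac' := Finset.HasAntidiagonal.mem_antidiagonal.mp hac
      simp only at hac'
      have ha : 0 < a := by
        rcases Nat.eq_zero_or_pos a with h0 | h0
        · exfalso
          apply hne
          subst h0
          rw [zero_add] at hac'
          rw [hac']
        · exact h0
      simp only
      rw [hGp i a ha (by omega), zero_mul]
    · intro h
      exact absurd (Finset.HasAntidiagonal.mem_antidiagonal.mpr (zero_add j)) h
  -- descending induction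
  have key : ∀ d : ℕ, ∀ i : Fin p, p - 1 - (i : ℕ) = d →
      v.Ge (b - ((p - 1 : ℕ) * s - d * v z)) ((G i).eval z) := by
    intro d
    induction d using Nat.strong_induction_on with
    | _ d ih =>
      intro i hid
      have hi := i.2
      have h1 := hco i i.2
      rw [← Finset.add_sum_erase _ _ (Finset.mem_univ i)] at h1
      simp only [Nat.sub_self, pow_zero, Nat.choose_self, Nat.cast_one, mul_one] at h1
      have h2 : (G i).eval z = (taylor z H).coeff i - ∑ i' ∈ Finset.univ.erase i,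
          (G i').eval z * (z ^ ((i' : ℕ) - i) * ((i' : ℕ).choose i : Ω)) := by
        rw [h1, add_sub_cancel_right]
      rw [h2]
      have hd : (d : ℝ) = (p - 1 : ℕ) - (i : ℕ) := by
        rw [← hid, Nat.cast_sub (by omega)]
      refine RVal.Ge.sub ?_ (RVal.Ge.sum _ _ fun i' hi' => ?_)
      · refine (hHl i).mono ?_
        have h3 : (0 : ℝ) ≤ (p - 1 : ℕ) - (i : ℕ) := by
          rw [← hd]
          positivity
        rw [hd]
        nlinarith [hz0.2]
      · have hne : i' ≠ i := (Finset.mem_erase.mp hi').1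
        rcases lt_or_gt_of_ne (fun h => hne (Fin.ext h) : (i' : ℕ) ≠ i) with hlt | hgt
        · rw [Nat.choose_eq_zero_of_lt hlt, Nat.cast_zero, mul_zero, mul_zero]
          exact RVal.Ge.zero
        · have h3 := ih (p - 1 - i') (by omega) i' rfl
          have h4 : v.Ge (((i' : ℕ) - (i : ℕ) : ℝ) * v z) (z ^ ((i' : ℕ) - (i : ℕ))) := by
            refine RVal.Ge.of_le ?_
            rw [v.map_pow hz0.1, Nat.cast_sub hgt.le]
          refine (h3.mul (h4.mul (ge_natCast v _))).mono (le_of_eq ?_)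
          rw [hd, Nat.cast_sub (by omega : (i' : ℕ) ≤ p - 1)]
          ring
  have h1 := key _ i rfl
  have h2 : v.Ge ((i : ℕ) * v z) (z ^ (i : ℕ)) := RVal.Ge.of_le (by rw [v.map_pow hz0.1])
  refine (h1.mul h2).mono (le_of_eq ?_)
  have hi := i.2
  rw [Nat.cast_sub (by omega : (i : ℕ) ≤ p - 1)]
  ring

omit [Fact p.Prime] [CharP Ω p] in
/-- Near `z`, finitely many polynomials have values of the same size. -/
theorem TL.near_fin (hz : TL v A z s) {ι : Type*} (S : Finset ι) (f : ι → Polynomial Ω)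
    (hf : ∀ i ∈ S, f i ∈ PI A) :
    ∃ ψ ∈ A, ∀ i ∈ S, f i ≠ 0 → (f i).eval ψ ≠ 0 ∧ (f i).eval z ≠ 0 ∧
      v ((f i).eval ψ) = v ((f i).eval z) := by
  classical
  have h1 : ∃ δ : ℝ, 0 < δ ∧ ∀ ψ, v.Ge (s - δ) (z - ψ) → ∀ i ∈ S, f i ≠ 0 →
      (f i).eval ψ ≠ 0 ∧ (f i).eval z ≠ 0 ∧ v ((f i).eval ψ) = v ((f i).eval z) := by
    induction S using Finset.induction_on with
    | empty => exact ⟨1, one_pos, fun _ _ i hi => absurd hi (Finset.notMem_empty i)⟩
    | insert a S ha ih =>
      obtain ⟨δ, hδ, h2⟩ := ih fun i hi => hf i (Finset.mem_insert_of_mem hi)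
      by_cases h0 : f a = 0
      · refine ⟨δ, hδ, fun ψ hψ i hi hne => ?_⟩
        rcases Finset.mem_insert.mp hi with rfl | hi
        · exact absurd h0 hne
        · exact h2 ψ hψ i hi hne
      · have hfa := PI_mono (le_algc A) (hf a (Finset.mem_insert_self a S))
        obtain ⟨δ', hδ', h3⟩ := hz.near_val hfa h0
        refine ⟨min δ δ', lt_min hδ hδ', fun ψ hψ i hi hne => ?_⟩
        rcases Finset.mem_insert.mp hi with rfl | hi
        · have h4 := h3 ψ (hψ.mono (by linarith [min_le_right δ δ']))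
          exact ⟨h4.1, hz.eval_ne hfa h0, h4.2⟩
        · exact h2 ψ (hψ.mono (by linarith [min_le_left δ δ'])) i hi hne
  obtain ⟨δ, hδ, h2⟩ := h1
  obtain ⟨ψ, hψ, h3⟩ := hz.lim δ hδ
  exact ⟨ψ, hψ, h2 ψ h3⟩

theorem OI.step_poly (hz : TL v A z s) {C : ℝ} (ho : OI p v A t C) (htA : ∀ i, t i ∈ A)
    (f : (Fin (n + 1) → Fin p) → Polynomial Ω) (hf : ∀ α, f α ∈ PI A) {b : ℝ}
    (hb : v.Ge b (pcomb (Fin.snoc t z : Fin (n + 1) → Ω) fun α => (f α).eval z))
    (α : Fin (n + 1) → Fin p) :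
    v.Ge (b - (C + (p - 1 : ℕ) * (s - v z)))
      ((f α).eval z ^ p * mon (Fin.snoc t z : Fin (n + 1) → Ω) α) := by
  classical
  have hz0 : z ≠ 0 ∧ v z < s := by
    have := hz.far 0 (isAlgebraic_zero)
    rwa [sub_zero] at this
  set G : Fin p → Polynomial Ω := fun i =>
    ∑ β : Fin n → Fin p, Polynomial.C (mon t β) * (f (Fin.snoc β i)) ^ p with hGdef
  have hmonA : ∀ β : Fin n → Fin p, mon t β ∈ A := fun β =>
    prod_mem fun i _ => pow_mem (htA i) _
  have hGA : ∀ i, G i ∈ PI A := fun i =>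
    sum_mem fun β _ => mul_mem (C_mem_PI (hmonA β)) (pow_mem (hf _) _)
  have hGe : ∀ (i : Fin p) (w : Ω), (G i).eval w =
      pcomb t fun β => (f (Fin.snoc β i)).eval w := by
    intro i w
    rw [hGdef]
    simp only
    rw [eval_finsetSum, pcomb]
    refine Finset.sum_congr rfl fun β _ => ?_
    rw [eval_mul, eval_C, eval_pow, mul_comm]
  have hsum : pcomb (Fin.snoc t z : Fin (n + 1) → Ω) (fun α => (f α).eval z) =
      ∑ i, (G i).eval z * z ^ (i : ℕ) := by
    rw [pcomb, sum_snoc]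
    refine Finset.sum_congr rfl fun i _ => ?_
    rw [hGe, pcomb, Finset.sum_mul]
    refine Finset.sum_congr rfl fun β _ => ?_
    rw [mon_snoc, mul_assoc]
  have hGp : ∀ i j, 0 < j → j < p → (taylor z (G i)).coeff j = 0 := by
    intro i j hj hjp
    rw [hGdef]
    simp only
    rw [_root_.map_sum, finsetSum_coeff]
    refine Finset.sum_eq_zero fun β _ => ?_
    rw [taylor_mul, taylor_C, taylor_pow, coeff_C_mul, coeff_pow_char (p := p), mul_zero]
    exact fun h => absurd (Nat.le_of_dvd hj h) (by omega)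
  rw [hsum] at hb
  -- the component of `α`
  obtain ⟨i, β, rfl⟩ : ∃ (i : Fin p) (β : Fin n → Fin p), α = Fin.snoc β i :=
    ⟨α (Fin.last n), fun j => α j.castSucc, (Fin.snoc_init_self α).symm⟩
  have h1 := comp_ge hz G hGA hGp hb i
  rw [mon_snoc, ← mul_assoc]
  have hzi : v.Ge (-((i : ℕ) * v z)) (z ^ (i : ℕ))⁻¹ := RVal.Ge.of_le (by
    rw [v.map_inv (pow_ne_zero _ hz0.1), v.map_pow hz0.1])
  have h2 : v.Ge (b - (p - 1 : ℕ) * (s - v z) - (i : ℕ) * v z) ((G i).eval z) := by
    have h3 := h1.mul hzi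
    rw [mul_assoc, mul_inv_cancel₀ (pow_ne_zero _ hz0.1), mul_one] at h3
    exact h3.mono (by linarith)
  -- evaluate near `z`
  obtain ⟨ψ, hψ, h4⟩ := hz.near_fin (Finset.univ : Finset (Option (Fin n → Fin p)))
    (fun o => match o with
      | none => G i
      | some β => f (Fin.snoc β i)) (by
      intro o _
      rcases o with _ | β
      · exact hGA i
      · exact hf _)
  have h5 : v.Ge (b - (p - 1 : ℕ) * (s - v z) - (i : ℕ) * v z) ((G i).eval ψ) := by
    by_cases h0 : G i = 0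
    · rw [h0, eval_zero]
      exact RVal.Ge.zero
    · have h6 := h4 none (Finset.mem_univ _) h0
      simp only at h6
      intro _
      rw [h6.2.2]
      exact h2 h6.2.1
  rw [hGe] at h5
  have h6 := ho _ (fun β => eval_mem (hf _) hψ) _ h5 β
  have h7 : v.Ge (b - (p - 1 : ℕ) * (s - v z) - (i : ℕ) * v z - C)
      ((f (Fin.snoc β i)).eval z ^ p * mon t β) := by
    by_cases h0 : f (Fin.snoc β i) = 0
    · rw [h0, eval_zero, zero_pow (Fact.out : p.Prime).ne_zero, zero_mul]
      exact RVal.Ge.zero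
    · have h8 := h4 (some β) (Finset.mem_univ _) h0
      simp only at h8
      intro hne
      have hne1 := right_ne_zero_of_mul hne
      have h9 := h6 (mul_ne_zero (pow_ne_zero _ h8.1) hne1)
      rw [v.map_mul (pow_ne_zero _ h8.1) hne1, v.map_pow h8.1, h8.2.2] at h9
      rw [v.map_mul (pow_ne_zero _ h8.2.1) hne1, v.map_pow h8.2.1]
      exact h9
  have hzi' : v.Ge ((i : ℕ) * v z) (z ^ (i : ℕ)) := RVal.Ge.of_le (by rw [v.map_pow hz0.1])
  exact (h7.mul hzi').mono (by linarith)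

/-- **Bounded distortion goes up along `z`.** -/
theorem OI.step (hz : TL v A z s) {C : ℝ} (ho : OI p v A t C) (htA : ∀ i, t i ∈ A)
    (ht0 : ∀ i, t i ≠ 0) :
    OI p v (cadj v A z) (Fin.snoc t z : Fin (n + 1) → Ω) (C + (p - 1 : ℕ) * (s - v z)) := by
  classical
  intro c hc b hb α
  have hz0 : z ≠ 0 ∧ v z < s := by
    have := hz.far 0 (isAlgebraic_zero)
    rwa [sub_zero] at this
  have hp : 0 < (p : ℝ) := by exact_mod_cast (Fact.out : p.Prime).pos
  set C' := C + (p - 1 : ℕ) * (s - v z) with hC'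
  set M := max b (b - C') with hM
  have htz : ∀ i, (Fin.snoc t z : Fin (n + 1) → Ω) i ≠ 0 := by
    intro i
    refine Fin.lastCases ?_ (fun j => ?_) i
    · rw [Fin.snoc_last]
      exact hz0.1
    · rw [Fin.snoc_castSucc]
      exact ht0 j
  choose f hf hfd using fun α => hz.dense (hc α)
    ((M - v (mon (Fin.snoc t z : Fin (n + 1) → Ω) α)) / p)
  have hd : ∀ α, v.Ge M ((c α ^ p - (f α).eval z ^ p) *
      mon (Fin.snoc t z : Fin (n + 1) → Ω) α) := by
    intro α
    have h1 : c α ^ p - (f α).eval z ^ p = (c α - (f α).eval z) ^ p := by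
      rw [sub_pow_char]
    rw [h1]
    refine ((ge_pow (hfd α) p).mul (RVal.ge_self _)).mono ?_
    rw [mul_div_cancel₀ _ hp.ne']
    linarith
  have h1 : v.Ge b (pcomb (Fin.snoc t z : Fin (n + 1) → Ω) fun α => (f α).eval z) := by
    have h2 : pcomb (Fin.snoc t z : Fin (n + 1) → Ω) (fun α => (f α).eval z) =
        pcomb (Fin.snoc t z : Fin (n + 1) → Ω) c -
          ∑ α, (c α ^ p - (f α).eval z ^ p) * mon (Fin.snoc t z : Fin (n + 1) → Ω) α := by
      rw [pcomb, pcomb, ← Finset.sum_sub_distrib]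
      refine Finset.sum_congr rfl fun α _ => ?_
      ring
    rw [h2]
    exact hb.sub (RVal.Ge.sum _ _ fun α _ => (hd α).mono (le_max_left _ _))
  have h2 := OI.step_poly hz ho htA f hf h1 α
  rw [show c α ^ p * mon (Fin.snoc t z : Fin (n + 1) → Ω) α =
    (f α).eval z ^ p * mon (Fin.snoc t z : Fin (n + 1) → Ω) α +
      (c α ^ p - (f α).eval z ^ p) * mon (Fin.snoc t z : Fin (n + 1) → Ω) α by ring]
  exact h2.add ((hd α).mono (le_max_right _ _))

end Step

end Pool.Agent.TWM
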