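import Pool.Agent.Lib.TWM.LogC
import Pool.Agent.Lib.TWM.Lau
import Pool.Agent.Lib.TW.Defs

/-!
# TANK W, M2: the monomials of `x`, the field `N` (A9, A10)

`x : Fin r → Ω` with rationally independent values. `vl v x l` is the value of `x^l`, `GG v x` the
group of these values, `MM v x g` the monomial of value `g`.
-/

set_option autoImplicit false

open Polynomial

namespace Pool.Agent.TWM

open Pool.Agent.H15JM (RVal)
open Pool.Agent.LU1 (VPos adj)
open Pool.Agent.LUC (Cl clF)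
open Pool.Agent.D2 (Ctx0)
open Pool.Agent.D2P (hen clI mem_clI rootF mem_rootF)
open Pool.Agent.TW (mx)

universe u

section mon

variable {Ω : Type u} [Field Ω] {v : RVal Ω} {r : ℕ}

/-- The value of `x^l`. -/
noncomputable def vl (v : RVal Ω) (x : Fin r → Ω) : (Fin r → ℤ) →+ ℝ where
  toFun l := ∑ i, (l i : ℝ) * v (x i)
  map_zero' := by simp
  map_add' a b := by
    rw [← Finset.sum_add_distrib]
    exact Finset.sum_congr rfl fun i _ => by rw [Pi.add_apply]; push_cast; ring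

theorem vl_apply (x : Fin r → Ω) (l : Fin r → ℤ) : vl v x l = ∑ i, (l i : ℝ) * v (x i) := rfl

theorem mx_ne {x : Fin r → Ω} (hx : ∀ i, x i ≠ 0) (l : Fin r → ℤ) : mx x l ≠ 0 :=
  Finset.prod_ne_zero_iff.2 fun i _ => zpow_ne_zero _ (hx i)

theorem v_mx {x : Fin r → Ω} (hx : ∀ i, x i ≠ 0) (l : Fin r → ℤ) : v (mx x l) = vl v x l := by
  rw [mx, v.map_prod _ _ fun i _ => zpow_ne_zero _ (hx i), vl_apply]
  exact Finset.sum_congr rfl fun i _ => v.map_zpow (hx i) (l i)

theorem mx_add {x : Fin r → Ω} (hx : ∀ i, x i ≠ 0) (l m : Fin r → ℤ) :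
    mx x (l + m) = mx x l * mx x m := by
  rw [mx, mx, mx, ← Finset.prod_mul_distrib]
  exact Finset.prod_congr rfl fun i _ => by rw [Pi.add_apply, zpow_add₀ (hx i)]

theorem mx_pow (x : Fin r → Ω) (l : Fin r → ℤ) (q : ℕ) : mx x (q • l) = mx x l ^ q := by
  rw [mx, mx, ← Finset.prod_pow]
  refine Finset.prod_congr rfl fun i _ => ?_
  rw [Pi.smul_apply, nsmul_eq_mul, mul_comm, zpow_mul, zpow_natCast]

theorem vl_inj {x : Fin r → Ω} (hind : LinearIndependent ℚ fun i => v (x i)) :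
    Function.Injective (vl v x) := by
  rw [injective_iff_map_eq_zero]
  intro l hl
  rw [Fintype.linearIndependent_iff] at hind
  have h1 := hind (fun i => (l i : ℚ)) (by
    rw [vl_apply] at hl
    rw [← hl]
    refine Finset.sum_congr rfl fun i _ => ?_
    rw [Rat.smul_def]
    push_cast
    rfl)
  funext i
  exact_mod_cast h1 i

/-- The values of the monomials. -/
noncomputable def GG (v : RVal Ω) (x : Fin r → Ω) : AddSubgroup ℝ := (vl v x).range

theorem vl_mem (x : Fin r → Ω) (l : Fin r → ℤ) : vl v x l ∈ GG v x := ⟨l, rfl⟩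

theorem mem_GG {x : Fin r → Ω} {g : ℝ} : g ∈ GG v x ↔ ∃ l, vl v x l = g := Iff.rfl

theorem vx_mem (x : Fin r → Ω) (i : Fin r) : v (x i) ∈ GG v x := by
  classical
  refine ⟨Pi.single i 1, ?_⟩
  rw [vl_apply, Finset.sum_eq_single i]
  · rw [Pi.single_eq_same]; simp
  · intro j _ hj
    rw [Pi.single_eq_of_ne hj]; simp
  · intro h; exact absurd (Finset.mem_univ i) h

theorem GG_eq (x : Fin r → Ω) : GG v x = AddSubgroup.closure (Set.range fun i => v (x i)) := by
  apply le_antisymm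
  · rintro _ ⟨l, rfl⟩
    rw [vl_apply]
    refine sum_mem fun i _ => ?_
    have h1 := AddSubgroup.zsmul_mem (AddSubgroup.closure (Set.range fun i => v (x i)))
      (AddSubgroup.subset_closure ⟨i, rfl⟩) (l i)
    rwa [zsmul_eq_mul] at h1
  · rw [AddSubgroup.closure_le]
    rintro _ ⟨i, rfl⟩
    exact vx_mem x i

theorem GG_fg (x : Fin r → Ω) : (GG v x).FG := by
  classical
  refine ⟨Finset.univ.image fun i => v (x i), ?_⟩
  rw [GG_eq]
  congr 1
  ext g
  simp

open Classical in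
/-- The monomial of value `g`. -/
noncomputable def MM (v : RVal Ω) (x : Fin r → Ω) (g : ℝ) : Ω :=
  if h : ∃ l, vl v x l = g then mx x (Classical.choose h) else 1

theorem MM_vl {x : Fin r → Ω} (hind : LinearIndependent ℚ fun i => v (x i)) (l : Fin r → ℤ) :
    MM v x (vl v x l) = mx x l := by
  have h : ∃ l', vl v x l' = vl v x l := ⟨l, rfl⟩
  rw [MM, dif_pos h, vl_inj hind (Classical.choose_spec h)]

theorem MS_MM {x : Fin r → Ω} (hx : ∀ i, x i ≠ 0) (hind : LinearIndependent ℚ fun i => v (x i)) :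
    MS v (GG v x) (MM v x) where
  ne := by
    rintro _ ⟨l, rfl⟩
    rw [MM_vl hind]
    exact mx_ne hx l
  val := by
    rintro _ ⟨l, rfl⟩
    rw [MM_vl hind, v_mx hx]
  mul := by
    rintro _ ⟨l, rfl⟩ _ ⟨m, rfl⟩
    rw [← map_add, MM_vl hind, MM_vl hind, MM_vl hind, mx_add hx]

theorem MM_x {x : Fin r → Ω} (hind : LinearIndependent ℚ fun i => v (x i)) (i : Fin r) :
    MM v x (v (x i)) = x i := by
  classical
  have h1 : vl v x (Pi.single i 1) = v (x i) := by
    rw [vl_apply, Finset.sum_eq_single i]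
    · rw [Pi.single_eq_same]; simp
    · intro j _ hj
      rw [Pi.single_eq_of_ne hj]; simp
    · intro h; exact absurd (Finset.mem_univ i) h
  rw [← h1, MM_vl hind, mx, Finset.prod_eq_single i]
  · rw [Pi.single_eq_same, zpow_one]
  · intro j _ hj
    rw [Pi.single_eq_of_ne hj, zpow_zero]
  · intro h; exact absurd (Finset.mem_univ i) h

end mon

/-! ### The closure of a ring -/

section ring

variable {Ω : Type u} [Field Ω] {v : RVal Ω}

/-- The closure of a subring. -/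
def ClR (v : RVal Ω) (A : Subring Ω) : Subring Ω where
  carrier := {a | ∀ c : ℝ, ∃ l ∈ A, v.Ge c (a - l)}
  mul_mem' := by
    intro a b ha hb c
    obtain ⟨l', hl', h'⟩ := hb (c - v a)
    obtain ⟨l, hl, h⟩ := ha (c - v l')
    refine ⟨l * l', A.mul_mem hl hl', ?_⟩
    have h1 := (v.ge_self a).mul h'
    have h2 := h.mul (v.ge_self l')
    rw [add_sub_cancel] at h1
    rw [sub_add_cancel] at h2
    have h3 := h1.add h2
    rwa [show a * (b - l') + (a - l) * l' = a * b - l * l' by ring] at h3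
  one_mem' := fun _ => ⟨1, A.one_mem, by rw [sub_self]; exact RVal.Ge.zero⟩
  add_mem' := by
    intro a b ha hb c
    obtain ⟨l, hl, h⟩ := ha c
    obtain ⟨l', hl', h'⟩ := hb c
    refine ⟨l + l', A.add_mem hl hl', ?_⟩
    have := h.add h'
    rwa [show a - l + (b - l') = a + b - (l + l') by ring] at this
  zero_mem' := fun _ => ⟨0, A.zero_mem, by rw [sub_self]; exact RVal.Ge.zero⟩
  neg_mem' := by
    intro a ha c
    obtain ⟨l, hl, h⟩ := ha c
    refine ⟨-l, A.neg_mem hl, ?_⟩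
    have := h.neg
    rwa [show -(a - l) = -a - -l by ring] at this

theorem mem_ClR {A : Subring Ω} {a : Ω} : a ∈ ClR v A ↔ ∀ c : ℝ, ∃ l ∈ A, v.Ge c (a - l) := Iff.rfl

theorem le_ClR (A : Subring Ω) : A ≤ ClR v A := fun a ha _ =>
  ⟨a, ha, by rw [sub_self]; exact RVal.Ge.zero⟩

theorem ClR_ClR {A : Subring Ω} {a : Ω} (h : a ∈ ClR v (ClR v A)) : a ∈ ClR v A := by
  intro c
  obtain ⟨l, hl, h1⟩ := h c
  obtain ⟨l', hl', h2⟩ := hl c
  refine ⟨l', hl', ?_⟩
  have := h1.add h2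
  rwa [show a - l + (l - l') = a - l' by ring] at this

/-- The closure of a ring is a field if the nonzero elements of the ring have leading terms. -/
theorem ClR_inv {A : Subring Ω}
    (hA : ∀ l ∈ A, l ≠ 0 → ∃ t ∈ A, t ≠ 0 ∧ t⁻¹ ∈ A ∧ v t = v l ∧ Gt v (v l) (l - t)) {a : Ω}
    (ha : a ∈ ClR v A) : a⁻¹ ∈ ClR v A := by
  by_cases h0 : a = 0
  · rw [h0, inv_zero]; exact (ClR v A).zero_mem
  -- the elements of `A`
  have key : ∀ l ∈ A, l ≠ 0 → l⁻¹ ∈ ClR v A := by
    intro l hl hl0 c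
    obtain ⟨t, ht, ht0, hti, hv, hgt⟩ := hA l hl hl0
    by_cases hlt : l - t = 0
    · rw [sub_eq_zero] at hlt
      exact ⟨t⁻¹, hti, by rw [hlt, sub_self]; exact RVal.Ge.zero⟩
    set u := (l - t) * t⁻¹ with hu
    have hu0 : u ≠ 0 := mul_ne_zero hlt (inv_ne_zero ht0)
    have hvu : 0 < v u := by
      rw [hu, v.map_mul hlt (inv_ne_zero ht0), v.map_inv ht0, hv]
      linarith [hgt hlt]
    have hl' : l = t * (1 + u) := by
      rw [hu]
      field_simp
      ring
    obtain ⟨n, hn⟩ := exists_nat_gt ((c + v l) / v u)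
    have hn' : c + v l < n * v u := (div_lt_iff₀ hvu).1 hn
    refine ⟨t⁻¹ * ∑ i ∈ Finset.range n, (-u) ^ i, A.mul_mem hti (A.sum_mem fun i _ =>
      A.pow_mem (A.neg_mem (A.mul_mem (A.sub_mem hl ht) hti)) i), ?_⟩
    have h1 : l⁻¹ - t⁻¹ * ∑ i ∈ Finset.range n, (-u) ^ i = l⁻¹ * (-u) ^ n := by
      have h2 := mul_neg_geom_sum (-u) n
      have h3 : (1 + u) * ∑ i ∈ Finset.range n, (-u) ^ i = 1 - (-u) ^ n := by
        rw [← h2]; ring
      have h4 : l⁻¹ * (t * (1 + u)) = 1 := by rw [← hl', inv_mul_cancel₀ hl0]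
      have h5 : l⁻¹ * t * (1 - (-u) ^ n) = ∑ i ∈ Finset.range n, (-u) ^ i := by
        rw [← h3]
        linear_combination (∑ i ∈ Finset.range n, (-u) ^ i) * h4
      have h6 : t⁻¹ * ∑ i ∈ Finset.range n, (-u) ^ i = l⁻¹ * (1 - (-u) ^ n) := by
        rw [← h5]
        field_simp
      rw [h6]
      ring
    rw [h1]
    intro _
    have hnu : -u ≠ 0 := neg_ne_zero.2 hu0
    rw [v.map_mul (inv_ne_zero hl0) (pow_ne_zero n hnu), v.map_inv hl0, v.map_pow hnu,
      v.map_neg u hu0]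
    linarith
  apply ClR_ClR
  intro c
  obtain ⟨l, hl, h1⟩ := ha (max (v a + 1) (c + 2 * v a))
  have h2 : Gt v (v a) (a - l) := Gt.of_ge (h1.mono (le_max_left _ _)) (by linarith)
  obtain ⟨hl0, hvl⟩ := h2.val_eq h0
  refine ⟨l⁻¹, key l hl hl0, ?_⟩
  have h3 : a⁻¹ - l⁻¹ = -((a - l) * (a⁻¹ * l⁻¹)) := by
    field_simp
    ring
  rw [h3]
  refine RVal.Ge.neg ?_
  have h4 : v.Ge (-(2 * v a)) (a⁻¹ * l⁻¹) := fun _ => by
    rw [v.map_mul (inv_ne_zero h0) (inv_ne_zero hl0), v.map_inv h0, v.map_inv hl0, hvl]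
    linarith
  have h5 := (h1.mono (le_max_right _ _)).mul h4
  rwa [add_neg_cancel_right] at h5

end ring

/-! ### The Laurent polynomials -/

section NN

variable {k Ω : Type u} [Field k] [Field Ω] [Algebra k Ω] {v : RVal Ω} {r : ℕ} {x : Fin r → Ω}

/-- The additive group of the Laurent polynomials with exponents in `G`. -/
def LG (k : Type u) {Ω : Type u} [Field k] [Field Ω] [Algebra k Ω] (G : AddSubgroup ℝ)
    (M : ℝ → Ω) : AddSubgroup Ω where
  carrier := {a | ∃ L : ℝ →₀ k, InG G L ∧ a = evL M L}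
  add_mem' := by
    rintro _ _ ⟨L, hL, rfl⟩ ⟨L', hL', rfl⟩
    exact ⟨L + L', hL.add hL', (evL_add L L').symm⟩
  zero_mem' := ⟨0, fun g hg => absurd rfl hg, evL_zero.symm⟩
  neg_mem' := by
    rintro _ ⟨L, hL, rfl⟩
    exact ⟨-L, hL.neg, (evL_neg L).symm⟩

theorem mono_mem_LG {G : AddSubgroup ℝ} {M : ℝ → Ω} {g : ℝ} (hg : g ∈ G) (a : k) :
    algebraMap k Ω a * M g ∈ LG k G M := by
  classical
  refine ⟨Finsupp.single g a, fun g' hg' => ?_, (evL_single g a).symm⟩
  rw [Finsupp.single_apply] at hg'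
  split_ifs at hg' with h
  · rwa [← h]
  · exact absurd rfl hg'

/-- The ring of the Laurent polynomials. -/
def LR {G : AddSubgroup ℝ} {M : ℝ → Ω} (k : Type u) [Field k] [Algebra k Ω] (hM : MS v G M) :
    Subring Ω :=
  { LG k G M with
    mul_mem' := by
      rintro _ _ ⟨L, hL, rfl⟩ ⟨L', hL', rfl⟩
      show evL M L * evL M L' ∈ LG k G M
      rw [evL, evL, Finsupp.sum, Finsupp.sum, Finset.sum_mul]
      refine sum_mem fun g hg => ?_
      rw [Finset.mul_sum]
      refine sum_mem fun g' hg' => ?_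
      have h1 := hL g (Finsupp.mem_support_iff.1 hg)
      have h2 := hL' g' (Finsupp.mem_support_iff.1 hg')
      have h3 := mono_mem_LG (M := M) (G.add_mem h1 h2) (L g * L' g')
      rw [hM.mul g h1 g' h2, map_mul] at h3
      rwa [show algebraMap k Ω (L g) * algebraMap k Ω (L' g') * (M g * M g') =
        algebraMap k Ω (L g) * M g * (algebraMap k Ω (L' g') * M g') by ring] at h3
    one_mem' := by
      show (1 : Ω) ∈ LG k G M
      have h1 := mono_mem_LG (k := k) (M := M) G.zero_mem 1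
      rwa [map_one, hM.zero, one_mul] at h1 }

theorem mem_LR {G : AddSubgroup ℝ} {M : ℝ → Ω} {hM : MS v G M} {a : Ω} :
    a ∈ LR k hM ↔ ∃ L : ℝ →₀ k, InG G L ∧ a = evL M L := Iff.rfl

theorem LR_lead (h : Ctx0 k v) {G : AddSubgroup ℝ} {M : ℝ → Ω} (hM : MS v G M) :
    ∀ l ∈ LR k hM, l ≠ 0 → ∃ t ∈ LR k hM, t ≠ 0 ∧ t⁻¹ ∈ LR k hM ∧ v t = v l ∧
      Gt v (v l) (l - t) := by
  classical
  rintro _ ⟨L, hL, rfl⟩ h0
  have hL0 : L ≠ 0 := by rintro rfl; exact h0 evL_zero
  obtain ⟨m, hm, hmin, h1, h2⟩ := evL_lead h hM hL hL0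
  have hmG := hL m hm
  obtain ⟨h3, h4⟩ := term_val h hM hmG hm
  refine ⟨algebraMap k Ω (L m) * M m, mono_mem_LG hmG _, h3, ?_, by rw [h2, h4], ?_⟩
  · have h5 := mono_mem_LG (M := M) (G.neg_mem hmG) (L m)⁻¹
    rwa [hM.neg hmG, map_inv₀, ← mul_inv] at h5
  · have h5 : evL M L - algebraMap k Ω (L m) * M m = evL M (L.erase m) := by
      rw [← evL_single, ← evL_sub]
      congr 1
      rw [← Finsupp.single_add_erase m L]
      simp
    rw [h5, h2]
    refine evL_gt h hM ?_ fun g hg => ?_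
    · intro g hg
      refine hL g fun h6 => hg ?_
      rw [Finsupp.erase_apply]
      split_ifs
      · rfl
      · exact h6
    · rw [Finsupp.erase_apply] at hg
      split_ifs at hg with h6
      · exact absurd rfl hg
      · exact lt_of_le_of_ne (hmin g hg) (Ne.symm h6)

/-- The closure of the ring of the Laurent polynomials, a field. -/
def LF (h : Ctx0 k v) {G : AddSubgroup ℝ} {M : ℝ → Ω} (hM : MS v G M) :
    IntermediateField k Ω :=
  Subfield.toIntermediateField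
    { ClR v (LR k hM) with
      inv_mem' := fun _ ha => ClR_inv (LR_lead h hM) ha }
    fun c => le_ClR _ (by
      have h1 := mono_mem_LG (M := M) G.zero_mem c
      rwa [hM.zero, mul_one] at h1)

theorem NN_le_LF (h : Ctx0 k v) (hx : ∀ i, x i ≠ 0)
    (hind : LinearIndependent ℚ fun i => v (x i)) : NN k v x ≤ LF h (MS_MM hx hind) := by
  have h1 : IntermediateField.adjoin k (Set.range x) ≤ LF h (MS_MM hx hind) := by
    rw [IntermediateField.adjoin_le_iff]
    rintro _ ⟨i, rfl⟩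
    refine le_ClR _ ?_
    have h2 := mono_mem_LG (k := k) (M := MM v x) (vx_mem (v := v) x i) 1
    rwa [MM_x hind, map_one, one_mul] at h2
  intro a ha
  refine ClR_ClR (A := LR k (MS_MM hx hind)) fun c => ?_
  obtain ⟨a', ha', h2⟩ := (mem_clI.1 ha) c
  exact ⟨a', h1 ha', h2⟩

/-- **The Laurent polynomials are dense in `N`.** -/
theorem NN_dense (h : Ctx0 k v) (hx : ∀ i, x i ≠ 0)
    (hind : LinearIndependent ℚ fun i => v (x i)) : LDense v (GG v x) (MM v x) (NN k v x) := by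
  intro a ha b
  obtain ⟨l, ⟨L, hL, rfl⟩, h1⟩ := NN_le_LF h hx hind ha b
  exact ⟨L, hL, h1⟩

theorem NN_cld (x : Fin r → Ω) : Cld v (NN k v x) := cld_clI v _

theorem x_mem_NN (x : Fin r → Ω) (i : Fin r) : x i ∈ NN k v x := by
  rw [NN, mem_clI]
  exact LUC.Cl.subset (IntermediateField.subset_adjoin k _ ⟨i, rfl⟩)

theorem mx_mem_NN (x : Fin r → Ω) (l : Fin r → ℤ) : mx x l ∈ NN k v x :=
  prod_mem fun i _ => zpow_mem (x_mem_NN x i) _

theorem MM_mem {F : IntermediateField k Ω} (hind : LinearIndependent ℚ fun i => v (x i))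
    (hF : ∀ i, x i ∈ F) : ∀ g ∈ GG v x, MM v x g ∈ F := by
  rintro _ ⟨l, rfl⟩
  rw [MM_vl hind]
  exact prod_mem fun i _ => zpow_mem (hF i) _

theorem NN_le {F : IntermediateField k Ω} (hF : Cld v F) (hx : ∀ i, x i ∈ F) : NN k v x ≤ F := by
  intro a ha
  refine hF ?_
  rw [mem_clI]
  intro c
  obtain ⟨a', ha', h2⟩ := (mem_clI.1 ha) c
  refine ⟨a', ?_, h2⟩
  have h1 : IntermediateField.adjoin k (Set.range x) ≤ F := by
    rw [IntermediateField.adjoin_le_iff]
    rintro _ ⟨i, rfl⟩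
    exact hx i
  exact h1 ha'

theorem vg_of_imm (h : Ctx0 k v) (hx : ∀ i, x i ≠ 0)
    (hind : LinearIndependent ℚ fun i => v (x i)) {B : IntermediateField k Ω}
    (hB : Imm v (NN k v x) B) : VG v (GG v x) B := fun _ hb h0 =>
  val_mem h (MS_MM hx hind) (NN_dense h hx hind) hB hb h0

theorem imm_self (N : IntermediateField k Ω) : Imm v N N :=
  ⟨le_rfl, fun b hb _ => ⟨b, hb, by rw [sub_self]; exact Gt.zero⟩⟩

end NN

end Pool.Agent.TWM
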