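import Pool.Agent.Lib.TWM.S4

/-!
# TANK W, M2, row S3: Gauss norms in one and two variables

* the API of `GB` and of `GB2` (sums, products, powers, limits, change of the centre);
* S3.1 `GB2_iff`: at `(y, z)`, `y` of transcendental type over `N` and `z` a limit of `N`, the Gauss
  norm in two variables of a polynomial over `N` is the one in one variable over `N(y)`;
* S3.2 `T2_high`: the same for the indices `> S`;
* S3.7 `exists_PII_near`: density.
-/

set_option autoImplicit false

open Polynomial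

namespace Pool.Agent.TWM

open Pool.Agent.H15JM (RVal)

universe u

/-! ### One variable -/

section One

variable {Ω : Type u} [Field Ω] {v : RVal Ω} {b b' c lam lam' : ℝ} {f g : Polynomial Ω}

/-- Limits. -/
theorem ge_of_eps {x : Ω} (h : ∀ ε : ℝ, 0 < ε → v.Ge (c - ε) x) : v.Ge c x := by
  intro h0
  refine le_of_forall_pos_sub_le fun ε hε => ?_
  exact h ε hε h0

/-- Limits, with a factor. -/
theorem ge_of_eps_mul {x : Ω} (D : ℝ) (hD : 0 ≤ D) (h : ∀ ε : ℝ, 0 < ε → v.Ge (c - D * ε) x) :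
    v.Ge c x := by
  refine ge_of_eps fun ε hε => ?_
  have hD1 : 0 < D + 1 := by linarith
  refine (h (ε / (D + 1)) (div_pos hε hD1)).mono ?_
  have h1 : D * (ε / (D + 1)) ≤ ε := by
    rw [mul_div_assoc', div_le_iff₀ hD1]
    nlinarith
  linarith

theorem GB.zero : GB v b lam (0 : Polynomial Ω) := fun m => by
  rw [coeff_zero]
  exact RVal.Ge.zero

theorem GB.add (hf : GB v b lam f) (hg : GB v b lam g) : GB v b lam (f + g) := fun m => by
  rw [coeff_add]
  exact (hf m).add (hg m)

theorem GB.neg (hf : GB v b lam f) : GB v b lam (-f) := fun m => by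
  rw [coeff_neg]
  exact (hf m).neg

theorem GB.sub (hf : GB v b lam f) (hg : GB v b lam g) : GB v b lam (f - g) := fun m => by
  rw [coeff_sub]
  exact (hf m).sub (hg m)

theorem GB.mono (hf : GB v b lam f) (h : lam' ≤ lam) : GB v b lam' f := GB_mono h hf

theorem GB.mul (hf : GB v b lam f) (hg : GB v b lam' g) : GB v b (lam + lam') (f * g) := by
  intro m
  rw [coeff_mul]
  refine RVal.Ge.sum _ _ fun x hx => ?_
  have hx' : x.1 + x.2 = m := by simpa using hx
  refine (RVal.Ge.mul (hf x.1) (hg x.2)).mono ?_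
  rw [← hx']
  push_cast
  linarith

theorem GB.C {x : Ω} (hx : v.Ge lam x) : GB v b lam (Polynomial.C x) := by
  intro m
  rw [coeff_C]
  split_ifs with h
  · subst h
    refine hx.mono ?_
    simp
  · exact RVal.Ge.zero

theorem GB.X : GB v b b (Polynomial.X : Polynomial Ω) := by
  intro m
  rw [coeff_X]
  split_ifs with h
  · subst h
    intro _
    rw [v.map_one]
    simp
  · exact RVal.Ge.zero

theorem GB.one : GB v b 0 (1 : Polynomial Ω) := by
  rw [← C_1]
  exact GB.C fun _ => by rw [v.map_one]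

theorem GB.pow (hf : GB v b lam f) (n : ℕ) : GB v b (n * lam) (f ^ n) := by
  induction n with
  | zero =>
    rw [pow_zero, Nat.cast_zero, zero_mul]
    exact GB.one
  | succ n ih =>
    rw [pow_succ]
    exact (ih.mul hf).mono (by push_cast; linarith)

theorem GB.C_mul {x : Ω} (hx : v.Ge lam x) (hf : GB v b lam' f) :
    GB v b (lam + lam') (Polynomial.C x * f) := (GB.C hx).mul hf

theorem GB.sum {ι : Type*} (S : Finset ι) (F : ι → Polynomial Ω)
    (hF : ∀ i ∈ S, GB v b lam (F i)) : GB v b lam (∑ i ∈ S, F i) := fun m => by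
  rw [finsetSum_coeff]
  exact RVal.Ge.sum _ _ fun i hi => hF i hi m

theorem GB.of_eps (h : ∀ ε : ℝ, 0 < ε → GB v b (lam - ε) f) : GB v b lam f := fun m =>
  ge_of_eps fun ε hε => (h ε hε m).mono (by linarith)

/-- A bigger radius. -/
theorem GB.radius_le (hf : GB v b lam f) (h : b ≤ b') : GB v b' lam f := fun m => by
  refine (hf m).mono ?_
  have : (0 : ℝ) ≤ m := Nat.cast_nonneg m
  nlinarith

theorem GB.eval (hf : GB v b lam f) {z : Ω} (hz : v.Ge b z) : v.Ge lam (f.eval z) := by
  rw [eval_eq_sum_range]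
  refine RVal.Ge.sum _ _ fun m _ => ?_
  refine (RVal.Ge.mul (hf m) (ge_pow hz m)).mono ?_
  linarith

theorem GB.taylor (hf : GB v b lam f) {ψ : Ω} (hψ : v.Ge b ψ) :
    GB v b lam (Polynomial.taylor ψ f) := GB_taylor hψ hf

/-- Change of the centre, for the coefficients of index `≥ l`. -/
theorem taylor_centre {l : ℕ} {z z' : Ω} (hz : v.Ge b (z' - z))
    (h : ∀ n, l ≤ n → v.Ge (lam - n * b) ((Polynomial.taylor z f).coeff n)) :
    ∀ n, l ≤ n → v.Ge (lam - n * b) ((Polynomial.taylor z' f).coeff n) := by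
  have h1 : Polynomial.taylor z' f = Polynomial.taylor (z' - z) (Polynomial.taylor z f) := by
    rw [taylor_taylor, sub_add_cancel]
  rw [h1]
  exact taylor_ge hz h

/-- Change of the centre. -/
theorem GB.centre {z z' : Ω} (hz : v.Ge b (z' - z)) (h : GB v b lam (Polynomial.taylor z f)) :
    GB v b lam (Polynomial.taylor z' f) := fun m =>
  taylor_centre (l := 0) hz (fun n _ => h n) m (Nat.zero_le m)

/-- The centre `0`. -/
theorem GB.of_taylor {z : Ω} (hz : v.Ge b z) (h : GB v b lam (Polynomial.taylor z f)) :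
    GB v b lam f := by
  have h1 := GB.centre (z' := 0) (z := z) (by rw [zero_sub]; exact hz.neg) h
  rwa [taylor_zero] at h1

/-- Gauss bounds of `f` and at the centre `z`. -/
theorem GB_taylor_iff {z : Ω} (hz : v.Ge b z) :
    GB v b lam (Polynomial.taylor z f) ↔ GB v b lam f :=
  ⟨GB.of_taylor hz, fun h => h.taylor hz⟩

end One

/-! ### Two variables -/

section Two

variable {Ω : Type u} [Field Ω] {v : RVal Ω} {y z y' z' : Ω} {ρ s lam lam' : ℝ}
  {P Q : Polynomial (Polynomial Ω)}

theorem T2_zero (i j : ℕ) : T2 y z (0 : Polynomial (Polynomial Ω)) i j = 0 := by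
  rw [T2, map_zero, coeff_zero, map_zero, coeff_zero]

theorem T2_add (i j : ℕ) : T2 y z (P + Q) i j = T2 y z P i j + T2 y z Q i j := by
  rw [T2, map_add, coeff_add, map_add, coeff_add]
  rfl

theorem T2_neg (i j : ℕ) : T2 y z (-P) i j = -T2 y z P i j := by
  rw [T2, map_neg, coeff_neg, map_neg, coeff_neg]
  rfl

theorem T2_sub (i j : ℕ) : T2 y z (P - Q) i j = T2 y z P i j - T2 y z Q i j := by
  rw [T2, map_sub, coeff_sub, map_sub, coeff_sub]
  rfl

theorem T2_mul (i j : ℕ) : T2 y z (P * Q) i j =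
    ∑ x ∈ Finset.HasAntidiagonal.antidiagonal j, ∑ x' ∈ Finset.HasAntidiagonal.antidiagonal i,
      T2 y z P x'.1 x.1 * T2 y z Q x'.2 x.2 := by
  rw [T2, taylor_mul, coeff_mul, map_sum, finsetSum_coeff]
  refine Finset.sum_congr rfl fun x _ => ?_
  rw [taylor_mul, coeff_mul]
  rfl

theorem T2_sum {ι : Type*} (S : Finset ι) (F : ι → Polynomial (Polynomial Ω)) (i j : ℕ) :
    T2 y z (∑ a ∈ S, F a) i j = ∑ a ∈ S, T2 y z (F a) i j := by
  rw [T2, map_sum, finsetSum_coeff, map_sum, finsetSum_coeff]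
  rfl

/-- Polynomials in `Y`. -/
theorem T2_C (f : Polynomial Ω) (i j : ℕ) :
    T2 y z (C f) i j = if j = 0 then (taylor y f).coeff i else 0 := by
  rw [T2, taylor_C, coeff_C]
  split_ifs
  · rfl
  · rw [map_zero, coeff_zero]

/-- Polynomials in `Z`. -/
theorem T2_map_C (f : Polynomial Ω) (i j : ℕ) :
    T2 y z (f.map C) i j = if i = 0 then (taylor z f).coeff j else 0 := by
  have h1 : taylor (C z) (f.map C) = (taylor z f).map C := by
    rw [taylor_apply, taylor_apply, Polynomial.map_comp, Polynomial.map_add, map_X, map_C]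
  rw [T2, h1, coeff_map, taylor_C, coeff_C]

theorem T2_CC (c : Ω) (i j : ℕ) :
    T2 y z (C (C c)) i j = if i = 0 ∧ j = 0 then c else 0 := by
  rw [T2_C, taylor_C, coeff_C]
  by_cases hi : i = 0 <;> by_cases hj : j = 0 <;> simp [hi, hj]

theorem T2_zero_left (P : Polynomial (Polynomial Ω)) (j : ℕ) :
    T2 y z P 0 j = (taylor z (P.map (evalRingHom y))).coeff j := by
  have h1 : taylor z (P.map (evalRingHom y)) = (taylor (C z) P).map (evalRingHom y) := by
    rw [taylor_apply, taylor_apply, Polynomial.map_comp, Polynomial.map_add, map_X, map_C,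
      coe_evalRingHom, eval_C]
  rw [T2, taylor_coeff_zero, h1, coeff_map, coe_evalRingHom]

theorem T2_zero_zero (P : Polynomial (Polynomial Ω)) : T2 y z P 0 0 = P.evalEval y z := by
  rw [T2, taylor_coeff_zero, taylor_coeff_zero, evalEval]

theorem GB2.zero : GB2 v y z ρ s lam (0 : Polynomial (Polynomial Ω)) := fun i j => by
  rw [T2_zero]
  exact RVal.Ge.zero

theorem GB2.add (hP : GB2 v y z ρ s lam P) (hQ : GB2 v y z ρ s lam Q) :
    GB2 v y z ρ s lam (P + Q) := fun i j => by
  rw [T2_add]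
  exact (hP i j).add (hQ i j)

theorem GB2.neg (hP : GB2 v y z ρ s lam P) : GB2 v y z ρ s lam (-P) := fun i j => by
  rw [T2_neg]
  exact (hP i j).neg

theorem GB2.sub (hP : GB2 v y z ρ s lam P) (hQ : GB2 v y z ρ s lam Q) :
    GB2 v y z ρ s lam (P - Q) := fun i j => by
  rw [T2_sub]
  exact (hP i j).sub (hQ i j)

theorem GB2.mono (hP : GB2 v y z ρ s lam P) (h : lam' ≤ lam) : GB2 v y z ρ s lam' P :=
  fun i j => (hP i j).mono (by linarith)

theorem GB2.mul (hP : GB2 v y z ρ s lam P) (hQ : GB2 v y z ρ s lam' Q) :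
    GB2 v y z ρ s (lam + lam') (P * Q) := by
  intro i j
  rw [T2_mul]
  refine RVal.Ge.sum _ _ fun x hx => RVal.Ge.sum _ _ fun x' hx' => ?_
  have h1 : x.1 + x.2 = j := by simpa using hx
  have h2 : x'.1 + x'.2 = i := by simpa using hx'
  refine (RVal.Ge.mul (hP x'.1 x.1) (hQ x'.2 x.2)).mono ?_
  rw [← h1, ← h2]
  push_cast
  linarith

theorem GB2.CC {c : Ω} (hc : v.Ge lam c) : GB2 v y z ρ s lam (C (C c)) := by
  intro i j
  rw [T2_CC]
  split_ifs with h
  · rw [h.1, h.2]
    refine hc.mono ?_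
    simp
  · exact RVal.Ge.zero

theorem GB2.one : GB2 v y z ρ s 0 (1 : Polynomial (Polynomial Ω)) := by
  rw [← C_1, ← C_1]
  exact GB2.CC fun _ => by rw [v.map_one]

theorem GB2.pow (hP : GB2 v y z ρ s lam P) (n : ℕ) : GB2 v y z ρ s (n * lam) (P ^ n) := by
  induction n with
  | zero =>
    rw [pow_zero, Nat.cast_zero, zero_mul]
    exact GB2.one
  | succ n ih =>
    rw [pow_succ]
    exact (ih.mul hP).mono (by push_cast; linarith)

theorem GB2.sum {ι : Type*} (S : Finset ι) (F : ι → Polynomial (Polynomial Ω))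
    (hF : ∀ i ∈ S, GB2 v y z ρ s lam (F i)) : GB2 v y z ρ s lam (∑ i ∈ S, F i) := fun i j => by
  rw [T2_sum]
  exact RVal.Ge.sum _ _ fun a ha => hF a ha i j

theorem GB2.of_eps (h : ∀ ε : ℝ, 0 < ε → GB2 v y z ρ s (lam - ε) P) : GB2 v y z ρ s lam P :=
  fun i j => ge_of_eps fun ε hε => (h ε hε i j).mono (by linarith)

/-- A polynomial in `Y`. -/
theorem GB2.C {f : Polynomial Ω} (hf : GB v ρ lam (taylor y f)) : GB2 v y z ρ s lam (C f) := by
  intro i j
  rw [T2_C]
  split_ifs with h
  · subst h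
    refine (hf i).mono ?_
    simp
  · exact RVal.Ge.zero

/-- A polynomial in `Z`. -/
theorem GB2.map_C {f : Polynomial Ω} (hf : GB v s lam (taylor z f)) :
    GB2 v y z ρ s lam (f.map Polynomial.C) := by
  intro i j
  rw [T2_map_C]
  split_ifs with h
  · subst h
    refine (hf j).mono ?_
    simp
  · exact RVal.Ge.zero

theorem GB2.evalEval (h : GB2 v y z ρ s lam P) : v.Ge lam (P.evalEval y z) := by
  have h1 := h 0 0
  rw [T2_zero_zero] at h1
  refine h1.mono ?_
  simp

/-- The easy half of S3.1. -/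
theorem GB2.left (h : GB2 v y z ρ s lam P) :
    GB v s lam (taylor z (P.map (evalRingHom y))) := fun j => by
  rw [← T2_zero_left]
  refine (h 0 j).mono ?_
  simp

end Two

end Pool.Agent.TWM
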