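import Pool.Agent.Lib.TWM.NNx

/-!
# TANK W, M2: roots and powers of `N` (A9, A10)

`x1 i ^ q = x i`: the group of the values of the monomials of `x1` is `1/q` times the one of `x`.
-/

set_option autoImplicit false

open Polynomial

namespace Pool.Agent.TWM

open Pool.Agent.H15JM (RVal)
open Pool.Agent.LU1 (VPos adj)
open Pool.Agent.LUC (Cl clF)
open Pool.Agent.D2 (Ctx0)
open Pool.Agent.D2P (hen clI mem_clI rootF mem_rootF)
open Pool.Agent.TW (mx)

universe u

/-- `x1` is a `q`-th root of `x`. -/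
structure RD {Ω : Type u} [Field Ω] {r : ℕ} (v : RVal Ω) (x x1 : Fin r → Ω) (q : ℕ) : Prop where
  pos : 0 < q
  root : ∀ i, x1 i ^ q = x i
  ne : ∀ i, x i ≠ 0
  ind : LinearIndependent ℚ fun i => v (x i)

namespace RD

section mon

variable {Ω : Type u} [Field Ω] {v : RVal Ω} {r q : ℕ} {x x1 : Fin r → Ω}

theorem ne1 (h : RD v x x1 q) (i : Fin r) : x1 i ≠ 0 := by
  intro h0
  apply h.ne i
  rw [← h.root i, h0, zero_pow h.pos.ne']

theorem val (h : RD v x x1 q) (i : Fin r) : v (x i) = q * v (x1 i) := by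
  rw [← h.root i, v.map_pow (h.ne1 i)]

theorem vl_eq (h : RD v x x1 q) (l : Fin r → ℤ) : vl v x l = vl v x1 (q • l) := by
  rw [vl_apply, vl_apply]
  refine Finset.sum_congr rfl fun i _ => ?_
  rw [h.val i, Pi.smul_apply, nsmul_eq_mul]
  push_cast
  ring

theorem vl_eq' (h : RD v x x1 q) (l : Fin r → ℤ) : vl v x l = q * vl v x1 l := by
  rw [h.vl_eq, map_nsmul, nsmul_eq_mul]

theorem mx_eq (h : RD v x x1 q) (l : Fin r → ℤ) : mx x l = mx x1 l ^ q := by
  rw [mx, mx, ← Finset.prod_pow]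
  refine Finset.prod_congr rfl fun i _ => ?_
  rw [← h.root i, ← zpow_natCast, ← zpow_mul, ← zpow_natCast, ← zpow_mul, mul_comm]

theorem mx_eq' (h : RD v x x1 q) (l : Fin r → ℤ) : mx x l = mx x1 (q • l) := by
  rw [mx_pow, h.mx_eq]

theorem ind1 (h : RD v x x1 q) : LinearIndependent ℚ fun i => v (x1 i) := by
  have h1 : (fun i => v (x i)) = fun i => ((q : ℚ)) • v (x1 i) := by
    funext i
    rw [h.val i, Rat.smul_def]
    push_cast
    rfl
  have h2 := h.ind
  rw [h1] at h2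
  rw [Fintype.linearIndependent_iff] at h2 ⊢
  intro g hg i
  refine h2 g ?_ i
  have h3 : ∑ i, g i • (q : ℚ) • v (x1 i) = (q : ℚ) • ∑ i, g i • v (x1 i) := by
    rw [Finset.smul_sum]
    exact Finset.sum_congr rfl fun i _ => smul_comm _ _ _
  rw [h3, hg, smul_zero]

theorem GG_le (h : RD v x x1 q) : GG v x ≤ GG v x1 := by
  rintro _ ⟨l, rfl⟩
  rw [h.vl_eq]
  exact vl_mem x1 _

theorem mem_GG_iff (h : RD v x x1 q) {g : ℝ} : (q : ℝ) * g ∈ GG v x ↔ g ∈ GG v x1 := by
  constructor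
  · rintro ⟨l, hl⟩
    rw [h.vl_eq'] at hl
    have hq : (q : ℝ) ≠ 0 := by exact_mod_cast h.pos.ne'
    rw [← mul_left_cancel₀ hq hl]
    exact vl_mem x1 l
  · rintro ⟨l, rfl⟩
    rw [← h.vl_eq']
    exact vl_mem x l

theorem MM_eq (h : RD v x x1 q) {g : ℝ} (hg : g ∈ GG v x) : MM v x1 g = MM v x g := by
  obtain ⟨l, rfl⟩ := hg
  rw [MM_vl h.ind, h.vl_eq, MM_vl h.ind1, h.mx_eq']

theorem MM_pow (h : RD v x x1 q) {g : ℝ} (hg : g ∈ GG v x1) :
    MM v x (q * g) = MM v x1 g ^ q := by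
  obtain ⟨l, rfl⟩ := hg
  rw [← h.vl_eq', MM_vl h.ind, MM_vl h.ind1, h.mx_eq]

theorem ms (h : RD v x x1 q) : MS v (GG v x) (MM v x) := MS_MM h.ne h.ind

theorem ms1 (h : RD v x x1 q) : MS v (GG v x1) (MM v x1) := MS_MM h.ne1 h.ind1

/-- The representatives `x1^s`, `0 ≤ s < q`. -/
theorem exists_reps (h : RD v x x1 q) :
    ∃ T : Finset ℝ, Reps (GG v x) (GG v x1) T ∧ T.card = q ^ r := by
  classical
  have hq : (0 : ℤ) < q := by exact_mod_cast h.pos
  let f : (Fin r → Fin q) → ℝ := fun s => vl v x1 fun i => ((s i : ℕ) : ℤ)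
  have key : ∀ s s' : Fin r → Fin q, f s - f s' ∈ GG v x → s = s' := by
    rintro s s' ⟨l, hl⟩
    have h1 : vl v x1 (q • l) =
        vl v x1 ((fun i => ((s i : ℕ) : ℤ)) - fun i => ((s' i : ℕ) : ℤ)) := by
      rw [← h.vl_eq, hl, map_sub]
    have h2 := vl_inj h.ind1 h1
    funext i
    have h3 := congrFun h2 i
    rw [Pi.smul_apply, Pi.sub_apply, nsmul_eq_mul] at h3
    have h4 := (s i).2
    have h5 := (s' i).2
    have h6 : ((q : ℤ) * l i).natAbs < q := by
      rw [h3]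
      omega
    have h7 : l i = 0 := by
      by_contra hne
      have h8 : 1 ≤ (l i).natAbs := Int.natAbs_pos.2 hne
      rw [Int.natAbs_mul, Int.natAbs_natCast] at h6
      nlinarith
    rw [h7, mul_zero] at h3
    apply Fin.ext
    omega
  have hinj : Function.Injective f := fun s s' hs => key s s' (by
    rw [hs, sub_self]; exact (GG v x).zero_mem)
  refine ⟨Finset.univ.image f, ⟨h.GG_le, ?_, ?_, ?_, ?_⟩, ?_⟩
  · intro t ht
    obtain ⟨s, -, rfl⟩ := Finset.mem_image.1 ht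
    exact vl_mem x1 _
  · rintro _ ⟨l, rfl⟩
    have hs : ∀ i, (l i % q).toNat < q := fun i => by
      have h1 := Int.emod_lt_of_pos (l i) hq
      have h2 := Int.emod_nonneg (l i) hq.ne'
      omega
    refine ⟨f fun i => ⟨(l i % q).toNat, hs i⟩, Finset.mem_image_of_mem _ (Finset.mem_univ _), ?_⟩
    refine ⟨fun i => l i / q, ?_⟩
    rw [h.vl_eq]
    have h3 : l = (q • fun i => l i / (q : ℤ)) + fun i => (((l i % q).toNat : ℕ) : ℤ) := by
      funext i
      rw [Pi.add_apply, Pi.smul_apply, nsmul_eq_mul,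
        Int.toNat_of_nonneg (Int.emod_nonneg (l i) hq.ne')]
      exact (Int.mul_ediv_add_emod (l i) q).symm
    show _ = vl v x1 l - vl v x1 (fun i => (((l i % q).toNat : ℕ) : ℤ))
    rw [eq_sub_iff_add_eq, ← map_add, ← h3]
  · intro t ht t' ht' htt
    obtain ⟨s, -, rfl⟩ := Finset.mem_image.1 ht
    obtain ⟨s', -, rfl⟩ := Finset.mem_image.1 ht'
    rw [key s s' htt]
  · refine Finset.mem_image.2 ⟨fun _ => ⟨0, h.pos⟩, Finset.mem_univ _, ?_⟩
    show vl v x1 (fun _ => ((0 : ℕ) : ℤ)) = 0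
    have : (fun _ : Fin r => ((0 : ℕ) : ℤ)) = 0 := by
      funext i; simp
    rw [this, map_zero]
  · rw [Finset.card_image_of_injective _ hinj, Finset.card_univ, Fintype.card_fun,
      Fintype.card_fin, Fintype.card_fin]

end mon

section fields

variable {k Ω : Type u} [Field k] [Field Ω] [Algebra k Ω] {v : RVal Ω} {r q : ℕ}
  {x x1 : Fin r → Ω} {B : IntermediateField k Ω} {T : Finset ℝ}

theorem x_mem {F : IntermediateField k Ω} (h : RD v x x1 q) (hF : ∀ i, x1 i ∈ F) (i : Fin r) :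
    x i ∈ F := by
  rw [← h.root i]
  exact pow_mem (hF i) q

/-- The classes of `B` over `N`. -/
theorem cls (h : RD v x x1 q) (h0 : Ctx0 k v) (hT : Reps (GG v x) (GG v x1) T)
    (hB : Imm v (NN k v x) B) : Cls v (MM v x1) (GG v x) (GG v x1) T B where
  ms := h.ms1
  reps := hT
  vg := vg_of_imm h0 h.ne h.ind hB
  mon := fun g hg => by
    rw [h.MM_eq hg]
    exact hB.le (MM_mem h.ind (fun i => x_mem_NN x i) g hg)

theorem mon_mem (h : RD v x x1 q) {F : IntermediateField k Ω} (hF : NN k v x ≤ F) :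
    ∀ g ∈ GG v x, MM v x1 g ∈ F := fun g hg => by
  rw [h.MM_eq hg]
  exact hF (MM_mem h.ind (fun i => x_mem_NN x i) g hg)

theorem NN_le_NN (h : RD v x x1 q) : NN k v x ≤ NN k v x1 :=
  NN_le (NN_cld x1) (h.x_mem fun i => x_mem_NN x1 i)

/-- `N_1` is the sum of the `x1^s N`. -/
theorem NN_eq (h : RD v x x1 q) (h0 : Ctx0 k v) (hc : CompleteV v) :
    NN k v x1 = LE (MM v x1) (GG v x1) (NN k v x) := by
  obtain ⟨T, hT, -⟩ := h.exists_reps
  apply le_antisymm
  · refine NN_le ((h.cls h0 hT (imm_self _)).cld hc (NN_cld x)) fun i => ?_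
    have h1 := mon_mem_LE (M := MM v x1) (B := NN k v x) (vx_mem (v := v) x1 i)
    rwa [MM_x h.ind1] at h1
  · exact LE_le h.NN_le_NN (MM_mem h.ind1 fun i => x_mem_NN x1 i)

end fields

end RD

/-! ### Frobenius -/

section frob

variable {k Ω : Type u} [Field k] [Field Ω] [Algebra k Ω] {v : RVal Ω} {p e : ℕ}

/-- The `p^e`-th powers of the elements of `B` (`k` perfect). -/
noncomputable def powF (p e : ℕ) [Fact p.Prime] [CharP Ω p] [IsAlgClosed k]
    (B : IntermediateField k Ω) : IntermediateField k Ω :=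
  (B.toSubfield.map (iterateFrobenius Ω p e)).toIntermediateField fun c => by
    obtain ⟨d, hd⟩ := IsAlgClosed.exists_pow_nat_eq c (pow_pos (Fact.out : p.Prime).pos e)
    refine ⟨algebraMap k Ω d, B.algebraMap_mem d, ?_⟩
    show iterateFrobenius Ω p e (algebraMap k Ω d) = algebraMap k Ω c
    rw [iterateFrobenius_def, ← map_pow, hd]

variable [Fact p.Prime] [CharP Ω p]

theorem mem_powF [IsAlgClosed k] {B : IntermediateField k Ω} {w : Ω} :
    w ∈ powF p e B ↔ ∃ b ∈ B, b ^ p ^ e = w := Iff.rfl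

theorem pow_mem_powF [IsAlgClosed k] {B : IntermediateField k Ω} {b : Ω} (hb : b ∈ B) :
    b ^ p ^ e ∈ powF p e B := ⟨b, hb, rfl⟩

theorem rootF_mono_e {A B : IntermediateField k Ω} (h : A ≤ B) : rootF p e A ≤ rootF p e B :=
  fun _ ha => h ha

theorem powF_mono [IsAlgClosed k] {A B : IntermediateField k Ω} (h : A ≤ B) :
    powF p e A ≤ powF p e B := by
  rintro _ ⟨b, hb, rfl⟩
  exact ⟨b, h hb, rfl⟩

theorem powF_le [IsAlgClosed k] (B : IntermediateField k Ω) : powF p e B ≤ B := by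
  rintro _ ⟨b, hb, rfl⟩
  exact pow_mem (show b ∈ B from hb) _

theorem pow_sub_pow (a b : Ω) : a ^ p ^ e - b ^ p ^ e = (a - b) ^ p ^ e :=
  (sub_pow_char_pow a b e).symm

theorem pow_inj' {a b : Ω} (h : a ^ p ^ e = b ^ p ^ e) : a = b := by
  have h1 := pow_sub_pow (p := p) (e := e) a b
  rw [h, sub_self] at h1
  exact sub_eq_zero.1 (pow_eq_zero_iff (pow_pos (Fact.out : p.Prime).pos e).ne' |>.1 h1.symm)

theorem rootF_powF [IsAlgClosed k] (B : IntermediateField k Ω) :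
    rootF p e (powF p e B) = B := by
  apply le_antisymm
  · rintro a ⟨b, hb, hba⟩
    rw [← pow_inj' (p := p) (e := e) hba]
    exact hb
  · intro b hb
    exact pow_mem_powF hb

theorem powF_rootF [IsAlgClosed k] [IsAlgClosed Ω] (B : IntermediateField k Ω) :
    powF p e (rootF p e B) = B := by
  apply le_antisymm
  · rintro _ ⟨b, hb, rfl⟩
    exact hb
  · intro b hb
    obtain ⟨d, hd⟩ := IsAlgClosed.exists_pow_nat_eq b (pow_pos (Fact.out : p.Prime).pos e)
    refine ⟨d, ?_, hd⟩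
    show d ^ p ^ e ∈ B
    rwa [hd]

omit [CharP Ω p] in
theorem ge_pow_iff {c : ℝ} {a : Ω} : v.Ge ((p : ℝ) ^ e * c) (a ^ p ^ e) ↔ v.Ge c a := by
  have hp : (0 : ℝ) < (p : ℝ) ^ e := pow_pos (by exact_mod_cast (Fact.out : p.Prime).pos) e
  constructor
  · intro h h0
    have h1 := h (pow_ne_zero _ h0)
    rw [v.map_pow h0] at h1
    push_cast at h1
    exact le_of_mul_le_mul_left h1 hp
  · intro h h0
    have h0' : a ≠ 0 := fun h' => h0 (by
      rw [h', zero_pow (pow_pos (Fact.out : p.Prime).pos e).ne'])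
    rw [v.map_pow h0']
    push_cast
    exact mul_le_mul_of_nonneg_left (h h0') hp.le

omit [CharP Ω p] in
theorem gt_pow_iff {c : ℝ} {a : Ω} : Gt v ((p : ℝ) ^ e * c) (a ^ p ^ e) ↔ Gt v c a := by
  have hp : (0 : ℝ) < (p : ℝ) ^ e := pow_pos (by exact_mod_cast (Fact.out : p.Prime).pos) e
  constructor
  · intro h h0
    have h1 := h (pow_ne_zero _ h0)
    rw [v.map_pow h0] at h1
    push_cast at h1
    exact lt_of_mul_lt_mul_left h1 hp.le
  · intro h h0
    have h0' : a ≠ 0 := fun h' => h0 (by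
      rw [h', zero_pow (pow_pos (Fact.out : p.Prime).pos e).ne'])
    rw [v.map_pow h0']
    push_cast
    exact mul_lt_mul_of_pos_left (h h0') hp

/-- The closure commutes with `rootF`. -/
theorem clI_rootF (A : IntermediateField k Ω) [IsAlgClosed Ω] [IsAlgClosed k] :
    clI v (rootF p e A) = rootF p e (clI v A) := by
  have hp : (0 : ℝ) < (p : ℝ) ^ e := pow_pos (by exact_mod_cast (Fact.out : p.Prime).pos) e
  apply le_antisymm
  · intro a ha
    rw [mem_rootF, mem_clI]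
    intro c
    obtain ⟨b, hb, h1⟩ := (mem_clI.1 ha) (c / (p : ℝ) ^ e)
    refine ⟨b ^ p ^ e, hb, ?_⟩
    rw [pow_sub_pow]
    have h2 := (ge_pow_iff (p := p) (e := e)).2 h1
    rwa [mul_div_cancel₀ _ hp.ne'] at h2
  · intro a ha
    rw [mem_rootF, mem_clI] at ha
    rw [mem_clI]
    intro c
    obtain ⟨b, hb, h1⟩ := ha ((p : ℝ) ^ e * c)
    obtain ⟨d, hd⟩ := IsAlgClosed.exists_pow_nat_eq b (pow_pos (Fact.out : p.Prime).pos e)
    refine ⟨d, ?_, ?_⟩
    · show d ^ p ^ e ∈ A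
      rw [hd]; exact hb
    · rw [← hd, pow_sub_pow] at h1
      exact (ge_pow_iff (p := p) (e := e)).1 h1

theorem cld_rootF_e [IsAlgClosed Ω] [IsAlgClosed k] {A : IntermediateField k Ω} (hA : Cld v A) :
    Cld v (rootF p e A) := by
  show clI v (rootF p e A) ≤ rootF p e A
  rw [clI_rootF]
  exact rootF_mono_e hA

/-- The powers of the monomial fields. -/
theorem powF_LE [IsAlgClosed k] {M M1 : ℝ → Ω} {G G1 : AddSubgroup ℝ}
    (hG : ∀ g, (p : ℝ) ^ e * g ∈ G ↔ g ∈ G1) (hM : ∀ g ∈ G1, M ((p : ℝ) ^ e * g) = M1 g ^ p ^ e)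
    (B : IntermediateField k Ω) : powF p e (LE M1 G1 B) = LE M G (powF p e B) := by
  have hp : (0 : ℝ) < (p : ℝ) ^ e := pow_pos (by exact_mod_cast (Fact.out : p.Prime).pos) e
  apply le_antisymm
  · have h1 : LE M1 G1 B ≤ rootF p e (LE M G (powF p e B)) := by
      refine LE_le (fun b hb => le_LE (pow_mem_powF hb)) fun g hg => ?_
      show M1 g ^ p ^ e ∈ LE M G (powF p e B)
      rw [← hM g hg]
      exact mon_mem_LE ((hG g).2 hg)
    rintro _ ⟨b, hb, rfl⟩
    exact h1 hb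
  · refine LE_le (powF_mono le_LE) fun g hg => ?_
    have h1 : (p : ℝ) ^ e * (g / (p : ℝ) ^ e) = g := mul_div_cancel₀ _ hp.ne'
    have h2 : g / (p : ℝ) ^ e ∈ G1 := (hG _).1 (by rwa [h1])
    refine ⟨M1 (g / (p : ℝ) ^ e), mon_mem_LE h2, ?_⟩
    show M1 (g / (p : ℝ) ^ e) ^ p ^ e = M g
    rw [← hM _ h2, h1]

/-! ### The roots and the powers of `N` -/

variable {r : ℕ} {x x1 : Fin r → Ω}

theorem RD.powF_adjoin [IsAlgClosed k] (h : RD v x x1 (p ^ e)) :
    powF p e (IntermediateField.adjoin k (Set.range x1)) =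
      IntermediateField.adjoin k (Set.range x) := by
  apply le_antisymm
  · have h1 : IntermediateField.adjoin k (Set.range x1) ≤
        rootF p e (IntermediateField.adjoin k (Set.range x)) := by
      rw [IntermediateField.adjoin_le_iff]
      rintro _ ⟨i, rfl⟩
      show x1 i ^ p ^ e ∈ IntermediateField.adjoin k (Set.range x)
      rw [h.root]
      exact IntermediateField.subset_adjoin k _ ⟨i, rfl⟩
    rintro _ ⟨b, hb, rfl⟩
    exact h1 hb
  · rw [IntermediateField.adjoin_le_iff]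
    rintro _ ⟨i, rfl⟩
    rw [← h.root]
    exact pow_mem_powF (IntermediateField.subset_adjoin k _ ⟨i, rfl⟩)

/-- `N^{1/q} = N_1`. -/
theorem RD.rootF_NN [IsAlgClosed k] [IsAlgClosed Ω] (h : RD v x x1 (p ^ e)) :
    rootF p e (NN k v x) = NN k v x1 := by
  rw [NN, ← clI_rootF, ← h.powF_adjoin, rootF_powF]
  rfl

/-- `N_1^q = N`. -/
theorem RD.powF_NN [IsAlgClosed k] [IsAlgClosed Ω] (h : RD v x x1 (p ^ e)) :
    powF p e (NN k v x1) = NN k v x := by
  rw [← h.rootF_NN, powF_rootF]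

/-- A9: the classes of `N B^q`, `B` immediate over `N`. -/
theorem RD.cls_pow [IsAlgClosed k] [IsAlgClosed Ω] {B : IntermediateField k Ω} {T : Finset ℝ}
    (h : RD v x x1 (p ^ e)) (h0 : Ctx0 k v) (hT : Reps (GG v x) (GG v x1) T)
    (hB : Imm v (NN k v x1) B) :
    Cls v (MM v x1) (GG v x) (GG v x1) T (powF p e B) where
  ms := h.ms1
  reps := hT
  vg := by
    rintro _ ⟨b, hb, rfl⟩ hb0
    have hb0' : b ≠ 0 := fun h' => hb0 (by
      show b ^ p ^ e = 0
      rw [h', zero_pow (pow_pos (Fact.out : p.Prime).pos e).ne'])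
    have h1 := vg_of_imm h0 h.ne1 h.ind1 hB b hb hb0'
    show v (b ^ p ^ e) ∈ GG v x
    rw [v.map_pow hb0']
    exact h.mem_GG_iff.2 h1
  mon := fun g hg => by
    have hp : ((p ^ e : ℕ) : ℝ) ≠ 0 := by
      exact_mod_cast (pow_pos (Fact.out : p.Prime).pos e).ne'
    have h1 : ((p ^ e : ℕ) : ℝ) * (g / ((p ^ e : ℕ) : ℝ)) = g := mul_div_cancel₀ _ hp
    have h2 : g / ((p ^ e : ℕ) : ℝ) ∈ GG v x1 := h.mem_GG_iff.1 (by rwa [h1])
    rw [h.MM_eq hg, ← h1, h.MM_pow h2]
    exact pow_mem_powF (hB.le (MM_mem h.ind1 (fun i => x_mem_NN x1 i) _ h2))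

/-- A9: `N_1 = ⊕ x1^s N_1^q`. -/
theorem RD.NN_eq_pow [IsAlgClosed k] [IsAlgClosed Ω] (h : RD v x x1 (p ^ e)) (h0 : Ctx0 k v)
    (hc : CompleteV v) : NN k v x1 = LE (MM v x1) (GG v x1) (powF p e (NN k v x1)) := by
  rw [h.powF_NN, ← h.NN_eq h0 hc]

/-- A10: `B_1^q = N B^q`. -/
theorem RD.powF_LE [IsAlgClosed k] (h : RD v x x1 (p ^ e)) (B : IntermediateField k Ω) :
    powF p e (LE (MM v x1) (GG v x1) B) = LE (MM v x) (GG v x) (powF p e B) := by
  refine TWM.powF_LE (fun g => ?_) (fun g hg => ?_) B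
  · have := h.mem_GG_iff (g := g)
    push_cast at this
    exact this
  · have := h.MM_pow hg
    push_cast at this
    exact this

end frob

end Pool.Agent.TWM
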