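import Pool.Agent.Lib.TWM.D2

/-!
# The `p`-th roots at a distance which is not attained

`F` is closed, `γ^p ∈ F`, `γ` is a limit of `F` up to `σ` and at distance `< σ` of the elements
of `F`. Then the elements of degree `< p` over `F` are at distance `< σ` from `γ`, and `F(γ)` is
immediate over `F`.
-/

set_option autoImplicit false

open Polynomial

namespace Pool.Agent.TWM

open Pool.Agent.H15JM (RVal)
open Pool.Agent.LU1 (VPos adj)
open Pool.Agent.LUC (Cl clF)
open Pool.Agent.D2 (Ctx0)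
open Pool.Agent.D2P (hen clI mem_clI adj_le mem_adj_self rootF mem_rootF)

universe u

variable {k Ω : Type u} [Field k] [Field Ω] [Algebra k Ω] {v : RVal Ω}
  (p : ℕ) [hp : Fact p.Prime] [hk : CharP k p] [hΩ : CharP Ω p]
  {F : IntermediateField k Ω} {γ : Ω} {σ : ℝ}

omit hp hk hΩ in
/-- A distance which is not attained gives a `PStep`. -/
theorem pstep_of_dist (hF : Cld v F) (hγ : γ ^ p ∈ F)
    (hfar : ∀ a ∈ F, γ ≠ a ∧ v (γ - a) < σ) : C.PStep p v F γ σ where
  cld := hF
  pw := hγ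
  far := fun ⟨a, ha, h1⟩ => by
    obtain ⟨h2, h3⟩ := hfar a ha
    exact lt_asymm (h1 (sub_ne_zero.2 h2)) h3

variable [IsAlgClosed Ω]

/-- The elements of degree `< p` over `F` are at distance `< σ`. -/
theorem pstep_strict (h0 : Ctx0 k v) (hF : Cld v F) (hγ : γ ^ p ∈ F)
    (hfar : ∀ a ∈ F, γ ≠ a ∧ v (γ - a) < σ) {θ : Ω} (hθ : IsIntegral F θ)
    (hdeg : (minpoly F θ).natDegree < p) : γ ≠ θ ∧ v (γ - θ) < σ := by
  classical
  have hs := pstep_of_dist p hF hγ hfar
  have hM := C.hen_eq hF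
  set g := minpoly F θ with hg
  have hgm : g.Monic := minpoly.monic hθ
  have hgi : Irreducible g := minpoly.irreducible hθ
  have hd0 : 0 < g.natDegree := minpoly.natDegree_pos hθ
  have hchM : CharP F p := charP_of_injective_algebraMap (algebraMap k F).injective p
  have hdk : ((g.natDegree : ℕ) : k) ≠ 0 := by
    rw [Ne, CharP.cast_eq_zero_iff k p]
    exact fun h => absurd (Nat.le_of_dvd hd0 h) (not_le.2 hdeg)
  have hdM : ((g.natDegree : ℕ) : F) ≠ 0 := by
    rw [Ne, CharP.cast_eq_zero_iff F p]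
    exact fun h => absurd (Nat.le_of_dvd hd0 h) (not_le.2 hdeg)
  -- separability
  have hsep : IsSeparable F θ := by
    show g.Separable
    rw [separable_iff_derivative_ne_zero hgi]
    intro h1
    have h2 := congrArg (fun q : F[X] => q.coeff (g.natDegree - 1)) h1
    simp only [coeff_derivative, coeff_zero] at h2
    rw [Nat.sub_add_cancel hd0, hgm.coeff_natDegree, one_mul] at h2
    have h3 : ((g.natDegree - 1 : ℕ) : F) + 1 = ((g.natDegree : ℕ) : F) := by
      rw [← Nat.cast_succ, Nat.succ_eq_add_one, Nat.sub_add_cancel hd0]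
    rw [h3] at h2
    exact hdM h2
  refine ⟨C.not_sep p hs hsep, ?_⟩
  by_contra hcon
  push Not at hcon
  -- the conjugates are at the same distance
  have hconj : ∀ θ', aeval θ' g = 0 → γ ≠ θ' ∧ v (γ - θ') = v (γ - θ) := by
    intro θ' hθ'
    have hg' : minpoly F θ' = g :=
      (minpoly.eq_of_irreducible_of_monic hgi hθ' hgm).symm
    have hsep' : IsSeparable F θ' := by
      show (minpoly F θ').Separable
      rw [hg']
      exact hsep
    have hne' := C.not_sep p hs hsep'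
    have hne := C.not_sep p hs hsep
    refine ⟨hne', ?_⟩
    have hup : IsSeparable F (γ ^ p) := isSeparable_algebraMap (F := F) (⟨γ ^ p, hs.pw⟩ : F)
    have hasep : IsSeparable F (θ ^ p - γ ^ p) := by
      have h1 : θ ^ p ∈ separableClosure F Ω :=
        pow_mem (mem_separableClosure_iff.2 hsep) p
      exact mem_separableClosure_iff.1 (sub_mem h1 (mem_separableClosure_iff.2 hup))
    have haroot : aeval (θ' ^ p - γ ^ p) (minpoly F (θ ^ p - γ ^ p)) = 0 := by
      set H : F[X] := (minpoly F (θ ^ p - γ ^ p)).comp (X ^ p - Polynomial.C (⟨γ ^ p, hs.pw⟩ : F))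
        with hH
      have h1 : ∀ t : Ω, aeval t H = aeval (t ^ p - γ ^ p) (minpoly F (θ ^ p - γ ^ p)) := by
        intro t
        rw [hH, aeval_comp, map_sub, map_pow, aeval_X, aeval_C]
        rfl
      have h2 : aeval θ H = 0 := by rw [h1, minpoly.aeval]
      have h3 : g ∣ H := minpoly.dvd F θ h2
      obtain ⟨q, hq⟩ := h3
      rw [← h1, hq, map_mul, hθ', zero_mul]
    have h4 := D2P.val_root_sep h0 hM hasep haroot
    rw [← sub_pow_char, ← sub_pow_char, v.map_pow (sub_ne_zero.2 hne'.symm),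
      v.map_pow (sub_ne_zero.2 hne.symm)] at h4
    have hp0 : (0 : ℝ) < p := by exact_mod_cast hp.out.pos
    have h5 := mul_left_cancel₀ hp0.ne' h4
    rw [← neg_sub θ' γ, ← neg_sub θ γ, v.map_neg _ (sub_ne_zero.2 hne'.symm),
      v.map_neg _ (sub_ne_zero.2 hne.symm), h5]
  -- the trace
  set G : Polynomial Ω := g.map (algebraMap F Ω) with hG
  have hGm : G.Monic := hgm.map _
  have hGs : G.Splits := IsAlgClosed.splits G
  have hGd : G.natDegree = g.natDegree := hgm.natDegree_map _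
  have hcard : G.roots.card = g.natDegree := by
    rw [← hGd]
    exact hGs.natDegree_eq_card_roots.symm
  have hroot : ∀ θ' ∈ G.roots, γ ≠ θ' ∧ v (γ - θ') = v (γ - θ) := by
    intro θ' hθ'
    refine hconj θ' ?_
    have h1 := (mem_roots hGm.ne_zero).1 hθ'
    rwa [IsRoot.def, hG, eval_map_algebraMap] at h1
  have hsum : ∀ S : Multiset Ω, (∀ θ' ∈ S, γ ≠ θ' ∧ v (γ - θ') = v (γ - θ)) →
      v.Ge σ ((S.card : Ω) * γ - S.sum) := by
    intro S hS
    induction S using Multiset.induction_on with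
    | empty =>
      rw [Multiset.card_zero, Nat.cast_zero, zero_mul, Multiset.sum_zero, sub_zero]
      exact RVal.Ge.zero
    | cons a S ih =>
      have h1 := hS a (Multiset.mem_cons_self a S)
      have h2 := ih fun θ' h => hS θ' (Multiset.mem_cons_of_mem h)
      rw [Multiset.card_cons, Multiset.sum_cons]
      have h3 : ((S.card + 1 : ℕ) : Ω) * γ - (a + S.sum) = (γ - a) + ((S.card : Ω) * γ - S.sum) := by
        push_cast
        ring
      rw [h3]
      refine RVal.Ge.add (fun _ => ?_) h2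
      rw [h1.2]
      exact hcon
  have h1 := hsum G.roots hroot
  rw [hcard] at h1
  have h2 : G.roots.sum ∈ F := by
    have h3 := hGs.nextCoeff_eq_neg_sum_roots_of_monic hGm
    have h4 : G.roots.sum = -G.nextCoeff := by rw [h3, neg_neg]
    rw [h4]
    refine neg_mem ?_
    unfold nextCoeff
    split_ifs
    · exact zero_mem _
    · rw [hG, coeff_map]
      exact (g.coeff _).2
  obtain ⟨hdΩ, hvd⟩ := C.nat_val h0 hdk
  obtain ⟨h3, h4⟩ := hfar (((g.natDegree : ℕ) : Ω)⁻¹ * G.roots.sum)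
    (mul_mem (inv_mem (natCast_mem F _)) h2)
  have h5 : γ - ((g.natDegree : ℕ) : Ω)⁻¹ * G.roots.sum =
      (((g.natDegree : ℕ) : Ω) * γ - G.roots.sum) * ((g.natDegree : ℕ) : Ω)⁻¹ := by
    field_simp
  have h6 : v.Ge 0 ((g.natDegree : ℕ) : Ω)⁻¹ := fun _ => by
    rw [v.map_inv hdΩ, hvd, neg_zero]
  have h7 := h1.mul h6
  rw [add_zero, ← h5] at h7
  exact absurd (h7 (sub_ne_zero.2 h3)) (not_le.2 h4)

/-- The roots of the polynomials of degree `< p`. -/
theorem root_strict (h0 : Ctx0 k v) (hF : Cld v F) (hγ : γ ^ p ∈ F)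
    (hfar : ∀ a ∈ F, γ ≠ a ∧ v (γ - a) < σ) {P : Polynomial Ω} (hP : P ∈ PI F)
    (hP0 : P ≠ 0) (hdeg : P.natDegree < p) {θ : Ω} (hθ : P.IsRoot θ) :
    γ ≠ θ ∧ v (γ - θ) < σ := by
  have hl : P ∈ Polynomial.lifts (algebraMap F Ω) := by
    rw [Polynomial.lifts_iff_coeff_lifts]
    exact fun i => ⟨⟨P.coeff i, hP i⟩, rfl⟩
  obtain ⟨g, hg⟩ := hl
  have hg' : g.map (algebraMap F Ω) = P := hg
  have hg0 : g ≠ 0 := by
    rintro rfl
    rw [Polynomial.map_zero] at hg'
    exact hP0 hg'.symm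
  have hgθ : aeval θ g = 0 := by
    rw [aeval_def, eval₂_eq_eval_map, hg']
    exact hθ
  have halg : IsAlgebraic F θ := ⟨g, hg0, hgθ⟩
  refine pstep_strict p h0 hF hγ hfar halg.isIntegral ?_
  refine lt_of_le_of_lt (natDegree_le_of_dvd (minpoly.dvd F θ hgθ) hg0) ?_
  rw [← hg', natDegree_map] at hdeg
  exact hdeg

/-- The polynomials of degree `< p` are strict at `γ`. -/
theorem str_of_dist (h0 : Ctx0 k v) (hF : Cld v F) (hγ : γ ^ p ∈ F)
    (hfar : ∀ a ∈ F, γ ≠ a ∧ v (γ - a) < σ) {P : Polynomial Ω} (hP : P ∈ PI F)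
    (hP0 : P ≠ 0) (hdeg : P.natDegree < p) : Str v σ (taylor γ P) := by
  have h1 := (IsAlgClosed.splits P).eq_prod_roots
  rw [h1, taylor_mul, taylor_C]
  refine Str.mul (Str.C (leadingCoeff_ne_zero.2 hP0)) (Str.multiset _ fun θ hθ => ?_)
  exact root_strict p h0 hF hγ hfar hP hP0 hdeg ((mem_roots hP0).1 hθ)

/-- **`F(γ)` is immediate.** -/
theorem imm_of_dist (h0 : Ctx0 k v) (hF : Cld v F) (hγ : γ ^ p ∈ F) (hl : Lim v F σ γ)
    (hfar : ∀ a ∈ F, γ ≠ a ∧ v (γ - a) < σ) : Imm v F (adj F γ) where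
  le := (mem_adj_self F γ).2
  imm := by
    intro b hb hb0
    obtain ⟨P, hP, hdeg, rfl⟩ := C.exists_rep p hγ hb
    have hP0 : P ≠ 0 := by
      rintro rfl
      exact hb0 eval_zero
    obtain ⟨δ, hδ, h1⟩ := (str_of_dist p h0 hF hγ hfar hP hP0 hdeg).near
    obtain ⟨ψ, hψ, h2⟩ := hl δ hδ
    refine ⟨P.eval ψ, eval_mem hP hψ, ?_⟩
    have h3 := h1 (ψ - γ) (ge_sub_comm h2)
    rw [← eval_eq_taylor, taylor_coeff_zero] at h3
    exact Gt.of_ge (ge_sub_comm h3) (by linarith)

end Pool.Agent.TWM
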