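import Pool.Agent.Lib.TWM.Lau

/-!
# Freeness over `N` (H1, H2)
-/

set_option autoImplicit false

open Polynomial Finset

namespace Pool.Agent.TWM

open Pool.Agent.H15JM (RVal)
open Pool.Agent.D2 (Ctx0)

universe u

/-! ## Heights -/

/-- A height on `G`. -/
structure Hgt (G : AddSubgroup ℝ) (H : ℝ → ℝ) : Prop where
  nonneg : ∀ g, 0 ≤ H g
  add : ∀ g ∈ G, ∀ h ∈ G, H (g + h) ≤ H g + H h
  neg : ∀ g ∈ G, H (-g) = H g
  mul : ∀ g ∈ G, ∀ n : ℕ, H (n * g) = n * H g
  fin : ∀ c : ℝ, {g | g ∈ G ∧ H g ≤ c}.Finite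

theorem exists_hgt {G : AddSubgroup ℝ} (hG : G.FG) : ∃ H, Hgt G H := by
  classical
  have : AddGroup.FG G := (AddGroup.fg_iff_addSubgroup_fg G).mpr hG
  have : Module.Finite ℤ G := Module.Finite.iff_addGroup_fg.mpr inferInstance
  have : Module.Free ℤ G := Module.free_of_finite_type_torsion_free'
  let b := Module.Free.chooseBasis ℤ G
  let H : ℝ → ℝ := fun g => if h : g ∈ G then ∑ i, |(b.repr ⟨g, h⟩ i : ℝ)| else 0
  have hH : ∀ g (h : g ∈ G), H g = ∑ i, |(b.repr ⟨g, h⟩ i : ℝ)| := fun g h => dif_pos h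
  refine ⟨H, ⟨fun g => ?_, fun g hg h hh => ?_, fun g hg => ?_, fun g hg n => ?_, fun c => ?_⟩⟩
  · dsimp only [H]
    split_ifs
    · exact Finset.sum_nonneg fun _ _ => abs_nonneg _
    · exact le_rfl
  · rw [hH g hg, hH h hh, hH _ (G.add_mem hg hh), ← Finset.sum_add_distrib]
    refine Finset.sum_le_sum fun i _ => ?_
    have e : (⟨g + h, G.add_mem hg hh⟩ : G) = ⟨g, hg⟩ + ⟨h, hh⟩ := rfl
    rw [e, map_add, Finsupp.add_apply, Int.cast_add]
    exact abs_add_le _ _
  · rw [hH g hg, hH _ (G.neg_mem hg)]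
    refine Finset.sum_congr rfl fun i _ => ?_
    have e : (⟨-g, G.neg_mem hg⟩ : G) = -⟨g, hg⟩ := rfl
    rw [e, map_neg, Finsupp.neg_apply, Int.cast_neg, abs_neg]
  · have hn : (n : ℝ) * g ∈ G := by rw [← nsmul_eq_mul]; exact G.nsmul_mem hg n
    rw [hH g hg, hH _ hn, Finset.mul_sum]
    refine Finset.sum_congr rfl fun i _ => ?_
    have e : (⟨(n : ℝ) * g, hn⟩ : G) = n • ⟨g, hg⟩ := by
      apply Subtype.ext
      rw [AddSubgroup.coe_nsmul, nsmul_eq_mul]
    rw [e, map_nsmul, Finsupp.smul_apply, nsmul_eq_mul]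
    push_cast
    rw [abs_mul, Nat.abs_cast]
  · obtain ⟨m, hm⟩ := exists_nat_ge c
    let T : Set (Module.Free.ChooseBasisIndex ℤ G → ℤ) := {f | ∀ i, f i ∈ Set.Icc (-(m : ℤ)) m}
    have hT : T.Finite := Set.Finite.pi' fun _ => Set.finite_Icc _ _
    let φ : (Module.Free.ChooseBasisIndex ℤ G → ℤ) → ℝ := fun z => ((b.equivFun.symm z : G) : ℝ)
    refine (hT.image φ).subset ?_
    rintro g ⟨hg, hle⟩
    refine ⟨b.equivFun ⟨g, hg⟩, ?_, ?_⟩
    · intro i
      rw [hH g hg] at hle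
      have h1 : |(b.repr ⟨g, hg⟩ i : ℝ)| ≤ m :=
        ((Finset.single_le_sum (f := fun i => |(b.repr ⟨g, hg⟩ i : ℝ)|)
          (fun _ _ => abs_nonneg _) (Finset.mem_univ i)).trans hle).trans hm
      rw [abs_le] at h1
      rw [Module.Basis.equivFun_apply]
      constructor
      · exact_mod_cast h1.1
      · exact_mod_cast h1.2
    · dsimp only [φ]
      rw [LinearEquiv.symm_apply_apply]

/-! ## H1 for coefficient functions -/

variable {k : Type u} [Field k] {p : ℕ} {G : AddSubgroup ℝ}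

theorem finite_of_gap [Fact p.Prime] {H : ℝ → ℝ} (hH : Hgt G H) {ι : Type*} (S : Finset ι)
    (r : ι → ℝ) (R : ℝ) (Q : ι → k[X]) (hQ : ∀ i ∈ S, IsOp p G (r i) R (Q i))
    (hd : ∀ i ∈ S, ∀ j ∈ S, i ≠ j → Q i ≠ 0 → Q j ≠ 0 → (Q j).natDegree ≤ (Q i).natDegree →
      r j - (p : ℝ) ^ ((Q i).natDegree - (Q j).natDegree) * r i ∉ G)
    (A : ι → ℝ → k) (hA : ∀ i g, A i g ≠ 0 → g ∈ G ∧ g < r i) (C₀ : ℝ)
    (hC₀ : ∀ i ∈ S, ∀ g, A i g ≠ 0 → -C₀ ≤ g) (F : Finset ℝ)
    (hrel : ∀ δ, δ < R → δ ∉ F → ∑ i ∈ S, ∑ j ∈ (Q i).support,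
      (Q i).coeff j * A i (r i - (R - δ) / (p : ℝ) ^ j) ^ p ^ j = 0) :
    ∀ i ∈ S, Q i ≠ 0 → {g | A i g ≠ 0}.Finite := by
  classical
  have hp1 : (1 : ℝ) < p := by exact_mod_cast (Fact.out : p.Prime).one_lt
  have hp2 : (2 : ℝ) ≤ p := by exact_mod_cast (Fact.out : p.Prime).two_le
  have hp0 : (0 : ℝ) < p := by linarith
  -- the constants
  set C₁ : ℝ := ∑ i ∈ S, (p : ℝ) ^ (Q i).natDegree * |r i + C₀| with hC₁
  set C₂ : ℝ := ∑ i ∈ S, ∑ j ∈ Finset.range ((Q i).natDegree + 1),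
    H (R - (p : ℝ) ^ ((Q i).natDegree - j) * R) with hC₂
  set CF : ℝ := ∑ δ ∈ F, H δ with hCF
  set Bd : ℝ := C₂ + CF with hBd
  have hC₂0 : 0 ≤ C₂ := Finset.sum_nonneg fun i _ => Finset.sum_nonneg fun j _ => hH.nonneg _
  have hCF0 : 0 ≤ CF := Finset.sum_nonneg fun i _ => hH.nonneg _
  -- the top exponent
  have htopG : ∀ i ∈ S, Q i ≠ 0 → ∀ g ∈ G, R - (p : ℝ) ^ (Q i).natDegree * (r i - g) ∈ G := by
    intro i hi hQi g hg
    have h1 := hQ i hi (Q i).natDegree (by rw [coeff_natDegree]; exact leadingCoeff_ne_zero.mpr hQi)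
    have h2 := G.nsmul_mem hg (p ^ (Q i).natDegree)
    rw [nsmul_eq_mul] at h2
    have h3 := G.add_mem h1 h2
    push_cast at h3
    convert h3 using 1
    ring
  have key : ∀ n : ℕ, ∀ i ∈ S, Q i ≠ 0 → ∀ g, A i g ≠ 0 →
      C₁ < (p : ℝ) ^ n * ((p : ℝ) ^ (Q i).natDegree * (r i - g)) →
      H (R - (p : ℝ) ^ (Q i).natDegree * (r i - g)) ≤ Bd := by
    intro n
    induction n with
    | zero =>
      intro i hi hQi g hg hlt
      exfalso
      rw [pow_zero, one_mul] at hlt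
      have h1 := hC₀ i hi g hg
      have h2 : (p : ℝ) ^ (Q i).natDegree * (r i - g) ≤ (p : ℝ) ^ (Q i).natDegree * |r i + C₀| := by
        refine mul_le_mul_of_nonneg_left ?_ (by positivity)
        exact le_trans (by linarith) (le_abs_self _)
      have h3 : (p : ℝ) ^ (Q i).natDegree * |r i + C₀| ≤ C₁ :=
        Finset.single_le_sum (f := fun i => (p : ℝ) ^ (Q i).natDegree * |r i + C₀|)
          (fun _ _ => by positivity) hi
      linarith
    | succ n ih =>
      intro i hi hQi g hg hlt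
      set J := (Q i).natDegree with hJ
      set δ := R - (p : ℝ) ^ J * (r i - g) with hδ
      obtain ⟨hgG, hgr⟩ := hA i g hg
      have hpJ : (0 : ℝ) < (p : ℝ) ^ J := by positivity
      have hgap : 0 < (p : ℝ) ^ J * (r i - g) := mul_pos hpJ (by linarith)
      have hδR : δ < R := by rw [hδ]; linarith
      have hδG : δ ∈ G := htopG i hi hQi g hgG
      by_cases hF : δ ∈ F
      · have h1 : H δ ≤ CF := Finset.single_le_sum (f := H) (fun _ _ => hH.nonneg _) hF
        linarith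
      have hsum := hrel δ hδR hF
      -- the top term of `i` is not zero
      have hgJ : r i - (R - δ) / (p : ℝ) ^ J = g := by
        rw [hδ]
        field_simp
        ring
      have htop : (Q i).coeff J * A i (r i - (R - δ) / (p : ℝ) ^ J) ^ p ^ J ≠ 0 := by
        rw [hgJ]
        exact mul_ne_zero (by rw [hJ, coeff_natDegree]; exact leadingCoeff_ne_zero.mpr hQi)
          (pow_ne_zero _ hg)
      have hJs : J ∈ (Q i).support := mem_support_iff.mpr (left_ne_zero_of_mul htop)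
      obtain ⟨l, hl, j, hj, hne, hlj⟩ : ∃ l ∈ S, ∃ j ∈ (Q l).support,
          (Q l).coeff j * A l (r l - (R - δ) / (p : ℝ) ^ j) ^ p ^ j ≠ 0 ∧ (l ≠ i ∨ j ≠ J) := by
        by_contra hcon
        push Not at hcon
        refine htop ?_
        rw [← hsum, ← Finset.add_sum_erase S _ hi, ← Finset.add_sum_erase (Q i).support _ hJs]
        have z1 : ∑ j ∈ (Q i).support.erase J,
            (Q i).coeff j * A i (r i - (R - δ) / (p : ℝ) ^ j) ^ p ^ j = 0 := by
          refine Finset.sum_eq_zero fun j hj => ?_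
          by_contra h
          exact Finset.ne_of_mem_erase hj (hcon i hi j (Finset.mem_of_mem_erase hj) h).2
        have z2 : ∑ l ∈ S.erase i, ∑ j ∈ (Q l).support,
            (Q l).coeff j * A l (r l - (R - δ) / (p : ℝ) ^ j) ^ p ^ j = 0 := by
          refine Finset.sum_eq_zero fun l hl => Finset.sum_eq_zero fun j hj => ?_
          by_contra h
          exact Finset.ne_of_mem_erase hl (hcon l (Finset.mem_of_mem_erase hl) j hj h).1
        rw [z1, z2, add_zero, add_zero]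
      have hcj := left_ne_zero_of_mul hne
      have hAl : A l (r l - (R - δ) / (p : ℝ) ^ j) ≠ 0 := by
        intro h
        refine right_ne_zero_of_mul hne ?_
        rw [h, zero_pow (pow_ne_zero _ (Fact.out : p.Prime).ne_zero)]
      have hQl : Q l ≠ 0 := by
        intro h
        rw [h, coeff_zero] at hcj
        exact hcj rfl
      have hjle : j ≤ (Q l).natDegree := le_natDegree_of_ne_zero hcj
      obtain ⟨hg'G, hg'r⟩ := hA l _ hAl
      set g' := r l - (R - δ) / (p : ℝ) ^ j with hg'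
      have hgap' : (p : ℝ) ^ j * (r l - g') = R - δ := by
        rw [hg']
        field_simp
        ring
      -- `j` is not the top
      have hjlt : j < (Q l).natDegree := by
        rcases eq_or_lt_of_le hjle with h | h
        · exfalso
          have hli : l ≠ i := by
            rintro rfl
            rcases hlj with h1 | h1
            · exact h1 rfl
            · exact h1 h
          have hgap2 : (p : ℝ) ^ J * (r i - g) = R - δ := by rw [hδ]; ring
          rcases le_total (Q l).natDegree J with h2 | h2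
          · refine hd i hi l hl hli.symm hQi hQl h2 ?_
            have e1 : (p : ℝ) ^ J = (p : ℝ) ^ (J - (Q l).natDegree) * (p : ℝ) ^ j := by
              rw [← pow_add, h]
              congr 1
              omega
            have e2 : r l - g' = (p : ℝ) ^ (J - (Q l).natDegree) * (r i - g) := by
              have e3 : (p : ℝ) ^ j * (r l - g') =
                  (p : ℝ) ^ j * ((p : ℝ) ^ (J - (Q l).natDegree) * (r i - g)) := by
                rw [hgap', ← hgap2, e1]; ring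
              exact mul_left_cancel₀ (by positivity) e3
            have e4 := G.sub_mem hg'G (G.nsmul_mem hgG (p ^ (J - (Q l).natDegree)))
            rw [nsmul_eq_mul] at e4
            push_cast at e4
            convert e4 using 1
            linarith
          · refine hd l hl i hi hli hQl hQi h2 ?_
            have e1 : (p : ℝ) ^ j = (p : ℝ) ^ ((Q l).natDegree - J) * (p : ℝ) ^ J := by
              rw [← pow_add, h]
              congr 1
              omega
            have e2 : r i - g = (p : ℝ) ^ ((Q l).natDegree - J) * (r l - g') := by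
              have e3 : (p : ℝ) ^ J * (r i - g) =
                  (p : ℝ) ^ J * ((p : ℝ) ^ ((Q l).natDegree - J) * (r l - g')) := by
                rw [hgap2, ← hgap', e1]; ring
              exact mul_left_cancel₀ (by positivity) e3
            have e4 := G.sub_mem hgG (G.nsmul_mem hg'G (p ^ ((Q l).natDegree - J)))
            rw [nsmul_eq_mul] at e4
            push_cast at e4
            convert e4 using 1
            linarith
        · exact h
      set e := (Q l).natDegree - j with he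
      have he1 : 1 ≤ e := by omega
      have hpe : (p : ℝ) ^ (Q l).natDegree = (p : ℝ) ^ e * (p : ℝ) ^ j := by
        rw [← pow_add]
        congr 1
        omega
      have hδ' : (p : ℝ) ^ (Q l).natDegree * (r l - g') = (p : ℝ) ^ e * (R - δ) := by
        rw [hpe, mul_assoc, hgap']
      have hgapδ : (p : ℝ) ^ J * (r i - g) = R - δ := by rw [hδ]; ring
      have hpep : (p : ℝ) ≤ (p : ℝ) ^ e := by
        calc (p : ℝ) = (p : ℝ) ^ 1 := (pow_one _).symm
          _ ≤ (p : ℝ) ^ e := pow_le_pow_right₀ hp1.le he1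
      have hlt' : C₁ < (p : ℝ) ^ n * ((p : ℝ) ^ (Q l).natDegree * (r l - g')) := by
        refine hlt.trans_le ?_
        rw [hδ', hgapδ, pow_succ, mul_assoc]
        refine mul_le_mul_of_nonneg_left ?_ (by positivity)
        exact mul_le_mul_of_nonneg_right hpep (by linarith)
      have h1 := ih l hl hQl g' hAl hlt'
      rw [hδ'] at h1
      -- the height of `δ`
      have hdG' : R - (p : ℝ) ^ e * (R - δ) ∈ G := by
        rw [← hδ']
        exact htopG l hl hQl g' hg'G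
      have hcG : R - (p : ℝ) ^ e * R ∈ G := by
        have e1 := hQ l hl (Q l).natDegree
          (by rw [coeff_natDegree]; exact leadingCoeff_ne_zero.mpr hQl)
        have e2 := hQ l hl j hcj
        have e3 := G.sub_mem e1 (G.nsmul_mem e2 (p ^ e))
        rw [nsmul_eq_mul] at e3
        push_cast at e3
        convert e3 using 1
        rw [hpe]
        ring
      have h2 : H ((p : ℝ) ^ e * δ) ≤ H (R - (p : ℝ) ^ e * (R - δ)) + H (R - (p : ℝ) ^ e * R) := by
        have e1 := hH.add _ hdG' _ (G.neg_mem hcG)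
        rw [hH.neg _ hcG] at e1
        convert e1 using 2
        ring
      have h3 : H ((p : ℝ) ^ e * δ) = (p : ℝ) ^ e * H δ := by
        have e1 := hH.mul δ hδG (p ^ e)
        push_cast at e1
        exact e1
      have h4 : H (R - (p : ℝ) ^ e * R) ≤ C₂ := by
        have e1 : H (R - (p : ℝ) ^ e * R) ≤ ∑ j ∈ Finset.range ((Q l).natDegree + 1),
            H (R - (p : ℝ) ^ ((Q l).natDegree - j) * R) :=
          Finset.single_le_sum (f := fun j => H (R - (p : ℝ) ^ ((Q l).natDegree - j) * R))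
            (fun _ _ => hH.nonneg _) (Finset.mem_range.mpr (by omega))
        refine e1.trans ?_
        exact Finset.single_le_sum (f := fun i => ∑ j ∈ Finset.range ((Q i).natDegree + 1),
            H (R - (p : ℝ) ^ ((Q i).natDegree - j) * R))
            (fun _ _ => Finset.sum_nonneg fun _ _ => hH.nonneg _) hl
      have h5 : 2 * H δ ≤ (p : ℝ) ^ e * H δ :=
        mul_le_mul_of_nonneg_right (hp2.trans hpep) (hH.nonneg _)
      linarith
  intro i hi hQi
  have hpJ : (0 : ℝ) < (p : ℝ) ^ (Q i).natDegree := by positivity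
  have hinj : Function.Injective fun g : ℝ => R - (p : ℝ) ^ (Q i).natDegree * (r i - g) := by
    intro a b hab
    dsimp only at hab
    have h1 : (p : ℝ) ^ (Q i).natDegree * (r i - a) = (p : ℝ) ^ (Q i).natDegree * (r i - b) := by
      linarith
    have h2 := mul_left_cancel₀ hpJ.ne' h1
    linarith
  refine ((hH.fin Bd).preimage hinj.injOn).subset ?_
  intro g hg
  obtain ⟨hgG, hgr⟩ := hA i g hg
  have hgap : 0 < (p : ℝ) ^ (Q i).natDegree * (r i - g) := mul_pos hpJ (by linarith)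
  obtain ⟨n, hn⟩ := pow_unbounded_of_one_lt (C₁ / ((p : ℝ) ^ (Q i).natDegree * (r i - g))) hp1
  rw [div_lt_iff₀ hgap] at hn
  exact ⟨htopG i hi hQi g hgG, key n i hi hQi g hg hn⟩

/-! ## Coefficient functions -/

variable {Ω : Type u} [Field Ω] [Algebra k Ω] {v : RVal Ω} {M : ℝ → Ω}
  {N B : IntermediateField k Ω} {s r : ℝ}

/-- `A` is the coefficient function of `w` below `r`. -/
structure IsCoef (v : RVal Ω) (G : AddSubgroup ℝ) (M : ℝ → Ω) (r : ℝ) (w : Ω) (A : ℝ → k) :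
    Prop where
  mem : ∀ g, A g ≠ 0 → g ∈ G ∧ g < r
  app : ∀ b < r, ∃ L : ℝ →₀ k, InG G L ∧ v.Ge b (w - evL M L) ∧ ∀ g < b, L g = A g

theorem exists_coef (h : Ctx0 k v) (hM : MS v G M) (hN : LDense v G M N) {w : Ω}
    (hw : Lim v N r w) : ∃ A : ℝ → k, IsCoef v G M r w A := by
  classical
  have h1 : ∀ b : ℝ, ∃ L : ℝ →₀ k, b < r → InG G L ∧ v.Ge b (w - evL M L) := by
    intro b
    by_cases hb : b < r
    · obtain ⟨a, ha, h2⟩ := hw (r - b) (by linarith)
      obtain ⟨L, hL, h3⟩ := hN a ha b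
      refine ⟨L, fun _ => ⟨hL, ?_⟩⟩
      rw [sub_sub_cancel] at h2
      have := h2.add h3
      rwa [sub_add_sub_cancel] at this
    · exact ⟨0, fun h => absurd h hb⟩
  choose L hL using h1
  have huniq : ∀ b b' g, b < r → b' < r → g < b → g < b' → L b g = L b' g := by
    intro b b' g hb hb' hg hg'
    obtain ⟨h2, h3⟩ := hL b hb
    obtain ⟨h4, h5⟩ := hL b' hb'
    have h6 : v.Ge (min b b') (evL M (L b - L b')) := by
      rw [evL_sub]
      have e : evL M (L b) - evL M (L b') = (w - evL M (L b')) - (w - evL M (L b)) := by ring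
      rw [e]
      exact (h5.mono (min_le_right _ _)).sub (h3.mono (min_le_left _ _))
    have h7 := eq_zero_of_ge h hM (h2.sub h4) h6 (lt_min hg hg')
    rw [Finsupp.sub_apply] at h7
    exact sub_eq_zero.mp h7
  refine ⟨fun g => if g < r then L ((g + r) / 2) g else 0, ⟨fun g hg => ?_, fun b hb => ?_⟩⟩
  · split_ifs at hg with h2
    · exact ⟨(hL ((g + r) / 2) (by linarith)).1 g hg, h2⟩
    · exact absurd rfl hg
  · refine ⟨L b, (hL b hb).1, (hL b hb).2, fun g hg => ?_⟩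
    rw [if_pos (hg.trans hb)]
    exact huniq _ _ _ hb (by linarith) hg (by linarith)

theorem IsCoef.bdd {w : Ω} {A : ℝ → k} (hA : IsCoef v G M r w A) : ∃ C : ℝ, ∀ g, A g ≠ 0 → -C ≤ g := by
  classical
  obtain ⟨L, -, -, hL⟩ := hA.app (r - 1) (by linarith)
  obtain ⟨C, hC⟩ := (L.support : Set ℝ).toFinite.bddBelow
  refine ⟨max (-C) (1 - r), fun g hg => ?_⟩
  by_cases h : g < r - 1
  · have h1 : C ≤ g := hC (Finsupp.mem_support_iff.mpr (by rw [hL g h]; exact hg))
    have := le_max_left (-C) (1 - r)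
    linarith
  · have := le_max_right (-C) (1 - r)
    linarith

/-- A limit with finitely many coefficients. -/
theorem IsCoef.nr' (h : Ctx0 k v) (hM : MS v G M) (hMN : ∀ g ∈ G, M g ∈ N) (hB : Imm v N B)
    {w : Ω} (hw : w ∈ B) {A : ℝ → k} (hA : IsCoef v G M r w A) (hfin : {g | A g ≠ 0}.Finite) :
    Nr' v N r w := by
  classical
  set L₀ : ℝ →₀ k := Finsupp.onFinset hfin.toFinset A fun g hg => by
    rw [Set.Finite.mem_toFinset]; exact hg with hL₀
  have hL₀A : ∀ g, L₀ g = A g := fun g => rfl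
  have hL₀G : InG G L₀ := fun g hg => (hA.mem g hg).1
  have hL₀N : evL M L₀ ∈ N := by
    rw [evL, Finsupp.sum]
    exact sum_mem fun g hg => mul_mem (N.algebraMap_mem _)
      (hMN _ (hL₀G g (Finsupp.mem_support_iff.mp hg)))
  have h1 : v.Ge r (w - evL M L₀) := by
    intro hne
    refine le_of_forall_lt fun b hb => ?_
    obtain ⟨b', hb1, hb2⟩ := exists_between hb
    obtain ⟨L, hL1, hL2, hL3⟩ := hA.app b' hb2
    have h2 : v.Ge b' (evL M (L - L₀)) := by
      refine evL_ge h hM (hL1.sub hL₀G) fun g hg => ?_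
      by_contra hlt
      rw [not_le] at hlt
      rw [Finsupp.sub_apply, hL3 g hlt, hL₀A, sub_self] at hg
      exact hg rfl
    have h3 := hL2.add h2
    rw [evL_sub, sub_add_sub_cancel] at h3
    exact hb1.trans_le (h3 hne)
  by_cases h0 : w - evL M L₀ = 0
  · exact ⟨_, hL₀N, by rw [h0]; exact Gt.zero⟩
  · rcases (h1 h0).lt_or_eq with h2 | h2
    · exact ⟨_, hL₀N, fun _ => h2⟩
    · obtain ⟨a, ha, h3⟩ := hB.imm _ (sub_mem hw (hB.le hL₀N)) h0
      refine ⟨evL M L₀ + a, add_mem hL₀N ha, ?_⟩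
      rw [← sub_sub, h2]
      exact h3

/-- The operator `f` on Laurent polynomials. -/
noncomputable def opL (p : ℕ) (s r : ℝ) (f : k[X]) (L : ℝ →₀ k) : ℝ →₀ k :=
  ∑ j ∈ f.support, ∑ g ∈ L.support,
    Finsupp.single (r - (p : ℝ) ^ j * (s - g)) (f.coeff j * L g ^ p ^ j)

theorem opL_apply [Fact p.Prime] (f : k[X]) (L : ℝ →₀ k) (δ : ℝ) :
    opL p s r f L δ = ∑ j ∈ f.support, f.coeff j * L (s - (r - δ) / (p : ℝ) ^ j) ^ p ^ j := by
  classical
  have hp0 : (0 : ℝ) < p := by exact_mod_cast (Fact.out : p.Prime).pos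
  rw [opL, Finsupp.finsetSum_apply]
  refine Finset.sum_congr rfl fun j _ => ?_
  rw [Finsupp.finsetSum_apply]
  have hpj : (0 : ℝ) < (p : ℝ) ^ j := by positivity
  have hiff : ∀ g : ℝ, r - (p : ℝ) ^ j * (s - g) = δ ↔ g = s - (r - δ) / (p : ℝ) ^ j := by
    intro g
    constructor
    · intro h
      rw [← h]
      field_simp
      ring
    · intro h
      rw [h]
      field_simp
      ring
  by_cases hmem : s - (r - δ) / (p : ℝ) ^ j ∈ L.support
  · rw [Finset.sum_eq_single (s - (r - δ) / (p : ℝ) ^ j)]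
    · rw [Finsupp.single_apply, if_pos ((hiff _).mpr rfl)]
    · intro g _ hg
      rw [Finsupp.single_apply, if_neg fun h => hg ((hiff g).mp h)]
    · exact fun h => absurd hmem h
  · rw [Finsupp.notMem_support_iff.mp hmem, zero_pow (pow_ne_zero _ (Fact.out : p.Prime).ne_zero),
      mul_zero]
    refine Finset.sum_eq_zero fun g hg => ?_
    rw [Finsupp.single_apply, if_neg fun h => hmem ((hiff g).mp h ▸ hg)]

theorem evL_sum {ι : Type*} (S : Finset ι) (L : ι → ℝ →₀ k) :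
    evL M (∑ i ∈ S, L i) = ∑ i ∈ S, evL M (L i) := by
  classical
  induction S using Finset.induction_on with
  | empty => rw [Finset.sum_empty, Finset.sum_empty, evL_zero]
  | insert i S hi ih => rw [Finset.sum_insert hi, Finset.sum_insert hi, evL_add, ih]

theorem opL_inG [Fact p.Prime] {f : k[X]} (hf : IsOp p G s r f) {L : ℝ →₀ k} (hL : InG G L) :
    InG G (opL p s r f L) := by
  classical
  have hp0 : (0 : ℝ) < p := by exact_mod_cast (Fact.out : p.Prime).pos
  intro δ hδ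
  rw [opL_apply] at hδ
  obtain ⟨j, hj, h1⟩ := Finset.exists_ne_zero_of_sum_ne_zero hδ
  have h2 : L (s - (r - δ) / (p : ℝ) ^ j) ≠ 0 := by
    intro h
    refine right_ne_zero_of_mul h1 ?_
    rw [h, zero_pow (pow_ne_zero _ (Fact.out : p.Prime).ne_zero)]
  have h3 := hL _ h2
  have h4 := hf j (mem_support_iff.mp hj)
  have h5 := G.add_mem h4 (G.nsmul_mem h3 (p ^ j))
  rw [nsmul_eq_mul] at h5
  push_cast at h5
  have hpj : (0 : ℝ) < (p : ℝ) ^ j := by positivity
  convert h5 using 1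
  field_simp
  ring

theorem evL_opL [Fact p.Prime] [CharP Ω p] (hM : MS v G M) {f : k[X]} (hf : IsOp p G s r f)
    {L : ℝ →₀ k} (hL : InG G L) : evL M (opL p s r f L) = ev p M s r f (evL M L) := by
  rw [opL, evL_sum, ev, Polynomial.sum]
  refine Finset.sum_congr rfl fun j hj => ?_
  rw [evL_sum]
  conv_rhs => rw [evL, Finsupp.sum, sum_pow_char_pow, Finset.mul_sum]
  refine Finset.sum_congr rfl fun g hg => ?_
  have hgG := hL g (Finsupp.mem_support_iff.mp hg)
  have hjG := hf j (mem_support_iff.mp hj)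
  rw [evL_single, mul_pow, ← hM.pow hgG (p ^ j), map_mul, map_pow]
  have e : M (r - (p : ℝ) ^ j * (s - g)) = M (r - (p : ℝ) ^ j * s) * M (((p ^ j : ℕ) : ℝ) * g) := by
    rw [← hM.mul _ hjG _ (by rw [← nsmul_eq_mul]; exact G.nsmul_mem hgG _)]
    congr 1
    push_cast
    ring
  rw [e]
  ring

/-- **H1.** -/
theorem nr'_of_rel [Fact p.Prime] [CharP Ω p] (h : Ctx0 k v) (hM : MS v G M)
    (hMN : ∀ g ∈ G, M g ∈ N) (hN : LDense v G M N) (hG : G.FG) (hB : Imm v N B) {ι : Type*}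
    (S : Finset ι) (r : ι → ℝ) (w : ι → Ω) (hw : ∀ i ∈ S, w i ∈ B ∧ Lim v N (r i) (w i)) (R : ℝ)
    (Q : ι → k[X]) (hQ : ∀ i ∈ S, IsOp p G (r i) R (Q i))
    (hrel : Nr' v N R (∑ i ∈ S, ev p M (r i) R (Q i) (w i)))
    (hd : ∀ i ∈ S, ∀ j ∈ S, i ≠ j → Q i ≠ 0 → Q j ≠ 0 → (Q j).natDegree ≤ (Q i).natDegree →
      r j - (p : ℝ) ^ ((Q i).natDegree - (Q j).natDegree) * r i ∉ G) :
    ∀ i ∈ S, Q i ≠ 0 → Nr' v N (r i) (w i) := by
  classical
  obtain ⟨H, hH⟩ := exists_hgt hG
  have hp0 : (0 : ℝ) < p := by exact_mod_cast (Fact.out : p.Prime).pos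
  have hp1 : (1 : ℝ) < p := by exact_mod_cast (Fact.out : p.Prime).one_lt
  have hA' : ∀ i, ∃ A : ℝ → k, i ∈ S → IsCoef v G M (r i) (w i) A := by
    intro i
    by_cases hi : i ∈ S
    · obtain ⟨A, hA⟩ := exists_coef h hM hN (hw i hi).2
      exact ⟨A, fun _ => hA⟩
    · exact ⟨fun _ => 0, fun h => absurd h hi⟩
  choose A₀ hA₀ using hA'
  -- zero outside `S`
  set A : ι → ℝ → k := fun i => if i ∈ S then A₀ i else fun _ => 0 with hA
  have hAS : ∀ i ∈ S, A i = A₀ i := fun i hi => if_pos hi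
  have hAc : ∀ i ∈ S, IsCoef v G M (r i) (w i) (A i) := fun i hi => by
    rw [hAS i hi]; exact hA₀ i hi
  have hAmem : ∀ i g, A i g ≠ 0 → g ∈ G ∧ g < r i := by
    intro i g hg
    by_cases hi : i ∈ S
    · exact (hAc i hi).mem g hg
    · exfalso
      rw [hA] at hg
      dsimp only at hg
      rw [if_neg hi] at hg
      exact hg rfl
  have hbd' : ∀ i, ∃ C : ℝ, ∀ g, A i g ≠ 0 → -C ≤ g := by
    intro i
    by_cases hi : i ∈ S
    · exact (hAc i hi).bdd
    · refine ⟨0, fun g hg => ?_⟩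
      exfalso
      rw [hA] at hg
      dsimp only at hg
      rw [if_neg hi] at hg
      exact hg rfl
  choose C hC using hbd'
  obtain ⟨a, ha, h1⟩ := hrel
  obtain ⟨Ln, hLn, h2⟩ := hN a ha R
  have h3 : v.Ge R (∑ i ∈ S, ev p M (r i) R (Q i) (w i) - evL M Ln) := by
    have := h1.ge.add h2
    rwa [sub_add_sub_cancel] at this
  have hfin := finite_of_gap hH S r R Q hQ hd A hAmem (∑ i ∈ S, |C i|)
    (fun i hi g hg => by
      have e1 := hC i g hg
      have e2 : |C i| ≤ ∑ i ∈ S, |C i| :=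
        Finset.single_le_sum (f := fun i => |C i|) (fun _ _ => abs_nonneg _) hi
      have e3 := le_abs_self (C i)
      linarith) Ln.support ?_
  · intro i hi hQi
    exact (hAc i hi).nr' h hM hMN hB (hw i hi).1 (hfin i hi hQi)
  · intro δ hδ hδF
    -- a common bound of the degrees
    obtain ⟨D, hD⟩ : ∃ D : ℕ, ∀ i ∈ S, (Q i).natDegree ≤ D :=
      ⟨∑ i ∈ S, (Q i).natDegree, fun i hi =>
        Finset.single_le_sum (f := fun i => (Q i).natDegree) (fun _ _ => Nat.zero_le _) hi⟩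
    set η : ℝ := (R - δ) / (2 * (p : ℝ) ^ D) with hη
    have hη0 : 0 < η := div_pos (by linarith) (by positivity)
    have hηD : (p : ℝ) ^ D * η = (R - δ) / 2 := by rw [hη]; field_simp
    have hpj : ∀ j, j ≤ D → (p : ℝ) ^ j * η ≤ (R - δ) / 2 := by
      intro j hj
      rw [← hηD]
      exact mul_le_mul_of_nonneg_right (pow_le_pow_right₀ hp1.le hj) hη0.le
    have hLex : ∀ i, ∃ L : ℝ →₀ k, i ∈ S → InG G L ∧ v.Ge (r i - η) (w i - evL M L) ∧
        ∀ g < r i - η, L g = A i g := by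
      intro i
      by_cases hi : i ∈ S
      · obtain ⟨L, hL⟩ := (hAc i hi).app (r i - η) (by linarith)
        exact ⟨L, fun _ => hL⟩
      · exact ⟨0, fun h => absurd h hi⟩
    choose L hL using hLex
    have h4 : v.Ge ((R + δ) / 2) (evL M (∑ i ∈ S, opL p (r i) R (Q i) (L i) - Ln)) := by
      rw [evL_sub, evL_sum]
      have e : ∑ i ∈ S, evL M (opL p (r i) R (Q i) (L i)) - evL M Ln =
          (∑ i ∈ S, ev p M (r i) R (Q i) (w i) - evL M Ln) -
          ∑ i ∈ S, ev p M (r i) R (Q i) (w i - evL M (L i)) := by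
        rw [sub_right_comm, ← Finset.sum_sub_distrib]
        congr 1
        refine Finset.sum_congr rfl fun i hi => ?_
        rw [evL_opL hM (hQ i hi) (hL i hi).1, ev_sub_right]
        ring
      rw [e]
      refine (h3.mono (by linarith)).sub ?_
      refine RVal.Ge.sum (v := v) _ _ fun i hi => ?_
      have e2 := ev_ge h hM (hQ i hi) (hL i hi).2.1 (c := (R - δ) / 2) (fun j hj =>
        hpj j ((le_natDegree_of_ne_zero hj).trans (hD i hi)))
      refine e2.mono ?_
      linarith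
    have hInG : InG G (∑ i ∈ S, opL p (r i) R (Q i) (L i) - Ln) := by
      refine InG.sub ?_ hLn
      intro g hg
      rw [Finsupp.finsetSum_apply] at hg
      obtain ⟨i, hi, h5⟩ := Finset.exists_ne_zero_of_sum_ne_zero hg
      exact opL_inG (hQ i hi) (hL i hi).1 g h5
    have h5 := eq_zero_of_ge h hM hInG h4 (g := δ) (by linarith)
    rw [Finsupp.sub_apply, Finsupp.notMem_support_iff.mp hδF, sub_zero,
      Finsupp.finsetSum_apply] at h5
    rw [← h5]
    refine Finset.sum_congr rfl fun i hi => ?_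
    rw [opL_apply]
    refine Finset.sum_congr rfl fun j hj => ?_
    have hj' : j ≤ D := (le_natDegree_of_ne_zero (mem_support_iff.mp hj)).trans (hD i hi)
    rw [(hL i hi).2.2]
    have hpj0 : (0 : ℝ) < (p : ℝ) ^ j := by positivity
    have e1 := hpj j hj'
    have e2 : η < (R - δ) / (p : ℝ) ^ j := by
      rw [lt_div_iff₀ hpj0, mul_comm]
      linarith
    linarith

theorem gsub_inter {Z : ℝ → Ω → Prop} (hZ : GSub k p G M Z) (hMB : ∀ g ∈ G, M g ∈ B) :
    GSub k p G M (fun r w => w ∈ B ∧ Z r w) where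
  zero := fun r => ⟨zero_mem _, hZ.zero r⟩
  add := fun r a b ha hb => ⟨add_mem ha.1 hb.1, hZ.add r a b ha.2 hb.2⟩
  op := fun c s d j w hd hw => ⟨mul_mem (mul_mem (B.algebraMap_mem c) (hMB d hd)) (pow_mem hw.1 _),
    hZ.op c s d j w hd hw.2⟩

/-- **E4** for the limits of a field `F ≤ B`. -/
theorem exists_reduced_field [IsAlgClosed k] [Fact p.Prime] [CharP k p] [CharP Ω p]
    (h : Ctx0 k v) (hM : MS v G M) {F : IntermediateField k Ω} (hMF : ∀ g ∈ G, M g ∈ F)
    (hFB : F ≤ B) {ι : Type*} [Fintype ι] [DecidableEq ι] (r : ι → ℝ) (w₀ : ι → Ω)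
    (hw₀ : ∀ i, w₀ i ∈ B ∧ Lim v F (r i) (w₀ i)) :
    ∃ (S : Finset ι) (w : ι → Ω), (∀ i ∈ S, w i ∈ B ∧ Lim v F (r i) (w i)) ∧
      (∀ i, InSpan k p G M (Nr' v F) r w S (r i) (w₀ i)) ∧
      (∀ i ∈ S, InSpan k p G M (Nr' v F) r w₀ Finset.univ (r i) (w i)) ∧
      (∀ i ∈ S, ¬ InSpan k p G M (Nr' v F) r w (S.erase i) (r i) (w i)) ∧
      (FreeOn k p G M (Nr' v F) r w S ∨ ∃ (R : ℝ) (Q : ι → k[X]),
        (∀ i ∈ S, IsOp p G (r i) R (Q i)) ∧ (∃ i ∈ S, Q i ≠ 0) ∧
        Nr' v F R (∑ i ∈ S, ev p M (r i) R (Q i) (w i)) ∧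
        (∀ i ∈ S, Q i ≠ 0 → 1 ≤ (Q i).natDegree) ∧
        ∀ i ∈ S, ∀ j ∈ S, i ≠ j → Q i ≠ 0 → Q j ≠ 0 → (Q j).natDegree ≤ (Q i).natDegree →
          r j - (p : ℝ) ^ ((Q i).natDegree - (Q j).natDegree) * r i ∉ G) := by
  classical
  have hMB : ∀ g ∈ G, M g ∈ B := fun g hg => hFB (hMF g hg)
  have hsub : ∀ (t : ℝ) (x : Ω) (T : Finset ι) (w : ι → Ω),
      InSpan k p G M (fun r w => w ∈ B ∧ Nr' v F r w) r w T t x →
      InSpan k p G M (Nr' v F) r w T t x := fun t x T w ⟨Q, hQ, h1⟩ => ⟨Q, hQ, h1.2⟩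
  have hmem : ∀ (t : ℝ) (Q : ι → k[X]) (T : Finset ι) (w : ι → Ω),
      (∀ i ∈ T, w i ∈ B) → (∀ i ∈ T, IsOp p G (r i) t (Q i)) →
      ∑ i ∈ T, ev p M (r i) t (Q i) (w i) ∈ B := fun t Q T w hT hQ =>
    sum_mem fun i hi => ev_mem hMB (hQ i hi) (hT i hi)
  obtain ⟨S, w, h1, h2, h3, h4, h5⟩ := exists_reduced (k := k) (p := p) (G := G) (M := M) (v := v)
    (Z := fun r w => w ∈ B ∧ Nr' v F r w) (L := fun r w => w ∈ B ∧ Lim v F r w) hM
    (gsub_inter (gsub_Nr' h hM hMF) hMB) (gsub_Lim h hM hMF hFB)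
    (fun t a ha => ⟨ha.1, fun ε hε => by
      obtain ⟨b, hb, h6⟩ := ha.2
      exact ⟨b, hb, h6.ge.mono (by linarith)⟩⟩) r w₀ hw₀
  refine ⟨S, w, h1, fun i => hsub _ _ _ _ (h2 i), fun i hi => hsub _ _ _ _ (h3 i hi),
    fun i hi hsp => h4 i hi ?_, ?_⟩
  · obtain ⟨Q, hQ, h6⟩ := hsp
    exact ⟨Q, hQ, sub_mem (h1 i hi).1 (hmem _ Q _ w
      (fun j hj => (h1 j (Finset.mem_of_mem_erase hj)).1) hQ), h6⟩
  · rcases h5 with h5 | ⟨R, Q, hQ, hne, hrel, hdeg, hd⟩
    · exact Or.inl fun R P hP hrel => h5 R P hP ⟨hmem _ P _ w (fun j hj => (h1 j hj).1) hP, hrel⟩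
    · exact Or.inr ⟨R, Q, hQ, hne, hrel.2, hdeg, hd⟩

/-- **H2.** Finitely many limits of `N` in an immediate extension `B` have the same span as a free
family. -/
theorem exists_free [IsAlgClosed k] [Fact p.Prime] [CharP k p] [CharP Ω p] (h : Ctx0 k v)
    (hM : MS v G M) (hMN : ∀ g ∈ G, M g ∈ N) (hN : LDense v G M N) (hG : G.FG) (hB : Imm v N B)
    {ι : Type*} [Fintype ι] [DecidableEq ι] (r : ι → ℝ) (w₀ : ι → Ω)
    (hw₀ : ∀ i, w₀ i ∈ B ∧ Lim v N (r i) (w₀ i)) :
    ∃ (S : Finset ι) (w : ι → Ω), (∀ i ∈ S, w i ∈ B ∧ Lim v N (r i) (w i)) ∧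
      (∀ i, InSpan k p G M (Nr' v N) r w S (r i) (w₀ i)) ∧
      (∀ i ∈ S, InSpan k p G M (Nr' v N) r w₀ Finset.univ (r i) (w i)) ∧
      (∀ i ∈ S, ¬ Nr' v N (r i) (w i)) ∧ FreeOn k p G M (Nr' v N) r w S := by
  obtain ⟨S, w, h1, h2, h3, h4, h5⟩ := exists_reduced_field h hM hMN hB.le r w₀ hw₀
  have h6 : ∀ i ∈ S, ¬ Nr' v N (r i) (w i) := fun i hi h7 => h4 i hi (InSpan.of_Z h7)
  refine ⟨S, w, h1, h2, h3, h6, ?_⟩
  rcases h5 with h5 | ⟨R, Q, hQ, ⟨i, hi, hQi⟩, hrel, -, hd⟩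
  · exact h5
  · exact absurd (nr'_of_rel h hM hMN hN hG hB S r w h1 R Q hQ hrel hd i hi hQi) (h6 i hi)

end Pool.Agent.TWM
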