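import Pool.Agent.Lib.TWM.A2
import Pool.Agent.Lib.TWM.Free
import Pool.Agent.Lib.TW.F8
import Pool.Agent.Lib.TW.MF10

/-!
# The core lemma over `N`

The bridge from the Laurent level (`TW.MH.core`) to the fields.
-/

set_option autoImplicit false

open Polynomial Finset Filter

namespace Pool.Agent.TWM

open Pool.Agent.H15JM (RVal)
open Pool.Agent.D2 (Ctx0)
open Pool.Agent.TW.MH (LL GeV LimSeq GeW Ops Crit)
open Pool.Agent.LU1 (adj)

universe u

variable {k Ω : Type u} [Field k] [Field Ω] [Algebra k Ω] {v : RVal Ω} {d : ℕ}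
  {val : (Fin d → ℤ) →+ ℝ} {M : ℝ → Ω}

/-- The monomials. -/
noncomputable def monHom (hM : MS v val.range M) : Multiplicative (Fin d → ℤ) →* Ω where
  toFun l := M (val l.toAdd)
  map_one' := by
    rw [toAdd_one, map_zero]
    exact hM.zero
  map_mul' l l' := by
    rw [toAdd_mul, map_add]
    exact hM.mul _ ⟨_, rfl⟩ _ ⟨_, rfl⟩

/-- Laurent polynomials in `Ω`. -/
noncomputable def Phi (k : Type u) {Ω : Type u} [Field k] [Field Ω] [Algebra k Ω] {v : RVal Ω}
    {d : ℕ} {val : (Fin d → ℤ) →+ ℝ} {M : ℝ → Ω} (hM : MS v val.range M) : LL k d →+* Ω :=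
  (AddMonoidAlgebra.lift k Ω (Fin d → ℤ) (monHom hM)).toRingHom

variable (hM : MS v val.range M)

theorem Phi_single (l : Fin d → ℤ) (c : k) :
    Phi k hM (AddMonoidAlgebra.single l c) = algebraMap k Ω c * M (val l) := by
  change AddMonoidAlgebra.lift k Ω (Fin d → ℤ) (monHom hM) (AddMonoidAlgebra.single l c) = _
  rw [AddMonoidAlgebra.lift_single, Algebra.smul_def]
  rfl

/-- The same as a Laurent polynomial with real exponents. -/
theorem Phi_eq (f : LL k d) : Phi k hM f = evL M (Finsupp.mapDomain val f.coeff) := by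
  change AddMonoidAlgebra.lift k Ω (Fin d → ℤ) (monHom hM) f = _
  rw [AddMonoidAlgebra.lift_apply', evL, Finsupp.sum_mapDomain_index]
  · rfl
  · intro g; rw [map_zero, zero_mul]
  · intro g a b; rw [map_add, add_mul]

theorem mapDomain_val (hinj : Function.Injective val) (f : LL k d) (l : Fin d → ℤ) :
    Finsupp.mapDomain val f.coeff (val l) = f.coeff l := Finsupp.mapDomain_apply hinj _ _

theorem mapDomain_inG (f : LL k d) : InG val.range (Finsupp.mapDomain val f.coeff) := by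
  classical
  intro g hg
  have h1 := Finsupp.mapDomain_support (Finsupp.mem_support_iff.mpr hg)
  obtain ⟨l, -, hl⟩ := Finset.mem_image.mp h1
  exact ⟨l, hl⟩

theorem Phi_ge (h : Ctx0 k v) (hinj : Function.Injective val) (f : LL k d) (b : ℝ) :
    v.Ge b (Phi k hM f) ↔ GeV val b f := by
  constructor
  · intro hb l hl
    by_contra hlt
    rw [not_le] at hlt
    rw [Phi_eq] at hb
    have h1 := eq_zero_of_ge h hM (mapDomain_inG f) hb hlt
    rw [mapDomain_val hinj] at h1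
    exact hl h1
  · intro hb
    rw [Phi_eq]
    refine evL_ge h hM (mapDomain_inG f) fun g hg => ?_
    obtain ⟨l, rfl⟩ := mapDomain_inG f g hg
    rw [mapDomain_val hinj] at hg
    exact hb l hg

theorem Phi_injective (h : Ctx0 k v) (hinj : Function.Injective val) :
    Function.Injective (Phi k hM) := by
  rw [injective_iff_map_eq_zero]
  intro f hf
  ext l
  by_contra hne
  have h1 : GeV val (val l + 1) f := by
    rw [← Phi_ge hM h hinj, hf]
    exact RVal.Ge.zero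
  have h2 := h1 l hne
  linarith

theorem exists_Phi (L : ℝ →₀ k) (hL : InG val.range L) : ∃ f : LL k d, Phi k hM f = evL M L := by
  classical
  have h1 : ∀ g ∈ L.support, ∃ l, val l = g := fun g hg =>
    hL g (Finsupp.mem_support_iff.mp hg)
  choose! l hl using h1
  refine ⟨∑ g ∈ L.support, AddMonoidAlgebra.single (l g) (L g), ?_⟩
  rw [map_sum, evL, Finsupp.sum]
  exact Finset.sum_congr rfl fun g hg => by rw [Phi_single, hl g hg]

variable {N : IntermediateField k Ω}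

theorem Phi_mem (hMN : ∀ g ∈ val.range, M g ∈ N) (f : LL k d) : Phi k hM f ∈ N := by
  rw [Phi_eq, evL, Finsupp.sum]
  exact sum_mem fun g hg => mul_mem (N.algebraMap_mem _)
    (hMN g (mapDomain_inG f g (Finsupp.mem_support_iff.mp hg)))

theorem exists_Phi_near (hN : LDense v val.range M N) {a : Ω} (ha : a ∈ N) (b : ℝ) :
    ∃ f : LL k d, v.Ge b (a - Phi k hM f) := by
  obtain ⟨L, hL, h1⟩ := hN a ha b
  obtain ⟨f, hf⟩ := exists_Phi hM L hL
  exact ⟨f, by rwa [hf]⟩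

theorem map_mem_PI (hMN : ∀ g ∈ val.range, M g ∈ N) (f : (LL k d)[X]) :
    f.map (Phi k hM) ∈ PI N := fun i => by
  rw [coeff_map]
  exact Phi_mem hM hMN _

variable [IsAlgClosed Ω]

/-- The elements of the closure of `N(y)` are approximated by polynomials over the Laurent
polynomials. -/
theorem exists_poly_near (hN : LDense v val.range M N) {y : Ω}
    {ρ : ℝ} (hy : TL v N y ρ) {w : Ω} (hw : w ∈ cadj v N y) (b : ℝ) :
    ∃ f : (LL k d)[X], v.Ge b (w - (f.map (Phi k hM)).eval y) := by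
  classical
  obtain ⟨g, hg, h1⟩ := hy.dense hw b
  have h2 : ∀ i : ℕ, ∃ a : LL k d, v.Ge (b - i * v y) (g.coeff i - Phi k hM a) := fun i =>
    exists_Phi_near hM hN (hg i) _
  choose a ha using h2
  refine ⟨∑ i ∈ g.support, C (a i) * X ^ i, ?_⟩
  have h3 : ((∑ i ∈ g.support, C (a i) * X ^ i : (LL k d)[X]).map (Phi k hM)).eval y =
      ∑ i ∈ g.support, Phi k hM (a i) * y ^ i := by
    rw [Polynomial.map_sum, eval_finsetSum]
    refine Finset.sum_congr rfl fun i _ => ?_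
    rw [Polynomial.map_mul, map_C, Polynomial.map_pow, map_X, eval_mul, eval_C, eval_pow, eval_X]
  have h4 : g.eval y = ∑ i ∈ g.support, g.coeff i * y ^ i := by
    rw [eval_eq_sum, Polynomial.sum]
  have h5 : w - ∑ i ∈ g.support, Phi k hM (a i) * y ^ i =
      (w - g.eval y) + ∑ i ∈ g.support, (g.coeff i - Phi k hM (a i)) * y ^ i := by
    rw [h4, Finset.sum_congr rfl fun i _ => sub_mul _ _ _, Finset.sum_sub_distrib]
    ring
  rw [h3, h5]
  refine h1.add (RVal.Ge.sum (v := v) _ _ fun i _ => ?_)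
  have h6 := RVal.Ge.mul (ha i) (ge_pow (v.ge_self y) i)
  rwa [sub_add_cancel] at h6

/-- The values of a polynomial at `y` and at the approximations. -/
theorem ge_eval_iff (h : Ctx0 k v) (hinj : Function.Injective val)
    (hMN : ∀ g ∈ val.range, M g ∈ N) {y : Ω} {ρ : ℝ} (hy : TL v N y ρ) {hs : ℕ → LL k d}
    (hhs : ∀ b < ρ, ∀ᶠ I in atTop, v.Ge b (y - Phi k hM (hs I))) (f : (LL k d)[X]) (b : ℝ) :
    v.Ge b ((f.map (Phi k hM)).eval y) ↔ ∀ᶠ I in atTop, GeV val b (f.eval (hs I)) := by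
  have hev : ∀ I, (f.map (Phi k hM)).eval (Phi k hM (hs I)) = Phi k hM (f.eval (hs I)) := fun I =>
    eval_map_apply ..
  by_cases h0 : f = 0
  · subst h0
    simp only [Polynomial.map_zero, eval_zero]
    exact ⟨fun _ => Eventually.of_forall fun _ => TW.MH.GeV.zero, fun _ => RVal.Ge.zero⟩
  · have hF0 : f.map (Phi k hM) ≠ 0 :=
      (Polynomial.map_ne_zero_iff (Phi_injective hM h hinj)).mpr h0
    have hF := PI_mono (le_algc N) (map_mem_PI hM hMN f)
    obtain ⟨δ, hδ, h1⟩ := hy.near_val hF hF0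
    have hne := hy.eval_ne hF hF0
    have h2 : ∀ᶠ I in atTop, (f.map (Phi k hM)).eval (Phi k hM (hs I)) ≠ 0 ∧
        v ((f.map (Phi k hM)).eval (Phi k hM (hs I))) = v ((f.map (Phi k hM)).eval y) := by
      filter_upwards [hhs (ρ - δ) (by linarith)] with I hI
      exact h1 _ hI
    constructor
    · intro hb
      filter_upwards [h2] with I hI
      rw [← Phi_ge hM h hinj, ← hev]
      intro _
      rw [hI.2]
      exact hb hne
    · intro hb
      obtain ⟨I, hI, hI'⟩ := (h2.and hb).exists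
      rw [← Phi_ge hM h hinj, ← hev] at hI'
      intro _
      rw [← hI.2]
      exact hI' hI.1

theorem hasseDeriv_map' {A A' : Type*} [CommRing A] [CommRing A'] (φ : A →+* A') (l : ℕ)
    (f : A[X]) : (hasseDeriv l f).map φ = hasseDeriv l (f.map φ) := by
  ext n
  rw [coeff_map, hasseDeriv_coeff, hasseDeriv_coeff, coeff_map, map_mul, map_natCast]

/-- The sequence of `y`. -/
theorem exists_limSeq (h : Ctx0 k v) (hinj : Function.Injective val)
    (hMN : ∀ g ∈ val.range, M g ∈ N) (hN : LDense v val.range M N) {y : Ω} {ρ : ℝ}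
    (hy : TL v N y ρ) : ∃ ys : LimSeq k val ρ, ∀ (f : (LL k d)[X]) (b : ℝ),
      GeW ys b f ↔ v.Ge b ((f.map (Phi k hM)).eval y) := by
  classical
  have h1 : ∀ I : ℕ, ∃ f : LL k d, v.Ge (ρ - 1 / ((I : ℝ) + 1)) (y - Phi k hM f) := by
    intro I
    obtain ⟨a, ha, h2⟩ := hy.lim (1 / ((I : ℝ) + 1)) (by positivity)
    obtain ⟨f, hf⟩ := exists_Phi_near hM hN ha (ρ - 1 / ((I : ℝ) + 1))
    refine ⟨f, ?_⟩
    have := h2.add hf
    rwa [sub_add_sub_cancel] at this
  choose hs hhs' using h1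
  have hhs : ∀ b < ρ, ∀ᶠ I in atTop, v.Ge b (y - Phi k hM (hs I)) := by
    intro b hb
    obtain ⟨n, hn⟩ := exists_nat_gt (1 / (ρ - b))
    filter_upwards [eventually_ge_atTop n] with I hI
    refine (hhs' I).mono ?_
    have h2 : 0 < ρ - b := by linarith
    have h3 : 1 / (ρ - b) < (I : ℝ) + 1 := by
      have : (n : ℝ) ≤ I := by exact_mod_cast hI
      linarith
    have h4 : 1 / ((I : ℝ) + 1) ≤ ρ - b := by
      rw [div_lt_iff₀ h2] at h3
      rw [div_le_iff₀ (by positivity)]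
      linarith [mul_comm ((I : ℝ) + 1) (ρ - b)]
    linarith
  have hiff := fun (f : (LL k d)[X]) (b : ℝ) => ge_eval_iff hM h hinj hMN hy hhs f b
  refine ⟨⟨hs, fun b hb => ?_, fun f b hf l => ?_, fun a => ?_⟩, fun f b => (hiff f b).symm⟩
  · obtain ⟨I₀, hI₀⟩ := eventually_atTop.mp (hhs b hb)
    refine ⟨I₀, fun I hI I' hI' => ?_⟩
    rw [← Phi_ge hM h hinj, map_sub]
    have := (hI₀ I' hI').sub (hI₀ I hI)
    rwa [sub_sub_sub_cancel_left] at this
  · rw [← hiff] at hf ⊢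
    rw [hasseDeriv_map']
    by_cases h0 : f.map (Phi k hM) = 0
    · rw [h0, map_zero, eval_zero]
      exact RVal.Ge.zero
    · have hF := PI_mono (le_algc N) (map_mem_PI hM hMN f)
      have h2 := hy.weak hF h0 l
      rw [taylor_coeff] at h2
      refine h2.mono ?_
      have h3 := hf (hy.eval_ne hF h0)
      linarith
  · have hPa : IsAlgebraic N (Phi k hM a) := isAlgebraic_algebraMap (⟨_, Phi_mem hM hMN a⟩ : N)
    obtain ⟨h2, h3⟩ := hy.far _ hPa
    refine ⟨(v (y - Phi k hM a) + ρ) / 2, by linarith, ?_⟩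
    filter_upwards [hhs ((v (y - Phi k hM a) + ρ) / 2) (by linarith)] with I hI hcon
    rw [← Phi_ge hM h hinj, map_sub] at hcon
    have h4 := hI.add hcon
    rw [sub_add_sub_cancel] at h4
    have h5 := h4 (sub_ne_zero.mpr h2)
    linarith

/-! ## Operators -/

variable {p : ℕ}

omit [IsAlgClosed Ω] in
theorem ev_eq_sum (s r : ℝ) (f : k[X]) (w : Ω) : ev p M s r f w =
    ∑ j ∈ Finset.range (f.natDegree + 1),
      algebraMap k Ω (f.coeff j) * M (r - (p : ℝ) ^ j * s) * w ^ p ^ j := by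
  rw [ev, Polynomial.sum_over_range]
  intro n
  rw [map_zero, zero_mul, zero_mul]

open Classical in
/-- The exponent of value `g`. -/
noncomputable def expo (val : (Fin d → ℤ) →+ ℝ) (g : ℝ) : Fin d → ℤ :=
  if h : ∃ l, val l = g then h.choose else 0

theorem val_expo {g : ℝ} (hg : g ∈ val.range) : val (expo val g) = g := by
  have h : ∃ l, val l = g := hg
  rw [expo, dif_pos h]
  exact h.choose_spec

/-- The operators as a family on the Laurent level. -/
noncomputable def mkOps [Fact p.Prime] {m : ℕ} {r : Fin m → ℝ} {R : ℝ} {Q : Fin m → k[X]}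
    (hQ : ∀ i, IsOp p val.range (r i) R (Q i)) (h0 : ∀ i, Q i ≠ 0)
    (hd : ∀ i j, i ≠ j → (Q j).natDegree ≤ (Q i).natDegree →
      r j - (p : ℝ) ^ ((Q i).natDegree - (Q j).natDegree) * r i ∉ val.range) :
    Ops p k d m val r R where
  J i := (Q i).natDegree
  c i j := (Q i).coeff j
  lam i j := expo val (R - (p : ℝ) ^ j * r i)
  top i := by rw [coeff_natDegree]; exact leadingCoeff_ne_zero.mpr (h0 i)
  hom i j _ hc := by
    rw [val_expo (hQ i j hc)]
    ring
  nd i i' hne hle g hg := by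
    refine hd i' i hne.symm hle ?_
    have hi := hQ i (Q i).natDegree (by rw [coeff_natDegree]; exact leadingCoeff_ne_zero.mpr (h0 i))
    have hi' := hQ i' (Q i').natDegree
      (by rw [coeff_natDegree]; exact leadingCoeff_ne_zero.mpr (h0 i'))
    have h1 := congrArg val hg
    rw [map_add, map_nsmul, val_expo hi, val_expo hi', nsmul_eq_mul] at h1
    refine ⟨g, ?_⟩
    have hp0 : (p : ℝ) ≠ 0 := by exact_mod_cast (Fact.out : p.Prime).ne_zero
    have hpi : (p : ℝ) ^ (Q i).natDegree ≠ 0 := pow_ne_zero _ hp0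
    have h2 : (p : ℝ) ^ (Q i').natDegree =
        (p : ℝ) ^ (Q i).natDegree * (p : ℝ) ^ ((Q i').natDegree - (Q i).natDegree) := by
      rw [← pow_add]
      congr 1
      omega
    have h3 : (p : ℝ) ^ (Q i).natDegree * val g = (p : ℝ) ^ (Q i).natDegree *
        (r i - (p : ℝ) ^ ((Q i').natDegree - (Q i).natDegree) * r i') := by
      rw [h2] at h1
      push_cast at h1
      linarith
    exact mul_left_cancel₀ hpi h3

omit [IsAlgClosed Ω] in
theorem act_eval [Fact p.Prime] {m : ℕ} {r : Fin m → ℝ} {R : ℝ} {Q : Fin m → k[X]}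
    (hQ : ∀ i, IsOp p val.range (r i) R (Q i)) (h0 : ∀ i, Q i ≠ 0)
    (hd : ∀ i j, i ≠ j → (Q j).natDegree ≤ (Q i).natDegree →
      r j - (p : ℝ) ^ ((Q i).natDegree - (Q j).natDegree) * r i ∉ val.range)
    (ψ : Fin m → (LL k d)[X]) (y : Ω) :
    (((mkOps hQ h0 hd).act ψ).map (Phi k hM)).eval y =
      ∑ i, ev p M (r i) R (Q i) (((ψ i).map (Phi k hM)).eval y) := by
  rw [Ops.act, Polynomial.map_sum, eval_finsetSum]
  refine Finset.sum_congr rfl fun i _ => ?_
  rw [ev_eq_sum, Polynomial.map_sum, eval_finsetSum]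
  refine Finset.sum_congr rfl fun j _ => ?_
  rw [Polynomial.map_mul, map_C, Polynomial.map_pow, eval_mul, eval_C, eval_pow]
  congr 1
  change Phi k hM (AddMonoidAlgebra.single (expo val (R - (p : ℝ) ^ j * r i)) ((Q i).coeff j)) = _
  rw [Phi_single]
  by_cases hc : (Q i).coeff j = 0
  · rw [hc, map_zero, zero_mul, zero_mul]
  · rw [val_expo (hQ i j hc)]

omit [IsAlgClosed Ω] in
/-- A critical additive polynomial is an operator. -/
theorem exists_op_of_crit [Fact p.Prime] (hinj : Function.Injective val) {ρ R : ℝ}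
    {q : (LL k d)[X]} (hq : q ∈ Crit k p val ρ R) :
    ∃ f : k[X], IsOp p val.range ρ R f ∧
      ∀ y : Ω, (q.map (Phi k hM)).eval y = ev p M ρ R f y := by
  classical
  have h1 : ∀ n ∈ q.support, ∃ (g : Fin d → ℤ) (j : ℕ), (q.coeff n).coeff g ≠ 0 ∧ n = p ^ j ∧
      val g + n * ρ = R := by
    intro n hn
    have h2 : (q.coeff n).coeff ≠ 0 := by
      intro h3
      refine mem_support_iff.mp hn ?_
      ext g
      rw [h3]
      rfl
    obtain ⟨g, hg⟩ := Finsupp.ne_iff.mp h2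
    obtain ⟨j, hj, h3⟩ := hq n g hg
    exact ⟨g, j, hg, hj, h3⟩
  choose! g j hg hj hv using h1
  refine ⟨∑ n ∈ q.support, C ((q.coeff n).coeff (g n)) * X ^ (j n), ?_, fun y => ?_⟩
  · refine IsOp.sum fun n hn => IsOp.mono fun _ => ?_
    refine ⟨g n, ?_⟩
    have h2 := hv n hn
    have h3 : (n : ℝ) = (p : ℝ) ^ j n := by exact_mod_cast congrArg (Nat.cast (R := ℝ)) (hj n hn)
    rw [h3] at h2
    linarith
  · rw [ev_sum, eval_eq_sum_range' (n := (q.map (Phi k hM)).natDegree + 1) (Nat.lt_succ_self _)]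
    have h2 : (q.map (Phi k hM)).eval y = ∑ n ∈ q.support, Phi k hM (q.coeff n) * y ^ n := by
      conv_lhs => rw [q.as_sum_support_C_mul_X_pow]
      rw [Polynomial.map_sum, eval_finsetSum]
      refine Finset.sum_congr rfl fun n _ => ?_
      rw [Polynomial.map_mul, map_C, Polynomial.map_pow, map_X, eval_mul, eval_C, eval_pow, eval_X]
    rw [← eval_eq_sum_range' (Nat.lt_succ_self _), h2]
    refine Finset.sum_congr rfl fun n hn => ?_
    have h3 : q.coeff n = AddMonoidAlgebra.single (g n) ((q.coeff n).coeff (g n)) := by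
      ext g'
      rw [TW.MH.coeff_single']
      split_ifs with h4
      · rw [h4]
      · by_contra hne
        obtain ⟨_, -, h5⟩ := hq n g' hne
        exact h4 (hinj (by linarith [hv n hn]))
    conv_lhs => rw [h3]
    rw [Phi_single, ev_mono]
    have h4 : val (g n) = R - (p : ℝ) ^ j n * ρ := by
      have h2 := hv n hn
      have h5 : (n : ℝ) = (p : ℝ) ^ j n := by
        exact_mod_cast congrArg (Nat.cast (R := ℝ)) (hj n hn)
      rw [h5] at h2
      linarith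
    rw [h4]
    congr 1
    exact congrArg (fun m => y ^ m) (hj n hn)

omit [IsAlgClosed Ω] in
/-- An operator is a critical additive polynomial. -/
theorem exists_crit_of_op [Fact p.Prime] {ρ R : ℝ} {f : k[X]} (hf : IsOp p val.range ρ R f) :
    ∃ q ∈ Crit k p val ρ R, ∀ y : Ω, (q.map (Phi k hM)).eval y = ev p M ρ R f y := by
  classical
  refine ⟨∑ j ∈ f.support, C (AddMonoidAlgebra.single (expo val (R - (p : ℝ) ^ j * ρ))
    (f.coeff j) : LL k d) * X ^ p ^ j, ?_, fun y => ?_⟩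
  · refine AddSubgroup.sum_mem _ fun j hj => ?_
    intro n g hg
    rw [coeff_C_mul_X_pow] at hg
    split_ifs at hg with h1
    · rw [TW.MH.coeff_single'] at hg
      split_ifs at hg with h2
      · refine ⟨j, h1, ?_⟩
        rw [← h2, val_expo (hf j (mem_support_iff.mp hj)), h1]
        push_cast
        ring
      · exact absurd rfl hg
    · exact absurd rfl hg
  · rw [Polynomial.map_sum, eval_finsetSum, ev, Polynomial.sum]
    refine Finset.sum_congr rfl fun j hj => ?_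
    rw [Polynomial.map_mul, map_C, Polynomial.map_pow, map_X, eval_mul, eval_C, eval_pow, eval_X,
      Phi_single, val_expo (hf j (mem_support_iff.mp hj))]

/-! ## The core lemma over `N` -/

omit [Algebra k Ω] [IsAlgClosed Ω] in
/-- A finite set of indices with non zero operators, enumerated. -/
theorem exists_enum {ι : Type*} (S : Finset ι) (Q : ι → k[X]) :
    ∃ (m : ℕ) (e : Fin m → ι), Function.Injective e ∧ (∀ a, e a ∈ S ∧ Q (e a) ≠ 0) ∧
      (∀ i ∈ S, Q i ≠ 0 → ∃ a, e a = i) ∧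
      ∀ (F : ι → Ω), (∀ i ∈ S, Q i = 0 → F i = 0) → ∑ i ∈ S, F i = ∑ a, F (e a) := by
  classical
  set S' := S.filter fun i => Q i ≠ 0 with hS'
  let e := S'.equivFin.symm
  refine ⟨S'.card, fun a => e a, fun a b hab => e.injective (Subtype.ext hab), fun a => ?_,
    fun i hi hQ => ?_, fun F hF => ?_⟩
  · exact Finset.mem_filter.mp (e a).2
  · exact ⟨e.symm ⟨i, Finset.mem_filter.mpr ⟨hi, hQ⟩⟩,
      congrArg Subtype.val (e.apply_symm_apply _)⟩
  · have h1 : ∑ i ∈ S, F i = ∑ i ∈ S', F i := by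
      rw [hS', Finset.sum_filter]
      refine Finset.sum_congr rfl fun i hi => ?_
      split_ifs with h
      · rfl
      · exact hF i hi (not_not.mp h)
    rw [h1, ← Finset.sum_coe_sort S', ← e.sum_comp]

/-- **CORE over `N`.** `F = N⟨y⟩`; the tops of the operators `Q i` are pairwise non divisible. If
`φ ∈ F` is near `∑ Q_i(F) + N`, then `φ ∈ ∑ Q_i(F) + Q(y) + N + O(>R)`. -/
theorem core_N [IsAlgClosed k] [Fact p.Prime] [CharP k p] [CharP Ω p] (h : Ctx0 k v)
    (hM : MS v val.range M) (hinj : Function.Injective val)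
    (hMN : ∀ g ∈ val.range, M g ∈ N) (hN : LDense v val.range M N) {y : Ω} {ρ : ℝ}
    (hy : TL v N y ρ) {ι : Type*} (S : Finset ι) (r : ι → ℝ) (R : ℝ) (Q : ι → k[X])
    (hQ : ∀ i ∈ S, IsOp p val.range (r i) R (Q i))
    (hd : ∀ i ∈ S, ∀ j ∈ S, i ≠ j → Q i ≠ 0 → Q j ≠ 0 → (Q j).natDegree ≤ (Q i).natDegree →
      r j - (p : ℝ) ^ ((Q i).natDegree - (Q j).natDegree) * r i ∉ val.range)
    {φ : Ω} (hφ : φ ∈ cadj v N y)
    (hnear : ∀ ε : ℝ, 0 < ε → ∃ ψ : ι → Ω, (∀ i ∈ S, ψ i ∈ cadj v N y) ∧ ∃ n ∈ N,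
      v.Ge (R - ε) (φ - ∑ i ∈ S, ev p M (r i) R (Q i) (ψ i) - n)) :
    ∃ ψ : ι → Ω, (∀ i, ψ i ∈ cadj v N y) ∧ ∃ q : k[X], IsOp p val.range ρ R q ∧
      Nr' v N R (φ - ∑ i ∈ S, ev p M (r i) R (Q i) (ψ i) - ev p M ρ R q y) := by
  classical
  obtain ⟨m, e, hinj', he, hsurj, hsum⟩ := exists_enum (Ω := Ω) S Q
  obtain ⟨ys, hys⟩ := exists_limSeq hM h hinj hMN hN hy
  have hQ' : ∀ a, IsOp p val.range (r (e a)) R (Q (e a)) := fun a => hQ _ (he a).1
  have h0' : ∀ a, Q (e a) ≠ 0 := fun a => (he a).2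
  have hd' : ∀ a b, a ≠ b → (Q (e b)).natDegree ≤ (Q (e a)).natDegree →
      r (e b) - (p : ℝ) ^ ((Q (e a)).natDegree - (Q (e b)).natDegree) * r (e a) ∉ val.range :=
    fun a b hab hle => hd _ (he a).1 _ (he b).1 (fun h => hab (hinj' h)) (he a).2 (he b).2 hle
  have hev : ∀ ψ : ι → Ω, ∑ i ∈ S, ev p M (r i) R (Q i) (ψ i) =
      ∑ a, ev p M (r (e a)) R (Q (e a)) (ψ (e a)) := fun ψ =>
    hsum (fun i => ev p M (r i) R (Q i) (ψ i)) fun i _ h0 => by rw [h0, ev_zero]
  have hactM : ∀ ψ : Fin m → (LL k d)[X],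
      (((mkOps hQ' h0' hd').act ψ).map (Phi k hM)).eval y =
        ∑ a, ev p M (r (e a)) R (Q (e a)) (((ψ a).map (Phi k hM)).eval y) :=
    fun ψ => act_eval hM hQ' h0' hd' ψ y
  obtain ⟨f, hf⟩ := exists_poly_near hM hN hy hφ R
  obtain ⟨ψ, n, q, hq, hfin⟩ := TW.MH.core hinj ys (mkOps hQ' h0' hd') f (by
    intro ε hε
    obtain ⟨ψ, hψ, n, hn, h1⟩ := hnear ε hε
    have h2 : ∀ a, ∃ g : (LL k d)[X], v.Ge (r (e a) - 0) (ψ (e a) - (g.map (Phi k hM)).eval y) := by
      intro a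
      rw [sub_zero]
      exact exists_poly_near hM hN hy (hψ _ (he a).1) _
    choose ψ' hψ' using h2
    obtain ⟨n', hn'⟩ := exists_Phi_near hM hN hn R
    refine ⟨ψ', n', ?_⟩
    rw [hys, Polynomial.map_sub, Polynomial.map_sub, eval_sub, eval_sub, map_C, eval_C, hactM]
    have e1 : (f.map (Phi k hM)).eval y - ∑ a, ev p M (r (e a)) R (Q (e a))
        (((ψ' a).map (Phi k hM)).eval y) - Phi k hM n' =
        (φ - ∑ i ∈ S, ev p M (r i) R (Q i) (ψ i) - n) - (φ - (f.map (Phi k hM)).eval y) +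
        (n - Phi k hM n') +
        ∑ a, ev p M (r (e a)) R (Q (e a)) (ψ (e a) - ((ψ' a).map (Phi k hM)).eval y) := by
      rw [hev, Finset.sum_congr rfl fun a _ => ev_sub_right _ _ _, Finset.sum_sub_distrib]
      ring
    rw [e1]
    refine ((h1.sub (hf.mono (by linarith))).add (hn'.mono (by linarith))).add ?_
    refine RVal.Ge.sum (v := v) _ _ fun a _ => ?_
    have e2 := ev_ge h hM (hQ' a) (hψ' a) (c := 0) (fun j _ => by rw [mul_zero])
    exact e2.mono (by linarith))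
  rw [hys, Polynomial.map_sub, Polynomial.map_sub, Polynomial.map_sub, eval_sub, eval_sub,
    eval_sub, map_C, eval_C, hactM] at hfin
  obtain ⟨q', hq', hq'y⟩ := exists_op_of_crit hM hinj hq
  rw [hq'y] at hfin
  -- the values of `ψ`
  let Ψ : ι → Ω := fun i => if hi : ∃ a, e a = i then
    ((ψ hi.choose).map (Phi k hM)).eval y else 0
  have hΨe : ∀ a, Ψ (e a) = ((ψ a).map (Phi k hM)).eval y := by
    intro a
    have hex : ∃ b, e b = e a := ⟨a, rfl⟩
    have h1 : hex.choose = a := hinj' hex.choose_spec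
    have h2 : Ψ (e a) = ((ψ hex.choose).map (Phi k hM)).eval y := dif_pos hex
    rw [h2, h1]
  have hpm : ∀ g : (LL k d)[X], (g.map (Phi k hM)).eval y ∈ cadj v N y := fun g =>
    eval_mem (PI_mono (le_cadj v N y) (map_mem_PI hM hMN g)) (self_mem_cadj v N y)
  have hΨm : ∀ i, Ψ i ∈ cadj v N y := by
    intro i
    dsimp only [Ψ]
    split_ifs
    · exact hpm _
    · exact zero_mem _
  have hMF : ∀ g ∈ val.range, M g ∈ cadj v N y := fun g hg => le_cadj v N y (hMN g hg)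
  refine ⟨Ψ, hΨm, q', hq', ?_⟩
  refine hy.imm.nr (sub_mem (sub_mem hφ (sum_mem fun i hi => ev_mem hMF (hQ i hi) (hΨm i)))
    (ev_mem hMF hq' (self_mem_cadj v N y))) ⟨Phi k hM n, Phi_mem hM hMN n, ?_⟩
  rw [hev, Finset.sum_congr rfl fun a _ => by rw [hΨe a]]
  have e1 : φ - ∑ a, ev p M (r (e a)) R (Q (e a)) (((ψ a).map (Phi k hM)).eval y) -
      ev p M ρ R q' y - Phi k hM n =
      (φ - (f.map (Phi k hM)).eval y) + ((f.map (Phi k hM)).eval y -
      ∑ a, ev p M (r (e a)) R (Q (e a)) (((ψ a).map (Phi k hM)).eval y) - Phi k hM n -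
      ev p M ρ R q' y) := by ring
  rw [e1]
  exact hf.add hfin

/-- **F10 over `N`.** -/
theorem near_N [IsAlgClosed k] [Fact p.Prime] [CharP k p] [CharP Ω p] (h : Ctx0 k v)
    (hM : MS v val.range M) (hinj : Function.Injective val)
    (hMN : ∀ g ∈ val.range, M g ∈ N) (hN : LDense v val.range M N) {y : Ω} {ρ : ℝ}
    (hy : TL v N y ρ) {ι : Type*} (S : Finset ι) (r : ι → ℝ) (R : ℝ) (Q : ι → k[X])
    (hQ : ∀ i ∈ S, IsOp p val.range (r i) R (Q i))
    (hd : ∀ i ∈ S, ∀ j ∈ S, i ≠ j → Q i ≠ 0 → Q j ≠ 0 → (Q j).natDegree ≤ (Q i).natDegree →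
      r j - (p : ℝ) ^ ((Q i).natDegree - (Q j).natDegree) * r i ∉ val.range)
    {ψ : ι → Ω} (hψ : ∀ i ∈ S, ψ i ∈ cadj v N y) {q : k[X]} (hq : IsOp p val.range ρ R q) {ε : ℝ}
    (hε : 0 ≤ ε) {n : Ω} (hn : n ∈ N)
    (hnear : v.Ge (R - ε) (∑ i ∈ S, ev p M (r i) R (Q i) (ψ i) - ev p M ρ R q y - n))
    {ε' : ℝ} (hε' : ε < ε') : ∀ i ∈ S, Q i ≠ 0 → ∃ b ∈ N, v.Ge (r i - ε') (ψ i - b) := by
  classical
  intro i₀ hi₀ hQ₀
  obtain ⟨m, e, hinj', he, hsurj, hsum⟩ := exists_enum (Ω := Ω) S Q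
  obtain ⟨a₀, ha₀⟩ := hsurj i₀ hi₀ hQ₀
  obtain ⟨ys, hys⟩ := exists_limSeq hM h hinj hMN hN hy
  have hQ' : ∀ a, IsOp p val.range (r (e a)) R (Q (e a)) := fun a => hQ _ (he a).1
  have h0' : ∀ a, Q (e a) ≠ 0 := fun a => (he a).2
  have hd' : ∀ a b, a ≠ b → (Q (e b)).natDegree ≤ (Q (e a)).natDegree →
      r (e b) - (p : ℝ) ^ ((Q (e a)).natDegree - (Q (e b)).natDegree) * r (e a) ∉ val.range :=
    fun a b hab hle => hd _ (he a).1 _ (he b).1 (fun h => hab (hinj' h)) (he a).2 (he b).2 hle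
  have hev : ∑ i ∈ S, ev p M (r i) R (Q i) (ψ i) =
      ∑ a, ev p M (r (e a)) R (Q (e a)) (ψ (e a)) :=
    hsum (fun i => ev p M (r i) R (Q i) (ψ i)) fun i _ h0 => by rw [h0, ev_zero]
  have h2 : ∀ a, ∃ g : (LL k d)[X], v.Ge (r (e a) - 0) (ψ (e a) - (g.map (Phi k hM)).eval y) := by
    intro a
    rw [sub_zero]
    exact exists_poly_near hM hN hy (hψ _ (he a).1) _
  choose ψ' hψ' using h2
  obtain ⟨n', hn'⟩ := exists_Phi_near hM hN hn R
  obtain ⟨q', hq', hq'y⟩ := exists_crit_of_op hM hq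
  obtain ⟨b, hb⟩ := TW.MH.near_of_act ys (mkOps hQ' h0' hd') ψ' (a := n') hq' hε (by
    rw [hys, Polynomial.map_sub, Polynomial.map_sub, eval_sub, eval_sub, map_C, eval_C,
      act_eval hM hQ' h0' hd' ψ' y, hq'y]
    have e1 : ∑ a, ev p M (r (e a)) R (Q (e a)) (((ψ' a).map (Phi k hM)).eval y) - Phi k hM n' -
        ev p M ρ R q y =
        (∑ i ∈ S, ev p M (r i) R (Q i) (ψ i) - ev p M ρ R q y - n) + (n - Phi k hM n') -
        ∑ a, ev p M (r (e a)) R (Q (e a)) (ψ (e a) - ((ψ' a).map (Phi k hM)).eval y) := by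
      rw [hev, Finset.sum_congr rfl fun a _ => ev_sub_right _ _ _, Finset.sum_sub_distrib]
      ring
    rw [e1]
    refine (hnear.add (hn'.mono (by linarith))).sub ?_
    refine RVal.Ge.sum (v := v) _ _ fun a _ => ?_
    have e2 := ev_ge h hM (hQ' a) (hψ' a) (c := 0) (fun j _ => by rw [mul_zero])
    exact e2.mono (by linarith)) hε' a₀
  rw [hys, Polynomial.map_sub, eval_sub, map_C, eval_C] at hb
  refine ⟨Phi k hM b, Phi_mem hM hMN b, ?_⟩
  have h3 := hψ' a₀
  rw [sub_zero] at h3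
  have h4 := (h3.mono (show r (e a₀) - ε' ≤ r (e a₀) by linarith)).add hb
  rw [sub_add_sub_cancel, ha₀] at h4
  exact h4

/-- A finitely generated group of values is the group of values of the lattice. -/
theorem exists_val_range {G : AddSubgroup ℝ} (hG : G.FG) :
    ∃ (d : ℕ) (val : (Fin d → ℤ) →+ ℝ), Function.Injective val ∧ val.range = G := by
  have : AddGroup.FG G := (AddGroup.fg_iff_addSubgroup_fg G).mpr hG
  have : Module.Finite ℤ G := Module.Finite.iff_addGroup_fg.mpr inferInstance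
  have : Module.Free ℤ G := Module.free_of_finite_type_torsion_free'
  let b := Module.finBasis ℤ G
  refine ⟨Module.finrank ℤ G, G.subtype.comp b.equivFun.symm.toLinearMap.toAddMonoidHom, ?_, ?_⟩
  · intro x y hxy
    exact b.equivFun.symm.injective (Subtype.ext hxy)
  · ext g
    constructor
    · rintro ⟨x, rfl⟩
      exact (b.equivFun.symm x).2
    · intro hg
      exact ⟨b.equivFun ⟨g, hg⟩, congrArg Subtype.val (b.equivFun.symm_apply_apply ⟨g, hg⟩)⟩

/-- **CORE**, for a finitely generated `G`. -/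
theorem core_F [IsAlgClosed k] [Fact p.Prime] [CharP k p] [CharP Ω p] {G : AddSubgroup ℝ}
    (h : Ctx0 k v) (hM : MS v G M) (hG : G.FG) (hMN : ∀ g ∈ G, M g ∈ N) (hN : LDense v G M N)
    {y : Ω} {ρ : ℝ} (hy : TL v N y ρ) {ι : Type*} (S : Finset ι) (r : ι → ℝ) (R : ℝ)
    (Q : ι → k[X]) (hQ : ∀ i ∈ S, IsOp p G (r i) R (Q i))
    (hd : ∀ i ∈ S, ∀ j ∈ S, i ≠ j → Q i ≠ 0 → Q j ≠ 0 → (Q j).natDegree ≤ (Q i).natDegree →
      r j - (p : ℝ) ^ ((Q i).natDegree - (Q j).natDegree) * r i ∉ G)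
    {φ : Ω} (hφ : φ ∈ cadj v N y)
    (hnear : ∀ ε : ℝ, 0 < ε → ∃ ψ : ι → Ω, (∀ i ∈ S, ψ i ∈ cadj v N y) ∧
      Nr v N (R - ε) (φ - ∑ i ∈ S, ev p M (r i) R (Q i) (ψ i))) :
    ∃ ψ : ι → Ω, (∀ i, ψ i ∈ cadj v N y) ∧ ∃ q : k[X], IsOp p G ρ R q ∧
      Nr' v N R (φ - ∑ i ∈ S, ev p M (r i) R (Q i) (ψ i) - ev p M ρ R q y) := by
  obtain ⟨d, val, hinj, rfl⟩ := exists_val_range hG
  exact core_N h hM hinj hMN hN hy S r R Q hQ hd hφ hnear

/-- **F10**, for a finitely generated `G`. -/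
theorem near_F [IsAlgClosed k] [Fact p.Prime] [CharP k p] [CharP Ω p] {G : AddSubgroup ℝ}
    (h : Ctx0 k v) (hM : MS v G M) (hG : G.FG) (hMN : ∀ g ∈ G, M g ∈ N) (hN : LDense v G M N)
    {y : Ω} {ρ : ℝ} (hy : TL v N y ρ) {ι : Type*} (S : Finset ι) (r : ι → ℝ) (R : ℝ)
    (Q : ι → k[X]) (hQ : ∀ i ∈ S, IsOp p G (r i) R (Q i))
    (hd : ∀ i ∈ S, ∀ j ∈ S, i ≠ j → Q i ≠ 0 → Q j ≠ 0 → (Q j).natDegree ≤ (Q i).natDegree →
      r j - (p : ℝ) ^ ((Q i).natDegree - (Q j).natDegree) * r i ∉ G)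
    {ψ : ι → Ω} (hψ : ∀ i ∈ S, ψ i ∈ cadj v N y) {q : k[X]} (hq : IsOp p G ρ R q) {ε : ℝ}
    (hε : 0 ≤ ε)
    (hnear : Nr v N (R - ε) (∑ i ∈ S, ev p M (r i) R (Q i) (ψ i) - ev p M ρ R q y))
    {ε' : ℝ} (hε' : ε < ε') : ∀ i ∈ S, Q i ≠ 0 → Nr v N (r i - ε') (ψ i) := by
  obtain ⟨d, val, hinj, rfl⟩ := exists_val_range hG
  obtain ⟨n, hn, h1⟩ := hnear
  exact near_N h hM hinj hMN hN hy S r R Q hQ hd hψ hq hε hn h1 hε'

end Pool.Agent.TWM
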