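import Pool.Agent.Lib.TWM.Rank2
import Pool.Agent.Lib.TWM.A2
import Pool.Agent.Lib.TWM.CoreN

/-!
# TANK W, M2: rank one (I3, I4)

The log extension `LE M G₁ B` is, over the closure of `N₁(y)`, of rank one, generated by `w`. If no
germ of `B` over `N` of a radius `r` is far from the closure of `N₁(y)`, then `B` is, over the
closure `F` of `N(y)`, of rank one.
-/

set_option autoImplicit false

open Polynomial Finset

namespace Pool.Agent.TWM

open Pool.Agent.H15JM (RVal)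
open Pool.Agent.D2 (Ctx0)

universe u

variable {k Ω : Type u} [Field k] [Field Ω] [Algebra k Ω] {v : RVal Ω}
  {p : ℕ} {G G₁ : AddSubgroup ℝ} {M : ℝ → Ω} {T : Finset ℝ} {N B F : IntermediateField k Ω}

/-! ### Leading terms -/

/-- The Laurent polynomials over `G₁` are dense in `N₁`. -/
theorem LDense.log (hc : Cls v M G G₁ T N) (hN : LDense v G M N) :
    LDense v G₁ M (LE M G₁ N) := by
  classical
  intro a ha b
  obtain ⟨c, hcN, rfl⟩ := hc.mem_iff.1 ha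
  -- one term
  have key : ∀ t : ℝ, ∃ L : ℝ →₀ k, t ∈ T → InG G₁ L ∧ v.Ge b (M t * c t - evL M L) := by
    intro t
    by_cases ht : t ∈ T
    · obtain ⟨L, hL, h1⟩ := hN (c t) (hcN t ht) (b - t)
      have ht1 := hc.reps.mem t ht
      refine ⟨L.sum fun g a => Finsupp.single (t + g) a, fun _ => ⟨?_, ?_⟩⟩
      · intro g hg
        rw [Finsupp.sum, Finsupp.finsetSum_apply] at hg
        obtain ⟨i, hi, h2⟩ := Finset.exists_ne_zero_of_sum_ne_zero hg
        rw [Finsupp.single_apply] at h2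
        split_ifs at h2 with h3
        · rw [← h3]
          exact G₁.add_mem ht1 (hc.reps.le (hL i (Finsupp.mem_support_iff.1 hi)))
        · exact absurd rfl h2
      · have h2 : evL M (L.sum fun g a => Finsupp.single (t + g) a) = M t * evL M L := by
          have h3 : ∀ S : Finset ℝ, evL M (∑ g ∈ S, Finsupp.single (t + g) (L g)) =
              ∑ g ∈ S, algebraMap k Ω (L g) * M (t + g) := by
            intro S
            induction S using Finset.induction_on with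
            | empty => rw [Finset.sum_empty, Finset.sum_empty, evL_zero]
            | insert i S hi ih => rw [Finset.sum_insert hi, Finset.sum_insert hi, evL_add, ih,
                evL_single]
          rw [Finsupp.sum, h3, evL, Finsupp.sum, Finset.mul_sum]
          refine Finset.sum_congr rfl fun g hg => ?_
          rw [hc.ms.mul t ht1 g (hc.reps.le (hL g (Finsupp.mem_support_iff.1 hg)))]
          ring
        rw [h2, ← mul_sub]
        have h3 : v.Ge t (M t) := fun _ => (hc.ms.val t ht1).ge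
        have h4 := h3.mul h1
        rwa [add_sub_cancel] at h4
    · exact ⟨0, fun h => absurd h ht⟩
  choose L hL using key
  refine ⟨∑ t ∈ T, L t, ?_, ?_⟩
  · intro g hg
    rw [Finsupp.finsetSum_apply] at hg
    obtain ⟨t, ht, h1⟩ := Finset.exists_ne_zero_of_sum_ne_zero hg
    exact (hL t ht).1 g h1
  · have h1 : ∀ S : Finset ℝ, evL M (∑ t ∈ S, L t) = ∑ t ∈ S, evL M (L t) := by
      intro S
      induction S using Finset.induction_on with
      | empty => rw [Finset.sum_empty, Finset.sum_empty, evL_zero]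
      | insert i S hi ih => rw [Finset.sum_insert hi, Finset.sum_insert hi, evL_add, ih]
    rw [h1, ← Finset.sum_sub_distrib]
    exact RVal.Ge.sum (v := v) _ _ fun t ht => (hL t ht).2

/-- The leading term of an element of an immediate extension of `N`. -/
theorem exists_lead (h : Ctx0 k v) (hM : MS v G M) (hN : LDense v G M N) (hB : Imm v N B) {b : Ω}
    (hb : b ∈ B) (h0 : b ≠ 0) :
    ∃ c : k, c ≠ 0 ∧ v b ∈ G ∧ Gt v (v b) (b - algebraMap k Ω c * M (v b)) := by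
  classical
  obtain ⟨a, ha, h1⟩ := hB.imm b hb h0
  obtain ⟨h2, h3⟩ := h1.val_eq h0
  obtain ⟨L, hL, h4⟩ := hN a ha (v b + 1)
  have h5 : Gt v (v b) (b - evL M L) := by
    rw [← sub_add_sub_cancel b a]
    exact h1.add (Gt.of_ge h4 (by linarith))
  obtain ⟨h6, h7⟩ := h5.val_eq h0
  have h8 : L ≠ 0 := by rintro rfl; exact h6 evL_zero
  obtain ⟨m, h9, h11, -, h10⟩ := evL_lead h hM hL h8
  rw [h7] at h10
  have hmG := hL m h9
  refine ⟨L m, h9, h10 ▸ hmG, ?_⟩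
  have h12 : evL M L = algebraMap k Ω (L m) * M m + evL M (L.erase m) := by
    rw [← evL_single, ← evL_add, Finsupp.single_add_erase]
  have h13 : Gt v m (evL M (L.erase m)) := by
    refine evL_gt h hM (fun g hg => ?_) fun g hg => ?_
    · refine hL g fun h3 => hg ?_
      rw [Finsupp.erase_apply, h3, ite_self]
    · rw [Finsupp.erase_apply] at hg
      split_ifs at hg with h3
      · exact absurd rfl hg
      · exact lt_of_le_of_ne (h11 g hg) (Ne.symm h3)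
  rw [h10]
  rw [h12, h10] at h5
  have h14 := h5.add h13
  convert h14 using 1
  ring

/-! ### The relations -/

/-- Approximations of an operator. -/
theorem ev_sum_ge [Fact p.Prime] (h : Ctx0 k v) (hM : MS v G M) {ι : Type*} [Fintype ι]
    {r : ι → ℝ} {R : ℝ} {Q : ι → k[X]} (hQ : ∀ i, IsOp p G (r i) R (Q i)) {ε : ℝ} (hε : 0 < ε) :
    ∃ δ : ℝ, 0 < δ ∧ δ ≤ ε ∧ ∀ x : ι → Ω, (∀ i, v.Ge (r i - δ) (x i)) →
      v.Ge (R - ε) (∑ i, ev p M (r i) R (Q i) (x i)) := by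
  classical
  have hp0 : (0 : ℝ) < p := by exact_mod_cast (Fact.out : p.Prime).pos
  have hp1 : (1 : ℝ) ≤ p := by exact_mod_cast (Fact.out : p.Prime).one_lt.le
  set D : ℕ := ∑ i, (Q i).natDegree with hD
  have hDi : ∀ i, (Q i).natDegree ≤ D := fun i =>
    Finset.single_le_sum (f := fun i => (Q i).natDegree) (fun _ _ => Nat.zero_le _)
      (Finset.mem_univ i)
  have hpD : (0 : ℝ) < (p : ℝ) ^ D := pow_pos hp0 _
  refine ⟨ε / (p : ℝ) ^ D, div_pos hε hpD, div_le_self hε.le (one_le_pow₀ hp1), fun x hx => ?_⟩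
  refine RVal.Ge.sum (v := v) _ _ fun i _ => ?_
  refine ev_ge h hM (hQ i) (hx i) fun j hj => ?_
  rw [mul_div_assoc']
  rw [div_le_iff₀ hpD, mul_comm]
  refine mul_le_mul_of_nonneg_left ?_ hε.le
  exact pow_le_pow_right₀ hp1 ((le_natDegree_of_ne_zero hj).trans (hDi i))

/-- The statement of the CORE lemma for one relation. -/
def CoreAt (p : ℕ) (v : RVal Ω) (G : AddSubgroup ℝ) (M : ℝ → Ω) (N F : IntermediateField k Ω)
    (y : Ω) (ρ : ℝ) {ι : Type} [Fintype ι] (r : ι → ℝ) (R : ℝ) (Q : ι → k[X]) : Prop :=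
  ∀ φ ∈ F, (∀ ε : ℝ, 0 < ε → ∃ ps : ι → Ω, (∀ i, ps i ∈ F) ∧
      Nr v N (R - ε) (φ - ∑ i, ev p M (r i) R (Q i) (ps i))) →
    ∃ ps : ι → Ω, (∀ i, ps i ∈ F) ∧ ∃ q : k[X], IsOp p G ρ R q ∧
      Nr' v N R (φ - ∑ i, ev p M (r i) R (Q i) (ps i) - ev p M ρ R q y)

/-- The statement of F10 for one relation. -/
def F10At (p : ℕ) (v : RVal Ω) (G : AddSubgroup ℝ) (M : ℝ → Ω) (N F : IntermediateField k Ω)
    (y : Ω) (ρ : ℝ) {ι : Type} [Fintype ι] (r : ι → ℝ) (R : ℝ) (Q : ι → k[X]) : Prop :=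
  ∀ ps : ι → Ω, (∀ i, ps i ∈ F) → ∀ q : k[X], IsOp p G ρ R q → ∀ ε : ℝ, 0 < ε →
    Nr v N (R - ε) (∑ i, ev p M (r i) R (Q i) (ps i) - ev p M ρ R q y) →
    ∀ ε' : ℝ, ε < ε' → ∀ i, Nr v N (r i - ε') (ps i)

/-- The vectors of a relation over `F` are, modulo `F`, limits of `N`. -/
theorem nr_of_rel [Fact p.Prime] [CharP k p] [CharP Ω p] (h : Ctx0 k v) (hM : MS v G M)
    (hFB : F ≤ B) {y : Ω} {ρ : ℝ} {ι : Type} [Fintype ι] {r : ι → ℝ} {R : ℝ}
    {Q : ι → k[X]} (hQ : ∀ i, IsOp p G (r i) R (Q i)) (hcore : CoreAt p v G M N F y ρ r R Q)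
    (hf10 : F10At p v G M N F y ρ r R Q) (w : ι → Ω)
    (hw : ∀ i, w i ∈ B ∧ Lim v F (r i) (w i))
    (hrel : Nr' v F R (∑ i, ev p M (r i) R (Q i) (w i)))
    (hrk : ∀ x ∈ B, ∀ t : ℝ, Lim v N t x → Nr' v F t x) : ∀ i, Nr' v F (r i) (w i) := by
  classical
  obtain ⟨φ, hφ, h1⟩ := hrel
  -- approximations of `φ`
  obtain ⟨f, hf, q, hq, n, hn, h2⟩ := hcore φ hφ (by
    intro ε hε
    obtain ⟨δ, hδ, -, h2⟩ := ev_sum_ge h hM hQ hε
    have h3 : ∀ i, ∃ a ∈ F, v.Ge (r i - δ) (w i - a) := fun i => (hw i).2 δ hδ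
    choose a ha h4 using h3
    refine ⟨a, ha, 0, zero_mem _, ?_⟩
    rw [sub_zero]
    have h5 := h2 (fun i => w i - a i) h4
    have h6 : φ - ∑ i, ev p M (r i) R (Q i) (a i) =
        ∑ i, ev p M (r i) R (Q i) (w i - a i) -
          (∑ i, ev p M (r i) R (Q i) (w i) - φ) := by
      rw [Finset.sum_congr rfl fun i _ => ev_sub_right _ _ _, Finset.sum_sub_distrib]
      ring
    rw [h6]
    exact h5.sub (h1.ge.mono (by linarith)))
  -- the new vectors
  have h3 : Gt v R (∑ i, ev p M (r i) R (Q i) (w i - f i) - ev p M ρ R q y - n) := by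
    have h4 : ∑ i, ev p M (r i) R (Q i) (w i - f i) - ev p M ρ R q y - n =
        (∑ i, ev p M (r i) R (Q i) (w i) - φ) +
          (φ - ∑ i, ev p M (r i) R (Q i) (f i) - ev p M ρ R q y - n) := by
      rw [Finset.sum_congr rfl fun i _ => ev_sub_right _ _ _, Finset.sum_sub_distrib]
      ring
    rw [h4]
    exact h1.add h2
  have hwf : ∀ i, w i - f i ∈ B ∧ Lim v F (r i) (w i - f i) := by
    intro i
    refine ⟨sub_mem (hw i).1 (hFB (hf i)), fun ε hε => ?_⟩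
    obtain ⟨a, ha, h4⟩ := (hw i).2 ε hε
    exact ⟨a - f i, sub_mem ha (hf i), by rwa [sub_sub_sub_cancel_right]⟩
  have hlim : ∀ i, Lim v N (r i) (w i - f i) := by
    intro i₀ ε hε
    obtain ⟨δ, hδ, hδε, h4⟩ := ev_sum_ge h hM hQ (half_pos hε)
    have h5 : ∀ i, ∃ a ∈ F, v.Ge (r i - δ) (w i - f i - a) := fun i => (hwf i).2 δ hδ
    choose a ha h6 using h5
    have h7 := h4 (fun i => w i - f i - a i) h6
    have h8 : Nr v N (R - ε / 2) (∑ i, ev p M (r i) R (Q i) (a i) - ev p M ρ R q y) := by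
      refine ⟨n, hn, ?_⟩
      have h9 : ∑ i, ev p M (r i) R (Q i) (a i) - ev p M ρ R q y - n =
          (∑ i, ev p M (r i) R (Q i) (w i - f i) - ev p M ρ R q y - n) -
            ∑ i, ev p M (r i) R (Q i) (w i - f i - a i) := by
        rw [Finset.sum_congr rfl fun i _ => ev_sub_right (Q i) (w i - f i) (a i),
          Finset.sum_sub_distrib]
        ring
      rw [h9]
      exact (h3.ge.mono (by linarith)).sub h7
    obtain ⟨b, hb, h9⟩ := hf10 a ha q hq (ε / 2) (half_pos hε) h8 ε (by linarith) i₀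
    refine ⟨b, hb, ?_⟩
    rw [← sub_add_sub_cancel (w i₀ - f i₀) (a i₀) b]
    exact ((h6 i₀).mono (by linarith)).add h9
  intro i
  obtain ⟨a, ha, h4⟩ := hrk _ (hwf i).1 _ (hlim i)
  refine ⟨a + f i, add_mem ha (hf i), ?_⟩
  rwa [show w i - (a + f i) = w i - f i - a by ring]

/-- The CORE lemma and F10 for all the relations with non divisible tops. -/
def CoreAll (k : Type u) {Ω : Type u} [Field k] [Field Ω] [Algebra k Ω] (p : ℕ) (v : RVal Ω)
    (G : AddSubgroup ℝ) (M : ℝ → Ω) (N F : IntermediateField k Ω) (y : Ω) (ρ : ℝ) : Prop :=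
  ∀ (ι : Type) (_ : Fintype ι) (r : ι → ℝ) (R : ℝ) (Q : ι → k[X]),
    (∀ i, IsOp p G (r i) R (Q i)) → (∀ i, Q i ≠ 0) →
    (∀ i j, i ≠ j → (Q j).natDegree ≤ (Q i).natDegree →
      r j - (p : ℝ) ^ ((Q i).natDegree - (Q j).natDegree) * r i ∉ G) →
    CoreAt p v G M N F y ρ r R Q ∧ F10At p v G M N F y ρ r R Q

/-- **E4, H2 over `F`.** Finitely many limits of `F` are in the span of a free family. -/
theorem exists_free_field [IsAlgClosed k] [Fact p.Prime] [CharP k p] [CharP Ω p] (h : Ctx0 k v)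
    (hM : MS v G M) (hMN : ∀ g ∈ G, M g ∈ N) (hNF : N ≤ F) (hFB : F ≤ B) {y : Ω} {ρ : ℝ}
    (hcore : CoreAll k p v G M N F y ρ)
    (hrk : ∀ x ∈ B, ∀ t : ℝ, Lim v N t x → Nr' v F t x) {ι : Type} [Fintype ι] [DecidableEq ι]
    (r : ι → ℝ) (w₀ : ι → Ω) (hw₀ : ∀ i, w₀ i ∈ B ∧ Lim v F (r i) (w₀ i)) :
    ∃ (S : Finset ι) (w : ι → Ω), (∀ i ∈ S, w i ∈ B ∧ Lim v F (r i) (w i)) ∧
      (∀ i, InSpan k p G M (Nr' v F) r w S (r i) (w₀ i)) ∧
      FreeOn k p G M (Nr' v F) r w S := by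
  classical
  have hMF : ∀ g ∈ G, M g ∈ F := fun g hg => hNF (hMN g hg)
  obtain ⟨S, w, h1, h2, -, h4, h5⟩ := exists_reduced_field h hM hMF hFB r w₀ hw₀
  refine ⟨S, w, h1, h2, ?_⟩
  rcases h5 with h5 | ⟨R, Q, hQ, ⟨i₀, hi₀, hQi₀⟩, hrel, -, hd⟩
  · exact h5
  exfalso
  let ι' : Type := {i : ι // i ∈ S ∧ Q i ≠ 0}
  have hsum : ∀ x : ι → Ω, ∑ i ∈ S, ev p M (r i) R (Q i) (x i) =
      ∑ i : ι', ev p M (r i) R (Q i) (x i) := by
    intro x
    have h6 : ∑ i ∈ S, ev p M (r i) R (Q i) (x i) =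
        ∑ i ∈ S.filter (fun i => Q i ≠ 0), ev p M (r i) R (Q i) (x i) := by
      rw [Finset.sum_filter]
      refine Finset.sum_congr rfl fun i _ => ?_
      by_cases h0 : Q i = 0
      · rw [if_neg (by simpa using h0), h0, ev_zero]
      · rw [if_pos h0]
    rw [h6]
    refine Finset.sum_subtype _ (fun i => ?_) _
    rw [Finset.mem_filter]
  rw [hsum w] at hrel
  obtain ⟨hc1, hc2⟩ := hcore ι' inferInstance (fun i => r i) R (fun i => Q i)
    (fun i => hQ i i.2.1) (fun i => i.2.2)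
    (fun i j hij hdeg => hd i i.2.1 j j.2.1 (fun he => hij (Subtype.ext he)) i.2.2 j.2.2 hdeg)
  have h6 := nr_of_rel h hM hFB (fun i : ι' => hQ i i.2.1) hc1 hc2 (fun i => w i)
    (fun i => h1 i i.2.1) hrel hrk ⟨i₀, hi₀, hQi₀⟩
  exact h4 i₀ hi₀ (InSpan.of_Z h6)

/-! ### The germs of `A(z)` -/

/-- The limits in the closure of `A(z)` are in the span of `z`. -/
theorem TL.germ_span [IsAlgClosed Ω] [Fact p.Prime] [CharP k p] [CharP Ω p]
    {A : IntermediateField k Ω} {z : Ω} {s : ℝ} (hT : TL v A z s)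
    (hA : ∀ b ∈ A, b ≠ 0 → ∃ c : k, c ≠ 0 ∧ v b ∈ G ∧ Gt v (v b) (b - algebraMap k Ω c * M (v b)))
    (hMA : ∀ g ∈ G, M g ∈ A) {x : Ω} (hx : x ∈ cadj v A z) {t : ℝ} (hl : Lim v A t x) :
    InSpan k p G M (Nr' v A) (fun _ : Unit => s) (fun _ => z) Finset.univ t x := by
  classical
  obtain ⟨f, hf, e, c, hc, h1⟩ := hT.germ p
    (M := {m | ∃ a : k, a ≠ 0 ∧ ∃ g ∈ G, m = algebraMap k Ω a * M g ∧ v m = g})
    (fun b hb hb0 => by
      obtain ⟨a, ha, hg, h1⟩ := hA b hb hb0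
      obtain ⟨h2, h3⟩ := h1.val_eq hb0
      exact ⟨_, ⟨a, ha, v b, hg, rfl, h3⟩, mul_mem (A.algebraMap_mem a) (hMA _ hg), h1⟩) hx hl
  have h2 : ∀ i, ∃ a : k, c i = algebraMap k Ω a * M (t - (p : ℝ) ^ i * s) ∧
      (a ≠ 0 → t - (p : ℝ) ^ i * s ∈ G) := by
    intro i
    rcases hc i with h2 | ⟨⟨a, ha, g, hg, h2, h3⟩, -, -, h4⟩
    · exact ⟨0, by rw [h2, map_zero, zero_mul], fun h => absurd rfl h⟩
    · have h5 : g = t - (p : ℝ) ^ i * s := by
        rw [← h4, h3]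
        push_cast
        ring
      exact ⟨a, by rw [← h5]; exact h2, fun _ => by rw [← h5]; exact hg⟩
  choose a ha ha' using h2
  refine ⟨fun _ => ∑ i ∈ Finset.range e, C (a i) * X ^ i, fun _ _ => IsOp.sum fun i _ =>
    IsOp.mono (ha' i), f, hf, ?_⟩
  have h3 : ∑ _i ∈ (Finset.univ : Finset Unit), ev p M s t (∑ i ∈ Finset.range e, C (a i) * X ^ i) z
      = ∑ i ∈ Finset.range e, c i * z ^ p ^ i := by
    rw [Finset.univ_unique, Finset.sum_singleton, ev_sum]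
    refine Finset.sum_congr rfl fun i _ => ?_
    rw [ev_mono, ha i]
  rw [h3, sub_sub, add_comm _ f]
  exact h1

/-- **The free case.** -/
theorem rank_one_aux [IsAlgClosed k] [IsAlgClosed Ω] [Fact p.Prime] [CharP k p] [CharP Ω p]
    (h : Ctx0 k v) (hcc : CompleteV v) (hc : Cls v M G G₁ T B) (hFB : F ≤ B)
    (hMF : ∀ g ∈ G, M g ∈ F)
    (hlead : ∀ b ∈ LE M G₁ F, b ≠ 0 → ∃ c : k, c ≠ 0 ∧ v b ∈ G₁ ∧
      Gt v (v b) (b - algebraMap k Ω c * M (v b)))
    (hBc : Cld v B) {z : Ω} {s : ℝ} (hz : TL v (LE M G₁ F) z s)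
    (hB : LE M G₁ B = cadj v (LE M G₁ F) z) {ι : Type} {S : Finset ι} {r : ι → ℝ} {w : ι → Ω}
    (hw : ∀ i ∈ S, w i ∈ B ∧ Lim v F (r i) (w i))
    (hzw : InSpan k p G₁ M (Nr' v (LE M G₁ F)) r w S s z)
    (hfree : FreeOn k p G M (Nr' v F) r w S) :
    ∃ (θ : Ω) (σ : ℝ), TL v F θ σ ∧ B = cadj v F θ := by
  classical
  set F₁ := LE M G₁ F with hF₁
  have hMF₁ : ∀ g ∈ G₁, M g ∈ F₁ := fun g hg => mon_mem_LE hg
  have hZ₁ : GSub k p G₁ M (Nr' v F₁) := gsub_Nr' h hc.ms hMF₁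
  have hfree₁ : FreeOn k p G₁ M (Nr' v F₁) r w S := hfree.log hc hFB hMF fun i hi => (hw i hi).1
  have hwz : ∀ i ∈ S, InSpan k p G₁ M (Nr' v F₁) (fun _ : Unit => s) (fun _ => z) Finset.univ
      (r i) (w i) := by
    intro i hi
    refine hz.germ_span hlead hMF₁ ?_ ((hw i hi).2.mono le_LE)
    rw [← hB]
    exact le_LE (hw i hi).1
  -- the number of elements of `S`
  have hle : S.card ≤ 1 := by
    have := FreeOn.card_le hc.ms hZ₁ hfree₁ hwz
    rwa [Finset.card_univ, Fintype.card_unit] at this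
  have hne : S.Nonempty := by
    rw [Finset.nonempty_iff_ne_empty]
    rintro rfl
    obtain ⟨Q, -, a, ha, h1⟩ := hzw
    rw [Finset.sum_empty, sub_zero] at h1
    obtain ⟨h2, h3⟩ := hz.far a (isAlgebraic_algebraMap (R := F₁) (⟨a, ha⟩ : F₁))
    have h4 := h1 (sub_ne_zero.2 h2)
    linarith
  obtain ⟨i₀, hi₀⟩ := Finset.card_eq_one.1 (le_antisymm hle hne.card_pos)
  subst hi₀
  have hi₀ : i₀ ∈ ({i₀} : Finset ι) := Finset.mem_singleton_self i₀
  obtain ⟨Q₁, hQ₁, h1⟩ := hwz i₀ hi₀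
  obtain ⟨Q₂, hQ₂, h2⟩ := hzw
  have hinv := FreeOn.inverse (S := (Finset.univ : Finset Unit)) (S' := ({i₀} : Finset ι))
    (r := fun _ => s) (w := fun _ => z) (r' := r) (w' := w) (R := fun _ j => Q₁ j)
    (P := fun _ i => Q₂ i) hc.ms hZ₁ hfree₁
    (fun i hi j hj => by rw [Finset.mem_singleton.1 hi]; exact hQ₁ j hj)
    (fun j _ i hi => hQ₂ i hi)
    (fun i hi => by rw [Finset.mem_singleton.1 hi]; exact h1)
    (fun j _ => h2) hi₀ hi₀
  rw [if_pos rfl, Finset.univ_unique, Finset.sum_singleton] at hinv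
  -- the operator `Q₁` is a constant
  obtain ⟨hd, -⟩ := tw_eq_one hinv
  obtain ⟨c, hcc1⟩ : ∃ c, Q₁ default = C c := ⟨_, eq_C_of_natDegree_eq_zero hd⟩
  have hc0 : c ≠ 0 := by
    rintro rfl
    rw [hcc1, map_zero, tw_zero_left] at hinv
    exact zero_ne_one hinv
  have hG : r i₀ - s ∈ G₁ := by
    have h3 := hQ₁ default (Finset.mem_univ _) 0 (by rw [hcc1, coeff_C_zero]; exact hc0)
    rwa [pow_zero, one_mul] at h3
  have hev : ∑ i, ev p M ((fun _ : Unit => s) i) (r i₀) (Q₁ i) ((fun _ => z) i) =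
      algebraMap k Ω c * M (r i₀ - s) * z := by
    rw [Finset.univ_unique, Finset.sum_singleton, hcc1]
    have h3 := ev_mono (p := p) (M := M) (s := s) (r := r i₀) c 0 z
    rwa [pow_zero, mul_one, pow_zero, one_mul, pow_zero, pow_one] at h3
  rw [hev] at h1
  obtain ⟨f, hf, h1⟩ := h1
  set a := algebraMap k Ω c * M (r i₀ - s) with ha
  obtain ⟨ha0, hav⟩ := term_val h hc.ms hG hc0
  have haF : a ∈ F₁ := mul_mem (F₁.algebraMap_mem c) (hMF₁ _ hG)
  have hrs : v a + s = r i₀ := by rw [hav]; ring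
  have hθB := (hw i₀ hi₀).1
  obtain ⟨h3, h4⟩ := hz.generator (w := w i₀) haF ha0 hf (by rw [← hB]; exact le_LE hθB) (by
    rw [hrs, ← sub_sub]
    exact h1)
  rw [hrs] at h3
  have hFD : cadj v F (w i₀) ≤ B := cadj_le hBc hFB hθB
  have hcD : Cls v M G G₁ T (cadj v F (w i₀)) :=
    hc.mono hFD fun g hg => le_cadj v F _ (hMF g hg)
  refine ⟨w i₀, r i₀, ⟨(hw i₀ hi₀).2, fun θ hθ => h3.far θ (D2P.isAlgebraic_mono le_LE hθ)⟩, ?_⟩
  refine (hc.eq_of_LE hFD hcD.mon ?_).symm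
  rw [← Cls.cadj_eq hcc hcD, h4, ← hB]
  exact le_LE

/-- CORE and F10, from `CoreN`. -/
theorem coreAll [IsAlgClosed k] [IsAlgClosed Ω] [Fact p.Prime] [CharP k p] [CharP Ω p] (h : Ctx0 k v)
    (hM : MS v G M) (hG : G.FG) (hMN : ∀ g ∈ G, M g ∈ N) (hN : LDense v G M N) {y : Ω} {ρ : ℝ}
    (hy : TL v N y ρ) : CoreAll k p v G M N (cadj v N y) y ρ := by
  intro ι _ r R Q hQ hne hd
  refine ⟨fun φ hφ hnear => ?_, fun ps hps q hq ε hε hnear ε' hε' i => ?_⟩
  · obtain ⟨ps, h1, q, hq, h2⟩ := core_F h hM hG hMN hN hy Finset.univ r R Q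
      (fun i _ => hQ i) (fun i _ j _ hij _ _ hdeg => hd i j hij hdeg) hφ
      (fun ε hε => by
        obtain ⟨ps, h1, h2⟩ := hnear ε hε
        exact ⟨ps, fun i _ => h1 i, h2⟩)
    exact ⟨ps, h1, q, hq, h2⟩
  · exact near_F h hM hG hMN hN hy Finset.univ r R Q (fun i _ => hQ i)
      (fun i _ j _ hij _ _ hdeg => hd i j hij hdeg) (fun i _ => hps i) hq hε.le hnear hε' i
      (Finset.mem_univ i) (hne i)

/-- **I3, I4**, given the CORE lemma. -/
theorem rank_one_of [IsAlgClosed k] [IsAlgClosed Ω] [Fact p.Prime] [CharP k p] [CharP Ω p]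
    (h : Ctx0 k v) (hcc : CompleteV v) (hc : Cls v M G G₁ T B) (hMN : ∀ g ∈ G, M g ∈ N)
    (hN : LDense v G M N) (hB : Imm v N B) (hBc : Cld v B) {y w : Ω} {ρ s : ℝ} (hy : y ∈ B)
    (hF : Fib v (LE M G₁ N) (LE M G₁ B) y w ρ s)
    (hrk : ∀ x ∈ LE M G₁ B, ∀ r, Lim v (LE M G₁ N) r x → Nr' v (cadj v (LE M G₁ N) y) r x)
    (hcore : TL v N y ρ → CoreAll k p v G M N (cadj v N y) y ρ) :
    ∃ (z : Ω) (s' : ℝ), Fib v N B y z ρ s' := by
  classical
  have hcN : Cls v M G G₁ T N := hc.mono hB.le hMN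
  have hMG : MS v G M := ⟨fun g hg => hc.ms.ne g (hc.reps.le hg),
    fun g hg => hc.ms.val g (hc.reps.le hg),
    fun g hg g' hg' => hc.ms.mul g (hc.reps.le hg) g' (hc.reps.le hg')⟩
  have hty : TL v N y ρ := ⟨(hc.lim_self hB.le hMN hy).1 hF.ty.lim,
    fun θ hθ => hF.ty.far θ (D2P.isAlgebraic_mono le_LE hθ)⟩
  set F := cadj v N y with hFdef
  have hNF : N ≤ F := le_cadj v N y
  have hFB : F ≤ B := cadj_le hBc hB.le hy
  have hMF : ∀ g ∈ G, M g ∈ F := fun g hg => hNF (hMN g hg)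
  have hcF : Cls v M G G₁ T F := hc.mono hFB hMF
  have hF₁ : cadj v (LE M G₁ N) y = LE M G₁ F := Cls.cadj_eq hcc hcF
  obtain ⟨-, htz, heq⟩ := hF
  rw [hF₁] at htz heq
  have hrk' : ∀ x ∈ B, ∀ t : ℝ, Lim v N t x → Nr' v F t x := by
    intro x hx t hl
    have h1 := hrk x (le_LE hx) t (hl.mono le_LE)
    rw [hF₁] at h1
    exact (hc.nr'_self hFB hMF hx).1 h1
  -- leading terms of `F₁`
  have himm : Imm v (LE M G₁ N) (LE M G₁ F) := hcF.imm hMN hty.imm
  have hlead : ∀ b ∈ LE M G₁ F, b ≠ 0 → ∃ c : k, c ≠ 0 ∧ v b ∈ G₁ ∧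
      Gt v (v b) (b - algebraMap k Ω c * M (v b)) := fun b hb h0 =>
    exists_lead h hc.ms (hN.log hcN) himm hb h0
  -- the components of `w`
  have hwB : w ∈ LE M G₁ B := by rw [heq]; exact self_mem_cadj v _ w
  obtain ⟨b, hb, hwb⟩ := hc.mem_iff.1 hwB
  have hbl : ∀ t ∈ T, Lim v F (s - t) (b t) := by
    rw [← hc.lim_iff hFB hMF hb, ← hwb]
    exact htz.lim
  obtain ⟨S, u, h1, h2, h3⟩ := exists_free_field (ι := {t : ℝ // t ∈ T}) h hMG hMN hNF hFB
    (hcore hty) hrk' (fun t => s - t) (fun t => b t) (fun t => ⟨hb t t.2, hbl t t.2⟩)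
  have hzw : InSpan k p G₁ M (Nr' v (LE M G₁ F)) (fun t : {t : ℝ // t ∈ T} => s - (t : ℝ)) u S s w := by
    rw [hwb]
    exact InSpan.of_comp h hc fun t ht => h2 ⟨t, ht⟩
  obtain ⟨θ, σ, h4, h5⟩ := rank_one_aux h hcc hc hFB hMF hlead hBc htz heq h1 hzw h3
  exact ⟨θ, σ, hty, h4, h5⟩

/-- **I3, I4: rank one.** Let `B` be immediate over `N`, closed, and let the log extension
`B₁ = B(M g : g ∈ G₁)` be the closure of `N₁(y, w)`, `y ∈ B`. If every germ of `B₁` over `N₁` is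
near the closure of `N₁(y)`, then `B` is the closure of `N(y, z)` for some `z`. -/
theorem rank_one [IsAlgClosed k] [IsAlgClosed Ω] [Fact p.Prime] [CharP k p] [CharP Ω p]
    (h : Ctx0 k v) (hcc : CompleteV v) (hc : Cls v M G G₁ T B) (hMN : ∀ g ∈ G, M g ∈ N)
    (hN : LDense v G M N) (hG : G.FG) (hB : Imm v N B) (hBc : Cld v B) {y w : Ω} {ρ s : ℝ}
    (hy : y ∈ B) (hF : Fib v (LE M G₁ N) (LE M G₁ B) y w ρ s)
    (hrk : ∀ x ∈ LE M G₁ B, ∀ r, Lim v (LE M G₁ N) r x → Nr' v (cadj v (LE M G₁ N) y) r x) :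
    ∃ (z : Ω) (s' : ℝ), Fib v N B y z ρ s' := by
  refine rank_one_of (p := p) h hcc hc hMN hN hB hBc hy hF hrk fun hty => ?_
  exact coreAll h ⟨fun g hg => hc.ms.ne g (hc.reps.le hg),
    fun g hg => hc.ms.val g (hc.reps.le hg),
    fun g hg g' hg' => hc.ms.mul g (hc.reps.le hg) g' (hc.reps.le hg')⟩ hG hMN hN hty

end Pool.Agent.TWM
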