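import Pool.Agent.Lib.TWM.Free

/-!
# Linear algebra over the operators: ranks, inverse matrices, log components
-/

set_option autoImplicit false

open Polynomial Finset

namespace Pool.Agent.TWM

open Pool.Agent.H15JM (RVal)
open Pool.Agent.D2 (Ctx0)

universe u

variable {k Ω : Type u} [Field k] [Field Ω] [Algebra k Ω] {v : RVal Ω}
  {p : ℕ} {G : AddSubgroup ℝ} {M : ℝ → Ω} {Z : ℝ → Ω → Prop}

/-- The value of a matrix of operators. -/
theorem sum_ev_ev [Fact p.Prime] [CharP k p] [CharP Ω p] (hM : MS v G M) {ι κ : Type*}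
    {S : Finset ι} {S' : Finset κ} {r : ι → ℝ} {r' : κ → ℝ} {w' : κ → Ω} {R : ℝ} {P : ι → k[X]}
    (hP : ∀ i ∈ S, IsOp p G (r i) R (P i)) {Q : ι → κ → k[X]}
    (hQ : ∀ i ∈ S, ∀ j ∈ S', IsOp p G (r' j) (r i) (Q i j)) :
    ∑ i ∈ S, ev p M (r i) R (P i) (∑ j ∈ S', ev p M (r' j) (r i) (Q i j) (w' j)) =
      ∑ j ∈ S', ev p M (r' j) R (∑ i ∈ S, tw p (P i) (Q i j)) (w' j) := by
  have h1 : ∀ i ∈ S, ev p M (r i) R (P i) (∑ j ∈ S', ev p M (r' j) (r i) (Q i j) (w' j)) =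
      ∑ j ∈ S', ev p M (r' j) R (tw p (P i) (Q i j)) (w' j) := by
    intro i hi
    rw [ev_sum_right]
    exact Finset.sum_congr rfl fun j hj => (ev_tw hM (hQ i hi j hj) (hP i hi) _).symm
  rw [Finset.sum_congr rfl h1, Finset.sum_comm]
  exact Finset.sum_congr rfl fun j _ => (ev_sum _ _ _).symm

/-- The combination of elements of the span. -/
theorem Z_sum_of_span [Fact p.Prime] [CharP k p] [CharP Ω p] (hM : MS v G M)
    (hZ : GSub k p G M Z) {ι κ : Type*} {S : Finset ι} {S' : Finset κ} {r : ι → ℝ} {r' : κ → ℝ}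
    {w : ι → Ω} {w' : κ → Ω} {R : ℝ} {P : ι → k[X]} (hP : ∀ i ∈ S, IsOp p G (r i) R (P i))
    {Q : ι → κ → k[X]} (hQ : ∀ i ∈ S, ∀ j ∈ S', IsOp p G (r' j) (r i) (Q i j))
    (hw : ∀ i ∈ S, Z (r i) (w i - ∑ j ∈ S', ev p M (r' j) (r i) (Q i j) (w' j))) :
    Z R (∑ i ∈ S, ev p M (r i) R (P i) (w i) -
      ∑ j ∈ S', ev p M (r' j) R (∑ i ∈ S, tw p (P i) (Q i j)) (w' j)) := by
  rw [← sum_ev_ev hM hP hQ, ← Finset.sum_sub_distrib]
  refine hZ.sum fun i hi => ?_
  rw [← ev_sub_right]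
  exact hZ.ev (hP i hi) (hw i hi)

/-- A free family in the span of another family is not larger. -/
theorem FreeOn.card_le [Fact p.Prime] [CharP k p] [CharP Ω p] (hM : MS v G M)
    (hZ : GSub k p G M Z) {ι κ : Type*} {S : Finset ι} {S' : Finset κ} {r : ι → ℝ} {r' : κ → ℝ}
    {w : ι → Ω} {w' : κ → Ω} (hfree : FreeOn k p G M Z r w S)
    (hsp : ∀ i ∈ S, InSpan k p G M Z r' w' S' (r i) (w i)) : S.card ≤ S'.card := by
  classical
  by_contra hlt
  rw [not_le] at hlt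
  have hsp' : ∀ i : S, InSpan k p G M Z r' w' S' (r i) (w i) := fun i => hsp i i.2
  choose Q hQ hQZ using hsp'
  obtain ⟨R, P, hP, ⟨b, hb⟩, hrel⟩ := exists_rel (k := k) (p := p) (G := G) (ι := S') (κ := S)
    (by rwa [Fintype.card_coe, Fintype.card_coe]) (fun j => r' j) (fun i => r i)
    (fun i j => Q i j) (fun i j => hQ i j j.2)
  -- extend `P` to `ι`
  set P' : ι → k[X] := fun i => if h : i ∈ S then P ⟨i, h⟩ else 0 with hP'
  have hP'S : ∀ i (h : i ∈ S), P' i = P ⟨i, h⟩ := fun i h => dif_pos h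
  set Q' : ι → κ → k[X] := fun i j => if h : i ∈ S then Q ⟨i, h⟩ j else 0 with hQ'
  have hQ'S : ∀ i (h : i ∈ S) j, Q' i j = Q ⟨i, h⟩ j := fun i h j => dif_pos h
  have h1 := Z_sum_of_span (S := S) (S' := S') (r := r) (r' := r') (w := w) (w' := w') (R := R)
    (P := P') (Q := Q') hM hZ (fun i hi => by rw [hP'S i hi]; exact hP _)
    (fun i hi j hj => by rw [hQ'S i hi]; exact hQ _ j hj) (fun i hi => by
      have h2 := hQZ ⟨i, hi⟩
      rwa [Finset.sum_congr rfl fun j _ => by rw [hQ'S i hi j]])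
  have h2 : ∑ j ∈ S', ev p M (r' j) R (∑ i ∈ S, tw p (P' i) (Q' i j)) (w' j) = 0 := by
    refine Finset.sum_eq_zero fun j hj => ?_
    have h3 : ∑ i ∈ S, tw p (P' i) (Q' i j) = 0 := by
      rw [← hrel ⟨j, hj⟩, ← Finset.sum_coe_sort S]
      exact Finset.sum_congr rfl fun i _ => by rw [hP'S i i.2, hQ'S i i.2]
    rw [h3, ev_zero]
  rw [h2, sub_zero] at h1
  have h3 := hfree R P' (fun i hi => by rw [hP'S i hi]; exact hP _) h1 b b.2
  rw [hP'S b b.2] at h3
  exact hb h3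

/-- The matrices of two families which span each other are inverse to each other, on the side of
the free family. -/
theorem FreeOn.inverse [Fact p.Prime] [CharP k p] [CharP Ω p] (hM : MS v G M)
    (hZ : GSub k p G M Z) {ι κ : Type*} [DecidableEq κ] {S : Finset ι} {S' : Finset κ}
    {r : ι → ℝ} {r' : κ → ℝ} {w : ι → Ω} {w' : κ → Ω} (hfree : FreeOn k p G M Z r' w' S')
    {R : κ → ι → k[X]} {P : ι → κ → k[X]}
    (hR : ∀ i ∈ S', ∀ j ∈ S, IsOp p G (r j) (r' i) (R i j))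
    (hP : ∀ j ∈ S, ∀ i ∈ S', IsOp p G (r' i) (r j) (P j i))
    (hw' : ∀ i ∈ S', Z (r' i) (w' i - ∑ j ∈ S, ev p M (r j) (r' i) (R i j) (w j)))
    (hw : ∀ j ∈ S, Z (r j) (w j - ∑ i ∈ S', ev p M (r' i) (r j) (P j i) (w' i)))
    {i i' : κ} (hi : i ∈ S') (hi' : i' ∈ S') :
    ∑ j ∈ S, tw p (R i j) (P j i') = if i = i' then 1 else 0 := by
  have h1 := Z_sum_of_span (S := S) (S' := S') (r := r) (r' := r') (w := w) (w' := w')
    (R := r' i) (P := R i) (Q := P) hM hZ (hR i hi) hP hw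
  have h2 := hZ.add _ _ _ (hw' i hi) h1
  rw [sub_add_sub_cancel] at h2
  -- the identity
  have h3 : w' i = ∑ j ∈ S', ev p M (r' j) (r' i) (if i = j then (1 : k[X]) else 0) (w' j) := by
    rw [Finset.sum_eq_single i]
    · rw [if_pos rfl, ev_one hM]
    · intro j _ hj
      rw [if_neg (Ne.symm hj), ev_zero]
    · exact fun h => absurd hi h
  have hop1 : ∀ j ∈ S', IsOp p G (r' j) (r' i) (if i = j then (1 : k[X]) else 0) := by
    intro j _
    split_ifs with h
    · subst h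
      intro l hl
      rw [coeff_one] at hl
      split_ifs at hl with h'
      · rw [h', pow_zero, one_mul, sub_self]; exact G.zero_mem
      · exact absurd rfl hl
    · exact IsOp.zero
  have hop2 : ∀ j ∈ S', IsOp p G (r' j) (r' i) (∑ l ∈ S, tw p (R i l) (P l j)) := fun j hj =>
    IsOp.sum fun l hl => (hP l hl j hj).tw (hR i hi l hl)
  have h4 := hfree (r' i) (fun j => (if i = j then 1 else 0) - ∑ l ∈ S, tw p (R i l) (P l j))
    (fun j hj => (hop1 j hj).sub (hop2 j hj)) (by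
      rw [Finset.sum_congr rfl fun j _ => ev_sub _ _ _, Finset.sum_sub_distrib, ← h3]
      exact h2) i' hi'
  exact (sub_eq_zero.mp h4).symm

/-! ## Log components of operators -/

open Classical in
/-- The part of `P`, an operator from `r` to `R`, with the exponents in `t + G`. -/
noncomputable def clsPart (p : ℕ) (G : AddSubgroup ℝ) (r R t : ℝ) (P : k[X]) : k[X] :=
  ∑ j ∈ P.support, C (if R - t - (p : ℝ) ^ j * r ∈ G then P.coeff j else 0) * X ^ j

open Classical in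
theorem clsPart_coeff (r R t : ℝ) (P : k[X]) (j : ℕ) :
    (clsPart p G r R t P).coeff j = if R - t - (p : ℝ) ^ j * r ∈ G then P.coeff j else 0 := by
  rw [clsPart, finsetSum_coeff]
  by_cases hj : j ∈ P.support
  · rw [Finset.sum_eq_single j]
    · rw [coeff_C_mul_X_pow, if_pos rfl]
    · intro i _ hi
      rw [coeff_C_mul_X_pow, if_neg (Ne.symm hi)]
    · exact fun h => absurd hj h
  · rw [notMem_support_iff.mp hj, ite_self]
    refine Finset.sum_eq_zero fun i hi => ?_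
    rw [coeff_C_mul_X_pow, if_neg]
    rintro rfl
    exact hj hi

theorem clsPart_op (r R t : ℝ) (P : k[X]) : IsOp p G r (R - t) (clsPart p G r R t P) := by
  intro j hj
  rw [clsPart_coeff] at hj
  split_ifs at hj with h
  · exact h
  · exact absurd rfl hj

/-- The value of the part. -/
theorem ev_clsPart {G₁ : AddSubgroup ℝ} (hM : MS v G₁ M) (hG : G ≤ G₁) {r R t : ℝ} (ht : t ∈ G₁)
    (P : k[X]) (w : Ω) :
    ev p M r R (clsPart p G r R t P) w = M t * ev p M r (R - t) (clsPart p G r R t P) w := by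
  rw [ev, ev, Polynomial.sum, Polynomial.sum, Finset.mul_sum]
  refine Finset.sum_congr rfl fun j hj => ?_
  have h1 := clsPart_op r R t P j (mem_support_iff.mp hj)
  have h2 : M (R - (p : ℝ) ^ j * r) = M t * M (R - t - (p : ℝ) ^ j * r) := by
    rw [← hM.mul _ ht _ (hG h1)]
    congr 1
    ring
  rw [h2]
  ring

/-- The sum of the parts. -/
theorem sum_clsPart {G₁ : AddSubgroup ℝ} {T : Finset ℝ} (hex : ∀ g ∈ G₁, ∃ t ∈ T, g - t ∈ G)
    (huniq : ∀ t ∈ T, ∀ t' ∈ T, t - t' ∈ G → t = t') {r R : ℝ} {P : k[X]}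
    (hP : IsOp p G₁ r R P) : ∑ t ∈ T, clsPart p G r R t P = P := by
  classical
  ext j
  rw [finsetSum_coeff]
  by_cases hj : P.coeff j = 0
  · rw [hj]
    exact Finset.sum_eq_zero fun t _ => by rw [clsPart_coeff, hj, ite_self]
  · obtain ⟨t, ht, h1⟩ := hex _ (hP j hj)
    rw [Finset.sum_eq_single t]
    · rw [clsPart_coeff, if_pos]
      rwa [sub_right_comm]
    · intro t' ht' hne
      rw [clsPart_coeff, if_neg]
      intro h2
      refine hne (huniq t' ht' t ht ?_)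
      have h3 := G.sub_mem h1 h2
      convert h3 using 1
      ring
    · exact fun h => absurd ht h

/-- **The log components of a relation.** `b t` is the component at `t`. -/
theorem rel_log {G₁ : AddSubgroup ℝ} {T : Finset ℝ} (hM : MS v G₁ M) (hG : G ≤ G₁)
    (hT : ∀ t ∈ T, t ∈ G₁) (hex : ∀ g ∈ G₁, ∃ t ∈ T, g - t ∈ G)
    (huniq : ∀ t ∈ T, ∀ t' ∈ T, t - t' ∈ G → t = t') {ι : Type*} {S : Finset ι} {r : ι → ℝ}
    {R : ℝ} {P : ι → k[X]} (hP : ∀ i ∈ S, IsOp p G₁ (r i) R (P i)) (w : ι → Ω) :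
    ∑ i ∈ S, ev p M (r i) R (P i) (w i) =
      ∑ t ∈ T, M t * ∑ i ∈ S, ev p M (r i) (R - t) (clsPart p G (r i) R t (P i)) (w i) := by
  have h1 : ∀ i ∈ S, ev p M (r i) R (P i) (w i) =
      ∑ t ∈ T, M t * ev p M (r i) (R - t) (clsPart p G (r i) R t (P i)) (w i) := by
    intro i hi
    conv_lhs => rw [← sum_clsPart hex huniq (hP i hi), ev_sum]
    exact Finset.sum_congr rfl fun t ht => ev_clsPart hM hG (hT t ht) _ _
  rw [Finset.sum_congr rfl h1, Finset.sum_comm]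
  exact Finset.sum_congr rfl fun t _ => (Finset.mul_sum _ _ _).symm

/-- A family of elements of `B` which is free over `G` is free over `G₁`, if the membership in the
submodule can be tested on the components. -/
theorem FreeOn.log_aux {G₁ : AddSubgroup ℝ} {T : Finset ℝ} {Z₁ : ℝ → Ω → Prop} (hM : MS v G₁ M)
    (hG : G ≤ G₁) (hT : ∀ t ∈ T, t ∈ G₁) (hex : ∀ g ∈ G₁, ∃ t ∈ T, g - t ∈ G)
    (huniq : ∀ t ∈ T, ∀ t' ∈ T, t - t' ∈ G → t = t') {B : IntermediateField k Ω}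
    (hMB : ∀ g ∈ G, M g ∈ B)
    (hZ : ∀ (R : ℝ) (b : ℝ → Ω), (∀ t ∈ T, b t ∈ B) → Z₁ R (∑ t ∈ T, M t * b t) →
      ∀ t ∈ T, Z (R - t) (b t)) {ι : Type*} {S : Finset ι} {r : ι → ℝ} {w : ι → Ω}
    (hw : ∀ i ∈ S, w i ∈ B) (hfree : FreeOn k p G M Z r w S) : FreeOn k p G₁ M Z₁ r w S := by
  intro R P hP hrel i hi
  rw [rel_log hM hG hT hex huniq hP w] at hrel
  have h1 := hZ R _ (fun t _ => sum_mem fun i hi => ev_mem hMB (clsPart_op _ _ _ _) (hw i hi)) hrel
  rw [← sum_clsPart hex huniq (hP i hi)]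
  exact Finset.sum_eq_zero fun t ht =>
    hfree (R - t) (fun i => clsPart p G (r i) R t (P i)) (fun i _ => clsPart_op _ _ _ _)
      (h1 t ht) i hi

end Pool.Agent.TWM
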