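import Pool.Agent.Lib.JM_H15.Compl
import Pool.Agent.Lib.TWM.Defs

/-!
# M2: a complete algebraically closed extension

* `isAlgClosed_of_dense`: a complete ultrametric field with an algebraically closed dense subfield
  is algebraically closed, in every characteristic (nested approximate roots);
* `exists_complete`: the completion of an algebraically closed valued field.
-/

set_option autoImplicit false

open Polynomial

namespace Pool.Agent.TWM

open Pool.Agent.H15JM (RVal nfield nrm nrm_add nrm_of_ne)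
open Pool.Agent.LU1 (VPos)
open Pool.Agent.D2 (Ctx0)

universe u

namespace Cp

section Closed

variable {K L : Type*} [Field K] [NormedField L] [Algebra K L]

theorem sum_le (hum : ∀ x y : L, ‖x + y‖ ≤ max ‖x‖ ‖y‖) {g : L[X]} {d : ℕ}
    (hg : g.natDegree ≤ d) {η M : ℝ} (hη : 0 ≤ η) (hM : 1 ≤ M) (hc : ∀ i, ‖g.coeff i‖ ≤ η)
    {t : L} (ht : ‖t‖ ≤ M) : ‖g.eval t‖ ≤ η * M ^ d := by
  rw [eval_eq_sum_range' (Nat.lt_succ_of_le hg)]
  have h0 : 0 ≤ η * M ^ d := mul_nonneg hη (pow_nonneg (zero_le_one.trans hM) _)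
  refine H15JM.um_sum hum _ _ h0 fun i hi => ?_
  rw [norm_mul, norm_pow]
  refine mul_le_mul (hc i) ?_ (pow_nonneg (norm_nonneg _) _) hη
  calc ‖t‖ ^ i ≤ M ^ i := pow_le_pow_left₀ (norm_nonneg _) ht i
    _ ≤ M ^ d := pow_le_pow_right₀ hM (Nat.lt_succ_iff.1 (Finset.mem_range.1 hi))

theorem prod_gt {s : Multiset L} (hs : s ≠ 0) {b : L} {ε : ℝ} (hε : 0 < ε)
    (h : ∀ θ ∈ s, ε < ‖b - θ‖) : ε ^ s.card < ‖(s.map fun θ => b - θ).prod‖ := by
  induction s using Multiset.induction_on with
  | empty => exact absurd rfl hs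
  | cons a s ih =>
    rw [Multiset.card_cons, Multiset.map_cons, Multiset.prod_cons, norm_mul, pow_succ']
    have h1 := h a (Multiset.mem_cons_self a s)
    by_cases h0 : s = 0
    · rw [h0, Multiset.card_zero, pow_zero, Multiset.map_zero, Multiset.prod_zero, norm_one,
        mul_one, mul_one]
      exact h1
    · have h2 := ih h0 fun θ hθ => h θ (Multiset.mem_cons_of_mem hθ)
      exact mul_lt_mul h1 h2.le (pow_pos hε _) (norm_nonneg _)

theorem root_step [IsAlgClosed K] (hum : ∀ x y : L, ‖x + y‖ ≤ max ‖x‖ ‖y‖)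
    (hd : DenseRange (algebraMap K L)) {f : L[X]} (hf : f.Monic) (hdeg : f.natDegree ≠ 0)
    (b : K) {ε δ : ℝ} (hε : 0 < ε) (hδ : 0 < δ)
    (hb : ‖f.eval (algebraMap K L b)‖ < ε ^ f.natDegree) :
    ∃ θ : K, ‖algebraMap K L b - algebraMap K L θ‖ ≤ ε ∧ ‖f.eval (algebraMap K L θ)‖ ≤ δ := by
  classical
  set d := f.natDegree with hd'
  set M : ℝ := max (max ‖algebraMap K L b‖ ε) 1 with hM
  have hM1 : 1 ≤ M := le_max_right _ _
  have hMd : 0 < M ^ d := pow_pos (zero_lt_one.trans_le hM1) _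
  set η : ℝ := min δ (ε ^ d) / M ^ d with hη
  have hη0 : 0 < η := div_pos (lt_min hδ (pow_pos hε _)) hMd
  obtain ⟨g, hgm, hgd, hgc⟩ :=
    exists_monic_and_natDegree_eq_and_norm_map_algebraMap_coeff_sub_lt hd hf hη0
  have hle : (g.map (algebraMap K L) - f).natDegree ≤ d := by
    refine (natDegree_sub_le _ _).trans (max_le ?_ le_rfl)
    rw [natDegree_map]
    exact hgd.symm.le
  have hsmall : ∀ t : L, ‖t‖ ≤ M → ‖(g.map (algebraMap K L) - f).eval t‖ ≤ min δ (ε ^ d) := by
    intro t ht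
    have h1 := sum_le hum hle hη0.le hM1 (fun i => by
      rw [coeff_sub]
      exact (hgc i).le) ht
    rwa [hη, div_mul_cancel₀ _ hMd.ne'] at h1
  -- a root of `g` near `b`
  have hgb : ‖(g.map (algebraMap K L)).eval (algebraMap K L b)‖ ≤ ε ^ d := by
    have h1 := hum ((g.map (algebraMap K L) - f).eval (algebraMap K L b))
      (f.eval (algebraMap K L b))
    rw [eval_sub, sub_add_cancel] at h1
    refine h1.trans (max_le ?_ hb.le)
    rw [← eval_sub]
    exact (hsmall _ ((le_max_left _ _).trans (le_max_left _ _))).trans (min_le_right _ _)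
  have hsp : g.Splits := IsAlgClosed.splits g
  have hcard : g.roots.card = d := by
    rw [hd', hgd]
    exact hsp.natDegree_eq_card_roots.symm
  obtain ⟨θ, hθ, hθb⟩ : ∃ θ ∈ g.roots, ‖algebraMap K L b - algebraMap K L θ‖ ≤ ε := by
    by_contra hcon
    push Not at hcon
    have h1 := prod_gt (s := g.roots.map (algebraMap K L)) (b := algebraMap K L b) (ε := ε)
      (by
        intro h0
        have h2 := congrArg Multiset.card h0
        rw [Multiset.card_map, hcard, Multiset.card_zero] at h2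
        exact hdeg h2) hε (by
        intro t ht
        obtain ⟨θ, hθ, rfl⟩ := Multiset.mem_map.1 ht
        exact hcon θ hθ)
    rw [Multiset.card_map, hcard] at h1
    have h2 : (g.map (algebraMap K L)).eval (algebraMap K L b) =
        ((g.roots.map (algebraMap K L)).map fun θ => algebraMap K L b - θ).prod := by
      rw [eval_map_algebraMap, aeval_algebraMap_apply, coe_aeval_eq_eval,
        hsp.eval_eq_prod_roots_of_monic hgm, map_multiset_prod, Multiset.map_map,
        Multiset.map_map]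
      congr 1
      refine Multiset.map_congr rfl fun x _ => ?_
      simp
    rw [h2] at hgb
    exact absurd hgb (not_le.2 h1)
  refine ⟨θ, hθb, ?_⟩
  have hθM : ‖algebraMap K L θ‖ ≤ M := by
    have h1 := hum (algebraMap K L b) (-(algebraMap K L b - algebraMap K L θ))
    have h2 : algebraMap K L b + -(algebraMap K L b - algebraMap K L θ) = algebraMap K L θ := by
      ring
    rw [h2, norm_neg] at h1
    refine h1.trans ((max_le_max le_rfl hθb).trans (le_max_left _ _))
  have h3 := hsmall _ hθM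
  have h4 : (g.map (algebraMap K L)).eval (algebraMap K L θ) = 0 := by
    rw [eval_map_algebraMap, aeval_algebraMap_apply, coe_aeval_eq_eval,
      (mem_roots hgm.ne_zero).1 hθ, map_zero]
  rw [eval_sub, h4, zero_sub, norm_neg] at h3
  exact h3.trans (min_le_left _ _)

/-- A complete ultrametric field with an algebraically closed dense subfield is algebraically
closed. -/
theorem isAlgClosed_of_dense [IsAlgClosed K] [CompleteSpace L]
    (hum : ∀ x y : L, ‖x + y‖ ≤ max ‖x‖ ‖y‖) (hd : DenseRange (algebraMap K L)) :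
    IsAlgClosed L := by
  classical
  refine IsAlgClosed.of_exists_root L fun f hf hirr => ?_
  have hdeg : f.natDegree ≠ 0 := (Irreducible.natDegree_pos hirr).ne'
  set d := f.natDegree with hd'
  -- the start
  obtain ⟨b₀, -, hb₀⟩ := root_step hum hd hf hdeg (0 : K)
    (ε := ‖f.eval (algebraMap K L 0)‖ + 1) (δ := 1 / 2) (by positivity) (by norm_num) (by
      have h1 : (1 : ℝ) ≤ ‖f.eval (algebraMap K L 0)‖ + 1 := by
        have := norm_nonneg (f.eval (algebraMap K L 0))
        linarith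
      calc ‖f.eval (algebraMap K L 0)‖ < ‖f.eval (algebraMap K L 0)‖ + 1 := lt_add_one _
        _ ≤ (‖f.eval (algebraMap K L 0)‖ + 1) ^ f.natDegree := le_self_pow₀ h1 hdeg)
  -- the steps
  have step : ∀ (n : ℕ) (b : K), ∃ θ : K, ‖f.eval (algebraMap K L b)‖ < ((1 / 2 : ℝ) ^ n) ^ d →
      ‖algebraMap K L b - algebraMap K L θ‖ ≤ (1 / 2 : ℝ) ^ n ∧
        ‖f.eval (algebraMap K L θ)‖ < ((1 / 2 : ℝ) ^ (n + 1)) ^ d := by
    intro n b
    by_cases h : ‖f.eval (algebraMap K L b)‖ < ((1 / 2 : ℝ) ^ n) ^ d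
    · have hpos : (0 : ℝ) < ((1 / 2 : ℝ) ^ (n + 1)) ^ d := by positivity
      obtain ⟨θ, h1, h2⟩ := root_step hum hd hf hdeg b (ε := (1 / 2 : ℝ) ^ n)
        (δ := ((1 / 2 : ℝ) ^ (n + 1)) ^ d / 2) (by positivity) (by positivity) h
      exact ⟨θ, fun _ => ⟨h1, h2.trans_lt (half_lt_self hpos)⟩⟩
    · exact ⟨b, fun h' => absurd h' h⟩
  choose nx hnx using step
  let b : ℕ → K := fun n => Nat.rec b₀ (fun m c => nx m c) n
  have hbs : ∀ n, b (n + 1) = nx n (b n) := fun n => rfl
  have hsm : ∀ n, ‖f.eval (algebraMap K L (b n))‖ < ((1 / 2 : ℝ) ^ n) ^ d := by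
    intro n
    induction n with
    | zero =>
      rw [pow_zero, one_pow]
      exact hb₀.trans_lt (by norm_num)
    | succ n ih =>
      rw [hbs]
      exact (hnx n (b n) ih).2
  have hdist : ∀ n, dist (algebraMap K L (b n)) (algebraMap K L (b (n + 1))) ≤
      1 * (1 / 2 : ℝ) ^ n := by
    intro n
    rw [dist_eq_norm, one_mul, hbs]
    exact (hnx n (b n) (hsm n)).1
  have hcau : CauchySeq fun n => algebraMap K L (b n) :=
    cauchySeq_of_le_geometric _ _ (by norm_num) hdist
  obtain ⟨x, hx⟩ := cauchySeq_tendsto_of_complete hcau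
  refine ⟨x, ?_⟩
  have h1 : Filter.Tendsto (fun n => f.eval (algebraMap K L (b n))) Filter.atTop
      (nhds (f.eval x)) := (f.continuous.tendsto x).comp hx
  have h2 : Filter.Tendsto (fun n => f.eval (algebraMap K L (b n))) Filter.atTop (nhds 0) := by
    refine squeeze_zero_norm (a := fun n : ℕ => (1 / 2 : ℝ) ^ n) (fun n => ?_)
      (tendsto_pow_atTop_nhds_zero_of_lt_one (by norm_num) (by norm_num))
    refine (hsm n).le.trans ?_
    refine pow_le_of_le_one (by positivity) ?_ hdeg
    exact pow_le_one₀ (by norm_num) (by norm_num)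
  exact tendsto_nhds_unique h1 h2

end Closed

section Compl

open UniformSpace

variable {k K : Type u} [Field k] [NormedField K] [Algebra k K]

theorem compl_um (hum : ∀ x y : K, ‖x + y‖ ≤ max ‖x‖ ‖y‖) (x y : Completion K) :
    ‖x + y‖ ≤ max ‖x‖ ‖y‖ := by
  induction x, y using Completion.induction_on₂ with
  | hp => exact isClosed_le (by fun_prop) (by fun_prop)
  | ih x y =>
    rw [← Completion.coe_add, Completion.norm_coe, Completion.norm_coe, Completion.norm_coe]
    exact hum x y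

/-- The valuation of the completion. -/
noncomputable def complVal (hum : ∀ x y : K, ‖x + y‖ ≤ max ‖x‖ ‖y‖) : RVal (Completion K) where
  toFun x := - Real.log ‖x‖
  map_mul' x y hx hy := by
    rw [norm_mul, Real.log_mul (norm_ne_zero_iff.2 hx) (norm_ne_zero_iff.2 hy), neg_add]
  map_add' x y hx hy hxy := by
    have h := compl_um hum x y
    rcases le_max_iff.1 h with h1 | h1
    · exact min_le_of_left_le (neg_le_neg (Real.log_le_log (norm_pos_iff.2 hxy) h1))
    · exact min_le_of_right_le (neg_le_neg (Real.log_le_log (norm_pos_iff.2 hxy) h1))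

theorem complVal_apply (hum : ∀ x y : K, ‖x + y‖ ≤ max ‖x‖ ‖y‖) (x : Completion K) :
    complVal hum x = - Real.log ‖x‖ := rfl

theorem ge_iff (hum : ∀ x y : K, ‖x + y‖ ≤ max ‖x‖ ‖y‖) (c : ℝ) (x : Completion K) :
    (complVal hum).Ge c x ↔ ‖x‖ ≤ Real.exp (-c) := by
  by_cases h0 : x = 0
  · subst h0
    rw [norm_zero]
    exact ⟨fun _ => (Real.exp_pos _).le, fun _ => RVal.Ge.zero⟩
  · have h1 : 0 < ‖x‖ := norm_pos_iff.2 h0
    constructor
    · intro h
      have h2 := h h0
      rw [complVal_apply] at h2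
      rw [← Real.log_le_iff_le_exp h1]
      linarith
    · intro h _
      rw [← Real.log_le_iff_le_exp h1] at h
      rw [complVal_apply]
      linarith

theorem exists_complete_aux [IsAlgClosed K] (hum : ∀ x y : K, ‖x + y‖ ≤ max ‖x‖ ‖y‖) :
    ∃ (Ω' : Type u) (_ : Field Ω') (_ : Algebra k Ω') (ι : K →ₐ[k] Ω') (w : RVal Ω'),
      IsAlgClosed Ω' ∧ CompleteV w ∧ (∀ x, x ≠ 0 → w (ι x) = - Real.log ‖x‖) ∧
      (∀ x : Ω', ∀ c : ℝ, ∃ a : K, w.Ge c (x - ι a)) := by
  let alg : Algebra k (Completion K) :=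
    ((Completion.coeRingHom (α := K)).comp (algebraMap k K)).toAlgebra
  let ι : K →ₐ[k] Completion K :=
    { (Completion.coeRingHom (α := K)) with commutes' := fun c => rfl }
  have hι : ∀ x : K, ι x = (x : Completion K) := fun x => rfl
  have hum' := compl_um hum
  refine ⟨Completion K, inferInstance, alg, ι, complVal hum, ?_, ?_, ?_, ?_⟩
  · let _ : Algebra K (Completion K) := (Completion.coeRingHom (α := K)).toAlgebra
    exact isAlgClosed_of_dense (K := K) hum' Completion.denseRange_coe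
  · intro f hf
    have hcau : CauchySeq f := by
      rw [Metric.cauchySeq_iff]
      intro ε hε
      obtain ⟨N, hN⟩ := hf (- Real.log ε + 1)
      refine ⟨N, fun m hm n hn => ?_⟩
      have h1 := (ge_iff hum _ _).1 (hN m n hm hn)
      rw [dist_eq_norm]
      refine h1.trans_lt ?_
      rw [neg_add, neg_neg, Real.exp_add, Real.exp_log hε]
      have h2 : Real.exp (-1) < 1 := by
        rw [Real.exp_lt_one_iff]
        norm_num
      calc ε * Real.exp (-1) < ε * 1 := mul_lt_mul_of_pos_left h2 hε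
        _ = ε := mul_one _
    obtain ⟨a, ha⟩ := cauchySeq_tendsto_of_complete hcau
    refine ⟨a, fun c => ?_⟩
    obtain ⟨N, hN⟩ := Metric.tendsto_atTop.1 ha (Real.exp (-c)) (Real.exp_pos _)
    refine ⟨N, fun n hn => ?_⟩
    have h1 := hN n hn
    rw [dist_comm, dist_eq_norm] at h1
    exact (ge_iff hum _ _).2 h1.le
  · intro x hx
    rw [hι, complVal_apply, Completion.norm_coe]
  · intro x c
    obtain ⟨y, hy⟩ := (Completion.denseRange_coe (α := K)).exists_dist_lt x (Real.exp_pos (-c))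
    refine ⟨y, (ge_iff hum _ _).2 ?_⟩
    rw [dist_eq_norm] at hy
    exact hy.le

end Compl

end Cp

/-- An isometric embedding of valued fields over `k`, with dense image. -/
structure Dense {k Ω Ω' : Type u} [Field k] [Field Ω] [Algebra k Ω] [Field Ω'] [Algebra k Ω']
    (v : RVal Ω) (w : RVal Ω') (ι : Ω →ₐ[k] Ω') : Prop where
  val : ∀ x, x ≠ 0 → w (ι x) = v x
  dense : ∀ (x : Ω') (c : ℝ), ∃ a : Ω, w.Ge c (x - ι a)

namespace Dense

variable {k Ω Ω' : Type u} [Field k] [Field Ω] [Algebra k Ω] [Field Ω'] [Algebra k Ω']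
  {v : RVal Ω} {w : RVal Ω'} {ι : Ω →ₐ[k] Ω'}

theorem ne_zero (_h : Dense v w ι) {x : Ω} (hx : x ≠ 0) : ι x ≠ 0 :=
  (map_ne_zero_iff _ ι.injective).2 hx

theorem ge_iff (h : Dense v w ι) {c : ℝ} {x : Ω} : w.Ge c (ι x) ↔ v.Ge c x := by
  by_cases h0 : x = 0
  · subst h0
    rw [map_zero]
    exact ⟨fun _ => RVal.Ge.zero, fun _ => RVal.Ge.zero⟩
  · constructor
    · intro h1 _
      rw [← h.val x h0]
      exact h1 (h.ne_zero h0)
    · intro h1 _
      rw [h.val x h0]
      exact h1 h0

theorem vpos_iff (h : Dense v w ι) {x : Ω} : VPos w (ι x) ↔ VPos v x := by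
  by_cases h0 : x = 0
  · subst h0
    rw [map_zero]
    exact ⟨fun _ => LU1.VPos.zero, fun _ => LU1.VPos.zero⟩
  · constructor
    · intro h1 _
      rw [← h.val x h0]
      exact h1 (h.ne_zero h0)
    · intro h1 _
      rw [h.val x h0]
      exact h1 h0

/-- Approximation with the same value. -/
theorem approx (h : Dense v w ι) {x : Ω'} (hx : x ≠ 0) (c : ℝ) :
    ∃ a : Ω, a ≠ 0 ∧ v a = w x ∧ w.Ge c (x - ι a) := by
  obtain ⟨a, ha⟩ := h.dense x (max c (w x + 1))
  by_cases h0 : x - ι a = 0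
  · have h1 : x = ι a := sub_eq_zero.1 h0
    have ha0 : a ≠ 0 := by
      rintro rfl
      rw [map_zero] at h1
      exact hx h1
    exact ⟨a, ha0, by rw [h1, h.val a ha0], by rw [h0]; exact RVal.Ge.zero⟩
  · have h1 := ha h0
    have h2 : w x < w (-(x - ι a)) := by
      rw [w.map_neg _ h0]
      have := le_max_right c (w x + 1)
      linarith
    have h3 := w.add_of_lt hx (neg_ne_zero.2 h0) h2
    have h4 : x + -(x - ι a) = ι a := by ring
    rw [h4] at h3
    have ha0 : a ≠ 0 := by
      rintro rfl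
      exact h3.1 (map_zero _)
    refine ⟨a, ha0, ?_, ha.mono (le_max_left _ _)⟩
    rw [← h.val a ha0]
    exact h3.2

/-- The same values. -/
theorem exists_val (h : Dense v w ι) {x : Ω'} (hx : x ≠ 0) : ∃ a : Ω, a ≠ 0 ∧ v a = w x := by
  obtain ⟨a, ha, hv, -⟩ := h.approx hx 0
  exact ⟨a, ha, hv⟩

theorem ctx0 (h : Dense v w ι) (h0 : Ctx0 k v) : Ctx0 k w where
  triv := by
    intro c hc
    rw [← ι.commutes c, h.val _ ((map_ne_zero_iff _ (algebraMap k Ω).injective).2 hc)]
    exact h0.triv c hc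
  res := by
    intro g hg hvg
    obtain ⟨a, ha, hva, hga⟩ := h.approx hg 1
    obtain ⟨c, hc, hpos⟩ := h0.res a ha (hva.trans hvg)
    refine ⟨c, hc, ?_⟩
    have h1 : g - algebraMap k Ω' c = (g - ι a) + ι (a - algebraMap k Ω c) := by
      rw [map_sub, ι.commutes]
      ring
    rw [h1]
    refine LU1.VPos.add (fun h2 => ?_) (h.vpos_iff.2 hpos)
    have := hga h2
    linarith

end Dense

/-- **A complete algebraically closed extension.** -/
theorem exists_complete (k : Type u) {Ω : Type u} [Field k] [Field Ω] [Algebra k Ω]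
    [IsAlgClosed Ω] (v : RVal Ω) :
    ∃ (Ω' : Type u) (_ : Field Ω') (_ : Algebra k Ω') (ι : Ω →ₐ[k] Ω') (w : RVal Ω'),
      IsAlgClosed Ω' ∧ CompleteV w ∧ Dense v w ι := by
  let nf : NormedField Ω := nfield v
  obtain ⟨Ω', iF, iA, ι, w, h1, h2, h3, h4⟩ := Cp.exists_complete_aux (k := k) (K := Ω)
    (fun x y => nrm_add v x y)
  refine ⟨Ω', iF, iA, ι, w, h1, h2, fun x hx => ?_, h4⟩
  rw [h3 x hx]
  have h5 : ‖x‖ = nrm v x := rfl
  rw [h5, nrm_of_ne v hx, Real.log_exp, neg_neg]

end Pool.Agent.TWM
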