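import Pool.Agent.Lib.TWM.G4
import Pool.Agent.Lib.TWM.Rank2

/-!
# TANK W, M2, block G: the forms used in the log descent

`Fib.basis_fin`: the change of the basis, with the data of `Cls.exists_basis`;
`Fib.descend`: a fibration of `B₁` over `N₁` by elements of `B` is a fibration of `B` over `N`.
-/

set_option autoImplicit false

open Polynomial

namespace Pool.Agent.TWM

open Pool.Agent.H15JM (RVal)
open Pool.Agent.D2 (Ctx0)

universe u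

variable {k Ω : Type u} [Field k] [Field Ω] [Algebra k Ω] {v : RVal Ω}
  {p : ℕ} {G G₁ : AddSubgroup ℝ} {M : ℝ → Ω} {T : Finset ℝ} {A N B : IntermediateField k Ω}
  {y z : Ω} {ρ s : ℝ}

/-- **G2**, the freeness. -/
theorem Fib.freeOn [Fact p.Prime] [CharP Ω p] [IsAlgClosed Ω] (h : Ctx0 k v) (hM : MS v G M)
    (hA : ∀ g ∈ G, M g ∈ A) (hF : Fib v A B y z ρ s) :
    FreeOn k p G M (Nr' v A) ![ρ, s] ![y, z] Finset.univ := by
  intro R P hP hrel i _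
  rw [Fin.sum_univ_two] at hrel
  have h1 := hF.ty.ev_free h hM hA hF.tz (hP 0 (Finset.mem_univ _)) (hP 1 (Finset.mem_univ _)) hrel
  fin_cases i
  exacts [h1.1, h1.2]

/-- **G2**, the span. -/
theorem Fib.inSpan [Fact p.Prime] [CharP Ω p] [IsAlgClosed Ω] (h : Ctx0 k v) (hM : MS v G M)
    (hA : ∀ g ∈ G, M g ∈ A) (hv : VG v G B) (hF : Fib v A B y z ρ s) (hl : Lim v A s z) {r : ℝ}
    {w : Ω} (hw : w ∈ B) (hlw : Lim v A r w) :
    InSpan k p G M (Nr' v A) ![ρ, s] ![y, z] Finset.univ r w := by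
  obtain ⟨P, R, hP, hR, h1⟩ := hF.exists_ev (p := p) h hM hA hv hl hw hlw
  refine ⟨![P, R], fun i _ => ?_, ?_⟩
  · fin_cases i
    exacts [hP, hR]
  · rw [Fin.sum_univ_two]
    exact h1

/-- **G4**, with the data of `Cls.exists_basis`. -/
theorem Fib.basis_fin [Fact p.Prime] [CharP k p] [CharP Ω p] [IsAlgClosed Ω] (h : Ctx0 k v)
    (hM : MS v G M) (hA : ∀ g ∈ G, M g ∈ A) (hF : Fib v A B y z ρ s) (hl : Lim v A s z)
    {ρ' : Fin 2 → ℝ} {θ : Fin 2 → Ω} {P R : Fin 2 → Fin 2 → k[X]} (hθ : ∀ i, θ i ∈ B)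
    (hP : ∀ i j, IsOp p G (![ρ, s] j) (ρ' i) (P i j))
    (hR : ∀ j i, IsOp p G (ρ' i) (![ρ, s] j) (R j i))
    (hPθ : ∀ i, Nr' v A (ρ' i) (θ i - ∑ j, ev p M (![ρ, s] j) (ρ' i) (P i j) (![y, z] j)))
    (hRu : ∀ j, Nr' v A (![ρ, s] j)
      (![y, z] j - ∑ i, ev p M (ρ' i) (![ρ, s] j) (R j i) (θ i))) :
    Fib v A B (θ 0) (θ 1) (ρ' 0) (ρ' 1) ∧ Lim v A (ρ' 0) (θ 0) ∧ Lim v A (ρ' 1) (θ 1) := by
  have e0 := hPθ 0
  have e1 := hPθ 1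
  have f0 := hRu 0
  have f1 := hRu 1
  rw [Fin.sum_univ_two] at e0 e1 f0 f1
  have hB : Bs v A B p G M y z ρ s (θ 0) (θ 1) (ρ' 0) (ρ' 1) (P 0 0) (P 0 1) (P 1 0) (P 1 1) :=
    ⟨hθ 0, hθ 1, hP 0 0, hP 0 1, hP 1 0, hP 1 1, e0, e1, ⟨R 0 0, R 0 1, hR 0 0, hR 0 1, f0⟩,
      ⟨R 1 0, R 1 1, hR 1 0, hR 1 1, f1⟩⟩
  exact ⟨hF.basis h hM hA hl hB, hB.lim₁ h hM hA hF hl, hB.swap.lim₁ h hM hA hF hl⟩

/-- **The descent of a fibration.** -/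
theorem Fib.descend (hc : CompleteV v) (hcls : Cls v M G G₁ T B) (hNB : N ≤ B)
    (hMN : ∀ g ∈ G, M g ∈ N) (hBc : Cld v B) (hy : y ∈ B) (hz : z ∈ B)
    (hF : Fib v (LE M G₁ N) (LE M G₁ B) y z ρ s) : Fib v N B y z ρ s := by
  have hyB : cadj v N y ≤ B := cadj_le hBc hNB hy
  have hzB : cadj v (cadj v N y) z ≤ B := cadj_le hBc hyB hz
  have hMy : ∀ g ∈ G, M g ∈ cadj v N y := fun g hg => le_cadj v N y (hMN g hg)
  have hMz : ∀ g ∈ G, M g ∈ cadj v (cadj v N y) z := fun g hg => le_cadj v _ z (hMy g hg)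
  have e1 : cadj v (LE M G₁ N) y = LE M G₁ (cadj v N y) := Cls.cadj_eq hc (hcls.mono hyB hMy)
  have e2 : cadj v (LE M G₁ (cadj v N y)) z = LE M G₁ (cadj v (cadj v N y) z) :=
    Cls.cadj_eq hc (hcls.mono hzB hMz)
  have hle : cadj v N y ≤ cadj v (LE M G₁ N) y := by
    rw [e1]
    exact le_LE
  refine ⟨⟨(hcls.lim_self hNB hMN hy).1 hF.ty.lim, fun θ hθ =>
    hF.ty.far θ (D2P.isAlgebraic_mono le_LE hθ)⟩, ⟨?_, fun θ hθ =>
    hF.tz.far θ (D2P.isAlgebraic_mono hle hθ)⟩, ?_⟩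
  · have h1 := hF.tz.lim
    rw [e1] at h1
    exact (hcls.lim_self hyB hMy hz).1 h1
  · refine (hcls.eq_of_LE hzB hMz ?_).symm
    rw [← e2, ← e1, ← hF.eq]
    exact le_LE

end Pool.Agent.TWM
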