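import Pool.Agent.Lib.TWM.I1
import Pool.Agent.Lib.TWM.G5
import Pool.Agent.Lib.TWM.RankOne

/-!
# Log descent

`B` is immediate over `N` (Laurent polynomials dense, finitely generated value group `G`),
`N₁ = N(x^{1/p})`, `B₁ = B(x^{1/p})`. If `B₁` has a fibration over `N₁`, then `B` has one over `N`.
-/

set_option autoImplicit false

open Polynomial Finset

namespace Pool.Agent.TWM

open Pool.Agent.H15JM (RVal)
open Pool.Agent.LU1 (VPos adj)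
open Pool.Agent.D2 (Ctx0)
open Pool.Agent.D2P (clI mem_clI)

universe u

variable {k Ω : Type u} [Field k] [Field Ω] [Algebra k Ω] {v : RVal Ω}
  {G G₁ : AddSubgroup ℝ} {M : ℝ → Ω} {T : Finset ℝ} {B N : IntermediateField k Ω}
  {z u : Ω} {s ρ : ℝ}

/-- **Case of rank two**: the second generator is a limit of `N(x^{1/p})`. -/
theorem rank_two [IsAlgClosed k] [IsAlgClosed Ω] (p : ℕ) [Fact p.Prime] [CharP k p]
    [CharP Ω p] (h : Ctx0 k v) (hc : CompleteV v) (hcls : Cls v M G G₁ T B)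
    (hMN : ∀ g ∈ G, M g ∈ N) (hN : LDense v G M N) (hG : G.FG) (hB : Imm v N B) (hBc : Cld v B)
    (hF : Fib v (LE M G₁ N) (LE M G₁ B) u z ρ s) (hl : Lim v (LE M G₁ N) s z) :
    ∃ (y z' : Ω) (ρ' s' : ℝ), Fib v N B y z' ρ' s' := by
  have hMN₁ : ∀ g ∈ G₁, M g ∈ LE M G₁ N := fun g hg => mon_mem_LE hg
  have huB : u ∈ LE M G₁ B := by
    rw [hF.eq]
    exact le_cadj _ _ _ (self_mem_cadj _ _ _)
  have hzB : z ∈ LE M G₁ B := by
    rw [hF.eq]
    exact self_mem_cadj _ _ _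
  obtain ⟨ρ', θ, P, Q, h1, h2, h3, h4, h5, h6, h7, h8⟩ := hcls.exists_basis (p := p) h hMN hN hG hB
    ![ρ, s] ![u, z] (fun i => by
      fin_cases i
      · exact ⟨huB, hF.ty.lim⟩
      · exact ⟨hzB, hl⟩) (Fib.freeOn h hcls.ms hMN₁ hF)
    (fun R x hx hlx => Fib.inSpan h hcls.ms hMN₁ hcls.vgLE hF hl (le_LE hx)
      ((hcls.lim_self hB.le hMN hx).mpr hlx))
  have h9 := Fib.basis_fin h hcls.ms hMN₁ hF hl (fun i => le_LE (h1 i).1) h2 h3 h4 h5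
  exact ⟨θ 0, θ 1, ρ' 0, ρ' 1, Fib.descend hc hcls hB.le hMN hBc (h1 0).1 (h1 1).1 h9.1⟩

/-- **Log descent.** -/
theorem log_descent [IsAlgClosed k] [IsAlgClosed Ω] (p : ℕ) [Fact p.Prime] [CharP k p]
    [CharP Ω p] (h : Ctx0 k v) (hc : CompleteV v) (hcls : Cls v M G G₁ T B)
    (hMN : ∀ g ∈ G, M g ∈ N) (hN : LDense v G M N) (hG : G.FG) (hB : Imm v N B) (hBc : Cld v B)
    (hF : Fib v (LE M G₁ N) (LE M G₁ B) u z ρ s) :
    ∃ (y z' : Ω) (ρ' s' : ℝ), Fib v N B y z' ρ' s' := by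
  by_cases hrk : ∀ x ∈ LE M G₁ B, ∀ r, Lim v (LE M G₁ N) r x →
      Nr' v (cadj v (LE M G₁ N) u) r x
  · obtain ⟨y, hy, z', ρ', hF', hrk'⟩ := exists_rank_one p h hcls hMN hN hG hB hF hrk
    obtain ⟨z'', s', hF''⟩ := rank_one (p := p) h hc hcls hMN hN hG hB hBc hy hF' hrk'
    exact ⟨y, z'', ρ', s', hF''⟩
  · push Not at hrk
    obtain ⟨x, hx, r, hlx, hnr⟩ := hrk
    obtain ⟨e, he, hl⟩ := exists_good p h hcls.ms (hcls.reps.fg hG) (fun g hg => mon_mem_LE hg)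
      ((hcls.mono hB.le hMN).ldense hN) hF hx hlx hnr
    have hF' : Fib v (LE M G₁ N) (LE M G₁ B) u (z - e) ρ s :=
      ⟨hF.ty, hF.tz.sub_mem he, by rw [cadj_sub_mem he]; exact hF.eq⟩
    exact rank_two p h hc hcls hMN hN hG hB hBc hF' hl

end Pool.Agent.TWM
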