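import Pool.Agent.Lib.TWM.D2
import Pool.Agent.Lib.TWM.NNp
import Pool.Agent.Lib.TWM.LogDescent

/-!
# TANK W, M2: the purely inseparable step for fibred fields

`B` is the closure of `N(y, z)`, `N` the closure of `k(x)`, `x` with linearly independent values;
`α^p ∈ B` and `B(α)` is immediate over `N`. Then `B(α)` is the closure of `N(y', z')`.
-/

set_option autoImplicit false

namespace Pool.Agent.TWM

open Pool.Agent.H15JM (RVal)
open Pool.Agent.LU1 (VPos adj)
open Pool.Agent.D2 (Ctx0)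
open Pool.Agent.D2P (clI mem_clI adj_le mem_adj_self rootF mem_rootF)

universe u

variable {k Ω : Type u} [Field k] [Field Ω] [Algebra k Ω] {v : RVal Ω} [IsAlgClosed k]
  [IsAlgClosed Ω] (p : ℕ) [hp : Fact p.Prime] [CharP k p] [CharP Ω p]

omit [IsAlgClosed k] [IsAlgClosed Ω] [CharP k p] [CharP Ω p] in
/-- `B(α)` is closed when `B` is. -/
theorem cld_adj' (hc : CompleteV v) {B : IntermediateField k Ω} {α : Ω} (hB : Cld v B)
    (hαp : α ^ p ∈ B) : Cld v (adj B α) :=
  cld_adj hc hB (isAlgebraic_of_pow_mem p hαp)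

/-- **PI2.** -/
theorem PI2 (h0 : Ctx0 k v) (hc : CompleteV v) {r : ℕ} {x : Fin r → Ω} (hx : ∀ i, x i ≠ 0)
    (hind : LinearIndependent ℚ fun i => v (x i)) {B : IntermediateField k Ω} {y z α : Ω}
    {ρ s : ℝ} (hF : Fib v (NN k v x) B y z ρ s) (hαp : α ^ p ∈ B)
    (hI : Imm v (NN k v x) (adj B α)) :
    ∃ (y' z' : Ω) (ρ' s' : ℝ), Fib v (NN k v x) (adj B α) y' z' ρ' s' := by
  classical
  by_cases hα : α ∈ B
  · have h1 : adj B α = B := le_antisymm (adj_le le_rfl hα) (mem_adj_self B α).2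
    exact ⟨y, z, ρ, s, by rw [h1]; exact hF⟩
  · choose x1 hx1 using fun i => IsAlgClosed.exists_pow_nat_eq (x i) hp.out.pos
    have hR : RD v x x1 (p ^ 1) :=
      ⟨pow_pos hp.out.pos 1, fun i => by rw [pow_one]; exact hx1 i, hx, hind⟩
    obtain ⟨T, hT, -⟩ := hR.exists_reps
    have hcls := hR.cls h0 hT hI
    have hN : Cld v (NN k v x) := NN_cld x
    have hN1 : rootF p 1 (NN k v x) = LE (MM v x1) (GG v x1) (NN k v x) := by
      rw [hR.rootF_NN, hR.NN_eq h0 hc]
    have hB : Cld v B := by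
      rw [hF.eq]
      exact cld_cadj _ _ _
    obtain ⟨y₁, z₁, ρ₁, s₁, hF₁⟩ := first_step p h0 hc hN hF hαp hα hcls
      (hR.mon_mem le_rfl) hN1
    exact log_descent p h0 hc hcls (hR.mon_mem le_rfl)
      (by
        intro a ha b
        obtain ⟨L, hL, h1⟩ := NN_dense h0 hx hind a ha b
        refine ⟨L, hL, ?_⟩
        have h2 : evL (MM v x1) L = evL (MM v x) L := by
          refine Finsupp.sum_congr fun g hg => ?_
          rw [hR.MM_eq (hL g (Finsupp.mem_support_iff.1 hg))]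
        rw [h2]
        exact h1)
      (GG_fg x) hI (cld_adj' p hc hB hαp) hF₁

end Pool.Agent.TWM
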