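import Pool.Agent.Lib.TWM.Free
import Pool.Agent.Lib.TWM.A2

/-!
# TANK W, M2, row S1: the relation of an element which is not of transcendental type (REL)

`F` is a field whose elements have leading terms `c M(g)`. If `w` is a limit of `F` up to `s` and
not of transcendental type, there are a homogeneous operator `Q ≠ 0` from `s` to some `R` and
`φ ∈ F` with `Q(w) + φ ∈ O(R)` (`rel_of_not_TL`). If `w ∉ F + O(s)`, the operator has degree `≥ 1`; if
`w` is in an immediate extension of `F`, the remainder is in `O(> R)` (`rel_of_not_TL'`).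
-/

set_option autoImplicit false

open Polynomial Finset

namespace Pool.Agent.TWM

open Pool.Agent.H15JM (RVal)
open Pool.Agent.LU1 (VPos adj)
open Pool.Agent.D2 (Ctx0)
open Pool.Agent.D2P (hen clI mem_clI)

universe u

variable {k Ω : Type u} [Field k] [Field Ω] [Algebra k Ω] {v : RVal Ω}
  {p : ℕ} {G : AddSubgroup ℝ} {M : ℝ → Ω} {F : IntermediateField k Ω} {s r : ℝ}

/-- Kaplansky's argument: a relation with a homogeneous operator. -/
theorem rel_of_not_TL [IsAlgClosed Ω] [Fact p.Prime] [CharP Ω p]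
    (hMF : ∀ g ∈ G, M g ∈ F)
    (hterm : ∀ a ∈ F, a ≠ 0 → v a ∈ G ∧
      ∃ c : k, c ≠ 0 ∧ Gt v (v a) (a - algebraMap k Ω c * M (v a)))
    {w : Ω} (hw : Lim v F s w) (hn : ¬ TL v F w s) :
    ∃ (R : ℝ) (Q : k[X]), IsOp p G s R Q ∧ Q ≠ 0 ∧ Nr v F R (ev p M s R Q w) := by
  classical
  have hcon : ∃ θ, IsAlgebraic F θ ∧ (w ≠ θ → s ≤ v (w - θ)) := by
    by_contra hcon
    push Not at hcon
    exact hn ⟨hw, hcon⟩
  -- a polynomial of minimal degree with a root near `w`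
  let P : ℕ → Prop := fun d => ∃ f ∈ PI F, f ≠ 0 ∧ f.natDegree = d ∧
    ∃ θ, f.eval θ = 0 ∧ v.Ge s (w - θ)
  have hex : ∃ d, P d := by
    obtain ⟨θ, hθ, h1⟩ := hcon
    obtain ⟨g, hg0, hg⟩ := hθ
    refine ⟨_, g.map (algebraMap F Ω), fun i => ?_, ?_, rfl, θ, ?_, fun h2 => ?_⟩
    · rw [coeff_map]
      exact (g.coeff i).2
    · rwa [Ne, Polynomial.map_eq_zero]
    · rw [eval_map, ← aeval_def, hg]
    · exact h1 (sub_ne_zero.1 h2)
  set d := Nat.find hex with hd
  obtain ⟨f, hf, hf0, hfd, θ, hθ, hθw⟩ := Nat.find_spec hex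
  have hfd' : f.natDegree = d := hfd
  have hmin : ∀ g ∈ PI F, g ≠ 0 → g.natDegree < d → Str v s (taylor w g) := by
    intro g hg hg0 hgd
    have h1 := (IsAlgClosed.splits g).eq_prod_roots
    rw [h1, taylor_mul, taylor_C]
    refine Str.mul (Str.C (leadingCoeff_ne_zero.2 hg0)) (Str.multiset _ fun θ hθ => ?_)
    rw [mem_roots hg0] at hθ
    have h2 := Nat.find_min hex hgd
    by_contra h3
    refine h2 ⟨g, hg, hg0, rfl, θ, hθ, fun h4 => ?_⟩
    by_contra h5
    exact h3 ⟨sub_ne_zero.1 h4, not_le.1 h5⟩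
  have hd1 : 1 ≤ d := by
    by_contra h1
    have h2 : f.natDegree = 0 := by omega
    rw [natDegree_eq_zero] at h2
    obtain ⟨c, hc⟩ := h2
    rw [← hc, eval_C] at hθ
    rw [hθ, C_0] at hc
    exact hf0 hc.symm
  set T := taylor w f with hT
  have hTd : T.natDegree = d := by rw [hT, natDegree_taylor, hfd']
  have hhd : ∀ l, 1 ≤ l → (hasseDeriv l f).natDegree < d := by
    intro l hl
    have h1 := natDegree_hasseDeriv_le f l
    omega
  have hhe : ∀ l, (hasseDeriv l f).eval w = T.coeff l := fun l => (taylor_coeff _ _ _).symm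
  have hh0 : ∀ l, T.coeff l ≠ 0 → hasseDeriv l f ≠ 0 := by
    intro l hl h1
    rw [← hhe, h1, eval_zero] at hl
    exact hl rfl
  have hTlc : T.coeff d ≠ 0 := by
    rw [← hTd, coeff_natDegree]
    refine leadingCoeff_ne_zero.2 fun h1 => hf0 ?_
    rw [hT] at h1
    exact (taylor_injective w) (by rw [h1, map_zero])
  -- the radius
  set S : Finset ℕ := (Finset.Icc 1 d).filter fun l => T.coeff l ≠ 0 with hS
  have hSne : S.Nonempty := ⟨d, Finset.mem_filter.2 ⟨Finset.mem_Icc.2 ⟨hd1, le_rfl⟩, hTlc⟩⟩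
  obtain ⟨l₀, hl₀, hl₀min⟩ := S.exists_min_image (fun l => v (T.coeff l) + l * s) hSne
  set R := v (T.coeff l₀) + l₀ * s with hR
  obtain ⟨hl₀1, hl₀2⟩ := Finset.mem_filter.1 hl₀
  have hge : ∀ l : ℕ, 1 ≤ l → v.Ge (R - l * s) (T.coeff l) := by
    intro l hl hne
    have h1 : l ∈ S := by
      refine Finset.mem_filter.2 ⟨Finset.mem_Icc.2 ⟨hl, ?_⟩, hne⟩
      rw [← hTd]
      exact le_natDegree_of_ne_zero hne
    have h2 := hl₀min l h1
    linarith
  -- `f(w) ∈ O(R)`
  have hfw : v.Ge R (f.eval w) := by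
    have h1 : f.eval w = -∑ l ∈ Finset.Icc 1 T.natDegree, T.coeff l * (θ - w) ^ l := by
      have h2 : f.eval θ - f.eval w =
          ∑ l ∈ Finset.Icc 1 T.natDegree, T.coeff l * (θ - w) ^ l := by
        rw [eval_eq_taylor f w θ, ← hT, ← taylor_coeff_zero w f, ← hT, eval_eq_sum_range,
          Finset.sum_range_eq_add_Ico _ (Nat.succ_pos _)]
        rw [pow_zero, mul_one, add_sub_cancel_left]
        rfl
      rw [← h2, hθ]
      ring
    rw [h1]
    refine RVal.Ge.neg (RVal.Ge.sum _ _ fun l hl => ?_)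
    have hl1 := (Finset.mem_Icc.1 hl).1
    refine (RVal.Ge.mul (hge l hl1) (ge_pow (ge_sub_comm hθw) l)).mono ?_
    linarith
  -- non `p`-powers
  have hnp : ∀ l : ℕ, 1 ≤ l → (∀ i, l ≠ p ^ i) → Gt v (R - l * s) (T.coeff l) := by
    intro l hl1 hlp h0
    obtain ⟨j, hj0, hjl, hj⟩ := exists_choose (Fact.out : p.Prime) hl1 hlp
    set g := hasseDeriv j f with hg
    have hgm : g ∈ PI F := hasse_mem_PI hf j
    have hgc : (taylor w g).coeff (l - j) = (l.choose j : Ω) * T.coeff l := by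
      rw [hT, taylor_coeff, taylor_coeff, hg]
      have h1 := congrArg (fun L => L f) (hasseDeriv_comp (R := Ω) (l - j) j)
      simp only [LinearMap.comp_apply, LinearMap.smul_apply] at h1
      rw [h1, show l - j + j = l by omega, eval_smul, nsmul_eq_mul, ← Nat.choose_symm (by omega)]
      congr 3
      omega
    obtain ⟨h1, h2⟩ := val_natCast (Ω := Ω) (v := v) p hj
    have h3 : (taylor w g).coeff (l - j) ≠ 0 := by
      rw [hgc]; exact mul_ne_zero h1 h0
    have hg0 : g ≠ 0 := by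
      intro h4
      rw [h4, map_zero, coeff_zero] at h3
      exact h3 rfl
    have hstr := hmin g hgm hg0 (hhd j hj0)
    have h5 := hstr.gt (l - j) (by omega) h3
    have h6 : (taylor w g).coeff 0 = T.coeff j := by rw [taylor_coeff_zero, hg, hhe]
    have h7 := hge j hj0 (by rw [← h6]; exact hstr.ne)
    rw [hgc, v.map_mul h1 h0, h2, zero_add, h6] at h5
    have h8 : ((l - j : ℕ) : ℝ) = l - j := by rw [Nat.cast_sub hjl.le]
    rw [h8] at h5
    nlinarith
  have hpp : ∀ i, 1 ≤ p ^ i := fun i => Nat.one_le_pow _ _ (Fact.out : p.Prime).pos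
  -- representatives
  set γ : ℕ → Ω := fun i => T.coeff (p ^ i) with hγ
  have hrep : ∀ i, γ i ≠ 0 → v (γ i) ∈ G ∧
      ∃ c : k, c ≠ 0 ∧ Gt v (v (γ i)) (γ i - algebraMap k Ω c * M (v (γ i))) := by
    intro i hi
    have hgi : hasseDeriv (p ^ i) f ∈ PI F := hasse_mem_PI hf _
    have hev : (hasseDeriv (p ^ i) f).eval w = γ i := hhe _
    have hstr := hmin _ hgi (hh0 _ hi) (hhd _ (hpp i))
    obtain ⟨δ, hδ, h2⟩ := hstr.near
    obtain ⟨ψ, hψ, h3⟩ := hw δ hδ
    have h4 := h2 (ψ - w) (ge_sub_comm h3)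
    rw [taylor_coeff_zero, ← eval_eq_taylor, hev] at h4
    have h4' : Gt v (v (γ i)) (γ i - (hasseDeriv (p ^ i) f).eval ψ) :=
      (Gt.of_ge h4 (by linarith)).sub_comm'
    obtain ⟨h5, h6⟩ := Gt.val_eq hi h4'
    obtain ⟨h7, c, hc, h8⟩ := hterm _ (eval_mem hgi hψ) h5
    rw [h6] at h7 h8
    refine ⟨h7, c, hc, ?_⟩
    have h9 := h4'.add h8
    rwa [sub_add_sub_cancel] at h9
  let lam : ℕ → k := fun i =>
    if hi : γ i ≠ 0 ∧ v (γ i) + (p ^ i : ℕ) * s = R then (hrep i hi.1).2.choose else 0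
  have hlam1 : ∀ i, (γ i ≠ 0 ∧ v (γ i) + (p ^ i : ℕ) * s = R) →
      lam i ≠ 0 ∧ R - (p : ℝ) ^ i * s ∈ G ∧
        Gt v (v (γ i)) (γ i - algebraMap k Ω (lam i) * M (R - (p : ℝ) ^ i * s)) := by
    intro i hi
    have h2 : lam i = (hrep i hi.1).2.choose := dif_pos hi
    obtain ⟨h3, h4⟩ := (hrep i hi.1).2.choose_spec
    have h5 : R - (p : ℝ) ^ i * s = v (γ i) := by rw [← hi.2]; push_cast; ring
    rw [← h2] at h3 h4
    rw [h5]
    exact ⟨h3, (hrep i hi.1).1, h4⟩
  have hlam0 : ∀ i, ¬ (γ i ≠ 0 ∧ v (γ i) + (p ^ i : ℕ) * s = R) → lam i = 0 :=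
    fun i hi => dif_neg hi
  set c : ℕ → Ω := fun i => algebraMap k Ω (lam i) * M (R - (p : ℝ) ^ i * s) with hc
  have hcN : ∀ i, c i ∈ F := by
    intro i
    by_cases hi : γ i ≠ 0 ∧ v (γ i) + (p ^ i : ℕ) * s = R
    · exact mul_mem (F.algebraMap_mem _) (hMF _ (hlam1 i hi).2.1)
    · rw [hc]
      dsimp only
      rw [hlam0 i hi, map_zero, zero_mul]
      exact zero_mem _
  set e := T.natDegree + 1 with he
  have hcoefP : ∀ i, (taylor w (addP p e c)).coeff (p ^ i) = c i := by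
    intro i
    rw [coeff_taylor_addP_pow]
    split_ifs with h3
    · rfl
    · have h4 : lam i = 0 := by
        apply hlam0
        rintro ⟨h4, -⟩
        refine h4 (coeff_eq_zero_of_natDegree_lt ?_)
        have h5 : i < p ^ i := Nat.lt_pow_self (Fact.out : p.Prime).one_lt
        omega
      rw [hc]
      dsimp only
      rw [h4, map_zero, zero_mul]
  set g' := f - addP p e c with hg'
  have hg'm : g' ∈ PI F := sub_mem hf (addP_mem hcN)
  have hcoef : ∀ l : ℕ, 1 ≤ l → Gt v (R - l * s) ((taylor w g').coeff l) := by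
    intro l hl1
    rw [hg', map_sub, coeff_sub]
    by_cases hlp : ∀ i, l ≠ p ^ i
    · have h2 : (taylor w (addP p e c)).coeff l = 0 := by
        rw [coeff_taylor_addP p e c w hl1]
        exact Finset.sum_eq_zero fun i _ => if_neg (hlp i)
      rw [h2, sub_zero]
      exact hnp l hl1 hlp
    · rw [not_forall] at hlp
      obtain ⟨i, hi⟩ := hlp
      rw [not_not] at hi
      subst hi
      rw [hcoefP i]
      by_cases hi : γ i ≠ 0 ∧ v (γ i) + (p ^ i : ℕ) * s = R
      · refine (hlam1 i hi).2.2.mono ?_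
        linarith [hi.2]
      · rw [hc]
        dsimp only
        rw [hlam0 i hi, map_zero, zero_mul, sub_zero]
        intro h4
        have h5 := hge (p ^ i) (hpp i) h4
        refine lt_of_le_of_ne h5 fun h6 => hi ⟨h4, ?_⟩
        show v (T.coeff (p ^ i)) + _ = _
        rw [← h6]
        ring
  -- the operator
  set Q : k[X] := ∑ i ∈ Finset.range e, Polynomial.C (lam i) * X ^ i with hQ
  have hQop : IsOp p G s R Q := by
    refine IsOp.sum fun i _ => IsOp.mono fun h1 => ?_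
    by_cases hi : γ i ≠ 0 ∧ v (γ i) + (p ^ i : ℕ) * s = R
    · exact (hlam1 i hi).2.1
    · exact absurd (hlam0 i hi) h1
  have hQc : ∀ i, i < e → Q.coeff i = lam i := by
    intro i hi
    rw [hQ, finsetSum_coeff, Finset.sum_eq_single i]
    · rw [coeff_C_mul_X_pow, if_pos rfl]
    · intro j _ hj
      rw [coeff_C_mul_X_pow, if_neg hj.symm]
    · intro h1
      exact absurd (Finset.mem_range.2 hi) h1
  have hQ0 : Q ≠ 0 := by
    -- `l₀` is a `p`-power
    have h1 : ∃ i, l₀ = p ^ i := by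
      by_contra h1
      push Not at h1
      have h2 := hnp l₀ (Finset.mem_Icc.1 hl₀1).1 h1 hl₀2
      rw [hR] at h2
      linarith
    obtain ⟨i, hi⟩ := h1
    have h2 : γ i ≠ 0 ∧ v (γ i) + (p ^ i : ℕ) * s = R := by
      rw [hγ]
      dsimp only
      rw [← hi]
      exact ⟨hl₀2, rfl⟩
    have h3 : i < e := by
      have h4 : i < p ^ i := Nat.lt_pow_self (Fact.out : p.Prime).one_lt
      have h5 := (Finset.mem_Icc.1 hl₀1).2
      omega
    intro h4
    have h5 := hQc i h3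
    rw [h4, coeff_zero] at h5
    exact (hlam1 i h2).1 h5.symm
  have hQev : ev p M s R Q w = (addP p e c).eval w := by
    rw [hQ, ev_sum, addP_eval]
    exact Finset.sum_congr rfl fun i _ => ev_mono _ _ _
  obtain ⟨δ, hδ, h2⟩ := var_bound' g' w s R hcoef
  obtain ⟨ψ, hψ, h3⟩ := hw δ hδ
  have h4 := h2 ψ h3
  have hrel : Nr v F R (ev p M s R Q w) := by
    refine ⟨-(g'.eval ψ), neg_mem (eval_mem hg'm hψ), ?_⟩
    have h5 : ev p M s R Q w - -(g'.eval ψ) = f.eval w - (g'.eval w - g'.eval ψ) := by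
      rw [hQev, hg', eval_sub, eval_sub]
      ring
    rw [h5]
    exact hfw.sub h4.ge
  exact ⟨R, Q, hQop, hQ0, hrel⟩

/-- Leading terms. -/
theorem exists_term_of_val (h : Ctx0 k v) (hM : MS v G M) {a : Ω} (h0 : a ≠ 0) (ha : v a ∈ G) :
    ∃ c : k, c ≠ 0 ∧ Gt v (v a) (a - algebraMap k Ω c * M (v a)) := by
  have hMg := hM.ne _ ha
  have h1 : v (a * (M (v a))⁻¹) = 0 := by
    rw [v.map_mul h0 (inv_ne_zero hMg), v.map_inv hMg, hM.val _ ha, add_neg_cancel]
  obtain ⟨c, hc0, hc⟩ := h.res _ (mul_ne_zero h0 (inv_ne_zero hMg)) h1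
  refine ⟨c, hc0, ?_⟩
  have e : a - algebraMap k Ω c * M (v a) = (a * (M (v a))⁻¹ - algebraMap k Ω c) * M (v a) := by
    field_simp
  rw [e]
  intro h2
  have h3 := left_ne_zero_of_mul h2
  rw [v.map_mul h3 hMg, hM.val _ ha]
  have h4 : 0 < v (a * (M (v a))⁻¹ - algebraMap k Ω c) := hc h3
  linarith

/-- **REL** (row S1). `F ≤ B`, `B` immediate over `N`. An element `w ∈ B` which is a limit of `F` up
to `s`, not in `F + O(s)` and not of transcendental type satisfies a relation with a homogeneous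
operator of degree `≥ 1`, up to `O(> R)`. -/
theorem rel_of_not_TL' [IsAlgClosed Ω] [Fact p.Prime] [CharP Ω p] {N B : IntermediateField k Ω}
    (h : Ctx0 k v) (hM : MS v G M) (hMN : ∀ g ∈ G, M g ∈ N) (hN : LDense v G M N)
    (hB : Imm v N B) (hNF : N ≤ F) (hFB : F ≤ B) {w : Ω} (hwB : w ∈ B) (hw : Lim v F s w)
    (hna : ¬ Nr v F s w) (hn : ¬ TL v F w s) :
    ∃ (R : ℝ) (Q : k[X]) (φ : Ω), IsOp p G s R Q ∧ 1 ≤ Q.natDegree ∧ φ ∈ F ∧
      Gt v R (ev p M s R Q w + φ) := by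
  have hMF : ∀ g ∈ G, M g ∈ F := fun g hg => hNF (hMN g hg)
  obtain ⟨R, Q, hQ, hQ0, a, ha, h1⟩ := rel_of_not_TL (p := p) (G := G) (M := M) hMF
    (fun a ha h0 => ⟨val_mem h hM hN hB (hFB ha) h0,
      exists_term_of_val h hM h0 (val_mem h hM hN hB (hFB ha) h0)⟩) hw hn
  have hdeg : 1 ≤ Q.natDegree := by
    by_contra hd
    obtain ⟨c, rfl⟩ := natDegree_eq_zero.1 (by omega : Q.natDegree = 0)
    have hc : c ≠ 0 := fun hc => hQ0 (by rw [hc, C_0])
    have hg : R - s ∈ G := by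
      have := hQ 0 (by rwa [coeff_C_zero])
      rwa [pow_zero, one_mul] at this
    refine hna ?_
    have hev : ev p M s R (C c) w = (algebraMap k Ω c * M (R - s)) * w := by
      rw [ev, sum_C_index]
      · rw [pow_zero, one_mul, pow_zero, pow_one]
      · rw [map_zero, zero_mul, zero_mul]
    rw [hev] at h1
    have hc' : algebraMap k Ω c ≠ 0 := by rwa [Ne, map_eq_zero]
    have hu := mul_ne_zero hc' (hM.ne _ hg)
    have hvu : v (algebraMap k Ω c * M (R - s)) = R - s := by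
      rw [v.map_mul hc' (hM.ne _ hg), h.triv c hc, hM.val _ hg, zero_add]
    refine ⟨(algebraMap k Ω c * M (R - s))⁻¹ * a,
      mul_mem (inv_mem (mul_mem (F.algebraMap_mem _) (hMF _ hg))) ha, ?_⟩
    have e : w - (algebraMap k Ω c * M (R - s))⁻¹ * a =
        (algebraMap k Ω c * M (R - s))⁻¹ * (algebraMap k Ω c * M (R - s) * w - a) := by
      rw [mul_sub, inv_mul_cancel_left₀ hu]
    rw [e]
    refine (RVal.Ge.mul (RVal.Ge.of_le (c := s - R) ?_) h1).mono (by linarith)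
    rw [v.map_inv hu, hvu]
    linarith
  -- the remainder
  have hmem : ev p M s R Q w - a ∈ B :=
    sub_mem (ev_mem (fun g hg => hFB (hMF g hg)) hQ hwB) (hFB ha)
  by_cases h2 : Gt v R (ev p M s R Q w - a)
  · exact ⟨R, Q, -a, hQ, hdeg, neg_mem ha, by rwa [← sub_eq_add_neg]⟩
  · have h3 : ev p M s R Q w - a ≠ 0 := fun h3 => h2 (by rw [h3]; exact Gt.zero)
    have h4 : v (ev p M s R Q w - a) = R := by
      refine le_antisymm ?_ (h1 h3)
      by_contra h4
      exact h2 fun _ => not_le.1 h4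
    have h5 := val_mem h hM hN hB hmem h3
    obtain ⟨c, -, h6⟩ := exists_term_of_val h hM h3 h5
    rw [h4] at h5 h6
    refine ⟨R, Q, -a - algebraMap k Ω c * M R, hQ, hdeg,
      sub_mem (neg_mem ha) (mul_mem (F.algebraMap_mem _) (hMF _ h5)), ?_⟩
    have e : ev p M s R Q w + (-a - algebraMap k Ω c * M R) =
        ev p M s R Q w - a - algebraMap k Ω c * M R := by ring
    rwa [e]

/-- **REL**, in the form of the blueprint. -/
theorem rel [IsAlgClosed Ω] [Fact p.Prime] [CharP Ω p] {N B : IntermediateField k Ω}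
    (h : Ctx0 k v) (hM : MS v G M) (hMN : ∀ g ∈ G, M g ∈ N) (hN : LDense v G M N)
    (hNF : N ≤ F) (hFB : F ≤ B) (hB : Imm v N B) {z : Ω} (hz : z ∈ B) (hl : Lim v F s z)
    (hfar : ∀ a ∈ F, z ≠ a ∧ v (z - a) < s) (hT : ¬ TL v F z s) :
    ∃ (R : ℝ) (Q : k[X]) (φ : Ω), IsOp p G s R Q ∧ 1 ≤ Q.natDegree ∧ φ ∈ F ∧
      Gt v R (ev p M s R Q z + φ) :=
  rel_of_not_TL' h hM hMN hN hB hNF hFB hz hl (fun ⟨a, ha, h1⟩ =>
    absurd (h1 (sub_ne_zero.2 (hfar a ha).1)) (not_le.2 (hfar a ha).2)) hT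

end Pool.Agent.TWM
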