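import Pool.Agent.Lib.TWM.S2a
import Pool.Agent.Lib.TWM.CoreN
import Pool.Agent.Lib.TWM.Rel

/-!
# TANK W, M2, row S2: jump coordinates

`B` is immediate over `N`, `z ∈ B` of radius `s` over `F = cadj v N y`, not of transcendental type.
Then there are a polynomial `f` over `N` and an additive change of coordinates
`(y, z + f(y)) ↦ (u, w)`, `w` of value `> r`, `u` of transcendental type over `N` (`jump`).
-/

set_option autoImplicit false

open Polynomial Finset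

namespace Pool.Agent.TWM

open Pool.Agent.H15JM (RVal)
open Pool.Agent.D2 (Ctx0)
open Pool.Agent.D2P (hen clI mem_clI)

universe u

variable {k Ω : Type u} [Field k] [Field Ω] [Algebra k Ω] {v : RVal Ω}
  {p : ℕ} [Fact p.Prime] [CharP k p] [CharP Ω p] {G : AddSubgroup ℝ} {M : ℝ → Ω}
  {N B : IntermediateField k Ω}

omit [CharP k p] in
/-- A relation with one operator. -/
theorem nr'_of_rel_one (h : Ctx0 k v) (hM : MS v G M) (hMN : ∀ g ∈ G, M g ∈ N)
    (hN : LDense v G M N) (hG : G.FG) (hB : Imm v N B) {r R : ℝ} {w : Ω} (hw : w ∈ B)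
    (hl : Lim v N r w) {Q : k[X]} (hQ : IsOp p G r R Q) (h0 : Q ≠ 0)
    (hrel : Nr' v N R (ev p M r R Q w)) : Nr' v N r w :=
  nr'_of_rel h hM hMN hN hG hB ({()} : Finset Unit) (fun _ => r) (fun _ => w)
    (fun _ _ => ⟨hw, hl⟩) R (fun _ => Q) (fun _ _ => hQ) (by rwa [Finset.sum_singleton])
    (fun i _ j _ hij => absurd (Subsingleton.elim i j) hij) () (Finset.mem_singleton_self _) h0

omit [CharP k p] in
/-- A relation with two operators and non divisible tops. -/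
theorem nr'_of_rel_two (h : Ctx0 k v) (hM : MS v G M) (hMN : ∀ g ∈ G, M g ∈ N)
    (hN : LDense v G M N) (hG : G.FG) (hB : Imm v N B) {r₁ r₂ R : ℝ} {w₁ w₂ : Ω}
    (hw₁ : w₁ ∈ B) (hl₁ : Lim v N r₁ w₁) (hw₂ : w₂ ∈ B) (hl₂ : Lim v N r₂ w₂)
    {P₁ P₂ : k[X]} (hP₁ : IsOp p G r₁ R P₁) (hP₂ : IsOp p G r₂ R P₂) (h01 : P₁ ≠ 0)
    (h02 : P₂ ≠ 0) (hrel : Nr' v N R (ev p M r₁ R P₁ w₁ + ev p M r₂ R P₂ w₂))
    (hdeg : P₂.natDegree ≤ P₁.natDegree)
    (hd : r₂ - (p : ℝ) ^ (P₁.natDegree - P₂.natDegree) * r₁ ∉ G) :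
    Nr' v N r₁ w₁ ∧ Nr' v N r₂ w₂ := by
  have key := nr'_of_rel h hM hMN hN hG hB (Finset.univ : Finset Bool)
    (fun b => bif b then r₁ else r₂) (fun b => bif b then w₁ else w₂)
    (fun b _ => by cases b; exacts [⟨hw₂, hl₂⟩, ⟨hw₁, hl₁⟩]) R
    (fun b => bif b then P₁ else P₂) (fun b _ => by cases b; exacts [hP₂, hP₁])
    (by rw [Fintype.sum_bool]; exact hrel)
    (by
      intro i _ j _ hij _ _ hle
      cases i <;> cases j
      · exact absurd rfl hij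
      · -- `i = false`, `j = true`
        simp only [cond_true, cond_false] at hle ⊢
        have e : P₁.natDegree = P₂.natDegree := le_antisymm hle hdeg
        rw [e, Nat.sub_self, pow_zero, one_mul] at hd ⊢
        intro h1
        exact hd (by rw [← neg_sub]; exact G.neg_mem h1)
      · simp only [cond_true, cond_false] at hle ⊢
        exact hd
      · exact absurd rfl hij)
  exact ⟨key true (Finset.mem_univ _) h01, key false (Finset.mem_univ _) h02⟩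

/-- **EUCLID.** -/
theorem euclid [IsAlgClosed k] (h : Ctx0 k v) (hM : MS v G M) (hMN : ∀ g ∈ G, M g ∈ N)
    (hN : LDense v G M N) (hG : G.FG) (hB : Imm v N B) {R : ℝ} (n : ℕ) :
    ∀ (y z : Ω) (ρ s : ℝ) (P₁ P₂ : k[X]), sz P₁ + sz P₂ ≤ n → IsOp p G ρ R P₁ →
      IsOp p G s R P₂ → y ∈ B → z ∈ B → Lim v N ρ y → Lim v N s z → (P₁ ≠ 0 ∨ P₂ ≠ 0) →
      Nr' v N R (ev p M ρ R P₁ y + ev p M s R P₂ z) → ¬ (Nr' v N ρ y ∧ Nr' v N s z) →
      ∃ (u w : Ω) (ρ' r : ℝ), Nonempty (Chg p G M N y z ρ s u w ρ' r) ∧ Gt v r w := by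
  induction n using Nat.strong_induction_on with
  | _ n ih =>
  intro y z ρ s P₁ P₂ hn hP₁ hP₂ hy hz hly hlz h0 hrel hnn
  -- the case of one operator
  have case1 : ∀ (y z : Ω) (ρ s : ℝ) (P₂ : k[X]), IsOp p G s R P₂ → z ∈ B → Lim v N s z →
      P₂ ≠ 0 → Nr' v N R (ev p M s R P₂ z) →
      ∃ (u w : Ω) (ρ' r : ℝ), Nonempty (Chg p G M N y z ρ s u w ρ' r) ∧ Gt v r w := by
    intro y z ρ s P₂ hP₂ hz hlz h02 hrel
    obtain ⟨a, ha, h1⟩ := nr'_of_rel_one h hM hMN hN hG hB hz hlz hP₂ h02 hrel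
    refine ⟨y, _, ρ, s, ⟨Chg.shear hM y z (IsOp.zero (k := k)) (neg_mem ha)⟩, ?_⟩
    rw [ev_zero, add_zero, ← sub_eq_add_neg]
    exact h1
  -- the case `deg P₂ ≤ deg P₁`
  have case2 : ∀ (y z : Ω) (ρ s : ℝ) (P₁ P₂ : k[X]), sz P₁ + sz P₂ ≤ n → IsOp p G ρ R P₁ →
      IsOp p G s R P₂ → y ∈ B → z ∈ B → Lim v N ρ y → Lim v N s z → P₁ ≠ 0 → P₂ ≠ 0 →
      Nr' v N R (ev p M ρ R P₁ y + ev p M s R P₂ z) → ¬ (Nr' v N ρ y ∧ Nr' v N s z) →
      P₂.natDegree ≤ P₁.natDegree →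
      ∃ (u w : Ω) (ρ' r : ℝ), Nonempty (Chg p G M N y z ρ s u w ρ' r) ∧ Gt v r w := by
    intro y z ρ s P₁ P₂ hn hP₁ hP₂ hy hz hly hlz h01 h02 hrel hnn hdeg
    by_cases hd : s - (p : ℝ) ^ (P₁.natDegree - P₂.natDegree) * ρ ∈ G
    swap
    · exact absurd (nr'_of_rel_two h hM hMN hN hG hB hy hly hz hlz hP₁ hP₂ h01 h02 hrel hdeg hd)
        hnn
    set D := P₁.natDegree - P₂.natDegree with hD
    obtain ⟨c, hc⟩ := IsAlgClosed.exists_pow_nat_eq (P₁.leadingCoeff / P₂.leadingCoeff)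
      (pow_pos (Fact.out : p.Prime).pos P₂.natDegree)
    have hc0 : c ≠ 0 := by
      rintro rfl
      rw [zero_pow (pow_ne_zero _ (Fact.out : p.Prime).ne_zero)] at hc
      exact div_ne_zero (leadingCoeff_ne_zero.mpr h01) (leadingCoeff_ne_zero.mpr h02) hc.symm
    have hE : IsOp p G ρ s (C c * X ^ D) := IsOp.mono fun _ => hd
    have hE0 : (C c * X ^ D : k[X]) ≠ 0 := mul_ne_zero (by rwa [Ne, C_eq_zero])
      (pow_ne_zero _ X_ne_zero)
    have hEd : (C c * X ^ D : k[X]).natDegree = D := natDegree_C_mul_X_pow D c hc0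
    have hEl : (C c * X ^ D : k[X]).leadingCoeff = c := leadingCoeff_C_mul_X_pow c D
    have htd : (tw p P₂ (C c * X ^ D)).natDegree = P₁.natDegree := by
      rw [tw_natDegree h02 hE0, hEd]; omega
    have htl : (tw p P₂ (C c * X ^ D)).coeff P₁.natDegree = P₁.leadingCoeff := by
      have h1 := tw_ne_zero_aux (p := p) P₂ (C c * X ^ D : k[X])
      rw [hEd, hEl, hc] at h1
      rw [show P₁.natDegree = P₂.natDegree + D by omega, h1]
      exact mul_div_cancel₀ _ (leadingCoeff_ne_zero.mpr h02)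
    have hsz : sz (P₁ - tw p P₂ (C c * X ^ D)) < sz P₁ := by
      refine sz_lt h01 ?_ ?_
      · exact (natDegree_sub_le _ _).trans (by rw [htd, max_self])
      · rw [coeff_sub, htl]
        exact sub_self _
    have hw' : z + ev p M ρ s (C c * X ^ D) y ∈ B ∧
        Lim v N s (z + ev p M ρ s (C c * X ^ D) y) :=
      (gsub_Lim h hM hMN hB.le).add _ _ _ ⟨hz, hlz⟩
        ((gsub_Lim h hM hMN hB.le).ev hE ⟨hy, hly⟩)
    obtain ⟨u, w, ρ', r, ⟨H⟩, hG'⟩ := ih (sz (P₁ - tw p P₂ (C c * X ^ D)) + sz P₂) (by omega)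
      y (z + ev p M ρ s (C c * X ^ D) y) ρ s (P₁ - tw p P₂ (C c * X ^ D)) P₂ le_rfl
      (hP₁.sub (hE.tw hP₂)) hP₂ hy hw'.1 hly hw'.2 (Or.inr h02) (by
        have e : ev p M ρ R (P₁ - tw p P₂ (C c * X ^ D)) y +
            ev p M s R P₂ (z + ev p M ρ s (C c * X ^ D) y) =
            ev p M ρ R P₁ y + ev p M s R P₂ z := by
          rw [ev_sub, ev_tw hM hE hP₂, ev_add_right]
          ring
        rw [e]
        exact hrel) (by
        rintro ⟨h1, h2⟩
        refine hnn ⟨h1, ?_⟩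
        have h3 := (gsub_Nr' h hM hMN).sub hM h2 ((gsub_Nr' h hM hMN).ev hE h1)
        rwa [add_sub_cancel_right] at h3)
    have hN0 : (0 : Ω) ∈ N := zero_mem _
    have H0 := Chg.shear (N := N) hM y z hE hN0
    rw [add_zero] at H0
    exact ⟨u, w, ρ', r, ⟨H0.comp hM hMN H⟩, hG'⟩
  by_cases h1 : P₁ = 0
  · rw [h1, ev_zero, zero_add] at hrel
    exact case1 y z ρ s P₂ hP₂ hz hlz (h0.resolve_left (not_not.mpr h1)) hrel
  by_cases h2 : P₂ = 0
  · rw [h2, ev_zero, add_zero] at hrel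
    obtain ⟨u, w, ρ', r, ⟨H⟩, hG'⟩ := case1 z y s ρ P₁ hP₁ hy hly h1 hrel
    exact ⟨u, w, ρ', r, ⟨(Chg.swap hM y z ρ s).comp hM hMN H⟩, hG'⟩
  rcases le_total P₂.natDegree P₁.natDegree with hle | hle
  · exact case2 y z ρ s P₁ P₂ hn hP₁ hP₂ hy hz hly hlz h1 h2 hrel hnn hle
  · obtain ⟨u, w, ρ', r, ⟨H⟩, hG'⟩ := case2 z y s ρ P₂ P₁ (by omega) hP₂ hP₁ hz hy hlz hly h2 h1
      (by rwa [add_comm]) (fun h => hnn h.symm) hle
    exact ⟨u, w, ρ', r, ⟨(Chg.swap hM y z ρ s).comp hM hMN H⟩, hG'⟩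

theorem Nr'.toLim {F : IntermediateField k Ω} {r : ℝ} {w : Ω} (h : Nr' v F r w) : Lim v F r w := by
  obtain ⟨a, ha, h1⟩ := h
  exact fun ε hε => ⟨a, ha, h1.ge.mono (by linarith)⟩

theorem TL.not_nr' {A : IntermediateField k Ω} {y : Ω} {ρ : ℝ} (h : TL v A y ρ) :
    ¬ Nr' v A ρ y := by
  rintro ⟨a, ha, h1⟩
  obtain ⟨h2, h3⟩ := h.far a (mem_algc.mp (le_algc A ha))
  exact lt_asymm h3 (h1 (sub_ne_zero.mpr h2))

/-- The relation for `z + f(y)`. -/
theorem jump_start [IsAlgClosed k] [IsAlgClosed Ω] (h : Ctx0 k v) (hM : MS v G M)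
    (hMN : ∀ g ∈ G, M g ∈ N) (hN : LDense v G M N) (hG : G.FG) (hB : Imm v N B) (hBc : Cld v B)
    {y z : Ω} {ρ s : ℝ} (hy : TL v N y ρ) (hyB : y ∈ B) (hzB : z ∈ B)
    (hl : Lim v (cadj v N y) s z) (hfar : ∀ a ∈ cadj v N y, z ≠ a ∧ v (z - a) < s)
    (hT : ¬ TL v (cadj v N y) z s) :
    ∃ f ∈ PI N, Lim v N s (z + f.eval y) ∧ ∃ (R : ℝ) (q Q : k[X]), IsOp p G ρ R q ∧
      IsOp p G s R Q ∧ Q ≠ 0 ∧ Nr' v N R (ev p M ρ R q y + ev p M s R Q (z + f.eval y)) := by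
  set F := cadj v N y with hF
  have hNF : N ≤ F := le_cadj v N y
  have hFB : F ≤ B := cadj_le hBc hB.le hyB
  have hMF : ∀ g ∈ G, M g ∈ F := fun g hg => hNF (hMN g hg)
  obtain ⟨R, Q, φ, hQ, hQd, hφ, hrel⟩ := rel (p := p) h hM hMN hN hNF hFB hB hzB hl hfar hT
  have hQ0 : Q ≠ 0 := by
    rintro rfl
    rw [natDegree_zero] at hQd
    omega
  have hp1 : (1 : ℝ) ≤ p := by exact_mod_cast (Fact.out : p.Prime).one_lt.le
  -- the core lemma
  obtain ⟨ψ, hψ, q, hq, n, hn, hnr⟩ := core_F (k := k) (p := p) h hM hG hMN hN hy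
    ({()} : Finset Unit) (fun _ => s) R (fun _ => Q) (fun _ _ => hQ)
    (fun i _ j _ hij => absurd (Subsingleton.elim i j) hij) hφ (by
      intro ε hε
      have hpp : (0 : ℝ) < (p : ℝ) ^ Q.natDegree := pow_pos (by linarith) _
      obtain ⟨ψ', hψ', h1⟩ := hl (ε / (p : ℝ) ^ Q.natDegree) (div_pos hε hpp)
      refine ⟨fun _ => -ψ', fun _ _ => neg_mem hψ', 0, zero_mem _, ?_⟩
      rw [Finset.sum_singleton, sub_zero, ev_neg_right, sub_neg_eq_add]
      have h2 := ev_ge h hM hQ h1 (c := ε) (fun j hj => by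
        have h3 : (p : ℝ) ^ j ≤ (p : ℝ) ^ Q.natDegree :=
          pow_le_pow_right₀ hp1 (le_natDegree_of_ne_zero hj)
        calc (p : ℝ) ^ j * (ε / (p : ℝ) ^ Q.natDegree)
            ≤ (p : ℝ) ^ Q.natDegree * (ε / (p : ℝ) ^ Q.natDegree) :=
              mul_le_mul_of_nonneg_right h3 (div_pos hε hpp).le
          _ = ε := mul_div_cancel₀ _ hpp.ne')
      have e : φ + ev p M s R Q ψ' = (ev p M s R Q z + φ) - ev p M s R Q (z - ψ') := by
        rw [ev_sub_right]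
        ring
      rw [e]
      exact (hrel.ge.mono (by linarith)).sub h2)
  rw [Finset.sum_singleton] at hnr
  -- the polynomial
  obtain ⟨f, hf, hfψ⟩ := hy.dense (hψ ()) (s + 1)
  have hrel' : Nr' v N R (ev p M ρ R q y + ev p M s R Q (z + f.eval y)) := by
    have h1 : Nr' v N R (ev p M s R Q (f.eval y - ψ ())) :=
      (gsub_Nr' h hM hMN).ev hQ ⟨0, zero_mem _, by
        rw [sub_zero]
        exact (Gt.of_ge hfψ (by linarith)).sub_comm'⟩
    have h2 : Nr' v N R (ev p M s R Q z + ev p M s R Q (ψ ()) + ev p M ρ R q y) := by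
      refine ⟨-n, neg_mem hn, ?_⟩
      have e : ev p M s R Q z + ev p M s R Q (ψ ()) + ev p M ρ R q y - -n =
          (ev p M s R Q z + φ) - (φ - ev p M s R Q (ψ ()) - ev p M ρ R q y - n) := by ring
      rw [e]
      exact hrel.sub hnr
    have h3 := (gsub_Nr' h hM hMN).add _ _ _ h2 h1
    have e : ev p M s R Q z + ev p M s R Q (ψ ()) + ev p M ρ R q y +
        ev p M s R Q (f.eval y - ψ ()) = ev p M ρ R q y + ev p M s R Q (z + f.eval y) := by
      rw [ev_sub_right, ev_add_right]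
      ring
    rwa [e] at h3
  have hfB : f.eval y ∈ B := hFB (eval_mem (PI_mono hNF hf) (self_mem_cadj v N y))
  refine ⟨f, hf, ?_, R, q, Q, hq, hQ, hQ0, hrel'⟩
  refine lim_of_op h hM hMN hN hB hQ0 hQ (add_mem hzB hfB) ?_
  have h4 := ((gsub_Lim h hM hMN hB.le).ev hq ⟨hyB, hy.lim⟩)
  have h5 : ev p M s R Q (z + f.eval y) =
      (ev p M ρ R q y + ev p M s R Q (z + f.eval y)) - ev p M ρ R q y := by ring
  rw [h5]
  refine ((gsub_Lim h hM hMN hB.le).sub hM ⟨?_, hrel'.toLim⟩ h4).2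
  exact add_mem h4.1 (ev_mem (fun g hg => hB.le (hMN g hg)) hQ (add_mem hzB hfB))

/-- **JUMP COORDINATES.** -/
theorem jump [IsAlgClosed k] [IsAlgClosed Ω] (h : Ctx0 k v) (hM : MS v G M)
    (hMN : ∀ g ∈ G, M g ∈ N) (hN : LDense v G M N) (hG : G.FG) (hB : Imm v N B) (hBc : Cld v B)
    {y z : Ω} {ρ s : ℝ} (hy : TL v N y ρ) (hyB : y ∈ B) (hzB : z ∈ B)
    (hl : Lim v (cadj v N y) s z) (hfar : ∀ a ∈ cadj v N y, z ≠ a ∧ v (z - a) < s)
    (hT : ¬ TL v (cadj v N y) z s) :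
    ∃ f ∈ PI N, Lim v N s (z + f.eval y) ∧ ∃ (u w : Ω) (ρ' r : ℝ)
      (H : Chg p G M N y (z + f.eval y) ρ s u w ρ' r),
      TL v N u ρ' ∧ Gt v r w ∧ 1 ≤ H.β.natDegree := by
  obtain ⟨f, hf, hlz, R, q, Q, hq, hQ, hQ0, hrel⟩ := jump_start (p := p) h hM hMN hN hG hB hBc hy
    hyB hzB hl hfar hT
  have hNF : N ≤ cadj v N y := le_cadj v N y
  have hFB : cadj v N y ≤ B := cadj_le hBc hB.le hyB
  have hMF : ∀ g ∈ G, M g ∈ cadj v N y := fun g hg => hNF (hMN g hg)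
  have hfF : f.eval y ∈ cadj v N y := eval_mem (PI_mono hNF hf) (self_mem_cadj v N y)
  have hz₁B : z + f.eval y ∈ B := add_mem hzB (hFB hfF)
  obtain ⟨u, w, ρ', r, ⟨H⟩, hw⟩ := euclid h hM hMN hN hG hB _ y (z + f.eval y) ρ s q Q le_rfl hq
    hQ hyB hz₁B hy.lim hlz (Or.inr hQ0) hrel fun h => hy.not_nr' h.1
  refine ⟨f, hf, hlz, u, w, ρ', r, H, ?_, hw, ?_⟩
  · -- `u` is of transcendental type
    have hS := gsub_Lim (B := B) (p := p) h hM hMN hB.le
    refine ⟨?_, fun θ hθ => ?_⟩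
    · rw [H.hu]
      exact (hS.add _ _ _ (hS.add _ _ _ (hS.ev H.hγ ⟨hyB, hy.lim⟩) (hS.ev H.hδ ⟨hz₁B, hlz⟩))
        ⟨hB.le H.hn₁, fun ε _ => ⟨H.n₁, H.hn₁, by rw [sub_self]; exact RVal.Ge.zero⟩⟩).2
    · by_contra hcon
      have hge : v.Ge ρ' (u - θ) := by
        intro h0
        by_contra hlt
        exact hcon ⟨sub_ne_zero.mp h0, not_le.mp hlt⟩
      have hθ' : ev p M ρ' ρ H.a θ + H.n₃ ∈ algc N :=
        add_mem (ev_mem (fun g hg => le_algc N (hMN g hg)) H.ha (mem_algc.mpr hθ)) (le_algc N H.hn₃)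
      obtain ⟨h1, h2⟩ := hy.far _ (mem_algc.mp hθ')
      have e : y - (ev p M ρ' ρ H.a θ + H.n₃) =
          ev p M ρ' ρ H.a (u - θ) + ev p M r ρ H.b w := by
        rw [ev_sub_right]
        linear_combination H.hy
      have h3 : v.Ge ρ (y - (ev p M ρ' ρ H.a θ + H.n₃)) := by
        rw [e]
        have h4 := ev_ge h hM H.ha (w := u - θ) (η := 0) (c := 0) (by rwa [sub_zero])
          (fun j _ => by rw [mul_zero])
        have h5 := ev_ge h hM H.hb (w := w) (η := 0) (c := 0) (by rw [sub_zero]; exact hw.ge)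
          (fun j _ => by rw [mul_zero])
        rw [sub_zero] at h4 h5
        exact h4.add h5
      exact absurd (h3 (sub_ne_zero.mpr h1)) (not_le.mpr h2)
  · -- the degree
    by_contra hd
    obtain ⟨b₀, hb₀⟩ := natDegree_eq_zero.1 (by omega : H.β.natDegree = 0)
    by_cases hb0 : b₀ = 0
    · have hβ0 : H.β = 0 := by rw [← hb₀, hb0, C_0]
      have hα0 : H.α ≠ 0 := by
        intro hα0
        have h1 := H.i₂₂
        rw [hα0, hβ0, tw_zero_left, tw_zero_left, add_zero] at h1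
        exact zero_ne_one h1
      refine hy.not_nr' (nr'_of_rel_one h hM hMN hN hG hB hyB hy.lim H.hα hα0
        ⟨-H.n₂, neg_mem H.hn₂, ?_⟩)
      have e : ev p M ρ r H.α y - -H.n₂ = w := by
        have h1 := H.hw
        rw [hβ0, ev_zero] at h1
        linear_combination -h1
      rwa [e]
    · have hg : r - s ∈ G := by
        have h1 := H.hβ 0 (by rw [← hb₀, coeff_C_zero]; exact hb0)
        rwa [pow_zero, one_mul] at h1
      have hb' : algebraMap k Ω b₀ ≠ 0 := by rwa [Ne, map_eq_zero]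
      have hu := mul_ne_zero hb' (hM.ne _ hg)
      have hvu : v (algebraMap k Ω b₀ * M (r - s)) = r - s := by
        rw [v.map_mul hb' (hM.ne _ hg), h.triv b₀ hb0, hM.val _ hg, zero_add]
      have hev : ev p M s r H.β (z + f.eval y) =
          (algebraMap k Ω b₀ * M (r - s)) * (z + f.eval y) := by
        have h1 := ev_mono (k := k) (p := p) (M := M) (s := s) (r := r) b₀ 0 (z + f.eval y)
        simp only [pow_zero, mul_one, pow_one, one_mul] at h1
        rw [hb₀] at h1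
        exact h1
      have hmem : -f.eval y - (algebraMap k Ω b₀ * M (r - s))⁻¹ * (ev p M ρ r H.α y + H.n₂) ∈
          cadj v N y :=
        sub_mem (neg_mem hfF) (mul_mem (inv_mem (mul_mem
          ((cadj v N y).algebraMap_mem _) (hMF _ hg)))
          (add_mem (ev_mem hMF H.hα (self_mem_cadj v N y)) (hNF H.hn₂)))
      obtain ⟨h1, h2⟩ := hfar _ hmem
      have e : z - (-f.eval y - (algebraMap k Ω b₀ * M (r - s))⁻¹ *
          (ev p M ρ r H.α y + H.n₂)) = (algebraMap k Ω b₀ * M (r - s))⁻¹ * w := by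
        have h3 : w = ev p M ρ r H.α y + (algebraMap k Ω b₀ * M (r - s)) * (z + f.eval y) +
            H.n₂ := by rw [← hev]; exact H.hw
        rw [eq_inv_mul_iff_mul_eq₀ hu, mul_sub, mul_sub, mul_inv_cancel_left₀ hu]
        linear_combination -h3
      have h3 : Gt v s (z - (-f.eval y - (algebraMap k Ω b₀ * M (r - s))⁻¹ *
          (ev p M ρ r H.α y + H.n₂))) := by
        rw [e, mul_comm]
        have h4 := hw.mul_ge (RVal.Ge.of_le (v := v) (c := s - r)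
          (x := (algebraMap k Ω b₀ * M (r - s))⁻¹) (by rw [v.map_inv hu, hvu]; linarith))
        rwa [add_sub_cancel] at h4
      exact lt_asymm h2 (h3 (sub_ne_zero.mpr h1))

end Pool.Agent.TWM
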