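import Pool.Agent.Lib.TWM.SDefs
import Pool.Agent.Lib.TWM.Free

/-!
# TANK W, M2, row S2: composition of additive changes of coordinates
-/

set_option autoImplicit false

open Polynomial Finset

namespace Pool.Agent.TWM

open Pool.Agent.H15JM (RVal)

universe u

section tw

variable {k : Type u} [Field k] {p : ℕ} [Fact p.Prime] [CharP k p]

theorem tw_one_left (f : k[X]) : tw p 1 f = f := by
  ext n
  rw [tw_coeff, Finset.sum_eq_single 0]
  · rw [coeff_one_zero, Nat.sub_zero, pow_zero, pow_one, one_mul]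
  · intro i _ hi
    rw [coeff_one, if_neg hi, zero_mul]
  · intro h
    exact absurd (Finset.mem_range.mpr (Nat.succ_pos n)) h

theorem tw_one_right (f : k[X]) : tw p f 1 = f := by
  ext n
  rw [tw_coeff, Finset.sum_eq_single n]
  · rw [Nat.sub_self, coeff_one_zero, one_pow, mul_one]
  · intro i hi h
    have := Finset.mem_range.mp hi
    rw [coeff_one, if_neg (by omega), zero_pow (pow_ne_zero _ (Fact.out : p.Prime).ne_zero),
      mul_zero]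
  · intro h
    exact absurd (Finset.mem_range.mpr (Nat.lt_succ_self n)) h

theorem tw_sub_left (f g h : k[X]) : tw p (f - g) h = tw p f h - tw p g h := by
  rw [sub_eq_add_neg, tw_add_left, tw_neg_left, sub_eq_add_neg]

theorem tw_sub_right (f g h : k[X]) : tw p f (g - h) = tw p f g - tw p f h := by
  rw [sub_eq_add_neg, tw_add_right, tw_neg_right, sub_eq_add_neg]

theorem tw_assoc (f g h : k[X]) : tw p (tw p f g) h = tw p f (tw p g h) := by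
  have h1 : ∀ (a b c : k) (i j l : ℕ), tw p (tw p (C a * X ^ i) (C b * X ^ j)) (C c * X ^ l) =
      tw p (C a * X ^ i) (tw p (C b * X ^ j) (C c * X ^ l)) := by
    intro a b c i j l
    rw [tw_mono, tw_mono, tw_mono, tw_mono, mul_pow, ← pow_mul, ← pow_add, add_comm j i, add_assoc,
      mul_assoc]
  have h2 : ∀ (a b : k) (i j : ℕ) (h : k[X]), tw p (tw p (C a * X ^ i) (C b * X ^ j)) h =
      tw p (C a * X ^ i) (tw p (C b * X ^ j) h) := by
    intro a b i j h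
    induction h using Polynomial.induction_on' with
    | add f g hf hg => simp only [tw_add_right, hf, hg]
    | monomial n c => rw [← C_mul_X_pow_eq_monomial]; exact h1 a b c i j n
  have h3 : ∀ (a : k) (i : ℕ) (g h : k[X]), tw p (tw p (C a * X ^ i) g) h =
      tw p (C a * X ^ i) (tw p g h) := by
    intro a i g h
    induction g using Polynomial.induction_on' with
    | add f g hf hg => simp only [tw_add_left, tw_add_right, hf, hg]
    | monomial n c => rw [← C_mul_X_pow_eq_monomial]; exact h2 a c i n h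
  induction f using Polynomial.induction_on' with
  | add f g hf hg => simp only [tw_add_left, hf, hg]
  | monomial n c => rw [← C_mul_X_pow_eq_monomial]; exact h3 c n g h

theorem tw_mid {x₁ x₂ γ δ α β a b c d y₁ y₂ : k[X]} (i₁₁ : tw p γ a + tw p δ c = 1)
    (i₁₂ : tw p γ b + tw p δ d = 0) (i₂₁ : tw p α a + tw p β c = 0)
    (i₂₂ : tw p α b + tw p β d = 1) :
    tw p (tw p x₁ γ + tw p x₂ α) (tw p a y₁ + tw p b y₂) +
      tw p (tw p x₁ δ + tw p x₂ β) (tw p c y₁ + tw p d y₂) = tw p x₁ y₁ + tw p x₂ y₂ := by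
  have e₁₁ := congrArg (fun f => tw p x₁ (tw p f y₁)) i₁₁
  have e₁₂ := congrArg (fun f => tw p x₁ (tw p f y₂)) i₁₂
  have e₂₁ := congrArg (fun f => tw p x₂ (tw p f y₁)) i₂₁
  have e₂₂ := congrArg (fun f => tw p x₂ (tw p f y₂)) i₂₂
  simp only [tw_add_left, tw_add_right, tw_one_left, tw_zero_left, tw_zero_right, tw_assoc]
    at e₁₁ e₁₂ e₂₁ e₂₂ ⊢
  linear_combination e₁₁ + e₁₂ + e₂₁ + e₂₂

omit [Fact p.Prime] [CharP k p] in
theorem IsOp.one' {G : AddSubgroup ℝ} {s : ℝ} : IsOp p G s s (1 : k[X]) := by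
  intro j hj
  rw [coeff_one] at hj
  split_ifs at hj with h
  · rw [h, pow_zero, one_mul, sub_self]
    exact G.zero_mem
  · exact absurd rfl hj

end tw

variable {k Ω : Type u} [Field k] [Field Ω] [Algebra k Ω] {v : RVal Ω}
  {p : ℕ} [Fact p.Prime] [CharP k p] {G : AddSubgroup ℝ} {M : ℝ → Ω}
  {N : IntermediateField k Ω} {y z : Ω} {ρ s : ℝ} {u w : Ω} {ρ' r : ℝ}

omit [CharP k p] in
theorem ev_lin [CharP Ω p] (f : k[X]) {u a b c : Ω} (h : u = a + b + c) :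
    ev p M s r f u = ev p M s r f a + ev p M s r f b + ev p M s r f c := by
  rw [h, ev_add_right, ev_add_right]

namespace Chg

/-- Composition. -/
noncomputable def comp [CharP Ω p] (hM : MS v G M) (hMN : ∀ g ∈ G, M g ∈ N) {u' w' : Ω}
    {ρ'' r' : ℝ} (H : Chg p G M N y z ρ s u w ρ' r) (H' : Chg p G M N u w ρ' r u' w' ρ'' r') :
    Chg p G M N y z ρ s u' w' ρ'' r' where
  γ := tw p H'.γ H.γ + tw p H'.δ H.α
  δ := tw p H'.γ H.δ + tw p H'.δ H.β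
  α := tw p H'.α H.γ + tw p H'.β H.α
  β := tw p H'.α H.δ + tw p H'.β H.β
  a := tw p H.a H'.a + tw p H.b H'.c
  b := tw p H.a H'.b + tw p H.b H'.d
  c := tw p H.c H'.a + tw p H.d H'.c
  d := tw p H.c H'.b + tw p H.d H'.d
  n₁ := ev p M ρ' ρ'' H'.γ H.n₁ + ev p M r ρ'' H'.δ H.n₂ + H'.n₁
  n₂ := ev p M ρ' r' H'.α H.n₁ + ev p M r r' H'.β H.n₂ + H'.n₂
  n₃ := ev p M ρ' ρ H.a H'.n₃ + ev p M r ρ H.b H'.n₄ + H.n₃
  n₄ := ev p M ρ' s H.c H'.n₃ + ev p M r s H.d H'.n₄ + H.n₄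
  hγ := (H.hγ.tw H'.hγ).add (H.hα.tw H'.hδ)
  hδ := (H.hδ.tw H'.hγ).add (H.hβ.tw H'.hδ)
  hα := (H.hγ.tw H'.hα).add (H.hα.tw H'.hβ)
  hβ := (H.hδ.tw H'.hα).add (H.hβ.tw H'.hβ)
  ha := (H'.ha.tw H.ha).add (H'.hc.tw H.hb)
  hb := (H'.hb.tw H.ha).add (H'.hd.tw H.hb)
  hc := (H'.ha.tw H.hc).add (H'.hc.tw H.hd)
  hd := (H'.hb.tw H.hc).add (H'.hd.tw H.hd)
  hn₁ := add_mem (add_mem (ev_mem hMN H'.hγ H.hn₁) (ev_mem hMN H'.hδ H.hn₂)) H'.hn₁
  hn₂ := add_mem (add_mem (ev_mem hMN H'.hα H.hn₁) (ev_mem hMN H'.hβ H.hn₂)) H'.hn₂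
  hn₃ := add_mem (add_mem (ev_mem hMN H.ha H'.hn₃) (ev_mem hMN H.hb H'.hn₄)) H.hn₃
  hn₄ := add_mem (add_mem (ev_mem hMN H.hc H'.hn₃) (ev_mem hMN H.hd H'.hn₄)) H.hn₄
  hu := by
    rw [ev_add, ev_add, ev_tw hM H.hγ H'.hγ, ev_tw hM H.hα H'.hδ, ev_tw hM H.hδ H'.hγ,
      ev_tw hM H.hβ H'.hδ]
    linear_combination H'.hu + ev_lin (s := ρ') (r := ρ'') H'.γ H.hu +
      ev_lin (s := r) (r := ρ'') H'.δ H.hw
  hw := by
    rw [ev_add, ev_add, ev_tw hM H.hγ H'.hα, ev_tw hM H.hα H'.hβ, ev_tw hM H.hδ H'.hα,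
      ev_tw hM H.hβ H'.hβ]
    linear_combination H'.hw + ev_lin (s := ρ') (r := r') H'.α H.hu +
      ev_lin (s := r) (r := r') H'.β H.hw
  hy := by
    rw [ev_add, ev_add, ev_tw hM H'.ha H.ha, ev_tw hM H'.hc H.hb, ev_tw hM H'.hb H.ha,
      ev_tw hM H'.hd H.hb]
    linear_combination H.hy + ev_lin (s := ρ') (r := ρ) H.a H'.hy +
      ev_lin (s := r) (r := ρ) H.b H'.hz
  hz := by
    rw [ev_add, ev_add, ev_tw hM H'.ha H.hc, ev_tw hM H'.hc H.hd, ev_tw hM H'.hb H.hc,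
      ev_tw hM H'.hd H.hd]
    linear_combination H.hz + ev_lin (s := ρ') (r := s) H.c H'.hy +
      ev_lin (s := r) (r := s) H.d H'.hz
  i₁₁ := by
    rw [tw_mid H.i₁₁ H.i₁₂ H.i₂₁ H.i₂₂, H'.i₁₁]
  i₁₂ := by
    rw [tw_mid H.i₁₁ H.i₁₂ H.i₂₁ H.i₂₂, H'.i₁₂]
  i₂₁ := by
    rw [tw_mid H.i₁₁ H.i₁₂ H.i₂₁ H.i₂₂, H'.i₂₁]
  i₂₂ := by
    rw [tw_mid H.i₁₁ H.i₁₂ H.i₂₁ H.i₂₂, H'.i₂₂]
  j₁₁ := by
    rw [tw_mid H'.j₁₁ H'.j₁₂ H'.j₂₁ H'.j₂₂, H.j₁₁]
  j₁₂ := by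
    rw [tw_mid H'.j₁₁ H'.j₁₂ H'.j₂₁ H'.j₂₂, H.j₁₂]
  j₂₁ := by
    rw [tw_mid H'.j₁₁ H'.j₁₂ H'.j₂₁ H'.j₂₂, H.j₂₁]
  j₂₂ := by
    rw [tw_mid H'.j₁₁ H'.j₁₂ H'.j₂₁ H'.j₂₂, H.j₂₂]

/-- The exchange of the variables. -/
noncomputable def swap (hM : MS v G M) (y z : Ω) (ρ s : ℝ) : Chg p G M N y z ρ s z y s ρ where
  γ := 0
  δ := 1
  α := 1
  β := 0
  a := 0
  b := 1
  c := 1
  d := 0
  n₁ := 0
  n₂ := 0
  n₃ := 0
  n₄ := 0
  hγ := IsOp.zero
  hδ := IsOp.one'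
  hα := IsOp.one'
  hβ := IsOp.zero
  ha := IsOp.zero
  hb := IsOp.one'
  hc := IsOp.one'
  hd := IsOp.zero
  hn₁ := zero_mem _
  hn₂ := zero_mem _
  hn₃ := zero_mem _
  hn₄ := zero_mem _
  hu := by rw [ev_zero, ev_one hM, zero_add, add_zero]
  hw := by rw [ev_zero, ev_one hM, add_zero, add_zero]
  hy := by rw [ev_zero, ev_one hM, zero_add, add_zero]
  hz := by rw [ev_zero, ev_one hM, add_zero, add_zero]
  i₁₁ := by rw [tw_zero_left, tw_one_left, zero_add]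
  i₁₂ := by rw [tw_zero_left, tw_zero_right, zero_add]
  i₂₁ := by rw [tw_zero_left, tw_zero_right, zero_add]
  i₂₂ := by rw [tw_zero_left, tw_one_left, add_zero]
  j₁₁ := by rw [tw_zero_left, tw_one_left, zero_add]
  j₁₂ := by rw [tw_zero_left, tw_zero_right, zero_add]
  j₂₁ := by rw [tw_zero_left, tw_zero_right, zero_add]
  j₂₂ := by rw [tw_zero_left, tw_one_left, add_zero]

/-- `(y, z) ↦ (y, z + E(y) + n)`. -/
noncomputable def shear (hM : MS v G M) (y z : Ω) {ρ s : ℝ} {E : k[X]}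
    (hE : IsOp p G ρ s E) {n : Ω} (hn : n ∈ N) :
    Chg p G M N y z ρ s y (z + ev p M ρ s E y + n) ρ s where
  γ := 1
  δ := 0
  α := E
  β := 1
  a := 1
  b := 0
  c := -E
  d := 1
  n₁ := 0
  n₂ := n
  n₃ := 0
  n₄ := -n
  hγ := IsOp.one'
  hδ := IsOp.zero
  hα := hE
  hβ := IsOp.one'
  ha := IsOp.one'
  hb := IsOp.zero
  hc := hE.neg
  hd := IsOp.one'
  hn₁ := zero_mem _
  hn₂ := hn
  hn₃ := zero_mem _
  hn₄ := neg_mem hn
  hu := by rw [ev_zero, ev_one hM, add_zero, add_zero]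
  hw := by rw [ev_one hM]; ring
  hy := by rw [ev_zero, ev_one hM, add_zero, add_zero]
  hz := by rw [ev_one hM, ev_neg]; ring
  i₁₁ := by rw [tw_zero_left, tw_one_left, add_zero]
  i₁₂ := by rw [tw_zero_left, tw_zero_right, zero_add]
  i₂₁ := by rw [tw_one_right, tw_one_left, add_neg_cancel]
  i₂₂ := by rw [tw_zero_right, tw_one_left, zero_add]
  j₁₁ := by rw [tw_zero_left, tw_one_left, add_zero]
  j₁₂ := by rw [tw_zero_left, tw_zero_right, zero_add]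
  j₂₁ := by rw [tw_one_right, tw_one_left, neg_add_cancel]
  j₂₂ := by rw [tw_zero_right, tw_one_left, zero_add]

theorem mem_u {F : IntermediateField k Ω} (hMN : ∀ g ∈ G, M g ∈ N) (hNF : N ≤ F)
    (H : Chg p G M N y z ρ s u w ρ' r) (hy : y ∈ F) (hz : z ∈ F) : u ∈ F := by
  rw [H.hu]
  exact add_mem (add_mem (ev_mem (fun g hg => hNF (hMN g hg)) H.hγ hy)
    (ev_mem (fun g hg => hNF (hMN g hg)) H.hδ hz)) (hNF H.hn₁)

theorem mem_w {F : IntermediateField k Ω} (hMN : ∀ g ∈ G, M g ∈ N) (hNF : N ≤ F)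
    (H : Chg p G M N y z ρ s u w ρ' r) (hy : y ∈ F) (hz : z ∈ F) : w ∈ F := by
  rw [H.hw]
  exact add_mem (add_mem (ev_mem (fun g hg => hNF (hMN g hg)) H.hα hy)
    (ev_mem (fun g hg => hNF (hMN g hg)) H.hβ hz)) (hNF H.hn₂)

theorem cadj_le_aux (hMN : ∀ g ∈ G, M g ∈ N) (H : Chg p G M N y z ρ s u w ρ' r) :
    cadj v (cadj v N u) w ≤ cadj v (cadj v N y) z := by
  have hN : N ≤ cadj v (cadj v N y) z := (le_cadj v N y).trans (le_cadj v _ z)
  have hy : y ∈ cadj v (cadj v N y) z := le_cadj v _ z (self_mem_cadj v N y)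
  have hz : z ∈ cadj v (cadj v N y) z := self_mem_cadj v _ z
  exact cadj_le (cld_cadj v _ _) (cadj_le (cld_cadj v _ _) hN (H.mem_u hMN hN hy hz))
    (H.mem_w hMN hN hy hz)

/-- The field does not change. -/
theorem cadj_eq (hMN : ∀ g ∈ G, M g ∈ N) (H : Chg p G M N y z ρ s u w ρ' r) :
    cadj v (cadj v N y) z = cadj v (cadj v N u) w :=
  le_antisymm (H.symm.cadj_le_aux hMN) (H.cadj_le_aux hMN)

end Chg

end Pool.Agent.TWM
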