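import Pool.Agent.Lib.TWM.S3a

/-!
# TANK W, M2, rows S3.1, S3.2, S3.7

* S3.1 `GB2_iff`: at `(y, z)`, `y` of transcendental type over `N` and `z` a limit of `N`, the Gauss
  norm in two variables of a polynomial over `N` is the one in one variable over `N(y)`;
* S3.2 `T2_high`: the same for the indices `> S`;
* S3.7 `exists_PII_near`: density.
-/

set_option autoImplicit false

open Polynomial

namespace Pool.Agent.TWM

open Pool.Agent.H15JM (RVal)

universe u

section Two

variable {Ω : Type u} [Field Ω] {v : RVal Ω} {y z y' z' : Ω} {ρ s lam lam' : ℝ}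
  {P Q : Polynomial (Polynomial Ω)}

/-- The `i`-th Hasse derivative in `Y` at `y`, as polynomial in `Z`. -/
noncomputable def RZ (y : Ω) (i : ℕ) (P : Polynomial (Polynomial Ω)) : Polynomial Ω :=
  ∑ n ∈ P.support, monomial n ((taylor y (P.coeff n)).coeff i)

theorem RZ_coeff (i n : ℕ) (P : Polynomial (Polynomial Ω)) :
    (RZ y i P).coeff n = (taylor y (P.coeff n)).coeff i := by
  classical
  rw [RZ, finsetSum_coeff]
  simp only [coeff_monomial]
  rw [Finset.sum_ite_eq']
  split_ifs with h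
  · rfl
  · rw [notMem_support_iff.1 h, map_zero, coeff_zero]

theorem RZ_add (i : ℕ) : RZ y i (P + Q) = RZ y i P + RZ y i Q := by
  ext n
  rw [RZ_coeff, coeff_add, coeff_add, RZ_coeff, RZ_coeff, map_add, coeff_add]

theorem RZ_monomial (i n : ℕ) (q : Polynomial Ω) :
    RZ y i (monomial n q) = monomial n ((taylor y q).coeff i) := by
  ext m
  rw [RZ_coeff, coeff_monomial, coeff_monomial]
  split_ifs
  · rfl
  · rw [map_zero, coeff_zero]

/-- The Hasse derivatives at `(y, z)` are the ones of `RZ y i P` at `z`. -/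
theorem T2_eq (P : Polynomial (Polynomial Ω)) (i j : ℕ) :
    T2 y z P i j = (taylor z (RZ y i P)).coeff j := by
  induction P using Polynomial.induction_on' with
  | add P Q hP hQ => rw [T2_add, hP, hQ, RZ_add, map_add, coeff_add]
  | monomial n q =>
    rw [T2, RZ_monomial, taylor_monomial, taylor_monomial, coeff_C_mul, coeff_C_mul,
      coeff_X_add_C_pow, coeff_X_add_C_pow, taylor_mul, taylor_mul, ← C_pow, taylor_C,
      show ((n.choose j : ℕ) : Polynomial Ω) = C ((n.choose j : ℕ) : Ω) by rw [map_natCast],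
      taylor_C, mul_comm, mul_assoc, coeff_C_mul, coeff_C_mul]
    ring

/-- Change of the centre in `Z`, for the indices `≥ l`. -/
theorem T2_centre_right {l : ℕ} {i : ℕ} (hz : v.Ge s (z' - z))
    (h : ∀ n, l ≤ n → v.Ge (lam - n * s) (T2 y z P i n)) :
    ∀ n, l ≤ n → v.Ge (lam - n * s) (T2 y z' P i n) := by
  intro n hn
  rw [T2_eq]
  refine taylor_centre hz (fun n hn => ?_) n hn
  rw [← T2_eq]
  exact h n hn

/-- Change of the centre in `Z`. -/
theorem GB2.centre_right (hz : v.Ge s (z' - z)) (h : GB2 v y z ρ s lam P) :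
    GB2 v y z' ρ s lam P := fun i j =>
  T2_centre_right (l := 0) hz (fun n _ => h i n) j (Nat.zero_le j)

/-- Change of the centre in `Y`. -/
theorem GB2.centre_left (hy : v.Ge ρ (y' - y)) (h : GB2 v y z ρ s lam P) :
    GB2 v y' z ρ s lam P := fun i j => by
  refine (taylor_centre (l := 0) (lam := lam - j * s) hy (fun n _ => ?_) i (Nat.zero_le i)).mono
    (by linarith)
  exact (h n j).mono (by linarith)

theorem GB2.centre (hy : v.Ge ρ (y' - y)) (hz : v.Ge s (z' - z)) (h : GB2 v y z ρ s lam P) :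
    GB2 v y' z' ρ s lam P := (h.centre_left hy).centre_right hz

/-- A polynomial has finitely many coefficients. -/
theorem exists_T2_zero (y z : Ω) (P : Polynomial (Polynomial Ω)) :
    ∃ D : ℕ, ∀ i j, D < i ∨ D < j → T2 y z P i j = 0 := by
  classical
  obtain ⟨K, hK⟩ : ∃ K : ℕ, ∀ j, ((taylor (C z) P).coeff j).natDegree ≤ K := by
    refine ⟨∑ j ∈ (taylor (C z) P).support, ((taylor (C z) P).coeff j).natDegree, fun j => ?_⟩
    by_cases hj : j ∈ (taylor (C z) P).support
    · exact Finset.single_le_sum (f := fun j => ((taylor (C z) P).coeff j).natDegree)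
        (fun _ _ => Nat.zero_le _) hj
    · rw [notMem_support_iff.1 hj, natDegree_zero]
      exact Nat.zero_le _
  refine ⟨max K P.natDegree, fun i j hij => ?_⟩
  rcases hij with h | h
  · rw [T2, coeff_eq_zero_of_natDegree_lt]
    rw [natDegree_taylor]
    exact lt_of_le_of_lt ((hK j).trans (le_max_left _ _)) h
  · rw [T2, coeff_eq_zero_of_natDegree_lt (n := j), map_zero, coeff_zero]
    rw [natDegree_taylor]
    exact lt_of_le_of_lt (le_max_right _ _) h

end Two

variable {k Ω : Type u} [Field k] [Field Ω] [Algebra k Ω] {v : RVal Ω} {y z : Ω} {ρ s lam : ℝ}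
  {N : IntermediateField k Ω}

/-- S3.1 and S3.2. -/
theorem T2_ge [IsAlgClosed Ω] (hy : TL v N y ρ) (hz : Lim v N s z)
    {P : Polynomial (Polynomial Ω)} (hP : PII N P) {l₀ : ℕ}
    (hh : ∀ l, l₀ ≤ l → v.Ge (lam - l * s) ((taylor z (P.map (evalRingHom y))).coeff l)) :
    ∀ i l : ℕ, l₀ ≤ l → v.Ge (lam - i * ρ - l * s) (T2 y z P i l) := by
  intro i l hl
  set D := (taylor z (P.map (evalRingHom y))).natDegree
  refine ge_of_eps_mul (D := D) (Nat.cast_nonneg D) fun ε hε => ?_
  obtain ⟨ψ, hψ, h1⟩ := hz ε hε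
  -- at `ψ`
  have h2 : ∀ n, l₀ ≤ n → v.Ge (lam - D * ε - n * (s - ε))
      ((taylor ψ (P.map (evalRingHom y))).coeff n) := by
    refine taylor_centre (ge_sub_comm h1) fun n hn => ?_
    by_cases h0 : (taylor z (P.map (evalRingHom y))).coeff n = 0
    · rw [h0]
      exact RVal.Ge.zero
    · have h3 : (n : ℝ) ≤ D := by exact_mod_cast le_natDegree_of_ne_zero h0
      refine (hh n hn).mono ?_
      nlinarith
  have h3 : ∀ n : ℕ, l₀ ≤ n → v.Ge (lam - D * ε - i * ρ - n * (s - ε)) (T2 y ψ P i n) := by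
    intro n hn
    have h4 : ((taylor (C ψ) P).coeff n).eval y = (taylor ψ (P.map (evalRingHom y))).coeff n := by
      rw [← T2_zero_left, T2, taylor_coeff_zero]
    have h5 : (taylor (C ψ) P).coeff n ∈ PI N := hP.taylor (C_mem_PI hψ) n
    by_cases h6 : (taylor (C ψ) P).coeff n = 0
    · rw [T2, h6, map_zero, coeff_zero]
      exact RVal.Ge.zero
    · have h7 := PI_mono (le_algc N) h5
      have h8 := h2 n hn
      rw [← h4] at h8
      refine (hy.weak h7 h6 i).mono ?_
      have h9 := h8 (hy.eval_ne h7 h6)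
      linarith
  refine (T2_centre_right h1 h3 l hl).mono ?_
  have h4 : (0 : ℝ) ≤ l := Nat.cast_nonneg l
  nlinarith

/-- **S3.1.** -/
theorem GB2_iff [IsAlgClosed Ω] (hy : TL v N y ρ) (hz : Lim v N s z)
    {P : Polynomial (Polynomial Ω)} (hP : PII N P) {lam : ℝ} :
    GB2 v y z ρ s lam P ↔ GB v s lam (taylor z (P.map (evalRingHom y))) :=
  ⟨GB2.left, fun h i j => T2_ge hy hz hP (l₀ := 0) (fun l _ => h l) i j (Nat.zero_le j)⟩

/-- **S3.2.** -/
theorem T2_high [IsAlgClosed Ω] (hy : TL v N y ρ) (hz : Lim v N s z)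
    {P : Polynomial (Polynomial Ω)} (hP : PII N P) {S : ℕ}
    (hh : ∀ l, S < l → v.Ge (lam - l * s) ((taylor z (P.map (evalRingHom y))).coeff l)) :
    ∀ i l : ℕ, S < l → v.Ge (lam - i * ρ - l * s) (T2 y z P i l) :=
  fun i l hl => T2_ge hy hz hP (l₀ := S + 1) (fun l hl => hh l hl) i l hl

/-- **S3.7.** -/
theorem exists_PII_near [IsAlgClosed Ω] (hy : TL v N y ρ) {g : Polynomial Ω}
    (hg : g ∈ PI (cadj v N y)) (c : ℝ) :
    ∃ P : Polynomial (Polynomial Ω), PII N P ∧ P.natDegree ≤ g.natDegree ∧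
      ∀ m, v.Ge c ((g - P.map (evalRingHom y)).coeff m) := by
  classical
  choose f hf hfc using fun m => hy.dense (hg m) c
  set P : Polynomial (Polynomial Ω) := ∑ m ∈ Finset.range (g.natDegree + 1), monomial m (f m)
    with hP
  have hc : ∀ m, P.coeff m = if m ∈ Finset.range (g.natDegree + 1) then f m else 0 := by
    intro m
    rw [hP, finsetSum_coeff]
    simp only [coeff_monomial]
    rw [Finset.sum_ite_eq']
  refine ⟨P, fun m => ?_, ?_, fun m => ?_⟩
  · rw [hc]
    split_ifs
    · exact hf m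
    · exact zero_mem _
  · rw [natDegree_le_iff_coeff_eq_zero]
    intro m hm
    rw [hc, if_neg]
    rw [Finset.mem_range]
    omega
  · rw [coeff_sub, coeff_map, hc, coe_evalRingHom]
    split_ifs with h1
    · exact hfc m
    · rw [eval_zero, sub_zero, coeff_eq_zero_of_natDegree_lt]
      · exact RVal.Ge.zero
      · rw [Finset.mem_range] at h1
        omega

end Pool.Agent.TWM
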