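import Pool.Agent.Lib.TWM.S3a
import Pool.Agent.Lib.TWM.S3c
import Pool.Agent.Lib.TWM.Lau

/-!
# TANK W, M2S, row S3: chain rule and Gauss bounds for a change of coordinates

`Chg.dY_tr`, `Chg.dZ_tr` (S3.9), and `Chg.GB2_tr` (S3.3); the bounds `GB2` are stable under products.
-/

set_option autoImplicit false

open Polynomial

namespace Pool.Agent.TWM

open Pool.Agent.H15JM (RVal)
open Pool.Agent.D2 (Ctx0)

universe u

variable {k Ω : Type u} [Field k] [Field Ω] [Algebra k Ω] {v : RVal Ω}
  {p : ℕ} {G : AddSubgroup ℝ} {M : ℝ → Ω} {s r t : ℝ}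

/-! ## The derivative with respect to the inner variable -/

theorem dY_add (P Q : Polynomial (Polynomial Ω)) : dY (P + Q) = dY P + dY Q := by
  ext1 j
  rw [coeff_add, dY_coeff, dY_coeff, dY_coeff, coeff_add, derivative_add]

theorem dY_mul (P Q : Polynomial (Polynomial Ω)) : dY (P * Q) = dY P * Q + P * dY Q := by
  ext1 j
  rw [dY_coeff, coeff_add, coeff_mul, coeff_mul, coeff_mul, derivative_sum, ← Finset.sum_add_distrib]
  refine Finset.sum_congr rfl fun x _ => ?_
  rw [derivative_mul, dY_coeff, dY_coeff]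

theorem dY_C (q : Polynomial Ω) : dY (C q) = C (derivative q) := by
  ext1 j
  rw [dY_coeff, coeff_C, coeff_C]
  split_ifs
  · rfl
  · rw [derivative_zero]

theorem dY_map (q : Polynomial Ω) : dY (q.map C) = 0 := by
  ext1 j
  rw [dY_coeff, coeff_map, derivative_C, coeff_zero]

theorem derivative_opP [CharP Ω p] (f : k[X]) :
    derivative (opP p M s r f) = C (algebraMap k Ω (f.coeff 0) * M (r - s)) := by
  rw [opP, Polynomial.sum, derivative_sum]
  have h1 : ∀ j ∈ f.support, derivative (C (algebraMap k Ω (f.coeff j) *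
      M (r - (p : ℝ) ^ j * s)) * X ^ p ^ j : Polynomial Ω) =
      if j = 0 then C (algebraMap k Ω (f.coeff 0) * M (r - s)) else 0 := by
    intro j _
    rw [derivative_C_mul, derivative_X_pow]
    split_ifs with h
    · subst h
      rw [pow_zero, pow_zero, one_mul, Nat.cast_one, C_1, one_mul, Nat.sub_self, pow_zero, mul_one]
    · obtain ⟨j, rfl⟩ := Nat.exists_eq_succ_of_ne_zero h
      have h3 : ((p ^ j.succ : ℕ) : Ω) = 0 := by
        rw [Nat.cast_pow, CharP.cast_eq_zero Ω p, zero_pow (Nat.succ_ne_zero j)]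
      rw [h3, C_0, zero_mul, mul_zero]
  rw [Finset.sum_congr rfl h1, Finset.sum_ite_eq']
  split_ifs with h
  · rfl
  · rw [notMem_support_iff.1 h, map_zero, zero_mul, C_0]

/-- The chain rule. -/
theorem chain {D : Polynomial (Polynomial Ω) → Polynomial (Polynomial Ω)}
    (hadd : ∀ P Q, D (P + Q) = D P + D Q) (hmul : ∀ P Q, D (P * Q) = D P * Q + P * D Q)
    (hC : ∀ c : Ω, D (C (C c)) = 0) (f g P : Polynomial (Polynomial Ω)) :
    D (sub2 f g P) = D f * sub2 f g (dY P) + D g * sub2 f g (derivative P) := by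
  have hpow : ∀ (Q : Polynomial (Polynomial Ω)) (n : ℕ), D (Q ^ n) = n * Q ^ (n - 1) * D Q := by
    intro Q n
    induction n with
    | zero =>
      have h1 : D 1 = 0 := by rw [← C_1, ← C_1]; exact hC 1
      rw [pow_zero, h1, Nat.cast_zero, zero_mul, zero_mul]
    | succ n ih =>
      rw [pow_succ, hmul, ih]
      cases n with
      | zero => simp
      | succ m =>
        push_cast
        ring
  have h1 : ∀ q : Polynomial Ω, D (sub2 f g (C q)) = D f * sub2 f g (C (derivative q)) := by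
    intro q
    induction q using Polynomial.induction_on' with
    | add q₁ q₂ h₁ h₂ => rw [C_add, map_add, hadd, h₁, h₂, derivative_add, C_add, map_add, mul_add]
    | monomial n c =>
      rw [derivative_monomial, ← C_mul_X_pow_eq_monomial, ← C_mul_X_pow_eq_monomial, C_mul, C_mul,
        map_mul, map_mul, C_pow, C_pow, map_pow, map_pow, sub2_CC, sub2_CC, sub2_CX, hmul, hC, hpow,
        C_mul, C_mul]
      simp only [map_natCast]
      ring
  induction P using Polynomial.induction_on' with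
  | add P Q h₁ h₂ =>
    rw [map_add, hadd, h₁, h₂, dY_add, derivative_add, map_add, map_add]
    ring
  | monomial n q =>
    have h2 : dY (monomial n q : Polynomial (Polynomial Ω)) = C (derivative q) * X ^ n := by
      ext1 j
      rw [dY_coeff, coeff_monomial, coeff_C_mul_X_pow]
      by_cases h : n = j
      · rw [if_pos h, if_pos h.symm]
      · rw [if_neg h, if_neg (Ne.symm h), derivative_zero]
    rw [h2, derivative_monomial, ← C_mul_X_pow_eq_monomial, ← C_mul_X_pow_eq_monomial, map_mul,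
      map_mul, map_mul, map_pow, map_pow, sub2_X, hmul, h1, hpow, C_mul, map_mul]
    simp only [map_natCast]
    ring

namespace Chg

variable [Fact p.Prime] [CharP k p] [CharP Ω p] {N : IntermediateField k Ω} {y z : Ω} {ρ s : ℝ}
  {u w : Ω} {ρ' r : ℝ}

theorem dY_pY (H : Chg p G M N y z ρ s u w ρ' r) :
    dY H.pY = C (C (algebraMap k Ω (H.a.coeff 0) * M (ρ - ρ'))) := by
  rw [pY, dY_add, dY_add, dY_C, dY_map, dY_C, derivative_C, C_0, add_zero, add_zero, derivative_opP]

theorem dY_pZ (H : Chg p G M N y z ρ s u w ρ' r) :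
    dY H.pZ = C (C (algebraMap k Ω (H.c.coeff 0) * M (s - ρ'))) := by
  rw [pZ, dY_add, dY_add, dY_C, dY_map, dY_C, derivative_C, C_0, add_zero, add_zero, derivative_opP]

theorem derivative_pY (H : Chg p G M N y z ρ s u w ρ' r) :
    derivative H.pY = C (C (algebraMap k Ω (H.b.coeff 0) * M (ρ - r))) := by
  rw [pY, derivative_add, derivative_add, derivative_C, derivative_C, zero_add, add_zero,
    derivative_map, derivative_opP, map_C]

theorem derivative_pZ (H : Chg p G M N y z ρ s u w ρ' r) :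
    derivative H.pZ = C (C (algebraMap k Ω (H.d.coeff 0) * M (s - r))) := by
  rw [pZ, derivative_add, derivative_add, derivative_C, derivative_C, zero_add, add_zero,
    derivative_map, derivative_opP, map_C]

/-- S3.9: the derivative with respect to `u`. -/
theorem dY_tr (H : Chg p G M N y z ρ s u w ρ' r) (P : Polynomial (Polynomial Ω)) :
    dY (H.tr P) = C (C (algebraMap k Ω (H.a.coeff 0) * M (ρ - ρ'))) * H.tr (dY P) +
      C (C (algebraMap k Ω (H.c.coeff 0) * M (s - ρ'))) * H.tr (derivative P) := by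
  have h := chain (D := dY) dY_add dY_mul (fun c => by rw [dY_C, derivative_C, C_0]) H.pY H.pZ P
  rwa [dY_pY, dY_pZ] at h

/-- S3.9: the derivative with respect to `w`. -/
theorem dZ_tr (H : Chg p G M N y z ρ s u w ρ' r) (P : Polynomial (Polynomial Ω)) :
    derivative (H.tr P) = C (C (algebraMap k Ω (H.b.coeff 0) * M (ρ - r))) * H.tr (dY P) +
      C (C (algebraMap k Ω (H.d.coeff 0) * M (s - r))) * H.tr (derivative P) := by
  have h := chain (D := fun P => derivative P) (fun P Q => derivative_add)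
    (fun P Q => derivative_mul) (fun c => derivative_C) H.pY H.pZ P
  simp only [derivative_pY, derivative_pZ] at h
  exact h

end Chg

/-! ## Gauss bounds in two variables -/

/-- The Gauss bound in two variables at the origin. -/
def G2 (v : RVal Ω) (ρ s lam : ℝ) (P : Polynomial (Polynomial Ω)) : Prop :=
  ∀ i j : ℕ, v.Ge (lam - i * ρ - j * s) ((P.coeff j).coeff i)

section G2

variable {ρ s lam lam' : ℝ} {P Q : Polynomial (Polynomial Ω)}

theorem GB2_iff_G2 {y z : Ω} : GB2 v y z ρ s lam P ↔ G2 v ρ s lam (tt y z P) := by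
  refine forall_congr' fun i => forall_congr' fun j => ?_
  rw [T2_eq_tt]

theorem G2.zero : G2 v ρ s lam 0 := fun i j => by
  rw [coeff_zero, coeff_zero]
  exact RVal.Ge.zero

theorem G2.mono (h : G2 v ρ s lam P) (hl : lam' ≤ lam) : G2 v ρ s lam' P := fun i j =>
  (h i j).mono (by linarith)

theorem G2.add (hP : G2 v ρ s lam P) (hQ : G2 v ρ s lam Q) : G2 v ρ s lam (P + Q) := fun i j => by
  rw [coeff_add, coeff_add]
  exact (hP i j).add (hQ i j)

theorem G2.neg (hP : G2 v ρ s lam P) : G2 v ρ s lam (-P) := fun i j => by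
  rw [coeff_neg, coeff_neg]
  exact (hP i j).neg

theorem G2.sub (hP : G2 v ρ s lam P) (hQ : G2 v ρ s lam Q) : G2 v ρ s lam (P - Q) := by
  rw [sub_eq_add_neg]
  exact hP.add hQ.neg

theorem G2.sum {ι : Type*} (S : Finset ι) (f : ι → Polynomial (Polynomial Ω))
    (h : ∀ i ∈ S, G2 v ρ s lam (f i)) : G2 v ρ s lam (∑ i ∈ S, f i) := by
  classical
  induction S using Finset.induction_on with
  | empty => rw [Finset.sum_empty]; exact G2.zero
  | insert i S hi ih =>
    rw [Finset.sum_insert hi]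
    exact (h i (Finset.mem_insert_self _ _)).add (ih fun j hj => h j (Finset.mem_insert_of_mem hj))

theorem G2.mul (hP : G2 v ρ s lam P) (hQ : G2 v ρ s lam' Q) : G2 v ρ s (lam + lam') (P * Q) := by
  intro i j
  rw [coeff_mul, finsetSum_coeff]
  refine RVal.Ge.sum _ _ fun x hx => ?_
  rw [coeff_mul]
  refine RVal.Ge.sum _ _ fun y hy => ?_
  have h1 := Finset.HasAntidiagonal.mem_antidiagonal.mp hx
  have h2 := Finset.HasAntidiagonal.mem_antidiagonal.mp hy
  refine ((hP y.1 x.1).mul (hQ y.2 x.2)).mono (le_of_eq ?_)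
  rw [← h1, ← h2]
  push_cast
  ring

theorem G2.CC {c : Ω} (hc : v.Ge lam c) : G2 v ρ s lam (C (C c)) := by
  intro i j
  rw [coeff_C]
  split_ifs with h
  · rw [coeff_C]
    split_ifs with h'
    · rw [h, h']
      refine hc.mono (le_of_eq ?_)
      push_cast
      ring
    · exact RVal.Ge.zero
  · rw [coeff_zero]
    exact RVal.Ge.zero

theorem G2.pow (hP : G2 v ρ s lam P) (n : ℕ) : G2 v ρ s (n * lam) (P ^ n) := by
  induction n with
  | zero =>
    rw [pow_zero, Nat.cast_zero, zero_mul, ← C_1, ← C_1]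
    exact G2.CC fun _ => by rw [v.map_one]
  | succ n ih =>
    rw [pow_succ, Nat.cast_succ, add_mul, one_mul]
    exact ih.mul hP

theorem G2.CX : G2 v ρ s ρ (C X) := by
  intro i j
  rw [coeff_C]
  split_ifs with h
  · rw [coeff_X]
    split_ifs with h'
    · rw [h, ← h']
      intro _
      rw [v.map_one]
      push_cast
      linarith
    · exact RVal.Ge.zero
  · rw [coeff_zero]
    exact RVal.Ge.zero

theorem G2.X : G2 v ρ s s (X : Polynomial (Polynomial Ω)) := by
  intro i j
  rw [coeff_X]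
  split_ifs with h
  · rw [coeff_one]
    split_ifs with h'
    · rw [← h, h']
      intro _
      rw [v.map_one]
      push_cast
      linarith
    · exact RVal.Ge.zero
  · rw [coeff_zero]
    exact RVal.Ge.zero

theorem G2.evP (h0 : Ctx0 k v) (hM : MS v G M) {f : k[X]} (hf : IsOp p G lam r f)
    (hP : G2 v ρ s lam P) : G2 v ρ s r (evP p M lam r f P) := by
  rw [TWM.evP, Polynomial.sum]
  refine G2.sum _ _ fun j hj => ?_
  refine ((G2.CC (term_ge h0 hM (hf j (mem_support_iff.mp hj)) _)).mul (hP.pow (p ^ j))).mono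
    (le_of_eq ?_)
  push_cast
  ring

theorem G2.sub2 {ρ' r' : ℝ} {f g : Polynomial (Polynomial Ω)} (hf : G2 v ρ' r' ρ f)
    (hg : G2 v ρ' r' s g) (hP : G2 v ρ s lam P) : G2 v ρ' r' lam (sub2 f g P) := by
  have h2 : TWM.sub2 f g P = P.eval₂ (eval₂RingHom (C.comp C) f) g := rfl
  rw [h2, eval₂_eq_sum, Polynomial.sum]
  refine G2.sum _ _ fun j _ => ?_
  rw [coe_eval₂RingHom, eval₂_eq_sum, Polynomial.sum, Finset.sum_mul]
  refine G2.sum _ _ fun i _ => ?_
  refine (((G2.CC (hP i j)).mul (hf.pow i)).mul (hg.pow j)).mono (le_of_eq ?_)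
  ring

end G2

namespace Chg

variable [Fact p.Prime] [CharP k p] [CharP Ω p] {N : IntermediateField k Ω} {y z : Ω} {ρ s : ℝ}
  {u w : Ω} {ρ' r : ℝ}

/-- The translated change of coordinates is linear. -/
theorem tt_tr (H : Chg p G M N y z ρ s u w ρ' r) (P : Polynomial (Polynomial Ω)) :
    tt u w (H.tr P) = sub2 (evP p M ρ' ρ H.a (C X) + evP p M r ρ H.b X)
      (evP p M ρ' s H.c (C X) + evP p M r s H.d X) (tt y z P) := by
  have h : (tt u w).comp H.tr = (sub2 (evP p M ρ' ρ H.a (C X) + evP p M r ρ H.b X)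
      (evP p M ρ' s H.c (C X) + evP p M r s H.d X)).comp (tt y z) := by
    have e1 : ∀ {s₁ r₁ : ℝ} (f : k[X]), evP p M s₁ r₁ f (C (X + C u)) =
        evP p M s₁ r₁ f (C X : Polynomial (Polynomial Ω)) + C (C (ev p M s₁ r₁ f u)) := by
      intro s₁ r₁ f
      rw [C_add, evP_add_right, evP_CC]
    have e2 : ∀ {s₁ r₁ : ℝ} (f : k[X]), evP p M s₁ r₁ f (X + C (C w)) =
        evP p M s₁ r₁ f (X : Polynomial (Polynomial Ω)) + C (C (ev p M s₁ r₁ f w)) := by
      intro s₁ r₁ f
      rw [evP_add_right, evP_CC]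
    refine ringHom_ext2 (fun c => ?_) ?_ ?_
    · rw [RingHom.comp_apply, RingHom.comp_apply, tr_CC, tt, tt, sub2_CC, sub2_CC, sub2_CC]
    · rw [RingHom.comp_apply, RingHom.comp_apply, tr_CX, pY_eq, map_add, map_add, tt, tt,
        sub2_evP, sub2_evP, sub2_CX, sub2_CX, sub2_X, sub2_CC, e1, e2, C_add, map_add, sub2_CX,
        sub2_CC]
      have h1 : (C (C y) : Polynomial (Polynomial Ω)) = C (C (ev p M ρ' ρ H.a u)) +
          C (C (ev p M r ρ H.b w)) + C (C H.n₃) := by
        rw [← C_add, ← C_add, ← C_add, ← C_add]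
        exact congrArg (fun x => C (C x)) H.hy
      rw [h1]
      ring
    · rw [RingHom.comp_apply, RingHom.comp_apply, tr_X, pZ_eq, map_add, map_add, tt, tt,
        sub2_evP, sub2_evP, sub2_CX, sub2_X, sub2_X, sub2_CC, e1, e2, map_add, sub2_X,
        sub2_CC]
      have h1 : (C (C z) : Polynomial (Polynomial Ω)) = C (C (ev p M ρ' s H.c u)) +
          C (C (ev p M r s H.d w)) + C (C H.n₄) := by
        rw [← C_add, ← C_add, ← C_add, ← C_add]
        exact congrArg (fun x => C (C x)) H.hz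
      rw [h1]
      ring
  exact RingHom.congr_fun h P

/-- S3.3: the Gauss norm is invariant under a change of coordinates. -/
theorem GB2_tr (h0 : Ctx0 k v) (hM : MS v G M) (H : Chg p G M N y z ρ s u w ρ' r)
    {P : Polynomial (Polynomial Ω)} {lam : ℝ} (hP : GB2 v y z ρ s lam P) :
    GB2 v u w ρ' r lam (H.tr P) := by
  rw [GB2_iff_G2, tt_tr]
  exact G2.sub2 ((G2.evP h0 hM H.ha G2.CX).add (G2.evP h0 hM H.hb G2.X))
    ((G2.evP h0 hM H.hc G2.CX).add (G2.evP h0 hM H.hd G2.X)) (GB2_iff_G2.mp hP)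

theorem GB2_tr_iff (h0 : Ctx0 k v) (hM : MS v G M) (H : Chg p G M N y z ρ s u w ρ' r)
    {P : Polynomial (Polynomial Ω)} {lam : ℝ} :
    GB2 v u w ρ' r lam (H.tr P) ↔ GB2 v y z ρ s lam P := by
  refine ⟨fun h => ?_, fun h => H.GB2_tr h0 hM h⟩
  have h1 := H.symm.GB2_tr h0 hM h
  rwa [H.symm_tr hM] at h1

end Chg

end Pool.Agent.TWM
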