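import Pool.Agent.Lib.TWM.S3b
import Pool.Agent.Lib.TWM.S3e
import Pool.Agent.Lib.TWM.A2
import Pool.Agent.Lib.TWM.Lau
import Pool.Agent.Lib.TWM.LogC
import Pool.Agent.Lib.TWM.D0

/-!
# TANK W, M2: the slope at a jump (S5), everything but the derivatives
-/

set_option autoImplicit false

open Polynomial

namespace Pool.Agent.TWM

open Pool.Agent.H15JM (RVal)
open Pool.Agent.D2 (Ctx0)

universe u

namespace J5

/-! ### Gauss bounds -/

section GB

variable {Ω : Type u} [Field Ω] {v : RVal Ω} {b lam lam' : ℝ} {f g : Polynomial Ω}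

theorem gb_mono (h : GB v b lam f) (hl : lam' ≤ lam) : GB v b lam' f := fun m =>
  (h m).mono (by linarith)

theorem gb_add (hf : GB v b lam f) (hg : GB v b lam g) : GB v b lam (f + g) := fun m => by
  rw [coeff_add]
  exact (hf m).add (hg m)

theorem gb_sub (hf : GB v b lam f) (hg : GB v b lam g) : GB v b lam (f - g) := fun m => by
  rw [coeff_sub]
  exact (hf m).sub (hg m)

theorem gb_zero : GB v b lam (0 : Polynomial Ω) := fun m => by
  rw [coeff_zero]
  exact RVal.Ge.zero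

theorem gb_sum {ι : Type*} {S : Finset ι} {f : ι → Polynomial Ω} (hf : ∀ i ∈ S, GB v b lam (f i)) :
    GB v b lam (∑ i ∈ S, f i) := fun m => by
  rw [finsetSum_coeff]
  exact RVal.Ge.sum (v := v) _ _ fun i hi => hf i hi m

theorem gb_mul (hf : GB v b lam f) (hg : GB v b lam' g) : GB v b (lam + lam') (f * g) := fun m => by
  rw [coeff_mul]
  refine RVal.Ge.sum (v := v) _ _ fun x hx => ?_
  refine ((hf x.1).mul (hg x.2)).mono ?_
  have h1 : x.1 + x.2 = m := Finset.HasAntidiagonal.mem_antidiagonal.1 hx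
  have h2 : (m : ℝ) = x.1 + x.2 := by rw [← h1]; push_cast; ring
  rw [h2]
  linarith

theorem gb_one : GB v b 0 (1 : Polynomial Ω) := fun m => by
  rw [coeff_one]
  split_ifs with h
  · rw [h]
    intro _
    rw [v.map_one]
    simp
  · exact RVal.Ge.zero

theorem gb_pow (hf : GB v b lam f) (n : ℕ) : GB v b (n * lam) (f ^ n) := by
  induction n with
  | zero =>
    rw [pow_zero, Nat.cast_zero, zero_mul]
    exact gb_one
  | succ n ih =>
    rw [pow_succ]
    have h := gb_mul ih hf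
    have e : ((n + 1 : ℕ) : ℝ) * lam = n * lam + lam := by push_cast; ring
    rw [e]
    exact h

theorem coeff_taylor_sum (ψ : Ω) (f : Polynomial Ω) (m : ℕ) :
    (taylor ψ f).coeff m = ∑ n ∈ f.support, ((n.choose m : ℕ) : Ω) * f.coeff n * ψ ^ (n - m) := by
  rw [taylor_coeff, hasseDeriv_apply, Polynomial.sum, eval_finsetSum]
  exact Finset.sum_congr rfl fun n _ => eval_monomial

theorem taylor_coeff_ge' {ψ : Ω} {c : ℝ} {m : ℕ} (hψ : v.Ge b ψ)
    (hf : ∀ n, m ≤ n → v.Ge (c - n * b) (f.coeff n)) : v.Ge (c - m * b) ((taylor ψ f).coeff m) := by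
  rw [coeff_taylor_sum]
  refine RVal.Ge.sum (v := v) _ _ fun n _ => ?_
  by_cases hn : m ≤ n
  · have h1 := ((ge_natCast v (n.choose m)).mul (hf n hn)).mul (ge_pow hψ (n - m))
    refine h1.mono ?_
    rw [Nat.cast_sub hn]
    linarith
  · rw [Nat.choose_eq_zero_of_lt (not_le.1 hn), Nat.cast_zero, zero_mul, zero_mul]
    exact RVal.Ge.zero

theorem gb_taylor {ψ : Ω} (hψ : v.Ge b ψ) (hf : GB v b lam f) : GB v b lam (taylor ψ f) := fun _ =>
  taylor_coeff_ge' hψ fun n _ => hf n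

theorem gb_taylor_iff {ψ : Ω} (hψ : v.Ge b ψ) : GB v b lam (taylor ψ f) ↔ GB v b lam f := by
  refine ⟨fun h => ?_, gb_taylor hψ⟩
  have h1 := gb_taylor (ψ := -ψ) (by
    intro h0
    have h2 : ψ ≠ 0 := fun h3 => h0 (by rw [h3, neg_zero])
    rw [v.map_neg _ h2]
    exact hψ h2) h
  rwa [taylor_taylor, neg_add_cancel, taylor_zero] at h1

/-- Polynomials of bounded degree with small coefficients. -/
theorem exists_small (D : ℕ) (z : Ω) (b lam : ℝ) : ∃ c : ℝ, ∀ f : Polynomial Ω, f.natDegree ≤ D →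
    (∀ m, v.Ge c (f.coeff m)) → GB v b lam (taylor z f) := by
  obtain ⟨β, hβ⟩ : ∃ β : ℝ, v.Ge β z ∧ β ≤ 0 := by
    refine ⟨min (v z) 0, fun _ => min_le_left _ _, min_le_right _ _⟩
  refine ⟨|lam| + D * |b| + D * |β|, fun f hf hc m => ?_⟩
  by_cases hm : D < m
  · rw [coeff_eq_zero_of_natDegree_lt (by rw [natDegree_taylor]; omega)]
    exact RVal.Ge.zero
  rw [not_lt] at hm
  rw [coeff_taylor_sum]
  refine RVal.Ge.sum (v := v) _ _ fun n hn => ?_
  have h1 := ((ge_natCast v (n.choose m)).mul (hc n)).mul (ge_pow hβ.1 (n - m))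
  refine h1.mono ?_
  have h2 : lam ≤ |lam| := le_abs_self _
  have h3 : -(m * b) ≤ D * |b| := by
    have h4 : (m : ℝ) ≤ D := by exact_mod_cast hm
    have h5 : -b ≤ |b| := neg_le_abs b
    have h6 : (0 : ℝ) ≤ m := Nat.cast_nonneg _
    have h7 := abs_nonneg b
    nlinarith
  have h4 : -(D * |β|) ≤ ((n - m : ℕ) : ℝ) * β := by
    have h5 : ((n - m : ℕ) : ℝ) ≤ D := by
      have : n ≤ D := (le_natDegree_of_mem_supp n hn).trans hf
      exact_mod_cast (Nat.sub_le n m).trans this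
    have h6 : (0 : ℝ) ≤ ((n - m : ℕ) : ℝ) := Nat.cast_nonneg _
    have h7 : -|β| ≤ β := neg_abs_le β
    have h8 := abs_nonneg β
    nlinarith
  linarith

end GB

/-! ### Polynomials in two variables -/

section PIIs

variable {k Ω : Type u} [Field k] [Field Ω] [Algebra k Ω] {A A' : IntermediateField k Ω}
  {P Q : Polynomial (Polynomial Ω)}

theorem pii_mono (h : A ≤ A') (hP : PII A P) : PII A' P := fun j => PI_mono h (hP j)

theorem pii_add (hP : PII A P) (hQ : PII A Q) : PII A (P + Q) := fun j => by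
  rw [coeff_add]; exact add_mem (hP j) (hQ j)

theorem pii_sub (hP : PII A P) (hQ : PII A Q) : PII A (P - Q) := fun j => by
  rw [coeff_sub]; exact sub_mem (hP j) (hQ j)

theorem pii_mul (hP : PII A P) (hQ : PII A Q) : PII A (P * Q) := fun j => by
  rw [coeff_mul]; exact sum_mem fun x _ => mul_mem (hP _) (hQ _)

theorem pii_C {f : Polynomial Ω} (hf : f ∈ PI A) : PII A (C f) := fun j => by
  rw [coeff_C]
  split_ifs
  exacts [hf, zero_mem _]

theorem pii_one : PII A (1 : Polynomial (Polynomial Ω)) := by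
  rw [← map_one C]
  exact pii_C (one_mem _)

theorem pii_pow (hP : PII A P) (n : ℕ) : PII A (P ^ n) := by
  induction n with
  | zero => rw [pow_zero]; exact pii_one
  | succ n ih => rw [pow_succ]; exact pii_mul ih hP

theorem pii_zero : PII A (0 : Polynomial (Polynomial Ω)) := fun j => by
  rw [coeff_zero]; exact zero_mem _

theorem pii_sum {ι : Type*} {S : Finset ι} {P : ι → Polynomial (Polynomial Ω)}
    (hP : ∀ i ∈ S, PII A (P i)) : PII A (∑ i ∈ S, P i) := fun j => by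
  rw [finsetSum_coeff]; exact sum_mem fun i hi => hP i hi j

theorem pii_map {F : IntermediateField k Ω} (h : A ≤ F) {y : Ω} (hy : y ∈ F) (hP : PII A P) :
    P.map (evalRingHom y) ∈ PI F := fun j => by
  rw [coeff_map, coe_evalRingHom]
  exact eval_mem (PI_mono h (hP j)) hy

end PIIs

/-- The coefficients of a `p`-th power. -/
theorem coeff_pow_p {Ω : Type u} [Field Ω] (p : ℕ) [Fact p.Prime] [CharP Ω p] (f : Polynomial Ω)
    (n : ℕ) : (f ^ p).coeff n = if p ∣ n then f.coeff (n / p) ^ p else 0 := by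
  rw [← map_frobenius_expand p, coeff_map, coeff_expand (Fact.out : p.Prime).pos]
  split_ifs
  · rfl
  · rw [map_zero]

/-! ### The transfer -/

section Transfer

variable {k Ω : Type u} [Field k] [Field Ω] [Algebra k Ω] {v : RVal Ω}
  {N : IntermediateField k Ω} {y z u w : Ω} {ρ s ρ' r : ℝ}
  {p : ℕ} [Fact p.Prime] [CharP k p] [CharP Ω p] {G : AddSubgroup ℝ} {M : ℝ → Ω} {lam : ℝ}

theorem transfer [IsAlgClosed Ω] (h0 : Ctx0 k v) (hM : MS v G M) (hMN : ∀ g ∈ G, M g ∈ N)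
    (hy : TL v N y ρ) (hz : Lim v N s z) (hu : TL v N u ρ') (hw : Lim v N r w)
    (H : Chg p G M N y z ρ s u w ρ' r) {P : Polynomial (Polynomial Ω)} (hP : PII N P)
    {g : Polynomial Ω} (hg : g ∈ PI (cadj v N y))
    (hgb : GB v s lam (taylor z (P.map (evalRingHom y) - g ^ p))) :
    ∃ Q : Polynomial (Polynomial Ω), PII N Q ∧
      GB v r lam (taylor w ((H.tr P).map (evalRingHom u) - Q.map (evalRingHom u) ^ p)) := by
  have hp0 : (0 : ℝ) < p := by exact_mod_cast (Fact.out : p.Prime).pos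
  obtain ⟨c, hc⟩ := exists_small (v := v) g.natDegree z s (lam / p)
  obtain ⟨Q, hQ, hd, hQc⟩ := exists_PII_near hy hg c
  have h1 : GB v s lam (taylor z ((P - Q ^ p).map (evalRingHom y))) := by
    have h2 : taylor z ((P - Q ^ p).map (evalRingHom y)) =
        taylor z (P.map (evalRingHom y) - g ^ p) + taylor z (g - Q.map (evalRingHom y)) ^ p := by
      have : CharP (Polynomial Ω) p := inferInstance
      rw [← taylor_pow, ← map_add, sub_pow_char, Polynomial.map_sub, Polynomial.map_pow,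
        sub_add_sub_cancel]
    rw [h2]
    refine gb_add hgb ?_
    have h3 := gb_pow (hc _ ((natDegree_sub_le _ _).trans (max_le le_rfl
      ((natDegree_map_le).trans hd))) hQc) p
    rwa [mul_div_cancel₀ _ hp0.ne'] at h3
  have hPQ : PII N (P - Q ^ p) := pii_sub hP (pii_pow hQ p)
  have h4 := (GB2_iff hu hw (H.PII_tr hMN hPQ)).1 (H.GB2_tr h0 hM ((GB2_iff hy hz hPQ).2 h1))
  refine ⟨H.tr Q, H.PII_tr hMN hQ, ?_⟩
  rwa [map_sub, map_pow, Polynomial.map_sub, Polynomial.map_pow] at h4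

end Transfer

/-! ### Case b: classes of exponents -/

section CaseB

variable {k Ω : Type u} [Field k] [Field Ω] [Algebra k Ω] {v : RVal Ω}
  {N B : IntermediateField k Ω} {y z u w : Ω} {ρ s ρ' r : ℝ}
  {p : ℕ} [Fact p.Prime] [CharP k p] [CharP Ω p] {G G₁ : AddSubgroup ℝ} {T : Finset ℝ}
  {M : ℝ → Ω} {κ₁ e e₃ : ℝ} {S : ℕ} {A : Polynomial (Polynomial Ω)}

theorem sym_CC (H : Chg p G M N y z ρ s u w ρ' r) (c : Ω) : H.tr (C (C c)) = C (C c) := by
  rw [Chg.tr, sub2_C, eval₂_C]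
  rfl

theorem coeff_taylor_pow_p (x : Ω) (f : Polynomial Ω) (j : ℕ) :
    (taylor x (f ^ p)).coeff (p * j) = (taylor x f).coeff j ^ p := by
  rw [taylor_pow, coeff_pow_p p, if_pos (dvd_mul_right p j),
    Nat.mul_div_cancel_left j (Fact.out : p.Prime).pos]

/-- Case b. -/
theorem jump_b [IsAlgClosed Ω] (h0 : Ctx0 k v) (hc : Cls v M G G₁ T B)
    (hMN : ∀ g ∈ G, M g ∈ N) (hNB : N ≤ B) (hyB : y ∈ B) (hzB : z ∈ B) (huB : u ∈ B)
    (hFB' : cadj v N u ≤ B) (hFB : cadj v N y ≤ B)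
    (hy : TL v N y ρ) (hz : Lim v N s z) (hu : TL v N u ρ') (hw : Gt v r w)
    (H : Chg p G M N y z ρ s u w ρ' r) (hβ : 1 ≤ H.β.natDegree) (hA : PII N A)
    (hCL : ∀ f ∈ PI N, ∀ lam : ℝ, v.Ge (lam - ρ') ((derivative f).eval u) → ∀ ε : ℝ, 0 < ε →
      ∃ b : ℝ → Polynomial Ω, (∀ t, b t ∈ PI N) ∧
        v.Ge (lam - ε) (f.eval u - (∑ t ∈ T, M t * (b t).eval u) ^ p))
    (hfull : ∀ e : ℝ, 0 < e → ∀ Q : Polynomial (Polynomial Ω), PII N Q →
      ¬ GB v r (κ₁ + e) ((H.tr A).map (evalRingHom u) - Q.map (evalRingHom u) ^ p))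
    (he : 0 < e) {g₀ : Polynomial Ω} (hg₀ : g₀ ∈ PI (cadj v N y))
    (hQ2 : ∀ l : ℕ, S < l →
      v.Ge (κ₁ + e - l * s) ((taylor z (A.map (evalRingHom y) - g₀ ^ p)).coeff l))
    (hS : 1 ≤ S) {g' : Polynomial Ω} (hg' : g' ∈ PI (cadj v N u))
    (hlow : ∀ m : ℕ, m ≤ S - 1 →
      v.Ge (κ₁ + e - m * r) (((H.tr A).map (evalRingHom u) - g' ^ p).coeff m))
    (he₃ : 0 < e₃) (hd1 : GB v r (κ₁ + e₃ - ρ') ((dY (H.tr A)).map (evalRingHom u)))
    (hd2 : GB v r (κ₁ + e₃ - r) ((derivative (H.tr A)).map (evalRingHom u))) : False := by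
  classical
  have hp : p.Prime := Fact.out
  have hp0 : (0 : ℝ) < p := by exact_mod_cast hp.pos
  set D := (H.tr A).natDegree with hD
  have hMG₁ := hc.ms
  have hMG : MS v G M := ⟨fun g hg => hMG₁.ne g (hc.reps.le hg),
    fun g hg => hMG₁.val g (hc.reps.le hg),
    fun g hg g' hg' => hMG₁.mul g (hc.reps.le hg) g' (hc.reps.le hg')⟩
  have hT : ∀ t ∈ T, M t ≠ 0 ∧ v (M t) = t := fun t ht =>
    ⟨hMG₁.ne t (hc.reps.mem t ht), hMG₁.val t (hc.reps.mem t ht)⟩
  have htrA : PII N (H.tr A) := H.PII_tr hMN hA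
  -- the `p`-th roots modulo `N`
  have hex : ∀ j : ℕ, ∃ b : ℝ → Polynomial Ω, (∀ t, b t ∈ PI N) ∧
      v.Ge (κ₁ + e₃ / 2 - (p * j : ℕ) * r)
        (((H.tr A).coeff (p * j)).eval u - (∑ t ∈ T, M t * (b t).eval u) ^ p) := by
    intro j
    have h1 := hd1 (p * j)
    rw [coeff_map, dY_coeff, coe_evalRingHom] at h1
    obtain ⟨b, hb, h2⟩ := hCL _ (htrA (p * j)) (κ₁ + e₃ - (p * j : ℕ) * r)
      (h1.mono (by linarith)) (e₃ / 2) (by linarith)
    exact ⟨b, hb, h2.mono (by linarith)⟩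
  choose b hb hbA using hex
  set h : ℝ → Polynomial (Polynomial Ω) := fun t =>
    ∑ j ∈ Finset.range (D + 1), C (b j t) * X ^ j with hh
  have hhc : ∀ t j, (h t).coeff j = if j < D + 1 then b j t else 0 := by
    intro t j
    rw [hh]
    simp only [finsetSum_coeff, coeff_C_mul_X_pow]
    rw [Finset.sum_ite_eq]
    simp only [Finset.mem_range]
  have hhN : ∀ t, PII N (h t) := by
    intro t j
    rw [hhc]
    split_ifs
    exacts [hb j t, zero_mem _]
  set x : ℝ → ℕ → Ω := fun t j => ((h t).coeff j).eval u with hx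
  have hxB : ∀ t j, x t j ∈ B := fun t j => eval_mem (PI_mono hNB (hhN t j)) huB
  have hAx : ∀ j : ℕ, v.Ge (κ₁ + e₃ / 2 - (p * j : ℕ) * r)
      (((H.tr A).coeff (p * j)).eval u - (∑ t ∈ T, M t * x t j) ^ p) := by
    intro j
    by_cases hj : j < D + 1
    · have h1 : ∀ t, x t j = (b j t).eval u := fun t => by rw [hx]; simp only [hhc, if_pos hj]
      rw [Finset.sum_congr rfl fun t _ => by rw [h1 t]]
      exact hbA j
    · have h1 : ∀ t, x t j = 0 := fun t => by rw [hx]; simp only [hhc, if_neg hj, eval_zero]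
      have h2 : (H.tr A).coeff (p * j) = 0 := by
        refine coeff_eq_zero_of_natDegree_lt ?_
        have h3 : j ≤ p * j := Nat.le_mul_of_pos_left j hp.pos
        omega
      rw [Finset.sum_eq_zero fun t _ => by rw [h1 t, mul_zero], h2, eval_zero,
        zero_pow hp.ne_zero, sub_zero]
      exact RVal.Ge.zero
  -- the sum `∑ M t h t`
  set SS : Polynomial (Polynomial Ω) := ∑ t ∈ T, C (C (M t)) * h t with hSS
  have hSu : SS.map (evalRingHom u) = ∑ t ∈ T, C (M t) * (h t).map (evalRingHom u) := by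
    rw [hSS, Polynomial.map_sum]
    refine Finset.sum_congr rfl fun t _ => ?_
    rw [Polynomial.map_mul, map_C, coe_evalRingHom, eval_C]
  have hSc : ∀ j, (SS.map (evalRingHom u)).coeff j = ∑ t ∈ T, M t * x t j := by
    intro j
    rw [hSu, finsetSum_coeff]
    refine Finset.sum_congr rfl fun t _ => ?_
    rw [coeff_C_mul, coeff_map, coe_evalRingHom]
  have hbig : GB v r (κ₁ + e₃ / 2) ((H.tr A).map (evalRingHom u) -
      SS.map (evalRingHom u) ^ p) := by
    intro m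
    rw [coeff_sub, coeff_pow_p p, coeff_map, coe_evalRingHom]
    by_cases hm : p ∣ m
    · obtain ⟨j, rfl⟩ := hm
      rw [if_pos (dvd_mul_right p j), Nat.mul_div_cancel_left j hp.pos, hSc]
      exact hAx j
    · rw [if_neg hm, sub_zero]
      obtain ⟨n, rfl⟩ : ∃ n, m = n + 1 := Nat.exists_eq_succ_of_ne_zero (by
        rintro rfl
        exact hm (dvd_zero p))
      have h1 := hd2 n
      rw [coeff_map, coeff_derivative, coe_evalRingHom, eval_mul] at h1
      obtain ⟨h2, h3⟩ := val_natCast (Ω := Ω) (v := v) p hm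
      have h4 : ((n : Polynomial Ω) + 1).eval u = ((n + 1 : ℕ) : Ω) := by
        rw [eval_add, eval_natCast, eval_one]
        push_cast
        rfl
      rw [h4] at h1
      intro h5
      have h6 := h1 (mul_ne_zero h5 h2)
      rw [v.map_mul h5 h2, h3] at h6
      push_cast
      linarith
  -- the Gauss values of the classes `t ≠ 0`
  set I : Finset (ℝ × ℕ) := ((T.erase 0) ×ˢ Finset.range (D + 1)).filter
    (fun a => x a.1 a.2 ≠ 0) with hI
  have hxI : ∀ t ∈ T, t ≠ 0 → ∀ j, x t j ≠ 0 → (t, j) ∈ I := by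
    intro t ht ht0 j hxj
    have hj : j < D + 1 := by
      by_contra hj
      apply hxj
      rw [hx]
      simp only [hhc, if_neg hj, eval_zero]
    rw [hI, Finset.mem_filter, Finset.mem_product]
    exact ⟨⟨Finset.mem_erase.2 ⟨ht0, ht⟩, Finset.mem_range.2 hj⟩, hxj⟩
  set val : ℝ × ℕ → ℝ := fun a => p * (a.1 + v (x a.1 a.2)) + (p * a.2 : ℕ) * r with hval
  have hzero : ∀ e₄ : ℝ, 0 < e₄ → e₄ ≤ e₃ / 2 → ∃ a ∈ I, val a < κ₁ + e₄ := by
    intro e₄ he₄ he₄'
    by_contra hcon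
    push Not at hcon
    refine hfull e₄ he₄ (h 0) (hhN 0) ?_
    have h1 : (H.tr A).map (evalRingHom u) - (h 0).map (evalRingHom u) ^ p =
        ((H.tr A).map (evalRingHom u) - SS.map (evalRingHom u) ^ p) +
          (∑ t ∈ T.erase 0, C (M t) * (h t).map (evalRingHom u)) ^ p := by
      have : CharP (Polynomial Ω) p := inferInstance
      rw [hSu, ← Finset.add_sum_erase T _ hc.reps.zero, add_pow_char, hMG₁.zero, map_one, one_mul]
      ring
    rw [h1]
    refine gb_add (gb_mono hbig (by linarith)) ?_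
    have h2 : GB v r ((κ₁ + e₄) / p)
        (∑ t ∈ T.erase 0, C (M t) * (h t).map (evalRingHom u)) := by
      refine gb_sum fun t ht => ?_
      intro j
      obtain ⟨ht0, ht1⟩ := Finset.mem_erase.1 ht
      rw [coeff_C_mul, coeff_map, coe_evalRingHom]
      intro h3
      have h4 : x t j ≠ 0 := right_ne_zero_of_mul h3
      obtain ⟨h5, h6⟩ := hT t ht1
      have h7 := hcon (t, j) (hxI t ht1 ht0 j h4)
      have h8 : v (M t * ((h t).coeff j).eval u) = t + v (x t j) := by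
        rw [v.map_mul h5 h4, h6]
      rw [h8]
      have h9 : κ₁ + e₄ ≤ p * (t + v (x t j)) + (p * j : ℕ) * r := h7
      push_cast at h9
      rw [sub_le_iff_le_add, div_le_iff₀ hp0]
      nlinarith
    have h3 := gb_pow h2 p
    rwa [mul_div_cancel₀ _ hp0.ne'] at h3
  have hIne : I.Nonempty := by
    obtain ⟨a, ha, -⟩ := hzero (e₃ / 2) (by linarith) le_rfl
    exact ⟨a, ha⟩
  obtain ⟨a₁, ha₁, hmin⟩ := I.exists_min_image val hIne
  set ks := val a₁ with hks
  have hks1 : ks ≤ κ₁ := by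
    by_contra hcon
    rw [not_le] at hcon
    obtain ⟨a, ha, h1⟩ := hzero (min (e₃ / 2) (ks - κ₁)) (lt_min (by linarith) (by linarith))
      (min_le_left _ _)
    have h2 := hmin a ha
    have h3 := min_le_right (e₃ / 2) (ks - κ₁)
    linarith
  -- the class and the top index
  set t := a₁.1 with ht
  have ha₁' := ha₁
  rw [hI, Finset.mem_filter, Finset.mem_product] at ha₁'
  obtain ⟨ht0, htT⟩ := Finset.mem_erase.1 ha₁'.1.1
  obtain ⟨htne, htv⟩ := hT t htT
  set J : Finset ℕ := (Finset.range (D + 1)).filter (fun j => x t j ≠ 0 ∧ val (t, j) = ks) with hJ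
  have hJne : J.Nonempty := ⟨a₁.2, by
    rw [hJ, Finset.mem_filter]
    exact ⟨ha₁'.1.2, ha₁'.2, rfl⟩⟩
  set j₀ := J.max' hJne with hj₀
  have hj₀J := J.max'_mem hJne
  rw [← hj₀] at hj₀J
  have hj₀' := hj₀J
  rw [hJ, Finset.mem_filter] at hj₀'
  obtain ⟨hj₀D, hxj₀, hvj₀⟩ := hj₀'
  have hmax : ∀ j, j₀ < j → x t j ≠ 0 → ks < val (t, j) := by
    intro j hj hxj
    refine lt_of_le_of_ne (hmin (t, j) (hxI t htT ht0 j hxj)) fun h1 => ?_
    have h2 : j ∈ J := by
      rw [hJ, Finset.mem_filter]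
      have h3 := hxI t htT ht0 j hxj
      rw [hI, Finset.mem_filter, Finset.mem_product] at h3
      exact ⟨h3.1.2, hxj, h1.symm⟩
    exact absurd (J.le_max' j h2) (by rw [← hj₀]; omega)
  set e₅ := min e (e₃ / 2) with he₅
  have he₅0 : 0 < e₅ := lt_min he (by linarith)
  have he₅1 : e₅ ≤ e := min_le_left _ _
  have he₅2 : e₅ ≤ e₃ / 2 := min_le_right _ _
  -- the index `p j₀` is at least `S`
  have hS2 : S ≤ p * j₀ := by
    by_contra hcon
    rw [not_le] at hcon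
    have h1 := hlow (p * j₀) (by omega)
    rw [coeff_sub, coeff_pow_p p, if_pos (dvd_mul_right p j₀), Nat.mul_div_cancel_left j₀ hp.pos,
      coeff_map, coe_evalRingHom] at h1
    have h2 : v.Ge (κ₁ + e₅ - (p * j₀ : ℕ) * r)
        ((∑ t ∈ T, M t * x t j₀ - g'.coeff j₀) ^ p) := by
      rw [sub_pow_char]
      have h3 := (h1.mono (c' := κ₁ + e₅ - (p * j₀ : ℕ) * r) (by linarith)).sub
        ((hAx j₀).mono (c' := κ₁ + e₅ - (p * j₀ : ℕ) * r) (by linarith))
      rwa [show ((H.tr A).coeff (p * j₀)).eval u - g'.coeff j₀ ^ p -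
        (((H.tr A).coeff (p * j₀)).eval u - (∑ t ∈ T, M t * x t j₀) ^ p) =
          (∑ t ∈ T, M t * x t j₀) ^ p - g'.coeff j₀ ^ p by ring] at h3
    have h3 : v.Ge ((κ₁ + e₅) / p - j₀ * r) (∑ t ∈ T, M t * x t j₀ - g'.coeff j₀) := by
      refine ge_of_pow (p := p) (h2.mono (le_of_eq ?_))
      push_cast
      field_simp
    have h4 : ∑ t ∈ T, M t * x t j₀ - g'.coeff j₀ =
        ∑ t ∈ T, M t * (x t j₀ - if t = 0 then g'.coeff j₀ else 0) := by
      rw [← Cls.sum_sub (M := M) (T := T), hc.single]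
    rw [h4, hc.ge_iff (b := fun t => x t j₀ - if t = 0 then g'.coeff j₀ else 0)
      (fun t _ => sub_mem (hxB t j₀) (Cls.single_mem _ (hFB' (hg' j₀)) t))] at h3
    have h5 := h3 t htT
    rw [if_neg ht0, sub_zero] at h5
    have h6 := h5 hxj₀
    have h7 : p * (t + v (x t j₀)) + (p * j₀ : ℕ) * r = ks := hvj₀
    push_cast at h7
    have h8 : p * ((κ₁ + e₅) / p - j₀ * r - t) ≤ p * v (x t j₀) :=
      mul_le_mul_of_nonneg_left h6 hp0.le
    have h9 : p * ((κ₁ + e₅) / p) = κ₁ + e₅ := mul_div_cancel₀ _ hp0.ne'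
    nlinarith
  -- the polynomials in the old coordinates
  set hz' : ℝ → Polynomial (Polynomial Ω) := fun t => H.symm.tr (h t) with hhz
  have hz'N : ∀ t, PII N (hz' t) := fun t => H.symm.PII_tr hMN (hhN t)
  set c := p ^ H.β.natDegree with hcdef
  have hc2 : 2 ≤ c := by
    rw [hcdef]
    calc 2 ≤ p := hp.two_le
      _ = p ^ 1 := (pow_one p).symm
      _ ≤ p ^ H.β.natDegree := Nat.pow_le_pow_right hp.pos hβ
  set X' : ℝ → Ω := fun t => (taylor z ((hz' t).map (evalRingHom y))).coeff (j₀ * c) with hX'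
  have hX'B : ∀ t, X' t ∈ B := fun t => taylor_mem_PI (pii_map hNB hyB (hz'N t)) hzB _
  have htop := H.top h0 hMG hMN hu hw (P := hz' t) (hz'N t) (m₀ := j₀) (lam := ks / p - t)
    (by
      intro m
      rw [hhz]
      dsimp only
      rw [H.tr_symm hMG]
      intro h1
      have h2 := hmin (t, m) (hxI t htT ht0 m h1)
      have h3 : ks ≤ p * (t + v (x t m)) + (p * m : ℕ) * r := h2
      push_cast at h3
      have h4 : ks / p ≤ t + v (x t m) + m * r := by
        rw [div_le_iff₀ hp0]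
        linarith
      change _ ≤ v (x t m)
      linarith)
    (by
      intro m hm
      rw [hhz]
      dsimp only
      rw [H.tr_symm hMG]
      intro h1
      have h2 := hmax m hm h1
      have h3 : ks < p * (t + v (x t m)) + (p * m : ℕ) * r := h2
      push_cast at h3
      have h4 : ks / p < t + v (x t m) + m * r := by
        rw [div_lt_iff₀ hp0]
        linarith
      change _ < v (x t m)
      linarith)
    (by
      rw [hhz]
      dsimp only
      rw [H.tr_symm hMG]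
      refine ⟨hxj₀, ?_⟩
      have h3 : p * (t + v (x t j₀)) + (p * j₀ : ℕ) * r = ks := hvj₀
      push_cast at h3
      change v (x t j₀) = _
      rw [← h3]
      field_simp
      ring)
    (fun h1 => by rw [h1, natDegree_zero] at hβ; omega)
  obtain ⟨hX0, hXv⟩ := htop
  -- the coefficient of index `p j₀ c`
  have hN₁B : LE M G₁ N ≤ LE M G₁ B := LE_mono hNB
  have hcN : Cls v M G G₁ T N := hc.mono hNB hMN
  have hN₁a : LE M G₁ N ≤ algc N := hcN.le_algc
  have hP1 : PII (LE M G₁ N) (H.tr A - SS ^ p) := by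
    refine pii_sub (pii_mono le_LE htrA) (pii_pow (pii_sum fun t ht => pii_mul
      (pii_C (C_mem_PI (mon_mem_LE (hc.reps.mem t ht)))) (pii_mono le_LE (hhN t))) p)
  have hw0 : v.Ge r w := hw.ge
  have hlimw : Lim v (LE M G₁ N) r w := fun ε hε => ⟨0, zero_mem _, by
    rw [sub_zero]; exact hw0.mono (by linarith)⟩
  have hG2 : GB2 v u w ρ' r (κ₁ + e₃ / 2) (H.tr A - SS ^ p) := by
    rw [GB2_iff (hu.mono le_LE hN₁a) hlimw hP1, gb_taylor_iff hw0, Polynomial.map_sub,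
      Polynomial.map_pow]
    exact hbig
  have hG3 := H.symm.GB2_tr h0 hMG hG2
  have hsym : H.symm.tr (H.tr A - SS ^ p) = A - (∑ t ∈ T, C (C (M t)) * hz' t) ^ p := by
    rw [map_sub, map_pow, H.symm_tr hMG, hSS, map_sum]
    congr 2
    refine Finset.sum_congr rfl fun t _ => ?_
    rw [map_mul, sym_CC]
  rw [hsym] at hG3
  have hP2 : PII (LE M G₁ N) (A - (∑ t ∈ T, C (C (M t)) * hz' t) ^ p) := by
    refine pii_sub (pii_mono le_LE hA) (pii_pow (pii_sum fun t ht => pii_mul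
      (pii_C (C_mem_PI (mon_mem_LE (hc.reps.mem t ht)))) (pii_mono le_LE (hz'N t))) p)
  rw [GB2_iff (hy.mono le_LE hN₁a) (hz.mono le_LE) hP2] at hG3
  have h1 := hG3 (p * (j₀ * c))
  rw [Polynomial.map_sub, Polynomial.map_pow, map_sub, coeff_sub, coeff_taylor_pow_p] at h1
  have h2 : (taylor z ((∑ t ∈ T, C (C (M t)) * hz' t).map (evalRingHom y))).coeff (j₀ * c) =
      ∑ t ∈ T, M t * X' t := by
    rw [Polynomial.map_sum, map_sum, finsetSum_coeff]
    refine Finset.sum_congr rfl fun t _ => ?_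
    rw [Polynomial.map_mul, map_C, coe_evalRingHom, eval_C, taylor_mul, taylor_C, coeff_C_mul]
  rw [h2] at h1
  have hl : S < p * (j₀ * c) := by
    have h3 : p * j₀ * 2 ≤ p * j₀ * c := Nat.mul_le_mul_left _ hc2
    rw [mul_assoc] at h3
    rw [← mul_assoc] at h3 ⊢
    omega
  have h3 := hQ2 _ hl
  rw [map_sub, coeff_sub, coeff_taylor_pow_p] at h3
  set gg := (taylor z g₀).coeff (j₀ * c) with hgg
  have hggB : gg ∈ B := taylor_mem_PI (PI_mono hFB hg₀) hzB _
  have h4 : v.Ge (κ₁ + e₅ - (p * (j₀ * c) : ℕ) * s) ((∑ t ∈ T, M t * X' t - gg) ^ p) := by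
    rw [sub_pow_char]
    have h5 := (h3.mono (c' := κ₁ + e₅ - (p * (j₀ * c) : ℕ) * s) (by linarith)).sub
      (h1.mono (c' := κ₁ + e₅ - (p * (j₀ * c) : ℕ) * s) (by linarith))
    rwa [sub_sub_sub_cancel_left] at h5
  have h5 : v.Ge ((κ₁ + e₅) / p - (j₀ * c : ℕ) * s) (∑ t ∈ T, M t * X' t - gg) := by
    refine ge_of_pow (p := p) (h4.mono (le_of_eq ?_))
    push_cast
    field_simp
  have h6 : ∑ t ∈ T, M t * X' t - gg =
      ∑ t ∈ T, M t * (X' t - if t = 0 then gg else 0) := by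
    rw [← Cls.sum_sub (M := M) (T := T), hc.single]
  rw [h6, hc.ge_iff (b := fun t => X' t - if t = 0 then gg else 0)
    (fun t _ => sub_mem (hX'B t) (Cls.single_mem _ hggB t))] at h5
  have h7 := h5 t htT
  rw [if_neg ht0, sub_zero] at h7
  have h8 := h7 hX0
  have h9 : v (X' t) = ks / p - t - (j₀ * c : ℕ) * s := hXv
  rw [h9] at h8
  have h10 : (κ₁ + e₅) / p ≤ ks / p := by linarith
  rw [div_le_div_iff_of_pos_right hp0] at h10
  linarith

/-- The first property of the slope. -/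
theorem jump_lo [IsAlgClosed Ω] (h0 : Ctx0 k v) (hM : MS v G M) (hMN : ∀ g ∈ G, M g ∈ N)
    (hy : TL v N y ρ) (hz : Lim v N s z) (hu : TL v N u ρ') (hw : Gt v r w)
    (H : Chg p G M N y z ρ s u w ρ' r) (hA : PII N A)
    (hQ1 : ∀ ε : ℝ, 0 < ε → ∃ g ∈ PI (cadj v N y), GB v s (κ₁ - ε)
      (taylor z (A.map (evalRingHom y) - g ^ p))) (ε : ℝ) (hε : 0 < ε) :
    ∃ g ∈ PI (cadj v N u), GB v r (κ₁ - ε) ((H.tr A).map (evalRingHom u) - g ^ p) := by
  obtain ⟨g, hg, h1⟩ := hQ1 ε hε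
  have hw0 : v.Ge r w := hw.ge
  have hwl : Lim v N r w := fun η hη => ⟨0, zero_mem _, by
    rw [sub_zero]; exact hw0.mono (by linarith)⟩
  obtain ⟨Q, hQ, h2⟩ := transfer h0 hM hMN hy hz hu hwl H hA hg h1
  exact ⟨_, pii_map (le_cadj _ _ _) (self_mem_cadj _ _ _) hQ, (gb_taylor_iff hw0).1 h2⟩

/-- The Gauss value is not bigger. -/
theorem jump_full [IsAlgClosed Ω] (h0 : Ctx0 k v) (hM : MS v G M) (hMN : ∀ g ∈ G, M g ∈ N)
    (hy : TL v N y ρ) (hz : Lim v N s z) (hu : TL v N u ρ') (hw : Gt v r w)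
    (H : Chg p G M N y z ρ s u w ρ' r) (hA : PII N A)
    (hQ3 : ∀ e : ℝ, 0 < e → ∀ g ∈ PI (cadj v N y), ¬ GB v s (κ₁ + e)
      (taylor z (A.map (evalRingHom y) - g ^ p))) (e : ℝ) (he : 0 < e) (g : Polynomial Ω)
    (hg : g ∈ PI (cadj v N u)) :
    ¬ GB v r (κ₁ + e) ((H.tr A).map (evalRingHom u) - g ^ p) := by
  intro h1
  have hw0 : v.Ge r w := hw.ge
  have hwl : Lim v N r w := fun η hη => ⟨0, zero_mem _, by
    rw [sub_zero]; exact hw0.mono (by linarith)⟩
  obtain ⟨Q, hQ, h2⟩ := transfer h0 hM hMN hu hwl hy hz H.symm (H.PII_tr hMN hA) hg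
    ((gb_taylor_iff hw0).2 h1)
  rw [H.symm_tr hM] at h2
  exact hQ3 e he _ (pii_map (le_cadj _ _ _) (self_mem_cadj _ _ _) hQ) h2

/-- **Row S5**, from the derivatives. -/
theorem jump_slope_of [IsAlgClosed Ω] (h0 : Ctx0 k v) (hc : Cls v M G G₁ T B)
    (hMN : ∀ g ∈ G, M g ∈ N) (hNB : N ≤ B) (hyB : y ∈ B) (hzB : z ∈ B) (huB : u ∈ B)
    (hFB' : cadj v N u ≤ B) (hFB : cadj v N y ≤ B)
    (hy : TL v N y ρ) (hz : Lim v N s z) (hu : TL v N u ρ') (hw : Gt v r w)
    (H : Chg p G M N y z ρ s u w ρ' r) (hβ : 1 ≤ H.β.natDegree) (hA : PII N A)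
    (hCL : ∀ f ∈ PI N, ∀ lam : ℝ, v.Ge (lam - ρ') ((derivative f).eval u) → ∀ ε : ℝ, 0 < ε →
      ∃ b : ℝ → Polynomial Ω, (∀ t, b t ∈ PI N) ∧
        v.Ge (lam - ε) (f.eval u - (∑ t ∈ T, M t * (b t).eval u) ^ p))
    (hQ1 : ∀ ε : ℝ, 0 < ε → ∃ g ∈ PI (cadj v N y), GB v s (κ₁ - ε)
      (taylor z (A.map (evalRingHom y) - g ^ p)))
    (hQ3 : ∀ e : ℝ, 0 < e → ∀ g ∈ PI (cadj v N y), ¬ GB v s (κ₁ + e)
      (taylor z (A.map (evalRingHom y) - g ^ p)))
    (hQ2 : ∃ e : ℝ, 0 < e ∧ ∃ g ∈ PI (cadj v N y), ∀ l : ℕ, S < l →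
      v.Ge (κ₁ + e - l * s) ((taylor z (A.map (evalRingHom y) - g ^ p)).coeff l))
    (hS : 2 ≤ S)
    (hder : ∀ e : ℝ, 0 < e → ∀ g ∈ PI (cadj v N u), (∀ m : ℕ, m ≤ S - 1 →
      v.Ge (κ₁ + e - m * r) (((H.tr A).map (evalRingHom u) - g ^ p).coeff m)) →
      ∃ e₃ : ℝ, 0 < e₃ ∧ GB v r (κ₁ + e₃ - ρ') ((dY (H.tr A)).map (evalRingHom u)) ∧
        GB v r (κ₁ + e₃ - r) ((derivative (H.tr A)).map (evalRingHom u))) :
    SL p v (cadj v N u) w r κ₁ (S - 1) ((H.tr A).map (evalRingHom u)) := by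
  have hMG₁ := hc.ms
  have hMG : MS v G M := ⟨fun g hg => hMG₁.ne g (hc.reps.le hg),
    fun g hg => hMG₁.val g (hc.reps.le hg),
    fun g hg g' hg' => hMG₁.mul g (hc.reps.le hg) g' (hc.reps.le hg')⟩
  refine ⟨pii_map (le_cadj _ _ _) (self_mem_cadj _ _ _) (H.PII_tr hMN hA), hw,
    jump_lo h0 hMG hMN hy hz hu hw H hA hQ1, fun e he g hg => ?_⟩
  by_contra hcon
  push Not at hcon
  obtain ⟨e₃, he₃, hd1, hd2⟩ := hder e he g hg hcon
  obtain ⟨e₁, he₁, g₀, hg₀, hQ2⟩ := hQ2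
  refine jump_b h0 hc hMN hNB hyB hzB huB hFB' hFB hy hz hu hw H hβ hA hCL
    (fun e' he' Q hQ => jump_full h0 hMG hMN hy hz hu hw H hA hQ3 e' he' _
      (pii_map (le_cadj _ _ _) (self_mem_cadj _ _ _) hQ)) (lt_min he he₁) hg₀
    (fun l hl => (hQ2 l hl).mono (by have := min_le_right e e₁; linarith)) (by omega) hg
    (fun m hm => (hcon m hm).mono (by have := min_le_left e e₁; linarith)) he₃ hd1 hd2

end CaseB

end J5

end Pool.Agent.TWM
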