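import Pool.Agent.Lib.TWM.D2

/-!
# M2S, S6c: the `p`-th powers close to `f(y)`

`CL`: `y` is of transcendental type over `N`, of radius `ρ`, `N^(1/p)` is the field of the sums of
the `M_t b_t`. If `f'(y)` has value `≥ λ - ρ`, then `f(y)` is at distance `≥ λ - ε` from a `p`-th
power `(∑ M_t b_t(y))^p`.
-/

set_option autoImplicit false

open Polynomial

namespace Pool.Agent.TWM

open Pool.Agent.H15JM (RVal)
open Pool.Agent.LU1 (VPos adj)
open Pool.Agent.LUC (Cl clF)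
open Pool.Agent.D2 (Ctx0)
open Pool.Agent.D2P (hen clI mem_clI adj_le mem_adj_self rootF mem_rootF)

universe u

variable {k Ω : Type u} [Field k] [Field Ω] [Algebra k Ω] {v : RVal Ω} [IsAlgClosed Ω] (p : ℕ)
  [hp : Fact p.Prime] [CharP k p] [CharP Ω p]
  {N : IntermediateField k Ω} {y : Ω} {ρ : ℝ}

omit [CharP k p] in
/-- An element of transcendental type over `N`, over the closure of `N(y^p)`. -/
theorem TL.pstep (hy : TL v N y ρ) : C.PStep p v (cadj v N (y ^ p)) y ρ where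
  cld := cld_cadj _ _ _
  pw := self_mem_cadj _ _ _
  far := by
    rintro ⟨a, ha, h1⟩
    obtain ⟨P, hP, h2⟩ := (hy.pow p).dense ha (ρ + 1)
    set G : Polynomial Ω := X - P.comp (X ^ p) with hG
    have hcomp : P.comp (X ^ p) ∈ PI N := by
      rw [comp, eval₂_eq_sum_range]
      exact sum_mem fun i _ => mul_mem (C_mem_PI (hP i)) (pow_mem (pow_mem X_mem_PI p) i)
    have hGm : G ∈ PI N := _root_.sub_mem X_mem_PI hcomp
    have hGe : G.eval y = y - P.eval (y ^ p) := by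
      rw [hG, eval_sub, eval_X, eval_comp, eval_pow, eval_X]
    have hder : (taylor y G).coeff 1 = 1 := by
      rw [taylor_coeff_one, hG, derivative_sub, derivative_X, derivative_comp, derivative_X_pow,
        CharP.cast_eq_zero]
      simp
    have hG0 : G ≠ 0 := by
      intro h0
      rw [h0] at hder
      simp at hder
    have h7 := hy.strict (PI_mono (le_algc _) hGm) hG0 le_rfl (by rw [hder]; exact one_ne_zero)
    rw [hder, v.map_one, Nat.cast_one, one_mul] at h7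
    have h6 : Gt v ρ (G.eval y) := by
      rw [hGe, show y - P.eval (y ^ p) = (y - a) + (a - P.eval (y ^ p)) by ring]
      exact h1.add (Gt.of_ge h2 (by linarith))
    have h8 := h6 (hy.eval_ne (PI_mono (le_algc _) hGm) hG0)
    linarith

omit [IsAlgClosed Ω] [CharP k p] [CharP Ω p] in
/-- `P(y)` as a polynomial of degree `< p` over `N<y^p>`, and its value at `h ∈ N`. -/
theorem exists_split (hN : N ≤ cadj v N (y ^ p)) {P : Polynomial Ω} (hP : P ∈ PI N) {h : Ω}
    (hh : h ∈ N) : ∃ Q ∈ PI (cadj v N (y ^ p)), ∃ q ∈ PI N, Q.natDegree < p ∧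
      Q.eval y = P.eval y ∧ Q.eval h = q.eval (y ^ p) := by
  refine ⟨∑ n ∈ Finset.range (P.natDegree + 1), C (P.coeff n * (y ^ p) ^ (n / p)) * X ^ (n % p),
    sum_mem fun n _ => mul_mem (C_mem_PI (mul_mem (hN (hP n))
      (pow_mem (self_mem_cadj v N (y ^ p)) _))) (pow_mem X_mem_PI _),
    ∑ n ∈ Finset.range (P.natDegree + 1), C (P.coeff n * h ^ (n % p)) * X ^ (n / p),
    sum_mem fun n _ => mul_mem (C_mem_PI (mul_mem (hP n) (pow_mem hh _))) (pow_mem X_mem_PI _),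
    ?_, ?_, ?_⟩
  · refine lt_of_le_of_lt (natDegree_sum_le_of_forall_le (n := p - 1) _ _ fun n _ => ?_)
      (Nat.sub_lt hp.out.pos one_pos)
    refine (natDegree_C_mul_le _ _).trans ?_
    rw [natDegree_X_pow]
    have := Nat.mod_lt n hp.out.pos
    omega
  · rw [eval_finsetSum, eval_eq_sum_range]
    refine Finset.sum_congr rfl fun n _ => ?_
    rw [eval_mul, eval_C, eval_pow, eval_X, mul_assoc, ← pow_mul, ← pow_add, Nat.div_add_mod]
  · rw [eval_finsetSum, eval_finsetSum]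
    refine Finset.sum_congr rfl fun n _ => ?_
    rw [eval_mul, eval_C, eval_pow, eval_X, eval_mul, eval_C, eval_pow, eval_X]
    ring

/-- **S6c.** -/
theorem CL (h0 : Ctx0 k v) {M : ℝ → Ω} {G G₁ : AddSubgroup ℝ} {T : Finset ℝ}
    (hcls : Cls v M G G₁ T N) (hN1 : rootF p 1 N = LE M G₁ N) (hy : TL v N y ρ)
    {f : Polynomial Ω} (hf : f ∈ PI N) {lam : ℝ}
    (hd : v.Ge (lam - ρ) ((derivative f).eval y)) {ε : ℝ} (hε : 0 < ε) :
    ∃ b : ℝ → Polynomial Ω, (∀ t, b t ∈ PI N) ∧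
      v.Ge (lam - ε) (f.eval y - (∑ t ∈ T, M t * (b t).eval y) ^ p) := by
  classical
  have hs := hy.pstep p
  have hp0 : (0 : ℝ) < p := by exact_mod_cast hp.out.pos
  obtain ⟨h, hh, hhy⟩ := hy.lim (ε / p) (by positivity)
  obtain ⟨Q, hQ, q, hq, hQd, hQy, hQh⟩ := exists_split (v := v) (y := y) p
    (le_cadj v N (y ^ p)) hf hh
  have hfM : f ∈ PI (cadj v N (y ^ p)) := PI_mono (le_cadj v N (y ^ p)) hf
  -- the roots of the coefficients
  have hroot : ∀ m, ∃ b : ℝ → Ω, (∀ t ∈ T, b t ∈ N) ∧ (∑ t ∈ T, M t * b t) ^ p = q.coeff m := by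
    intro m
    obtain ⟨r, hr⟩ := IsAlgClosed.exists_pow_nat_eq (q.coeff m) hp.out.pos
    have h1 : r ∈ rootF p 1 N := (mem_rootF1 p).2 (by rw [hr]; exact hq m)
    rw [hN1] at h1
    obtain ⟨b, hb, h2⟩ := hcls.mem_iff.1 h1
    exact ⟨b, hb, by rw [← h2, hr]⟩
  choose b hb hbq using hroot
  refine ⟨fun t => if t ∈ T then ∑ m ∈ Finset.range (q.natDegree + 1), C (b m t) * X ^ m else 0,
    fun t => ?_, ?_⟩
  · beta_reduce
    split_ifs with ht
    · exact sum_mem fun m _ => mul_mem (C_mem_PI (hb m t ht)) (pow_mem X_mem_PI m)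
    · exact zero_mem _
  have hsum : (∑ t ∈ T, M t * (if t ∈ T then ∑ m ∈ Finset.range (q.natDegree + 1),
      C (b m t) * X ^ m else (0 : Polynomial Ω)).eval y) ^ p = q.eval (y ^ p) := by
    have h1 : ∑ t ∈ T, M t * (if t ∈ T then ∑ m ∈ Finset.range (q.natDegree + 1),
        C (b m t) * X ^ m else (0 : Polynomial Ω)).eval y =
        ∑ m ∈ Finset.range (q.natDegree + 1), (∑ t ∈ T, M t * b m t) * y ^ m := by
      simp only [Finset.sum_mul]
      rw [Finset.sum_comm]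
      refine Finset.sum_congr rfl fun t ht => ?_
      rw [if_pos ht, eval_finsetSum, Finset.mul_sum]
      refine Finset.sum_congr rfl fun m _ => ?_
      rw [eval_mul, eval_C, eval_pow, eval_X, mul_assoc]
    rw [h1, sum_pow_char, eval_eq_sum_range]
    refine Finset.sum_congr rfl fun m _ => ?_
    rw [mul_pow, hbq, ← pow_mul, ← pow_mul, mul_comm m p]
  beta_reduce
  rw [hsum, ← hQh, ← C.prj_poly p h0 hs h hQ hQd, hQy,
    C.prj_eq p h0 hs h (C.eval_mem_adj (u := y) hfM), Finset.range_eq_Ico,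
    Finset.sum_eq_sum_Ico_succ_bot hp.out.pos]
  have h1 : (h - y) ^ 0 * (((Nat.factorial 0 : ℕ) : Ω)⁻¹ *
      (C.der p (cadj v N (y ^ p)) y)^[0] (f.eval y)) = f.eval y := by
    rw [pow_zero, one_mul, Nat.factorial_zero, Nat.cast_one, inv_one, one_mul]
    rfl
  rw [h1, sub_add_cancel_left]
  refine RVal.Ge.neg (RVal.Ge.sum _ _ fun j hj => ?_)
  obtain ⟨hj1, hj2⟩ := Finset.mem_Ico.1 hj
  obtain ⟨i, rfl⟩ : ∃ i, j = i + 1 := ⟨j - 1, by omega⟩
  obtain ⟨h3, h4⟩ := C.nat_val h0 (C.fact_ne (k := k) p hj2)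
  have h5 : v.Ge 0 ((i + 1).factorial : Ω)⁻¹ := fun _ => by rw [v.map_inv h3, h4, neg_zero]
  have h6 : v.Ge (lam - ρ - i * ρ) ((C.der p (cadj v N (y ^ p)) y)^[i + 1] (f.eval y)) := by
    rw [Function.iterate_succ_apply, C.der_poly p h0 hs hfM]
    exact C.der_iter_ge p h0 hs i (C.eval_mem_adj (C.derivative_mem hfM)) hd
  refine ((ge_pow (ge_sub_comm hhy) (i + 1)).mul (h5.mul h6)).mono ?_
  have h7 : ((i + 1 : ℕ) : ℝ) * (ε / p) ≤ p * (ε / p) :=
    mul_le_mul_of_nonneg_right (by exact_mod_cast hj2.le) (by positivity)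
  rw [mul_div_cancel₀ _ hp0.ne'] at h7
  have h8 : ((i + 1 : ℕ) : ℝ) * (ρ - ε / p) = i * ρ + ρ - ((i + 1 : ℕ) : ℝ) * (ε / p) := by
    push_cast
    ring
  rw [h8]
  linarith

end Pool.Agent.TWM
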