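import Pool.Agent.Lib.TWM.S5a
import Pool.Agent.Lib.TWM.S5b
import Pool.Agent.Lib.TWM.S6c

/-!
# TANK W, M2, row S5: the slope at a jump
-/

set_option autoImplicit false

open Polynomial

namespace Pool.Agent.TWM

open Pool.Agent.H15JM (RVal)
open Pool.Agent.D2 (Ctx0)
open Pool.Agent.D2P (rootF)

universe u

variable {k Ω : Type u} [Field k] [Field Ω] [Algebra k Ω] {v : RVal Ω}
  {N B : IntermediateField k Ω} {y z u w : Ω} {ρ s ρ' r : ℝ}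
  {p : ℕ} [Fact p.Prime] [CharP k p] [CharP Ω p] {G G₁ : AddSubgroup ℝ} {T : Finset ℝ}
  {M : ℝ → Ω} {κ₁ : ℝ} {S : ℕ} {A : Polynomial (Polynomial Ω)}

/-- **Row S5**: the slope at a jump. -/
theorem jump_slope [IsAlgClosed Ω] (h0 : Ctx0 k v) (hc : Cls v M G G₁ T B)
    (hR : rootF p 1 N = LE M G₁ N) (hMN : ∀ g ∈ G, M g ∈ N) (hNB : N ≤ B) (hBc : Cld v B)
    (hyB : y ∈ B) (hzB : z ∈ B) (huB : u ∈ B)
    (hy : TL v N y ρ) (hz : Lim v N s z) (hu : TL v N u ρ') (hw : Gt v r w)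
    (H : Chg p G M N y z ρ s u w ρ' r) (hβ : 1 ≤ H.β.natDegree) (hA : PII N A)
    (hQ1 : ∀ ε : ℝ, 0 < ε → ∃ g ∈ PI (cadj v N y), GB v s (κ₁ - ε)
      (taylor z (A.map (evalRingHom y) - g ^ p)))
    (hQ3 : ∀ e : ℝ, 0 < e → ∀ g ∈ PI (cadj v N y), ¬ GB v s (κ₁ + e)
      (taylor z (A.map (evalRingHom y) - g ^ p)))
    (hQ2 : ∃ e : ℝ, 0 < e ∧ ∃ g ∈ PI (cadj v N y), ∀ l : ℕ, S < l →
      v.Ge (κ₁ + e - l * s) ((taylor z (A.map (evalRingHom y) - g ^ p)).coeff l))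
    (hS : 2 ≤ S) :
    SL p v (cadj v N u) w r κ₁ (S - 1) ((H.tr A).map (evalRingHom u)) := by
  refine J5.jump_slope_of h0 hc hMN hNB hyB hzB huB (cadj_le hBc hNB huB) (cadj_le hBc hNB hyB)
    hy hz hu hw H hβ hA (fun f hf lam hd ε hε => CL p h0 (hc.mono hNB hMN) hR hu hf hd hε)
    hQ1 hQ3 hQ2 hS fun e he g hg hlow => ?_
  obtain ⟨e₁, he₁, g₀, hg₀, h1⟩ := hQ2
  have hMG₁ := hc.ms
  have hMG : MS v G M := ⟨fun g hg => hMG₁.ne g (hc.reps.le hg),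
    fun g hg => hMG₁.val g (hc.reps.le hg),
    fun g hg g' hg' => hMG₁.mul g (hc.reps.le hg) g' (hc.reps.le hg')⟩
  exact jump_deriv h0 hMG hMN hy hz H hu hw hβ hA hQ1 he₁ hg₀ h1 hS he hg hlow

end Pool.Agent.TWM
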