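import Pool.Agent.Lib.TWM.PI2

/-!
# One variable: a `p`-th root over `N⟨y⟩`

`F = N⟨y⟩`, `y` of transcendental type over `N`, `γ^p ∈ F`, `γ ∉ F`, `F(γ)` immediate over `N`:
`F(γ) = N⟨w⟩`, `w` of transcendental type over `N`, and `F = N⟨w^p⟩`.
-/

set_option autoImplicit false

open Polynomial

namespace Pool.Agent.TWM

open Pool.Agent.H15JM (RVal)
open Pool.Agent.LU1 (VPos adj)
open Pool.Agent.LUC (Cl clF)
open Pool.Agent.D2 (Ctx0)
open Pool.Agent.D2P (hen clI mem_clI adj_le mem_adj_self rootF mem_rootF)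

universe u

variable {k Ω : Type u} [Field k] [Field Ω] [Algebra k Ω] {v : RVal Ω} [IsAlgClosed Ω] (p : ℕ)
  [hp : Fact p.Prime] [hk : CharP k p] [hΩ : CharP Ω p]

omit hk in
/-- The first step: over `N(x^{1/p})` the `p`-th root of `y` generates. -/
theorem first_step₁ (hc : CompleteV v) {N : IntermediateField k Ω} {y γ : Ω}
    {ρ : ℝ} (hy : TL v N y ρ) (hγ : γ ^ p ∈ cadj v N y)
    (hn : γ ∉ cadj v N y) {M : ℝ → Ω} {G G₁ : AddSubgroup ℝ} {T : Finset ℝ}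
    (hcls : Cls v M G G₁ T (adj (cadj v N y) γ)) (hm : ∀ g ∈ G, M g ∈ N)
    (hN1 : rootF p 1 N = LE M G₁ N) :
    ∃ u : Ω, u ^ p = y ∧ TL v (LE M G₁ N) u (ρ / p) ∧
      LE M G₁ (adj (cadj v N y) γ) = cadj v (LE M G₁ N) u := by
  classical
  obtain ⟨u, hu⟩ := IsAlgClosed.exists_pow_nat_eq y hp.out.pos
  set F := cadj v N y with hF
  have hFc : Cld v F := cld_cadj _ _ _
  have hNF : N ≤ F := le_cadj _ _ _
  have hyF : y ∈ F := self_mem_cadj _ _ _
  have hFγ : F ≤ adj F γ := (mem_adj_self F γ).2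
  have hγm : γ ∈ adj F γ := (mem_adj_self F γ).1
  have hclF : Cls v M G G₁ T F := hcls.mono hFγ fun g hg => hNF (hm g hg)
  have hcl : Cld v (adj F γ) := cld_adj hc hFc (isAlgebraic_of_pow_mem p hγ)
  have hty : TL v (LE M G₁ N) u (ρ / p) := by
    rw [← hu] at hy
    rw [← hN1]
    exact hy.root
  -- `L = F^(1/p)`
  have hL : rootF p 1 F = cadj v (LE M G₁ N) u := by
    rw [hF, ← hu, rootF_cadj, hN1]
  have hLF : LE M G₁ F ≤ rootF p 1 F := by
    refine LE_le (le_rootF p F) fun g hg => rootF_mono p hNF ?_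
    rw [hN1]
    exact mon_mem_LE hg
  have hγ1 : γ ∉ LE M G₁ F := by
    intro h4
    obtain ⟨b, hb, h5⟩ := hclF.mem_iff.1 h4
    have h6 := (hcls.eq_of_mem (fun t ht => hFγ (hb t ht)) hγm h5).1
    exact hn (by rw [← h6]; exact hb 0 hcls.reps.zero)
  have hcF1 : Cld v (LE M G₁ F) := hclF.cld hc hFc
  have hcB1 : Cld v (LE M G₁ (adj F γ)) := hcls.cld hc hcl
  have hF1B1 : LE M G₁ F ≤ LE M G₁ (adj F γ) := LE_mono hFγ
  have huF1 : u ^ p ∈ LE M G₁ F := le_LE (by rw [hu]; exact hyF)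
  have hγF1 : γ ^ p ∈ LE M G₁ F := le_LE hγ
  have hLle : cadj v (LE M G₁ N) u ≤ adj (LE M G₁ F) u := by
    refine cadj_le (cld_adj hc hcF1 (isAlgebraic_of_pow_mem p huF1)) ?_ (mem_adj_self _ _).1
    exact (LE_mono hNF).trans (mem_adj_self _ _).2
  have hγu : γ ∈ adj (LE M G₁ F) u := hLle (by rw [← hL, mem_rootF1]; exact hγ)
  have huγ : u ∈ adj (LE M G₁ F) γ := exchange p hγF1 huF1 hγ1 hγu
  have huB : u ∈ LE M G₁ (adj F γ) := adj_le hF1B1 (le_LE hγm) huγ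
  refine ⟨u, hu, hty, le_antisymm ?_ ?_⟩
  · rw [← hL]
    refine LE_le (adj_le (le_rootF p F) ((mem_rootF1 p).2 hγ)) fun g hg =>
      rootF_mono p hNF ?_
    rw [hN1]
    exact mon_mem_LE hg
  · exact cadj_le hcB1 (LE_mono (hNF.trans hFγ)) huB

include hp hk hΩ in
/-- **Log descent in one variable.** -/
theorem log_descent₁ [IsAlgClosed k] (h : Ctx0 k v) (hc : CompleteV v) {M : ℝ → Ω}
    {G G₁ : AddSubgroup ℝ} {T : Finset ℝ} {N B : IntermediateField k Ω}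
    (hcls : Cls v M G G₁ T B) (hMN : ∀ g ∈ G, M g ∈ N) (hN : LDense v G M N) (hG : G.FG)
    (hB : Imm v N B) (hBc : Cld v B) {u : Ω} {ρ : ℝ} (hu : TL v (LE M G₁ N) u ρ)
    (he : LE M G₁ B = cadj v (LE M G₁ N) u) :
    ∃ w σ, TL v N w σ ∧ B = cadj v N w := by
  classical
  set N₁ := LE M G₁ N with hN₁
  set B₁ := LE M G₁ B with hB₁
  have hM := hcls.ms
  have hN₁d : LDense v G₁ M N₁ := (hcls.mono hB.le hMN).ldense hN
  have hMN₁ : ∀ g ∈ G₁, M g ∈ N₁ := fun g hg => mon_mem_LE hg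
  have hZ₁ : GSub k p G₁ M (Nr' v N₁) := gsub_Nr' h hM hMN₁
  have huB : u ∈ B₁ := by
    rw [he]
    exact self_mem_cadj _ _ _
  -- the span of `u`
  have hsp : ∀ (R : ℝ), ∀ x ∈ B₁, Lim v N₁ R x → InSpan k p G₁ M (Nr' v N₁)
      (fun _ : Unit => ρ) (fun _ : Unit => u) Finset.univ R x := by
    intro R x hx hl
    rw [he] at hx
    obtain ⟨Q, hQ, n, hn, h2⟩ := hu.exists_ev (p := p) h hM hMN₁
      (fun b hb => val_mem h hM hN₁d (Imm.refl N₁) hb) hx hl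
    refine ⟨fun _ => Q, fun _ _ => hQ, n, hn, ?_⟩
    rw [Fintype.sum_unique]
    exact h2
  have hfree : FreeOn k p G₁ M (Nr' v N₁) (fun _ : Unit => ρ) (fun _ : Unit => u)
      Finset.univ := by
    intro R P hP hrel i _
    rw [Fintype.sum_unique] at hrel
    obtain ⟨a, ha, h1⟩ := hrel
    by_contra hne
    obtain ⟨h3, h4⟩ := hu.ev_far h hM hMN₁ (hP () (Finset.mem_univ _)) hne
      (isAlgebraic_algebraMap (R := N₁) (⟨_, ha⟩ : N₁))
    exact lt_asymm (h1 (sub_ne_zero.2 h3)) h4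
  obtain ⟨ρ', θ, P, Q, h1, h2, h3, h4, h5, h6, h7, -⟩ := hcls.exists_basis h hMN hN hG hB
    (fun _ : Unit => ρ) (fun _ : Unit => u) (fun _ => ⟨huB, hu.lim⟩) hfree
    (fun R x hx hl => hsp R x (le_LE hx) (((hcls.lim_self hB.le hMN hx).mpr hl)))
  have h8 := h6 () ()
  rw [if_pos rfl, Fintype.sum_unique] at h8
  have h9 := (tw_eq_one h8).1
  obtain ⟨c, hc1⟩ : ∃ c, P () () = C c := ⟨_, eq_C_of_natDegree_eq_zero h9⟩
  have hc0 : c ≠ 0 := by
    rintro rfl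
    rw [map_zero] at hc1
    change tw p (P () ()) (Q () ()) = 1 at h8
    rw [hc1, tw_zero_left] at h8
    exact zero_ne_one h8
  have hcG : ρ' () - ρ ∈ G₁ := by
    have h10 := h2 () () 0 (by rw [hc1, coeff_C_zero]; exact hc0)
    rwa [pow_zero, one_mul] at h10
  set c' : Ω := algebraMap k Ω c * M (ρ' () - ρ) with hc'
  obtain ⟨hc'0, hc'v⟩ := term_val h hM hcG hc0
  have hc'N : c' ∈ N₁ := mul_mem (N₁.algebraMap_mem _) (hMN₁ _ hcG)
  obtain ⟨n, hn, h10⟩ := h4 ()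
  rw [Fintype.sum_unique] at h10
  change Gt v (ρ' ()) (θ () - ev p M ρ (ρ' ()) (P () ()) u - n) at h10
  have h11 : ev p M ρ (ρ' ()) (P () ()) u = c' * u := by
    rw [hc1, show (C c : k[X]) = C c * X ^ 0 by rw [pow_zero, mul_one], ev_mono, pow_zero, one_mul,
      pow_zero, pow_one]
  rw [h11] at h10
  have hθB : θ () ∈ B := (h1 ()).1
  have hθu : θ () ∈ cadj v N₁ u := by
    rw [← he]
    exact le_LE hθB
  obtain ⟨h12, h13⟩ := hu.generator (c := c') (f := n) hc'N hc'0 hn hθu (by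
    rw [hc'v, sub_add_cancel, ← sub_sub]
    exact h10)
  have h14 : TL v N (θ ()) (v c' + ρ) := ⟨(hcls.lim_self hB.le hMN hθB).1 h12.lim, fun τ hτ =>
    h12.far τ (D2P.isAlgebraic_mono le_LE hτ)⟩
  refine ⟨θ (), _, h14, ?_⟩
  have hle : cadj v N (θ ()) ≤ B := cadj_le hBc hB.le hθB
  have hMθ : ∀ g ∈ G, M g ∈ cadj v N (θ ()) := fun g hg => le_cadj _ _ _ (hMN g hg)
  have e1 : cadj v (LE M G₁ N) (θ ()) = LE M G₁ (cadj v N (θ ())) :=
    Cls.cadj_eq hc (hcls.mono hle hMθ)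
  refine (hcls.eq_of_LE hle hMθ ?_).symm
  rw [← e1, ← hN₁, h13, ← he]
  exact le_LE

/-- **One variable: the `p`-th root step.** -/
theorem one_step [IsAlgClosed k] (h0 : Ctx0 k v) (hc : CompleteV v) {r : ℕ} {x : Fin r → Ω}
    (hx : ∀ i, x i ≠ 0) (hind : LinearIndependent ℚ fun i => v (x i)) {y γ : Ω} {ρ : ℝ}
    (hy : TL v (NN k v x) y ρ) (hγ : γ ^ p ∈ cadj v (NN k v x) y)
    (hn : γ ∉ cadj v (NN k v x) y) (hi : Imm v (NN k v x) (adj (cadj v (NN k v x) y) γ)) :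
    ∃ (w : Ω) (σ : ℝ), TL v (NN k v x) w σ ∧ w ^ p ∈ cadj v (NN k v x) y ∧
      adj (cadj v (NN k v x) y) γ = cadj v (NN k v x) w ∧
      cadj v (NN k v x) y = cadj v (NN k v x) (w ^ p) := by
  classical
  choose x1 hx1 using fun i => IsAlgClosed.exists_pow_nat_eq (x i) hp.out.pos
  have hR : RD v x x1 (p ^ 1) :=
    ⟨pow_pos hp.out.pos 1, fun i => by rw [pow_one]; exact hx1 i, hx, hind⟩
  obtain ⟨T, hT, -⟩ := hR.exists_reps
  have hcls := hR.cls h0 hT hi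
  have hN1 : rootF p 1 (NN k v x) = LE (MM v x1) (GG v x1) (NN k v x) := by
    rw [hR.rootF_NN, hR.NN_eq h0 hc]
  have hFc : Cld v (cadj v (NN k v x) y) := cld_cadj _ _ _
  obtain ⟨u, -, hu, he⟩ := first_step₁ p hc hy hγ hn hcls (hR.mon_mem le_rfl) hN1
  obtain ⟨w, σ, hw, hw'⟩ := log_descent₁ p h0 hc hcls (hR.mon_mem le_rfl)
    (by
      intro a ha b
      obtain ⟨L, hL, h1⟩ := NN_dense h0 hx hind a ha b
      refine ⟨L, hL, ?_⟩
      have h2 : evL (MM v x1) L = evL (MM v x) L := by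
        refine Finsupp.sum_congr fun g hg => ?_
        rw [hR.MM_eq (hL g (Finsupp.mem_support_iff.1 hg))]
      rw [h2]
      exact h1)
    (GG_fg x) hi (cld_adj' p hc hFc hγ) hu he
  have hroot : adj (cadj v (NN k v x) y) γ ≤ rootF p 1 (cadj v (NN k v x) y) :=
    adj_le (le_rootF p _) ((mem_rootF1 p).2 hγ)
  have hwp : w ^ p ∈ cadj v (NN k v x) y := by
    rw [← mem_rootF1 p]
    exact hroot (by rw [hw']; exact self_mem_cadj _ _ _)
  refine ⟨w, σ, hw, hwp, hw', le_antisymm ?_ (cadj_le hFc (le_cadj _ _ _) hwp)⟩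
  set D := cadj v (NN k v x) (w ^ p) with hD
  have hDF : D ≤ cadj v (NN k v x) y := cadj_le hFc (le_cadj _ _ _) hwp
  have hDc : Cld v D := cld_cadj _ _ _
  have hwD : w ^ p ∈ D := self_mem_cadj _ _ _
  -- the `p`-th powers of `N⟨w⟩` are in `N⟨w^p⟩`
  have hND : NN k v x ≤ D := le_cadj _ _ _
  have hle : cadj v (NN k v x) w ≤ adj D w :=
    cadj_le (cld_adj' p hc hDc hwD) (hND.trans (mem_adj_self D w).2) (mem_adj_self D w).1
  have hpow : adj D w ≤ rootF p 1 D := adj_le (le_rootF p D) ((mem_rootF1 p).2 hwD)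
  intro a ha
  by_contra haD
  have ha' : a ∈ adj D w := hle (by
    rw [← hw']
    exact (mem_adj_self (cadj v (NN k v x) y) γ).2 ha)
  have h1 := exchange p ((mem_rootF1 p).1 (hpow ha')) hwD haD ha'
  have h2 : w ∈ cadj v (NN k v x) y := adj_le hDF ha h1
  refine hn ?_
  have h3 : γ ∈ adj (cadj v (NN k v x) y) γ := (mem_adj_self _ _).1
  rw [hw'] at h3
  exact cadj_le hFc (le_cadj _ _ _) h2 h3

end Pool.Agent.TWM
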