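import Pool.Agent.Lib.TWM.S7e
import Pool.Agent.Lib.TWM.PI2

/-!
# TANK W, M2, row S7, CASE W: the coefficient of index one dominates
-/

set_option autoImplicit false

open Polynomial

namespace Pool.Agent.TWM

open Pool.Agent.H15JM (RVal)
open Pool.Agent.LU1 (VPos adj)
open Pool.Agent.D2P (hen clI mem_clI mem_adj_self)

universe u

variable {k Ω : Type u} [Field k] [Field Ω] [Algebra k Ω] {v : RVal Ω}

/-- CASE W: the closure of `F(f)` is the closure of `F(z)`, `f = (A - g ^ p)(z)`. -/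
theorem caseW {p : ℕ} [Fact p.Prime] [CharP Ω p] {F : IntermediateField k Ω} {z : Ω} {b kb e : ℝ}
    (hz : v.Ge b z) (he : 0 < e) {A g : Polynomial Ω} (hA : A ∈ PI F) (hg : g ∈ PI F)
    (hW : ¬ v.Ge (kb + e / 2 - b) (A.coeff 1))
    (hm : ∀ m : ℕ, 1 < m → v.Ge (kb + e - m * b) ((A - g ^ p).coeff m)) :
    cadj v F ((A - g ^ p).eval z) = cadj v F z := by
  have hp : p.Prime := Fact.out
  have : ExpChar Ω p := ExpChar.prime hp
  have hg1 : (g ^ p).coeff 1 = 0 := by
    rw [← map_frobenius_expand, coeff_map, coeff_expand hp.pos, if_neg, map_zero]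
    exact fun h => hp.one_lt.ne' (Nat.dvd_one.1 h)
  obtain ⟨Q, hQ⟩ : ∃ Q, Q = A - g ^ p := ⟨_, rfl⟩
  rw [← hQ] at hm ⊢
  have hQF : Q ∈ PI F := by
    rw [hQ]
    exact sub_mem hA (pow_mem hg p)
  have hQ1 : Q.coeff 1 = A.coeff 1 := by rw [hQ, coeff_sub, hg1, sub_zero]
  set a := A.coeff 1 with ha
  have ha0 : a ≠ 0 := by
    intro h0
    refine hW ?_
    rw [h0]
    exact RVal.Ge.zero
  have hav : v a < kb + e / 2 - b := by
    by_contra hcon
    exact hW fun _ => not_lt.1 hcon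
  have haF : a ∈ F := hA 1
  set U := C a⁻¹ * (Q - C (Q.coeff 0)) with hU
  have hUF : U ∈ PI F := mul_mem (C_mem_PI (inv_mem haF)) (sub_mem hQF (C_mem_PI (hQF 0)))
  have hUb : GB v b (b + e / 2) (U - X) := by
    intro m
    rw [coeff_sub, hU, coeff_C_mul, coeff_sub, coeff_C, coeff_X]
    rcases Nat.lt_trichotomy m 1 with h | h | h
    · have h0 : m = 0 := by omega
      rw [h0, if_pos rfl, if_neg one_ne_zero, sub_self, mul_zero, sub_zero]
      exact RVal.Ge.zero
    · rw [h, if_neg one_ne_zero, if_pos rfl, sub_zero, hQ1, inv_mul_cancel₀ ha0, sub_self]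
      exact RVal.Ge.zero
    · rw [if_neg (by omega), if_neg (by omega), sub_zero, sub_zero]
      have h1 : v.Ge (-v a) a⁻¹ := fun _ => (v.map_inv ha0).ge
      refine (h1.mul (hm m h)).mono ?_
      linarith
  have h1 : cadj v F (U.eval z) = cadj v F z := engine1 hUF (by linarith) hUb hz
  have h2 : Q.eval z = a * U.eval z + Q.coeff 0 := by
    rw [hU, eval_mul, eval_C, eval_sub, eval_C, mul_inv_cancel_left₀ ha0, sub_add_cancel]
  have h3 : U.eval z = a⁻¹ * (Q.eval z - Q.coeff 0) := by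
    rw [h2, add_sub_cancel_right, inv_mul_cancel_left₀ ha0]
  rw [← h1]
  refine le_antisymm ?_ ?_
  · refine cadj_le (cld_cadj _ _ _) (le_cadj _ _ _) ?_
    rw [h2]
    exact add_mem (mul_mem (le_cadj _ _ _ haF) (self_mem_cadj _ _ _)) (le_cadj _ _ _ (hQF 0))
  · refine cadj_le (cld_cadj _ _ _) (le_cadj _ _ _) ?_
    rw [h3]
    exact mul_mem (inv_mem (le_cadj _ _ _ haF))
      (sub_mem (self_mem_cadj _ _ _) (le_cadj _ _ _ (hQF 0)))

/-- CASE W, for the extension: `B(al)` is the closure of `F(al - g(z))`. -/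
theorem goalW {p : ℕ} [Fact p.Prime] [CharP Ω p] [IsAlgClosed Ω] (hc : CompleteV v)
    {F B : IntermediateField k Ω} {z : Ω} (hBe : B = cadj v F z) {b kb e : ℝ}
    (hz : v.Ge b z) (he : 0 < e) {A g : Polynomial Ω} (hA : A ∈ PI F) (hg : g ∈ PI F)
    (hW : ¬ v.Ge (kb + e / 2 - b) (A.coeff 1))
    (hm : ∀ m : ℕ, 1 < m → v.Ge (kb + e - m * b) ((A - g ^ p).coeff m)) {al : Ω}
    (ha : A.eval z = al ^ p) : adj B al = cadj v F (al - g.eval z) := by
  have h1 := caseW hz he hA hg hW hm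
  have hBc : Cld v B := by
    rw [hBe]
    exact cld_cadj _ _ _
  have hFB : F ≤ B := by
    rw [hBe]
    exact le_cadj _ _ _
  have hzB : z ∈ B := by
    rw [hBe]
    exact self_mem_cadj _ _ _
  have hev : ∀ {f : Polynomial Ω}, f ∈ PI F → f.eval z ∈ B := by
    intro f hf
    rw [eval_eq_sum_range]
    exact sum_mem fun i _ => mul_mem (hFB (hf i)) (pow_mem hzB i)
  have hbe : (al - g.eval z) ^ p = (A - g ^ p).eval z := by
    rw [sub_pow_char, eval_sub, eval_pow, ha]
  have halB : al ^ p ∈ B := by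
    rw [← ha]
    exact hev hA
  refine le_antisymm ?_ ?_
  · have h2 : B ≤ cadj v F (al - g.eval z) := by
      rw [hBe, ← h1, ← hbe]
      exact cadj_le (cld_cadj _ _ _) (le_cadj _ _ _) (pow_mem (self_mem_cadj _ _ _) p)
    refine D2P.adj_le h2 ?_
    have h3 := add_mem (self_mem_cadj v F (al - g.eval z)) (h2 (hev hg))
    rwa [sub_add_cancel] at h3
  · refine cadj_le (cld_adj' p hc hBc halB) (hFB.trans fun x hx => (mem_adj_self B al).2 hx) ?_
    exact sub_mem (mem_adj_self B al).1 ((mem_adj_self B al).2 (hev hg))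

end Pool.Agent.TWM
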