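import Pool.Agent.Lib.TWM.S6b

/-!
# TANK W, M2, row S7: the error of the linear approximation (for CASE 0)

`F` closed, `w^p ∈ F`, `w` at distance `< σ` of the elements of `F`, `P` of degree `< p`. Then
`P(w) - P(h) = P'(h) (w - h) + ` (strictly smaller) for `h` near `w`.
-/

set_option autoImplicit false

open Polynomial

namespace Pool.Agent.TWM

open Pool.Agent.H15JM (RVal)
open Pool.Agent.D2 (Ctx0)

universe u

theorem derivative_taylor' {R : Type*} [CommRing R] (w : R) (P : Polynomial R) :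
    derivative (taylor w P) = taylor w (derivative P) := by
  rw [taylor_apply, taylor_apply, derivative_comp, derivative_add, derivative_X, derivative_C,
    add_zero, one_mul]

variable {k Ω : Type u} [Field k] [Field Ω] [Algebra k Ω] {v : RVal Ω}

theorem err_est [IsAlgClosed Ω] (p : ℕ) [hp : Fact p.Prime] [hk : CharP k p] [CharP Ω p]
    (h0 : Ctx0 k v) {F : IntermediateField k Ω} (hF : Cld v F) {w : Ω} {σ : ℝ}
    (hw : w ^ p ∈ F) (hfar : ∀ a ∈ F, w ≠ a ∧ v (w - a) < σ) {P : Polynomial Ω}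
    (hP : P ∈ PI F) (hdeg : P.natDegree < p) (hP' : derivative P ≠ 0) :
    ∃ δ η : ℝ, 0 < δ ∧ 0 < η ∧ ∀ h : Ω, v.Ge (σ - η) (w - h) →
      (derivative P).eval h ≠ 0 ∧
      v ((derivative P).eval h) = v ((derivative P).eval w) ∧
      v.Ge (v ((derivative P).eval w) + σ + δ)
        (P.eval w - P.eval h - (derivative P).eval h * (w - h)) := by
  classical
  have hPm : derivative P ∈ PI F := by
    intro i
    rw [coeff_derivative]
    exact mul_mem (hP _) (by exact_mod_cast natCast_mem F (i + 1))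
  have hd' : (derivative P).natDegree < p := lt_of_le_of_lt
    ((natDegree_derivative_le P).trans (Nat.sub_le _ _)) hdeg
  have hstr := str_of_dist p h0 hF hw hfar hPm hP' hd'
  set T := taylor w P with hT
  set T' := taylor w (derivative P) with hT'
  have hTT' : derivative T = T' := derivative_taylor' w P
  have hT0 : T'.coeff 0 = (derivative P).eval w := taylor_coeff_zero _ _
  obtain ⟨δ, hδ, h1⟩ := hstr.exists_delta (Finset.Icc 1 T'.natDegree)
    fun l hl => (Finset.mem_Icc.1 hl).1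
  have h1' : ∀ l : ℕ, 1 ≤ l → v.Ge (v (T'.coeff 0) + δ - l * (σ - δ)) (T'.coeff l) := by
    intro l hl
    by_cases h2 : l ≤ T'.natDegree
    · exact h1 l (Finset.mem_Icc.2 ⟨hl, h2⟩)
    · rw [coeff_eq_zero_of_natDegree_lt (not_le.1 h2)]
      exact RVal.Ge.zero
  rw [hT0] at h1'
  set V := v ((derivative P).eval w) with hV
  refine ⟨δ / 2, δ / 2, half_pos hδ, half_pos hδ, fun h hh => ?_⟩
  set x := h - w with hx
  have hxv : v.Ge (σ - δ / 2) x := ge_sub_comm hh
  -- the derivative
  have h2 : v.Ge (V + δ) ((derivative P).eval w - (derivative P).eval h) := by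
    have h3 : (derivative P).eval h = T'.eval x := by
      rw [hT', hx]
      exact eval_eq_taylor _ _ _
    have h4 : T'.eval x - (derivative P).eval w =
        ∑ l ∈ Finset.Icc 1 T'.natDegree, T'.coeff l * x ^ l := by
      rw [← hT0, eval_eq_sum_range, Finset.sum_range_eq_add_Ico _ (Nat.succ_pos _)]
      rw [pow_zero, mul_one, add_sub_cancel_left]
      rfl
    rw [h3]
    refine ge_sub_comm ?_
    rw [h4]
    refine RVal.Ge.sum _ _ fun l hl => ?_
    refine (RVal.Ge.mul (h1' l (Finset.mem_Icc.1 hl).1) (ge_pow hxv l)).mono ?_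
    have h5 : (0 : ℝ) ≤ l := Nat.cast_nonneg l
    nlinarith
  have hne : (derivative P).eval w ≠ 0 := by
    rw [← hT0]
    exact hstr.ne
  obtain ⟨h3, h4⟩ := (Gt.of_ge h2 (by linarith : V < V + δ)).val_eq hne
  refine ⟨h3, h4, ?_⟩
  -- the error
  set Q : Polynomial Ω := derivative T * X - T + C (T.coeff 0) with hQ
  have hQe : P.eval w - P.eval h - (derivative P).eval h * (w - h) = Q.eval x := by
    have e1 : T.eval x = P.eval h := (eval_eq_taylor _ _ _).symm
    have e2 : T'.eval x = (derivative P).eval h := (eval_eq_taylor _ _ _).symm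
    have e3 : T.coeff 0 = P.eval w := taylor_coeff_zero _ _
    rw [hQ, eval_add, eval_sub, eval_mul, eval_X, eval_C, hTT', e1, e2, e3, hx]
    ring
  rw [hQe, eval_eq_sum_range]
  refine RVal.Ge.sum _ _ fun j _ => ?_
  have hQj : 1 ≤ j → Q.coeff j = ((j - 1 : ℕ) : Ω) * T.coeff j := by
    intro hj
    obtain ⟨i, rfl⟩ : ∃ i, j = i + 1 := ⟨j - 1, by omega⟩
    rw [hQ, coeff_add, coeff_sub, coeff_mul_X, coeff_derivative, coeff_C_succ, add_zero,
      Nat.add_sub_cancel]
    ring
  rcases Nat.eq_zero_or_pos j with rfl | hj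
  · have h5 : Q.coeff 0 = 0 := by
      rw [hQ, coeff_add, coeff_sub, mul_coeff_zero, coeff_X_zero, mul_zero, coeff_C_zero]
      ring
    rw [h5, zero_mul]
    exact RVal.Ge.zero
  rw [hQj hj]
  rcases eq_or_lt_of_le (Nat.succ_le_of_lt hj) with hj1 | hj2
  · have h5 : j = 1 := hj1.symm
    rw [h5]
    simp only [Nat.sub_self, Nat.cast_zero, zero_mul]
    exact RVal.Ge.zero
  have hj2' : 2 ≤ j := hj2
  by_cases hjp : j < p
  · have hjk : ((j : ℕ) : k) ≠ 0 := by
      rw [Ne, CharP.cast_eq_zero_iff k p]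
      exact fun h => absurd (Nat.le_of_dvd hj h) (not_le.2 hjp)
    obtain ⟨hjΩ, hvj⟩ := C.nat_val h0 hjk
    have h5 : T'.coeff (j - 1) = T.coeff j * (j : Ω) := by
      rw [← hTT', coeff_derivative, Nat.sub_add_cancel hj]
      have h6 : ((j - 1 : ℕ) : Ω) + 1 = (j : Ω) := by
        rw [← Nat.cast_succ, Nat.succ_eq_add_one, Nat.sub_add_cancel hj]
      rw [h6]
    have h6 : T.coeff j = T'.coeff (j - 1) * (j : Ω)⁻¹ := by
      rw [h5, mul_assoc, mul_inv_cancel₀ hjΩ, mul_one]
    have h7 : v.Ge 0 ((j : Ω)⁻¹) := fun _ => by rw [v.map_inv hjΩ, hvj, neg_zero]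
    rw [h6]
    have h8 := ((ge_natCast v (j - 1)).mul ((h1' (j - 1) (by omega)).mul h7)).mul (ge_pow hxv j)
    refine h8.mono ?_
    have h9 : ((j - 1 : ℕ) : ℝ) = j - 1 := by rw [Nat.cast_sub hj, Nat.cast_one]
    have h10 : (2 : ℝ) ≤ j := by exact_mod_cast hj2'
    rw [h9]
    nlinarith
  · have h5 : T.coeff j = 0 := by
      apply coeff_eq_zero_of_natDegree_lt
      rw [hT, natDegree_taylor]
      omega
    rw [h5, mul_zero, zero_mul]
    exact RVal.Ge.zero

end Pool.Agent.TWM
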