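import Pool.Agent.Lib.TWM.S7e
import Pool.Agent.Lib.TWM.S6a
import Pool.Agent.Lib.TWM.S6b
import Pool.Agent.Lib.TWM.S7d

/-!
# M2S, S7, the case in which the constant term is responsible

`A = g^p + R + A_0` over `F = N<y>`, `R` of Gauss value `> kb`, `kb` the best Gauss value modulo
`p`-th powers. `γ = A_0^(1/p)` is at distance `kb/p` of `F`, not attained; `F(γ) = N<w>`,
`F = N<u>`, `u = w^p`; a perturbation `u_1` of `u` by `R(z)` still generates `B` with `z`, and
`B(α) = B(w_1)`, `w_1^p = u_1`.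
-/

set_option autoImplicit false

open Polynomial

namespace Pool.Agent.TWM

open Pool.Agent.H15JM (RVal)
open Pool.Agent.LU1 (VPos adj)
open Pool.Agent.LUC (Cl clF)
open Pool.Agent.D2 (Ctx0)
open Pool.Agent.D2P (hen clI mem_clI adj_le mem_adj_self rootF mem_rootF)

universe u

variable {k Ω : Type u} [Field k] [Field Ω] [Algebra k Ω] {v : RVal Ω} (p : ℕ)
  [hp : Fact p.Prime]

section Gen

variable [CharP Ω p] {N F L B : IntermediateField k Ω} {z al : Ω} {b kb e : ℝ}
  {A : Polynomial Ω}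

omit hp [CharP Ω p] in
theorem coeff_zero_pow' (g : Polynomial Ω) (n : ℕ) : (g ^ n).coeff 0 = g.coeff 0 ^ n := by
  rw [coeff_zero_eq_eval_zero, eval_pow, ← coeff_zero_eq_eval_zero]

/-- The constant term of `g` can be removed. -/
theorem exists_R (hA : A ∈ PI F) {g : Polynomial Ω} (hg : g ∈ PI F)
    (hm : ∀ m : ℕ, 1 ≤ m → v.Ge (kb + e - m * b) ((A - g ^ p).coeff m)) :
    ∃ g₁ ∈ PI F, ∃ R ∈ PI F, GB v b (kb + e) R ∧ A = g₁ ^ p + R + C (A.coeff 0) := by
  have h1 : (g - C (g.coeff 0)) ^ p = g ^ p - C (g.coeff 0 ^ p) := by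
    rw [sub_pow_char, C_pow]
  have hg1 : g - C (g.coeff 0) ∈ PI F := sub_mem hg (C_mem_PI (hg 0))
  refine ⟨g - C (g.coeff 0), hg1, A - (g - C (g.coeff 0)) ^ p - C (A.coeff 0),
    sub_mem (sub_mem hA (pow_mem hg1 p)) (C_mem_PI (hA 0)), fun m => ?_, by ring⟩
  rcases Nat.eq_zero_or_pos m with rfl | h2
  · rw [coeff_sub, coeff_sub, coeff_zero_pow', coeff_sub, coeff_C_zero, coeff_C_zero, sub_self,
      zero_pow hp.out.ne_zero, sub_zero, sub_self]
    exact RVal.Ge.zero
  · have h3 : (A - (g - C (g.coeff 0)) ^ p - C (A.coeff 0)).coeff m = (A - g ^ p).coeff m := by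
      rw [h1]
      simp only [coeff_sub, coeff_C, if_neg h2.ne', sub_zero]
    rw [h3]
    exact hm m h2

/-- The constant term modulo `p`-th powers. -/
theorem not_ge_const (he : 0 < e) {g R : Polynomial Ω} (hg : g ∈ PI F)
    (hR : GB v b (kb + e) R) (hAe : A = g ^ p + R + C (A.coeff 0))
    (hhi : ∀ e' : ℝ, 0 < e' → ∀ g ∈ PI F, ¬ GB v b (kb + e') (A - g ^ p)) {a : Ω}
    (ha : a ∈ F) {e' : ℝ} (he' : 0 < e') : ¬ v.Ge (kb + e') (A.coeff 0 - a ^ p) := by
  intro h1
  refine hhi (min e e') (lt_min he he') (g + C a) (add_mem hg (C_mem_PI ha)) ?_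
  have h2 : A - (g + C a) ^ p = R + C (A.coeff 0 - a ^ p) := by
    rw [add_pow_char, ← C_pow]
    nth_rewrite 1 [hAe]
    rw [C_sub]
    ring
  rw [h2]
  exact (hR.mono (by linarith [min_le_left e e'])).add
    (GB.C (h1.mono (by linarith [min_le_right e e'])))

/-- The distance of `γ = A_0^(1/p)` to `F` is `kb/p`, not attained. -/
theorem case0_dist (hL : Imm v N L) (hFL : F ≤ L) (hNF : N ≤ F) (hzL : z ∈ L) (halL : al ∈ L)
    (hz : v.Ge b z) (he : 0 < e) {g R : Polynomial Ω} (hg : g ∈ PI F)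
    (hR : GB v b (kb + e) R) (hAe : A = g ^ p + R + C (A.coeff 0))
    (hhi : ∀ e' : ℝ, 0 < e' → ∀ g ∈ PI F, ¬ GB v b (kb + e') (A - g ^ p))
    (hlo : ∀ ε : ℝ, 0 < ε → ∃ g ∈ PI F, GB v b (kb - ε) (A - g ^ p))
    (ha : A.eval z = al ^ p) {γ : Ω} (hγ : γ ^ p = A.coeff 0) :
    Lim v F (kb / p) γ ∧ ∀ a ∈ F, γ ≠ a ∧ v (γ - a) < kb / p := by
  have hp0 : (0 : ℝ) < p := by exact_mod_cast hp.out.pos
  have hkp : (p : ℝ) * (kb / p) = kb := mul_div_cancel₀ _ hp0.ne'
  have key := fun {a : Ω} (ha : a ∈ F) {e' : ℝ} (he' : 0 < e') =>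
    not_ge_const p he hg hR hAe hhi ha he'
  refine ⟨fun ε hε => ?_, fun a haF => ?_⟩
  · obtain ⟨g', hg', h1⟩ := hlo (p * ε) (mul_pos hp0 hε)
    refine ⟨g'.coeff 0, hg' 0, ge_of_pow (p := p) ?_⟩
    have h2 := h1 0
    rw [coeff_sub, coeff_zero_pow', Nat.cast_zero, zero_mul, sub_zero] at h2
    rw [sub_pow_p, hγ, mul_sub, hkp]
    exact h2
  · have hd0 : γ ≠ a := by
      rintro rfl
      refine key haF one_pos ?_
      rw [← hγ, sub_self]
      exact RVal.Ge.zero
    refine ⟨hd0, ?_⟩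
    by_contra hcon
    push Not at hcon
    have hRz : v.Ge (kb + e) (R.eval z) := hR.eval hz
    have hd : v.Ge kb ((γ - a) ^ p) := by
      have h1 : v.Ge (kb / p) (γ - a) := fun _ => hcon
      have h2 := ge_pow h1 p
      rwa [hkp] at h2
    set β := al - g.eval z - a with hβ
    have hgL : g.eval z ∈ L := eval_mem (PI_mono hFL hg) hzL
    have hβL : β ∈ L := sub_mem (sub_mem halL hgL) (hFL haF)
    have hβp : β ^ p = R.eval z + (γ - a) ^ p := by
      rw [hβ, sub_pow_p, sub_pow_p, sub_pow_p, ← ha, hγ]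
      nth_rewrite 1 [hAe]
      rw [eval_add, eval_add, eval_pow, eval_C]
      ring
    have hβ0 : β ≠ 0 := by
      intro h0
      rw [h0, zero_pow hp.out.ne_zero] at hβp
      refine key haF he ?_
      have h1 : A.coeff 0 - a ^ p = -R.eval z := by
        rw [← hγ, ← sub_pow_p]
        linear_combination -hβp
      rw [h1]
      exact hRz.neg
    have hβv : v.Ge (kb / p) β := by
      refine ge_of_pow (p := p) ?_
      rw [hkp, hβp]
      exact (hRz.mono (by linarith)).add hd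
    obtain ⟨c, hc, h2⟩ := hL.imm β hβL hβ0
    have h3 : Gt v kb ((β - c) ^ p) := by
      have h4 := gt_pow (p := p) (h2.mono (hβv hβ0))
      rwa [hkp] at h4
    have h5 : A.coeff 0 - (a + c) ^ p = (β - c) ^ p - R.eval z := by
      rw [sub_pow_p, hβp, sub_pow_p, add_pow_char, hγ]
      ring
    have h6 : Gt v kb (A.coeff 0 - (a + c) ^ p) := by
      rw [h5]
      exact h3.sub (Gt.of_ge hRz (by linarith))
    have h7 : A.coeff 0 - (a + c) ^ p ≠ 0 := by
      intro h8
      refine key (add_mem haF (hNF hc)) one_pos ?_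
      rw [h8]
      exact RVal.Ge.zero
    refine key (add_mem haF (hNF hc)) (e' := v (A.coeff 0 - (a + c) ^ p) - kb) (by
      linarith [h6 h7]) ?_
    intro _
    linarith

/-- An element of transcendental type over `N`: the distance to `N<w^p>` is not attained. -/
theorem TL.pfar [IsAlgClosed Ω] {w : Ω} {σ : ℝ} (hw : TL v N w σ) :
    ∀ a ∈ cadj v N (w ^ p), w ≠ a ∧ v (w - a) < σ := by
  intro a ha
  have hmain : ¬ v.Ge σ (w - a) := by
    intro h1
    obtain ⟨P, hP, h2⟩ := (hw.pow p).dense ha σ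
    set G : Polynomial Ω := X - P.comp (X ^ p) with hG
    have hGm : G ∈ PI N := _root_.sub_mem X_mem_PI (comp_mem hP (pow_mem X_mem_PI p))
    have hGe : G.eval w = w - P.eval (w ^ p) := by
      rw [hG, eval_sub, eval_X, eval_comp, eval_pow, eval_X]
    have hder : (taylor w G).coeff 1 = 1 := by
      rw [taylor_coeff_one, hG, derivative_sub, derivative_X, derivative_comp, derivative_X_pow,
        CharP.cast_eq_zero]
      simp
    have hG0 : G ≠ 0 := by
      intro h0
      rw [h0] at hder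
      simp at hder
    have h7 := hw.strict (PI_mono (le_algc _) hGm) hG0 le_rfl (by rw [hder]; exact one_ne_zero)
    rw [hder, v.map_one, Nat.cast_one, one_mul] at h7
    have h6 : v.Ge σ (G.eval w) := by
      rw [hGe, show w - P.eval (w ^ p) = (w - a) + (a - P.eval (w ^ p)) by ring]
      exact h1.add h2
    have h8 := h6 (hw.eval_ne (PI_mono (le_algc _) hGm) hG0)
    linarith
  rw [RVal.Ge] at hmain
  push Not at hmain
  exact ⟨fun h => hmain.1 (sub_eq_zero.2 h), hmain.2⟩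

end Gen

section Main

variable [CharP k p] [CharP Ω p] [IsAlgClosed k] [IsAlgClosed Ω] {B : IntermediateField k Ω}
  {r : ℕ} {x : Fin r → Ω} {y z al : Ω} {ρ b kb e : ℝ} {A : Polynomial Ω}

/-- **S7, case 0.** -/
theorem case0 (h0 : Ctx0 k v) (hc : CompleteV v) (hx : ∀ i, x i ≠ 0)
    (hind : LinearIndependent ℚ fun i => v (x i)) (hB : Imm v (NN k v x) B) (hBc : Cld v B)
    (hy : TL v (NN k v x) y ρ) (hBe : B = cadj v (cadj v (NN k v x) y) z) (hz : v.Ge b z)
    (he : 0 < e) (hA : A ∈ PI (cadj v (NN k v x) y))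
    (hhi : ∀ e' : ℝ, 0 < e' → ∀ g ∈ PI (cadj v (NN k v x) y), ¬ GB v b (kb + e') (A - g ^ p))
    (hlo : ∀ ε : ℝ, 0 < ε → ∃ g ∈ PI (cadj v (NN k v x) y), GB v b (kb - ε) (A - g ^ p) ∧
      ∀ m : ℕ, 1 ≤ m → v.Ge (kb + e - m * b) ((A - g ^ p).coeff m))
    (ha : A.eval z = al ^ p) (_hal : al ∉ B) (hi : Imm v (NN k v x) (adj B al)) :
    ∃ w T : Ω, adj B al = cadj v (cadj v (NN k v x) w) T := by
  classical
  have hp0 : (0 : ℝ) < p := by exact_mod_cast hp.out.pos
  have hkp : (p : ℝ) * (kb / p) = kb := mul_div_cancel₀ _ hp0.ne'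
  set N := NN k v x with hN
  set F := cadj v N y with hF
  have hNF : N ≤ F := le_cadj v N y
  have hFc : Cld v F := cld_cadj v N y
  have hFB : F ≤ B := by rw [hBe]; exact le_cadj v F z
  have hzB : z ∈ B := by rw [hBe]; exact self_mem_cadj v F z
  have hBL : B ≤ adj B al := (mem_adj_self B al).2
  obtain ⟨g', hg', -, hg'm⟩ := hlo 1 one_pos
  obtain ⟨g, hg, R, hR, hRb, hAe⟩ := exists_R p hA hg' hg'm
  obtain ⟨γ, hγ⟩ := IsAlgClosed.exists_pow_nat_eq (A.coeff 0) hp.out.pos
  have hγF : γ ^ p ∈ F := by rw [hγ]; exact hA 0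
  obtain ⟨hlim, hfar⟩ := case0_dist p hi (hFB.trans hBL) hNF (hBL hzB) (mem_adj_self B al).1
    hz he hg hRb hAe hhi (fun ε hε => by
      obtain ⟨g, h1, h2, -⟩ := hlo ε hε
      exact ⟨g, h1, h2⟩) ha hγ
  have hγn : γ ∉ F := fun h => (hfar γ h).1 rfl
  have hFi : Imm v F (adj F γ) := imm_of_dist p h0 hFc hγF hlim hfar
  obtain ⟨w, σ, hw, hwF, hFw, hFu⟩ : ∃ (w : Ω) (σ : ℝ), TL v N w σ ∧ w ^ p ∈ F ∧
      adj F γ = cadj v N w ∧ F = cadj v N (w ^ p) :=
    one_step p h0 hc hx hind hy hγF hγn (hy.imm.trans hFi)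
  -- `γ = P(w)`
  have hwn : w ∉ F := by
    intro h
    refine hγn ?_
    have h1 : adj F γ ≤ F := by
      rw [hFw]
      exact cadj_le hFc hNF h
    exact h1 (mem_adj_self F γ).1
  have hγw : γ ∈ adj F w := by
    refine exchange p hwF hγF hwn ?_
    rw [hFw]
    exact self_mem_cadj v N w
  obtain ⟨P, hP, hPd, hPe⟩ := C.exists_rep p hwF hγw
  have hP' : derivative P ≠ 0 := by
    intro h1
    have h2 : P.natDegree = 0 := by
      by_contra h3
      have h4 := congrArg (fun q : Polynomial Ω => q.coeff (P.natDegree - 1)) h1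
      simp only [coeff_derivative, coeff_zero] at h4
      rw [Nat.sub_add_cancel (Nat.pos_of_ne_zero h3)] at h4
      have h5 : ((P.natDegree - 1 : ℕ) : Ω) + 1 = ((P.natDegree : ℕ) : Ω) := by
        rw [← Nat.cast_succ, Nat.succ_eq_add_one, Nat.sub_add_cancel (Nat.pos_of_ne_zero h3)]
      rw [h5] at h4
      rcases mul_eq_zero.1 h4 with h6 | h6
      · rw [coeff_natDegree, leadingCoeff_eq_zero] at h6
        rw [h6, natDegree_zero] at h3
        exact h3 rfl
      · rw [CharP.cast_eq_zero_iff Ω p] at h6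
        exact absurd (Nat.le_of_dvd (Nat.pos_of_ne_zero h3) h6) (not_le.2 hPd)
    rw [eq_C_of_natDegree_eq_zero h2, eval_C] at hPe
    exact hγn (by rw [← hPe]; exact hP 0)
  have hwfar : ∀ a ∈ F, w ≠ a ∧ v (w - a) < σ := by
    rw [hFu]
    exact hw.pfar p
  obtain ⟨δ, η, hδ, hη, hest⟩ := err_est p h0 hFc hwF hwfar hP hPd hP'
  set d := v ((derivative P).eval w) with hd
  -- the distance of `γ` to `F`
  have hdσ : d + σ ≤ kb / p := by
    refine le_of_forall_pos_lt_add fun ε hε => ?_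
    obtain ⟨h, hh, h1⟩ := hw.lim (min ε η) (lt_min hε hη)
    obtain ⟨h2, h3, h4⟩ := hest h (h1.mono (by linarith [min_le_right ε η]))
    obtain ⟨h5, h6⟩ := hwfar h (hNF hh)
    have h7 := hfar (P.eval h) (eval_mem hP (hNF hh))
    have h8 : w - h ≠ 0 := sub_ne_zero.2 h5
    have h9 : (derivative P).eval h * (w - h) ≠ 0 := mul_ne_zero h2 h8
    have h10 : v ((derivative P).eval h * (w - h)) = d + v (w - h) := by
      rw [v.map_mul h2 h8, h3]
    have h11 := Gt.val_eq h9 (y := P.eval w - P.eval h) (Gt.of_ge (ge_sub_comm h4) (by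
      rw [h10]
      linarith))
    have h12 := h7.2
    rw [← hPe, h11.2, h10] at h12
    have h13 := h1 h8
    linarith [min_le_left ε η]
  obtain ⟨h, hh, hhw⟩ := hw.lim η hη
  obtain ⟨h2, h3, h4⟩ := hest h hhw
  set c := (derivative P).eval h with hcdef
  set err := P.eval w - P.eval h - c * (w - h) with herr
  have hhF : h ∈ F := hNF hh
  have hcF : c ∈ F := eval_mem (C.derivative_mem hP) hhF
  have hPhF : P.eval h ∈ F := eval_mem hP hhF
  have herrF : err ^ p ∈ F := by
    have h5 : err ^ p = γ ^ p - P.eval h ^ p - c ^ p * (w ^ p - h ^ p) := by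
      rw [herr, sub_pow_p, sub_pow_p, mul_pow, sub_pow_p, hPe]
    rw [h5]
    exact sub_mem (sub_mem hγF (pow_mem hPhF p)) (mul_mem (pow_mem hcF p)
      (sub_mem hwF (pow_mem hhF p)))
  have hcp : c ^ p ≠ 0 := pow_ne_zero p h2
  have hcv : v (c ^ p) = p * d := by rw [v.map_pow h2, h3]
  have hcinv : v.Ge (-(p * d)) (c ^ p)⁻¹ := fun _ => by rw [v.map_inv hcp, hcv]
  -- the perturbation
  set U : Polynomial Ω := C (w ^ p) + C (c ^ p)⁻¹ * (C (err ^ p) + R) with hU
  have hUF : U ∈ PI (cadj v N (w ^ p)) := by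
    rw [← hFu]
    exact add_mem (C_mem_PI hwF) (mul_mem (C_mem_PI (inv_mem (pow_mem hcF p)))
      (add_mem (C_mem_PI herrF) hR))
  have hδ' : 0 < min (p * δ) e := lt_min (mul_pos hp0 hδ) he
  have hUb : GB v b (p * σ + min (p * δ) e) (U - C (w ^ p)) := by
    rw [hU, add_sub_cancel_left]
    have h5 : GB v b (p * d + (p * σ + min (p * δ) e)) (C (err ^ p) + R) := by
      refine (GB.C ?_).add (hRb.mono ?_)
      · refine (ge_pow h4 p).mono ?_
        have := min_le_left (p * δ) e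
        linarith
      · have h6 := mul_le_mul_of_nonneg_left hdσ hp0.le
        rw [hkp] at h6
        have := min_le_right (p * δ) e
        linarith
    have h6 := GB.C_mul hcinv h5
    refine h6.mono ?_
    linarith
  have heng := engine2 (hw.pow p) hUF hδ' hUb hz
  have hBu : B = cadj v (cadj v N (U.eval z)) z := by rw [heng, ← hFu, hBe]
  -- the root
  have hgB : g.eval z ∈ B := eval_mem (PI_mono hFB hg) hzB
  set β := al - g.eval z - P.eval h with hβ
  have hβp : β ^ p = R.eval z + (c * (w - h) + err) ^ p := by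
    have h5 : c * (w - h) + err = γ - P.eval h := by
      rw [herr, hPe]
      ring
    rw [h5, hβ, sub_pow_p, sub_pow_p, sub_pow_p, ← ha, hγ]
    nth_rewrite 1 [hAe]
    rw [eval_add, eval_add, eval_pow, eval_C]
    ring
  set w₁ := h + β * c⁻¹ with hw₁
  have hw₁p : w₁ ^ p = U.eval z := by
    rw [hw₁, add_pow_char, mul_pow, hβp, add_pow_char, mul_pow, sub_pow_p, hU, eval_add,
      eval_mul, eval_add, eval_C, eval_C, eval_C, inv_pow]
    field_simp
    ring
  have hcB : c ∈ B := hFB hcF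
  have hw₁L : w₁ ∈ adj B al :=
    add_mem (hBL (hFB hhF)) (mul_mem (sub_mem (sub_mem (mem_adj_self B al).1 (hBL hgB))
      (hBL (hFB hPhF))) (inv_mem (hBL hcB)))
  refine ⟨w₁, z, le_antisymm ?_ ?_⟩
  · have h5 : B ≤ cadj v (cadj v N w₁) z := by
      rw [hBu]
      refine cadj_le (cld_cadj _ _ _) (cadj_le (cld_cadj _ _ _)
        ((le_cadj v N w₁).trans (le_cadj v _ z)) ?_) (self_mem_cadj _ _ _)
      rw [← hw₁p]
      exact pow_mem (le_cadj v _ z (self_mem_cadj v N w₁)) p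
    refine adj_le h5 ?_
    have h6 : al = (w₁ - h) * c + g.eval z + P.eval h := by
      rw [hw₁, hβ]
      field_simp
      ring
    rw [h6]
    exact add_mem (add_mem (mul_mem (sub_mem (le_cadj v _ z (self_mem_cadj v N w₁))
      (h5 (hFB hhF))) (h5 hcB)) (h5 hgB)) (h5 (hFB hPhF))
  · have halp : al ^ p ∈ B := by
      rw [← ha]
      exact eval_mem (PI_mono hFB hA) hzB
    exact cadj_le (cld_adj hc hBc (isAlgebraic_of_pow_mem p halp))
      (cadj_le (cld_adj hc hBc (isAlgebraic_of_pow_mem p halp)) (hB.le.trans hBL) hw₁L)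
      (hBL hzB)

end Main

end Pool.Agent.TWM
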