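import Pool.Agent.Lib.TWM.S7a
import Pool.Agent.Lib.TWM.S7w
import Pool.Agent.Lib.TWM.S7z
import Pool.Agent.Lib.TWM.PI2

/-!
# TANK W, M2, row S7: the goal

`B` is the closure of `N(y, z)`, `a = α^p` is the value at `z` of a polynomial `A` over the closure
`F` of `N(y)`, and modulo `p`-th powers a coefficient of index `≤ 1` is responsible for the Gauss
value of `A` at some radius `< v z`. Then `B(α)` is the closure of `N(w, T)`.
-/

set_option autoImplicit false

open Polynomial

namespace Pool.Agent.TWM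

open Pool.Agent.H15JM (RVal)
open Pool.Agent.LU1 (VPos adj)
open Pool.Agent.D2 (Ctx0)
open Pool.Agent.D2P (clI mem_clI adj_le mem_adj_self rootF mem_rootF)

universe u

variable {k Ω : Type u} [Field k] [Field Ω] [Algebra k Ω] {v : RVal Ω} [IsAlgClosed k]
  [IsAlgClosed Ω] {p : ℕ} [hp : Fact p.Prime] [CharP k p] [CharP Ω p]

/-- **Row S7.** -/
theorem goal (h0 : Ctx0 k v) (hc : CompleteV v) {n : ℕ} {x : Fin n → Ω} (hx : ∀ i, x i ≠ 0)
    (hind : LinearIndependent ℚ fun i => v (x i)) {B : IntermediateField k Ω}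
    (hB : Imm v (NN k v x) B) (hBc : Cld v B) {y z : Ω} {ρ : ℝ} (hy : TL v (NN k v x) y ρ)
    (hBe : B = cadj v (cadj v (NN k v x) y) z) {r κ : ℝ} {S : ℕ} (hS : S ≤ 1)
    {A : Polynomial Ω} (h : SL p v (cadj v (NN k v x) y) z r κ S A) (hz0 : z ≠ 0) {al : Ω}
    (ha : A.eval z = al ^ p) (hal : al ∉ B) (hi : Imm v (NN k v x) (adj B al)) :
    ∃ w T : Ω, adj B al = cadj v (cadj v (NN k v x) w) T := by
  obtain ⟨kb, e, he, hhi, hlo⟩ := goal_high hS h hz0
  have hzz : v.Ge (v z) z := RVal.Ge.of_le le_rfl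
  have h1 : ∀ g : Polynomial Ω, (A - g ^ p).coeff 1 = A.coeff 1 := by
    intro g
    rw [coeff_sub, coeff_pow_ite, if_neg, sub_zero]
    intro h
    exact hp.out.one_lt.ne' (Nat.dvd_one.1 h)
  by_cases hW : v.Ge (kb + e / 2 - v z) (A.coeff 1)
  · refine case0 p (e := e / 2) h0 hc hx hind hB hBc hy hBe hzz (by linarith) h.mem hhi
      (fun ε hε => ?_) ha hal hi
    obtain ⟨g, hg, h2, h3⟩ := hlo ε hε
    refine ⟨g, hg, h2, fun m hm => ?_⟩
    rcases Nat.lt_or_ge 1 m with hm1 | hm1
    · exact (h3 m hm1).mono (by linarith)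
    · obtain rfl : m = 1 := by omega
      rw [h1]
      exact hW.mono (by push_cast; linarith)
  · obtain ⟨g, hg, -, h3⟩ := hlo 1 one_pos
    have h4 := caseW hzz he h.mem hg hW h3
    have hFB : cadj v (NN k v x) y ≤ B := by
      rw [hBe]
      exact le_cadj v _ z
    have hzB : z ∈ B := by
      rw [hBe]
      exact self_mem_cadj v _ z
    have hgz : g.eval z ∈ B := eval_mem (PI_mono hFB hg) hzB
    have halp : al ^ p ∈ B := by
      rw [← ha]
      exact eval_mem (PI_mono hFB h.mem) hzB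
    have h5 : (A - g ^ p).eval z = (al - g.eval z) ^ p := by
      rw [eval_sub, eval_pow, ha, sub_pow_char]
    have h6 : B = cadj v (cadj v (NN k v x) y) ((al - g.eval z) ^ p) := by
      rw [← h5, h4, hBe]
    have h7 : B ≤ cadj v (cadj v (NN k v x) y) (al - g.eval z) := by
      conv_lhs => rw [h6]
      exact cadj_le (cld_cadj _ _ _) (le_cadj _ _ _) (pow_mem (self_mem_cadj _ _ _) p)
    refine ⟨y, al - g.eval z, le_antisymm (adj_le h7 ?_) ?_⟩
    · have h8 := add_mem (self_mem_cadj v (cadj v (NN k v x) y) (al - g.eval z)) (h7 hgz)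
      rwa [sub_add_cancel] at h8
    · exact cadj_le (cld_adj' p hc hBc halp) (hFB.trans (mem_adj_self B al).2)
        (sub_mem (mem_adj_self B al).1 ((mem_adj_self B al).2 hgz))

end Pool.Agent.TWM
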