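import Pool.Agent.Lib.TWM.S3a

/-!
# TANK W, M2, row S7: the Gauss norm with the radius `v z`

If modulo `p`-th powers a coefficient of index `≤ 1` is responsible for the Gauss value of `A` at
the radius `r < v z`, then the Gauss value `kb` for the radius `v z` modulo `p`-th powers is finite,
and it is approximated with `g` for which the coefficients of index `> 1` are strictly bigger.
-/

set_option autoImplicit false

open Polynomial

namespace Pool.Agent.TWM

open Pool.Agent.H15JM (RVal)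

universe u

variable {k Ω : Type u} [Field k] [Field Ω] [Algebra k Ω] {v : RVal Ω} {p : ℕ}

theorem goal_high [Fact p.Prime] [CharP Ω p] {F : IntermediateField k Ω} {z : Ω} {r κ : ℝ} {S : ℕ}
    {A : Polynomial Ω} (hS : S ≤ 1) (h : SL p v F z r κ S A) (hz0 : z ≠ 0) :
    ∃ kb e : ℝ, 0 < e ∧
      (∀ e' : ℝ, 0 < e' → ∀ g ∈ PI F, ¬ GB v (v z) (kb + e') (A - g ^ p)) ∧
      (∀ ε : ℝ, 0 < ε → ∃ g ∈ PI F, GB v (v z) (kb - ε) (A - g ^ p) ∧
        ∀ m : ℕ, 1 < m → v.Ge (kb + e - m * v z) ((A - g ^ p).coeff m)) := by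
  classical
  have hrz : r < v z := h.gt hz0
  set b := v z with hb
  have hD : 0 < b - r := by linarith
  let X : Set ℝ := {κ' | ∃ g ∈ PI F, GB v b κ' (A - g ^ p)}
  have hne : X.Nonempty := by
    obtain ⟨g, hg, h1⟩ := h.lo 1 one_pos
    exact ⟨κ - 1, g, hg, h1.radius_le hrz.le⟩
  have hbd : ∀ κ' ∈ X, κ' ≤ κ + S * (b - r) := by
    rintro κ' ⟨g, hg, h1⟩
    by_contra hlt
    rw [not_le] at hlt
    obtain ⟨m, hm, h2⟩ := h.hi (κ' - (κ + S * (b - r))) (by linarith) g hg
    refine h2 ((h1 m).mono ?_)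
    have h3 : (m : ℝ) ≤ S := by exact_mod_cast hm
    have h4 : (m : ℝ) * (b - r) ≤ S * (b - r) := mul_le_mul_of_nonneg_right h3 hD.le
    nlinarith
  have hbdd : BddAbove X := ⟨_, fun κ' hκ' => hbd κ' hκ'⟩
  have hle : sSup X ≤ κ + S * (b - r) := csSup_le hne hbd
  obtain ⟨g₀, hg₀, h0⟩ := h.lo ((b - r) / 2) (by linarith)
  have hhigh : ∀ m : ℕ, S < m → v.Ge (sSup X + (b - r) / 2 - m * b) ((A - g₀ ^ p).coeff m) := by
    intro m hm
    refine (h0 m).mono ?_
    have h2 : ((S : ℝ) + 1) ≤ m := by exact_mod_cast hm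
    have h3 : ((S : ℝ) + 1) * (b - r) ≤ m * (b - r) := mul_le_mul_of_nonneg_right h2 hD.le
    nlinarith
  refine ⟨sSup X, (b - r) / 2, by linarith, fun e' he' g hg h1 => ?_, fun ε hε => ?_⟩
  · have h2 := le_csSup hbdd (show sSup X + e' ∈ X from ⟨g, hg, h1⟩)
    linarith
  · obtain ⟨κ', ⟨g, hg, h1⟩, h2⟩ := exists_lt_of_lt_csSup hne (sub_lt_self (sSup X) hε)
    obtain ⟨g', hg', h7⟩ := exists_glue F (zero_mem F) hg hg₀ (fun j => p * j ≤ S)
    simp only [taylor_zero] at h7
    have hco : ∀ n, (A - g' ^ p).coeff n =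
        if n ≤ S then (A - g ^ p).coeff n else (A - g₀ ^ p).coeff n := by
      intro n
      have h8 : ∀ f : Polynomial Ω, (A - f ^ p).coeff n =
          A.coeff n - if p ∣ n then f.coeff (n / p) ^ p else 0 := by
        intro f
        rw [coeff_sub, coeff_pow_ite]
      rw [h8, h8, h8]
      by_cases hn : p ∣ n
      · rw [if_pos hn, if_pos hn, if_pos hn, h7, Nat.mul_div_cancel' hn]
        split_ifs <;> rfl
      · rw [if_neg hn, if_neg hn, if_neg hn]
        split_ifs <;> rfl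
    refine ⟨g', hg', fun n => ?_, fun n hn => ?_⟩
    · rw [hco]
      split_ifs with hn
      · exact (h1 n).mono (by linarith)
      · exact (hhigh n (not_le.1 hn)).mono (by linarith)
    · rw [hco, if_neg (by omega)]
      exact hhigh n (by omega)

end Pool.Agent.TWM
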