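import Pool.Agent.Lib.TWM.S3b

/-!
# TANK W, M2, row S7: the engine lemmas in a Gauss norm

* `engine1`: `F(U(z))^ = F(z)^` for `U = X + V`, `V` of Gauss norm `> b`, `v z ≥ b`;
* `engine2`: `N⟨u⟩⟨z⟩ = N⟨U(z)⟩⟨z⟩` for `U = u + V`, `V` of Gauss norm `> σ`, `u` of radius `σ`
  over `N`, `v z ≥ b`.
-/

set_option autoImplicit false

open Polynomial

namespace Pool.Agent.TWM

open Pool.Agent.H15JM (RVal)
open Pool.Agent.LU1 (VPos adj)
open Pool.Agent.D2P (hen clI mem_clI mem_adj_self)

universe u

section Comp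

variable {Ω : Type u} [Field Ω] {v : RVal Ω} {b lam e : ℝ} {P U : Polynomial Ω}

/-- Composition with `X + V`. -/
theorem GB_comp_sub (he : 0 ≤ e) (hP : GB v b lam P) (hU : GB v b (b + e) (U - X)) :
    GB v b (lam + e) (P.comp U - P) := by
  have hU' : GB v b b U := by
    have h1 := (GB.X (v := v) (b := b)).add (hU.mono (by linarith : b ≤ b + e))
    rwa [add_sub_cancel] at h1
  have h2 : P.comp U - P = ∑ n ∈ Finset.range (P.natDegree + 1),
      C (P.coeff n) * ((∑ i ∈ Finset.range n, U ^ i * X ^ (n - 1 - i)) * (U - X)) := by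
    conv_lhs => rw [P.as_sum_range_C_mul_X_pow]
    rw [sum_comp, ← Finset.sum_sub_distrib]
    refine Finset.sum_congr rfl fun n _ => ?_
    rw [mul_comp, C_comp, pow_comp, X_comp, ← mul_sub, geom_sum₂_mul]
  rw [h2]
  refine GB.sum _ _ fun n _ => ?_
  rcases Nat.eq_zero_or_pos n with rfl | hn
  · rw [Finset.range_zero, Finset.sum_empty, zero_mul, mul_zero]
    exact GB.zero
  have h3 : GB v b ((n - 1 : ℕ) * b) (∑ i ∈ Finset.range n, U ^ i * X ^ (n - 1 - i)) := by
    refine GB.sum _ _ fun i hi => ?_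
    rw [Finset.mem_range] at hi
    refine ((hU'.pow i).mul ((GB.X (v := v) (b := b)).pow (n - 1 - i))).mono (le_of_eq ?_)
    rw [← add_mul, ← Nat.cast_add]
    congr 2
    omega
  refine (GB.C_mul (hP n) (h3.mul hU)).mono ?_
  have h4 : ((n - 1 : ℕ) : ℝ) = n - 1 := by
    rw [Nat.cast_sub hn, Nat.cast_one]
  rw [h4]
  linarith

/-- Composition with `u + V`. -/
theorem GB_comp_sub_C {u : Ω} {σ δ : ℝ} (hδ : 0 ≤ δ) (hU : GB v b (σ + δ) (U - C u))
    (hP : ∀ i : ℕ, 1 ≤ i → v.Ge (lam - i * σ) ((taylor u P).coeff i)) :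
    GB v b (lam + δ) (P.comp U - C (P.eval u)) := by
  have h1 : P.comp U = (taylor u P).comp (U - C u) := by
    rw [taylor_apply, comp_assoc, add_comp, X_comp, C_comp, sub_add_cancel]
  have h2 : P.comp U - C (P.eval u) = ∑ i ∈ Finset.Ico 1 ((taylor u P).natDegree + 1),
      C ((taylor u P).coeff i) * (U - C u) ^ i := by
    rw [h1]
    conv_lhs => rw [(taylor u P).as_sum_range_C_mul_X_pow]
    rw [sum_comp, Finset.sum_range_eq_add_Ico _ (Nat.succ_pos _), mul_comp, C_comp,
      pow_zero, one_comp, mul_one, taylor_coeff_zero, add_sub_cancel_left]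
    refine Finset.sum_congr rfl fun i _ => ?_
    rw [mul_comp, C_comp, pow_comp, X_comp]
  rw [h2]
  refine GB.sum _ _ fun i hi => ?_
  have hi1 := (Finset.mem_Ico.1 hi).1
  refine (GB.C_mul (hP i hi1) (hU.pow i)).mono ?_
  have h3 : (1 : ℝ) ≤ i := by exact_mod_cast hi1
  nlinarith

end Comp

variable {k Ω : Type u} [Field k] [Field Ω] [Algebra k Ω] {v : RVal Ω}
  {F N : IntermediateField k Ω} {b e : ℝ} {z : Ω} {U : Polynomial Ω}

theorem comp_mem {f g : Polynomial Ω} (hf : f ∈ PI F) (hg : g ∈ PI F) : f.comp g ∈ PI F := by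
  rw [comp_eq_sum_left, Polynomial.sum]
  exact sum_mem fun i _ => mul_mem (C_mem_PI (hf i)) (pow_mem hg i)

/-- **E1.** -/
theorem engine1_mem (hU : U ∈ PI F) (he : 0 < e) (hUb : GB v b (b + e) (U - X))
    (hz : v.Ge b z) {D : IntermediateField k Ω} (hD : Cld v D) (hF : F ≤ D)
    (hw : U.eval z ∈ D) : z ∈ D := by
  have key : ∀ n : ℕ, ∃ P ∈ PI F, GB v b (b + n * e) P ∧ z - P.eval z ∈ D := by
    intro n
    induction n with
    | zero =>
      refine ⟨X, X_mem_PI, ?_, ?_⟩
      · rw [Nat.cast_zero, zero_mul, add_zero]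
        exact GB.X
      · rw [eval_X, sub_self]
        exact zero_mem _
    | succ n ih =>
      obtain ⟨P, hP, h1, h2⟩ := ih
      refine ⟨P - P.comp U, sub_mem hP (comp_mem hP hU), ?_, ?_⟩
      · rw [← neg_sub]
        exact ((GB_comp_sub he.le h1 hUb).mono (by push_cast; linarith)).neg
      · rw [eval_sub, eval_comp]
        have h3 : z - (P.eval z - P.eval (U.eval z)) = (z - P.eval z) + P.eval (U.eval z) := by
          ring
        rw [h3]
        exact add_mem h2 (eval_mem (PI_mono hF hP) hw)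
  refine hD fun M => ?_
  obtain ⟨n, hn⟩ := exists_nat_gt ((M - b) / e)
  obtain ⟨P, hP, h1, h2⟩ := key n
  refine ⟨_, h2, ?_⟩
  rw [sub_sub_cancel]
  refine (h1.eval hz).mono ?_
  rw [div_lt_iff₀ he] at hn
  linarith

/-- **E1.** -/
theorem engine1 (hU : U ∈ PI F) (he : 0 < e) (hUb : GB v b (b + e) (U - X))
    (hz : v.Ge b z) : cadj v F (U.eval z) = cadj v F z := by
  refine le_antisymm ?_ ?_
  · exact cadj_le (cld_cadj v F z) (le_cadj v F z)
      (eval_mem (PI_mono (le_cadj v F z) hU) (self_mem_cadj v F z))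
  · exact cadj_le (cld_cadj v F _) (le_cadj v F _)
      (engine1_mem hU he hUb hz (cld_cadj v F _) (le_cadj v F _) (self_mem_cadj v F _))

/-- `P(U(Z), Z)`. -/
noncomputable def sub1 (U : Polynomial Ω) (P : Polynomial (Polynomial Ω)) : Polynomial Ω :=
  ∑ m ∈ P.support, (P.coeff m).comp U * X ^ m

theorem sub1_eval (P : Polynomial (Polynomial Ω)) (z : Ω) :
    (sub1 U P).eval z = P.evalEval (U.eval z) z := by
  have h1 : P.eval (C z) = ∑ m ∈ P.support, P.coeff m * C z ^ m := by
    rw [eval_eq_sum, Polynomial.sum]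
  rw [sub1, eval_finsetSum, evalEval, h1, eval_finsetSum]
  refine Finset.sum_congr rfl fun m _ => ?_
  rw [eval_mul, eval_comp, eval_pow, eval_X, eval_mul, eval_pow, eval_C]

theorem map_eval_eq (P : Polynomial (Polynomial Ω)) (u : Ω) :
    P.map (evalRingHom u) = ∑ m ∈ P.support, C ((P.coeff m).eval u) * X ^ m := by
  conv_lhs => rw [P.as_sum_support_C_mul_X_pow]
  rw [Polynomial.map_sum]
  refine Finset.sum_congr rfl fun m _ => ?_
  rw [Polynomial.map_mul, map_C, Polynomial.map_pow, map_X, coe_evalRingHom]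

variable [IsAlgClosed Ω]

/-- **E2.** -/
theorem engine2_mem {u : Ω} {σ δ : ℝ} (hu : TL v N u σ) (hU : U ∈ PI (cadj v N u)) (hδ : 0 < δ)
    (hUb : GB v b (σ + δ) (U - C u)) (hz : v.Ge b z) {D : IntermediateField k Ω}
    (hD : Cld v D) (hN : N ≤ D) (hw : U.eval z ∈ D) (hzD : z ∈ D) : u ∈ D := by
  have key : ∀ (n : ℕ) (lam : ℝ) (P : Polynomial (Polynomial Ω)), PII N P →
      GB v b lam (P.map (evalRingHom u)) →
      ∃ d ∈ D, v.Ge (lam + n * δ) (P.evalEval u z - d) := by
    intro n
    induction n with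
    | zero =>
      intro lam P hP h1
      refine ⟨0, zero_mem _, ?_⟩
      rw [Nat.cast_zero, zero_mul, add_zero, sub_zero]
      have h2 := h1.eval hz
      rwa [map_evalRingHom_eval] at h2
    | succ n ih =>
      intro lam P hP h1
      set Q := sub1 U P - P.map (evalRingHom u) with hQ
      have hQe : Q.eval z = P.evalEval (U.eval z) z - P.evalEval u z := by
        rw [hQ, eval_sub, sub1_eval, map_evalRingHom_eval]
      have hQm : Q ∈ PI (cadj v N u) := by
        refine sub_mem (sum_mem fun m _ => mul_mem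
          (comp_mem (PI_mono (le_cadj v N u) (hP m)) hU) (pow_mem X_mem_PI _)) fun m => ?_
        rw [coeff_map, coe_evalRingHom]
        exact eval_mem (PI_mono (le_cadj v N u) (hP m)) (self_mem_cadj v N u)
      have hQb : GB v b (lam + δ) Q := by
        rw [hQ, sub1, map_eval_eq, ← Finset.sum_sub_distrib]
        refine GB.sum _ _ fun m _ => ?_
        rw [← sub_mul]
        have h2 := h1 m
        rw [coeff_map, coe_evalRingHom] at h2
        have h3 : ∀ i : ℕ, 1 ≤ i →
            v.Ge (lam - m * b - i * σ) ((taylor u (P.coeff m)).coeff i) := by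
          intro i _
          by_cases h4 : P.coeff m = 0
          · rw [h4, map_zero, coeff_zero]
            exact RVal.Ge.zero
          · have h5 := PI_mono (le_algc N) (hP m)
            refine (hu.weak h5 h4 i).mono ?_
            have := h2 (hu.eval_ne h5 h4)
            linarith
        refine ((GB_comp_sub_C hδ.le hUb h3).mul ((GB.X (v := v) (b := b)).pow m)).mono ?_
        linarith
      -- approximation
      set M : ℝ := lam + ((n + 1 : ℕ) : ℝ) * δ with hM
      obtain ⟨P', hP', hdeg, hnear⟩ := exists_PII_near hu hQm (|M| + Q.natDegree * |b|)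
      have h4 : GB v b M (Q - P'.map (evalRingHom u)) := by
        intro m
        by_cases hm : m ≤ Q.natDegree
        · refine (hnear m).mono ?_
          have h5 : (m : ℝ) ≤ Q.natDegree := by exact_mod_cast hm
          have h6 : (m : ℝ) * |b| ≤ Q.natDegree * |b| :=
            mul_le_mul_of_nonneg_right h5 (abs_nonneg b)
          have h7 := le_abs_self M
          have h8 : -(m * |b|) ≤ (m : ℝ) * b := by
            have := neg_abs_le b
            have h9 : (0 : ℝ) ≤ m := Nat.cast_nonneg m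
            nlinarith
          linarith
        · rw [not_le] at hm
          rw [coeff_sub, coeff_eq_zero_of_natDegree_lt hm, coeff_map,
            coeff_eq_zero_of_natDegree_lt (lt_of_le_of_lt hdeg hm), map_zero, sub_zero]
          exact RVal.Ge.zero
      have hnδ : lam + δ ≤ M := by
        rw [hM]
        push_cast
        have : (0 : ℝ) ≤ n := Nat.cast_nonneg n
        nlinarith
      have h5 : GB v b (lam + δ) (P'.map (evalRingHom u)) := by
        have := hQb.sub (h4.mono hnδ)
        rwa [sub_sub_cancel] at this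
      obtain ⟨d, hd, h6⟩ := ih (lam + δ) P' hP' h5
      refine ⟨P.evalEval (U.eval z) z - d, sub_mem ?_ hd, ?_⟩
      · rw [evalEval_eq_sum P 0]
        refine sum_mem fun j _ => mul_mem ?_ (pow_mem ?_ _)
        · rw [taylor_zero]
          exact eval_mem (PI_mono hN (hP j)) hw
        · rw [eval_zero, sub_zero]
          exact hzD
      · have h7 : P.evalEval u z - (P.evalEval (U.eval z) z - d) =
            -((Q - P'.map (evalRingHom u)).eval z) - (P'.evalEval u z - d) := by
          rw [eval_sub, hQe, map_evalRingHom_eval]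
          ring
        rw [h7]
        refine (h4.eval hz).neg.sub (h6.mono ?_)
        rw [hM]
        push_cast
        linarith
  refine hD fun M => ?_
  obtain ⟨n, hn⟩ := exists_nat_gt ((M - v u) / δ)
  obtain ⟨d, hd, h1⟩ := key n (v u) (C X) (fun j => by
    rw [coeff_C]
    split_ifs
    · exact X_mem_PI
    · exact zero_mem _) (by
    rw [map_C, coe_evalRingHom, eval_X]
    exact GB.C (RVal.ge_self u))
  refine ⟨d, hd, ?_⟩
  rw [evalEval_C, eval_X] at h1
  refine h1.mono ?_
  rw [div_lt_iff₀ hδ] at hn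
  linarith

/-- **E2.** -/
theorem engine2 {u : Ω} {σ δ : ℝ} (hu : TL v N u σ) (hU : U ∈ PI (cadj v N u)) (hδ : 0 < δ)
    (hUb : GB v b (σ + δ) (U - C u)) (hz : v.Ge b z) :
    cadj v (cadj v N (U.eval z)) z = cadj v (cadj v N u) z := by
  set E := cadj v (cadj v N u) z
  set D := cadj v (cadj v N (U.eval z)) z
  have hE : Cld v E := cld_cadj v _ z
  have hD : Cld v D := cld_cadj v _ z
  have hzE : z ∈ E := self_mem_cadj v _ z
  have hzD : z ∈ D := self_mem_cadj v _ z
  have hFE : cadj v N u ≤ E := le_cadj v _ z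
  have hFD : cadj v N (U.eval z) ≤ D := le_cadj v _ z
  have hND : N ≤ D := (le_cadj v N _).trans hFD
  have hwD : U.eval z ∈ D := hFD (self_mem_cadj v N _)
  refine le_antisymm ?_ ?_
  · refine cadj_le hE (cadj_le hE ((le_cadj v N u).trans hFE) ?_) hzE
    exact eval_mem (PI_mono hFE hU) hzE
  · exact cadj_le hD (cadj_le hD hND (engine2_mem hu hU hδ hUb hz hD hND hwD hzD)) hzD

end Pool.Agent.TWM
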