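import Pool.Agent.Lib.TWM.S8b
import Pool.Agent.Lib.TWM.NNp

/-!
# TANK W, M2, row S8c: Newton's lemma, Laurent polynomials

* `newton1`: Newton's lemma in a closed subfield of a complete field;
* `LPR`, `LPR_dense`: the ring `k[x^{±1}, s]` is dense in an immediate extension generated by `s`;
* `ln s j P`: the polynomial `P(s)`, in which `s_j` is replaced by `s_j (1 + X)`;
* `newton_step`: `P(s)` near `b` and a bounded logarithmic derivative give `P(s') = b`.
-/

set_option autoImplicit false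

open Polynomial

namespace Pool.Agent.TWM

open Pool.Agent.H15JM (RVal)
open Pool.Agent.LU1 (VPos adj)
open Pool.Agent.LUC (Cl clF)
open Pool.Agent.D2 (Ctx0)
open Pool.Agent.D2P (hen clI mem_clI mem_adj_self adj_le)
open Pool.Agent.TW (mon pcomb Orth PBasis BD kr Near tay mx)

universe u

variable {k Ω : Type u} [Field k] [Field Ω] [Algebra k Ω] {v : RVal Ω} {r : ℕ}

/-! ### Newton's lemma -/

theorem pow_sub_ge {a b : Ω} {τ c : ℝ} (ha : v.Ge τ a) (hb : v.Ge τ b) (h : v.Ge c (a - b)) (l : ℕ) :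
    v.Ge (c + (l - 1 : ℕ) * τ) (a ^ l - b ^ l) := by
  rw [← geom_sum₂_mul, Finset.sum_mul]
  refine RVal.Ge.sum _ _ fun i hi => ?_
  have hi' : i + (l - 1 - i) = l - 1 := by
    have := Finset.mem_range.1 hi
    omega
  refine (((ge_pow ha i).mul (ge_pow hb (l - 1 - i))).mul h).mono (le_of_eq ?_)
  rw [← hi']
  push_cast
  have h2 : ((l - 1 - i : ℕ) : ℝ) = ((i + (l - 1 - i) - i : ℕ) : ℝ) := by congr 1; omega
  rw [← h2]
  ring

/-- Newton's lemma in a closed subfield of a complete field. -/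
theorem newton1 (hc : CompleteV v) {B : IntermediateField k Ω} (hB : Cld v B) {g : Polynomial Ω}
    (hg : g ∈ PI B) {τ : ℝ} (h1 : g.coeff 1 ≠ 0) (h0 : v.Ge (v (g.coeff 1) + τ) (g.coeff 0))
    (hl : ∀ l : ℕ, 2 ≤ l → v.Ge (v (g.coeff 1) + 1 - (l - 1 : ℕ) * τ) (g.coeff l)) :
    ∃ η ∈ B, v.Ge τ η ∧ g.eval η = 0 := by
  set b₁ := g.coeff 1 with hb₁
  let Φ : Ω → Ω := fun η => η - g.eval η / b₁
  -- the contraction
  have hexp : ∀ η, g.eval η = g.coeff 0 + b₁ * η +
      ∑ l ∈ Finset.range (g.natDegree + 1), if 2 ≤ l then g.coeff l * η ^ l else 0 := by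
    intro η
    rw [eval_eq_sum_range' (n := g.natDegree + 1 + 2) (by omega)]
    have h2 : ∑ l ∈ Finset.range (g.natDegree + 1), (if 2 ≤ l then g.coeff l * η ^ l else 0) =
        ∑ l ∈ Finset.range (g.natDegree + 1 + 2), (if 2 ≤ l then g.coeff l * η ^ l else 0) := by
      symm
      rw [Finset.sum_range_succ, Finset.sum_range_succ]
      rw [coeff_eq_zero_of_natDegree_lt (by omega : g.natDegree < g.natDegree + 1 + 1),
        coeff_eq_zero_of_natDegree_lt (by omega : g.natDegree < g.natDegree + 1)]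
      simp
    rw [h2, Finset.sum_range_succ' _ (g.natDegree + 1 + 1), Finset.sum_range_succ' _ (g.natDegree + 1),
      Finset.sum_range_succ' _ (g.natDegree + 1 + 1), Finset.sum_range_succ' _ (g.natDegree + 1)]
    have h3 : ∀ l : ℕ, 2 ≤ l + 1 + 1 := fun l => by omega
    simp only [h3, if_true, zero_add, pow_zero, mul_one, pow_one]
    norm_num
    rw [hb₁]
    ring
  have hlip : ∀ (η η' : Ω) (c : ℝ), v.Ge τ η → v.Ge τ η' → v.Ge (τ + c) (η - η') →
      v.Ge (τ + c + 1) (Φ η - Φ η') := by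
    intro η η' c hη hη' hd
    have h2 : Φ η - Φ η' = - ((∑ l ∈ Finset.range (g.natDegree + 1),
        if 2 ≤ l then g.coeff l * (η ^ l - η' ^ l) else 0) * b₁⁻¹) := by
      show (η - g.eval η / b₁) - (η' - g.eval η' / b₁) = _
      rw [hexp η, hexp η']
      have h3 : ∑ l ∈ Finset.range (g.natDegree + 1),
          (if 2 ≤ l then g.coeff l * (η ^ l - η' ^ l) else 0) =
          ∑ l ∈ Finset.range (g.natDegree + 1), (if 2 ≤ l then g.coeff l * η ^ l else 0) -
          ∑ l ∈ Finset.range (g.natDegree + 1), (if 2 ≤ l then g.coeff l * η' ^ l else 0) := by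
        rw [← Finset.sum_sub_distrib]
        refine Finset.sum_congr rfl fun l _ => ?_
        split_ifs
        · ring
        · ring
      rw [h3]
      field_simp
      ring
    rw [h2]
    refine RVal.Ge.neg ?_
    have h3 : v.Ge (v b₁ + (τ + c + 1)) (∑ l ∈ Finset.range (g.natDegree + 1),
        if 2 ≤ l then g.coeff l * (η ^ l - η' ^ l) else 0) := by
      refine RVal.Ge.sum _ _ fun l _ => ?_
      split_ifs with h4
      · exact ((hl l h4).mul (pow_sub_ge hη hη' hd l)).mono (by linarith)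
      · exact RVal.Ge.zero
    have h4 : v.Ge (- v b₁) b₁⁻¹ := fun _ => by rw [v.map_inv h1]
    exact (h3.mul h4).mono (by linarith)
  have hΦ0 : v.Ge τ (Φ 0) := by
    have h2 : Φ 0 = - (g.coeff 0 * b₁⁻¹) := by
      show 0 - g.eval 0 / b₁ = _
      rw [← coeff_zero_eq_eval_zero]
      ring
    rw [h2]
    have h4 : v.Ge (- v b₁) b₁⁻¹ := fun _ => by rw [v.map_inv h1]
    exact ((h0.mul h4).mono (by linarith)).neg
  have hΦB : ∀ η ∈ B, Φ η ∈ B := fun η hη => sub_mem hη (div_mem (eval_mem hg hη) (hg 1))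
  have hΦτ : ∀ η, v.Ge τ η → v.Ge τ (Φ η) := by
    intro η hη
    have h2 := hlip η 0 0 hη RVal.Ge.zero (by rw [sub_zero, add_zero]; exact hη)
    rw [show Φ η = (Φ η - Φ 0) + Φ 0 by ring]
    exact (h2.mono (by linarith)).add hΦ0
  let e : ℕ → Ω := fun n => Φ^[n] 0
  have hes : ∀ n, e (n + 1) = Φ (e n) := fun n => Function.iterate_succ_apply' Φ n 0
  have heB : ∀ n, e n ∈ B := by
    intro n
    induction n with
    | zero => exact zero_mem _
    | succ n ih => rw [hes]; exact hΦB _ ih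
  have heτ : ∀ n, v.Ge τ (e n) := by
    intro n
    induction n with
    | zero => exact RVal.Ge.zero
    | succ n ih => rw [hes]; exact hΦτ _ ih
  have hed : ∀ n : ℕ, v.Ge (τ + n) (e (n + 1) - e n) := by
    intro n
    induction n with
    | zero =>
      rw [Nat.cast_zero, add_zero, show e 0 = 0 from rfl, sub_zero]
      exact heτ 1
    | succ n ih =>
      rw [hes (n + 1)]
      conv => arg 3; arg 2; rw [hes n]
      refine (hlip _ _ _ (heτ _) (heτ _) ih).mono (le_of_eq ?_)
      push_cast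
      ring
  have hed' : ∀ (n m : ℕ), v.Ge (τ + n) (e (n + m) - e n) := by
    intro n m
    induction m with
    | zero => rw [add_zero, sub_self]; exact RVal.Ge.zero
    | succ m ih =>
      rw [show e (n + (m + 1)) - e n = (e (n + m + 1) - e (n + m)) + (e (n + m) - e n) by
        rw [← add_assoc]; ring]
      refine ((hed (n + m)).mono ?_).add ih
      push_cast
      have : (0 : ℝ) ≤ m := Nat.cast_nonneg m
      linarith
  obtain ⟨η, hη⟩ := hc e (by
    intro c
    obtain ⟨N, hN⟩ := exists_nat_ge (c - τ)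
    refine ⟨N, fun m n hm hn => ?_⟩
    obtain ⟨m', rfl⟩ := Nat.exists_eq_add_of_le hm
    obtain ⟨n', rfl⟩ := Nat.exists_eq_add_of_le hn
    rw [show e (N + m') - e (N + n') = (e (N + m') - e N) - (e (N + n') - e N) by ring]
    exact ((hed' N m').sub (hed' N n')).mono (by linarith))
  have hηB : η ∈ B := by
    refine hB (mem_clI.2 fun c => ?_)
    obtain ⟨N, hN⟩ := hη c
    exact ⟨e N, heB N, hN N le_rfl⟩
  have hητ : v.Ge τ η := by
    obtain ⟨N, hN⟩ := hη τ
    rw [show η = (η - e N) + e N by ring]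
    exact (hN N le_rfl).add (heτ N)
  refine ⟨η, hηB, hητ, ?_⟩
  have h2 : η - Φ η = 0 := by
    refine eq_zero_of_ge_all (v := v) fun c => ?_
    obtain ⟨N, hN⟩ := hη (max c (τ + (c - τ)))
    rw [show η - Φ η = (η - e (N + 1)) + (Φ (e N) - Φ η) by rw [hes]; ring]
    refine ((hN (N + 1) (Nat.le_succ N)).mono (le_max_left _ _)).add ?_
    refine (hlip (e N) η (c - τ) (heτ N) hητ ?_).mono (by linarith)
    exact ge_sub_comm ((hN N le_rfl).mono (le_max_right _ _))
  have h3 : η - Φ η = g.eval η / b₁ := by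
    show η - (η - g.eval η / b₁) = _
    ring
  rw [h3, div_eq_zero_iff] at h2
  exact h2.resolve_right h1

/-! ### Laurent polynomials in `x`, polynomials in the other coordinates -/

theorem lead_NN (h : Ctx0 k v) {x : Fin r → Ω} (hx : ∀ i, x i ≠ 0)
    (hind : LinearIndependent ℚ fun i => v (x i)) {B : IntermediateField k Ω}
    (hB : Imm v (NN k v x) B) {b : Ω} (hb : b ∈ B) (hb0 : b ≠ 0) :
    ∃ (c : k) (l : Fin r → ℤ), c ≠ 0 ∧ v (mx x l) = v b ∧
      Gt v (v b) (b - algebraMap k Ω c * mx x l) := by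
  obtain ⟨a, ha, h1⟩ := hB.imm b hb hb0
  obtain ⟨h2, h3⟩ := Gt.val_eq hb0 h1
  obtain ⟨l, hl⟩ := val_NN h hx hind ha h2
  have hm0 : mx x l ≠ 0 := mx_ne hx l
  have hml : v (mx x l) = v a := by rw [v_mx hx, hl]; rfl
  have hq0 : a / mx x l ≠ 0 := div_ne_zero h2 hm0
  obtain ⟨c, hc0, hc⟩ := h.res (a / mx x l) hq0 (by rw [v.map_div h2 hm0, hml, sub_self])
  refine ⟨c, l, hc0, by rw [hml, h3], ?_⟩
  rw [show b - algebraMap k Ω c * mx x l = (b - a) + (a - algebraMap k Ω c * mx x l) by ring]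
  refine h1.add ?_
  have h4 : a - algebraMap k Ω c * mx x l = (a / mx x l - algebraMap k Ω c) * mx x l := by
    field_simp
  rw [h4]
  intro h5
  have h6 : a / mx x l - algebraMap k Ω c ≠ 0 := left_ne_zero_of_mul h5
  rw [v.map_mul h6 hm0, hml, h3]
  have h7 := hc h6
  linarith

section LP

variable {n : ℕ} {x : Fin r → Ω} {s : Fin n → Ω} {e : Fin r → Fin n} (hx : ∀ i, x i ≠ 0)
  (he : ∀ i, s (e i) = x i)

include he in
theorem mx_nonneg {q : Fin r → ℤ} (hq : ∀ i, 0 ≤ q i) :
    ∃ Q : MvPolynomial (Fin n) k, mx x q = MvPolynomial.aeval s Q := by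
  refine ⟨∏ i, MvPolynomial.X (e i) ^ (q i).toNat, ?_⟩
  rw [map_prod, mx]
  refine Finset.prod_congr rfl fun i _ => ?_
  rw [map_pow, MvPolynomial.aeval_X, he, ← zpow_natCast, Int.toNat_of_nonneg (hq i)]

include hx in
theorem mx_split {p : ℕ} (l m : Fin r → ℤ) :
    mx x l ^ p = mx x (l ⊓ m) ^ p * mx x (p • (l - l ⊓ m)) := by
  rw [← mx_pow, ← mx_pow, ← mx_add hx]
  congr 1
  rw [smul_sub]
  abel

theorem sub_inf_nonneg {p : ℕ} (l m : Fin r → ℤ) (i : Fin r) : 0 ≤ (p • (l - l ⊓ m)) i := by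
  have h1 : (l ⊓ m) i ≤ l i := inf_le_left (a := l) (b := m) i
  rw [Pi.smul_apply, Pi.sub_apply, nsmul_eq_mul]
  exact mul_nonneg (Nat.cast_nonneg _) (by linarith)

/-- The ring `k[x^{±1}, s]`. -/
def LPR (k : Type u) {Ω : Type u} [Field k] [Field Ω] [Algebra k Ω] {n r : ℕ} {x : Fin r → Ω}
    {s : Fin n → Ω} {e : Fin r → Fin n} (p : ℕ) (hx : ∀ i, x i ≠ 0) (he : ∀ i, s (e i) = x i) :
    Subring Ω where
  carrier := {u | ∃ (l : Fin r → ℤ) (P : MvPolynomial (Fin n) k),
    u = mx x l ^ p * MvPolynomial.aeval s P}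
  mul_mem' := by
    rintro _ _ ⟨l, P, rfl⟩ ⟨l', P', rfl⟩
    refine ⟨l + l', P * P', ?_⟩
    rw [mx_add hx, map_mul, mul_pow]
    ring
  one_mem' := ⟨0, 1, by simp [mx]⟩
  add_mem' := by
    rintro _ _ ⟨l, P, rfl⟩ ⟨l', P', rfl⟩
    obtain ⟨Q, hQ⟩ := mx_nonneg (k := k) he (sub_inf_nonneg (p := p) l l')
    obtain ⟨Q', hQ'⟩ := mx_nonneg (k := k) he (sub_inf_nonneg (p := p) l' l)
    refine ⟨l ⊓ l', Q * P + Q' * P', ?_⟩
    rw [mx_split hx l l', mx_split hx l' l, hQ, hQ', map_add, map_mul, map_mul,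
      inf_comm l' l]
    ring
  zero_mem' := ⟨0, 0, by simp⟩
  neg_mem' := by
    rintro _ ⟨l, P, rfl⟩
    exact ⟨l, -P, by rw [map_neg]; ring⟩

theorem mem_LPR {p : ℕ} {u : Ω} : u ∈ LPR k p hx he ↔ ∃ (l : Fin r → ℤ)
    (P : MvPolynomial (Fin n) k), u = mx x l ^ p * MvPolynomial.aeval s P := Iff.rfl

theorem mono_mem_LPR {p : ℕ} (hp : 0 < p) (c : k) (m : Fin r → ℤ) :
    algebraMap k Ω c * mx x m ∈ LPR k p hx he := by
  have hp' : (0 : ℤ) < p := by exact_mod_cast hp
  obtain ⟨Q, hQ⟩ := mx_nonneg (k := k) (q := fun i => m i % p) he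
    fun i => Int.emod_nonneg _ hp'.ne'
  refine ⟨fun i => m i / p, MvPolynomial.C c * Q, ?_⟩
  rw [map_mul, MvPolynomial.aeval_C, ← hQ, ← mx_pow]
  have h1 : mx x m = mx x (p • fun i => m i / p) * mx x (fun i => m i % p) := by
    rw [← mx_add hx]
    congr 1
    funext i
    rw [Pi.add_apply, Pi.smul_apply, nsmul_eq_mul]
    exact (Int.mul_ediv_add_emod (m i) p).symm
  rw [h1]
  ring

theorem aeval_mem_LPR {p : ℕ} (P : MvPolynomial (Fin n) k) :
    MvPolynomial.aeval s P ∈ LPR k p hx he := ⟨0, P, by simp [mx]⟩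

/-- `k[x^{±1}, s]` is dense in the closed field generated by `s`, if this is immediate over the
closure of `k(x)`. -/
theorem LPR_dense (h : Ctx0 k v) (hind : LinearIndependent ℚ fun i => v (x i)) {p : ℕ} (hp : 0 < p)
    {B : IntermediateField k Ω} (hB : Imm v (NN k v x) B) (hgen : clI v (kr k s) = B) {a : Ω}
    (ha : a ∈ B) (c : ℝ) : ∃ w ∈ LPR k p hx he, v.Ge c (a - w) := by
  have hsB : ∀ i, s i ∈ B := fun i => by
    rw [← hgen]
    exact le_clI _ (IntermediateField.subset_adjoin k _ ⟨i, rfl⟩)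
  have hLB : ∀ w ∈ LPR k p hx he, w ∈ B := by
    rintro _ ⟨l, P, rfl⟩
    refine mul_mem (pow_mem (prod_mem fun i _ => zpow_mem ?_ _) p) (TW.P4.aeval_mem hsB P)
    rw [← he]
    exact hsB _
  have hlead : ∀ l ∈ LPR k p hx he, l ≠ 0 → ∃ t ∈ LPR k p hx he, t ≠ 0 ∧
      t⁻¹ ∈ LPR k p hx he ∧ v t = v l ∧ Gt v (v l) (l - t) := by
    intro w hw hw0
    obtain ⟨c, l, hc, hl, h1⟩ := lead_NN h hx hind hB (hLB w hw) hw0
    have hc' : algebraMap k Ω c ≠ 0 := (_root_.map_ne_zero _).2 hc
    refine ⟨_, mono_mem_LPR hx he hp c l, mul_ne_zero hc' (mx_ne hx l), ?_, ?_, h1⟩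
    · have h2 := mono_mem_LPR hx he hp c⁻¹ (-l)
      have h3 : (algebraMap k Ω c * mx x l)⁻¹ = algebraMap k Ω c⁻¹ * mx x (-l) := by
        rw [mul_inv, map_inv₀]
        congr 1
        have h4 : mx x l * mx x (-l) = 1 := by
          rw [← mx_add hx, add_neg_cancel]
          simp [mx]
        exact inv_eq_of_mul_eq_one_right h4
      rwa [h3]
    · rw [v.map_mul hc' (mx_ne hx l), h.triv c hc, hl, zero_add]
  let L : IntermediateField k Ω := Subfield.toIntermediateField
    { ClR v (LPR k p hx he) with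
      inv_mem' := fun _ ha => ClR_inv hlead ha }
    fun c => le_ClR _ (by
      have h1 := mono_mem_LPR hx he hp c 0
      have h2 : mx x 0 = 1 := by simp [mx]
      rwa [h2, mul_one] at h1)
  have hle : kr k s ≤ L := by
    rw [kr, IntermediateField.adjoin_le_iff]
    rintro _ ⟨i, rfl⟩
    refine le_ClR _ ?_
    have h1 := aeval_mem_LPR (p := p) hx he (MvPolynomial.X i : MvPolynomial (Fin n) k)
    rwa [MvPolynomial.aeval_X] at h1
  rw [← hgen] at ha
  have h1 : a ∈ ClR v (LPR k p hx he) := by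
    refine ClR_ClR fun c => ?_
    obtain ⟨a', ha', h2⟩ := (mem_clI.1 ha) c
    exact ⟨a', hle ha', h2⟩
  exact h1 c

end LP

/-! ### The change of one coordinate -/

section Ln

variable {n : ℕ}

/-- The polynomial `P(s)` in which `s_j` is replaced by `s_j (1 + X)`. -/
noncomputable def ln (s : Fin n → Ω) (j : Fin n) (P : MvPolynomial (Fin n) k) : Polynomial Ω :=
  MvPolynomial.aeval (fun i => C (s i) * (if i = j then 1 + X else 1)) P

theorem ln_eval (s : Fin n → Ω) (j : Fin n) (P : MvPolynomial (Fin n) k) (η : Ω) :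
    (ln s j P).eval η = MvPolynomial.aeval (Function.update s j (s j * (1 + η))) P := by
  have h1 : ((Polynomial.aeval (R := Ω) η).restrictScalars k).comp (MvPolynomial.aeval
      (fun i => C (s i) * (if i = j then 1 + X else 1))) =
      MvPolynomial.aeval (Function.update s j (s j * (1 + η))) := by
    ext i
    simp only [AlgHom.comp_apply, MvPolynomial.aeval_X, AlgHom.restrictScalars_apply, map_mul,
      Polynomial.aeval_C, Algebra.algebraMap_self, RingHom.id_apply]
    by_cases hij : i = j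
    · subst hij
      simp
    · simp [hij]
  have h2 := DFunLike.congr_fun h1 P
  rw [← h2]
  rfl

theorem ln_mem {B : IntermediateField k Ω} {s : Fin n → Ω} (hs : ∀ i, s i ∈ B) (j : Fin n)
    (P : MvPolynomial (Fin n) k) : ln s j P ∈ PI B := by
  induction P using MvPolynomial.induction_on with
  | C c =>
    rw [ln, MvPolynomial.aeval_C]
    exact C_mem_PI (B.algebraMap_mem c)
  | add P Q hP hQ =>
    rw [ln, map_add]
    exact add_mem hP hQ
  | mul_X P i hP =>
    rw [ln, map_mul, MvPolynomial.aeval_X]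
    refine mul_mem hP (mul_mem (C_mem_PI (hs i)) ?_)
    split_ifs
    · exact add_mem (one_mem _) X_mem_PI
    · exact one_mem _

theorem ln_coeff (s : Fin n → Ω) (j : Fin n) (P : MvPolynomial (Fin n) k) (l : ℕ) :
    (ln s j P).coeff l = (tay s P).coeff (Finsupp.single j l) := by
  classical
  have h1 : ((MvPolynomial.aeval (R := Ω) (fun i : Fin n => if i = j then (X : Polynomial Ω) else 0)
      ).restrictScalars k).comp (MvPolynomial.aeval
      (fun i => MvPolynomial.C (s i) * (1 + MvPolynomial.X i))) =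
      MvPolynomial.aeval (fun i => C (s i) * (if i = j then 1 + X else 1)) := by
    ext1 i
    simp only [AlgHom.comp_apply, MvPolynomial.aeval_X, AlgHom.restrictScalars_apply, map_mul,
      MvPolynomial.aeval_C, map_add, map_one]
    by_cases hij : i = j
    · simp [hij]
    · simp [hij]
  have h2 : ln s j P = MvPolynomial.aeval (R := Ω) (fun i : Fin n => if i = j then (X : Polynomial Ω) else 0)
      (tay s P) := by
    have := DFunLike.congr_fun h1 P
    exact this.symm
  rw [h2]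
  generalize tay s P = T
  induction T using MvPolynomial.induction_on' with
  | monomial m a =>
    rw [MvPolynomial.aeval_monomial, MvPolynomial.coeff_monomial, Finsupp.prod_fintype _ _
      (fun i => pow_zero _)]
    have h3 : (∏ i, (if i = j then (X : Polynomial Ω) else 0) ^ m i) =
        if m = Finsupp.single j (m j) then X ^ m j else 0 := by
      split_ifs with h4
      · rw [Finset.prod_eq_single j]
        · simp
        · intro i _ hi
          rw [h4, Finsupp.single_eq_of_ne hi, pow_zero]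
        · intro h
          exact absurd (Finset.mem_univ _) h
      · obtain ⟨i, hi, hmi⟩ : ∃ i, i ≠ j ∧ m i ≠ 0 := by
          by_contra hcon
          push Not at hcon
          apply h4
          ext i
          by_cases hij : i = j
          · rw [hij, Finsupp.single_eq_same]
          · rw [hcon i hij, Finsupp.single_eq_of_ne hij]
        refine Finset.prod_eq_zero (Finset.mem_univ i) ?_
        rw [if_neg hi, zero_pow hmi]
    rw [h3]
    show (C a * _).coeff l = _
    rw [coeff_C_mul]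
    by_cases h4 : m = Finsupp.single j (m j)
    · rw [if_pos h4, coeff_X_pow]
      by_cases h5 : l = m j
      · rw [if_pos h5, if_pos (by rw [h5]; exact h4), mul_one]
      · rw [if_neg h5, if_neg, mul_zero]
        intro h6
        apply h5
        rw [h6, Finsupp.single_eq_same]
    · rw [if_neg h4, coeff_zero, mul_zero, if_neg]
      intro h6
      apply h4
      rw [h6, Finsupp.single_eq_same]
  | add T T' hT hT' =>
    rw [map_add, coeff_add, hT, hT', MvPolynomial.coeff_add]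

theorem ln_zero (s : Fin n → Ω) (j : Fin n) (P : MvPolynomial (Fin n) k) :
    (ln s j P).coeff 0 = MvPolynomial.aeval s P := by
  rw [coeff_zero_eq_eval_zero, ln_eval, add_zero, mul_one, Function.update_eq_self]

/-- The logarithmic derivative. -/
theorem ln_one {p : ℕ} [Fact p.Prime] [CharP Ω p] (s : Fin n → Ω) (j : Fin n)
    (Q : (Fin n → Fin p) → MvPolynomial (Fin n) k) :
    (ln s j (∑ α, Q α ^ p * ∏ i, MvPolynomial.X i ^ (α i : ℕ))).coeff 1 =
      ∑ α, MvPolynomial.aeval s (Q α) ^ p * mon s α * ((α j : ℕ) : Ω) := by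
  classical
  rw [ln, map_sum, finsetSum_coeff]
  refine Finset.sum_congr rfl fun α _ => ?_
  have hp : ¬ p ∣ 1 := fun h => (Fact.out : p.Prime).one_lt.ne' (Nat.dvd_one.1 h)
  have h1 : MvPolynomial.aeval (fun i => C (s i) * (if i = j then 1 + X else 1))
      (∏ i, (MvPolynomial.X i : MvPolynomial (Fin n) k) ^ (α i : ℕ)) =
      C (mon s α) * (1 + X) ^ (α j : ℕ) := by
    rw [map_prod]
    simp only [map_pow, MvPolynomial.aeval_X, mul_pow, Finset.prod_mul_distrib]
    congr 1
    · rw [mon, map_prod]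
      exact Finset.prod_congr rfl fun i _ => by rw [map_pow]
    · rw [Finset.prod_eq_single j]
      · simp
      · intro i _ hi
        simp [hi]
      · intro h
        exact absurd (Finset.mem_univ _) h
  rw [map_mul, map_pow, h1, mul_coeff_one]
  have h2 : (MvPolynomial.aeval (fun i => C (s i) * (if i = j then 1 + X else 1)) (Q α) ^ p
      : Polynomial Ω).coeff 1 = 0 := coeff_pow_char _ hp
  have h3 : (MvPolynomial.aeval (fun i => C (s i) * (if i = j then 1 + X else 1)) (Q α) ^ p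
      : Polynomial Ω).coeff 0 = MvPolynomial.aeval s (Q α) ^ p := by
    rw [coeff_zero_eq_eval_zero, eval_pow, ← coeff_zero_eq_eval_zero]
    rw [show (MvPolynomial.aeval (fun i => C (s i) * (if i = j then 1 + X else 1)) (Q α) : Polynomial Ω) =
      ln s j (Q α) from rfl, ln_zero]
  rw [h2, h3, zero_mul, add_zero, coeff_C_mul, coeff_one_add_X_pow, Nat.choose_one_right]
  ring

end Ln

/-! ### The logarithmic derivative -/

section Th

variable {p : ℕ} [Fact p.Prime] [CharP Ω p] {n : ℕ} {s : Fin n → Ω} {B : IntermediateField k Ω}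
  {κ : ℝ}

/-- The logarithmic derivative of `∑ c_α^p s^α` with respect to `s_j`. -/
noncomputable def th (s : Fin n → Ω) (j : Fin n) (c : (Fin n → Fin p) → Ω) : Ω :=
  ∑ α, c α ^ p * mon s α * ((α j : ℕ) : Ω)

theorem th_sub_ge (ho : OI p v B s κ) (j : Fin n) {c c' : (Fin n → Fin p) → Ω}
    (hc : ∀ α, c α ∈ B) (hc' : ∀ α, c' α ∈ B) {b : ℝ} (h : v.Ge b (pcomb s c - pcomb s c')) :
    v.Ge (b - κ) (th s j c - th s j c') := by
  rw [pcomb_sub] at h
  have h1 : th s j c - th s j c' = ∑ α, (c α - c' α) ^ p * mon s α * ((α j : ℕ) : Ω) := by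
    rw [th, th, ← Finset.sum_sub_distrib]
    refine Finset.sum_congr rfl fun α _ => ?_
    rw [sub_pow_char]
    ring
  rw [h1]
  refine RVal.Ge.sum _ _ fun α _ => ?_
  refine ((ho _ (fun α => sub_mem (hc α) (hc' α)) b h α).mul (ge_natCast v (α j : ℕ))).mono
    (by linarith)

theorem th_ne (ho : OI p v B s κ) (hs0 : ∀ i, s i ≠ 0) (j : Fin n) {c : (Fin n → Fin p) → Ω}
    (hc : ∀ α, c α ∈ B) {α : Fin n → Fin p} (hα : c α ≠ 0) (hj : (α j : ℕ) ≠ 0) :
    th s j c ≠ 0 := by
  intro h0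
  have h1 : th s j c = pcomb s fun α => ((α j : ℕ) : Ω) * c α := by
    rw [th, pcomb]
    refine Finset.sum_congr rfl fun α _ => ?_
    have h2 : ((α j : ℕ) : Ω) ^ p = ((α j : ℕ) : Ω) := map_natCast (frobenius Ω p) (α j : ℕ)
    rw [mul_pow, h2]
    ring
  rw [h1] at h0
  have h2 := ho.ind hs0 _ (fun α => mul_mem (natCast_mem B _) (hc α)) h0 α
  rcases mul_eq_zero.1 h2 with h3 | h3
  · rw [CharP.cast_eq_zero_iff Ω p] at h3
    exact hj (Nat.eq_zero_of_dvd_of_lt h3 (α j).2)
  · exact hα h3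

/-- Newton's lemma: a small change of the coordinate `s_j`. -/
theorem newton_step [IsAlgClosed k] [CharP k p] (hcv : CompleteV v) (hB : Cld v B)
    (hs0 : ∀ i, s i ≠ 0) (hpb : PBasis p B s) (ho : OI p v B s κ) (j : Fin n)
    {c : (Fin n → Fin p) → Ω} (hc : ∀ α, c α ∈ B) (hb0 : pcomb s c ≠ 0) (hth : th s j c ≠ 0)
    {τ : ℝ} (hτ : |v (th s j c) - v (pcomb s c)| + 1 + 2 * p * max κ 0 ≤ τ)
    {P : MvPolynomial (Fin n) k} (hP : v.Ge (τ + v (th s j c)) (pcomb s c - MvPolynomial.aeval s P)) :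
    ∃ η ∈ B, v.Ge τ η ∧
      MvPolynomial.aeval (Function.update s j (s j * (1 + η))) P = pcomb s c := by
  classical
  have hp2 : (2 : ℝ) ≤ p := by exact_mod_cast (Fact.out : p.Prime).two_le
  have hκ0 : 0 ≤ max κ 0 := le_max_right _ _
  have hκ1 : κ ≤ max κ 0 := le_max_left _ _
  have hK1 := le_abs_self (v (th s j c) - v (pcomb s c))
  have hK2 := neg_abs_le (v (th s j c) - v (pcomb s c))
  have hK3 := abs_nonneg (v (th s j c) - v (pcomb s c))
  have hpκ : max κ 0 ≤ p * max κ 0 := by nlinarith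
  -- the value of `P(s)`
  obtain ⟨hP0, hPv⟩ := Gt.val_eq hb0 (Gt.of_ge hP (by linarith))
  obtain ⟨Q, -, hPQ⟩ := TW.P4.exists_decomp p P le_rfl
  have hPc : MvPolynomial.aeval s P = pcomb s fun α => MvPolynomial.aeval s (Q α) := by
    conv_lhs => rw [hPQ]
    exact TW.P4.aeval_decomp s Q
  -- the derivative
  have h1 : (ln s j P).coeff 1 = th s j fun α => MvPolynomial.aeval s (Q α) := by
    conv_lhs => rw [hPQ]
    exact ln_one s j Q
  have h2 : v.Ge (τ + v (th s j c) - κ) (th s j c - (ln s j P).coeff 1) := by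
    rw [h1]
    refine th_sub_ge ho j hc (fun α => TW.P4.aeval_mem hpb.mem (Q α)) ?_
    rw [← hPc]
    exact hP
  obtain ⟨h3, h4⟩ := Gt.val_eq hth (Gt.of_ge h2 (by linarith))
  have hg : ln s j P - C (pcomb s c) ∈ PI B := by
    refine sub_mem (ln_mem hpb.mem j P) (C_mem_PI ?_)
    exact sum_mem fun α _ => mul_mem (pow_mem (hc α) p) (hpb.mon_mem α)
  have hg0 : (ln s j P - C (pcomb s c)).coeff 0 = MvPolynomial.aeval s P - pcomb s c := by
    rw [coeff_sub, coeff_C_zero, ln_zero]
  have hgl : ∀ l : ℕ, l ≠ 0 → (ln s j P - C (pcomb s c)).coeff l = (ln s j P).coeff l := by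
    intro l hl
    rw [coeff_sub, coeff_C_of_ne_zero hl, sub_zero]
  have ho' : Orth p v B s (max κ 0) := (ho.mono le_rfl hκ1).orth
  obtain ⟨η, hη, hητ, h5⟩ := newton1 (τ := τ) hcv hB hg (by rw [hgl 1 one_ne_zero]; exact h3) (by
    rw [hgl 1 one_ne_zero, hg0, h4]
    exact (ge_sub_comm hP).mono (by linarith)) (by
    intro l hl
    rw [hgl 1 one_ne_zero, hgl l (by omega), h4, ln_coeff]
    refine (TW.taylor_bound p hs0 hpb hκ0 ho' P hP0 (Finsupp.single j l)).mono ?_
    rw [Finsupp.degree_single, hPv]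
    have h6 : (l : ℝ) = ((l - 1 : ℕ) : ℝ) + 1 := by
      rw [Nat.cast_sub (by omega)]
      push_cast
      ring
    have h7 : (1 : ℝ) ≤ ((l - 1 : ℕ) : ℝ) := by
      exact_mod_cast (by omega : 1 ≤ l - 1)
    rw [h6]
    set m : ℝ := ((l - 1 : ℕ) : ℝ)
    have h8 : (m - 1) * (|v (th s j c) - v (pcomb s c)| + 1) ≥ 0 :=
      mul_nonneg (by linarith) (by linarith)
    have h9 : m * (|v (th s j c) - v (pcomb s c)| + 1 + 2 * p * max κ 0) ≤ m * τ :=
      mul_le_mul_of_nonneg_left hτ (by linarith)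
    have h10 : 0 ≤ (m - 1) * (p * max κ 0) := mul_nonneg (by linarith) (by positivity)
    nlinarith)
  refine ⟨η, hη, hητ, ?_⟩
  rw [eval_sub, eval_C, ln_eval, sub_eq_zero] at h5
  exact h5

end Th

end Pool.Agent.TWM
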