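import Pool.Agent.Lib.TWM.Ent1
import Pool.Agent.Lib.TWM.S8n

/-!
# TANK W, M2, row S8c: exact polynomials

* `OI.base'`: the monomials of `x` are orthogonal over the `p`-th powers of every field with the
  values of `k(x)`;
* `exact_near`: the `p`-th power `a = al^p` in `B` of an element `al` which generates an extension
  immediate over the closure of `k(x)` is the value of a polynomial over this closure at generators
  of `B` near to the given ones;
* `exact`: the same, without the condition of nearness.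
-/

set_option autoImplicit false

open Polynomial

namespace Pool.Agent.TWM

open Pool.Agent.H15JM (RVal)
open Pool.Agent.LU1 (VPos adj)
open Pool.Agent.LUC (Cl clF)
open Pool.Agent.D2 (Ctx0)
open Pool.Agent.D2P (hen clI mem_clI mem_adj_self adj_le)
open Pool.Agent.TW (mon pcomb Orth PBasis BD kr Near tay mx)

universe u

variable {k Ω : Type u} [Field k] [Field Ω] [Algebra k Ω] {v : RVal Ω} {r : ℕ}

/-- The monomials of `x` are orthogonal over the `p`-th powers. -/
theorem OI.base' (p : ℕ) [Fact p.Prime] {x : Fin r → Ω} (hx : ∀ i, x i ≠ 0)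
    (hxi : LinearIndependent ℚ fun i => v (x i)) {B : IntermediateField k Ω}
    (hB : ∀ b ∈ B, b ≠ 0 → ∃ l : Fin r → ℤ, v b = ∑ i, l i * v (x i)) : OI p v B x 0 := by
  classical
  intro c hc b hb α
  rw [sub_zero]
  have hp : 0 < p := (Fact.out : p.Prime).pos
  by_cases hcα : c α = 0
  · rw [hcα, zero_pow hp.ne', zero_mul]
    exact RVal.Ge.zero
  set S : Finset (Fin r → Fin p) := Finset.univ.filter fun β => c β ≠ 0 with hS
  have hsum : pcomb x c = ∑ β ∈ S, c β ^ p * mon x β := by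
    rw [pcomb, hS, Finset.sum_filter]
    refine Finset.sum_congr rfl fun β _ => ?_
    split_ifs with h1
    · rfl
    · push Not at h1
      rw [h1, zero_pow hp.ne', zero_mul]
  have hne : ∀ β ∈ S, c β ^ p * mon x β ≠ 0 := fun β hβ =>
    mul_ne_zero (pow_ne_zero _ (Finset.mem_filter.1 hβ).2) (mon_ne hx β)
  choose l hl using fun β : {β // c β ≠ 0} => hB _ (hc β.1) β.2
  have hval : ∀ β (hβ : c β ≠ 0), v (c β ^ p * mon x β) =
      ∑ i, ((p * l ⟨β, hβ⟩ i + ((β i : ℕ) : ℤ) : ℤ) : ℝ) * v (x i) := by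
    intro β hβ
    rw [v.map_mul (pow_ne_zero _ hβ) (mon_ne hx β), v.map_pow hβ, hl ⟨β, hβ⟩, mon,
      v.map_prod _ _ fun i _ => pow_ne_zero _ (hx i), Finset.mul_sum, ← Finset.sum_add_distrib]
    refine Finset.sum_congr rfl fun i _ => ?_
    rw [v.map_pow (hx i)]
    push_cast
    ring
  obtain ⟨β, hβ, h1, h2, h3⟩ := val_sum_distinct (v := v) S (fun β => c β ^ p * mon x β) hne (by
    intro β hβ β' hβ' he
    have hβ0 := (Finset.mem_filter.1 hβ).2
    have hβ0' := (Finset.mem_filter.1 hβ').2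
    rw [hval β hβ0, hval β' hβ0'] at he
    have h3 : ∑ i, (((p * l ⟨β, hβ0⟩ i + ((β i : ℕ) : ℤ) : ℤ) : ℚ) -
        ((p * l ⟨β', hβ0'⟩ i + ((β' i : ℕ) : ℤ) : ℤ) : ℚ)) • v (x i) = 0 := by
      simp only [Rat.smul_def]
      push_cast
      push_cast at he
      simp only [sub_mul]
      rw [Finset.sum_sub_distrib, he, sub_self]
    have h4 := Fintype.linearIndependent_iff.1 hxi _ h3
    funext i
    have h5 := sub_eq_zero.1 (h4 i)
    have h6 : (p : ℤ) * l ⟨β, hβ0⟩ i + ((β i : ℕ) : ℤ) = p * l ⟨β', hβ0'⟩ i + ((β' i : ℕ) : ℤ) := by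
      exact_mod_cast h5
    have h7 : ((β i : ℕ) : ℤ) % p = ((β' i : ℕ) : ℤ) % p := by
      have h8 := congrArg (· % (p : ℤ)) h6
      simpa [Int.add_mul_emod_self_left, add_comm] using h8
    have h8 : ((β i : ℕ) : ℤ) = ((β' i : ℕ) : ℤ) := by
      rw [Int.emod_eq_of_lt (by positivity) (by exact_mod_cast (β i).2),
        Int.emod_eq_of_lt (by positivity) (by exact_mod_cast (β' i).2)] at h7
      exact h7
    exact Fin.ext (by exact_mod_cast h8)) ⟨α, Finset.mem_filter.2 ⟨Finset.mem_univ _, hcα⟩⟩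
  intro _
  have h4 := h3 α (Finset.mem_filter.2 ⟨Finset.mem_univ _, hcα⟩)
  rw [hsum] at hb
  have h5 := hb h1
  rw [h2] at h5
  exact h5.trans h4

/-! ### Polynomials in two variables -/

/-- The polynomials with coefficients in `A`, in two variables. -/
def PIIr (A : IntermediateField k Ω) : Subring (Polynomial (Polynomial Ω)) where
  carrier := {P | PII A P}
  mul_mem' := by
    intro f g hf hg i
    rw [coeff_mul]
    exact sum_mem fun x _ => mul_mem (hf _) (hg _)
  one_mem' := by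
    intro i
    rw [coeff_one]
    split_ifs
    exacts [one_mem _, zero_mem _]
  add_mem' := by
    intro f g hf hg i
    rw [coeff_add]
    exact add_mem (hf i) (hg i)
  zero_mem' := by
    intro i
    rw [coeff_zero]
    exact zero_mem _
  neg_mem' := by
    intro f hf i
    rw [coeff_neg]
    exact neg_mem (hf i)

theorem C_mem_PIIr {A : IntermediateField k Ω} {f : Polynomial Ω} (hf : f ∈ PI A) :
    C f ∈ PIIr A := fun i => by
  rw [coeff_C]
  split_ifs
  exacts [hf, zero_mem _]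

theorem X_mem_PIIr {A : IntermediateField k Ω} : (X : Polynomial (Polynomial Ω)) ∈ PIIr A :=
  fun i => by
  rw [coeff_X]
  split_ifs
  exacts [one_mem _, zero_mem _]

/-- The polynomial `P(x, Y, Z)`. -/
noncomputable def xyz (x : Fin r → Ω) (P : MvPolynomial (Fin (r + 1 + 1)) k) :
    Polynomial (Polynomial Ω) :=
  MvPolynomial.aeval (Fin.snoc (Fin.snoc (fun i => C (C (x i))) (C X) :
    Fin (r + 1) → Polynomial (Polynomial Ω)) X : Fin (r + 1 + 1) → Polynomial (Polynomial Ω)) P

theorem xyz_mem {A : IntermediateField k Ω} {x : Fin r → Ω} (hx : ∀ i, x i ∈ A)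
    (P : MvPolynomial (Fin (r + 1 + 1)) k) : xyz x P ∈ PIIr A := by
  induction P using MvPolynomial.induction_on with
  | C c =>
    rw [xyz, MvPolynomial.aeval_C]
    exact C_mem_PIIr (C_mem_PI (A.algebraMap_mem c))
  | add P Q hP hQ =>
    rw [xyz, map_add]
    exact add_mem hP hQ
  | mul_X P i hP =>
    rw [xyz, map_mul, MvPolynomial.aeval_X]
    refine mul_mem hP ?_
    refine Fin.lastCases ?_ (fun j => ?_) i
    · rw [Fin.snoc_last]
      exact X_mem_PIIr
    · rw [Fin.snoc_castSucc]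
      refine Fin.lastCases ?_ (fun j => ?_) j
      · rw [Fin.snoc_last]
        exact C_mem_PIIr X_mem_PI
      · rw [Fin.snoc_castSucc]
        exact C_mem_PIIr (C_mem_PI (hx j))

theorem xyz_eval (x : Fin r → Ω) (P : MvPolynomial (Fin (r + 1 + 1)) k) (y z : Ω) :
    (xyz x P).evalEval y z = MvPolynomial.aeval
      (Fin.snoc (Fin.snoc x y : Fin (r + 1) → Ω) z : Fin (r + 1 + 1) → Ω) P := by
  induction P using MvPolynomial.induction_on with
  | C c =>
    rw [xyz, MvPolynomial.aeval_C, MvPolynomial.aeval_C]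
    show (C (C (algebraMap k Ω c))).evalEval y z = _
    rw [evalEval_C, eval_C]
  | add P Q hP hQ =>
    rw [xyz, map_add, map_add, evalEval_add]
    exact congrArg₂ _ hP hQ
  | mul_X P i hP =>
    rw [xyz, map_mul, map_mul, MvPolynomial.aeval_X, MvPolynomial.aeval_X, evalEval_mul]
    refine congrArg₂ _ hP ?_
    refine Fin.lastCases ?_ (fun j => ?_) i
    · rw [Fin.snoc_last, Fin.snoc_last, evalEval_X]
    · rw [Fin.snoc_castSucc, Fin.snoc_castSucc]
      refine Fin.lastCases ?_ (fun j => ?_) j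
      · rw [Fin.snoc_last, Fin.snoc_last, evalEval_C, eval_X]
      · rw [Fin.snoc_castSucc, Fin.snoc_castSucc, evalEval_C, eval_C]

/-! ### The coefficients of `al^p` -/

/-- `al^p` is not in `N B^p`. -/
theorem exists_index (p : ℕ) [Fact p.Prime] [CharP Ω p] {x : Fin r → Ω} (hx : ∀ i, x i ≠ 0)
    (hxi : LinearIndependent ℚ fun i => v (x i)) (h : Ctx0 k v) {B : IntermediateField k Ω}
    {y z al : Ω} {c : (Fin (r + 1 + 1) → Fin p) → Ω} (hc : ∀ α, c α ∈ B)
    (hal : al ^ p = pcomb (Fin.snoc (Fin.snoc x y : Fin (r + 1) → Ω) z : Fin (r + 1 + 1) → Ω) c)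
    (halB : al ∉ B) (himm : Imm v (NN k v x) (adj B al)) :
    ∃ α, c α ≠ 0 ∧ ((α (Fin.last r).castSucc : ℕ) ≠ 0 ∨ (α (Fin.last (r + 1)) : ℕ) ≠ 0) := by
  classical
  by_contra hcon
  push Not at hcon
  have hp : 0 < p := (Fact.out : p.Prime).pos
  have hv : ∀ b ∈ adj B al, b ≠ 0 → ∃ l : Fin r → ℤ, v b = ∑ i, l i * v (x i) := by
    intro b hb hb0
    obtain ⟨a, ha, h1⟩ := himm.imm b hb hb0
    obtain ⟨h2, h3⟩ := Gt.val_eq hb0 h1
    obtain ⟨l, hl⟩ := val_NN h hx hxi ha h2
    exact ⟨l, by rw [← h3, hl]⟩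
  have hO := OI.base' p hx hxi hv
  let z₀ : Fin p := ⟨0, hp⟩
  have hz₀ : ∀ i : Fin p, i ≠ z₀ → (i : ℕ) ≠ 0 := fun i hi h1 => hi (Fin.ext h1)
  let c' : (Fin r → Fin p) → Ω := fun β => c (Fin.snoc (Fin.snoc β z₀ : Fin (r + 1) → Fin p) z₀)
  have h1 : al ^ p = pcomb x c' := by
    rw [hal, pcomb, sum_snoc, Finset.sum_eq_single z₀, sum_snoc, Finset.sum_eq_single z₀]
    · rw [pcomb]
      refine Finset.sum_congr rfl fun β _ => ?_
      rw [mon_snoc, mon_snoc]
      simp [c', z₀]
    · intro j _ hj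
      refine Finset.sum_eq_zero fun β _ => ?_
      have h2 : c (Fin.snoc (Fin.snoc β j : Fin (r + 1) → Fin p) z₀) = 0 := by
        by_contra h2
        have h3 := (hcon _ h2).1
        rw [Fin.snoc_castSucc, Fin.snoc_last] at h3
        exact hz₀ j hj h3
      rw [h2, zero_pow hp.ne', zero_mul]
    · intro h2
      exact absurd (Finset.mem_univ _) h2
    · intro i _ hi
      refine Finset.sum_eq_zero fun β _ => ?_
      have h2 : c (Fin.snoc β i) = 0 := by
        by_contra h2
        have h3 := (hcon _ h2).2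
        rw [Fin.snoc_last] at h3
        exact hz₀ i hi h3
      rw [h2, zero_pow hp.ne', zero_mul]
    · intro h2
      exact absurd (Finset.mem_univ _) h2
  let β₀ : Fin r → Fin p := fun _ => z₀
  let d : (Fin r → Fin p) → Ω := fun β => if β = β₀ then al else 0
  have h2 : pcomb x d = al ^ p := by
    rw [pcomb, Finset.sum_eq_single β₀]
    · simp [d, mon, β₀, z₀]
    · intro β _ hβ
      simp [d, hβ, hp.ne']
    · intro h3
      exact absurd (Finset.mem_univ _) h3
  have h3 : pcomb x (fun β => c' β - d β) = 0 := by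
    rw [← pcomb_sub, ← h1, h2, sub_self]
  have h4 := hO.ind hx _ (fun β => by
    refine sub_mem ((mem_adj_self B al).2 (hc _)) ?_
    dsimp only [d]
    split_ifs
    · exact (mem_adj_self B al).1
    · exact zero_mem _) h3 β₀
  have h5 : al = c' β₀ := by
    have h6 : d β₀ = al := by simp [d]
    rw [h6] at h4
    exact (sub_eq_zero.1 h4).symm
  exact halB (by rw [h5]; exact hc _)

/-! ### Exact polynomials -/

/-- **Row S8c**, with generators near the given ones. -/
theorem exact_near [IsAlgClosed k] (p : ℕ) [Fact p.Prime] [CharP k p] [CharP Ω p] (h : Ctx0 k v)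
    (hcv : CompleteV v) {x : Fin r → Ω} (hx : ∀ i, x i ≠ 0)
    (hxi : LinearIndependent ℚ fun i => v (x i)) {B : IntermediateField k Ω}
    (hB : Imm v (NN k v x) B) {y z : Ω} (hgen : B = cadj v (cadj v (NN k v x) y) z) {κ : ℝ}
    (ho : OI p v B (Fin.snoc (Fin.snoc x y : Fin (r + 1) → Ω) z : Fin (r + 1 + 1) → Ω) κ)
    (hy0 : y ≠ 0) (hz0 : z ≠ 0) {al : Ω} (hal : al ^ p ∈ B) (halB : al ∉ B)
    (himm : Imm v (NN k v x) (adj B al)) (R : ℝ) :
    ∃ (y' z' : Ω) (A : Polynomial (Polynomial Ω)), PII (NN k v x) A ∧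
      A.evalEval y' z' = al ^ p ∧ B = cadj v (cadj v (NN k v x) y') z' ∧ y' ≠ 0 ∧ z' ≠ 0 ∧
      v.Ge R (y - y') ∧ v.Ge R (z - z') := by
  classical
  have hp0 : p ≠ 0 := (Fact.out : p.Prime).ne_zero
  set s : Fin (r + 1 + 1) → Ω := Fin.snoc (Fin.snoc x y : Fin (r + 1) → Ω) z with hs
  have hsl : s (Fin.last (r + 1)) = z := by rw [hs, Fin.snoc_last]
  have hsm : s (Fin.last r).castSucc = y := by rw [hs, Fin.snoc_castSucc, Fin.snoc_last]
  have hsx : ∀ i : Fin r, s i.castSucc.castSucc = x i := fun i => by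
    rw [hs, Fin.snoc_castSucc, Fin.snoc_castSucc]
  have hs0 : ∀ i, s i ≠ 0 := by
    intro i
    refine Fin.lastCases ?_ (fun j => ?_) i
    · rw [hsl]
      exact hz0
    · refine Fin.lastCases ?_ (fun j => ?_) j
      · rw [hsm]
        exact hy0
      · rw [hsx]
        exact hx j
  have hgen' : clI v (kr k s) = B := by rw [hgen, cadj_cadj_NN]
  have hBc : Cld v B := by
    rw [← hgen']
    exact cld_clI v _
  have hpb : PBasis p B s := pbasis_of_gen hcv hgen' ho hs0
  obtain ⟨δ, hδ⟩ := pert (p := p) h hgen' ho hs0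
  -- the coefficients of `a`
  obtain ⟨c, hc, hac⟩ := hpb.span _ hal
  obtain ⟨α, hα, hα'⟩ := exists_index p hx hxi h hc hac halB himm
  have ha0 : al ^ p ≠ 0 := fun h0 => halB (by
    rw [pow_eq_zero_iff hp0] at h0
    rw [h0]
    exact zero_mem _)
  -- the index `j` which is changed
  obtain ⟨j, hj, hαj⟩ : ∃ j : Fin (r + 1 + 1), (j = (Fin.last r).castSucc ∨ j = Fin.last (r + 1)) ∧
      (α j : ℕ) ≠ 0 := by
    rcases hα' with h1 | h1
    · exact ⟨_, Or.inl rfl, h1⟩
    · exact ⟨_, Or.inr rfl, h1⟩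
  have hth : th s j c ≠ 0 := th_ne ho hs0 j hc hα hαj
  set τ : ℝ := max (|v (th s j c) - v (pcomb s c)| + 1 + 2 * p * max κ 0)
    (max (R - v (s j)) (δ - v (s j))) with hτ
  have hτ1 : |v (th s j c) - v (pcomb s c)| + 1 + 2 * p * max κ 0 ≤ τ := le_max_left _ _
  have hτ2 : R - v (s j) ≤ τ := (le_max_left _ _).trans (le_max_right _ _)
  have hτ3 : δ - v (s j) ≤ τ := (le_max_right _ _).trans (le_max_right _ _)
  have hτ0 : 0 < τ := by
    have h1 := abs_nonneg (v (th s j c) - v (pcomb s c))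
    have h2 : (0 : ℝ) ≤ 2 * p * max κ 0 := by positivity
    linarith
  -- the approximation
  obtain ⟨w, ⟨l, P, hw⟩, hwa⟩ := LPR_dense (e := fun i : Fin r => i.castSucc.castSucc) hx hsx h hxi
    (Fact.out : p.Prime).pos hB hgen' hal (τ + v (th s j c))
  set g : Ω := mx x l with hg
  have hg0 : g ≠ 0 := mx_ne hx l
  have hgB : g ∈ B := hB.le (mx_mem_NN x l)
  have hgp : g ^ p ≠ 0 := pow_ne_zero p hg0
  let c₁ : (Fin (r + 1 + 1) → Fin p) → Ω := fun α => c α / g
  have hc₁ : ∀ α, c₁ α ∈ B := fun α => div_mem (hc α) hgB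
  have h1 : pcomb s c₁ = pcomb s c / g ^ p := by
    rw [pcomb, pcomb, Finset.sum_div]
    refine Finset.sum_congr rfl fun α _ => ?_
    show (c α / g) ^ p * _ = _
    rw [div_pow]
    ring
  have h2 : th s j c₁ = th s j c / g ^ p := by
    rw [th, th, Finset.sum_div]
    refine Finset.sum_congr rfl fun α _ => ?_
    show (c α / g) ^ p * _ * _ = _
    rw [div_pow]
    ring
  have hpc0 : pcomb s c ≠ 0 := by rw [← hac]; exact ha0
  have hb0 : pcomb s c₁ ≠ 0 := by rw [h1]; exact div_ne_zero hpc0 hgp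
  have hth₁ : th s j c₁ ≠ 0 := by rw [h2]; exact div_ne_zero hth hgp
  have h3 : v (th s j c₁) - v (pcomb s c₁) = v (th s j c) - v (pcomb s c) := by
    rw [h1, h2, v.map_div hth hgp, v.map_div hpc0 hgp]
    ring
  obtain ⟨η, hη, hητ, hPη⟩ := newton_step hcv hBc hs0 hpb ho j hc₁ hb0 hth₁ (τ := τ)
    (by rw [h3]; exact hτ1) (P := P) (by
      have h4 : pcomb s c₁ - MvPolynomial.aeval s P = (al ^ p - w) * (g ^ p)⁻¹ := by
        rw [h1, ← hac, hw]
        field_simp
      have h5 : v.Ge (- v (g ^ p)) (g ^ p)⁻¹ := fun _ => by rw [v.map_inv hgp]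
      rw [h4, h2, v.map_div hth hgp]
      exact (hwa.mul h5).mono (by linarith))
  have hxN : ∀ i, x i ∈ NN k v x := fun i =>
    le_clI _ (IntermediateField.subset_adjoin k (Set.range x) ⟨i, rfl⟩)
  -- the new coordinates
  set s' : Fin (r + 1 + 1) → Ω := Function.update s j (s j * (1 + η)) with hs'
  have hη1 : 1 + η ≠ 0 := by
    intro h0
    have h6 : η = -1 := by linear_combination h0
    rw [h6] at hητ
    have h7 := hητ (neg_ne_zero.2 one_ne_zero)
    rw [v.map_neg 1 one_ne_zero, v.map_one] at h7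
    linarith
  have hs'B : ∀ i, s' i ∈ B := by
    intro i
    rw [hs']
    by_cases hij : i = j
    · rw [hij, Function.update_self]
      exact mul_mem (hpb.mem j) (add_mem (one_mem _) hη)
    · rw [Function.update_of_ne hij]
      exact hpb.mem i
  have hs'0 : ∀ i, s' i ≠ 0 := by
    intro i
    rw [hs']
    by_cases hij : i = j
    · rw [hij, Function.update_self]
      exact mul_ne_zero (hs0 j) hη1
    · rw [Function.update_of_ne hij]
      exact hs0 i
  have hnear : ∀ (c : ℝ), c - v (s j) ≤ τ → ∀ i, v.Ge c (s i - s' i) := by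
    intro c hc i
    rw [hs']
    by_cases hij : i = j
    · rw [hij, Function.update_self, show s j - s j * (1 + η) = - (s j * η) by ring]
      exact (((v.ge_self (s j)).mul hητ).mono (by linarith)).neg
    · rw [Function.update_of_ne hij, sub_self]
      exact RVal.Ge.zero
  have hgen'' : clI v (kr k s') = B := hδ s' hs'B (hnear δ hτ3)
  have hs'x : s' = (Fin.snoc (Fin.snoc x (s' (Fin.last r).castSucc) : Fin (r + 1) → Ω)
      (s' (Fin.last (r + 1))) : Fin (r + 1 + 1) → Ω) := by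
    funext i
    refine Fin.lastCases ?_ (fun i => ?_) i
    · rw [Fin.snoc_last]
    · rw [Fin.snoc_castSucc]
      refine Fin.lastCases ?_ (fun i => ?_) i
      · rw [Fin.snoc_last]
      · rw [Fin.snoc_castSucc]
        have hne : i.castSucc.castSucc ≠ j := by
          rcases hj with rfl | rfl
          · intro h6
            exact Fin.castSucc_ne_last i (Fin.castSucc_injective _ h6)
          · exact Fin.castSucc_ne_last _
        rw [hs', Function.update_of_ne hne, hsx]
  refine ⟨s' (Fin.last r).castSucc, s' (Fin.last (r + 1)), C (C (g ^ p)) * xyz x P, ?_, ?_, ?_,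
    hs'0 _, hs'0 _, ?_, ?_⟩
  · exact (PIIr (NN k v x)).mul_mem (C_mem_PIIr (C_mem_PI (pow_mem (mx_mem_NN x l) p)))
      (xyz_mem hxN P)
  · rw [evalEval_mul, evalEval_C, eval_C, xyz_eval, ← hs'x, hPη, h1, ← hac]
    field_simp
  · rw [cadj_cadj_NN, ← hs'x]
    exact hgen''.symm
  · rw [← hsm]
    exact hnear R hτ2 _
  · rw [← hsl]
    exact hnear R hτ2 _

/-- **Row S8c.** -/
theorem exact [IsAlgClosed k] (p : ℕ) [Fact p.Prime] [CharP k p] [CharP Ω p] (h : Ctx0 k v)
    (hcv : CompleteV v) {x : Fin r → Ω} (hx : ∀ i, x i ≠ 0)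
    (hxi : LinearIndependent ℚ fun i => v (x i)) {B : IntermediateField k Ω}
    (hB : Imm v (NN k v x) B) {y z : Ω} (hgen : B = cadj v (cadj v (NN k v x) y) z) {κ : ℝ}
    (ho : OI p v B (Fin.snoc (Fin.snoc x y : Fin (r + 1) → Ω) z : Fin (r + 1 + 1) → Ω) κ)
    (hy0 : y ≠ 0) (hz0 : z ≠ 0) {al : Ω} (hal : al ^ p ∈ B) (halB : al ∉ B)
    (himm : Imm v (NN k v x) (adj B al)) :
    ∃ (y' z' : Ω) (A : Polynomial (Polynomial Ω)), PII (NN k v x) A ∧
      A.evalEval y' z' = al ^ p ∧ B = cadj v (cadj v (NN k v x) y') z' ∧ y' ≠ 0 ∧ z' ≠ 0 := by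
  obtain ⟨y', z', A, h1, h2, h3, h4, h5, -⟩ := exact_near p h hcv hx hxi hB hgen ho hy0 hz0 hal
    halB himm 0
  exact ⟨y', z', A, h1, h2, h3, h4, h5⟩

end Pool.Agent.TWM
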