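import Pool.Agent.Lib.TWM.S8b
import Pool.Agent.Lib.TWM.Ent1

/-!
# TANK W, M2, row S8d: the exit from a closed field with two free jumps

* `pbasis_cl`: a `p`-basis of `E` with bounded distortion is a `p`-basis of the closure of `E`;
* `OI_gen_bd`: `OI_gen` for a closed field with bounded derivations;
* `exit'`: if the closure of `E` is generated by `w` and `T` over `NN k v x`, `HRone v E` holds.
-/

set_option autoImplicit false

open Polynomial

namespace Pool.Agent.TWM

open Pool.Agent.H15JM (RVal)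
open Pool.Agent.LU1 (VPos adj)
open Pool.Agent.LUC (Cl clF)
open Pool.Agent.D2 (Ctx0)
open Pool.Agent.D2P (hen clI mem_clI mem_adj_self adj_le mem_hen hen_hen hen_mono)
open Pool.Agent.TW (mon pcomb Orth PBasis BD Qp mem_Qp Qp_le' Bas Spn Ind Orthq BDq sm kr HRone Ctx Full)

universe u

variable {k Ω : Type u} [Field k] [Field Ω] [Algebra k Ω] {v : RVal Ω} {r : ℕ}

section Gen

variable {p : ℕ} [Fact p.Prime] [CharP Ω p]

/-- A `p`-basis of `E` with bounded distortion is a `p`-basis of the closure of `E`. -/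
theorem pbasis_cl (hc : CompleteV v) {E : IntermediateField k Ω} {n : ℕ} {t : Fin n → Ω} {C : ℝ}
    (ht : PBasis p E t) (ho : OI p v E t C) (ht0 : ∀ i, t i ≠ 0) : PBasis p (clI v E) t := by
  have hp : 0 < p := (Fact.out : p.Prime).pos
  have hp' : (p : ℝ) ≠ 0 := by exact_mod_cast hp.ne'
  have hcl : Cld v (clI v E) := cld_clI v _
  have hle : E ≤ clI v E := le_clI _
  have htB : ∀ i, t i ∈ clI v E := fun i => hle (ht.mem i)
  have ho' : OI p v (clI v E) t C := ho.cl
  refine ⟨htB, fun u hu => ?_, fun c hc' h0 α => ho'.ind ht0 c hc' h0 α⟩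
  -- approximations of `u`
  have h1 : ∀ m : ℕ, ∃ c : (Fin n → Fin p) → Ω, (∀ α, c α ∈ clI v E) ∧
      v.Ge (m : ℝ) (u - pcomb t c) := by
    intro m
    obtain ⟨w, hw, h2⟩ := mem_clI.1 hu (m : ℝ)
    obtain ⟨c, hcm, rfl⟩ := ht.span w hw
    exact ⟨c, fun α => hle (hcm α), h2⟩
  choose c hcB hcu using h1
  -- the coefficients are Cauchy sequences
  have h2 : ∀ α, ∀ b : ℝ, ∃ N : ℕ, ∀ m m' : ℕ, N ≤ m → N ≤ m' → v.Ge b (c m α - c m' α) := by
    intro α b
    obtain ⟨N, hN⟩ := exists_nat_ge (p * b + v (mon t α) + C)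
    refine ⟨N, fun m m' hm hm' => ?_⟩
    have h3 : v.Ge (N : ℝ) (pcomb t fun α => c m α - c m' α) := by
      rw [← pcomb_sub, show pcomb t (c m) - pcomb t (c m') =
        (u - pcomb t (c m')) - (u - pcomb t (c m)) by ring]
      exact ((hcu m').mono (by exact_mod_cast hm')).sub ((hcu m).mono (by exact_mod_cast hm))
    have h4 := ho' _ (fun α => sub_mem (hcB m α) (hcB m' α)) _ h3 α
    exact ge_of_pow_mul hp (mon_ne ht0 α) (h4.mono (by linarith))
  choose d hd using fun α => hc (fun m => c m α) (h2 α)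
  have hdB : ∀ α, d α ∈ clI v E := by
    intro α
    refine hcl (mem_clI.2 fun b => ?_)
    obtain ⟨N, hN⟩ := hd α b
    exact ⟨c N α, hcB N α, hN N le_rfl⟩
  refine ⟨d, hdB, ?_⟩
  rw [← sub_eq_zero]
  refine eq_zero_of_ge_all (v := v) fun b => ?_
  choose N hN using fun α => hd α ((b - v (mon t α)) / p)
  obtain ⟨N₀, hN₀⟩ := exists_nat_ge b
  obtain ⟨N₁, hN₁⟩ : ∃ N₁ : ℕ, ∀ α, N α ≤ N₁ :=
    ⟨Finset.univ.sup N, fun α => Finset.le_sup (Finset.mem_univ α)⟩
  have h3 : u - pcomb t d = (u - pcomb t (c (max N₀ N₁))) -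
      pcomb t (fun α => d α - c (max N₀ N₁) α) := by
    rw [← pcomb_sub]
    ring
  rw [h3]
  refine ((hcu _).mono ?_).sub (RVal.Ge.sum _ _ fun α _ => ?_)
  · exact hN₀.trans (by exact_mod_cast le_max_left _ _)
  · have h4 := ge_pow (hN α (max N₀ N₁) ((hN₁ α).trans (le_max_right _ _))) p
    rw [mul_div_cancel₀ _ hp'] at h4
    exact (RVal.Ge.mul h4 (v.ge_self (mon t α))).mono (by linarith)

/-- `OI_gen` for a closed field with bounded derivations. -/
theorem OI_gen_bd [IsAlgClosed k] {B : IntermediateField k Ω} {n : ℕ} {t t' : Fin n → Ω}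
    (hpb : PBasis p B t) (hBD : BD p v B)
    (hgen' : clI v (IntermediateField.adjoin k (Set.range t')) = B) :
    PBasis p B t' ∧ (∀ i, t' i ≠ 0) ∧ ∃ C' : ℝ, OI p v B t' C' := by
  classical
  have hle : IntermediateField.adjoin k (Set.range t') ≤ B := by
    rw [← hgen']
    exact le_clI _
  have htB : ∀ i, t' i ∈ B := fun i => hle (IntermediateField.subset_adjoin k _ ⟨i, rfl⟩)
  have hmB : ∀ α : Fin n → Fin p, mon t' α ∈ B := fun α => prod_mem fun i _ => pow_mem (htB i) _
  have hspn : ∀ u ∈ B.toSubfield, Spn (Qp p B) (mon (p := p) t') u := by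
    intro u hu
    refine spn_of_dense hBD.bdq Qp_le' (fun α => hmB α) (fun u hu b => ?_) hu
    have hu' : u ∈ clI v (IntermediateField.adjoin k (Set.range t')) := by
      rw [hgen']
      exact hu
    obtain ⟨w, hw, h2⟩ := mem_clI.1 hu' b
    obtain ⟨c, hcm, rfl⟩ := span_adjoin (p := p) (t := t') rfl hw
    exact ⟨_, ⟨fun α => c α ^ p, fun α => mem_Qp.2 ⟨_, hle (hcm α), rfl⟩, rfl⟩, h2⟩
  -- count
  have hfin := TW.finite_of_spn Qp_le' hspn
  have hcard := hpb.bas.card Qp_le'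
  let b' : (Fin n → Fin p) → sm (Qp p B) B.toSubfield Qp_le' := fun α => ⟨mon t' α, hmB α⟩
  have htop : ⊤ ≤ Submodule.span (Qp p B) (Set.range b') := by
    rintro ⟨u, hu⟩ -
    obtain ⟨c, hcQ, hcu⟩ := hspn u hu
    have h1 : (⟨u, hu⟩ : sm (Qp p B) B.toSubfield Qp_le') =
        ∑ α, (⟨c α, hcQ α⟩ : Qp p B) • b' α := by
      apply Subtype.ext
      rw [AddSubmonoidClass.coe_finsetSum]
      exact hcu
    rw [h1]
    exact Submodule.sum_mem _ fun α _ => Submodule.smul_mem _ _ (Submodule.subset_span ⟨α, rfl⟩)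
  have hlin := linearIndependent_of_top_le_span_of_card_eq_finrank htop hcard
  have hind : Ind (Qp p B) (mon (p := p) t') := by
    intro c hcQ h0 α
    have h1 : ∑ α, (⟨c α, hcQ α⟩ : Qp p B) • b' α = 0 := by
      apply Subtype.ext
      rw [AddSubmonoidClass.coe_finsetSum]
      exact h0
    exact congrArg Subtype.val (Fintype.linearIndependent_iff.1 hlin
      (fun α => ⟨c α, hcQ α⟩) h1 α)
  have hpb' : PBasis p B t' := PBasis.of_bas htB ⟨fun α => hmB α, hspn, hind⟩
  obtain ⟨C', hC'⟩ := hBD.orth hpb'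
  refine ⟨hpb', fun i hi => ?_, C', OI.of_orth_pb hC' hpb'⟩
  have hp := (Fact.out : p.Prime).two_le
  refine hind.ne_zero (fun _ => ⟨1, hp⟩) ?_
  exact Finset.prod_eq_zero (Finset.mem_univ i) (by simp [hi])

end Gen

theorem tr_snoc {n : ℕ} {t : Fin n → Ω} {z : Ω}
    (h : AlgebraicIndependent k (Fin.snoc t z : Fin (n + 1) → Ω)) :
    Transcendental (IntermediateField.adjoin k (Set.range t)) z := by
  rw [IntermediateField.transcendental_adjoin_iff]
  have h1 := h.transcendental_adjoin (s := Set.range Fin.castSucc) (i := Fin.last n) (by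
    rintro ⟨i, hi⟩
    exact (Fin.castSucc_lt_last i).ne hi)
  rw [Fin.snoc_last, ← Set.range_comp] at h1
  have h2 : (Fin.snoc t z : Fin (n + 1) → Ω) ∘ Fin.castSucc = t := by
    funext i
    simp
  rw [h2] at h1
  exact h1

/-- **Row S8d.** If the closure of `E` is generated by two elements over `NN k v x`, `HRone v E`
holds. -/
theorem exit' [IsAlgClosed k] (p : ℕ) [Fact p.Prime] [CharP k p] [CharP Ω p] (h : Ctx k v r)
    (hc : CompleteV v) {x : Fin r → Ω} (hx : ∀ i, x i ≠ 0)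
    (hxi : LinearIndependent ℚ fun i => v (x i)) {E : IntermediateField k Ω}
    (hxE : ∀ i, x i ∈ E) (hE : E.FG) (htr : Algebra.trdeg k E = (r + 2 : ℕ)) (hBD : BD p v E)
    {w T : Ω} (hcl : clI v E = cadj v (cadj v (NN k v x) w) T) : HRone v E := by
  classical
  have hE_le : E ≤ clI v E := le_clI _
  -- a `p`-basis of the closure
  obtain ⟨n, t₀, hpb, C₀, hor⟩ := hBD
  have hn : n = r + 1 + 1 := by
    have h1 := (hpb.trdeg p hE).1
    rw [htr] at h1
    exact_mod_cast h1.symm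
  subst hn
  have ho₀ : OI p v E t₀ C₀ := OI.of_orth hor hpb
  have hp2 := (Fact.out : p.Prime).two_le
  have ht₀ : ∀ i, t₀ i ≠ 0 := by
    intro i hi
    refine hpb.mon_ne_zero (fun _ => ⟨1, hp2⟩) ?_
    exact Finset.prod_eq_zero (Finset.mem_univ i) (by simp [hi])
  have hpbB := pbasis_cl hc hpb ho₀ ht₀
  have hBDB : BD p v (clI v E) := ⟨_, t₀, hpbB, C₀, ho₀.cl.orth⟩
  -- the generators `x, w, T`
  have hgen : clI v (IntermediateField.adjoin k (Set.range
      (Fin.snoc (Fin.snoc x w : Fin (r + 1) → Ω) T : Fin (r + 1 + 1) → Ω))) = clI v E := by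
    rw [hcl, ← cadj_cadj_NN]
  obtain ⟨hpb1, ht1, C₁, ho₁⟩ := OI_gen_bd hpbB hBDB hgen
  -- small changes
  obtain ⟨δ, hδ⟩ := pert h.toCtx0 hgen ho₁ ht1
  have hwB : w ∈ clI v E := by
    rw [hcl]
    exact le_cadj _ _ _ (self_mem_cadj _ _ _)
  have hTB : T ∈ clI v E := by
    rw [hcl]
    exact self_mem_cadj _ _ _
  obtain ⟨w', hw'E, hww⟩ := mem_clI.1 hwB δ
  obtain ⟨T', hT'E, hTT⟩ := mem_clI.1 hTB δ
  set s : Fin (r + 1) → Ω := Fin.snoc x w' with hs
  set t : Fin (r + 1 + 1) → Ω := Fin.snoc s T' with ht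
  have htE : ∀ i, t i ∈ E := by
    intro i
    refine Fin.lastCases ?_ (fun j => ?_) i
    · rw [ht, Fin.snoc_last]
      exact hT'E
    · rw [ht, Fin.snoc_castSucc]
      refine Fin.lastCases ?_ (fun j => ?_) j
      · rw [hs, Fin.snoc_last]
        exact hw'E
      · rw [hs, Fin.snoc_castSucc]
        exact hxE j
  have hcl' : clI v (IntermediateField.adjoin k (Set.range t)) = clI v E := by
    refine hδ t (fun i => hE_le (htE i)) fun i => ?_
    refine Fin.lastCases ?_ (fun j => ?_) i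
    · rw [ht, Fin.snoc_last, Fin.snoc_last]
      exact hTT
    · rw [ht, Fin.snoc_castSucc, Fin.snoc_castSucc]
      refine Fin.lastCases ?_ (fun j => ?_) j
      · rw [hs, Fin.snoc_last, Fin.snoc_last]
        exact hww
      · rw [hs, Fin.snoc_castSucc, Fin.snoc_castSucc, sub_self]
        exact RVal.Ge.zero
  obtain ⟨hpb2, ht2, C₂, ho₂⟩ := OI_gen_bd hpbB hBDB hcl'
  -- the field `E₀ = k(x, w', T')`
  set E₀ : IntermediateField k Ω := IntermediateField.adjoin k (Set.range t) with hE₀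
  have htE₀ : ∀ i, t i ∈ E₀ := fun i => IntermediateField.subset_adjoin k _ ⟨i, rfl⟩
  have hle : E₀ ≤ E := by
    rw [hE₀, IntermediateField.adjoin_le_iff]
    rintro _ ⟨i, rfl⟩
    exact htE i
  have hai : AlgebraicIndependent k t := (ho₂.mono (hle.trans hE_le) le_rfl :
    OI p v (kr k t) t C₂).algInd ht2
  have halg : ∀ a ∈ E, IsAlgebraic E₀ a := fun a ha =>
    alg_of_trdeg hai htE htE₀ (by rw [htr, Fintype.card_fin]) ha
  have hsep : ∀ a ∈ E, IsSeparable E₀ a := sep_of_ind (p := p) (t := t) hle halg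
    (fun u hu => span_adjoin hE₀ hu)
    (fun c hc h0 => ho₂.ind ht2 c (fun α => hE_le (hc α)) h0)
  have hEhen : E ≤ hen v E₀ := fun a ha => mem_hen.2 ⟨by
    have h1 := hE_le ha
    rw [← hcl'] at h1
    exact h1, hsep a ha⟩
  -- the exit
  have hNz : Transcendental (IntermediateField.adjoin k (Set.range s)) T' := tr_snoc hai
  have hxs : ∀ i, x i ∈ IntermediateField.adjoin k (Set.range s) := fun i =>
    IntermediateField.subset_adjoin k _ ⟨i.castSucc, by rw [hs, Fin.snoc_castSucc]⟩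
  refine ⟨IntermediateField.adjoin k (Set.range s), T', ?_, full_of_ind h hx hxi hxs, hNz, ?_⟩
  · exact IntermediateField.fg_adjoin_of_finite (Set.finite_range s)
  · rw [adj_range]
    refine le_antisymm ?_ (hen_mono hle)
    have h1 := hen_mono (v := v) hEhen
    rwa [hen_hen] at h1

end Pool.Agent.TWM
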