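import Pool.Agent.Lib.TWM.Ent1
import Pool.Agent.Lib.TWM.S8b

/-!
# TANK W, M2, row S8e: the exit, general form

* `exit_gen`: if `E` has bounded derivations and its closure is the closure of `k(T)`, with
  `trdeg E` elements `T`, then `E` and `k(t)` have the same henselization for all `t` in `E` near
  `T`.
-/

set_option autoImplicit false

open Polynomial

namespace Pool.Agent.TWM

open Pool.Agent.H15JM (RVal)
open Pool.Agent.LU1 (VPos adj)
open Pool.Agent.LUC (Cl clF)
open Pool.Agent.D2 (Ctx0)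
open Pool.Agent.D2P (hen clI mem_clI mem_hen le_hen hen_hen hen_mono mem_adj_self adj_le)
open Pool.Agent.TW (mon pcomb Orth PBasis BD kr Ctx Full HRone full_of_span)

universe u

variable {k Ω : Type u} [Field k] [Field Ω] [Algebra k Ω] {v : RVal Ω} {r : ℕ}

open scoped IntermediateField.algebraAdjoinAdjoin in
theorem transcendental_kr {n : ℕ} {s : Fin n → Ω} {z : Ω} (h : AlgebraicIndependent k s)
    (h1 : AlgebraicIndependent k (fun o : Option (Fin n) => o.elim z s)) :
    Transcendental (kr k s) z := fun h3 =>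
  (h.option_iff_transcendental z).1 h1
    (IsAlgebraic.restrictScalars (Algebra.adjoin k (Set.range s)) h3)

/-- **Row S8d, general form.** -/
theorem exit_gen [IsAlgClosed k] {p : ℕ} [Fact p.Prime] [CharP k p] [CharP Ω p] (h0 : Ctx0 k v)
    (hc : CompleteV v) {E : IntermediateField k Ω} (hE : E.FG) {n : ℕ}
    (htr : Algebra.trdeg k E = n) (hBD : BD p v E) {T : Fin n → Ω}
    (hcl : clI v E = clI v (kr k T)) :
    ∃ δ : ℝ, ∀ t : Fin n → Ω, (∀ i, t i ∈ E) → (∀ i, v.Ge δ (T i - t i)) →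
      PBasis p (clI v E) t ∧ (∀ i, t i ≠ 0) ∧ (∃ C : ℝ, OI p v (clI v E) t C) ∧
      AlgebraicIndependent k t ∧ (∀ a ∈ E, IsSeparable (kr k t) a) ∧ hen v E = hen v (kr k t) := by
  classical
  -- the `p`-basis of `E`
  obtain ⟨m, s, hs, C, hC⟩ := id hBD
  have hm : m = n := by
    have h1 := (hs.trdeg p hE).1
    rw [htr] at h1
    exact_mod_cast h1.symm
  subst hm
  have hos : OI p v (clI v E) s C := (OI.of_orth_pb hC hs).cl
  have hpb : PBasis p (clI v E) s := pbasis_clI hc hs hos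
  have hBD' : BD p v (clI v E) := ⟨_, s, hpb, C, hos.orth⟩
  -- the generators
  obtain ⟨-, hT0, C₁, hC₁⟩ := gen_of_bas hBD' hpb hcl.symm
  obtain ⟨δ, hδ⟩ := pert h0 hcl.symm hC₁ hT0
  refine ⟨δ, fun t ht hnear => ?_⟩
  have hgen : clI v (kr k t) = clI v E := hδ t (fun i => le_clI E (ht i)) hnear
  obtain ⟨hpt, ht0, C₂, hC₂⟩ := gen_of_bas hBD' hpb hgen
  have hle : kr k t ≤ E := by
    rw [kr, IntermediateField.adjoin_le_iff]
    rintro _ ⟨i, rfl⟩
    exact ht i
  have hai : AlgebraicIndependent k t := (hC₂.mono (hle.trans (le_clI E)) le_rfl).algInd ht0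
  have halg : ∀ a ∈ E, IsAlgebraic (kr k t) a := fun a ha =>
    alg_of_trdeg hai ht (fun i => IntermediateField.subset_adjoin k (Set.range t) ⟨i, rfl⟩)
      (by rw [htr, Fintype.card_fin]) ha
  have hsep : ∀ a ∈ E, IsSeparable (kr k t) a := sep_of_ind (p := p) (t := t) hle halg
    (fun u hu => span_adjoin (p := p) (t := t) rfl hu)
    (fun c hc h0 => hC₂.ind ht0 c (fun α => le_clI E (hc α)) h0)
  refine ⟨hpt, ht0, ⟨C₂, hC₂⟩, hai, hsep, le_antisymm ?_ (hen_mono hle)⟩
  have hEhen : E ≤ hen v (kr k t) := fun a ha => mem_hen.2 ⟨by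
    have h1 : a ∈ clI v (kr k t) := by
      rw [hgen]
      exact le_clI E ha
    exact h1, hsep a ha⟩
  have h1 := hen_mono (v := v) hEhen
  rwa [hen_hen] at h1

end Pool.Agent.TWM
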