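import Pool.Agent.Lib.TWM.PI2
import Pool.Agent.Lib.TWM.X2
import Pool.Agent.Lib.TWM.Ent1
import Pool.Agent.Lib.TWM.S2
import Pool.Agent.Lib.TWM.S3b
import Pool.Agent.Lib.TWM.S3d
import Pool.Agent.Lib.TWM.S8a
import Pool.Agent.Lib.TWM.S5
import Pool.Agent.Lib.TWM.S7
import Pool.Agent.Lib.TWM.S8c

/-!
# TANK W, M2: the step, for a coordinate which is not of transcendental type
-/

set_option autoImplicit false

open Polynomial

namespace Pool.Agent.TWM

open Pool.Agent.H15JM (RVal)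
open Pool.Agent.LU1 (VPos adj)
open Pool.Agent.D2 (Ctx0)
open Pool.Agent.D2P (hen clI mem_clI adj_le mem_adj_self rootF)
open Pool.Agent.TW (mon pcomb Orth Ctx Full HRone BD)

universe u

variable {k Ω : Type u} [Field k] [Field Ω] [Algebra k Ω] {v : RVal Ω} {r : ℕ}

/-! ### Distances in closed fields with `OI` -/

section Far

variable {B : IntermediateField k Ω} {x : Fin r → Ω} {y z : Ω}

theorem snoc_ne {n : ℕ} {t : Fin n → Ω} {z : Ω} (ht : ∀ i, t i ≠ 0) (hz : z ≠ 0) (i : Fin (n + 1)) :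
    (Fin.snoc t z : Fin (n + 1) → Ω) i ≠ 0 := by
  refine Fin.lastCases ?_ (fun j => ?_) i
  · rw [Fin.snoc_last]
    exact hz
  · rw [Fin.snoc_castSucc]
    exact ht j

theorem snoc_mem {n : ℕ} {t : Fin n → Ω} {z : Ω} (ht : ∀ i, t i ∈ B) (hz : z ∈ B)
    (i : Fin (n + 1)) : (Fin.snoc t z : Fin (n + 1) → Ω) i ∈ B := by
  refine Fin.lastCases ?_ (fun j => ?_) i
  · rw [Fin.snoc_last]
    exact hz
  · rw [Fin.snoc_castSucc]
    exact ht j

/-- The distance of `z` to the closure of `N(y)`. -/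
theorem far_z {p : ℕ} [Fact p.Prime] [CharP Ω p] [IsAlgClosed k] (hxB : ∀ i, x i ∈ B)
    (hyB : y ∈ B) (hx : ∀ i, x i ≠ 0) (hy0 : y ≠ 0) (hz0 : z ≠ 0) {C : ℝ}
    (ho : OI p v B (Fin.snoc (Fin.snoc x y : Fin (r + 1) → Ω) z : Fin (r + 1 + 1) → Ω) C) :
    ∀ a ∈ cadj v (NN k v x) y, z ≠ a ∧ v (z - a) ≤ v z + C := by
  intro a ha
  rw [cadj_NN] at ha
  exact far_clI (fun b hb => ho.far_last (snoc_mem hxB hyB) (snoc_ne hx hy0) hz0 hb) ha

/-- The distance of `y` to `N`. -/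
theorem far_y {p : ℕ} [Fact p.Prime] [CharP Ω p] [IsAlgClosed k] (hxB : ∀ i, x i ∈ B)
    (hx : ∀ i, x i ≠ 0) (hy0 : y ≠ 0) {C : ℝ}
    (ho : OI p v B (Fin.snoc (Fin.snoc x y : Fin (r + 1) → Ω) z : Fin (r + 1 + 1) → Ω) C) :
    ∀ a ∈ NN k v x, y ≠ a ∧ v (y - a) ≤ v y + C := fun a ha =>
  far_clI (fun b hb => ho.init.far_last hxB hx hy0 hb) ha

end Far

/-! ### The start -/

section Start

variable {p : ℕ} [hp : Fact p.Prime] [CharP Ω p]

theorem exists_GB (A : Polynomial Ω) (b : ℝ) : ∃ lam : ℝ, GB v b lam A := by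
  classical
  obtain ⟨c, hc⟩ := ((Finset.range (A.natDegree + 1)).image
    fun m => -(v (A.coeff m) + m * b)).exists_le
  refine ⟨-c, fun m => ?_⟩
  by_cases hm : m ≤ A.natDegree
  · intro _
    have := hc _ (Finset.mem_image_of_mem (fun m : ℕ => -(v (A.coeff m) + m * b))
      (Finset.mem_range.2 (Nat.lt_succ_of_le hm)))
    linarith
  · rw [coeff_eq_zero_of_natDegree_lt (not_le.1 hm)]
    exact RVal.Ge.zero

/-- The start of the descent. -/
theorem exists_SL {B F : IntermediateField k Ω} (hBc : Cld v B) (hFB : F ≤ B) {z : Ω}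
    (hzB : z ∈ B) {A : Polynomial Ω} (hA : A ∈ PI F) {al : Ω} (ha : A.eval z = al ^ p)
    (hal : al ∉ B) : ∃ κ : ℝ, SL p v F z (v z - 1) κ A.natDegree A := by
  classical
  have hp0 : (0 : ℝ) < p := by exact_mod_cast hp.out.pos
  obtain ⟨C₀, hC₀⟩ : ∃ C₀ : ℝ, ∀ b ∈ B, ¬ v.Ge C₀ (al - b) := by
    by_contra hcon
    push Not at hcon
    exact hal (hBc (mem_clI.2 hcon))
  have hz : v.Ge (v z - 1) z := (v.ge_self z).mono (by linarith)
  set T : Set ℝ := {κ' | ∃ g ∈ PI F, GB v (v z - 1) κ' (A - g ^ p)} with hT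
  have hTne : T.Nonempty := by
    obtain ⟨lam, h1⟩ := exists_GB (v := v) (A - 0 ^ p) (v z - 1)
    exact ⟨lam, 0, zero_mem _, h1⟩
  have hTb : ∀ κ' ∈ T, κ' ≤ p * C₀ := by
    rintro κ' ⟨g, hg, h1⟩
    by_contra hlt
    push Not at hlt
    have h2 := h1.eval hz
    rw [eval_sub, eval_pow, ha, ← sub_pow_p] at h2
    refine hC₀ (g.eval z) (eval_mem (PI_mono hFB hg) hzB) fun h0 => ?_
    have h3 := h2 (pow_ne_zero _ h0)
    rw [v.map_pow h0] at h3
    nlinarith
  have hTb' : BddAbove T := ⟨_, hTb⟩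
  refine ⟨sSup T, hA, fun _ => by linarith, fun ε hε => ?_, fun e he g hg => ?_⟩
  · obtain ⟨κ', ⟨g, hg, h1⟩, h2⟩ := exists_lt_of_lt_csSup hTne (sub_lt_self (sSup T) hε)
    exact ⟨g, hg, h1.mono h2.le⟩
  · by_contra hcon
    push Not at hcon
    obtain ⟨g', hg', h1⟩ := exists_glue F (zero_mem F) hg (zero_mem (PI F))
      (fun j => p * j ≤ A.natDegree)
    simp only [taylor_zero, coeff_zero] at h1
    have h2 : GB v (v z - 1) (sSup T + e) (A - g' ^ p) := by
      intro m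
      by_cases hm : m ≤ A.natDegree
      · have h3 := hcon m hm
        rw [coeff_sub, coeff_pow_ite] at h3 ⊢
        split_ifs at h3 ⊢ with h4
        · rw [h1, if_pos (by rw [Nat.mul_div_cancel' h4]; exact hm)]
          exact h3
        · exact h3
      · rw [coeff_sub, coeff_pow_ite, coeff_eq_zero_of_natDegree_lt (not_le.1 hm)]
        split_ifs with h4
        · rw [h1, if_neg (by rw [Nat.mul_div_cancel' h4]; exact hm), zero_pow hp.out.ne_zero,
            sub_zero]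
          exact RVal.Ge.zero
        · rw [sub_zero]
          exact RVal.Ge.zero
    have h3 := le_csSup hTb' ⟨g', hg', h2⟩
    linarith

end Start

/-! ### The descent -/

section Core

variable [IsAlgClosed k] [IsAlgClosed Ω] (p : ℕ) [hp : Fact p.Prime] [CharP k p] [CharP Ω p]

/-- The induction on the index `S`. -/
theorem core_ind (h0 : Ctx k v r) (hc : CompleteV v) {x : Fin r → Ω} (hx : ∀ i, x i ≠ 0)
    (hind : LinearIndependent ℚ fun i => v (x i)) {B : IntermediateField k Ω}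
    (hB : Imm v (NN k v x) B) (hBc : Cld v B) (hOI : ∀ y z : Ω, y ∈ B → z ∈ B →
      B = cadj v (cadj v (NN k v x) y) z → y ≠ 0 ∧ z ≠ 0 ∧ ∃ C, OI p v B
        (Fin.snoc (Fin.snoc x y : Fin (r + 1) → Ω) z : Fin (r + 1 + 1) → Ω) C)
    {al : Ω} (hap : al ^ p ∈ B) (hal : al ∉ B) (hi : Imm v (NN k v x) (adj B al)) (S : ℕ) :
    ∀ (y z : Ω) (A : Polynomial (Polynomial Ω)) (r' κ : ℝ),
      B = cadj v (cadj v (NN k v x) y) z → PII (NN k v x) A → A.evalEval y z = al ^ p →
      SL p v (cadj v (NN k v x) y) z r' κ S (A.map (evalRingHom y)) →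
      ∃ w T : Ω, adj B al = cadj v (cadj v (NN k v x) w) T := by
  induction S using Nat.strong_induction_on with
  | _ S ih =>
    intro y z A r' κ hBe hA ha hSL
    choose x1 hx1 using fun i => IsAlgClosed.exists_pow_nat_eq (x i) hp.out.pos
    have hR : RD v x x1 (p ^ 1) :=
      ⟨pow_pos hp.out.pos 1, fun i => by rw [pow_one]; exact hx1 i, hx, hind⟩
    obtain ⟨T, hTr, -⟩ := hR.exists_reps
    have hcls := hR.cls h0.toCtx0 hTr hB
    have hN1 : rootF p 1 (NN k v x) = LE (MM v x1) (GG v x1) (NN k v x) := by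
      rw [hR.rootF_NN, hR.NN_eq h0.toCtx0 hc]
    have hM : MS v (GG v x) (MM v x1) := ⟨fun g hg => hcls.ms.ne g (hcls.reps.le hg),
      fun g hg => hcls.ms.val g (hcls.reps.le hg),
      fun g hg g' hg' => hcls.ms.mul g (hcls.reps.le hg) g' (hcls.reps.le hg')⟩
    have hMN : ∀ g ∈ GG v x, MM v x1 g ∈ NN k v x := hR.mon_mem le_rfl
    have hN : LDense v (GG v x) (MM v x1) (NN k v x) := by
      intro a ha b
      obtain ⟨L, hL, h1⟩ := NN_dense h0.toCtx0 hx hind a ha b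
      refine ⟨L, hL, ?_⟩
      have h2 : evL (MM v x1) L = evL (MM v x) L := by
        refine Finsupp.sum_congr fun g hg => ?_
        rw [hR.MM_eq (hL g (Finsupp.mem_support_iff.1 hg))]
      rw [h2]
      exact h1
    have hyB : y ∈ B := by
      rw [hBe]
      exact le_cadj _ _ _ (self_mem_cadj _ _ _)
    have hzB : z ∈ B := by
      rw [hBe]
      exact self_mem_cadj _ _ _
    have hxB : ∀ i, x i ∈ B := fun i => hB.le (x_mem_NN x i)
    obtain ⟨hy0, hz0, C₀, hoi⟩ := hOI y z hyB hzB hBe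
    obtain ⟨ρ, hy⟩ := TL.nn p h0 hc hx hind hB hyB (far_y hxB hx hy0 hoi)
    have hFB : cadj v (NN k v x) y ≤ B := cadj_le hBc hB.le hyB
    have hFi : Imm v (cadj v (NN k v x) y) B :=
      ⟨hFB, fun b hb hb0 => by
        obtain ⟨a, ha, h1⟩ := hB.imm b hb hb0
        exact ⟨a, le_cadj v _ _ ha, h1⟩⟩
    obtain ⟨s, hl, hfar⟩ := exists_lim hFi hzB (far_z hxB hyB hx hy0 hz0 hoi)
    by_cases hT : TL v (cadj v (NN k v x) y) z s
    · -- two steps of transcendental type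
      obtain ⟨y', z', ρ', s', hF⟩ := PI2 p h0.toCtx0 hc hx hind (⟨hy, hT, hBe⟩ :
        Fib v (NN k v x) B y z ρ s) hap hi
      exact ⟨y', z', hF.eq⟩
    · rcases Nat.lt_or_ge 1 S with hS | hS
      · -- the jump
        obtain ⟨κ₁, hst⟩ := stage hSL hl (by
          have := hfar 0 (zero_mem _)
          rwa [sub_zero] at this)
        obtain ⟨f, hf, hlN, u, w, ρ₁, r₁, H, hu, hw, hβ⟩ := jump (p := p) h0.toCtx0 hM hMN hN (GG_fg x)
          hB hBc hy hyB hzB hl hfar hT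
        have hfB : f.eval y ∈ cadj v (NN k v x) y :=
          le_clI _ (eval_mem_adj hf y)
        have hz'B : z + f.eval y ∈ B := add_mem hzB (hFB hfB)
        have hBe' : B = cadj v (cadj v (NN k v x) y) (z + f.eval y) := by
          rw [hBe]
          have h1 := cadj_affine (v := v) (z := z) (one_mem (cadj v (NN k v x) y)) one_ne_zero hfB
          rw [one_mul] at h1
          exact h1.symm
        have hBe'' : B = cadj v (cadj v (NN k v x) u) w := by
          rw [hBe']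
          exact H.cadj_eq hMN
        have huB : u ∈ B := by
          rw [hBe'']
          exact le_cadj _ _ _ (self_mem_cadj _ _ _)
        have hwB : w ∈ B := by
          rw [hBe'']
          exact self_mem_cadj _ _ _
        have hA' : PII (NN k v x) (A.comp (X - C f)) := hA.comp hf
        obtain ⟨q1, q3, q2⟩ := stage_shift hfB hst
        rw [← map_comp_sub] at q1 q2 q3
        have h2 := jump_slope h0.toCtx0 hcls hN1 hMN hB.le hBc hyB hz'B huB hy hlN hu hw H hβ hA'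
          q1 q3 q2 hS
        refine ih (S - 1) (by omega) u w (H.tr (A.comp (X - C f))) r₁ κ₁ hBe''
          (H.PII_tr hMN hA') ?_ h2
        rw [H.eval_tr, evalEval_comp, ha]
      · -- the goal
        refine goal h0.toCtx0 hc hx hind hB hBc hy hBe hS hSL hz0 ?_ hal hi
        rw [map_evalRingHom_eval, ha]

/-- **The purely inseparable step**, for closed fields with two generators over `N`. -/
theorem core (h0 : Ctx k v r) (hc : CompleteV v) {x : Fin r → Ω} (hx : ∀ i, x i ≠ 0)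
    (hind : LinearIndependent ℚ fun i => v (x i)) {B : IntermediateField k Ω}
    (hB : Imm v (NN k v x) B) (hBc : Cld v B) {y z : Ω}
    (hBe : B = cadj v (cadj v (NN k v x) y) z) (hy0 : y ≠ 0) (hz0 : z ≠ 0) {C₀ : ℝ}
    (ho : OI p v B (Fin.snoc (Fin.snoc x y : Fin (r + 1) → Ω) z : Fin (r + 1 + 1) → Ω) C₀)
    {al : Ω} (hap : al ^ p ∈ B) (hi : Imm v (NN k v x) (adj B al)) :
    ∃ w T : Ω, adj B al = cadj v (cadj v (NN k v x) w) T := by
  by_cases hal : al ∈ B
  · exact ⟨y, z, by rw [le_antisymm (adj_le le_rfl hal) (mem_adj_self B al).2, hBe]⟩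
  have hxB : ∀ i, x i ∈ B := fun i => hB.le (x_mem_NN x i)
  have hmem : ∀ y z : Ω, B = cadj v (cadj v (NN k v x) y) z → y ∈ B ∧ z ∈ B := fun y z he =>
    ⟨by rw [he]; exact le_cadj _ _ _ (self_mem_cadj _ _ _), by rw [he]; exact self_mem_cadj _ _ _⟩
  have hOI : ∀ y' z' : Ω, y' ∈ B → z' ∈ B → B = cadj v (cadj v (NN k v x) y') z' →
      y' ≠ 0 ∧ z' ≠ 0 ∧ ∃ C, OI p v B
        (Fin.snoc (Fin.snoc x y' : Fin (r + 1) → Ω) z' : Fin (r + 1 + 1) → Ω) C := by
    intro y' z' hy' hz' he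
    obtain ⟨h1, h2⟩ := OI_gen (p := p) h0.toCtx0 hc hBc
      (snoc_mem (snoc_mem hxB (hmem y z hBe).1) (hmem y z hBe).2)
      (by rw [← cadj_cadj_NN, ← hBe]) ho (snoc_ne (snoc_ne hx hy0) hz0)
      (t' := (Fin.snoc (Fin.snoc x y' : Fin (r + 1) → Ω) z' : Fin (r + 1 + 1) → Ω))
      (snoc_mem (snoc_mem hxB hy') hz') (by rw [← cadj_cadj_NN, ← he])
    refine ⟨?_, ?_, h2⟩
    · have := h1 (Fin.last r).castSucc
      rwa [Fin.snoc_castSucc, Fin.snoc_last] at this
    · have := h1 (Fin.last (r + 1))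
      rwa [Fin.snoc_last] at this
  obtain ⟨y', z', A, hA, ha, he, -⟩ := TWM.exact p h0.toCtx0 hc hx hind hB hBe ho hy0 hz0 hap hal hi
  obtain ⟨hy', hz'⟩ := hmem y' z' he
  obtain ⟨κ, hκ⟩ := exists_SL (p := p) hBc (cadj_le hBc hB.le hy') hz' (hA.map y')
    (al := al) (by rw [map_evalRingHom_eval, ha]) hal
  exact core_ind p h0 hc hx hind hB hBc hOI hap hal hi _ y' z' A _ κ he hA ha hκ

end Core

end Pool.Agent.TWM
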