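import Pool.Agent.Lib.TWM.S9
import Pool.Agent.Lib.TWM.S8d
import Pool.Agent.Lib.TWM.Bridge
import Pool.Agent.Lib.TWM.Compl
import Pool.Agent.Lib.TW.LUBD

/-!
# TANK W, M2: henselian rationality for fields of transcendence degree `r + 2` with bounded
derivations and finitely generated value group

`climb_step`: the purely inseparable step, in a complete field; `hrone_fg`: the theorem.
-/

set_option autoImplicit false

open Polynomial

namespace Pool.Agent.TWM

open Pool.Agent.H15JM (RVal)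
open Pool.Agent.LU1 (VPos adj)
open Pool.Agent.D2 (Ctx0)
open Pool.Agent.D2P (hen clI mem_clI adj_le mem_adj_self)
open Pool.Agent.TW (mon pcomb Orth Ctx Full HRone BD LU valG mx)

universe u

variable {k Ω : Type u} [Field k] [Field Ω] [Algebra k Ω] {v : RVal Ω} {r : ℕ}

/-- `LU` for the fields of transcendence degree at most `r + 2` with `HRone`. -/
theorem lu_two [IsAlgClosed k] [IsAlgClosed Ω] (p : ℕ) [Fact p.Prime] [CharP k p] [CharP Ω p]
    (h : Ctx k v r) {K : IntermediateField k Ω} (hK : K.FG) (hfull : Full v K)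
    (htr : Algebra.trdeg k K = (r + 2 : ℕ)) (hBD : BD p v K) (hHR : HRone v K) : LU p v r K :=
  TW.LU_of_HRone p h hK hfull hBD (n := r + 1) (by rw [htr])
    (fun E h1 h2 h3 h4 => TW.lu_bd p h (r + 1) (fun n h5 h6 => absurd h5 (by omega)) (r + 1) le_rfl
      E h1 h2 h3 h4) hHR

/-- The purely inseparable step. -/
theorem climb_step [IsAlgClosed k] [IsAlgClosed Ω] (p : ℕ) [Fact p.Prime] [CharP k p]
    [CharP Ω p] (h : Ctx k v r) (hc : CompleteV v) {K : IntermediateField k Ω} (hK : K.FG)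
    (hfull : Full v K) (htr : Algebra.trdeg k K = (r + 2 : ℕ)) (hBD : BD p v K)
    (hHR : HRone v K) (hG : (valG v K).FG) {g : Ω} (hg : g ^ p ∈ K)
    (hval : valG v (adj K g) = valG v K) (hBDg : BD p v (adj K g)) : HRone v (adj K g) := by
  have hp : 0 < p := (Fact.out : p.Prime).pos
  obtain ⟨F, hF, -, hcrd⟩ := exists_crd p h hK htr hBD (lu_two p h hK hfull htr hBD hHR) hG ∅
    (fun a ha => absurd ha (Finset.notMem_empty a))
  set E := adj K g with hE
  have hKE : K ≤ E := (mem_adj_self K g).2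
  have hgE : g ∈ E := (mem_adj_self K g).1
  have hxE : ∀ i, F.x i ∈ E := fun i => hKE (hcrd.x_mem i)
  have hcld : Cld v (clI v K) := cld_clI v K
  have hgB : g ^ p ∈ clI v K := le_clI K hg
  have hcl : clI v E = adj (clI v K) g := by
    refine le_antisymm ?_ ?_
    · have h1 : E ≤ adj (clI v K) g :=
        adj_le ((le_clI (v := v) K).trans (mem_adj_self (clI v K) g).2)
          (mem_adj_self (clI v K) g).1
      exact (clI_mono h1).trans (cld_adj' p hc hcld hgB)
    · exact adj_le (clI_mono hKE) (le_clI E hgE)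
  have hv : ∀ b ∈ E, b ≠ 0 → ∃ l : Fin r → ℤ, v b = v (mx F.x l) := by
    intro b hb hb0
    have h1 : v b ∈ valG v K := by
      rw [← hval]
      exact ⟨b, hb, hb0, rfl⟩
    obtain ⟨c, hc', hc0, hcv⟩ := h1
    obtain ⟨l, hl⟩ := hcrd.val c hc' hc0
    exact ⟨l, by rw [← hcv, hl]⟩
  have hImm : Imm v (NN k v F.x) (adj (clI v K) g) := by
    rw [← hcl]
    exact imm_of_val h.toCtx0 hcrd.x_ne hxE hv
  obtain ⟨C, hC⟩ := hcrd.oi
  obtain ⟨w, T, hwT⟩ := core p h hc hcrd.x_ne hcrd.x_ind (hcrd.imm h.toCtx0) hcld hcrd.cl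
    hcrd.y_ne hcrd.z_ne hC hgB hImm
  have htrE : Algebra.trdeg k E = (r + 2 : ℕ) := by
    rw [← htr]
    refine TW.trdeg_eq_of_alg hKE (D2P.isAlgebraic_sup {g} ?_)
    rintro s rfl
    exact D2P.isAlgebraic_of_pow hp (D2P.isAlgebraic_of_mem hg)
  exact exit' p h hc hcrd.x_ne hcrd.x_ind hxE (D2P.fg_adj hK g) htrE hBDg (by rw [hcl, hwT])

/-- The theorem in a complete field. -/
theorem hrone_fg_complete [IsAlgClosed k] [IsAlgClosed Ω] (p : ℕ) [Fact p.Prime] [CharP k p]
    [CharP Ω p] (h : Ctx k v r) (hc : CompleteV v) {E : IntermediateField k Ω} (hE : E.FG)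
    (hfull : Full v E) (htr : Algebra.trdeg k E = (r + 2 : ℕ)) (hBD : BD p v E)
    (hG : (valG v E).FG) : HRone v E :=
  TW.hrone_all_fg' p h (by omega) (fun K₀ h1 h2 h3 h4 h5 h6 g h7 h8 h9 =>
    climb_step p h hc h1 h2 h3 h4 h5 h6 h7 h8 h9) E hE hfull htr hBD hG

theorem valG_map {Ω' : Type u} [Field Ω'] [Algebra k Ω'] {w : RVal Ω'} {ι : Ω →ₐ[k] Ω'}
    (h : Dense v w ι) (E : IntermediateField k Ω) : valG w (E.map ι) = valG v E := by
  ext a
  constructor
  · rintro ⟨_, ⟨g, hg, rfl⟩, hg0, rfl⟩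
    have hg1 : g ≠ 0 := fun h0 => hg0 (by rw [h0]; exact map_zero ι)
    exact ⟨g, hg, hg1, (h.val g hg1).symm⟩
  · rintro ⟨g, hg, hg0, rfl⟩
    exact ⟨ι g, ⟨g, hg, rfl⟩, fun h0 => hg0 (Dense.eq_zero.1 h0), h.val g hg0⟩

/-- **Henselian rationality** of the fields of transcendence degree `r + 2` with bounded derivations
and finitely generated value group. -/
theorem hrone_fg [IsAlgClosed k] [IsAlgClosed Ω] (p : ℕ) [Fact p.Prime] [CharP k p]
    [CharP Ω p] (h : Ctx k v r) {E : IntermediateField k Ω} (hE : E.FG)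
    (hfull : Full v E) (htr : Algebra.trdeg k E = (r + 2 : ℕ)) (hBD : BD p v E)
    (hG : (valG v E).FG) : HRone v E := by
  obtain ⟨Ω', iF, iA, ι, w, h1, h2, h3⟩ := exists_complete k v
  have : CharP Ω' p := Dense.charP ι p
  rw [← Dense.hrone_iff h3]
  refine hrone_fg_complete p (Dense.ctx h3 h) h2 (Dense.fg_map hE) ((Dense.full_iff h3).2 hfull)
    (by rw [Dense.trdeg_map]; exact htr) ((Dense.bd_iff h3).2 hBD) ?_
  rw [valG_map h3]
  exact hG

/-- Fields of transcendence degree `r + 2` with bounded derivations and finitely generated value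
group are log uniformizable. -/
theorem lus_fg_bd [IsAlgClosed k] [IsAlgClosed Ω] (p : ℕ) [Fact p.Prime] [CharP k p]
    [CharP Ω p] (h : Ctx k v r) {E : IntermediateField k Ω} (hE : E.FG)
    (hfull : Full v E) (htr : Algebra.trdeg k E = (r + 2 : ℕ)) (hBD : BD p v E)
    (hG : (valG v E).FG) (hΩ : ∀ g : Ω, IsAlgebraic E g) :
    LUC.LUs v (algebraMap k Ω).range E.toSubfield := by
  have hHR := hrone_fg p h hE hfull htr hBD hG
  refine TW.LU.lus_of p h hE htr (lu_two p h hE hfull htr hBD hHR) (fun F hF => ?_) hΩ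
  have hh : hen v E = hen v F.K := hF.hen_eq p h
  refine lu_two p h (TW.Est.fg_K F) (TW.Est.full_K h F) (TW.Est.trdeg_K F)
    (hBD.congr p (TW.Est.fg_K F) hh) ?_
  obtain ⟨N, z, h1, h2, h3, h4⟩ := hHR
  exact ⟨N, z, h1, h2, h3, by rw [← hh, h4]⟩

end Pool.Agent.TWM
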