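import Pool.Agent.Lib.TWM.StabA
import Pool.Agent.Lib.TWM.NNx
import Pool.Agent.Lib.TW.D0
import Pool.Agent.Lib.TW.T1
import Pool.Agent.Lib.TW.A2
import Pool.Agent.Lib.D2P.A3a

/-!
# TANK W, M2-S: stability of `N = NN k v x`, and elements of transcendental type over `N`

* `nn_attained`: an element algebraic over `N` has a best approximation in `N`;
* `TL.nn`: an element of an immediate extension of `N` at bounded distance from `N` is of
  transcendental type over `N`.
-/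

set_option autoImplicit false

open Polynomial

namespace Pool.Agent.TWM

open Pool.Agent.H15JM (RVal)
open Pool.Agent.LU1 (VPos adj)
open Pool.Agent.LUC (Cl clF)
open Pool.Agent.D2 (Ctx0)
open Pool.Agent.D2P (hen mem_hen le_hen clI mem_clI mem_adj_self adj_le)
open Pool.Agent.TW (Ctx Full)

universe u

variable {k Ω : Type u} [Field k] [Field Ω] [Algebra k Ω] {v : RVal Ω} {r : ℕ}

theorem span_of_ind (h : Ctx k v r) {x : Fin r → Ω}
    (hx : ∀ i, x i ≠ 0) (hind : LinearIndependent ℚ fun i => v (x i)) (g : Ω) (hg : g ≠ 0) :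
    v g ∈ Submodule.span ℚ (Set.range fun i => v (x i)) := by
  obtain ⟨X, hX0, hXi, hX⟩ := h.rank
  have hle : Submodule.span ℚ (Set.range fun i => v (x i)) ≤
      Submodule.span ℚ (Set.range fun i => v (X i)) := by
    rw [Submodule.span_le]
    rintro _ ⟨i, rfl⟩
    exact hX (x i) (hx i)
  have hfin : Module.Finite ℚ (Submodule.span ℚ (Set.range fun i => v (X i))) :=
    Module.Finite.span_of_finite ℚ (Set.finite_range _)
  have heq := Submodule.eq_of_le_of_finrank_eq hle (by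
    rw [finrank_span_eq_card hind, finrank_span_eq_card hXi])
  rw [heq]
  exact hX g hg

theorem full_kr (h : Ctx k v r) {x : Fin r → Ω} (hx : ∀ i, x i ≠ 0)
    (hind : LinearIndependent ℚ fun i => v (x i)) :
    Full v (IntermediateField.adjoin k (Set.range x)) :=
  TW.full_of_span (x := x) (fun i => ⟨IntermediateField.subset_adjoin _ _ ⟨i, rfl⟩, hx i⟩)
    (span_of_ind h hx hind)

theorem trdeg_kr (h : Ctx k v r) {x : Fin r → Ω} (hx : ∀ i, x i ≠ 0)
    (hind : LinearIndependent ℚ fun i => v (x i)) :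
    Algebra.trdeg k (IntermediateField.adjoin k (Set.range x)) = r := by
  have hai : AlgebraicIndependent k x := TA.algInd_of_val h.triv hx hind
  rw [TW.trdeg_adjoin_eq hai.to_subtype_range]
  have h1 := Cardinal.mk_range_eq_of_injective hai.injective
  simpa using h1

/-- **Stability** of `N`: best approximations of algebraic elements. -/
theorem nn_attained [IsAlgClosed Ω] [IsAlgClosed k] (p : ℕ) [Fact p.Prime] [CharP k p] [CharP Ω p]
    (h : Ctx k v r) (hc : CompleteV v) {x : Fin r → Ω} (hx : ∀ i, x i ≠ 0)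
    (hind : LinearIndependent ℚ fun i => v (x i)) {θ : Ω} (hθ : IsAlgebraic (NN k v x) θ) :
    ∃ a ∈ NN k v x, θ = a ∨ ∀ b ∈ NN k v x, θ ≠ b ∧ v (θ - b) ≤ v (θ - a) := by
  classical
  set K : IntermediateField k Ω := IntermediateField.adjoin k (Set.range x) with hK
  by_cases hθN : θ ∈ NN k v x
  · exact ⟨θ, hθN, Or.inl rfl⟩
  -- the distance is bounded
  obtain ⟨c, hcb⟩ : ∃ c : ℝ, ∀ b ∈ NN k v x, ¬ v.Ge c (θ - b) := by
    by_contra hcon
    push Not at hcon
    exact hθN (NN_cld x (mem_clI.2 hcon))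
  have hne : ∀ b ∈ NN k v x, θ - b ≠ 0 ∧ v (θ - b) < c := by
    intro b hb
    have h1 := hcb b hb
    rw [RVal.Ge] at h1
    push Not at h1
    exact h1
  obtain ⟨θ', hθ', hθθ⟩ := exists_near_alg (v := v) (K := K) hθ c
  have hval : ∀ b ∈ NN k v x, θ' - b ≠ 0 ∧ v (θ' - b) = v (θ - b) := by
    intro b hb
    obtain ⟨h1, h2⟩ := hne b hb
    refine Gt.val_eq h1 ?_
    rw [sub_sub_sub_cancel_right]
    exact Gt.of_ge hθθ h2
  -- the Abhyankar field `E`
  set E : IntermediateField k Ω := adj K θ' with hE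
  have hKE : K ≤ E := fun a ha => (mem_adj_self K θ').2 ha
  have hxE : ∀ i, x i ∈ E := fun i => hKE (IntermediateField.subset_adjoin _ _ ⟨i, rfl⟩)
  have hEfg : E.FG :=
    D2P.fg_adj (IntermediateField.fg_adjoin_of_finite (Set.finite_range x)) θ'
  have hfull : Full v E := (full_kr h hx hind).mono hKE
  have htr : Algebra.trdeg k E = r := by
    rw [TW.trdeg_eq_of_alg hKE fun a ha => mem_algc.1
      (adj_le (le_algc K) (mem_algc.2 hθ') ha), trdeg_kr h hx hind]
  obtain ⟨χ, hχ, hχi, hhen⟩ := TW.abh_hen p h hEfg hfull htr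
  have hEM : E ≤ NN k v χ := by
    intro a ha
    have h1 : a ∈ hen v E := le_hen _ ha
    rw [hhen] at h1
    exact mem_clI.2 (mem_hen.1 h1).1
  have hNM : NN k v x ≤ NN k v χ := NN_le (NN_cld χ) fun i => hEM (hxE i)
  have hχ0 : ∀ i, χ i ≠ 0 := fun i => (hχ i).2
  have hVG : VG v (GG v x) (NN k v x) := vg_of_imm h.toCtx0 hx hind (imm_self _)
  have hVG' : VG v (GG v χ) (NN k v χ) := vg_of_imm h.toCtx0 hχ0 hχi (imm_self _)
  have hGle : GG v x ≤ GG v χ := by
    rw [GG_eq x, AddSubgroup.closure_le]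
    rintro _ ⟨i, rfl⟩
    exact hVG' _ (hEM (hxE i)) (hx i)
  obtain ⟨T, hT⟩ := exists_reps hGle (GG_fg χ) fun g hg => by
    obtain ⟨m, hm, c, hc, hc0, h1⟩ := full_kr h hx hind (MM v χ g) ((MS_MM hχ0 hχi).ne g hg)
    refine ⟨m, hm, ?_⟩
    rw [(MS_MM hχ0 hχi).val g hg] at h1
    rw [← h1]
    exact hVG c (mem_clI.2 (Cl.subset hc)) hc0
  obtain ⟨a, ha, hab⟩ := exists_best_of h.toCtx0 hc (MS_MM hx hind) (MS_MM hχ0 hχi) (GG_fg x)
    (NN_cld x) (MM_mem hind (x_mem_NN x)) hVG hNM (MM_mem hχi (x_mem_NN χ))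
    (NN_dense h.toCtx0 hχ0 hχi) hT (θ := θ') (hEM (mem_adj_self K θ').1)
  refine ⟨a, ha, Or.inr fun b hb => ⟨sub_ne_zero.1 (hne b hb).1, ?_⟩⟩
  have h1 := hab b hb (hval a ha).1
  rwa [(hval a ha).2, (hval b hb).2] at h1

/-- Elements of an immediate extension at bounded distance are of transcendental type. -/
theorem TL.nn [IsAlgClosed Ω] [IsAlgClosed k] (p : ℕ) [Fact p.Prime] [CharP k p] [CharP Ω p]
    (h : Ctx k v r) (hc : CompleteV v) {x : Fin r → Ω} (hx : ∀ i, x i ≠ 0)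
    (hind : LinearIndependent ℚ fun i => v (x i)) {B : IntermediateField k Ω}
    (hi : Imm v (NN k v x) B) {y : Ω} (hy : y ∈ B) {C : ℝ}
    (hb : ∀ a ∈ NN k v x, y ≠ a ∧ v (y - a) ≤ C) : ∃ ρ : ℝ, TL v (NN k v x) y ρ := by
  classical
  set S : Set ℝ := (fun a => v (y - a)) '' (NN k v x : Set Ω) with hS
  have hSne : S.Nonempty := ⟨_, 0, zero_mem (NN k v x), rfl⟩
  have hSb : BddAbove S := ⟨C, by rintro _ ⟨a, ha, rfl⟩; exact (hb a ha).2⟩
  have hlt : ∀ a ∈ NN k v x, v (y - a) < sSup S := by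
    intro a ha
    refine lt_of_le_of_ne (le_csSup hSb ⟨a, ha, rfl⟩) fun heq => ?_
    obtain ⟨a', ha', h1⟩ := hi.nr hy (r := v (y - a)) ⟨a, ha, v.ge_self _⟩
    have h2 := h1 (sub_ne_zero.2 (hb a' ha').1)
    have h3 := le_csSup hSb ⟨a', ha', rfl⟩
    simp only at h3
    linarith
  refine ⟨sSup S, ⟨fun ε hε => ?_, fun θ hθ => ?_⟩⟩
  · obtain ⟨_, ⟨a, ha, rfl⟩, h1⟩ := exists_lt_of_lt_csSup hSne (sub_lt_self (sSup S) hε)
    exact ⟨a, ha, fun _ => h1.le⟩
  · by_contra hcon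
    have h1 : v.Ge (sSup S) (y - θ) := by
      intro h0
      by_contra h2
      exact hcon ⟨sub_ne_zero.1 h0, not_le.1 h2⟩
    have hval : ∀ a ∈ NN k v x, θ - a ≠ 0 ∧ v (θ - a) = v (y - a) := by
      intro a ha
      refine Gt.val_eq (sub_ne_zero.2 (hb a ha).1) ?_
      rw [sub_sub_sub_cancel_right]
      exact Gt.of_ge h1 (hlt a ha)
    obtain ⟨a, ha, hθa | hθa⟩ := nn_attained p h hc hx hind hθ
    · exact (hval a ha).1 (sub_eq_zero.2 hθa)
    · have h2 : sSup S ≤ v (y - a) := by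
        refine csSup_le hSne ?_
        rintro _ ⟨b, hb', rfl⟩
        have h3 := (hθa b hb').2
        rw [(hval b hb').2, (hval a ha).2] at h3
        exact h3
      exact absurd h2 (not_le.2 (hlt a ha))

end Pool.Agent.TWM
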